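import Pool.Agent.W815.RGC.StmC
import Pool.Agent.H510R2.Div

set_option autoImplicit false

/-!
# Project RGD, part CNT: the number of quadruples
-/

namespace Pool.Agent.W815.RGD

open Finset

namespace Cnt2C

/-- the target set -/
noncomputable def Tgt (K q : ℕ) : Finset (ℤ × ℤ) :=
  ((Ioc (-(K : ℤ) - 1) K) ×ˢ (Ioc (-(K : ℤ) - 1) K)).filter (fun w => w.2 ≡ w.1 [ZMOD (q : ℤ)])

theorem card_class (K q : ℕ) (hq : 1 ≤ q) (v : ℤ) :
    (((Ioc (-(K : ℤ) - 1) K).filter (fun x => x ≡ v [ZMOD (q : ℤ)])).card : ℝ) ≤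
      (2 * K + 1) / q + 1 := by
  have hq' : (0 : ℤ) < (q : ℤ) := by exact_mod_cast hq
  have hqq : (0 : ℚ) < (q : ℚ) := by exact_mod_cast hq
  have h := Int.Ioc_filter_modEq_card (-(K : ℤ) - 1) (K : ℤ) hq' v
  have h2 : (((Ioc (-(K : ℤ) - 1) K).filter (fun x => x ≡ v [ZMOD (q : ℤ)])).card : ℚ) ≤
      (2 * K + 1) / q + 1 := by
    have h3 : (((Ioc (-(K : ℤ) - 1) K).filter (fun x => x ≡ v [ZMOD (q : ℤ)])).card : ℚ) =
        ((((Ioc (-(K : ℤ) - 1) K).filter (fun x => x ≡ v [ZMOD (q : ℤ)])).card : ℤ) : ℚ) := by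
      push_cast; rfl
    rw [h3, h]
    push_cast
    apply max_le
    · have e1 := Int.floor_le (((K : ℚ) - v) / ((q : ℕ) : ℚ))
      have e2 := Int.lt_floor_add_one ((-(K : ℚ) - 1 - v) / ((q : ℕ) : ℚ))
      have e3 : ((K : ℚ) - v) / q - (-(K : ℚ) - 1 - v) / q = (2 * K + 1) / q := by
        field_simp; ring
      linarith
    · positivity
  have h4 := (Rat.cast_le (K := ℝ)).mpr h2
  push_cast at h4
  exact h4

theorem card_Tgt (K q : ℕ) (hK : 1 ≤ K) (hq : 1 ≤ q) :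
    ((Tgt K q).card : ℝ) ≤ 9 * K * ((K : ℝ) / q + 1) := by
  have hKr : (1 : ℝ) ≤ K := by exact_mod_cast hK
  have hqr : (1 : ℝ) ≤ q := by exact_mod_cast hq
  have h1 : (Tgt K q).card = ∑ a ∈ Ioc (-(K : ℤ) - 1) K,
      ((Ioc (-(K : ℤ) - 1) K).filter (fun x => x ≡ a [ZMOD (q : ℤ)])).card := by
    unfold Tgt
    rw [Finset.card_filter, Finset.sum_product]
    apply Finset.sum_congr rfl
    intro a _
    rw [Finset.card_filter]
  rw [h1]
  push_cast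
  calc ∑ a ∈ Ioc (-(K : ℤ) - 1) K,
      (((Ioc (-(K : ℤ) - 1) K).filter (fun x => x ≡ a [ZMOD (q : ℤ)])).card : ℝ)
      ≤ ∑ a ∈ Ioc (-(K : ℤ) - 1) K, (((2 * K + 1) / q + 1 : ℝ)) :=
        Finset.sum_le_sum (fun a _ => card_class K q hq a)
    _ = (2 * K + 1) * ((2 * K + 1) / q + 1) := by
        rw [Finset.sum_const, Int.card_Ioc, nsmul_eq_mul]
        have : (((K : ℤ) - (-(K : ℤ) - 1)).toNat : ℝ) = 2 * K + 1 := by
          have e : ((K : ℤ) - (-(K : ℤ) - 1)).toNat = 2 * K + 1 := by omega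
          rw [e]; push_cast; rfl
        rw [this]
    _ ≤ (3 * K) * ((3 * K) / q + 1) := by gcongr <;> linarith
    _ ≤ 9 * K * ((K : ℝ) / q + 1) := by
        have : (3 * (K : ℝ)) / q = 3 * (K / q) := by ring
        rw [this]
        have h0 : 0 ≤ (K : ℝ) / q := by positivity
        nlinarith

/-- the map -/
def phi (z : (ℕ × ℕ) × (ℕ × ℕ)) : ℤ × ℤ :=
  (((z.1.1 : ℤ) - z.1.2) * z.2.2, ((z.2.1 : ℤ) - z.2.2) * z.1.2)

theorem mem_Quad {N L q : ℕ} {z : (ℕ × ℕ) × (ℕ × ℕ)} (hz : z ∈ Quad N L q) :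
    (1 ≤ z.1.1 ∧ z.1.1 ≤ N) ∧ (1 ≤ z.1.2 ∧ z.1.2 ≤ N) ∧ (1 ≤ z.2.1 ∧ z.2.1 ≤ N) ∧
      (1 ≤ z.2.2 ∧ z.2.2 ≤ N) ∧ z.1.1 ≠ z.1.2 ∧ z.1.1 ≤ z.1.2 + L ∧ z.1.2 ≤ z.1.1 + L ∧
    z.2.1 ≠ z.2.2 ∧ z.2.1 ≤ z.2.2 + L ∧ z.2.2 ≤ z.2.1 + L ∧
    z.1.1 * z.2.2 ≡ z.2.1 * z.1.2 [MOD q] := by
  unfold Quad at hz
  simp only [mem_filter, mem_product, mem_Icc] at hz
  obtain ⟨⟨⟨a, b⟩, ⟨c, d⟩⟩, e⟩ := hz
  exact ⟨a, b, c, d, e⟩

theorem abs_bd {N L : ℕ} {a b m : ℕ} (h1 : a ≤ b + L) (h2 : b ≤ a + L) (hm : m ≤ N) :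
    |((a : ℤ) - b) * m| ≤ ((N * L : ℕ) : ℤ) := by
  rw [abs_mul]
  have e1 : |(a : ℤ) - b| ≤ L := by rw [abs_le]; constructor <;> omega
  have e2 : |(m : ℤ)| ≤ N := by rw [abs_le]; constructor <;> omega
  push_cast
  rw [mul_comm]
  exact mul_le_mul e2 e1 (abs_nonneg _) (by positivity)

theorem ne0 {a b m : ℕ} (h : a ≠ b) (hm : 1 ≤ m) : ((a : ℤ) - b) * m ≠ 0 := by
  apply mul_ne_zero
  · intro h'; apply h; omega
  · intro h'; omega

theorem phi_mem {N L q : ℕ} {z : (ℕ × ℕ) × (ℕ × ℕ)} (hz : z ∈ Quad N L q) :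
    phi z ∈ Tgt (N * L) q := by
  obtain ⟨a, b, c, d, e1, e2, e3, e4, e5, e6, e7⟩ := mem_Quad hz
  have b1 := abs_bd (N := N) (L := L) e2 e3 d.2
  have b2 := abs_bd (N := N) (L := L) e5 e6 b.2
  rw [abs_le] at b1 b2
  unfold Tgt phi
  simp only [mem_filter, mem_product, mem_Ioc]
  refine ⟨⟨⟨by omega, b1.2⟩, ⟨by omega, b2.2⟩⟩, ?_⟩
  have h7 := (Int.natCast_modEq_iff (n := q)).mpr e7
  push_cast at h7
  rw [Int.modEq_iff_dvd] at h7 ⊢
  have : ((z.1.1 : ℤ) - z.1.2) * z.2.2 - ((z.2.1 : ℤ) - z.2.2) * z.1.2 =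
      -((z.2.1 : ℤ) * z.1.2 - z.1.1 * z.2.2) := by ring
  rw [this]
  exact (dvd_neg).mpr h7

theorem fiber (N L q : ℕ) (z₀ : (ℕ × ℕ) × (ℕ × ℕ)) (hz₀ : z₀ ∈ Quad N L q) :
    ((Quad N L q).filter (fun z => phi z = phi z₀)).card ≤
      (phi z₀).1.natAbs.divisors.card * (phi z₀).2.natAbs.divisors.card := by
  obtain ⟨a, b, c, d, e1, e2, e3, e4, e5, e6, e7⟩ := mem_Quad hz₀
  have n1 : (phi z₀).1 ≠ 0 := ne0 e1 d.1
  have n2 : (phi z₀).2 ≠ 0 := ne0 e4 b.1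
  rw [← Finset.card_product]
  apply Finset.card_le_card_of_injOn (fun z => (z.2.2, z.1.2))
  · intro z hz
    simp only [coe_filter, Set.mem_ofPred_eq] at hz
    simp only [coe_product, Set.mem_prod, mem_coe, Nat.mem_divisors]
    refine ⟨⟨?_, Int.natAbs_ne_zero.mpr n1⟩, ⟨?_, Int.natAbs_ne_zero.mpr n2⟩⟩
    · rw [← hz.2, ← Int.natCast_dvd]
      exact Dvd.intro_left _ rfl
    · rw [← hz.2, ← Int.natCast_dvd]
      exact Dvd.intro_left _ rfl
  · intro z hz w hw h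
    simp only [coe_filter, Set.mem_ofPred_eq] at hz hw
    simp only [Prod.mk.injEq] at h
    obtain ⟨a', b', c', d', -⟩ := mem_Quad hz.1
    obtain ⟨a'', b'', c'', d'', -⟩ := mem_Quad hw.1
    have hh : phi z = phi w := by rw [hz.2, hw.2]
    unfold phi at hh
    simp only [Prod.mk.injEq] at hh
    obtain ⟨h1, h2⟩ := hh
    rw [h.1, h.2] at h1
    rw [h.1, h.2] at h2
    have k1 : (z.1.1 : ℤ) - w.1.2 = (w.1.1 : ℤ) - w.1.2 :=
      mul_right_cancel₀ (by omega : (w.2.2 : ℤ) ≠ 0) h1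
    have k2 : (z.2.1 : ℤ) - w.2.2 = (w.2.1 : ℤ) - w.2.2 :=
      mul_right_cancel₀ (by omega : (w.1.2 : ℤ) ≠ 0) h2
    have j1 : z.1.1 = w.1.1 := by omega
    have j2 : z.2.1 = w.2.1 := by omega
    exact Prod.ext (Prod.ext j1 h.2) (Prod.ext j2 h.1)

end Cnt2C

open Cnt2C in
theorem cntC : SCntC := by
  intro η hη
  obtain ⟨D, hD, hdb⟩ := Pool.Agent.H510R2.divisor_bound (η / 4) (by positivity)
  refine ⟨9 * D ^ 2, by positivity, ?_⟩
  intro N L q hN hL hLN hq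
  have hNr : (1 : ℝ) ≤ N := by exact_mod_cast hN
  have hLr : (1 : ℝ) ≤ L := by exact_mod_cast hL
  have hLNr : (L : ℝ) ≤ N := by exact_mod_cast hLN
  have hqr : (1 : ℝ) ≤ q := by exact_mod_cast hq
  have hdiv : ∀ x : ℤ, x ≠ 0 → |x| ≤ ((N * L : ℕ) : ℤ) →
      ((x.natAbs.divisors.card : ℕ) : ℝ) ≤ D * (N : ℝ) ^ (η / 2) := by
    intro x hx hxb
    have h1 : 1 ≤ x.natAbs := Nat.one_le_iff_ne_zero.mpr (Int.natAbs_ne_zero.mpr hx)
    refine (hdb _ h1).trans ?_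
    apply mul_le_mul_of_nonneg_left _ hD.le
    have h2 : x.natAbs ≤ N * L := by
      rw [← Int.natCast_natAbs] at hxb
      exact_mod_cast hxb
    have h3 : (x.natAbs : ℝ) ≤ (N : ℝ) ^ (2 : ℝ) := by
      calc (x.natAbs : ℝ) ≤ ((N * L : ℕ) : ℝ) := by exact_mod_cast h2
        _ = (N : ℝ) * L := by push_cast; rfl
        _ ≤ (N : ℝ) * N := by gcongr
        _ = (N : ℝ) ^ (2 : ℝ) := by
            rw [Real.rpow_two]; ring
    calc (x.natAbs : ℝ) ^ (η / 4) ≤ ((N : ℝ) ^ (2 : ℝ)) ^ (η / 4) :=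
          Real.rpow_le_rpow (by positivity) h3 (by positivity)
      _ = (N : ℝ) ^ (η / 2) := by
          rw [← Real.rpow_mul (by positivity)]
          congr 1; ring
  have hmain : ((Quad N L q).card : ℝ) ≤ ((Tgt (N * L) q).card : ℝ) * (D ^ 2 * (N : ℝ) ^ η) := by
    rw [Finset.card_eq_sum_card_image phi (Quad N L q)]
    push_cast
    have hsub : (Quad N L q).image phi ⊆ Tgt (N * L) q := by
      intro w hw
      rw [mem_image] at hw
      obtain ⟨z, hz, rfl⟩ := hw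
      exact phi_mem hz
    calc ∑ w ∈ (Quad N L q).image phi, (((Quad N L q).filter (fun z => phi z = w)).card : ℝ)
        ≤ ∑ w ∈ (Quad N L q).image phi, D ^ 2 * (N : ℝ) ^ η := by
          apply Finset.sum_le_sum
          intro w hw
          rw [mem_image] at hw
          obtain ⟨z₀, hz₀, rfl⟩ := hw
          obtain ⟨a, b, c, d, e1, e2, e3, e4, e5, e6, e7⟩ := mem_Quad hz₀
          have n1 : (phi z₀).1 ≠ 0 := ne0 e1 d.1
          have n2 : (phi z₀).2 ≠ 0 := ne0 e4 b.1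
          have f := fiber N L q z₀ hz₀
          have g1 := hdiv _ n1 (abs_bd e2 e3 d.2)
          have g2 := hdiv _ n2 (abs_bd e5 e6 b.2)
          calc (((Quad N L q).filter (fun z => phi z = phi z₀)).card : ℝ)
              ≤ (((phi z₀).1.natAbs.divisors.card * (phi z₀).2.natAbs.divisors.card : ℕ) : ℝ) := by
                exact_mod_cast f
            _ = ((phi z₀).1.natAbs.divisors.card : ℝ) * ((phi z₀).2.natAbs.divisors.card : ℝ) := by
                push_cast; rfl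
            _ ≤ (D * (N : ℝ) ^ (η / 2)) * (D * (N : ℝ) ^ (η / 2)) :=
                mul_le_mul g1 g2 (by positivity) (by positivity)
            _ = D ^ 2 * ((N : ℝ) ^ (η / 2) * (N : ℝ) ^ (η / 2)) := by ring
            _ = D ^ 2 * (N : ℝ) ^ η := by
                rw [← Real.rpow_add (by positivity)]
                congr 2; ring
      _ = (((Quad N L q).image phi).card : ℝ) * (D ^ 2 * (N : ℝ) ^ η) := by
          rw [Finset.sum_const, nsmul_eq_mul]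
      _ ≤ ((Tgt (N * L) q).card : ℝ) * (D ^ 2 * (N : ℝ) ^ η) := by
          apply mul_le_mul_of_nonneg_right _ (by positivity)
          exact_mod_cast Finset.card_le_card hsub
  have hT := card_Tgt (N * L) q (Nat.one_le_iff_ne_zero.mpr (by positivity)) hq
  push_cast at hT
  calc ((Quad N L q).card : ℝ) ≤ ((Tgt (N * L) q).card : ℝ) * (D ^ 2 * (N : ℝ) ^ η) := hmain
    _ ≤ (9 * ((N : ℝ) * L) * ((N : ℝ) * L / q + 1)) * (D ^ 2 * (N : ℝ) ^ η) := by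
        apply mul_le_mul_of_nonneg_right hT (by positivity)
    _ = 9 * D ^ 2 * (N : ℝ) ^ η * (N * L) * ((N : ℝ) * L / q + 1) := by ring

end Pool.Agent.W815.RGD
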