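import Pool.Agent.W815.RGC.StmC

set_option autoImplicit false

/-!
# RGD-DIA: the diagonal terms
-/

namespace Pool.Agent.W815.RGD

open Finset

/-- The number of natural numbers at distance less than `H/2` from `Y`. -/
theorem near_card (T : Finset ℕ) (Y H : ℝ) (hH : 0 ≤ H) (hY : H / 2 ≤ Y)
    (hT : ∀ n ∈ T, |(n : ℝ) - Y| < H / 2) : (T.card : ℝ) ≤ H + 1 := by
  have h1 : T ⊆ Icc ⌈Y - H / 2⌉₊ ⌊Y + H / 2⌋₊ := by
    intro n hn
    have h2 := abs_lt.1 (hT n hn)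
    rw [mem_Icc]
    constructor
    · apply Nat.ceil_le.2; linarith
    · apply Nat.le_floor; linarith
  have h2 := card_le_card h1
  rw [Nat.card_Icc] at h2
  have h3 : (⌊Y + H / 2⌋₊ : ℝ) ≤ Y + H / 2 := Nat.floor_le (by linarith)
  have h4 : Y - H / 2 ≤ (⌈Y - H / 2⌉₊ : ℝ) := Nat.le_ceil _
  by_cases h5 : ⌈Y - H / 2⌉₊ ≤ ⌊Y + H / 2⌋₊ + 1
  · have h6 : (T.card : ℝ) ≤ ((⌊Y + H / 2⌋₊ + 1 - ⌈Y - H / 2⌉₊ : ℕ) : ℝ) := by exact_mod_cast h2
    rw [Nat.cast_sub h5] at h6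
    push_cast at h6
    linarith
  · have h6 : ⌊Y + H / 2⌋₊ + 1 - ⌈Y - H / 2⌉₊ = 0 := by omega
    rw [h6] at h2
    have h7 : (T.card : ℝ) ≤ 0 := by exact_mod_cast h2
    linarith

/-- One term. -/
theorem dia_term (X H : ℝ) (hX : 1 ≤ X) (hH : 1 ≤ H) (hHX : H ≤ X) (n : ℕ) :
    |wt X H n n - (if X < n ∧ (n : ℝ) ≤ 2 * X then H else 0)| ≤
      H * (if |(n : ℝ) - X| < H / 2 ∨ |(n : ℝ) - 2 * X| < H / 2 then 1 else 0) := by
  have hw : wt X H n n = max 0 (min (2 * X) ((n : ℝ) + H / 2) - max X ((n : ℝ) - H / 2)) := by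
    unfold wt
    rw [min_self, max_self]
  rw [hw]
  have hw0 : 0 ≤ max 0 (min (2 * X) ((n : ℝ) + H / 2) - max X ((n : ℝ) - H / 2)) :=
    le_max_left _ _
  have hwH : max 0 (min (2 * X) ((n : ℝ) + H / 2) - max X ((n : ℝ) - H / 2)) ≤ H := by
    apply max_le (by linarith)
    have h1 := min_le_right (2 * X) ((n : ℝ) + H / 2)
    have h2 := le_max_right X ((n : ℝ) - H / 2)
    linarith
  by_cases hn : |(n : ℝ) - X| < H / 2 ∨ |(n : ℝ) - 2 * X| < H / 2
  · rw [if_pos hn, mul_one, abs_le]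
    split_ifs <;> constructor <;> linarith
  · rw [if_neg hn, mul_zero]
    rw [not_or, not_lt, not_lt] at hn
    obtain ⟨h1, h2⟩ := hn
    have : max 0 (min (2 * X) ((n : ℝ) + H / 2) - max X ((n : ℝ) - H / 2)) =
        if X < n ∧ (n : ℝ) ≤ 2 * X then H else 0 := by
      rcases le_abs.1 h1 with h3 | h3
      · rcases le_abs.1 h2 with h4 | h4
        · rw [if_neg (by rintro ⟨_, h5⟩; linarith)]
          apply max_eq_left
          have h5 := min_le_left (2 * X) ((n : ℝ) + H / 2)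
          have h6 := le_max_right X ((n : ℝ) - H / 2)
          linarith
        · rw [if_pos ⟨by linarith, by linarith⟩, min_eq_right (by linarith),
            max_eq_right (a := X) (by linarith), max_eq_right (by linarith)]
          ring
      · rw [if_neg (by rintro ⟨h5, _⟩; linarith)]
        apply max_eq_left
        have h5 := min_le_right (2 * X) ((n : ℝ) + H / 2)
        have h6 := le_max_left X ((n : ℝ) - H / 2)
        linarith
    rw [this, sub_self, abs_zero]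

theorem dia_gen (S : Finset ℕ) (X H : ℝ) (hX : 1 ≤ X) (hH : 1 ≤ H) (hHX : H ≤ X) :
    |∑ n ∈ S, wt X H n n - H * ((S.filter (fun n : ℕ => X < n ∧ (n : ℝ) ≤ 2 * X)).card : ℝ)| ≤
      4 * H * (H + 2) := by
  have h1 : H * ((S.filter (fun n : ℕ => X < n ∧ (n : ℝ) ≤ 2 * X)).card : ℝ) =
      ∑ n ∈ S, (if X < (n : ℝ) ∧ (n : ℝ) ≤ 2 * X then H else 0) := by
    rw [← Finset.sum_filter, Finset.sum_const, nsmul_eq_mul, mul_comm]
  rw [h1, ← Finset.sum_sub_distrib]
  refine (Finset.abs_sum_le_sum_abs _ _).trans ?_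
  refine (Finset.sum_le_sum fun n _ => dia_term X H hX hH hHX n).trans ?_
  rw [← Finset.mul_sum, ← Finset.sum_filter, Finset.sum_const, nsmul_eq_mul, mul_one]
  have h2 : (S.filter (fun n : ℕ => |(n : ℝ) - X| < H / 2 ∨ |(n : ℝ) - 2 * X| < H / 2)).card ≤
      (S.filter (fun n : ℕ => |(n : ℝ) - X| < H / 2)).card +
      (S.filter (fun n : ℕ => |(n : ℝ) - 2 * X| < H / 2)).card := by
    rw [Finset.filter_or]
    exact card_union_le _ _
  have h3 := near_card (S.filter (fun n : ℕ => |(n : ℝ) - X| < H / 2)) X H (by linarith)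
    (by linarith) (fun n hn => (mem_filter.1 hn).2)
  have h4 := near_card (S.filter (fun n : ℕ => |(n : ℝ) - 2 * X| < H / 2)) (2 * X) H (by linarith)
    (by linarith) (fun n hn => (mem_filter.1 hn).2)
  have h5 : ((S.filter (fun n : ℕ => |(n : ℝ) - X| < H / 2 ∨
      |(n : ℝ) - 2 * X| < H / 2)).card : ℝ) ≤ 2 * (H + 1) := by
    have h6 : ((S.filter (fun n : ℕ => |(n : ℝ) - X| < H / 2 ∨
      |(n : ℝ) - 2 * X| < H / 2)).card : ℝ) ≤
      ((S.filter (fun n : ℕ => |(n : ℝ) - X| < H / 2)).card : ℝ) +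
      ((S.filter (fun n : ℕ => |(n : ℝ) - 2 * X| < H / 2)).card : ℝ) := by exact_mod_cast h2
    linarith
  have h6 := mul_le_mul_of_nonneg_left h5 (by linarith : (0 : ℝ) ≤ H)
  nlinarith

theorem dia : SDia := by
  classical
  intro q X H hX hH hHX
  have h0 : Sq q X = (((((Icc 1 (Nx X)).filter (fun n => Squarefree n ∧ n.Coprime q)).filter
      (fun n : ℕ => X < n ∧ (n : ℝ) ≤ 2 * X)).card : ℕ) : ℝ) := by
    unfold Sq
    congr 2
    ext n
    simp only [mem_filter, mem_Ioc, mem_Icc]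
    have hX0 : 0 ≤ X := by linarith
    constructor
    · rintro ⟨⟨h1, h2⟩, h3⟩
      have h4 : X < n := (Nat.floor_lt hX0).1 h1
      have h5 : (n : ℝ) ≤ 2 * X := (Nat.le_floor_iff (by linarith)).1 h2
      refine ⟨⟨⟨?_, ?_⟩, h3⟩, h4, h5⟩
      · have : (1 : ℝ) < n := by linarith
        have h6 : 1 < n := by exact_mod_cast this
        omega
      · unfold Nx
        have h6 : (n : ℝ) ≤ (⌈3 * X⌉₊ : ℝ) := by
          have := Nat.le_ceil (3 * X)
          linarith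
        have h7 : n ≤ ⌈3 * X⌉₊ := by exact_mod_cast h6
        omega
    · rintro ⟨⟨_, h3⟩, h4, h5⟩
      exact ⟨⟨(Nat.floor_lt hX0).2 h4, Nat.le_floor h5⟩, h3⟩
  rw [h0]
  exact dia_gen _ X H hX hH hHX

end Pool.Agent.W815.RGD
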