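import Pool.Agent.W815.RGC.StmC

set_option autoImplicit false

/-!
# RGD-FIN: the Good-Churchhouse asymptotics for almost all characters
-/

namespace Pool.Agent.W815.RGD

open Finset MeasureTheory Filter Topology

lemma wt_nonneg (X H : ℝ) (n m : ℕ) : 0 ≤ wt X H n m := le_max_left _ _

lemma wt_le (X H : ℝ) (hH : 0 ≤ H) (n m : ℕ) : wt X H n m ≤ H := by
  unfold wt
  apply max_le hH
  have h1 : min (2 * X) (min (n : ℝ) m + H / 2) ≤ min (n : ℝ) m + H / 2 := min_le_right _ _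
  have h2 : max (n : ℝ) m - H / 2 ≤ max X (max (n : ℝ) m - H / 2) := le_max_right _ _
  have h3 : min (n : ℝ) m ≤ max (n : ℝ) m := min_le_max
  linarith

lemma wt_zero (X H : ℝ) (n m : ℕ) (h : H ≤ |(n : ℝ) - m|) : wt X H n m = 0 := by
  unfold wt
  apply max_eq_left
  have h1 : min (2 * X) (min (n : ℝ) m + H / 2) ≤ min (n : ℝ) m + H / 2 := min_le_right _ _
  have h2 : max (n : ℝ) m - H / 2 ≤ max X (max (n : ℝ) m - H / 2) := le_max_right _ _
  have h3 : max (n : ℝ) m - min (n : ℝ) m = |(n : ℝ) - m| := max_sub_min_eq_abs' _ _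
  linarith

/-- the pairs -/
def PP (N L : ℕ) : Finset (ℕ × ℕ) :=
  (Icc 1 N ×ˢ Icc 1 N).filter (fun x => x.1 ≠ x.2 ∧ x.1 ≤ x.2 + L ∧ x.2 ≤ x.1 + L)

/-- the coefficients -/
noncomputable def cc (X H : ℝ) (x : ℕ × ℕ) : ℝ :=
  ((ArithmeticFunction.moebius x.1 : ℤ) : ℝ) * ((ArithmeticFunction.moebius x.2 : ℤ) : ℝ) *
    wt X H x.1 x.2

lemma mu_abs (n : ℕ) : |((ArithmeticFunction.moebius n : ℤ) : ℝ)| ≤ 1 := by
  have h := ArithmeticFunction.abs_moebius_le_one (n := n)
  rw [← Int.cast_abs]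
  exact_mod_cast h

lemma cc_abs (X H : ℝ) (hH : 0 ≤ H) (x : ℕ × ℕ) : |cc X H x| ≤ H := by
  unfold cc
  rw [abs_mul, abs_mul, abs_of_nonneg (wt_nonneg X H x.1 x.2)]
  have h1 := mu_abs x.1
  have h2 := mu_abs x.2
  have h3 := wt_le X H hH x.1 x.2
  have h4 := wt_nonneg X H x.1 x.2
  calc _ ≤ (1 * 1) * H := by
        apply mul_le_mul _ h3 h4 (by norm_num)
        exact mul_le_mul h1 h2 (abs_nonneg _) (by norm_num)
    _ = H := by ring

/-- the off-diagonal part -/
noncomputable def OffC {q : ℕ} (χ : DirichletCharacter ℂ q) (X H : ℝ) (L : ℕ) : ℂ :=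
  ∑ x ∈ PP (Nx X) L, (cc X H x : ℂ) * (χ (x.1 : ZMod q) * (starRingEnd ℂ) (χ (x.2 : ZMod q)))

/-- the diagonal -/
noncomputable def Dd (q : ℕ) (X H : ℝ) : ℝ :=
  open Classical in ∑ n ∈ (Icc 1 (Nx X)).filter (fun n => Squarefree n ∧ n.Coprime q),
      wt X H n n

lemma mumu (n : ℕ) : (((ArithmeticFunction.moebius n : ℤ) : ℂ) *
    ((ArithmeticFunction.moebius n : ℤ) : ℂ)) = if Squarefree n then 1 else 0 := by
  split_ifs with h
  · have := ArithmeticFunction.moebius_sq_eq_one_of_squarefree h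
    rw [← sq]
    exact_mod_cast this
  · rw [ArithmeticFunction.moebius_eq_zero_of_not_squarefree h]
    simp

lemma chichi {q : ℕ} (χ : DirichletCharacter ℂ q) (n : ℕ) :
    χ (n : ZMod q) * (starRingEnd ℂ) (χ (n : ZMod q)) = if n.Coprime q then 1 else 0 := by
  split_ifs with h
  · have hu : IsUnit (n : ZMod q) := (ZMod.isUnit_iff_coprime n q).mpr h
    obtain ⟨u, hu⟩ := hu
    rw [← hu, Complex.mul_conj, Complex.normSq_eq_norm_sq, DirichletCharacter.unit_norm_eq_one χ u]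
    simp
  · have hu : ¬ IsUnit (n : ZMod q) := fun h' => h ((ZMod.isUnit_iff_coprime n q).mp h')
    rw [MulChar.map_nonunit χ hu]
    simp

lemma split_exp (hE : SExp) (q : ℕ) (hq : NeZero q) (χ : DirichletCharacter ℂ q) (X H : ℝ)
    (hX : 1 ≤ X) (hH : 1 ≤ H) (hHX : H ≤ X) :
    ((X * Vc χ X H : ℝ) : ℂ) = ((Dd q X H : ℝ) : ℂ) + OffC χ X H ⌈H⌉₊ := by
  classical
  rw [hE q hq χ X H hX hH hHX]
  set F : ℕ × ℕ → ℂ := fun x =>
    (((ArithmeticFunction.moebius x.1 : ℤ) : ℂ) * ((ArithmeticFunction.moebius x.2 : ℤ) : ℂ)) *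
      (χ (x.1 : ZMod q) * (starRingEnd ℂ) (χ (x.2 : ZMod q))) * ((wt X H x.1 x.2 : ℝ) : ℂ) with hF
  have e1 : (∑ n ∈ Icc 1 (Nx X), ∑ m ∈ Icc 1 (Nx X),
    (((ArithmeticFunction.moebius n : ℤ) : ℂ) * ((ArithmeticFunction.moebius m : ℤ) : ℂ)) *
      (χ (n : ZMod q) * (starRingEnd ℂ) (χ (m : ZMod q))) * ((wt X H n m : ℝ) : ℂ)) =
      ∑ x ∈ Icc 1 (Nx X) ×ˢ Icc 1 (Nx X), F x := by
    rw [Finset.sum_product]
  rw [e1, ← Finset.sum_filter_add_sum_filter_not (Icc 1 (Nx X) ×ˢ Icc 1 (Nx X))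
    (fun x : ℕ × ℕ => x.1 = x.2) F]
  congr 1
  · have e2 : (∑ x ∈ (Icc 1 (Nx X) ×ˢ Icc 1 (Nx X)).filter (fun x : ℕ × ℕ => x.1 = x.2), F x) =
        ∑ n ∈ Icc 1 (Nx X), F (n, n) := by
      refine Finset.sum_nbij' (fun x => x.1) (fun n => (n, n)) ?_ ?_ ?_ ?_ ?_
      · rintro ⟨a, b⟩ h
        simp only [mem_filter, mem_product] at h
        exact h.1.1
      · intro a h
        simp only [mem_filter, mem_product]
        exact ⟨⟨h, h⟩, trivial⟩
      · rintro ⟨a, b⟩ h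
        simp only [mem_filter, mem_product] at h
        simp [h.2]
      · intro a _
        rfl
      · rintro ⟨a, b⟩ h
        simp only [mem_filter, mem_product] at h
        rw [show b = a from h.2.symm]
    rw [e2]
    unfold Dd
    rw [Complex.ofReal_sum, Finset.sum_filter]
    apply Finset.sum_congr rfl
    intro n _
    simp only [hF]
    rw [mumu, chichi]
    by_cases h1 : Squarefree n <;> by_cases h2 : n.Coprime q <;> simp [h1, h2]
  · unfold OffC
    have e3 : (∑ x ∈ PP (Nx X) ⌈H⌉₊, (cc X H x : ℂ) *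
        (χ (x.1 : ZMod q) * (starRingEnd ℂ) (χ (x.2 : ZMod q)))) =
        ∑ x ∈ PP (Nx X) ⌈H⌉₊, F x := by
      apply Finset.sum_congr rfl
      intro x _
      simp only [hF, cc]
      push_cast
      ring
    rw [e3]
    symm
    apply Finset.sum_subset
    · intro x hx
      simp only [PP, mem_filter] at hx
      simp only [mem_filter]
      exact ⟨hx.1, hx.2.1⟩
    · intro x hx hx'
      simp only [mem_filter] at hx
      have h3 : ¬ (x.1 ≤ x.2 + ⌈H⌉₊ ∧ x.2 ≤ x.1 + ⌈H⌉₊) := by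
        intro h
        apply hx'
        simp only [PP, mem_filter]
        exact ⟨hx.1, hx.2, h.1, h.2⟩
      have h4 : wt X H x.1 x.2 = 0 := by
        apply wt_zero
        have h5 : H ≤ (⌈H⌉₊ : ℝ) := Nat.le_ceil H
        by_cases h6 : x.1 ≤ x.2 + ⌈H⌉₊
        · have h7 : x.1 + ⌈H⌉₊ < x.2 := by
            by_contra hc
            exact h3 ⟨h6, by omega⟩
          have h8 : (x.1 : ℝ) + (⌈H⌉₊ : ℝ) < x.2 := by exact_mod_cast h7
          rw [abs_sub_comm]
          exact le_trans (by linarith) (le_abs_self _)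
        · have h7 : x.2 + ⌈H⌉₊ < x.1 := by omega
          have h8 : (x.2 : ℝ) + (⌈H⌉₊ : ℝ) < x.1 := by exact_mod_cast h7
          exact le_trans (by linarith) (le_abs_self _)
      simp only [hF, h4]
      simp

/-- Chebyshev -/
lemma cheb {q : ℕ} (hq : NeZero q) (f : DirichletCharacter ℂ q → ℝ) (τ : ℝ)
    (hτ : 0 < τ) (B : ℝ) (h : (∑ᶠ χ, f χ ^ 2) ≤ B) :
    (Set.ncard {χ : DirichletCharacter ℂ q | τ < f χ} : ℝ) * τ ^ 2 ≤ B := by
  classical
  haveI : Fintype (DirichletCharacter ℂ q) := Fintype.ofFinite _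
  refine le_trans ?_ h
  rw [finsum_eq_sum_of_fintype, Set.ncard_eq_toFinset_card']
  calc _ = ∑ χ ∈ {χ : DirichletCharacter ℂ q | τ < f χ}.toFinset, τ ^ 2 := by
        rw [Finset.sum_const, nsmul_eq_mul]
    _ ≤ ∑ χ ∈ {χ : DirichletCharacter ℂ q | τ < f χ}.toFinset, f χ ^ 2 := by
        apply Finset.sum_le_sum
        intro χ hχ
        rw [Set.mem_toFinset, Set.mem_setOf_eq] at hχ
        exact pow_le_pow_left₀ hτ.le hχ.le 2
    _ ≤ ∑ χ, f χ ^ 2 :=
        Finset.sum_le_sum_of_subset_of_nonneg (Finset.subset_univ _) (fun _ _ _ => sq_nonneg _)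

lemma quad_real (ε η C1 X H N L q : ℝ) (hC1 : 0 < C1) (hη0 : 0 < η) (hη1 : η ≤ 1)
    (hX : 1 ≤ X) (hH : 1 ≤ H) (hHX : H ≤ X ^ (1 - ε)) (hq : X ^ ε * H ^ 2 ≤ q) (hN0 : 0 ≤ N)
    (hN : N ≤ 5 * X) (hL0 : 0 ≤ L) (hL : L ≤ 2 * H) :
    C1 * N ^ η * (N * L) * (N * L / q + 1) ≤ 550 * C1 * (X ^ (η - ε) * X ^ 2) := by
  have hX0 : 0 < X := by linarith
  have hH0 : 0 < H := by linarith
  have hXe : 0 < X ^ ε := Real.rpow_pos_of_pos hX0 _
  have hq0 : 0 < q := lt_of_lt_of_le (by positivity) hq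
  have e1 : N ^ η ≤ 5 * X ^ η := by
    calc N ^ η ≤ (5 * X) ^ η := Real.rpow_le_rpow hN0 hN hη0.le
      _ = 5 ^ η * X ^ η := Real.mul_rpow (by norm_num) hX0.le
      _ ≤ 5 * X ^ η := by
          apply mul_le_mul_of_nonneg_right _ (Real.rpow_nonneg hX0.le _)
          calc (5 : ℝ) ^ η ≤ 5 ^ (1 : ℝ) := Real.rpow_le_rpow_of_exponent_le (by norm_num) hη1
            _ = 5 := Real.rpow_one _
  have e2 : N * L ≤ 10 * (X * H) := by
    calc N * L ≤ (5 * X) * (2 * H) := mul_le_mul hN hL hL0 (by positivity)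
      _ = 10 * (X * H) := by ring
  have e2' : 0 ≤ N * L := mul_nonneg hN0 hL0
  have e3 : X ^ (-ε) * X ^ ε = 1 := by
    rw [← Real.rpow_add hX0]
    simp
  have e4 : H ^ 2 / q ≤ X ^ (-ε) := by
    rw [div_le_iff₀ hq0]
    calc H ^ 2 = X ^ (-ε) * (X ^ ε * H ^ 2) := by rw [← mul_assoc, e3, one_mul]
      _ ≤ X ^ (-ε) * q := mul_le_mul_of_nonneg_left hq (Real.rpow_nonneg hX0.le _)
  have e5 : X * H ≤ X ^ 2 * X ^ (-ε) := by
    have : X ^ (1 - ε) = X * X ^ (-ε) := by
      rw [sub_eq_add_neg, Real.rpow_add hX0, Real.rpow_one]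
    calc X * H ≤ X * X ^ (1 - ε) := mul_le_mul_of_nonneg_left hHX hX0.le
      _ = X ^ 2 * X ^ (-ε) := by rw [this]; ring
  have e6 : (N * L) * (N * L / q + 1) ≤ 110 * (X ^ 2 * X ^ (-ε)) := by
    have h1 : N * L / q ≤ 10 * (X * H) / q := div_le_div_of_nonneg_right e2 hq0.le
    calc (N * L) * (N * L / q + 1) ≤ (10 * (X * H)) * (10 * (X * H) / q + 1) := by
          apply mul_le_mul e2 (by linarith) _ (by positivity)
          have : 0 ≤ N * L / q := div_nonneg e2' hq0.le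
          linarith
      _ = 100 * (X ^ 2 * (H ^ 2 / q)) + 10 * (X * H) := by
          field_simp
          ring
      _ ≤ 100 * (X ^ 2 * X ^ (-ε)) + 10 * (X ^ 2 * X ^ (-ε)) := by
          have : X ^ 2 * (H ^ 2 / q) ≤ X ^ 2 * X ^ (-ε) := mul_le_mul_of_nonneg_left e4 (by positivity)
          linarith
      _ = _ := by ring
  have e7 : X ^ (η - ε) = X ^ η * X ^ (-ε) := by
    rw [sub_eq_add_neg, Real.rpow_add hX0]
  have hNe : 0 ≤ N ^ η := Real.rpow_nonneg hN0 _
  have h9 : 0 ≤ (N * L) * (N * L / q + 1) := by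
    have : 0 ≤ N * L / q := div_nonneg e2' hq0.le
    positivity
  calc C1 * N ^ η * (N * L) * (N * L / q + 1) = C1 * (N ^ η * ((N * L) * (N * L / q + 1))) := by
        ring
    _ ≤ C1 * ((5 * X ^ η) * (110 * (X ^ 2 * X ^ (-ε)))) := by
        apply mul_le_mul_of_nonneg_left _ hC1.le
        exact mul_le_mul e1 e6 h9 (by positivity)
    _ = _ := by rw [e7]; ring

lemma filter_card (N L q : ℕ) :
    (((PP N L) ×ˢ (PP N L)).filter (fun z => z.1.1 * z.2.2 ≡ z.2.1 * z.1.2 [MOD q])).card ≤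
      (Quad N L q).card := by
  apply Finset.card_le_card
  intro z hz
  simp only [PP, Quad, mem_filter, mem_product] at hz ⊢
  tauto

theorem finC : SExp → SCntC → SOrth → SDia → SFinC := by
  intro hE hC hO hD ε hε hε1
  obtain ⟨C1, hC1, hcnt⟩ := hC (ε / 4) (by positivity)
  set X1 : ℝ := (24 : ℝ) ^ (2 / ε) with hX1
  have hX1p : 0 < X1 := Real.rpow_pos_of_pos (by norm_num) _
  have hX1q : 0 < X1 ^ (ε / 8) := Real.rpow_pos_of_pos hX1p _
  refine ⟨ε / 8, 2200 * C1 + X1 ^ (ε / 8), by positivity, by positivity, ?_⟩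
  intro q hq X H hX hH hHX hqX
  have hX0 : 0 < X := by linarith
  have hH0 : 0 < H := by linarith
  have hHX' : H ≤ X := by
    refine hHX.trans ?_
    calc X ^ (1 - ε) ≤ X ^ (1 : ℝ) := Real.rpow_le_rpow_of_exponent_le hX (by linarith)
      _ = X := Real.rpow_one _
  set a : ℝ := X ^ (-(ε / 8)) with ha
  have ha0 : 0 < a := Real.rpow_pos_of_pos hX0 _
  have hφ : 0 ≤ (q.totient : ℝ) := Nat.cast_nonneg _
  by_cases hbig : X1 ≤ X
  · set L := ⌈H⌉₊ with hL
    have hLH : (L : ℝ) ≤ 2 * H := by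
      have := (Nat.ceil_lt_add_one hH0.le).le
      linarith
    have hL1 : 1 ≤ L := Nat.one_le_ceil_iff.mpr hH0
    have hN5 : (Nx X : ℝ) ≤ 5 * X := by
      unfold Nx
      have := (Nat.ceil_lt_add_one (show 0 ≤ 3 * X by positivity)).le
      push_cast
      linarith
    have hN1 : 1 ≤ Nx X := by unfold Nx; omega
    have hLN : L ≤ Nx X := by
      have : L ≤ ⌈3 * X⌉₊ := Nat.ceil_mono (by linarith)
      unfold Nx
      omega
    have hq1 : 1 ≤ q := Nat.one_le_iff_ne_zero.mpr hq.out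
    have hquad : ((Quad (Nx X) L q).card : ℝ) ≤ 550 * C1 * (X ^ (ε / 4 - ε) * X ^ 2) :=
      (hcnt (Nx X) L q hN1 hL1 hLN hq1).trans
        (quad_real ε (ε / 4) C1 X H (Nx X) L q hC1 (by positivity) (by linarith) hX hH hHX hqX
          (Nat.cast_nonneg _) hN5 (Nat.cast_nonneg _) hLH)
    have hoff : (∑ᶠ χ : DirichletCharacter ℂ q, ‖OffC χ X H L‖ ^ 2) ≤
        (q.totient : ℝ) * H ^ 2 * (550 * C1 * (X ^ (ε / 4 - ε) * X ^ 2)) := by
      refine (hO q hq (PP (Nx X) L) (cc X H) H hH0.le (fun x _ => cc_abs X H hH0.le x)).trans ?_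
      apply mul_le_mul_of_nonneg_left _ (by positivity)
      refine le_trans ?_ hquad
      exact_mod_cast filter_card (Nx X) L q
    have h24 : 24 * H ≤ a * X := by
      have h1 : (24 : ℝ) ≤ X ^ (ε / 2) := by
        have h2 : X1 ^ (ε / 2) ≤ X ^ (ε / 2) := Real.rpow_le_rpow hX1p.le hbig (by positivity)
        have h3 : X1 ^ (ε / 2) = 24 := by
          rw [hX1, ← Real.rpow_mul (by norm_num)]
          rw [show 2 / ε * (ε / 2) = 1 by field_simp]
          exact Real.rpow_one _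
        linarith
      have h4 : X ^ (ε / 2) * X ^ (1 - ε) ≤ a * X := by
        have h5 : a * X = X ^ (-(ε / 8) + 1) := by
          rw [Real.rpow_add hX0, Real.rpow_one]
        rw [h5, ← Real.rpow_add hX0]
        exact Real.rpow_le_rpow_of_exponent_le hX (by linarith)
      calc 24 * H ≤ X ^ (ε / 2) * X ^ (1 - ε) :=
            mul_le_mul h1 hHX hH0.le (Real.rpow_nonneg hX0.le _)
        _ ≤ a * X := h4
    have hsub : {χ : DirichletCharacter ℂ q | a * H < |Vc χ X H - H * Sq q X / X|} ⊆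
        {χ : DirichletCharacter ℂ q | a * H * X / 2 < ‖OffC χ X H L‖} := by
      intro χ hχ
      rw [Set.mem_setOf_eq] at hχ ⊢
      have hs := split_exp hE q hq χ X H hX hH hHX'
      have h1 : OffC χ X H L = ((X * Vc χ X H - Dd q X H : ℝ) : ℂ) := by
        rw [Complex.ofReal_sub, hs]
        ring
      have h2 : ‖OffC χ X H L‖ = |X * Vc χ X H - Dd q X H| := by
        rw [h1, Complex.norm_real, Real.norm_eq_abs]
      have h3 : |Dd q X H - H * Sq q X| ≤ 4 * H * (H + 2) := hD q X H hX hH hHX'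
      have h4 : X * |Vc χ X H - H * Sq q X / X| = |X * Vc χ X H - H * Sq q X| := by
        rw [← abs_of_pos hX0, ← abs_mul, abs_of_pos hX0]
        congr 1
        field_simp
      have h5 : |X * Vc χ X H - H * Sq q X| ≤ |X * Vc χ X H - Dd q X H| +
          |Dd q X H - H * Sq q X| := abs_sub_le _ _ _
      have h6 : X * (a * H) < X * |Vc χ X H - H * Sq q X / X| := mul_lt_mul_of_pos_left hχ hX0
      have h7 : 4 * H * (H + 2) ≤ a * H * X / 2 := by
        have h8 : 24 * H * H ≤ a * X * H := mul_le_mul_of_nonneg_right h24 hH0.le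
        nlinarith [mul_nonneg hH0.le (sub_nonneg.mpr hH)]
      rw [h2]
      rw [h4] at h6
      nlinarith
    have hτ : 0 < a * H * X / 2 := by positivity
    have hch := cheb hq (fun χ => ‖OffC χ X H L‖) (a * H * X / 2) hτ _ hoff
    have hmono : (Set.ncard {χ : DirichletCharacter ℂ q | a * H < |Vc χ X H - H * Sq q X / X|} : ℝ) ≤
        (Set.ncard {χ : DirichletCharacter ℂ q | a * H * X / 2 < ‖OffC χ X H L‖} : ℝ) := by
      exact_mod_cast Set.ncard_le_ncard hsub (Set.toFinite _)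
    refine hmono.trans ?_
    have h3 : X ^ (ε / 4 - ε) ≤ a ^ 3 := by
      rw [ha, ← Real.rpow_natCast (X ^ (-(ε / 8))) 3, ← Real.rpow_mul hX0.le]
      apply Real.rpow_le_rpow_of_exponent_le hX
      push_cast
      linarith
    have hM : 0 < (a * H * X / 2) ^ 2 := by positivity
    have hfin : (Set.ncard {χ : DirichletCharacter ℂ q | a * H * X / 2 < ‖OffC χ X H L‖} : ℝ) ≤
        2200 * C1 * a * q.totient := by
      apply le_of_mul_le_mul_right _ hM
      refine hch.trans ?_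
      calc (q.totient : ℝ) * H ^ 2 * (550 * C1 * (X ^ (ε / 4 - ε) * X ^ 2)) ≤
            (q.totient : ℝ) * H ^ 2 * (550 * C1 * (a ^ 3 * X ^ 2)) := by
            apply mul_le_mul_of_nonneg_left _ (by positivity)
            apply mul_le_mul_of_nonneg_left _ (by positivity)
            exact mul_le_mul_of_nonneg_right h3 (by positivity)
        _ = 2200 * C1 * a * q.totient * (a * H * X / 2) ^ 2 := by ring
    refine hfin.trans ?_
    have : 0 ≤ X1 ^ (ε / 8) * a * q.totient := by positivity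
    nlinarith
  · push Not at hbig
    haveI : Finite (DirichletCharacter ℂ q) := inferInstance
    have h1 : (Set.ncard {χ : DirichletCharacter ℂ q | a * H < |Vc χ X H - H * Sq q X / X|} : ℝ) ≤
        q.totient := by
      have h2 : Set.ncard {χ : DirichletCharacter ℂ q | a * H < |Vc χ X H - H * Sq q X / X|} ≤
          Set.ncard (Set.univ : Set (DirichletCharacter ℂ q)) :=
        Set.ncard_le_ncard (Set.subset_univ _) (Set.toFinite _)
      rw [Set.ncard_univ, DirichletCharacter.card_eq_totient_of_hasEnoughRootsOfUnity] at h2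
      exact_mod_cast h2
    refine h1.trans ?_
    have h3 : 1 ≤ X1 ^ (ε / 8) * a := by
      rw [ha, Real.rpow_neg hX0.le, ← div_eq_mul_inv, one_le_div (Real.rpow_pos_of_pos hX0 _)]
      exact Real.rpow_le_rpow hX0.le hbig.le (by positivity)
    have h4 : 0 ≤ C1 * a * q.totient := by positivity
    have h5 : (q.totient : ℝ) ≤ X1 ^ (ε / 8) * a * q.totient := by
      calc (q.totient : ℝ) = 1 * q.totient := by ring
        _ ≤ X1 ^ (ε / 8) * a * q.totient := mul_le_mul_of_nonneg_right h3 hφ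
    nlinarith

end Pool.Agent.W815.RGD
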