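import Pool.Agent.W815.RGC.StmC

set_option autoImplicit false

/-!
# RGD-ORTH: orthogonality for sums over all characters modulo `q`
-/

namespace Pool.Agent.W815.RGD

open Finset

/-- The sum of `χ a * conj (χ b)` over all characters is at most `φ(q)` if `a = b`, and `0`
otherwise. -/
theorem orth_inner {q : ℕ} [NeZero q] (a b : ZMod q) :
    ‖∑ χ : DirichletCharacter ℂ q, χ a * (starRingEnd ℂ) (χ b)‖ ≤
      if a = b then (q.totient : ℝ) else 0 := by
  by_cases hb : IsUnit b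
  · have h1 : ∀ χ : DirichletCharacter ℂ q, χ a * (starRingEnd ℂ) (χ b) = χ b⁻¹ * χ a := by
      intro χ
      have h2 : (starRingEnd ℂ) (χ b) = χ b⁻¹ := by
        have h3 : (starRingEnd ℂ) (χ b) = χ⁻¹ b := MulChar.star_apply' χ b
        rw [h3, MulChar.inv_apply_eq_inv']
        have h4 : χ b * χ b⁻¹ = 1 := by
          rw [← map_mul, ZMod.mul_inv_of_unit b hb, map_one]
        exact inv_eq_of_mul_eq_one_right h4
      rw [h2, mul_comm]
    rw [Finset.sum_congr rfl fun χ _ => h1 χ, DirichletCharacter.sum_char_inv_mul_char_eq ℂ hb a]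
    by_cases hab : a = b
    · rw [if_pos hab.symm, if_pos hab, Complex.norm_natCast]
    · rw [if_neg (fun h => hab h.symm), if_neg hab, norm_zero]
  · have h1 : ∀ χ : DirichletCharacter ℂ q, χ a * (starRingEnd ℂ) (χ b) = 0 := by
      intro χ
      rw [MulChar.map_nonunit χ hb, map_zero, mul_zero]
    rw [Finset.sum_congr rfl fun χ _ => h1 χ, Finset.sum_const_zero, norm_zero]
    split_ifs
    · exact Nat.cast_nonneg _
    · exact le_rfl

theorem orth : SOrth := by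
  classical
  intro q hq P c A hA hc
  rw [finsum_eq_sum_of_fintype]
  have key : ((∑ χ : DirichletCharacter ℂ q,
      ‖∑ x ∈ P, (c x : ℂ) * (χ (x.1 : ZMod q) * (starRingEnd ℂ) (χ (x.2 : ZMod q)))‖ ^ 2 : ℝ) : ℂ) =
      ∑ z ∈ P ×ˢ P, ((c z.1 : ℂ) * (c z.2 : ℂ)) * ∑ χ : DirichletCharacter ℂ q,
        χ ((z.1.1 : ZMod q) * (z.2.2 : ZMod q)) *
          (starRingEnd ℂ) (χ ((z.2.1 : ZMod q) * (z.1.2 : ZMod q))) := by
    push_cast
    simp only [Finset.mul_sum]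
    rw [Finset.sum_comm]
    apply Finset.sum_congr rfl
    intro χ _
    rw [← Complex.mul_conj', map_sum, Finset.sum_mul_sum, Finset.sum_product]
    apply Finset.sum_congr rfl
    intro x _
    apply Finset.sum_congr rfl
    intro y _
    simp only [map_mul, Complex.conj_ofReal, Complex.conj_conj]
    ring
  have h0 : 0 ≤ ∑ χ : DirichletCharacter ℂ q,
      ‖∑ x ∈ P, (c x : ℂ) * (χ (x.1 : ZMod q) * (starRingEnd ℂ) (χ (x.2 : ZMod q)))‖ ^ 2 :=
    Finset.sum_nonneg fun _ _ => sq_nonneg _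
  have h1 : ∑ χ : DirichletCharacter ℂ q,
      ‖∑ x ∈ P, (c x : ℂ) * (χ (x.1 : ZMod q) * (starRingEnd ℂ) (χ (x.2 : ZMod q)))‖ ^ 2 =
      ‖((∑ χ : DirichletCharacter ℂ q,
      ‖∑ x ∈ P, (c x : ℂ) * (χ (x.1 : ZMod q) * (starRingEnd ℂ) (χ (x.2 : ZMod q)))‖ ^ 2 : ℝ) :
        ℂ)‖ := by
    rw [Complex.norm_real, Real.norm_of_nonneg h0]
  rw [h1, key]
  refine (norm_sum_le _ _).trans ?_
  have h2 : ∀ z ∈ P ×ˢ P, ‖((c z.1 : ℂ) * (c z.2 : ℂ)) * ∑ χ : DirichletCharacter ℂ q,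
        χ ((z.1.1 : ZMod q) * (z.2.2 : ZMod q)) *
          (starRingEnd ℂ) (χ ((z.2.1 : ZMod q) * (z.1.2 : ZMod q)))‖ ≤
      if z.1.1 * z.2.2 ≡ z.2.1 * z.1.2 [MOD q] then (q.totient : ℝ) * A ^ 2 else 0 := by
    intro z hz
    rw [mem_product] at hz
    have h3 := hc _ hz.1
    have h4 := hc _ hz.2
    rw [norm_mul, norm_mul, Complex.norm_real, Complex.norm_real, Real.norm_eq_abs,
      Real.norm_eq_abs]
    have h5 : |c z.1| * |c z.2| ≤ A ^ 2 := by
      rw [sq]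
      exact mul_le_mul h3 h4 (abs_nonneg _) hA
    have h6 := orth_inner ((z.1.1 : ZMod q) * (z.2.2 : ZMod q)) ((z.2.1 : ZMod q) * (z.1.2 : ZMod q))
    have h7 : ((z.1.1 : ZMod q) * (z.2.2 : ZMod q) = (z.2.1 : ZMod q) * (z.1.2 : ZMod q)) ↔
        z.1.1 * z.2.2 ≡ z.2.1 * z.1.2 [MOD q] := by
      rw [← Nat.cast_mul, ← Nat.cast_mul, ZMod.natCast_eq_natCast_iff]
    by_cases h8 : z.1.1 * z.2.2 ≡ z.2.1 * z.1.2 [MOD q]
    · rw [if_pos h8]
      rw [if_pos (h7.2 h8)] at h6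
      rw [mul_comm (q.totient : ℝ)]
      exact mul_le_mul h5 h6 (norm_nonneg _) (sq_nonneg A)
    · rw [if_neg h8]
      rw [if_neg (fun h => h8 (h7.1 h))] at h6
      have h9 := le_antisymm h6 (norm_nonneg _)
      rw [h9, mul_zero]
  refine (Finset.sum_le_sum h2).trans ?_
  rw [← Finset.sum_filter, Finset.sum_const, nsmul_eq_mul, mul_comm]

end Pool.Agent.W815.RGD
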