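import Pool.Agent.W815.RGC.Stm

set_option autoImplicit false

/-!
# Project RGC, part ASY
-/

namespace Pool.Agent.W815.RGC

open Finset MeasureTheory Filter Topology Pool.Agent.Helper497.HS Pool.Agent.H595R2.PTF

theorem rf_abs_le (s : ℕ → ℤˣ) (n : ℕ) : |rf s n| ≤ 1 := by
  unfold rf
  split_ifs
  · rw [Finset.abs_prod]
    apply Finset.prod_le_one (fun _ _ => abs_nonneg _)
    intro p _
    rcases Int.units_eq_one_or (s p) with h | h <;> simp [h]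
  · simp

theorem pi_sq_ge : 6 ≤ Real.pi ^ 2 := by nlinarith [Real.pi_gt_three]

theorem pi_sq_le : Real.pi ^ 2 ≤ 12 := by nlinarith [Real.pi_lt_d2, Real.pi_pos]

/-- the error for one value of `E` -/
theorem asy_err {C : ℝ} (hC : 0 < C)
    (hD : ∀ B K : ℕ, |Dg B K - 6 / Real.pi ^ 2 * K * B| ≤ C * K * Real.sqrt ((B : ℝ) + K))
    {s : ℕ → ℤˣ} {ε δ1 : ℝ} (hδ : 0 < δ1) (hδ1 : δ1 < 1) {B₀ : ℕ}
    (hG : ∀ B : ℕ, B₀ ≤ B → ∀ K : ℕ, 1 ≤ K → (K : ℝ) ≤ (B : ℝ) ^ (1 - ε / 2) →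
      |Off (rf s) B K| ≤ (K : ℝ) * (B : ℝ) ^ (1 - δ1))
    {X H : ℝ} (hX4 : 4 ≤ X) (hXB : 4 * (B₀ : ℝ) ≤ X) (hX8 : 8 ≤ X ^ (ε / 2))
    (hε : 0 < ε) (hε1 : ε < 1)
    (hH : 1 ≤ H) (hHX : H ≤ X ^ (1 - ε)) (hHX' : H ≤ X) (B K : ℕ) (hB1 : X / 4 ≤ B)
    (hB2 : (B : ℝ) ≤ 2 * X) (hK1 : 1 ≤ K) (hK2 : (K : ℝ) ≤ 2 * H) :
    |E (rf s) B K - 6 / Real.pi ^ 2 * K * B| ≤ 4 * H * (C * Real.sqrt X + X ^ (1 - δ1)) := by
  have hX0 : 0 < X := by linarith
  have hB0 : B₀ ≤ B := by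
    have : (B₀ : ℝ) ≤ B := by linarith
    exact_mod_cast this
  have hKB : (K : ℝ) ≤ (B : ℝ) ^ (1 - ε / 2) := by
    have h1 : (X / 4) ^ (1 - ε / 2) ≤ (B : ℝ) ^ (1 - ε / 2) :=
      Real.rpow_le_rpow (by positivity) hB1 (by linarith)
    have h2 : (X / 4) ^ (1 - ε / 2) = X ^ (1 - ε / 2) / 4 ^ (1 - ε / 2) :=
      Real.div_rpow hX0.le (by norm_num) _
    have h3 : (4 : ℝ) ^ (1 - ε / 2) ≤ 4 := by
      calc (4 : ℝ) ^ (1 - ε / 2) ≤ 4 ^ (1 : ℝ) :=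
            Real.rpow_le_rpow_of_exponent_le (by norm_num) (by linarith)
        _ = 4 := by simp
    have h4 : (0 : ℝ) < 4 ^ (1 - ε / 2) := by positivity
    have h5 : X ^ (1 - ε / 2) = X ^ (1 - ε) * X ^ (ε / 2) := by
      rw [← Real.rpow_add hX0]; congr 1; ring
    have h7 : 0 < X ^ (1 - ε) := by positivity
    have h6 : 2 * X ^ (1 - ε) ≤ X ^ (1 - ε / 2) / 4 ^ (1 - ε / 2) := by
      rw [le_div_iff₀ h4, h5]
      calc 2 * X ^ (1 - ε) * 4 ^ (1 - ε / 2) ≤ 2 * X ^ (1 - ε) * 4 := by gcongr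
        _ = X ^ (1 - ε) * 8 := by ring
        _ ≤ X ^ (1 - ε) * X ^ (ε / 2) := by gcongr
    calc (K : ℝ) ≤ 2 * H := hK2
      _ ≤ 2 * X ^ (1 - ε) := by linarith
      _ ≤ X ^ (1 - ε / 2) / 4 ^ (1 - ε / 2) := h6
      _ = (X / 4) ^ (1 - ε / 2) := h2.symm
      _ ≤ _ := h1
  have hO := hG B hB0 K hK1 hKB
  have hDD := hD B K
  have hs : Real.sqrt ((B : ℝ) + K) ≤ 2 * Real.sqrt X := by
    have h1 : (B : ℝ) + K ≤ 2 ^ 2 * X := by linarith
    calc Real.sqrt ((B : ℝ) + K) ≤ Real.sqrt (2 ^ 2 * X) := Real.sqrt_le_sqrt h1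
      _ = 2 * Real.sqrt X := by
        rw [Real.sqrt_mul (by norm_num), Real.sqrt_sq (by norm_num)]
  have hp : (B : ℝ) ^ (1 - δ1) ≤ 2 * X ^ (1 - δ1) := by
    calc (B : ℝ) ^ (1 - δ1) ≤ (2 * X) ^ (1 - δ1) :=
          Real.rpow_le_rpow (by positivity) hB2 (by linarith)
      _ = 2 ^ (1 - δ1) * X ^ (1 - δ1) := Real.mul_rpow (by norm_num) hX0.le
      _ ≤ 2 * X ^ (1 - δ1) := by
          have h3 : (2 : ℝ) ^ (1 - δ1) ≤ 2 := by
            calc (2 : ℝ) ^ (1 - δ1) ≤ 2 ^ (1 : ℝ) :=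
                  Real.rpow_le_rpow_of_exponent_le (by norm_num) (by linarith)
              _ = 2 := by simp
          have : 0 < X ^ (1 - δ1) := by positivity
          gcongr
  have hK0 : (0 : ℝ) ≤ K := by positivity
  have hsX : 0 ≤ Real.sqrt X := Real.sqrt_nonneg _
  have hpX : 0 < X ^ (1 - δ1) := by positivity
  have e1 : E (rf s) B K - 6 / Real.pi ^ 2 * K * B =
      (Dg B K - 6 / Real.pi ^ 2 * K * B) + Off (rf s) B K := by
    unfold Off; ring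
  rw [e1]
  calc |(Dg B K - 6 / Real.pi ^ 2 * K * B) + Off (rf s) B K|
      ≤ |Dg B K - 6 / Real.pi ^ 2 * K * B| + |Off (rf s) B K| := abs_add_le _ _
    _ ≤ C * K * Real.sqrt ((B : ℝ) + K) + (K : ℝ) * (B : ℝ) ^ (1 - δ1) := add_le_add hDD hO
    _ ≤ C * K * (2 * Real.sqrt X) + K * (2 * X ^ (1 - δ1)) := by gcongr
    _ = K * (2 * (C * Real.sqrt X + X ^ (1 - δ1))) := by ring
    _ ≤ (2 * H) * (2 * (C * Real.sqrt X + X ^ (1 - δ1))) := by
        apply mul_le_mul_of_nonneg_right hK2; positivity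
    _ = 4 * H * (C * Real.sqrt X + X ^ (1 - δ1)) := by ring

theorem asy : SAsy := by
  rintro ⟨C, hC, hD⟩ hDet s hs ε hε hε1
  obtain ⟨δ1, hδ, hδ1, B₀, hG⟩ := hs (ε / 2) (by linarith) (by linarith)
  have hm : 0 < min (1 / 2) (min δ1 ε) := by
    simp only [lt_min_iff]; exact ⟨by norm_num, hδ, hε⟩
  obtain ⟨m, hmdef⟩ : ∃ m, m = min (1 / 2) (min δ1 ε) := ⟨_, rfl⟩
  rw [← hmdef] at hm
  have hm1 : m ≤ 1 / 2 := hmdef ▸ min_le_left _ _
  have hm2 : m ≤ δ1 := hmdef ▸ (min_le_right _ _).trans (min_le_left _ _)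
  have hm3 : m ≤ ε := hmdef ▸ (min_le_right _ _).trans (min_le_right _ _)
  have hev : ∀ᶠ X : ℝ in atTop, 4 ≤ X ∧ 4 * (B₀ : ℝ) ≤ X ∧ 8 ≤ X ^ (ε / 2) ∧
      34 + 16 * C ≤ X ^ (m / 2) := by
    refine (eventually_ge_atTop 4).and ((eventually_ge_atTop _).and (Filter.Eventually.and ?_ ?_))
    · exact (tendsto_rpow_atTop (by linarith : 0 < ε / 2)).eventually_ge_atTop 8
    · exact (tendsto_rpow_atTop (by linarith : 0 < m / 2)).eventually_ge_atTop _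
  obtain ⟨X₀, hX₀⟩ := eventually_atTop.1 hev
  refine ⟨m / 2, X₀, by positivity, fun X H hX hH hHX => ?_⟩
  obtain ⟨hX4, hXB, hX8, hXm⟩ := hX₀ X hX
  have hX0 : 0 < X := by linarith
  have hX1 : 1 ≤ X := by linarith
  have hHX' : H ≤ X := by
    calc H ≤ X ^ (1 - ε) := hHX
      _ ≤ X ^ (1 : ℝ) := Real.rpow_le_rpow_of_exponent_le hX1 (by linarith)
      _ = X := by simp
  have hH0 : 0 < H := by linarith
  have hdet := hDet (rf s) (rf_abs_le s) X H (by linarith) hH hHX'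
  obtain ⟨k0, hk0⟩ : ∃ k, k = ⌊H⌋₊ := ⟨_, rfl⟩
  obtain ⟨B1, hB1⟩ : ∃ k, k = ⌊X - H / 2⌋₊ := ⟨_, rfl⟩
  obtain ⟨B2, hB2⟩ : ∃ k, k = ⌊2 * X - H / 2⌋₊ := ⟨_, rfl⟩
  rw [← hk0, ← hB1, ← hB2] at hdet
  have hk : (k0 : ℝ) = H - Int.fract H := by
    rw [hk0, ← Int.self_sub_floor, natCast_floor_eq_intCast_floor hH0.le]; ring
  have hr0 := Int.fract_nonneg H
  have hr1 := Int.fract_lt_one H
  obtain ⟨r, hr⟩ : ∃ r, r = Int.fract H := ⟨_, rfl⟩
  rw [← hr] at hk hr0 hr1 hdet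
  have hk1 : 1 ≤ k0 := by rw [hk0]; exact Nat.le_floor (by exact_mod_cast hH)
  have hkH : (k0 : ℝ) ≤ H := by linarith
  have hk1' : ((k0 + 1 : ℕ) : ℝ) ≤ 2 * H := by push_cast; linarith
  have hB1a : X - H / 2 - 1 < B1 := by rw [hB1]; exact Nat.sub_one_lt_floor _
  have hB1b : (B1 : ℝ) ≤ X - H / 2 := by rw [hB1]; exact Nat.floor_le (by linarith)
  have hB2a : 2 * X - H / 2 - 1 < B2 := by rw [hB2]; exact Nat.sub_one_lt_floor _
  have hB2b : (B2 : ℝ) ≤ 2 * X - H / 2 := by rw [hB2]; exact Nat.floor_le (by linarith)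
  have err := asy_err hC hD hδ hδ1 hG hX4 hXB hX8 hε hε1 hH hHX hHX'
  obtain ⟨R, hR⟩ : ∃ R, R = 4 * H * (C * Real.sqrt X + X ^ (1 - δ1)) := ⟨_, rfl⟩
  rw [← hR] at err
  have e1 := err B2 k0 (by linarith) (by linarith) hk1 (by linarith)
  have e2 := err B1 k0 (by linarith) (by linarith) hk1 (by linarith)
  have e3 := err B2 (k0 + 1) (by linarith) (by linarith) (by omega) hk1'
  have e4 := err B1 (k0 + 1) (by linarith) (by linarith) (by omega) hk1'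
  obtain ⟨c, hc⟩ : ∃ c, c = 6 / Real.pi ^ 2 := ⟨_, rfl⟩
  rw [← hc] at e1 e2 e3 e4
  have hpi := Real.pi_pos
  have hc0 : 0 < c := by rw [hc]; positivity
  have hpi2 := pi_sq_le
  have hpi3 := pi_sq_ge
  have hc1 : c ≤ 1 := by rw [hc, div_le_one (by positivity)]; exact hpi3
  have hc2 : 1 / 2 ≤ c := by rw [hc, div_le_div_iff₀ (by norm_num) (by positivity)]; linarith
  obtain ⟨I, hI⟩ : ∃ I, I = ∫ x in X..2 * X,
      (∑ n ∈ (Finset.range (⌈x + H⌉₊ + 1)).filter (fun n : ℕ => |(n : ℝ) - x| < H / 2),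
        rf s n) ^ 2 := ⟨_, rfl⟩
  have hV : V (rf s) X H = 1 / X * I := by rw [hI]; rfl
  rw [← hI] at hdet
  rw [abs_le] at e1 e2 e3 e4 hdet
  have hkc : ((k0 + 1 : ℕ) : ℝ) = k0 + 1 := by push_cast; ring
  rw [hkc] at e3 e4
  -- the main estimate
  have hI1 : I - c * H * X ≤ 2 * R + 2 * (H + 1) ^ 2 + H := by
    have f1 : (1 - r) * (E (rf s) B2 k0 - E (rf s) B1 k0) ≤
        (1 - r) * (c * k0 * B2 - c * k0 * B1 + 2 * R) := by
      apply mul_le_mul_of_nonneg_left _ (by linarith); linarith [e1.2, e2.1]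
    have f2 : r * (E (rf s) B2 (k0 + 1) - E (rf s) B1 (k0 + 1)) ≤
        r * (c * (k0 + 1) * B2 - c * (k0 + 1) * B1 + 2 * R) := by
      apply mul_le_mul_of_nonneg_left _ hr0; linarith [e3.2, e4.1]
    have f3 : (1 - r) * (c * k0 * B2 - c * k0 * B1 + 2 * R) +
        r * (c * (k0 + 1) * B2 - c * (k0 + 1) * B1 + 2 * R) = c * H * (B2 - B1) + 2 * R := by
      rw [hk]; ring
    have f4 : c * H * ((B2 : ℝ) - B1) ≤ c * H * (X + 1) := by
      apply mul_le_mul_of_nonneg_left _ (by positivity); linarith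
    have f5 : c * H ≤ H := mul_le_of_le_one_left hH0.le hc1
    have f6 : c * H * (X + 1) = c * H * X + c * H := by ring
    have f7 := hdet.2
    linarith
  have hI2 : -(2 * R + 2 * (H + 1) ^ 2 + H) ≤ I - c * H * X := by
    have f1 : (1 - r) * (c * k0 * B2 - c * k0 * B1 - 2 * R) ≤
        (1 - r) * (E (rf s) B2 k0 - E (rf s) B1 k0) := by
      apply mul_le_mul_of_nonneg_left _ (by linarith); linarith [e1.1, e2.2]
    have f2 : r * (c * (k0 + 1) * B2 - c * (k0 + 1) * B1 - 2 * R) ≤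
        r * (E (rf s) B2 (k0 + 1) - E (rf s) B1 (k0 + 1)) := by
      apply mul_le_mul_of_nonneg_left _ hr0; linarith [e3.1, e4.2]
    have f3 : (1 - r) * (c * k0 * B2 - c * k0 * B1 - 2 * R) +
        r * (c * (k0 + 1) * B2 - c * (k0 + 1) * B1 - 2 * R) = c * H * (B2 - B1) - 2 * R := by
      rw [hk]; ring
    have f4 : c * H * (X - 1) ≤ c * H * ((B2 : ℝ) - B1) := by
      apply mul_le_mul_of_nonneg_left _ (by positivity); linarith
    have f5 : c * H ≤ H := mul_le_of_le_one_left hH0.le hc1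
    have f6 : c * H * (X - 1) = c * H * X - c * H := by ring
    have f7 := hdet.1
    linarith
  have hA : |I - c * H * X| ≤ 2 * R + 2 * (H + 1) ^ 2 + H := abs_le.2 ⟨hI2, hI1⟩
  -- division
  have hq : V (rf s) X H / (H / (Real.pi ^ 2 / 6)) - 1 = (I - c * H * X) / (c * H * X) := by
    rw [hV, hc]; field_simp
  have hden : 0 < c * H * X := by positivity
  rw [hq, abs_div, abs_of_pos hden]
  -- powers
  have hM : 0 < X ^ (1 - m) := by positivity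
  have p1 : Real.sqrt X ≤ X ^ (1 - m) := by
    rw [Real.sqrt_eq_rpow]; exact Real.rpow_le_rpow_of_exponent_le hX1 (by linarith)
  have p2 : X ^ (1 - δ1) ≤ X ^ (1 - m) := Real.rpow_le_rpow_of_exponent_le hX1 (by linarith)
  have p3 : H ≤ X ^ (1 - m) :=
    hHX.trans (Real.rpow_le_rpow_of_exponent_le hX1 (by linarith))
  have p4 : (1 : ℝ) ≤ X ^ (1 - m) := Real.one_le_rpow hX1 (by linarith)
  have hnum : 2 * R + 2 * (H + 1) ^ 2 + H ≤ H * ((17 + 8 * C) * X ^ (1 - m)) := by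
    have g1 : R ≤ 4 * H * (C * X ^ (1 - m) + X ^ (1 - m)) := by
      rw [hR]
      apply mul_le_mul_of_nonneg_left _ (by positivity)
      have := mul_le_mul_of_nonneg_left p1 hC.le
      linarith
    have g2 : (H + 1) ^ 2 ≤ 4 * (H * X ^ (1 - m)) := by
      have : (H + 1) ^ 2 ≤ 4 * (H * H) := by
        have h3 : (H + 1) ^ 2 ≤ (2 * H) ^ 2 :=
          pow_le_pow_left₀ (by positivity) (by linarith) 2
        have h4 : (2 * H) ^ 2 = 4 * (H * H) := by ring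
        linarith
      have h2 := mul_le_mul_of_nonneg_left p3 hH0.le
      linarith
    have g3 : H ≤ H * X ^ (1 - m) := le_mul_of_one_le_right hH0.le p4
    have g4 : 4 * H * (C * X ^ (1 - m) + X ^ (1 - m)) =
        4 * C * (H * X ^ (1 - m)) + 4 * (H * X ^ (1 - m)) := by ring
    have g5 : H * ((17 + 8 * C) * X ^ (1 - m)) =
        17 * (H * X ^ (1 - m)) + 2 * (4 * C * (H * X ^ (1 - m))) := by ring
    linarith
  rw [div_le_iff₀ hden]
  refine hA.trans (hnum.trans ?_)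
  have hsplit : X ^ (-(m / 2)) * X = X ^ (1 - m) * X ^ (m / 2) := by
    rw [← Real.rpow_add hX0]
    nth_rewrite 2 [← Real.rpow_one X]
    rw [← Real.rpow_add hX0]; congr 1; ring
  have hfin : X ^ (-(m / 2)) * (c * H * X) = c * H * (X ^ (1 - m) * X ^ (m / 2)) := by
    rw [← hsplit]; ring
  rw [hfin]
  have h1 : (17 + 8 * C) ≤ c * X ^ (m / 2) := by
    calc 17 + 8 * C = 1 / 2 * (34 + 16 * C) := by ring
      _ ≤ c * X ^ (m / 2) := by gcongr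
  calc H * ((17 + 8 * C) * X ^ (1 - m)) ≤ H * ((c * X ^ (m / 2)) * X ^ (1 - m)) := by gcongr
    _ = c * H * (X ^ (1 - m) * X ^ (m / 2)) := by ring

end Pool.Agent.W815.RGC
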