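import Pool.Agent.W815.RGC.Stm

set_option autoImplicit false

/-! Task RGC-BC: Borel-Cantelli. -/

namespace Pool.Agent.W815.RGC

open Finset MeasureTheory Filter Topology Pool.Agent.Helper497.HS Pool.Agent.H595R2.PTF

namespace Bc

theorem rf_ext (s : ℕ → ℤˣ) (M n : ℕ) (hn : n < M) :
    rf (ext M (fun i : Fin M => s i)) n = rf s n := by
  classical
  unfold rf
  split_ifs with h
  · refine Finset.prod_congr rfl fun p hp => ?_
    have hp' : p < M := lt_of_le_of_lt (Nat.le_of_mem_primeFactors hp) hn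
    unfold ext
    rw [dif_pos hp']
  · rfl

theorem off_ext (s : ℕ → ℤˣ) (B K : ℕ) :
    Off (rf (ext (B + K + 1) (fun i : Fin (B + K + 1) => s i))) B K = Off (rf s) B K := by
  unfold Off E
  congr 1
  refine Finset.sum_congr rfl fun a ha => ?_
  congr 1
  unfold W
  refine Finset.sum_congr rfl fun n hn => ?_
  have h1 := Finset.mem_range.1 ha
  have h2 := (Finset.mem_Ioc.1 hn).2
  exact rf_ext s _ n (by omega)

end Bc

theorem bc : SBc := by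
  intro hFin hLaw Ω _ μ _ e he
  have hε : ∀ k : ℕ, (0 : ℝ) < 1 / ((k : ℝ) + 2) ∧ 1 / ((k : ℝ) + 2) < 1 := by
    intro k
    have hk : (0 : ℝ) ≤ k := Nat.cast_nonneg k
    refine ⟨by positivity, ?_⟩
    rw [div_lt_one (by positivity)]
    linarith
  have hF := fun k : ℕ => hFin (1 / ((k : ℝ) + 2)) (hε k).1 (hε k).2
  choose δ C hδ0 hδ1 hC hP using hF
  -- one exponent
  have key : ∀ k : ℕ, ∀ᵐ ω ∂μ, ∀ᶠ B : ℕ in atTop, ω ∉ {ω | ∃ K : ℕ, 1 ≤ K ∧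
      (K : ℝ) ≤ ((B + 1 : ℕ) : ℝ) ^ (1 - 1 / ((k : ℝ) + 2)) ∧
      (K : ℝ) * ((B + 1 : ℕ) : ℝ) ^ (1 - δ k) < |Off (rf (fun p => e p ω)) (B + 1) K|} := by
    intro k
    refine ae_eventually_notMem ?_
    have hle : ∀ B : ℕ, μ {ω | ∃ K : ℕ, 1 ≤ K ∧
        (K : ℝ) ≤ ((B + 1 : ℕ) : ℝ) ^ (1 - 1 / ((k : ℝ) + 2)) ∧
        (K : ℝ) * ((B + 1 : ℕ) : ℝ) ^ (1 - δ k) < |Off (rf (fun p => e p ω)) (B + 1) K|} ≤
        ENNReal.ofReal (C k * (1 / ((B + 1 : ℕ) : ℝ) ^ 3)) := by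
      intro B
      have hB1 : (1 : ℝ) ≤ ((B + 1 : ℕ) : ℝ) := by
        exact_mod_cast Nat.succ_le_succ (Nat.zero_le B)
      have hsub : {ω | ∃ K : ℕ, 1 ≤ K ∧
          (K : ℝ) ≤ ((B + 1 : ℕ) : ℝ) ^ (1 - 1 / ((k : ℝ) + 2)) ∧
          (K : ℝ) * ((B + 1 : ℕ) : ℝ) ^ (1 - δ k) < |Off (rf (fun p => e p ω)) (B + 1) K|} ⊆
          ⋃ K ∈ Finset.Icc 1 (B + 1), {ω | (K : ℝ) ≤ ((B + 1 : ℕ) : ℝ) ^ (1 - 1 / ((k : ℝ) + 2)) ∧
            (K : ℝ) * ((B + 1 : ℕ) : ℝ) ^ (1 - δ k) <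
              |Off (rf (fun p => e p ω)) (B + 1) K|} := by
        rintro ω ⟨K, hK1, hK2, hK3⟩
        rw [Set.mem_iUnion₂]
        refine ⟨K, ?_, hK2, hK3⟩
        rw [Finset.mem_Icc]
        refine ⟨hK1, ?_⟩
        have h1 : ((B + 1 : ℕ) : ℝ) ^ (1 - 1 / ((k : ℝ) + 2)) ≤ ((B + 1 : ℕ) : ℝ) := by
          calc ((B + 1 : ℕ) : ℝ) ^ (1 - 1 / ((k : ℝ) + 2)) ≤ ((B + 1 : ℕ) : ℝ) ^ (1 : ℝ) :=
                Real.rpow_le_rpow_of_exponent_le hB1 (by linarith [(hε k).1])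
            _ = _ := Real.rpow_one _
        exact_mod_cast hK2.trans h1
      have hone : ∀ K ∈ Finset.Icc 1 (B + 1),
          μ {ω | (K : ℝ) ≤ ((B + 1 : ℕ) : ℝ) ^ (1 - 1 / ((k : ℝ) + 2)) ∧
            (K : ℝ) * ((B + 1 : ℕ) : ℝ) ^ (1 - δ k) <
              |Off (rf (fun p => e p ω)) (B + 1) K|} ≤
          ENNReal.ofReal (C k / ((B + 1 : ℕ) : ℝ) ^ 4) := by
        intro K hK
        have hK1 := (Finset.mem_Icc.1 hK).1
        by_cases hK2 : (K : ℝ) ≤ ((B + 1 : ℕ) : ℝ) ^ (1 - 1 / ((k : ℝ) + 2))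
        · have h1 := hLaw Ω _ μ inferInstance e he (B + 1 + K + 1)
            (fun x => (K : ℝ) * ((B + 1 : ℕ) : ℝ) ^ (1 - δ k) <
              |Off (rf (ext (B + 1 + K + 1) x)) (B + 1) K|)
          have h2 : {ω | (K : ℝ) * ((B + 1 : ℕ) : ℝ) ^ (1 - δ k) <
              |Off (rf (ext (B + 1 + K + 1) (fun i : Fin (B + 1 + K + 1) => e i ω))) (B + 1) K|} =
              {ω | (K : ℝ) ≤ ((B + 1 : ℕ) : ℝ) ^ (1 - 1 / ((k : ℝ) + 2)) ∧
                (K : ℝ) * ((B + 1 : ℕ) : ℝ) ^ (1 - δ k) <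
                |Off (rf (fun p => e p ω)) (B + 1) K|} := by
            ext ω
            simp only [Set.mem_ofPred_eq]
            rw [Bc.off_ext (fun p => e p ω) (B + 1) K]
            exact ⟨fun h => ⟨hK2, h⟩, fun h => h.2⟩
          rw [← h2, h1]
          exact ENNReal.ofReal_le_ofReal (hP k (B + 1) K (by omega) hK1 hK2)
        · have h2 : {ω | (K : ℝ) ≤ ((B + 1 : ℕ) : ℝ) ^ (1 - 1 / ((k : ℝ) + 2)) ∧
                (K : ℝ) * ((B + 1 : ℕ) : ℝ) ^ (1 - δ k) <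
                |Off (rf (fun p => e p ω)) (B + 1) K|} = ∅ := by
            ext ω
            simp only [Set.mem_ofPred_eq, Set.mem_empty_iff_false, iff_false]
            exact fun h => hK2 h.1
          rw [h2, measure_empty]
          exact zero_le
      calc _ ≤ μ (⋃ K ∈ Finset.Icc 1 (B + 1),
            {ω | (K : ℝ) ≤ ((B + 1 : ℕ) : ℝ) ^ (1 - 1 / ((k : ℝ) + 2)) ∧
            (K : ℝ) * ((B + 1 : ℕ) : ℝ) ^ (1 - δ k) <
              |Off (rf (fun p => e p ω)) (B + 1) K|}) := measure_mono hsub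
        _ ≤ ∑ K ∈ Finset.Icc 1 (B + 1),
            μ {ω | (K : ℝ) ≤ ((B + 1 : ℕ) : ℝ) ^ (1 - 1 / ((k : ℝ) + 2)) ∧
            (K : ℝ) * ((B + 1 : ℕ) : ℝ) ^ (1 - δ k) <
              |Off (rf (fun p => e p ω)) (B + 1) K|} := measure_biUnion_finset_le _ _
        _ ≤ ∑ K ∈ Finset.Icc 1 (B + 1), ENNReal.ofReal (C k / ((B + 1 : ℕ) : ℝ) ^ 4) :=
            Finset.sum_le_sum hone
        _ = ENNReal.ofReal (C k * (1 / ((B + 1 : ℕ) : ℝ) ^ 3)) := by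
            rw [Finset.sum_const, Nat.card_Icc, Nat.add_sub_cancel, nsmul_eq_mul,
              ← ENNReal.ofReal_natCast, ← ENNReal.ofReal_mul (Nat.cast_nonneg _)]
            congr 1
            have hB0 : ((B + 1 : ℕ) : ℝ) ≠ 0 := by positivity
            field_simp
    have hsum : Summable (fun B : ℕ => C k * (1 / ((B + 1 : ℕ) : ℝ) ^ 3)) := by
      refine Summable.mul_left _ ?_
      exact (summable_nat_add_iff (f := fun n : ℕ => 1 / (n : ℝ) ^ 3) 1).2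
        (Real.summable_one_div_nat_pow.2 (by norm_num))
    exact ne_top_of_le_ne_top hsum.tsum_ofReal_ne_top (ENNReal.tsum_le_tsum hle)
  filter_upwards [ae_all_iff.2 key] with ω hω
  intro ε hε0 hε1
  obtain ⟨k, hk⟩ := exists_nat_one_div_lt hε0
  have hkε : 1 / ((k : ℝ) + 2) ≤ ε := by
    refine le_trans ?_ hk.le
    have hk0 : (0 : ℝ) ≤ k := Nat.cast_nonneg k
    exact one_div_le_one_div_of_le (by positivity) (by linarith)
  obtain ⟨N, hN⟩ := eventually_atTop.1 (hω k)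
  refine ⟨δ k, hδ0 k, hδ1 k, N + 1, ?_⟩
  intro B hB K hK1 hK2
  obtain ⟨B', rfl⟩ : ∃ B', B = B' + 1 := ⟨B - 1, by omega⟩
  have h1 := hN B' (by omega)
  by_contra hcon
  refine h1 ⟨K, hK1, hK2.trans ?_, not_le.1 hcon⟩
  refine Real.rpow_le_rpow_of_exponent_le ?_ (by linarith)
  exact_mod_cast Nat.succ_le_succ (Nat.zero_le B')

end Pool.Agent.W815.RGC
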