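import Pool.Agent.W815.RGC.Stm

set_option autoImplicit false

/-!
# Project RGC, part DEG: the number of prime factors is small
-/

namespace Pool.Agent.W815.RGC

open Finset

namespace DegAux

/-- `A ^ ω(n) ≤ C n ^ η` -/
theorem pow_omega (A : ℕ) (η : ℝ) (hA : 1 ≤ A) (hη : 0 < η) : ∃ C : ℝ, 0 < C ∧ ∀ n : ℕ, 1 ≤ n →
    (A : ℝ) ^ n.primeFactors.card ≤ C * (n : ℝ) ^ η := by
  classical
  have hA1 : (1 : ℝ) ≤ A := by exact_mod_cast hA
  have hA0 : (0 : ℝ) < A := by linarith
  obtain ⟨P, hP⟩ := exists_nat_ge ((A : ℝ) ^ (1 / η))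
  refine ⟨(A : ℝ) ^ P, by positivity, fun n hn => ?_⟩
  have hterm : ∀ p ∈ n.primeFactors, (A : ℝ) ≤ (if p < P then (A : ℝ) else 1) * (p : ℝ) ^ η := by
    intro p hp
    have hpp := Nat.prime_of_mem_primeFactors hp
    have hp1 : (1 : ℝ) ≤ p := by exact_mod_cast hpp.one_le
    split_ifs with h
    · have : (1 : ℝ) ≤ (p : ℝ) ^ η := Real.one_le_rpow hp1 hη.le
      nlinarith
    · push Not at h
      have h1 : (A : ℝ) ^ (1 / η) ≤ p := hP.trans (by exact_mod_cast h)
      have h2 := Real.rpow_le_rpow (by positivity) h1 hη.le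
      rw [← Real.rpow_mul hA0.le, one_div_mul_cancel hη.ne', Real.rpow_one] at h2
      rw [one_mul]
      exact h2
  have hprod : ∏ p ∈ n.primeFactors, (p : ℝ) ^ η ≤ (n : ℝ) ^ η := by
    rw [Real.finsetProd_rpow _ _ (fun p _ => by positivity)]
    apply Real.rpow_le_rpow (Finset.prod_nonneg fun p _ => by positivity) _ hη.le
    have h5 := Nat.le_of_dvd (by omega) (Nat.prod_primeFactors_dvd n)
    have h6 : ((∏ p ∈ n.primeFactors, p : ℕ) : ℝ) ≤ (n : ℝ) := by exact_mod_cast h5
    rw [Nat.cast_prod] at h6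
    exact h6
  calc (A : ℝ) ^ n.primeFactors.card = ∏ _p ∈ n.primeFactors, (A : ℝ) := by
        rw [Finset.prod_const]
    _ ≤ ∏ p ∈ n.primeFactors, ((if p < P then (A : ℝ) else 1) * (p : ℝ) ^ η) :=
        Finset.prod_le_prod (fun p _ => hA0.le) hterm
    _ = (∏ p ∈ n.primeFactors, (if p < P then (A : ℝ) else 1)) *
          ∏ p ∈ n.primeFactors, (p : ℝ) ^ η := Finset.prod_mul_distrib
    _ ≤ (A : ℝ) ^ P * (n : ℝ) ^ η := by
        apply mul_le_mul _ hprod (Finset.prod_nonneg fun p _ => by positivity) (by positivity)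
        rw [← Finset.prod_filter, Finset.prod_const]
        apply pow_le_pow_right₀ hA1
        calc _ ≤ (Finset.range P).card := Finset.card_le_card (by
              intro p hp
              rw [Finset.mem_filter] at hp
              exact Finset.mem_range.mpr hp.2)
          _ = P := Finset.card_range P

end DegAux

theorem deg : SDeg := by
  intro A η hA hη
  obtain ⟨C, hC, hb⟩ := DegAux.pow_omega A η hA hη
  refine ⟨C, hC, fun M hM => ⟨(Icc 1 M).sup fun n => n.primeFactors.card,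
    fun n hn => Finset.le_sup (f := fun n : ℕ => n.primeFactors.card) hn, ?_⟩⟩
  obtain ⟨n, hn, he⟩ := Finset.exists_mem_eq_sup (Icc 1 M) ⟨1, Finset.mem_Icc.mpr ⟨le_rfl, hM⟩⟩
    (fun n : ℕ => n.primeFactors.card)
  rw [he]
  obtain ⟨h1, h2⟩ := Finset.mem_Icc.mp hn
  refine (hb n h1).trans (mul_le_mul_of_nonneg_left ?_ hC.le)
  exact Real.rpow_le_rpow (by positivity) (by exact_mod_cast h2) hη.le

end Pool.Agent.W815.RGC
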