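import Pool.Agent.W815.RGC.Stm

set_option autoImplicit false

/-!
# Project RGC: the variance through `E` (DET)
-/

namespace Pool.Agent.W815.RGC.DetAux

open Finset MeasureTheory Pool.Agent.W815.RGC

theorem int_const (f : ℝ → ℝ) (a b c : ℝ) (h : a ≤ b) (hf : ∀ x, a < x → x < b → f x = c) :
    IntervalIntegrable f volume a b ∧ ∫ x in a..b, f x = (b - a) * c := by
  have hE : Set.EqOn (fun _ : ℝ => c) f (Set.uIoo a b) := by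
    intro x hx
    rw [Set.uIoo_of_le h] at hx
    exact (hf x hx.1 hx.2).symm
  refine ⟨intervalIntegrable_const.congr_uIoo hE, ?_⟩
  rw [← intervalIntegral.integral_congr_uIoo hE, intervalIntegral.integral_const, smul_eq_mul]

/-- the function which is integrated -/
noncomputable def G (g : ℕ → ℝ) (H y : ℝ) : ℝ := (∑ n ∈ Ioo ⌊y⌋₊ ⌈y + H⌉₊, g n) ^ 2

theorem Ioo_eq (a b : ℕ) : Ioo a (b + 1) = Ioc a b := by
  ext n
  simp only [mem_Ioo, mem_Ioc]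
  omega

theorem G_fst (g : ℕ → ℝ) (H : ℝ) (hH : 0 ≤ H) (a : ℕ) (y : ℝ) (h1 : (a : ℝ) < y)
    (h2 : y < a + (1 - Int.fract H)) : G g H y = (W g a ⌊H⌋₊) ^ 2 := by
  have hf0 := Int.fract_nonneg H
  have hf1 := Int.fract_lt_one H
  have hfl : H = (⌊H⌋₊ : ℝ) + Int.fract H := by
    rw [natCast_floor_eq_intCast_floor hH]
    exact (Int.floor_add_fract H).symm
  have e1 : ⌊y⌋₊ = a := by
    rw [Nat.floor_eq_iff (by linarith [Nat.cast_nonneg (α := ℝ) a])]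
    exact ⟨h1.le, by linarith⟩
  have e2 : ⌈y + H⌉₊ = a + ⌊H⌋₊ + 1 := by
    rw [Nat.ceil_eq_iff (by omega)]
    constructor
    · rw [Nat.add_sub_cancel]
      push_cast
      linarith
    · push_cast
      linarith
  unfold G W
  rw [e1, e2, Ioo_eq]

theorem G_snd (g : ℕ → ℝ) (H : ℝ) (hH : 0 ≤ H) (a : ℕ) (y : ℝ)
    (h1 : a + (1 - Int.fract H) < y) (h2 : y < a + 1) : G g H y = (W g a (⌊H⌋₊ + 1)) ^ 2 := by
  have hf0 := Int.fract_nonneg H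
  have hf1 := Int.fract_lt_one H
  have hfl : H = (⌊H⌋₊ : ℝ) + Int.fract H := by
    rw [natCast_floor_eq_intCast_floor hH]
    exact (Int.floor_add_fract H).symm
  have e1 : ⌊y⌋₊ = a := by
    rw [Nat.floor_eq_iff (by linarith [Nat.cast_nonneg (α := ℝ) a])]
    exact ⟨by linarith, h2⟩
  have e2 : ⌈y + H⌉₊ = (a + (⌊H⌋₊ + 1)) + 1 := by
    rw [Nat.ceil_eq_iff (by omega)]
    constructor
    · rw [Nat.add_sub_cancel]
      push_cast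
      linarith
    · push_cast
      linarith
  unfold G W
  rw [e1, e2, Ioo_eq]

theorem G_unit (g : ℕ → ℝ) (H : ℝ) (hH : 0 ≤ H) (a : ℕ) :
    IntervalIntegrable (G g H) volume a ((a + 1 : ℕ) : ℝ) ∧
      ∫ y in (a : ℝ)..((a + 1 : ℕ) : ℝ), G g H y =
        (1 - Int.fract H) * (W g a ⌊H⌋₊) ^ 2 + Int.fract H * (W g a (⌊H⌋₊ + 1)) ^ 2 := by
  have hf0 := Int.fract_nonneg H
  have hf1 := Int.fract_lt_one H
  obtain ⟨i1, j1⟩ := int_const (G g H) a (a + (1 - Int.fract H)) ((W g a ⌊H⌋₊) ^ 2) (by linarith)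
    (fun y h1 h2 => G_fst g H hH a y h1 h2)
  obtain ⟨i2, j2⟩ := int_const (G g H) (a + (1 - Int.fract H)) (a + 1)
    ((W g a (⌊H⌋₊ + 1)) ^ 2) (by linarith) (fun y h1 h2 => G_snd g H hH a y h1 h2)
  have e : ((a + 1 : ℕ) : ℝ) = (a : ℝ) + 1 := by push_cast; rfl
  rw [e]
  refine ⟨i1.trans i2, ?_⟩
  rw [← intervalIntegral.integral_add_adjacent_intervals i1 i2, j1, j2]
  ring

theorem G_ii (g : ℕ → ℝ) (H : ℝ) (hH : 0 ≤ H) (u v : ℝ) (hu : 0 ≤ u) (hv : 0 ≤ v) :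
    IntervalIntegrable (G g H) volume u v := by
  have h1 : ∀ N : ℕ, IntervalIntegrable (G g H) volume ((0 : ℕ) : ℝ) (N : ℝ) := by
    intro N
    exact IntervalIntegrable.trans_iterate (a := fun n : ℕ => (n : ℝ))
      (fun k _ => (G_unit g H hH k).1)
  obtain ⟨N, hN⟩ := exists_nat_ge (max u v)
  refine (h1 N).mono_set ?_
  have hu2 : u ≤ N := (le_max_left u v).trans hN
  have hv2 : v ≤ N := (le_max_right u v).trans hN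
  apply Set.uIcc_subset_uIcc
  · exact Set.mem_uIcc_of_le (by simpa using hu) hu2
  · exact Set.mem_uIcc_of_le (by simpa using hv) hv2

theorem G_bound (g : ℕ → ℝ) (hg : ∀ n, |g n| ≤ 1) (H : ℝ) (hH : 0 ≤ H) (y : ℝ) (hy : 0 ≤ y) :
    |G g H y| ≤ (H + 1) ^ 2 := by
  unfold G
  rw [abs_pow]
  have h1 : |∑ n ∈ Ioo ⌊y⌋₊ ⌈y + H⌉₊, g n| ≤ ((Ioo ⌊y⌋₊ ⌈y + H⌉₊).card : ℝ) := by
    refine (abs_sum_le_sum_abs _ _).trans ?_
    refine (sum_le_sum fun n _ => hg n).trans ?_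
    rw [sum_const, nsmul_eq_mul, mul_one]
  have h2 : ((Ioo ⌊y⌋₊ ⌈y + H⌉₊).card : ℝ) ≤ H + 1 := by
    rw [Nat.card_Ioo]
    have h3 : (⌈y + H⌉₊ : ℝ) < y + H + 1 := Nat.ceil_lt_add_one (by linarith)
    have h4 : y < (⌊y⌋₊ : ℝ) + 1 := Nat.lt_floor_add_one y
    rcases Nat.lt_or_ge ⌈y + H⌉₊ (⌊y⌋₊ + 1) with h | h
    · have : ⌈y + H⌉₊ - ⌊y⌋₊ - 1 = 0 := by omega
      rw [this]
      push_cast
      linarith
    · have : ((⌈y + H⌉₊ - ⌊y⌋₊ - 1 : ℕ) : ℝ) = (⌈y + H⌉₊ : ℝ) - ⌊y⌋₊ - 1 := by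
        have e : (⌈y + H⌉₊ - ⌊y⌋₊ - 1) + (⌊y⌋₊ + 1) = ⌈y + H⌉₊ := by omega
        have e2 : ((⌈y + H⌉₊ - ⌊y⌋₊ - 1 : ℕ) : ℝ) + ((⌊y⌋₊ : ℝ) + 1) = (⌈y + H⌉₊ : ℝ) := by
          exact_mod_cast e
        linarith
      rw [this]
      linarith
  exact pow_le_pow_left₀ (abs_nonneg _) (h1.trans h2) 2

theorem G_tail (g : ℕ → ℝ) (hg : ∀ n, |g n| ≤ 1) (H : ℝ) (hH : 0 ≤ H) (y : ℝ) (hy : 0 ≤ y) :
    |∫ t in (⌊y⌋₊ : ℝ)..y, G g H t| ≤ (H + 1) ^ 2 := by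
  have h1 : (⌊y⌋₊ : ℝ) ≤ y := Nat.floor_le hy
  have h2 : y < (⌊y⌋₊ : ℝ) + 1 := Nat.lt_floor_add_one y
  have h3 : ‖∫ t in (⌊y⌋₊ : ℝ)..y, G g H t‖ ≤ (H + 1) ^ 2 * |y - ⌊y⌋₊| := by
    apply intervalIntegral.norm_integral_le_of_norm_le_const
    intro t ht
    rw [Set.uIoc_of_le h1] at ht
    exact G_bound g hg H hH t ((Nat.cast_nonneg _).trans ht.1.le)
  rw [Real.norm_eq_abs] at h3
  refine h3.trans ?_
  rw [abs_of_nonneg (by linarith)]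
  have : (H + 1) ^ 2 * (y - ⌊y⌋₊) ≤ (H + 1) ^ 2 * 1 :=
    mul_le_mul_of_nonneg_left (by linarith) (by positivity)
  linarith

theorem sum_E (g : ℕ → ℝ) (B₁ B₂ K : ℕ) (h : B₁ ≤ B₂) :
    ∑ a ∈ Ico B₁ B₂, (W g a K) ^ 2 = E g B₂ K - E g B₁ K := by
  unfold E
  rw [sum_Ico_eq_sub _ h]

end Pool.Agent.W815.RGC.DetAux

namespace Pool.Agent.W815.RGC

open Finset MeasureTheory Pool.Agent.W815.RGC.DetAux

theorem det : SDet := by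
  intro g hg X H hX hH1 hHX
  have hH : 0 ≤ H := by linarith
  -- substitution
  have e1 : (∫ x in X..2 * X, (∑ n ∈ (Finset.range (⌈x + H⌉₊ + 1)).filter
      (fun n : ℕ => |(n : ℝ) - x| < H / 2), g n) ^ 2) =
      ∫ y in (X - H / 2)..(2 * X - H / 2), G g H y := by
    rw [← intervalIntegral.integral_comp_sub_right (G g H) (H / 2)]
    apply intervalIntegral.integral_congr
    intro x hx
    rw [Set.uIcc_of_le (by linarith)] at hx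
    have hx0 : 0 ≤ x - H / 2 := by linarith [hx.1]
    simp only [G]
    congr 2
    ext n
    rw [mem_filter, mem_range, mem_Ioo, Nat.floor_lt hx0, Nat.lt_ceil, abs_lt]
    constructor
    · rintro ⟨-, h1, h2⟩
      constructor <;> linarith
    · rintro ⟨h1, h2⟩
      refine ⟨?_, by linarith, by linarith⟩
      have h3 : (n : ℝ) < x + H := by linarith
      have h4 := Nat.lt_ceil.mpr h3
      omega
  rw [e1]
  set Y₁ := X - H / 2 with hY₁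
  set Y₂ := 2 * X - H / 2 with hY₂
  have hy1 : 0 ≤ Y₁ := by rw [hY₁]; linarith
  have hy2 : 0 ≤ Y₂ := by rw [hY₂]; linarith
  have hy12 : Y₁ ≤ Y₂ := by rw [hY₁, hY₂]; linarith
  have hB : ⌊Y₁⌋₊ ≤ ⌊Y₂⌋₊ := Nat.floor_mono hy12
  -- the main part
  have e2 : ∫ y in (⌊Y₁⌋₊ : ℝ)..(⌊Y₂⌋₊ : ℝ), G g H y =
      (1 - Int.fract H) * (E g ⌊Y₂⌋₊ ⌊H⌋₊ - E g ⌊Y₁⌋₊ ⌊H⌋₊) +
      Int.fract H * (E g ⌊Y₂⌋₊ (⌊H⌋₊ + 1) - E g ⌊Y₁⌋₊ (⌊H⌋₊ + 1)) := by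
    rw [← intervalIntegral.sum_integral_adjacent_intervals_Ico (a := fun n : ℕ => (n : ℝ)) hB
      (fun k _ => (G_unit g H hH k).1)]
    rw [← sum_E g _ _ _ hB, ← sum_E g _ _ _ hB, mul_sum, mul_sum, ← sum_add_distrib]
    exact sum_congr rfl fun k _ => (G_unit g H hH k).2
  rw [← e2]
  -- the two ends
  have hb1 : (0 : ℝ) ≤ (⌊Y₁⌋₊ : ℝ) := Nat.cast_nonneg _
  have hb2 : (0 : ℝ) ≤ (⌊Y₂⌋₊ : ℝ) := Nat.cast_nonneg _
  have s1 := intervalIntegral.integral_add_adjacent_intervals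
    (G_ii g H hH (⌊Y₁⌋₊ : ℝ) Y₁ hb1 hy1) (G_ii g H hH Y₁ Y₂ hy1 hy2)
  have s2 := intervalIntegral.integral_add_adjacent_intervals
    (G_ii g H hH (⌊Y₁⌋₊ : ℝ) (⌊Y₂⌋₊ : ℝ) hb1 hb2) (G_ii g H hH (⌊Y₂⌋₊ : ℝ) Y₂ hb2 hy2)
  have t1 := G_tail g hg H hH Y₁ hy1
  have t2 := G_tail g hg H hH Y₂ hy2
  have e3 : (∫ y in Y₁..Y₂, G g H y) - ∫ y in (⌊Y₁⌋₊ : ℝ)..(⌊Y₂⌋₊ : ℝ), G g H y =
      (∫ t in (⌊Y₂⌋₊ : ℝ)..Y₂, G g H t) - ∫ t in (⌊Y₁⌋₊ : ℝ)..Y₁, G g H t := by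
    linarith
  rw [e3]
  have t3 := abs_sub (∫ t in (⌊Y₂⌋₊ : ℝ)..Y₂, G g H t) (∫ t in (⌊Y₁⌋₊ : ℝ)..Y₁, G g H t)
  linarith

end Pool.Agent.W815.RGC
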