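import Pool.Agent.W815.RGC.Stm

set_option autoImplicit false

/-!
# Project RGC: the diagonal part
-/

namespace Pool.Agent.W815.RGC

open Finset

/-- sum over `Ioc a (a + K)` -/
theorem sum_Ioc_range (f : ℕ → ℝ) (a K : ℕ) :
    ∑ n ∈ Ioc a (a + K), f n = ∑ j ∈ range K, f (j + a + 1) := by
  induction K with
  | zero => simp
  | succ K ih =>
    rw [← add_assoc, Finset.sum_Ioc_succ_top (by omega : a ≤ a + K), ih, Finset.sum_range_succ]
    congr 2
    omega

open Classical in
theorem card_sqf (a K : ℕ) : (((Ioc a (a + K)).filter Squarefree).card : ℝ) =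
    ∑ j ∈ range K, (if Squarefree (j + a + 1) then (1 : ℝ) else 0) := by
  rw [Finset.card_filter, Nat.cast_sum, ← sum_Ioc_range (fun n => if Squarefree n then (1 : ℝ) else 0)]
  refine Finset.sum_congr rfl fun n _ => ?_
  split_ifs <;> simp

theorem diag : SSqf → SDiag := by
  classical
  rintro ⟨C, hC, h⟩
  set q : ℕ → ℝ := fun n => if Squarefree n then (1 : ℝ) else 0 with hq
  set S : ℕ → ℝ := fun N => ∑ i ∈ range N, q (i + 1) with hS
  have hS1 : ∀ N : ℕ, |S N - 6 / Real.pi ^ 2 * N| ≤ C * Real.sqrt N := by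
    intro N
    have h1 := h N
    have h2 : (((Ioc 0 N).filter Squarefree).card : ℝ) = S N := by
      have h3 := card_sqf 0 N
      rw [zero_add] at h3
      rw [hS]
      simp only [hq]
      convert h3 using 3
    have h4 : (((open Classical in (Ioc 0 N).filter Squarefree).card : ℝ)) = S N := by
      rw [← h2]
    rw [← h4]
    exact h1
  refine ⟨2 * C, by positivity, fun B K => ?_⟩
  have hD : Dg B K = ∑ j ∈ range K, (S (j + B) - S j) := by
    unfold Dg
    have h1 : ∀ a ∈ range B, (((Ioc a (a + K)).filter Squarefree).card : ℝ) =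
        ∑ j ∈ range K, q (j + a + 1) := fun a _ => card_sqf a K
    calc _ = ∑ a ∈ range B, ∑ j ∈ range K, q (j + a + 1) := by
          refine Finset.sum_congr rfl fun a ha => ?_
          rw [← h1 a ha]
      _ = ∑ j ∈ range K, ∑ a ∈ range B, q (j + a + 1) := Finset.sum_comm
      _ = _ := by
          refine Finset.sum_congr rfl fun j _ => ?_
          rw [hS]
          simp only
          rw [Finset.sum_range_add]
          ring
  have hE : 6 / Real.pi ^ 2 * K * B =
      ∑ j ∈ range K, (6 / Real.pi ^ 2 * ((j + B : ℕ) : ℝ) - 6 / Real.pi ^ 2 * (j : ℝ)) := by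
    rw [Finset.sum_congr rfl (fun j _ => by
      push_cast
      ring : ∀ j ∈ range K, (6 / Real.pi ^ 2 * ((j + B : ℕ) : ℝ) - 6 / Real.pi ^ 2 * (j : ℝ)) =
        6 / Real.pi ^ 2 * B), Finset.sum_const, card_range, nsmul_eq_mul]
    ring
  rw [hD, hE, ← Finset.sum_sub_distrib]
  refine (Finset.abs_sum_le_sum_abs _ _).trans ?_
  have hb : ∀ j ∈ range K, |S (j + B) - S j - (6 / Real.pi ^ 2 * ((j + B : ℕ) : ℝ) -
      6 / Real.pi ^ 2 * (j : ℝ))| ≤ 2 * C * Real.sqrt ((B : ℝ) + K) := by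
    intro j hj
    have hj' : (j : ℝ) ≤ K := by exact_mod_cast (mem_range.1 hj).le
    have h1 := hS1 (j + B)
    have h2 := hS1 j
    have hB0 : (0 : ℝ) ≤ B := Nat.cast_nonneg _
    have h3 : Real.sqrt ((j + B : ℕ) : ℝ) ≤ Real.sqrt ((B : ℝ) + K) := by
      apply Real.sqrt_le_sqrt
      push_cast
      linarith
    have h4 : Real.sqrt (j : ℝ) ≤ Real.sqrt ((B : ℝ) + K) := by
      apply Real.sqrt_le_sqrt
      linarith
    calc |S (j + B) - S j - (6 / Real.pi ^ 2 * ((j + B : ℕ) : ℝ) - 6 / Real.pi ^ 2 * (j : ℝ))|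
        = |(S (j + B) - 6 / Real.pi ^ 2 * ((j + B : ℕ) : ℝ)) -
            (S j - 6 / Real.pi ^ 2 * (j : ℝ))| := by ring_nf
      _ ≤ |S (j + B) - 6 / Real.pi ^ 2 * ((j + B : ℕ) : ℝ)| +
            |S j - 6 / Real.pi ^ 2 * (j : ℝ)| := abs_sub _ _
      _ ≤ C * Real.sqrt ((j + B : ℕ) : ℝ) + C * Real.sqrt (j : ℝ) := add_le_add h1 h2
      _ ≤ C * Real.sqrt ((B : ℝ) + K) + C * Real.sqrt ((B : ℝ) + K) := by gcongr
      _ = _ := by ring
  refine (Finset.sum_le_card_nsmul _ _ _ hb).trans ?_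
  rw [card_range, nsmul_eq_mul]
  apply le_of_eq
  ring

end Pool.Agent.W815.RGC
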