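import Pool.Agent.W815.RGC.Stm

set_option autoImplicit false

/-!
# RGC-FIN: the tail bound for the off-diagonal part
-/

namespace Pool.Agent.W815.RGC

open Finset MeasureTheory Filter Topology Pool.Agent.Helper497.HS Pool.Agent.H595R2.PTF

/-- the real inequality behind `fin` -/
lemma fin_real (ε C1 C2 b k : ℝ) (hC1 : 0 < C1) (hC2 : 0 < C2)
    (hb : 1 ≤ b) (hk : 1 ≤ k) (hkb : k ≤ b ^ (1 - ε)) :
    C2 * (2 * b) ^ (ε / 8) * (4 * k ^ 2 * (C1 * (2 * b) ^ (1 + ε / 8) * k)) ≤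
      4 * C1 * C2 * 2 ^ (1 + 2 * (ε / 8)) * b ^ (-(ε / 2)) * (k * b ^ (1 - ε / 8)) ^ 2 := by
  have hb0 : 0 < b := by linarith
  have hk0 : 0 < k := by linarith
  have h2b : 0 < 2 * b := by linarith
  have e1 : (2 * b) ^ (ε / 8) * (2 * b) ^ (1 + ε / 8) = 2 ^ (1 + 2 * (ε / 8)) * b ^ (1 + 2 * (ε / 8)) := by
    rw [← Real.rpow_add h2b, ← Real.mul_rpow (by norm_num) hb0.le]
    congr 1
    ring
  have e2 : b ^ (-(ε / 2)) * (b ^ (1 - ε / 8)) ^ 2 = b ^ (1 + 2 * (ε / 8)) * b ^ (1 - ε) := by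
    rw [← Real.rpow_natCast (b ^ (1 - ε / 8)) 2, ← Real.rpow_mul hb0.le, ← Real.rpow_add hb0,
      ← Real.rpow_add hb0]
    congr 1
    push_cast
    ring
  have e3 : 0 < b ^ (1 + 2 * (ε / 8)) := Real.rpow_pos_of_pos hb0 _
  have e4 : (0 : ℝ) < 2 ^ (1 + 2 * (ε / 8)) := Real.rpow_pos_of_pos (by norm_num) _
  calc C2 * (2 * b) ^ (ε / 8) * (4 * k ^ 2 * (C1 * (2 * b) ^ (1 + ε / 8) * k))
      = 4 * C1 * C2 * k ^ 2 * ((2 * b) ^ (ε / 8) * (2 * b) ^ (1 + ε / 8)) * k := by ring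
    _ = 4 * C1 * C2 * k ^ 2 * (2 ^ (1 + 2 * (ε / 8)) * b ^ (1 + 2 * (ε / 8))) * k := by rw [e1]
    _ ≤ 4 * C1 * C2 * k ^ 2 * (2 ^ (1 + 2 * (ε / 8)) * b ^ (1 + 2 * (ε / 8))) * b ^ (1 - ε) := by
        apply mul_le_mul_of_nonneg_left hkb
        positivity
    _ = 4 * C1 * C2 * 2 ^ (1 + 2 * (ε / 8)) * k ^ 2 *
          (b ^ (1 + 2 * (ε / 8)) * b ^ (1 - ε)) := by ring
    _ = 4 * C1 * C2 * 2 ^ (1 + 2 * (ε / 8)) * k ^ 2 *
          (b ^ (-(ε / 2)) * (b ^ (1 - ε / 8)) ^ 2) := by rw [e2]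
    _ = _ := by ring

theorem fin : SCnt → SSec → SLdg → STail → SDeg → SFin := by
  intro hCnt hSec hLdg hTail hDeg ε hε hε1
  obtain ⟨C1, hC1, hcnt⟩ := hCnt (ε / 8) (by positivity)
  obtain ⟨i, hi⟩ : ∃ i : ℕ, 8 / ε ≤ (2 : ℝ) ^ i := by
    obtain ⟨i, hi⟩ := pow_unbounded_of_one_lt (8 / ε) (one_lt_two : (1 : ℝ) < 2)
    exact ⟨i, hi.le⟩
  obtain ⟨C2, hC2, hdeg⟩ := hDeg (9 ^ i) (ε / 8) (Nat.one_le_pow _ _ (by norm_num)) (by positivity)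
  set C3 : ℝ := 4 * C1 * C2 * 2 ^ (1 + 2 * (ε / 8)) with hC3
  have hC3pos : 0 < C3 := by
    have : (0 : ℝ) < 2 ^ (1 + 2 * (ε / 8)) := Real.rpow_pos_of_pos (by norm_num) _
    positivity
  refine ⟨ε / 8, C3 ^ (2 ^ i), by positivity, by linarith, by positivity, ?_⟩
  intro B K hB hK hKB
  have hb : (1 : ℝ) ≤ (B : ℝ) := by exact_mod_cast hB
  have hk : (1 : ℝ) ≤ (K : ℝ) := by exact_mod_cast hK
  have hb0 : (0 : ℝ) < B := by linarith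
  have hk0 : (0 : ℝ) < K := by linarith
  have hKB' : (K : ℝ) ≤ B := by
    refine hKB.trans ?_
    calc (B : ℝ) ^ (1 - ε) ≤ (B : ℝ) ^ (1 : ℝ) :=
          Real.rpow_le_rpow_of_exponent_le hb (by linarith)
      _ = B := Real.rpow_one _
  have hM : ((B + K : ℕ) : ℝ) ≤ 2 * B := by push_cast; linarith
  have hM0 : (0 : ℝ) ≤ ((B + K : ℕ) : ℝ) := Nat.cast_nonneg _
  obtain ⟨d, hd1, hd2⟩ := hdeg (B + K) (by omega)
  set F : (Fin (B + K + 1) → ℤˣ) → ℝ := fun x => Off (rf (ext (B + K + 1) x)) B K with hF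
  have hLD : LD (2 * d) F := hLdg B K d hd1
  have ht : 0 < (K : ℝ) * (B : ℝ) ^ (1 - ε / 8) := mul_pos hk0 (Real.rpow_pos_of_pos hb0 _)
  have h1 := hTail (B + K + 1) (2 * d) F hLD i _ ht
  refine h1.trans ?_
  have hn0 : 0 ≤ nsq F := nsq_nonneg F
  have hn1 : nsq F ≤ 4 * (K : ℝ) ^ 2 * (C1 * (2 * B) ^ (1 + ε / 8) * K) := by
    refine (hSec B K).trans ?_
    apply mul_le_mul_of_nonneg_left _ (by positivity)
    refine (hcnt (B + K) K (by omega)).trans ?_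
    apply mul_le_mul_of_nonneg_right _ hk0.le
    apply mul_le_mul_of_nonneg_left _ hC1.le
    exact Real.rpow_le_rpow hM0 hM (by positivity)
  have h3 : (3 : ℝ) ^ (i * (2 * d)) ≤ C2 * (2 * B) ^ (ε / 8) := by
    have h4 : (3 : ℝ) ^ (i * (2 * d)) = (((9 ^ i : ℕ) : ℝ)) ^ d := by
      push_cast
      rw [← pow_mul, show (9 : ℝ) = 3 ^ 2 by norm_num, ← pow_mul]
      congr 1
      ring
    rw [h4]
    refine hd2.trans ?_
    apply mul_le_mul_of_nonneg_left _ hC2.le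
    exact Real.rpow_le_rpow hM0 hM (by positivity)
  have hbase : (3 : ℝ) ^ (i * (2 * d)) * nsq F / ((K : ℝ) * (B : ℝ) ^ (1 - ε / 8)) ^ 2 ≤
      C3 * (B : ℝ) ^ (-(ε / 2)) := by
    rw [div_le_iff₀ (by positivity)]
    calc (3 : ℝ) ^ (i * (2 * d)) * nsq F
        ≤ (C2 * (2 * B) ^ (ε / 8)) * (4 * (K : ℝ) ^ 2 * (C1 * (2 * B) ^ (1 + ε / 8) * K)) := by
          apply mul_le_mul h3 hn1 hn0
          positivity
      _ ≤ _ := fin_real ε C1 C2 B K hC1 hC2 hb hk hKB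
  have h5 : ((3 : ℝ) ^ (i * (2 * d)) * nsq F / ((K : ℝ) * (B : ℝ) ^ (1 - ε / 8)) ^ 2) ^ (2 ^ i) ≤
      (C3 * (B : ℝ) ^ (-(ε / 2))) ^ (2 ^ i) := by
    apply pow_le_pow_left₀ _ hbase
    positivity
  refine h5.trans ?_
  rw [mul_pow, div_eq_mul_inv (C3 ^ (2 ^ i))]
  apply mul_le_mul_of_nonneg_left _ (by positivity)
  rw [← Real.rpow_natCast ((B : ℝ) ^ (-(ε / 2))) (2 ^ i), ← Real.rpow_mul hb0.le,
    ← Real.rpow_natCast (B : ℝ) 4, ← Real.rpow_neg hb0.le]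
  apply Real.rpow_le_rpow_of_exponent_le hb
  push_cast
  rw [div_le_iff₀ hε] at hi
  nlinarith [hi]

end Pool.Agent.W815.RGC
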