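import Pool.Agent.W815.RGC.Stm

set_option autoImplicit false

namespace Pool.Agent.W815.RGC

open Finset MeasureTheory Filter Topology Pool.Agent.Helper497.HS Pool.Agent.H595R2.PTF

theorem units_meas (S : Set ℤˣ) : MeasurableSet S := by
  refine ⟨(fun u : ℤˣ => (u : ℤ)) '' S, trivial, ?_⟩
  exact Set.preimage_image_eq S (fun a b h => Units.ext h)

theorem law : SLaw := by
  classical
  intro Ω _ μ _ e h M A
  -- each value has probability 1/2
  have hval : ∀ (p : ℕ) (u : ℤˣ), μ (e p ⁻¹' {u}) = 1 / 2 := by
    intro p u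
    rcases Int.units_eq_one_or u with rfl | rfl
    · exact h.half p
    · have hc : e p ⁻¹' {(-1 : ℤˣ)} = (e p ⁻¹' {1})ᶜ := by
        ext ω
        simp only [Set.mem_preimage, Set.mem_singleton_iff, Set.mem_compl_iff]
        rcases Int.units_eq_one_or (e p ω) with h1 | h1
        · rw [h1]; decide
        · rw [h1]; decide
      rw [hc, prob_compl_eq_one_sub (h.meas p (units_meas _)), h.half p]
      rw [one_div]
      exact ENNReal.one_sub_inv_two
  have hpt : ∀ x : Fin M → ℤˣ, μ (⋂ i : Fin M, (e i ⁻¹' {x i})) = (1 / 2) ^ M := by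
    intro x
    have hi := h.ind.precomp (g := fun i : Fin M => (i : ℕ)) Fin.val_injective
    have := hi.meas_iInter (s := fun i : Fin M => e i ⁻¹' {x i})
      (fun i => ⟨{x i}, units_meas _, rfl⟩)
    rw [this]
    simp [hval]
  have hset : {ω | A (fun i => e i ω)} =
      ⋃ x ∈ (Finset.univ : Finset (Fin M → ℤˣ)).filter A, (⋂ i : Fin M, (e i ⁻¹' {x i})) := by
    ext ω
    simp only [Set.mem_ofPred_eq, Set.mem_iUnion, Set.mem_iInter, Set.mem_preimage,
      Set.mem_singleton_iff, Finset.mem_filter, Finset.mem_univ, true_and, exists_prop]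
    constructor
    · intro hA
      exact ⟨_, hA, fun i => rfl⟩
    · rintro ⟨x, hx, hi⟩
      have : (fun i : Fin M => e i ω) = x := funext hi
      rw [this]; exact hx
  rw [hset, measure_biUnion_finset]
  · rw [Finset.sum_congr rfl (fun x _ => hpt x), Finset.sum_const, nsmul_eq_mul]
    have hcard : (Fintype.card (Fin M → ℤˣ) : ℝ) = 2 ^ M := by
      simp [Fintype.card_pi]
    have hPr : Pr A = (((Finset.univ : Finset (Fin M → ℤˣ)).filter A).card : ℝ) * (1 / 2) ^ M := by
      rw [Pr_eq]
      unfold Ex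
      rw [Finset.sum_boole, hcard, div_eq_mul_inv, one_div, inv_pow]
    rw [hPr, ENNReal.ofReal_mul (Nat.cast_nonneg _), ENNReal.ofReal_natCast,
      ENNReal.ofReal_pow (by norm_num)]
    congr 2
    rw [ENNReal.ofReal_div_of_pos (by norm_num)]
    simp
  · intro x _ y _ hxy
    rw [Function.onFun, Set.disjoint_left]
    intro ω hx hy
    apply hxy
    funext i
    simp only [Set.mem_iInter, Set.mem_preimage, Set.mem_singleton_iff] at hx hy
    rw [← hx i, ← hy i]
  · intro x _
    exact MeasurableSet.iInter (fun i => h.meas i (units_meas _))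

end Pool.Agent.W815.RGC
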