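import Pool.Agent.W815.RGC.Stm

set_option autoImplicit false

namespace Pool.Agent.W815.RGC

open Finset MeasureTheory Filter Topology Pool.Agent.Helper497.HS Pool.Agent.H595R2.PTF

/-- the prime divisors of `n` as a subset of `Fin M` -/
def PSet (M n : ℕ) : Finset (Fin M) := univ.filter (fun i : Fin M => (i : ℕ) ∈ n.primeFactors)

lemma PSet_map {M n : ℕ} (h : n < M) : (PSet M n).map Fin.valEmbedding = n.primeFactors := by
  ext p
  simp only [PSet, Finset.mem_map, Finset.mem_filter, mem_univ, true_and, Fin.valEmbedding_apply]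
  constructor
  · rintro ⟨i, hi, rfl⟩
    exact hi
  · intro hp
    exact ⟨⟨p, lt_of_le_of_lt (Nat.le_of_mem_primeFactors hp) h⟩, hp, rfl⟩

lemma PSet_card {M n : ℕ} (h : n < M) : (PSet M n).card = n.primeFactors.card := by
  rw [← PSet_map h, card_map]

lemma rf_ext {M n : ℕ} (h : n < M) : ∃ c : ℝ, ∀ x : Fin M → ℤˣ,
    rf (ext M x) n = c * chi (PSet M n) x := by
  classical
  refine ⟨if Squarefree n then 1 else 0, fun x => ?_⟩
  unfold rf
  by_cases hs : Squarefree n
  · rw [if_pos hs, if_pos hs, one_mul, ← PSet_map h, prod_map]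
    unfold chi
    refine prod_congr rfl fun i _ => ?_
    unfold ext
    rw [dif_pos (by simp)]
    rfl
  · rw [if_neg hs, if_neg hs, zero_mul]

lemma LD_prod {M n m d : ℕ} (hn : n < M) (hm : m < M) (h1 : n.primeFactors.card ≤ d)
    (h2 : m.primeFactors.card ≤ d) :
    LD (2 * d) (fun x : Fin M → ℤˣ => rf (ext M x) n * rf (ext M x) m) := by
  obtain ⟨c, hc⟩ := rf_ext hn
  obtain ⟨e, he⟩ := rf_ext hm
  have h : (fun x : Fin M → ℤˣ => rf (ext M x) n * rf (ext M x) m) =
      fun x => (c * e) * chi (symmDiff (PSet M n) (PSet M m)) x := by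
    funext x
    rw [hc, he, ← chi_mul_chi]
    ring
  rw [h]
  refine LD.const_mul _ ((LD_chi _).mono ?_)
  have h3 : (symmDiff (PSet M n) (PSet M m)).card ≤ (PSet M n ∪ PSet M m).card := by
    refine card_le_card ?_
    intro i hi
    rw [mem_symmDiff] at hi
    rw [mem_union]
    tauto
  have h4 := card_union_le (PSet M n) (PSet M m)
  rw [PSet_card hn, PSet_card hm] at h4
  omega

/-- LDG: degree -/
theorem ldg : SLdg := by
  intro B K d hd
  unfold Off
  refine LD.sub ?_ ?_
  · unfold E
    refine LD.sum _ fun a ha => ?_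
    have h : (fun x : Fin (B + K + 1) → ℤˣ => (W (rf (ext (B + K + 1) x)) a K) ^ 2) =
        fun x => ∑ n ∈ Ioc a (a + K), ∑ m ∈ Ioc a (a + K),
          rf (ext (B + K + 1) x) n * rf (ext (B + K + 1) x) m := by
      funext x
      unfold W
      rw [sq, sum_mul_sum]
    rw [h]
    have ha' := mem_range.mp ha
    refine LD.sum _ fun n hn => LD.sum _ fun m hm => ?_
    have hn' := mem_Ioc.mp hn
    have hm' := mem_Ioc.mp hm
    exact LD_prod (by omega) (by omega) (hd n (mem_Icc.mpr (by omega)))
      (hd m (mem_Icc.mpr (by omega)))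
  · have h : (fun _ : Fin (B + K + 1) → ℤˣ => Dg B K) =
        fun x => Dg B K * chi ∅ x := by
      funext x
      simp [chi]
    rw [h]
    exact LD.const_mul _ ((LD_chi _).mono (by simp))

end Pool.Agent.W815.RGC
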