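import Pool.Agent.W815.RGC.Stm

set_option autoImplicit false

/-!
# Project RGC: high moments and tails of functions of low degree on the cube
-/

namespace Pool.Agent.W815.RGC

open Finset Pool.Agent.Helper497.HS Pool.Agent.H595R2.PTF

section closure

variable {ι : Type} [Fintype ι] [DecidableEq ι]

theorem LD_mul {d e : ℕ} {P Q : (ι → ℤˣ) → ℝ} (hP : LD d P) (hQ : LD e Q) :
    LD (d + e) (fun x => P x * Q x) := by
  intro S hS
  have h : (fun x => P x * Q x)
      = fun x => ∑ T, ∑ U, (fc P T * fc Q U) * chi (symmDiff T U) x := by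
    funext x
    rw [fourier_expand P x, fourier_expand Q x, Finset.sum_mul_sum]
    refine Finset.sum_congr rfl fun T _ => Finset.sum_congr rfl fun U _ => ?_
    rw [← chi_mul_chi]
    ring
  rw [h, fc_sum]
  refine Finset.sum_eq_zero fun T _ => ?_
  rw [fc_sum]
  refine Finset.sum_eq_zero fun U _ => ?_
  rw [fc_const_mul, fc_chi]
  rcases lt_or_ge d T.card with hT | hT
  · rw [hP T hT, zero_mul, zero_mul]
  rcases lt_or_ge e U.card with hU | hU
  · rw [hQ U hU, mul_zero, zero_mul]
  rw [if_neg, mul_zero]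
  rintro rfl
  have h1 : (symmDiff T U).card ≤ T.card + U.card := by
    refine (Finset.card_le_card ?_).trans (Finset.card_union_le T U)
    intro i hi
    rw [Finset.mem_symmDiff] at hi
    rw [Finset.mem_union]
    tauto
  omega

theorem LD_pow {d : ℕ} {P : (ι → ℤˣ) → ℝ} (hP : LD d P) (k : ℕ) :
    LD (k * d) (fun x => P x ^ k) := by
  induction k with
  | zero =>
    have h := LD_chi (∅ : Finset ι)
    have h1 : (fun x : ι → ℤˣ => chi (∅ : Finset ι) x) = fun x => P x ^ 0 := by
      funext x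
      simp [chi]
    rw [h1] at h
    simpa using h
  | succ k ih =>
    have h := LD_mul ih hP
    have h1 : (k + 1) * d = k * d + d := by ring
    rw [h1]
    simpa only [pow_succ] using h

end closure

/-- MOM: high moments of low degree functions -/
theorem mom : SMom := by
  intro M d P hP i
  induction i with
  | zero => simp [nsq]
  | succ i ih =>
    have h1 := bonami_cube (LD_pow hP (2 ^ i))
    have h2 : Ex (fun x => P x ^ (2 ^ (i + 1 + 1))) = Ex (fun x => (P x ^ (2 ^ i)) ^ 4) := by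
      refine Ex_congr fun x => ?_
      rw [← pow_mul]
      congr 1
      ring
    have h3 : nsq (fun x => P x ^ (2 ^ i)) = Ex (fun x => P x ^ (2 ^ (i + 1))) := by
      unfold nsq
      refine Ex_congr fun x => ?_
      rw [← pow_mul]
      congr 1
    have h4 : 0 ≤ Ex (fun x => P x ^ (2 ^ (i + 1))) := by
      rw [← h3]
      exact nsq_nonneg _
    rw [h2]
    rw [h3] at h1
    refine h1.trans ?_
    calc (9 : ℝ) ^ (2 ^ i * d) * Ex (fun x => P x ^ (2 ^ (i + 1))) ^ 2
        ≤ (9 : ℝ) ^ (2 ^ i * d) * (((3 : ℝ) ^ (i * d) * nsq P) ^ (2 ^ i)) ^ 2 :=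
          mul_le_mul_of_nonneg_left (pow_le_pow_left₀ h4 ih 2) (by positivity)
      _ = ((3 : ℝ) ^ ((i + 1) * d) * nsq P) ^ (2 ^ (i + 1)) := by
          rw [← pow_mul, ← pow_succ, mul_pow, mul_pow, ← mul_assoc]
          congr 1
          have h9 : (9 : ℝ) = 3 ^ 2 := by norm_num
          rw [h9, ← pow_mul, ← pow_mul, ← pow_mul, ← pow_add]
          congr 1
          ring

/-- TAIL -/
theorem tail : STail := by
  intro M d P hP i t ht
  have h0 : ∀ x : Fin M → ℤˣ, 0 ≤ P x ^ (2 ^ (i + 1)) := fun x => by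
    rw [pow_succ, pow_mul]
    exact sq_nonneg _
  have h1 := markov (fun x : Fin M → ℤˣ => P x ^ (2 ^ (i + 1))) h0 (t ^ (2 ^ (i + 1)))
    (pow_pos ht _)
  have h2 : Pr (fun x => t < |P x|)
      ≤ Pr (fun x : Fin M → ℤˣ => t ^ (2 ^ (i + 1)) ≤ P x ^ (2 ^ (i + 1))) := by
    refine Pr_mono fun x hx => ?_
    have h3 : P x ^ (2 ^ (i + 1)) = |P x| ^ (2 ^ (i + 1)) := by
      rw [pow_succ, mul_comm, pow_mul, pow_mul, sq_abs]
    rw [h3]
    exact pow_le_pow_left₀ ht.le hx.le _
  refine h2.trans (h1.trans ?_)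
  rw [div_pow, ← pow_mul, show 2 * 2 ^ i = 2 ^ (i + 1) by ring]
  exact div_le_div_of_nonneg_right (mom M d P hP i) (pow_pos ht _).le

end Pool.Agent.W815.RGC
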