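import Pool.Agent.W815.RGC.Stm

set_option autoImplicit false

namespace Pool.Agent.W815.RGC

open Finset MeasureTheory Filter Topology Pool.Agent.Helper497.HS Pool.Agent.H595R2.PTF

/-- the kappa function as a product over a symmetric difference -/
theorem sec_kap_eq (n m : ℕ) (hn : Squarefree n) (hm : Squarefree m) :
    kap (n, m) = ∏ p ∈ symmDiff n.primeFactors m.primeFactors, p := by
  have hn0 : n ≠ 0 := hn.ne_zero
  have hm0 : m ≠ 0 := hm.ne_zero
  obtain ⟨a, ha⟩ := Nat.gcd_dvd_left n m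
  obtain ⟨b, hb⟩ := Nat.gcd_dvd_right n m
  set g := n.gcd m with hg
  have hg0 : g ≠ 0 := by
    intro h; rw [h, zero_mul] at ha; exact hn0 ha
  have hgp : 0 < g := Nat.pos_of_ne_zero hg0
  have hna : n / g = a := by
    conv_lhs => rw [ha]
    exact Nat.mul_div_cancel_left a hgp
  have hmb : m / g = b := by
    conv_lhs => rw [hb]
    exact Nat.mul_div_cancel_left b hgp
  have hab : Nat.Coprime a b := by
    have := Nat.coprime_div_gcd_div_gcd (m := n) (n := m) (by rw [← hg]; exact hgp)
    rw [← hg, hna, hmb] at this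
    exact this
  have hga : Nat.Coprime g a := by
    rw [ha] at hn
    exact Nat.coprime_of_squarefree_mul hn
  have hgb : Nat.Coprime g b := by
    rw [hb] at hm
    exact Nat.coprime_of_squarefree_mul hm
  have hsa : Squarefree a := by rw [ha] at hn; exact hn.of_mul_right
  have hsb : Squarefree b := by rw [hb] at hm; exact hm.of_mul_right
  have hk : kap (n, m) = a * b := by
    unfold kap
    simp only
    rw [← hg, hna, hmb]
  have hsab : Squarefree (a * b) := (Nat.squarefree_mul hab).2 ⟨hsa, hsb⟩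
  have hset : symmDiff n.primeFactors m.primeFactors = (a * b).primeFactors := by
    have h1 : n.primeFactors = g.primeFactors ∪ a.primeFactors := by
      conv_lhs => rw [ha]
      exact hga.primeFactors_mul
    have h2 : m.primeFactors = g.primeFactors ∪ b.primeFactors := by
      conv_lhs => rw [hb]
      exact hgb.primeFactors_mul
    have d1 := hga.disjoint_primeFactors
    have d2 := hgb.disjoint_primeFactors
    have d3 := hab.disjoint_primeFactors
    rw [h1, h2, hab.primeFactors_mul]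
    ext p
    have e1 : p ∈ g.primeFactors → p ∉ a.primeFactors := fun h => Finset.disjoint_left.1 d1 h
    have e2 : p ∈ g.primeFactors → p ∉ b.primeFactors := fun h => Finset.disjoint_left.1 d2 h
    have e3 : p ∈ a.primeFactors → p ∉ b.primeFactors := fun h => Finset.disjoint_left.1 d3 h
    simp only [Finset.mem_symmDiff, Finset.mem_union]
    tauto
  rw [hk, hset]
  exact (Nat.prod_primeFactors_of_squarefree hsab).symm

/-- the index set of a number -/
def secS (M n : ℕ) : Finset (Fin M) := univ.filter (fun i : Fin M => (i : ℕ) ∈ n.primeFactors)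

theorem sec_rf_eq (M n : ℕ) (hn : n < M) (x : Fin M → ℤˣ) :
    rf (ext M x) n = open Classical in if Squarefree n then chi (secS M n) x else 0 := by
  classical
  unfold rf
  by_cases h : Squarefree n
  · rw [if_pos h, if_pos h]
    unfold chi
    symm
    refine Finset.prod_bij (fun i _ => (i : ℕ)) ?_ ?_ ?_ ?_
    · intro i hi
      exact (Finset.mem_filter.1 hi).2
    · intro i _ j _ hij
      exact Fin.ext hij
    · intro p hp
      have hpM : p < M := lt_of_le_of_lt (Nat.le_of_mem_primeFactors hp) hn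
      exact ⟨⟨p, hpM⟩, Finset.mem_filter.2 ⟨Finset.mem_univ _, hp⟩, rfl⟩
    · intro i _
      unfold sv ext
      rw [dif_pos i.2]
  · rw [if_neg h, if_neg h]

/-- the weight -/
def secw (B K : ℕ) (q : ℕ × ℕ) : ℕ := ((range B).filter (fun a => a < q.1 ∧ q.2 ≤ a + K)).card

theorem secw_le (B K : ℕ) (q : ℕ × ℕ) (hq : q.1 < q.2) : secw B K q ≤ K := by
  have h1 : (range B).filter (fun a => a < q.1 ∧ q.2 ≤ a + K) ⊆ Ico (q.2 - K) q.1 := by
    intro a ha
    obtain ⟨-, h1, h2⟩ := Finset.mem_filter.1 ha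
    rw [Finset.mem_Ico]
    omega
  refine (Finset.card_le_card h1).trans ?_
  rw [Nat.card_Ico]
  omega

theorem sec_W_sq (g : ℕ → ℝ) (a K : ℕ) : (W g a K) ^ 2 =
    ∑ n ∈ Ioc a (a + K), g n ^ 2 +
      2 * ∑ q ∈ (Ioc a (a + K) ×ˢ Ioc a (a + K)).filter (fun q => q.1 < q.2), g q.1 * g q.2 := by
  unfold W
  have h0 : (∑ n ∈ Ioc a (a + K), g n) ^ 2 =
      ∑ q ∈ Ioc a (a + K) ×ˢ Ioc a (a + K), g q.1 * g q.2 := by
    rw [sq, Finset.sum_mul_sum, Finset.sum_product]
  rw [h0]
  have h1 : ∑ q ∈ Ioc a (a + K) ×ˢ Ioc a (a + K), g q.1 * g q.2 =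
      ∑ q ∈ (Ioc a (a + K) ×ˢ Ioc a (a + K)).filter (fun q => q.1 < q.2), g q.1 * g q.2 +
      ∑ q ∈ (Ioc a (a + K) ×ˢ Ioc a (a + K)).filter (fun q => ¬ q.1 < q.2), g q.1 * g q.2 :=
    (Finset.sum_filter_add_sum_filter_not _ _ _).symm
  have h2 : ∑ q ∈ (Ioc a (a + K) ×ˢ Ioc a (a + K)).filter (fun q => ¬ q.1 < q.2), g q.1 * g q.2 =
      ∑ q ∈ ((Ioc a (a + K) ×ˢ Ioc a (a + K)).filter (fun q => ¬ q.1 < q.2)).filter
        (fun q => q.1 = q.2), g q.1 * g q.2 +
      ∑ q ∈ ((Ioc a (a + K) ×ˢ Ioc a (a + K)).filter (fun q => ¬ q.1 < q.2)).filter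
        (fun q => ¬ q.1 = q.2), g q.1 * g q.2 :=
    (Finset.sum_filter_add_sum_filter_not _ _ _).symm
  have h3 : ∑ q ∈ ((Ioc a (a + K) ×ˢ Ioc a (a + K)).filter (fun q => ¬ q.1 < q.2)).filter
        (fun q => q.1 = q.2), g q.1 * g q.2 = ∑ n ∈ Ioc a (a + K), g n ^ 2 := by
    symm
    refine Finset.sum_bij (fun n _ => (n, n)) ?_ ?_ ?_ ?_
    · intro n hn
      simp only [Finset.mem_filter, Finset.mem_product]
      exact ⟨⟨⟨hn, hn⟩, lt_irrefl _⟩, trivial⟩
    · intro n _ m _ h
      exact (Prod.mk.inj h).1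
    · intro q hq
      simp only [Finset.mem_filter, Finset.mem_product] at hq
      exact ⟨q.1, hq.1.1.1, Prod.ext rfl hq.2⟩
    · intro n _
      simp only
      ring
  have h4 : ∑ q ∈ ((Ioc a (a + K) ×ˢ Ioc a (a + K)).filter (fun q => ¬ q.1 < q.2)).filter
        (fun q => ¬ q.1 = q.2), g q.1 * g q.2 =
      ∑ q ∈ (Ioc a (a + K) ×ˢ Ioc a (a + K)).filter (fun q => q.1 < q.2), g q.1 * g q.2 := by
    refine Finset.sum_bij (fun q _ => (q.2, q.1)) ?_ ?_ ?_ ?_
    · intro q hq
      simp only [Finset.mem_filter, Finset.mem_product] at hq ⊢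
      exact ⟨⟨hq.1.1.2, hq.1.1.1⟩, by omega⟩
    · intro q _ q' _ h
      have := Prod.mk.inj h
      exact Prod.ext this.2 this.1
    · intro q hq
      simp only [Finset.mem_filter, Finset.mem_product] at hq
      refine ⟨(q.2, q.1), ?_, rfl⟩
      simp only [Finset.mem_filter, Finset.mem_product]
      exact ⟨⟨⟨hq.1.2, hq.1.1⟩, by omega⟩, by omega⟩
    · intro q _
      simp only
      ring
  rw [h1, h2, h3, h4]
  ring

theorem sec_pairs (B K a : ℕ) (ha : a < B) :
    (Ioc a (a + K) ×ˢ Ioc a (a + K)).filter (fun q => q.1 < q.2) =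
      (PR (B + K) K).filter (fun q => a < q.1 ∧ q.2 ≤ a + K) := by
  ext q
  unfold PR
  simp only [Finset.mem_filter, Finset.mem_product, Finset.mem_Ioc, Finset.mem_Icc]
  omega

theorem sec_Off_eq (B K : ℕ) (x : Fin (B + K + 1) → ℤˣ) :
    Off (rf (ext (B + K + 1) x)) B K = ∑ q ∈ PR (B + K) K,
      (2 * (secw B K q : ℝ)) * (rf (ext (B + K + 1) x) q.1 * rf (ext (B + K + 1) x) q.2) := by
  classical
  set g := rf (ext (B + K + 1) x) with hg
  have hsq : ∀ a ∈ range B, ∑ n ∈ Ioc a (a + K), g n ^ 2 =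
      (((Ioc a (a + K)).filter Squarefree).card : ℝ) := by
    intro a ha
    rw [Finset.mem_range] at ha
    rw [Finset.card_filter]
    push_cast
    refine Finset.sum_congr rfl fun n hn => ?_
    rw [Finset.mem_Ioc] at hn
    rw [hg, sec_rf_eq _ _ (by omega)]
    by_cases h : Squarefree n
    · rw [if_pos h, if_pos h, sq, chi_sq]
    · rw [if_neg h, if_neg h]
      simp
  unfold Off E Dg
  rw [← Finset.sum_sub_distrib]
  have h1 : ∀ a ∈ range B, (W g a K) ^ 2 - (((Ioc a (a + K)).filter Squarefree).card : ℝ) =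
      ∑ q ∈ PR (B + K) K, if (a < q.1 ∧ q.2 ≤ a + K) then 2 * (g q.1 * g q.2) else 0 := by
    intro a ha
    rw [sec_W_sq, hsq a ha, sec_pairs B K a (Finset.mem_range.1 ha), ← Finset.sum_filter,
      Finset.mul_sum]
    ring
  have h2 : ∑ a ∈ range B, ((W g a K) ^ 2 - (((Ioc a (a + K)).filter Squarefree).card : ℝ)) =
      ∑ a ∈ range B, ∑ q ∈ PR (B + K) K,
        (if (a < q.1 ∧ q.2 ≤ a + K) then 2 * (g q.1 * g q.2) else 0) :=
    Finset.sum_congr rfl h1
  have h3 : ∑ a ∈ range B, ((W g a K) ^ 2 - (((Ioc a (a + K)).filter Squarefree).card : ℝ)) =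
      ∑ q ∈ PR (B + K) K, (2 * (secw B K q : ℝ)) * (g q.1 * g q.2) := by
    rw [h2, Finset.sum_comm]
    refine Finset.sum_congr rfl fun q _ => ?_
    rw [← Finset.sum_filter, Finset.sum_const, nsmul_eq_mul]
    unfold secw
    ring
  convert h3 using 5

theorem sec_T_eq (M : ℕ) (n m n' m' : ℕ) (hn : n < M) (hm : m < M) (hn' : n' < M) (hm' : m' < M)
    (h : symmDiff (secS M n) (secS M m) = symmDiff (secS M n') (secS M m')) :
    symmDiff n.primeFactors m.primeFactors = symmDiff n'.primeFactors m'.primeFactors := by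
  have key : ∀ (a b : ℕ), a < M → b < M → ∀ p, p ∈ symmDiff a.primeFactors b.primeFactors ↔
      ∃ hp : p < M, (⟨p, hp⟩ : Fin M) ∈ symmDiff (secS M a) (secS M b) := by
    intro a b ha hb p
    have e1 : ∀ c, c < M → (p ∈ c.primeFactors → p < M) := fun c hc hp =>
      lt_of_le_of_lt (Nat.le_of_mem_primeFactors hp) hc
    have f1 := e1 a ha
    have f2 := e1 b hb
    simp only [Finset.mem_symmDiff, secS, Finset.mem_filter, Finset.mem_univ, true_and]
    constructor
    · intro h
      rcases h with h | h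
      · exact ⟨f1 h.1, Or.inl h⟩
      · exact ⟨f2 h.1, Or.inr h⟩
    · rintro ⟨_, h⟩
      exact h
  ext p
  rw [key n m hn hm, key n' m' hn' hm', h]

theorem sec : SSec := by
  classical
  intro B K
  set M := B + K + 1 with hM
  let c : ℕ × ℕ → ℝ := fun q => if (Squarefree q.1 ∧ Squarefree q.2) then 2 * (secw B K q : ℝ) else 0
  let T : ℕ × ℕ → Finset (Fin M) := fun q => symmDiff (secS M q.1) (secS M q.2)
  have hc0 : ∀ q, 0 ≤ c q := by
    intro q
    simp only [c]
    split_ifs
    · positivity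
    · exact le_rfl
  have hcK : ∀ q ∈ PR (B + K) K, c q ≤ 2 * K := by
    intro q hq
    have hlt : q.1 < q.2 := (Finset.mem_filter.1 hq).2.1
    have h1 : (secw B K q : ℝ) ≤ K := by exact_mod_cast secw_le B K q hlt
    simp only [c]
    split_ifs
    · linarith
    · positivity
  have hOff : ∀ x : Fin M → ℤˣ, Off (rf (ext M x)) B K =
      ∑ q ∈ PR (B + K) K, c q * chi (T q) x := by
    intro x
    rw [sec_Off_eq]
    refine Finset.sum_congr rfl fun q hq => ?_
    obtain ⟨h1, h2⟩ := Finset.mem_filter.1 hq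
    obtain ⟨h3, h4⟩ := Finset.mem_product.1 h1
    rw [Finset.mem_Icc] at h3 h4
    rw [sec_rf_eq _ _ (by omega), sec_rf_eq _ _ (by omega)]
    simp only [c, T]
    by_cases ha : Squarefree q.1
    · by_cases hb : Squarefree q.2
      · rw [if_pos ha, if_pos hb, if_pos ⟨ha, hb⟩, chi_mul_chi]
      · have hn : ¬ (Squarefree q.1 ∧ Squarefree q.2) := fun h => hb h.2
        rw [if_neg hb, if_neg hn]
        simp
    · have hn : ¬ (Squarefree q.1 ∧ Squarefree q.2) := fun h => ha h.1
      rw [if_neg ha, if_neg hn]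
      simp
  have hns : nsq (fun x : Fin M → ℤˣ => Off (rf (ext M x)) B K) =
      ∑ q ∈ PR (B + K) K, ∑ q' ∈ PR (B + K) K, c q * c q' * (if T q' = T q then 1 else 0) := by
    unfold nsq
    have h1 : ∀ x : Fin M → ℤˣ, (Off (rf (ext M x)) B K) ^ 2 =
        ∑ q ∈ PR (B + K) K, ∑ q' ∈ PR (B + K) K, (c q * c q') * (chi (T q) x * chi (T q') x) := by
      intro x
      rw [hOff x, sq, Finset.sum_mul_sum]
      refine Finset.sum_congr rfl fun q _ => Finset.sum_congr rfl fun q' _ => ?_
      ring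
    rw [Ex_congr h1, Ex_sum]
    refine Finset.sum_congr rfl fun q _ => ?_
    rw [Ex_sum]
    refine Finset.sum_congr rfl fun q' _ => ?_
    rw [Ex_const_mul]
    congr 1
    exact fc_chi (T q) (T q')
  rw [hns]
  have hle : ∀ q ∈ PR (B + K) K, ∀ q' ∈ PR (B + K) K,
      c q * c q' * (if T q' = T q then 1 else 0) ≤
        4 * (K : ℝ) ^ 2 * (if kap q' = kap q then 1 else 0) := by
    intro q hq q' hq'
    have hq1 := Finset.mem_filter.1 hq
    have hq1' := Finset.mem_filter.1 hq'
    have hq2 := Finset.mem_product.1 hq1.1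
    have hq2' := Finset.mem_product.1 hq1'.1
    rw [Finset.mem_Icc, Finset.mem_Icc] at hq2 hq2'
    by_cases hT : T q' = T q
    · rw [if_pos hT, mul_one]
      by_cases hk : kap q' = kap q
      · rw [if_pos hk, mul_one]
        have h1 := hcK q hq
        have h2 := hcK q' hq'
        have h3 := hc0 q
        have h4 := hc0 q'
        nlinarith [mul_le_mul h1 h2 h4 (by positivity : (0:ℝ) ≤ 2 * K)]
      · rw [if_neg hk, mul_zero]
        -- one of the coefficients vanishes
        by_cases hs : Squarefree q.1 ∧ Squarefree q.2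
        · by_cases hs' : Squarefree q'.1 ∧ Squarefree q'.2
          · exfalso
            apply hk
            have e := sec_T_eq M q'.1 q'.2 q.1 q.2 (by omega) (by omega) (by omega) (by omega) hT
            have k1 := sec_kap_eq q'.1 q'.2 hs'.1 hs'.2
            have k2 := sec_kap_eq q.1 q.2 hs.1 hs.2
            rw [Prod.mk.eta] at k1 k2
            rw [k1, k2, e]
          · have : c q' = 0 := if_neg hs'
            rw [this, mul_zero]
        · have : c q = 0 := if_neg hs
          rw [this, zero_mul]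
    · rw [if_neg hT, mul_zero]
      split_ifs <;> positivity
  refine (Finset.sum_le_sum fun q hq => Finset.sum_le_sum fun q' hq' => hle q hq q' hq').trans ?_
  unfold Npp
  push_cast
  rw [Finset.mul_sum]
  refine Finset.sum_le_sum fun q _ => ?_
  rw [← Finset.mul_sum, ← Finset.sum_filter, Finset.sum_const, nsmul_eq_mul, mul_one]

end Pool.Agent.W815.RGC
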