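import Pool.Agent.W815.RGC.Stm

set_option autoImplicit false

/-!
# Counting squarefree numbers
-/

namespace Pool.Agent.W815.RGC

open Finset Filter Topology

namespace SqfAux

/-- the Moebius function as a real number -/
noncomputable def mu (d : ℕ) : ℝ := ((ArithmeticFunction.moebius d : ℤ) : ℝ)

theorem abs_mu_le (d : ℕ) : |mu d| ≤ 1 := by
  have := ArithmeticFunction.abs_moebius_le_one (n := d)
  unfold mu
  exact_mod_cast this

theorem ind_eq (n M : ℕ) (hn : n ≠ 0) (hM : n ≤ M) (P : Decidable (Squarefree n)) :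
    (@ite ℝ (Squarefree n) P 1 0) = ∑ d ∈ Ioc 0 M, if d ^ 2 ∣ n then mu d else 0 := by
  obtain ⟨a, b, hab, ha⟩ := Nat.sq_mul_squarefree n
  have hb0 : b ≠ 0 := by rintro rfl; apply hn; rw [← hab]; simp
  have ha0 : a ≠ 0 := by rintro rfl; apply hn; rw [← hab]; simp
  have key : ∀ d : ℕ, d ^ 2 ∣ n ↔ d ∣ b := by
    intro d
    constructor
    · intro h
      have hd0 : d ≠ 0 := by
        rintro rfl
        rw [zero_pow two_ne_zero, zero_dvd_iff] at h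
        exact hn h
      rw [← Nat.factorization_le_iff_dvd (pow_ne_zero _ hd0) hn] at h
      rw [← Nat.factorization_le_iff_dvd hd0 hb0]
      intro p
      have h1 := h p
      rw [← hab, Nat.factorization_mul (pow_ne_zero _ hb0) ha0, Nat.factorization_pow,
        Nat.factorization_pow] at h1
      have h2 := ha.natFactorization_le_one p
      simp only [Finsupp.coe_smul, Finsupp.coe_add, Pi.add_apply, Pi.smul_apply, smul_eq_mul] at h1
      omega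
    · intro h
      rw [← hab]
      exact Dvd.dvd.mul_right (pow_dvd_pow_of_dvd h 2) a
  have h1 : (∑ d ∈ Ioc 0 M, if d ^ 2 ∣ n then mu d else 0) = ∑ d ∈ b.divisors, mu d := by
    rw [← Finset.sum_filter]
    apply Finset.sum_congr _ (fun _ _ => rfl)
    ext d
    simp only [Finset.mem_filter, Finset.mem_Ioc, Nat.mem_divisors, key]
    constructor
    · rintro ⟨-, h⟩; exact ⟨h, hb0⟩
    · rintro ⟨h, -⟩
      refine ⟨⟨Nat.pos_of_dvd_of_pos h (Nat.pos_of_ne_zero hb0), ?_⟩, h⟩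
      have h3 : d ≤ b := Nat.le_of_dvd (Nat.pos_of_ne_zero hb0) h
      have h4 : b ∣ n := by rw [← hab]; exact Dvd.dvd.mul_right (dvd_pow_self b two_ne_zero) a
      exact (h3.trans (Nat.le_of_dvd (Nat.pos_of_ne_zero hn) h4)).trans hM
  rw [h1]
  have h2 : (∑ d ∈ b.divisors, (ArithmeticFunction.moebius d : ℤ)) = if b = 1 then 1 else 0 := by
    have := congrArg (fun f => f b) ArithmeticFunction.moebius_mul_coe_zeta
    simp only [ArithmeticFunction.coe_mul_zeta_apply, ArithmeticFunction.one_apply] at this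
    exact this
  have h2' : (∑ d ∈ b.divisors, mu d) = if b = 1 then 1 else 0 := by
    have := congrArg (fun z : ℤ => (z : ℝ)) h2
    push_cast at this
    exact this
  rw [h2']
  have h4 : Squarefree n ↔ b = 1 := by
    constructor
    · intro h
      have := h b (by rw [← hab, ← sq]; exact dvd_mul_right _ _)
      exact Nat.isUnit_iff.mp this
    · rintro rfl
      rw [← hab]; simpa using ha
  by_cases hb : b = 1
  · rw [if_pos (h4.2 hb), if_pos hb]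
  · rw [if_neg (fun h => hb (h4.1 h)), if_neg hb]

theorem count_eq (N M : ℕ) (hM : N ≤ M) :
    ((open Classical in (Ioc 0 N).filter Squarefree).card : ℝ) =
      ∑ d ∈ Ioc 0 M, mu d * ((N / d ^ 2 : ℕ) : ℝ) := by
  classical
  rw [Finset.card_filter]
  push_cast
  have h1 : ∀ n ∈ Ioc 0 N, (if Squarefree n then (1 : ℝ) else 0) =
      ∑ d ∈ Ioc 0 M, if d ^ 2 ∣ n then mu d else 0 := by
    intro n hn
    rw [Finset.mem_Ioc] at hn
    exact ind_eq n M (by omega) (by omega) _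
  rw [Finset.sum_congr rfl h1, Finset.sum_comm]
  refine Finset.sum_congr rfl fun d _ => ?_
  rw [← Finset.sum_filter, Finset.sum_const, Nat.Ioc_filter_dvd_card_eq_div, nsmul_eq_mul,
    mul_comm]

/-- `∑ μ(d)/d² = 6/π²` -/
theorem mu_hasSum : HasSum (fun d : ℕ => mu d * (1 / (d : ℝ) ^ 2)) (6 / Real.pi ^ 2) := by
  have h2 : (1 : ℝ) < (2 : ℂ).re := by norm_num
  have hs : LSeriesSummable (fun n => ((ArithmeticFunction.moebius n : ℤ) : ℂ)) 2 :=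
    ArithmeticFunction.LSeriesSummable_moebius_iff.mpr h2
  have hL := ArithmeticFunction.LSeries_zeta_mul_Lseries_moebius h2
  rw [ArithmeticFunction.LSeries_zeta_eq_riemannZeta h2, riemannZeta_two] at hL
  have hpi : (Real.pi : ℂ) ≠ 0 := by exact_mod_cast Real.pi_ne_zero
  have hval : LSeries (fun n => ((ArithmeticFunction.moebius n : ℤ) : ℂ)) 2 =
      6 / (Real.pi : ℂ) ^ 2 := by
    field_simp
    field_simp at hL
    linear_combination hL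
  have hsum := hs.LSeriesHasSum
  rw [hval] at hsum
  have h3 : HasSum (fun d : ℕ => ((mu d * (1 / (d : ℝ) ^ 2) : ℝ) : ℂ))
      (((6 / Real.pi ^ 2 : ℝ)) : ℂ) := by
    have e : (((6 / Real.pi ^ 2 : ℝ)) : ℂ) = 6 / (Real.pi : ℂ) ^ 2 := by push_cast; ring
    rw [e]
    unfold LSeriesHasSum at hsum
    refine hsum.congr_fun ?_
    intro d
    rcases eq_or_ne d 0 with rfl | hd
    · simp [mu]
    · rw [LSeries.term_of_ne_zero hd]
      unfold mu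
      push_cast
      rw [show ((d : ℂ) ^ (2 : ℂ)) = (d : ℂ) ^ (2 : ℕ) by norm_cast]
      ring
  exact Complex.hasSum_ofReal.mp h3

theorem floor_bounds (N d : ℕ) : 0 ≤ (N : ℝ) * (1 / (d : ℝ) ^ 2) - ((N / d ^ 2 : ℕ) : ℝ) ∧
    (N : ℝ) * (1 / (d : ℝ) ^ 2) - ((N / d ^ 2 : ℕ) : ℝ) ≤ 1 := by
  have e : (N : ℝ) * (1 / (d : ℝ) ^ 2) = (N : ℝ) / ((d ^ 2 : ℕ) : ℝ) := by
    push_cast; ring
  rw [e]
  have h1 : ((N / d ^ 2 : ℕ) : ℝ) ≤ (N : ℝ) / ((d ^ 2 : ℕ) : ℝ) := Nat.cast_div_le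
  refine ⟨by linarith, ?_⟩
  rcases Nat.eq_zero_or_pos (d ^ 2) with h0 | h0
  · rw [h0]; simp
  · have h2 : (N : ℝ) < ((N / d ^ 2 : ℕ) + 1 : ℝ) * ((d ^ 2 : ℕ) : ℝ) := by
      have := Nat.lt_div_mul_add (a := N) h0
      have h3 : N < (N / d ^ 2 + 1) * d ^ 2 := by
        calc N < N / d ^ 2 * d ^ 2 + d ^ 2 := this
          _ = (N / d ^ 2 + 1) * d ^ 2 := by ring
      exact_mod_cast h3
    have h4 : (0 : ℝ) < ((d ^ 2 : ℕ) : ℝ) := by exact_mod_cast h0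
    have h5 : (N : ℝ) / ((d ^ 2 : ℕ) : ℝ) < ((N / d ^ 2 : ℕ) : ℝ) + 1 := by
      rw [div_lt_iff₀ h4]; exact h2
    linarith

theorem partial_bound (N M D : ℕ) (hD : D ≠ 0) (hDM : D ≤ M) (hM : N ≤ M) :
    |((open Classical in (Ioc 0 N).filter Squarefree).card : ℝ) -
      N * ∑ d ∈ Ioc 0 M, mu d * (1 / (d : ℝ) ^ 2)| ≤ (D : ℝ) + (N : ℝ) / (D : ℝ) := by
  rw [count_eq N M hM, Finset.mul_sum, ← Finset.sum_sub_distrib]
  have h1 : ∀ d ∈ Ioc 0 D, |mu d * ((N / d ^ 2 : ℕ) : ℝ) - (N : ℝ) * (mu d * (1 / (d : ℝ) ^ 2))| ≤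
      1 := by
    intro d _
    obtain ⟨h1, h2⟩ := floor_bounds N d
    have e : mu d * ((N / d ^ 2 : ℕ) : ℝ) - (N : ℝ) * (mu d * (1 / (d : ℝ) ^ 2)) =
        -(mu d * ((N : ℝ) * (1 / (d : ℝ) ^ 2) - ((N / d ^ 2 : ℕ) : ℝ))) := by ring
    rw [e, abs_neg, abs_mul, abs_of_nonneg h1]
    calc |mu d| * ((N : ℝ) * (1 / (d : ℝ) ^ 2) - ((N / d ^ 2 : ℕ) : ℝ)) ≤ 1 * 1 :=
          mul_le_mul (abs_mu_le d) h2 h1 zero_le_one
      _ = 1 := one_mul 1
  have h2 : ∀ d ∈ Ioc D M, |mu d * ((N / d ^ 2 : ℕ) : ℝ) - (N : ℝ) * (mu d * (1 / (d : ℝ) ^ 2))| ≤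
      N * ((d : ℝ) ^ 2)⁻¹ := by
    intro d _
    obtain ⟨h1, h2⟩ := floor_bounds N d
    have e : mu d * ((N / d ^ 2 : ℕ) : ℝ) - (N : ℝ) * (mu d * (1 / (d : ℝ) ^ 2)) =
        -(mu d * ((N : ℝ) * (1 / (d : ℝ) ^ 2) - ((N / d ^ 2 : ℕ) : ℝ))) := by ring
    rw [e, abs_neg, abs_mul, abs_of_nonneg h1]
    have h3 : (N : ℝ) * (1 / (d : ℝ) ^ 2) - ((N / d ^ 2 : ℕ) : ℝ) ≤ N * ((d : ℝ) ^ 2)⁻¹ := by
      rw [one_div]
      have : (0 : ℝ) ≤ ((N / d ^ 2 : ℕ) : ℝ) := Nat.cast_nonneg _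
      linarith
    calc |mu d| * ((N : ℝ) * (1 / (d : ℝ) ^ 2) - ((N / d ^ 2 : ℕ) : ℝ)) ≤
          1 * (N * ((d : ℝ) ^ 2)⁻¹) :=
          mul_le_mul (abs_mu_le d) h3 h1 zero_le_one
      _ = N * ((d : ℝ) ^ 2)⁻¹ := one_mul _
  rw [← Finset.sum_Ioc_consecutive _ (Nat.zero_le D) hDM]
  refine (abs_add_le _ _).trans ?_
  apply add_le_add
  · calc |∑ d ∈ Ioc 0 D, (mu d * ((N / d ^ 2 : ℕ) : ℝ) - (N : ℝ) * (mu d * (1 / (d : ℝ) ^ 2)))|
        ≤ ∑ d ∈ Ioc 0 D, |mu d * ((N / d ^ 2 : ℕ) : ℝ) -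
            (N : ℝ) * (mu d * (1 / (d : ℝ) ^ 2))| := Finset.abs_sum_le_sum_abs _ _
      _ ≤ ∑ _d ∈ Ioc 0 D, (1 : ℝ) := Finset.sum_le_sum h1
      _ = D := by simp
  · calc |∑ d ∈ Ioc D M, (mu d * ((N / d ^ 2 : ℕ) : ℝ) - (N : ℝ) * (mu d * (1 / (d : ℝ) ^ 2)))|
        ≤ ∑ d ∈ Ioc D M, |mu d * ((N / d ^ 2 : ℕ) : ℝ) -
            (N : ℝ) * (mu d * (1 / (d : ℝ) ^ 2))| := Finset.abs_sum_le_sum_abs _ _
      _ ≤ ∑ d ∈ Ioc D M, (N : ℝ) * ((d : ℝ) ^ 2)⁻¹ := Finset.sum_le_sum h2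
      _ = N * ∑ d ∈ Ioc D M, ((d : ℝ) ^ 2)⁻¹ := by rw [Finset.mul_sum]
      _ ≤ N * ((D : ℝ)⁻¹ - (M : ℝ)⁻¹) :=
          mul_le_mul_of_nonneg_left (sum_Ioc_inv_sq_le_sub hD hDM) (Nat.cast_nonneg _)
      _ ≤ N * (D : ℝ)⁻¹ := by
          apply mul_le_mul_of_nonneg_left _ (Nat.cast_nonneg _)
          have : (0 : ℝ) ≤ (M : ℝ)⁻¹ := inv_nonneg.2 (Nat.cast_nonneg _)
          linarith
      _ = N / D := by rw [div_eq_mul_inv]

theorem full_bound (N D : ℕ) (hD : D ≠ 0) :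
    |((open Classical in (Ioc 0 N).filter Squarefree).card : ℝ) - 6 / Real.pi ^ 2 * (N : ℝ)| ≤
      (D : ℝ) + (N : ℝ) / (D : ℝ) := by
  have ht : Tendsto (fun M : ℕ => ∑ d ∈ Ioc 0 M, mu d * (1 / (d : ℝ) ^ 2)) atTop
      (𝓝 (6 / Real.pi ^ 2)) := by
    have h := mu_hasSum.tendsto_sum_nat.comp (tendsto_add_atTop_nat 1)
    refine h.congr fun M => ?_
    simp only [Function.comp_apply]
    rw [Finset.range_eq_Ico, Finset.sum_eq_sum_Ico_succ_bot (by omega)]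
    have e : Finset.Ico (0 + 1) (M + 1) = Ioc 0 M := by
      ext x; simp only [Finset.mem_Ico, Finset.mem_Ioc]; omega
    rw [e]
    simp
  have ht2 : Tendsto (fun M : ℕ => |((open Classical in (Ioc 0 N).filter Squarefree).card : ℝ) -
      N * ∑ d ∈ Ioc 0 M, mu d * (1 / (d : ℝ) ^ 2)|) atTop
      (𝓝 |((open Classical in (Ioc 0 N).filter Squarefree).card : ℝ) - N * (6 / Real.pi ^ 2)|) :=
    ((ht.const_mul _).const_sub _).abs
  have h := le_of_tendsto ht2 (b := (D : ℝ) + N / D) (by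
    filter_upwards [eventually_ge_atTop (max N D)] with M hM
    exact partial_bound N M D hD ((le_max_right _ _).trans hM) ((le_max_left _ _).trans hM))
  rw [mul_comm (6 / Real.pi ^ 2) (N : ℝ)]
  exact h

end SqfAux

theorem sqf : SSqf := by
  refine ⟨3, by norm_num, fun N => ?_⟩
  rcases Nat.eq_zero_or_pos N with rfl | hN
  · simp
  have hs : 1 ≤ Nat.sqrt N := by
    rw [Nat.le_sqrt]; omega
  refine (SqfAux.full_bound N (Nat.sqrt N) (by omega)).trans ?_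
  have h1 : ((Nat.sqrt N : ℕ) : ℝ) ≤ Real.sqrt N := Real.nat_sqrt_le_real_sqrt
  have h2 : Real.sqrt N ≤ (Nat.sqrt N : ℝ) + 1 := Real.real_sqrt_le_nat_sqrt_succ
  have h3 : (1 : ℝ) ≤ (Nat.sqrt N : ℝ) := by exact_mod_cast hs
  have h4 : (N : ℝ) / (Nat.sqrt N : ℝ) ≤ 2 * Real.sqrt N := by
    rw [div_le_iff₀ (by linarith)]
    have h5 : Real.sqrt N * Real.sqrt N = N := Real.mul_self_sqrt (Nat.cast_nonneg _)
    have h6 : Real.sqrt N ≤ 2 * (Nat.sqrt N : ℝ) := by linarith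
    have h7 : 0 ≤ Real.sqrt N := Real.sqrt_nonneg _
    nlinarith
  linarith

end Pool.Agent.W815.RGC
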