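import Pool.Agent.W815.RGC.StmG
import Pool.Agent.W815.RGC.Mom
import Pool.Agent.W815.RGC.Ldg

set_option autoImplicit false

/-!
# RGE-BCG: Borel-Cantelli for the weighted sums
-/

namespace Pool.Agent.W815.RGE

open Finset MeasureTheory Filter Topology Pool.Agent.Helper497.HS Pool.Agent.H595R2.PTF
open Pool.Agent.W815.RGC

namespace GBcg

/-! ### degree -/

lemma LD_cf {M n d : ℕ} (hn : n < M) (h : n.primeFactors.card ≤ d) :
    LD d (fun x : Fin M → ℤˣ => cf M x n) := by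
  obtain ⟨c, hc⟩ := Pool.Agent.W815.RGC.rf_ext hn
  have h1 : (fun x : Fin M → ℤˣ => cf M x n) = fun x => c * chi (PSet M n) x := by
    funext x
    exact hc x
  rw [h1]
  refine LD.const_mul _ ((LD_chi _).mono ?_)
  rw [PSet_card hn]
  exact h

lemma LD_one (M : ℕ) : LD 0 (fun _ : Fin M → ℤˣ => (1 : ℝ)) := by
  have h : (fun _ : Fin M → ℤˣ => (1 : ℝ)) = fun x => chi (∅ : Finset (Fin M)) x := by
    funext x
    simp [chi]
  rw [h]
  exact (LD_chi _).mono (by simp)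

lemma LD_finprod {M d : ℕ} {κ : Type} [DecidableEq κ] (s : Finset κ)
    (P : κ → (Fin M → ℤˣ) → ℝ) (h : ∀ i ∈ s, LD d (P i)) :
    LD (s.card * d) (fun x => ∏ i ∈ s, P i x) := by
  induction s using Finset.induction_on with
  | empty => simpa using LD_one M
  | insert a s ha ih =>
    have h1 : (fun x : Fin M → ℤˣ => ∏ i ∈ insert a s, P i x) =
        fun x => P a x * ∏ i ∈ s, P i x := by
      funext x
      rw [Finset.prod_insert ha]
    rw [h1]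
    have h2 := LD_mul (h a (Finset.mem_insert_self _ _))
      (ih (fun i hi => h i (Finset.mem_insert_of_mem hi)))
    refine h2.mono (le_of_eq ?_)
    rw [Finset.card_insert_of_notMem ha]
    ring

lemma LD_S {M d j a K : ℕ} (hM : a + K < M)
    (h : ∀ n ∈ Ioc a (a + K), n.primeFactors.card ≤ d) :
    LD (j * d) (fun x : Fin M → ℤˣ => S (cf M x) j a K) := by
  classical
  unfold S
  refine LD.sum _ fun u _ => ?_
  have h1 := LD_finprod (M := M) (d := d) (univ : Finset (Fin j))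
    (fun i x => cf M x (u i)) (fun i _ => by
      have hu := Finset.mem_Ioc.1 (u i).2
      exact LD_cf (by omega) (h _ (u i).2))
  simpa using h1

lemma LD_AA {M d j m B B' K : ℕ} (hM : B' + K ≤ M)
    (h : ∀ n ∈ Icc 1 (B' + K), n.primeFactors.card ≤ d) :
    LD (j * d) (fun x : Fin M → ℤˣ => AA (cf M x) j m B B' K) := by
  unfold AA
  refine LD.sum _ fun a ha => ?_
  have ha' := (Finset.mem_Ico.1 ha).2
  refine LD.const_mul _ (LD_S (by omega) fun n hn => h n ?_)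
  have := Finset.mem_Ioc.1 hn
  exact Finset.mem_Icc.2 (by omega)

/-! ### locality -/

lemma S_congr {g h : ℕ → ℝ} {j a K : ℕ} (hgh : ∀ n ∈ Ioc a (a + K), g n = h n) :
    S g j a K = S h j a K := by
  unfold S
  refine Finset.sum_congr rfl fun u _ => Finset.prod_congr rfl fun i _ => ?_
  exact hgh _ (u i).2

lemma cf_ext (s : ℕ → ℤˣ) (M n : ℕ) (hn : n < M) :
    cf M (fun i : Fin M => s i) n = rf s n := by
  classical
  unfold cf rf
  split_ifs with h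
  · refine Finset.prod_congr rfl fun p hp => ?_
    have hp' : p < M := lt_of_le_of_lt (Nat.le_of_mem_primeFactors hp) hn
    unfold Pool.Agent.W815.RGC.ext
    rw [dif_pos hp']
  · rfl

lemma AA_ext (s : ℕ → ℤˣ) {M j m B B' K : ℕ} (hM : B' + K ≤ M) :
    AA (cf M (fun i : Fin M => s i)) j m B B' K = AA (rf s) j m B B' K := by
  unfold AA
  refine Finset.sum_congr rfl fun a ha => ?_
  have ha' := (Finset.mem_Ico.1 ha).2
  congr 1
  refine S_congr fun n hn => ?_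
  have := (Finset.mem_Ioc.1 hn).2
  exact cf_ext s M n (by omega)

/-! ### the tail -/

lemma real_ineq (c C0 C2 b k e : ℝ) (hc : 0 < c) (hC0 : 0 < C0) (hC2 : 0 < C2)
    (hb : 1 ≤ b) (hk : 1 ≤ k) :
    C2 * (4 * b) ^ (c / 4) * (C0 * b ^ (2 - c) * k ^ (2 * e)) ≤
      C0 * C2 * 4 ^ (c / 4) * b ^ (-(c / 4)) * (b ^ (1 - c / 4) * k ^ e) ^ 2 := by
  have hb0 : 0 < b := by linarith
  have hk0 : 0 < k := by linarith
  have e1 : (4 * b) ^ (c / 4) = 4 ^ (c / 4) * b ^ (c / 4) := Real.mul_rpow (by norm_num) hb0.le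
  have e2 : b ^ (-(c / 4)) * (b ^ (1 - c / 4)) ^ 2 = b ^ (c / 4) * b ^ (2 - c) := by
    rw [← Real.rpow_natCast (b ^ (1 - c / 4)) 2, ← Real.rpow_mul hb0.le, ← Real.rpow_add hb0,
      ← Real.rpow_add hb0]
    congr 1
    push_cast
    ring
  have e3 : (k ^ e) ^ 2 = k ^ (2 * e) := by
    rw [← Real.rpow_natCast (k ^ e) 2, ← Real.rpow_mul hk0.le]
    congr 1
    push_cast
    ring
  apply le_of_eq
  calc C2 * (4 * b) ^ (c / 4) * (C0 * b ^ (2 - c) * k ^ (2 * e))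
      = C0 * C2 * 4 ^ (c / 4) * k ^ (2 * e) * (b ^ (c / 4) * b ^ (2 - c)) := by rw [e1]; ring
    _ = C0 * C2 * 4 ^ (c / 4) * k ^ (2 * e) * (b ^ (-(c / 4)) * (b ^ (1 - c / 4)) ^ 2) := by
        rw [e2]
    _ = C0 * C2 * 4 ^ (c / 4) * (k ^ e) ^ 2 * (b ^ (-(c / 4)) * (b ^ (1 - c / 4)) ^ 2) := by
        rw [e3]
    _ = _ := by ring

theorem tailA (hQb : SQb) (hTail : STail) (hDeg : SDeg) (ε : ℝ) (j m : ℕ) (hε : 0 < ε)
    (hε1 : ε < 1) (hj : 1 ≤ j) : ∃ c C : ℝ, 0 < c ∧ 0 < C ∧ ∀ B B' K : ℕ, 1 ≤ B → B' ≤ 3 * B →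
    1 ≤ K → (K : ℝ) ≤ (B : ℝ) ^ (1 - ε) →
    Pr (fun x : Fin (3 * B + K + 1) → ℤˣ =>
      (B : ℝ) ^ (1 - c) * (K : ℝ) ^ ((m : ℝ) + (j : ℝ) / 2) <
        |AA (cf (3 * B + K + 1) x) j m B B' K|) ≤ C / (B : ℝ) ^ 6 := by
  obtain ⟨c, C0, hc, hC0, hq⟩ := hQb ε j m hε hε1 hj
  obtain ⟨i, hi⟩ : ∃ i : ℕ, 24 / c ≤ (2 : ℝ) ^ i := by
    obtain ⟨i, hi⟩ := pow_unbounded_of_one_lt (24 / c) (one_lt_two : (1 : ℝ) < 2)
    exact ⟨i, hi.le⟩
  obtain ⟨C2, hC2, hdeg⟩ := hDeg (3 ^ (i * j)) (c / 4) (Nat.one_le_pow _ _ (by norm_num))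
    (by positivity)
  set C3 : ℝ := C0 * C2 * 4 ^ (c / 4) with hC3
  have hC3pos : 0 < C3 := by
    have : (0 : ℝ) < 4 ^ (c / 4) := Real.rpow_pos_of_pos (by norm_num) _
    positivity
  refine ⟨c / 4, C3 ^ (2 ^ i), by positivity, by positivity, ?_⟩
  intro B B' K hB hB' hK hKB
  have hb : (1 : ℝ) ≤ (B : ℝ) := by exact_mod_cast hB
  have hk : (1 : ℝ) ≤ (K : ℝ) := by exact_mod_cast hK
  have hb0 : (0 : ℝ) < B := by linarith
  have hk0 : (0 : ℝ) < K := by linarith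
  have hKB' : (K : ℝ) ≤ B := by
    refine hKB.trans ?_
    calc (B : ℝ) ^ (1 - ε) ≤ (B : ℝ) ^ (1 : ℝ) :=
          Real.rpow_le_rpow_of_exponent_le hb (by linarith)
      _ = B := Real.rpow_one _
  have hM : ((3 * B + K : ℕ) : ℝ) ≤ 4 * B := by push_cast; linarith
  have hM0 : (0 : ℝ) ≤ ((3 * B + K : ℕ) : ℝ) := Nat.cast_nonneg _
  obtain ⟨d, hd1, hd2⟩ := hdeg (3 * B + K) (by omega)
  set F : (Fin (3 * B + K + 1) → ℤˣ) → ℝ :=
    fun x => AA (cf (3 * B + K + 1) x) j m B B' K with hF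
  have hLD : LD (j * d) F := LD_AA (by omega) fun n hn => hd1 n (by
    have := Finset.mem_Icc.1 hn
    exact Finset.mem_Icc.2 (by omega))
  have ht : 0 < (B : ℝ) ^ (1 - c / 4) * (K : ℝ) ^ ((m : ℝ) + (j : ℝ) / 2) :=
    mul_pos (Real.rpow_pos_of_pos hb0 _) (Real.rpow_pos_of_pos hk0 _)
  have h1 := hTail (3 * B + K + 1) (j * d) F hLD i _ ht
  refine h1.trans ?_
  have hn0 : 0 ≤ nsq F := nsq_nonneg F
  have hn1 : nsq F ≤ C0 * (B : ℝ) ^ (2 - c) * (K : ℝ) ^ (2 * ((m : ℝ) + (j : ℝ) / 2)) := by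
    refine (hq B B' K hB hB' hK hKB).trans (le_of_eq ?_)
    congr 1
    rw [← Real.rpow_natCast (K : ℝ) (2 * m + j)]
    congr 1
    push_cast
    ring
  have h3 : (3 : ℝ) ^ (i * (j * d)) ≤ C2 * (4 * B) ^ (c / 4) := by
    have h4 : (3 : ℝ) ^ (i * (j * d)) = (((3 ^ (i * j) : ℕ) : ℝ)) ^ d := by
      push_cast
      rw [← pow_mul]
      congr 1
      ring
    rw [h4]
    refine hd2.trans ?_
    apply mul_le_mul_of_nonneg_left _ hC2.le
    exact Real.rpow_le_rpow hM0 hM (by positivity)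
  have hbase : (3 : ℝ) ^ (i * (j * d)) * nsq F /
      ((B : ℝ) ^ (1 - c / 4) * (K : ℝ) ^ ((m : ℝ) + (j : ℝ) / 2)) ^ 2 ≤
      C3 * (B : ℝ) ^ (-(c / 4)) := by
    rw [div_le_iff₀ (by positivity)]
    calc (3 : ℝ) ^ (i * (j * d)) * nsq F
        ≤ (C2 * (4 * B) ^ (c / 4)) *
          (C0 * (B : ℝ) ^ (2 - c) * (K : ℝ) ^ (2 * ((m : ℝ) + (j : ℝ) / 2))) := by
          apply mul_le_mul h3 hn1 hn0
          positivity
      _ ≤ _ := real_ineq c C0 C2 B K ((m : ℝ) + (j : ℝ) / 2) hc hC0 hC2 hb hk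
  have h5 : ((3 : ℝ) ^ (i * (j * d)) * nsq F /
      ((B : ℝ) ^ (1 - c / 4) * (K : ℝ) ^ ((m : ℝ) + (j : ℝ) / 2)) ^ 2) ^ (2 ^ i) ≤
      (C3 * (B : ℝ) ^ (-(c / 4))) ^ (2 ^ i) := by
    apply pow_le_pow_left₀ _ hbase
    positivity
  refine h5.trans ?_
  rw [mul_pow, div_eq_mul_inv (C3 ^ (2 ^ i))]
  apply mul_le_mul_of_nonneg_left _ (by positivity)
  rw [← Real.rpow_natCast ((B : ℝ) ^ (-(c / 4))) (2 ^ i), ← Real.rpow_mul hb0.le,
    ← Real.rpow_natCast (B : ℝ) 6, ← Real.rpow_neg hb0.le]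
  apply Real.rpow_le_rpow_of_exponent_le hb
  push_cast
  rw [div_le_iff₀ hc] at hi
  nlinarith [hi]

end GBcg

theorem bcg : SBcg := by
  intro hQb hTail hDeg hLaw Ω _ μ _ e he
  have hε : ∀ k : ℕ, (0 : ℝ) < 1 / ((k : ℝ) + 2) ∧ 1 / ((k : ℝ) + 2) < 1 := by
    intro k
    have hk : (0 : ℝ) ≤ k := Nat.cast_nonneg k
    refine ⟨by positivity, ?_⟩
    rw [div_lt_one (by positivity)]
    linarith
  have hF := fun k j m : ℕ => GBcg.tailA hQb hTail hDeg (1 / ((k : ℝ) + 2)) (j + 1) m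
    (hε k).1 (hε k).2 (by omega)
  choose c C hc hC hP using hF
  -- one triple of parameters
  have key : ∀ k j m : ℕ, ∀ᵐ ω ∂μ, ∀ᶠ B : ℕ in atTop, ω ∉ {ω | ∃ B' K : ℕ, B' ≤ 3 * (B + 1) ∧
      1 ≤ K ∧ (K : ℝ) ≤ ((B + 1 : ℕ) : ℝ) ^ (1 - 1 / ((k : ℝ) + 2)) ∧
      ((B + 1 : ℕ) : ℝ) ^ (1 - c k j m) * (K : ℝ) ^ ((m : ℝ) + ((j + 1 : ℕ) : ℝ) / 2) <
        |AA (rf (fun p => e p ω)) (j + 1) m (B + 1) B' K|} := by
    intro k j m
    refine ae_eventually_notMem ?_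
    have hle : ∀ B : ℕ, μ {ω | ∃ B' K : ℕ, B' ≤ 3 * (B + 1) ∧
        1 ≤ K ∧ (K : ℝ) ≤ ((B + 1 : ℕ) : ℝ) ^ (1 - 1 / ((k : ℝ) + 2)) ∧
        ((B + 1 : ℕ) : ℝ) ^ (1 - c k j m) * (K : ℝ) ^ ((m : ℝ) + ((j + 1 : ℕ) : ℝ) / 2) <
          |AA (rf (fun p => e p ω)) (j + 1) m (B + 1) B' K|} ≤
        ENNReal.ofReal (4 * C k j m * (1 / ((B + 1 : ℕ) : ℝ) ^ 4)) := by
      intro B
      have hB1 : (1 : ℝ) ≤ ((B + 1 : ℕ) : ℝ) := by
        exact_mod_cast Nat.succ_le_succ (Nat.zero_le B)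
      set ev : ℕ → ℕ → Set Ω := fun B' K =>
        {ω | (K : ℝ) ≤ ((B + 1 : ℕ) : ℝ) ^ (1 - 1 / ((k : ℝ) + 2)) ∧
        ((B + 1 : ℕ) : ℝ) ^ (1 - c k j m) * (K : ℝ) ^ ((m : ℝ) + ((j + 1 : ℕ) : ℝ) / 2) <
          |AA (rf (fun p => e p ω)) (j + 1) m (B + 1) B' K|} with hev
      have hsub : {ω | ∃ B' K : ℕ, B' ≤ 3 * (B + 1) ∧
        1 ≤ K ∧ (K : ℝ) ≤ ((B + 1 : ℕ) : ℝ) ^ (1 - 1 / ((k : ℝ) + 2)) ∧
        ((B + 1 : ℕ) : ℝ) ^ (1 - c k j m) * (K : ℝ) ^ ((m : ℝ) + ((j + 1 : ℕ) : ℝ) / 2) <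
          |AA (rf (fun p => e p ω)) (j + 1) m (B + 1) B' K|} ⊆
          ⋃ p ∈ Finset.range (3 * (B + 1) + 1) ×ˢ Finset.Icc 1 (B + 1), ev p.1 p.2 := by
        rintro ω ⟨B', K, hB', hK1, hK2, hK3⟩
        rw [Set.mem_iUnion₂]
        refine ⟨(B', K), ?_, hK2, hK3⟩
        rw [Finset.mem_product, Finset.mem_Icc, Finset.mem_range]
        refine ⟨by dsimp only; omega, hK1, ?_⟩
        have h1 : ((B + 1 : ℕ) : ℝ) ^ (1 - 1 / ((k : ℝ) + 2)) ≤ ((B + 1 : ℕ) : ℝ) := by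
          calc ((B + 1 : ℕ) : ℝ) ^ (1 - 1 / ((k : ℝ) + 2)) ≤ ((B + 1 : ℕ) : ℝ) ^ (1 : ℝ) :=
                Real.rpow_le_rpow_of_exponent_le hB1 (by linarith [(hε k).1])
            _ = _ := Real.rpow_one _
        exact_mod_cast hK2.trans h1
      have hone : ∀ p ∈ Finset.range (3 * (B + 1) + 1) ×ˢ Finset.Icc 1 (B + 1),
          μ (ev p.1 p.2) ≤ ENNReal.ofReal (C k j m / ((B + 1 : ℕ) : ℝ) ^ 6) := by
        rintro ⟨B', K⟩ hp
        rw [Finset.mem_product, Finset.mem_Icc, Finset.mem_range] at hp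
        obtain ⟨hB', hK1, -⟩ := hp
        dsimp only at hB' hK1 ⊢
        by_cases hK2 : (K : ℝ) ≤ ((B + 1 : ℕ) : ℝ) ^ (1 - 1 / ((k : ℝ) + 2))
        · have h1 := hLaw Ω _ μ inferInstance e he (3 * (B + 1) + K + 1)
            (fun x => ((B + 1 : ℕ) : ℝ) ^ (1 - c k j m) *
                (K : ℝ) ^ ((m : ℝ) + ((j + 1 : ℕ) : ℝ) / 2) <
              |AA (cf (3 * (B + 1) + K + 1) x) (j + 1) m (B + 1) B' K|)
          have h2 : {ω | ((B + 1 : ℕ) : ℝ) ^ (1 - c k j m) *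
                (K : ℝ) ^ ((m : ℝ) + ((j + 1 : ℕ) : ℝ) / 2) <
              |AA (cf (3 * (B + 1) + K + 1)
                (fun i : Fin (3 * (B + 1) + K + 1) => e i ω)) (j + 1) m (B + 1) B' K|} =
              ev B' K := by
            rw [hev]
            ext ω
            simp only [Set.mem_ofPred_eq]
            rw [GBcg.AA_ext (fun p => e p ω) (by omega)]
            exact ⟨fun h => ⟨hK2, h⟩, fun h => h.2⟩
          rw [← h2, h1]
          exact ENNReal.ofReal_le_ofReal (hP k j m (B + 1) B' K (by omega) (by omega) hK1 hK2)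
        · have h2 : ev B' K = ∅ := by
            rw [hev]
            ext ω
            simp only [Set.mem_ofPred_eq, Set.mem_empty_iff_false, iff_false]
            exact fun h => hK2 h.1
          rw [h2, measure_empty]
          exact zero_le
      calc _ ≤ μ (⋃ p ∈ Finset.range (3 * (B + 1) + 1) ×ˢ Finset.Icc 1 (B + 1), ev p.1 p.2) :=
            measure_mono hsub
        _ ≤ ∑ p ∈ Finset.range (3 * (B + 1) + 1) ×ˢ Finset.Icc 1 (B + 1), μ (ev p.1 p.2) :=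
            measure_biUnion_finset_le _ _
        _ ≤ ∑ p ∈ Finset.range (3 * (B + 1) + 1) ×ˢ Finset.Icc 1 (B + 1),
              ENNReal.ofReal (C k j m / ((B + 1 : ℕ) : ℝ) ^ 6) :=
            Finset.sum_le_sum hone
        _ = ENNReal.ofReal ((((3 * (B + 1) + 1) * (B + 1) : ℕ) : ℝ) *
              (C k j m / ((B + 1 : ℕ) : ℝ) ^ 6)) := by
            rw [Finset.sum_const, Finset.card_product, Finset.card_range, Nat.card_Icc,
              Nat.add_sub_cancel, nsmul_eq_mul, ← ENNReal.ofReal_natCast,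
              ← ENNReal.ofReal_mul (Nat.cast_nonneg _)]
        _ ≤ ENNReal.ofReal (4 * C k j m * (1 / ((B + 1 : ℕ) : ℝ) ^ 4)) := by
            apply ENNReal.ofReal_le_ofReal
            have hB0 : (0 : ℝ) < ((B + 1 : ℕ) : ℝ) := by positivity
            have hCp := hC k j m
            have hcard : (((3 * (B + 1) + 1) * (B + 1) : ℕ) : ℝ) ≤
                4 * ((B + 1 : ℕ) : ℝ) ^ 2 := by
              push_cast
              push_cast at hB1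
              nlinarith
            calc (((3 * (B + 1) + 1) * (B + 1) : ℕ) : ℝ) * (C k j m / ((B + 1 : ℕ) : ℝ) ^ 6)
                ≤ (4 * ((B + 1 : ℕ) : ℝ) ^ 2) * (C k j m / ((B + 1 : ℕ) : ℝ) ^ 6) :=
                  mul_le_mul_of_nonneg_right hcard (by positivity)
              _ = 4 * C k j m * (1 / ((B + 1 : ℕ) : ℝ) ^ 4) := by
                  field_simp
    have hsum : Summable (fun B : ℕ => 4 * C k j m * (1 / ((B + 1 : ℕ) : ℝ) ^ 4)) := by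
      refine Summable.mul_left _ ?_
      exact (summable_nat_add_iff (f := fun n : ℕ => 1 / (n : ℝ) ^ 4) 1).2
        (Real.summable_one_div_nat_pow.2 (by norm_num))
    exact ne_top_of_le_ne_top hsum.tsum_ofReal_ne_top (ENNReal.tsum_le_tsum hle)
  have key2 : ∀ᵐ ω ∂μ, ∀ k j m : ℕ, ∀ᶠ B : ℕ in atTop, ω ∉ {ω | ∃ B' K : ℕ, B' ≤ 3 * (B + 1) ∧
      1 ≤ K ∧ (K : ℝ) ≤ ((B + 1 : ℕ) : ℝ) ^ (1 - 1 / ((k : ℝ) + 2)) ∧
      ((B + 1 : ℕ) : ℝ) ^ (1 - c k j m) * (K : ℝ) ^ ((m : ℝ) + ((j + 1 : ℕ) : ℝ) / 2) <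
        |AA (rf (fun p => e p ω)) (j + 1) m (B + 1) B' K|} := by
    rw [ae_all_iff]
    intro k
    rw [ae_all_iff]
    intro j
    rw [ae_all_iff]
    intro m
    exact key k j m
  filter_upwards [key2] with ω hω
  intro ε hε0 hε1 j m hj
  obtain ⟨j, rfl⟩ : ∃ j', j = j' + 1 := ⟨j - 1, by omega⟩
  obtain ⟨k, hk⟩ := exists_nat_one_div_lt hε0
  have hkε : 1 / ((k : ℝ) + 2) ≤ ε := by
    refine le_trans ?_ hk.le
    have hk0 : (0 : ℝ) ≤ k := Nat.cast_nonneg k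
    exact one_div_le_one_div_of_le (by positivity) (by linarith)
  obtain ⟨N, hN⟩ := eventually_atTop.1 (hω k j m)
  refine ⟨c k j m, hc k j m, N + 1, ?_⟩
  intro B hB B' hB' K hK1 hK2
  obtain ⟨B0, rfl⟩ : ∃ B0, B = B0 + 1 := ⟨B - 1, by omega⟩
  have h1 := hN B0 (by omega)
  by_contra hcon
  refine h1 ⟨B', K, hB', hK1, hK2.trans ?_, not_le.1 hcon⟩
  refine Real.rpow_le_rpow_of_exponent_le ?_ (by linarith)
  exact_mod_cast Nat.succ_le_succ (Nat.zero_le B0)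

end Pool.Agent.W815.RGE
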