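import Pool.Agent.W815.RGC.StmG
import Pool.Agent.W815.RGC.Sec

set_option autoImplicit false

/-!
# Project RGE: pairs with a large common factor in two windows (helper359)
-/

namespace Pool.Agent.W815.RGE

open Finset MeasureTheory Filter Topology Pool.Agent.Helper497.HS Pool.Agent.H595R2.PTF
open Pool.Agent.W815.RGC

namespace GCrossAux

open Classical in
/-- the diagonal majorant -/
noncomputable def h1 (G : ℝ) (z y : ℕ × ℕ) : ℝ :=
  if z.1 = z.2 then (if y.1 = y.2 then (if G ≤ (z.1.gcd y.1 : ℝ) then 1 else 0) else 0) else 0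

open Classical in
/-- the off-diagonal majorant -/
noncomputable def h2 (z y : ℕ × ℕ) : ℝ :=
  if z.1 ≠ z.2 then (if y.1 ≠ y.2 then (if kap z = kap y then 1 else 0) else 0) else 0

theorem h1_nonneg (G : ℝ) (z y : ℕ × ℕ) : 0 ≤ h1 G z y := by
  unfold h1; split_ifs <;> norm_num

theorem h2_nonneg (z y : ℕ × ℕ) : 0 ≤ h2 z y := by
  unfold h2; split_ifs <;> norm_num

theorem pf_inj {n m : ℕ} (hn : Squarefree n) (hm : Squarefree m)
    (h : n.primeFactors = m.primeFactors) : n = m := by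
  rw [← Nat.prod_primeFactors_of_squarefree hn, ← Nat.prod_primeFactors_of_squarefree hm, h]

theorem point (M : ℕ) (G : ℝ) (n m n' m' : ℕ) (hn : n < M) (hm : m < M) (hn' : n' < M)
    (hm' : m' < M) (sn : Squarefree n) (sm : Squarefree m) (sn' : Squarefree n')
    (sm' : Squarefree m')
    (h : symmDiff (secS M n) (secS M m) = symmDiff (secS M n') (secS M m'))
    (hG : G ≤ (n.gcd m : ℝ)) : 1 ≤ h1 G (n, n') (m, m') + h2 (n, n') (m, m') := by
  have h0 := sec_T_eq M n m n' m' hn hm hn' hm' h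
  have h0' : ∀ p, (p ∈ symmDiff n.primeFactors m.primeFactors ↔
      p ∈ symmDiff n'.primeFactors m'.primeFactors) := fun p => by rw [h0]
  simp only [Finset.mem_symmDiff] at h0'
  by_cases e : n = n'
  · have e2 : m = m' := by
      refine pf_inj sm sm' ?_
      ext p
      have := h0' p
      rw [e] at this
      tauto
    have : h1 G (n, n') (m, m') = 1 := by
      unfold h1
      simp only
      rw [if_pos e, if_pos e2, if_pos hG]
    rw [this]
    linarith [h2_nonneg (n, n') (m, m')]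
  · have e2 : m ≠ m' := by
      intro e2
      apply e
      refine pf_inj sn sn' ?_
      ext p
      have := h0' p
      rw [e2] at this
      tauto
    have e3 : kap (n, n') = kap (m, m') := by
      rw [sec_kap_eq n n' sn sn', sec_kap_eq m m' sm sm']
      congr 1
      ext p
      have := h0' p
      simp only [Finset.mem_symmDiff]
      tauto
    have : h2 (n, n') (m, m') = 1 := by
      unfold h2
      simp only
      rw [if_pos e, if_pos e2, if_pos e3]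
    rw [this]
    linarith [h1_nonneg G (n, n') (m, m')]

/-- the second moment for one pair of windows -/
theorem nsq_le (M : ℕ) (G : ℝ) (a b K : ℕ) (ha : a + K < M) (hb : b + K < M) :
    nsq (fun x : Fin M → ℤˣ => Gc (cf M x) G a b K) ≤
      ∑ z ∈ Ioc a (a + K) ×ˢ Ioc a (a + K), ∑ y ∈ Ioc b (b + K) ×ˢ Ioc b (b + K),
        (h1 G z y + h2 z y) := by
  classical
  let c : ℕ × ℕ → ℝ := fun q =>
    if (G ≤ (q.1.gcd q.2 : ℝ) ∧ Squarefree q.1 ∧ Squarefree q.2) then 1 else 0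
  let T : ℕ × ℕ → Finset (Fin M) := fun q => symmDiff (secS M q.1) (secS M q.2)
  have hGc : ∀ x : Fin M → ℤˣ, Gc (cf M x) G a b K =
      ∑ q ∈ Ioc a (a + K) ×ˢ Ioc b (b + K), c q * chi (T q) x := by
    intro x
    unfold Gc
    rw [Finset.sum_product]
    refine Finset.sum_congr rfl fun n hn => Finset.sum_congr rfl fun m hm => ?_
    rw [Finset.mem_Ioc] at hn hm
    simp only [c, T]
    have f1 : cf M x n = _ := sec_rf_eq M n (by omega) x
    have f2 : cf M x m = _ := sec_rf_eq M m (by omega) x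
    rw [f1, f2]
    by_cases hg : G ≤ (n.gcd m : ℝ)
    · rw [if_pos hg]
      by_cases h1 : Squarefree n
      · by_cases h2 : Squarefree m
        · rw [if_pos h1, if_pos h2, if_pos ⟨hg, h1, h2⟩, chi_mul_chi, one_mul]
        · have hn : ¬ (G ≤ (n.gcd m : ℝ) ∧ Squarefree n ∧ Squarefree m) := fun h => h2 h.2.2
          rw [if_neg h2, if_neg hn]
          simp
      · have hn : ¬ (G ≤ (n.gcd m : ℝ) ∧ Squarefree n ∧ Squarefree m) := fun h => h1 h.2.1
        rw [if_neg h1, if_neg hn]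
        simp
    · have hn : ¬ (G ≤ (n.gcd m : ℝ) ∧ Squarefree n ∧ Squarefree m) := fun h => hg h.1
      rw [if_neg hg, if_neg hn]
      simp
  have hns : nsq (fun x : Fin M → ℤˣ => Gc (cf M x) G a b K) =
      ∑ q ∈ Ioc a (a + K) ×ˢ Ioc b (b + K), ∑ q' ∈ Ioc a (a + K) ×ˢ Ioc b (b + K),
        c q * c q' * (if T q' = T q then 1 else 0) := by
    unfold nsq
    have h1 : ∀ x : Fin M → ℤˣ, (Gc (cf M x) G a b K) ^ 2 =
        ∑ q ∈ Ioc a (a + K) ×ˢ Ioc b (b + K), ∑ q' ∈ Ioc a (a + K) ×ˢ Ioc b (b + K),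
          (c q * c q') * (chi (T q) x * chi (T q') x) := by
      intro x
      rw [hGc x, sq, Finset.sum_mul_sum]
      refine Finset.sum_congr rfl fun q _ => Finset.sum_congr rfl fun q' _ => ?_
      ring
    rw [Ex_congr h1, Ex_sum]
    refine Finset.sum_congr rfl fun q _ => ?_
    rw [Ex_sum]
    refine Finset.sum_congr rfl fun q' _ => ?_
    rw [Ex_const_mul]
    congr 1
    exact fc_chi (T q) (T q')
  rw [hns]
  have hle : ∀ q ∈ Ioc a (a + K) ×ˢ Ioc b (b + K), ∀ q' ∈ Ioc a (a + K) ×ˢ Ioc b (b + K),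
      c q * c q' * (if T q' = T q then 1 else 0) ≤
        h1 G (q.1, q'.1) (q.2, q'.2) + h2 (q.1, q'.1) (q.2, q'.2) := by
    intro q hq q' hq'
    rw [Finset.mem_product, Finset.mem_Ioc, Finset.mem_Ioc] at hq hq'
    have hnn : 0 ≤ h1 G (q.1, q'.1) (q.2, q'.2) + h2 (q.1, q'.1) (q.2, q'.2) :=
      add_nonneg (h1_nonneg _ _ _) (h2_nonneg _ _)
    simp only [c]
    by_cases hT : T q' = T q
    · by_cases hc : G ≤ (q.1.gcd q.2 : ℝ) ∧ Squarefree q.1 ∧ Squarefree q.2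
      · by_cases hc' : G ≤ (q'.1.gcd q'.2 : ℝ) ∧ Squarefree q'.1 ∧ Squarefree q'.2
        · rw [if_pos hT, if_pos hc, if_pos hc', mul_one, mul_one]
          exact point M G q.1 q.2 q'.1 q'.2 (by omega) (by omega) (by omega) (by omega)
            hc.2.1 hc.2.2 hc'.2.1 hc'.2.2 hT.symm hc.1
        · rw [if_neg hc', mul_zero, zero_mul]
          exact hnn
      · rw [if_neg hc, zero_mul, zero_mul]
        exact hnn
    · rw [if_neg hT, mul_zero]
      exact hnn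
  refine (Finset.sum_le_sum fun q hq => Finset.sum_le_sum fun q' hq' => hle q hq q' hq').trans ?_
  apply le_of_eq
  rw [Finset.sum_product, Finset.sum_product]
  refine Finset.sum_congr rfl fun n _ => ?_
  have e1 : ∀ m ∈ Ioc b (b + K), ∑ q' ∈ Ioc a (a + K) ×ˢ Ioc b (b + K),
      (h1 G (n, q'.1) (m, q'.2) + h2 (n, q'.1) (m, q'.2)) =
      ∑ n' ∈ Ioc a (a + K), ∑ m' ∈ Ioc b (b + K),
        (h1 G (n, n') (m, m') + h2 (n, n') (m, m')) := by
    intro m _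
    rw [Finset.sum_product]
  rw [Finset.sum_congr rfl e1, Finset.sum_comm]
  refine Finset.sum_congr rfl fun n' _ => ?_
  rw [Finset.sum_product]

/-- pairs at distance less than `K` -/
def ZZ (B K : ℕ) : Finset (ℕ × ℕ) :=
  (Icc 1 (4 * B) ×ˢ Icc 1 (4 * B)).filter (fun z => z.1 < z.2 + K ∧ z.2 < z.1 + K)

theorem win (B B' K : ℕ) (hB' : B' ≤ 3 * B) (hK : K ≤ B)
    (g : ℕ × ℕ → ℝ) (hg : ∀ z, 0 ≤ g z) :
    ∑ a ∈ Ico B B', ∑ z ∈ Ioc a (a + K) ×ˢ Ioc a (a + K), g z ≤ K * ∑ z ∈ ZZ B K, g z := by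
  classical
  have e1 : ∀ a ∈ Ico B B', ∑ z ∈ Ioc a (a + K) ×ˢ Ioc a (a + K), g z =
      ∑ z ∈ ZZ B K, if (z.1 ∈ Ioc a (a + K) ∧ z.2 ∈ Ioc a (a + K)) then g z else 0 := by
    intro a ha
    rw [Finset.mem_Ico] at ha
    rw [← Finset.sum_filter]
    refine Finset.sum_congr ?_ fun _ _ => rfl
    ext z
    unfold ZZ
    simp only [Finset.mem_filter, Finset.mem_product, Finset.mem_Ioc, Finset.mem_Icc]
    omega
  rw [Finset.sum_congr rfl e1, Finset.sum_comm, Finset.mul_sum]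
  refine Finset.sum_le_sum fun z _ => ?_
  rw [← Finset.sum_filter, Finset.sum_const, nsmul_eq_mul]
  refine mul_le_mul_of_nonneg_right ?_ (hg z)
  have h1 : (Ico B B').filter (fun a => z.1 ∈ Ioc a (a + K) ∧ z.2 ∈ Ioc a (a + K)) ⊆
      Ico (z.1 - K) z.1 := by
    intro a ha
    rw [Finset.mem_filter, Finset.mem_Ioc] at ha
    rw [Finset.mem_Ico]
    omega
  have h2 := Finset.card_le_card h1
  rw [Nat.card_Ico] at h2
  have h3 : z.1 - (z.1 - K) ≤ K := by omega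
  exact_mod_cast h2.trans h3

theorem kap_swap (z : ℕ × ℕ) : kap z.swap = kap z := by
  unfold kap
  simp only [Prod.fst_swap, Prod.snd_swap]
  rw [Nat.gcd_comm z.2 z.1, mul_comm]

theorem sym (B K : ℕ) (g : ℕ × ℕ → ℝ) (hg : ∀ z, g z.swap = g z) :
    ∑ z ∈ ZZ B K, (if z.1 ≠ z.2 then g z else 0) = 2 * ∑ z ∈ PR (4 * B) K, g z := by
  classical
  have e0 : ∀ z : ℕ × ℕ, (if z.1 ≠ z.2 then g z else 0) =
      (if z.1 < z.2 then g z else 0) + (if z.2 < z.1 then g z else 0) := by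
    intro z
    rcases lt_trichotomy z.1 z.2 with h | h | h
    · rw [if_pos h.ne, if_pos h, if_neg (by omega), add_zero]
    · rw [if_neg (by simpa using h), if_neg (by omega), if_neg (by omega), add_zero]
    · rw [if_pos h.ne', if_neg (by omega), if_pos h, zero_add]
  have e1 : ∑ z ∈ ZZ B K, (if z.1 < z.2 then g z else 0) = ∑ z ∈ PR (4 * B) K, g z := by
    rw [← Finset.sum_filter]
    refine Finset.sum_congr ?_ fun _ _ => rfl
    ext z
    unfold ZZ PR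
    simp only [Finset.mem_filter, Finset.mem_product, Finset.mem_Icc]
    omega
  have e2 : ∑ z ∈ ZZ B K, (if z.2 < z.1 then g z else 0) =
      ∑ z ∈ ZZ B K, (if z.1 < z.2 then g z else 0) := by
    refine Finset.sum_nbij' Prod.swap Prod.swap ?_ ?_ ?_ ?_ ?_
    · intro z hz
      unfold ZZ at hz ⊢
      simp only [Finset.mem_filter, Finset.mem_product, Finset.mem_Icc, Prod.fst_swap,
        Prod.snd_swap] at hz ⊢
      omega
    · intro z hz
      unfold ZZ at hz ⊢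
      simp only [Finset.mem_filter, Finset.mem_product, Finset.mem_Icc, Prod.fst_swap,
        Prod.snd_swap] at hz ⊢
      omega
    · intro z _
      exact Prod.swap_swap z
    · intro z _
      exact Prod.swap_swap z
    · intro z _
      simp only [Prod.fst_swap, Prod.snd_swap, hg]
  rw [Finset.sum_congr rfl fun z _ => e0 z, Finset.sum_add_distrib, e2, e1]
  ring

theorem sum_h2 (B K : ℕ) : ∑ z ∈ ZZ B K, ∑ y ∈ ZZ B K, h2 z y = 4 * (Npp (4 * B) K : ℝ) := by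
  classical
  have e1 : ∀ z : ℕ × ℕ, ∑ y ∈ ZZ B K, h2 z y =
      if z.1 ≠ z.2 then 2 * ∑ y ∈ PR (4 * B) K, (if kap z = kap y then (1 : ℝ) else 0) else 0 := by
    intro z
    unfold h2
    by_cases h : z.1 ≠ z.2
    · rw [if_pos h, ← sym B K (fun y => if kap z = kap y then (1 : ℝ) else 0)
        (fun y => by simp only [kap_swap])]
      refine Finset.sum_congr rfl fun y _ => ?_
      rw [if_pos h]
    · rw [if_neg h]
      refine Finset.sum_eq_zero fun y _ => ?_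
      rw [if_neg h]
  rw [Finset.sum_congr rfl fun z _ => e1 z,
    sym B K (fun z => 2 * ∑ y ∈ PR (4 * B) K, (if kap z = kap y then (1 : ℝ) else 0))
      (fun z => by simp only [kap_swap]), ← Finset.mul_sum]
  unfold Npp
  push_cast
  have e2 : ∀ z ∈ PR (4 * B) K, ∑ y ∈ PR (4 * B) K, (if kap z = kap y then (1 : ℝ) else 0) =
      (((PR (4 * B) K).filter (fun y => kap y = kap z)).card : ℝ) := by
    intro z _
    rw [Finset.card_filter]
    push_cast
    refine Finset.sum_congr rfl fun y _ => ?_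
    by_cases h : kap y = kap z
    · rw [if_pos h, if_pos h.symm]
    · rw [if_neg h, if_neg (fun h' => h h'.symm)]
  rw [Finset.sum_congr rfl e2]
  ring

/-- the number of pairs with a large common factor -/
noncomputable def QQ (G : ℝ) (B : ℕ) : ℝ :=
  open Classical in
  ∑ n ∈ Icc 1 (4 * B), ∑ m ∈ Icc 1 (4 * B), if G ≤ (n.gcd m : ℝ) then 1 else 0

theorem sum_h1 (G : ℝ) (B K : ℕ) : ∑ z ∈ ZZ B K, ∑ y ∈ ZZ B K, h1 G z y ≤ QQ G B := by
  classical
  have hsub : ZZ B K ⊆ Icc 1 (4 * B) ×ˢ Icc 1 (4 * B) := Finset.filter_subset _ _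
  calc ∑ z ∈ ZZ B K, ∑ y ∈ ZZ B K, h1 G z y
      ≤ ∑ z ∈ ZZ B K, ∑ y ∈ Icc 1 (4 * B) ×ˢ Icc 1 (4 * B), h1 G z y :=
        Finset.sum_le_sum fun z _ =>
          Finset.sum_le_sum_of_subset_of_nonneg hsub fun y _ _ => h1_nonneg G z y
    _ ≤ ∑ z ∈ Icc 1 (4 * B) ×ˢ Icc 1 (4 * B), ∑ y ∈ Icc 1 (4 * B) ×ˢ Icc 1 (4 * B), h1 G z y :=
        Finset.sum_le_sum_of_subset_of_nonneg hsub fun z _ _ =>
          Finset.sum_nonneg fun y _ => h1_nonneg G z y
    _ = QQ G B := by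
        unfold QQ
        rw [Finset.sum_product]
        refine Finset.sum_congr rfl fun n hn => ?_
        have e1 : ∀ n' ∈ Icc 1 (4 * B), ∑ y ∈ Icc 1 (4 * B) ×ˢ Icc 1 (4 * B), h1 G (n, n') y =
            if n = n' then ∑ m ∈ Icc 1 (4 * B), (if G ≤ (n.gcd m : ℝ) then (1 : ℝ) else 0)
              else 0 := by
          intro n' _
          by_cases h : n = n'
          · rw [if_pos h, Finset.sum_product]
            refine Finset.sum_congr rfl fun m hm => ?_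
            unfold h1
            simp only
            rw [Finset.sum_congr rfl fun m' _ => if_pos h, Finset.sum_ite_eq, if_pos hm]
          · rw [if_neg h]
            refine Finset.sum_eq_zero fun y _ => ?_
            unfold h1
            simp only
            rw [if_neg h]
        rw [Finset.sum_congr rfl e1, Finset.sum_ite_eq, if_pos hn]

/-- the constant -/
noncomputable def S0 : ℝ := ∑' g : ℕ, 1 / (g : ℝ) ^ (3 / 2 : ℝ)

theorem QQ_le (G : ℝ) (hG : 1 ≤ G) (B : ℕ) :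
    QQ G B ≤ 16 * (B : ℝ) ^ 2 * (S0 * G ^ (-(1 / 2) : ℝ)) := by
  classical
  have hG0 : 0 < G := by linarith
  have h1 : QQ G B ≤ ∑ n ∈ Icc 1 (4 * B), ∑ m ∈ Icc 1 (4 * B), ∑ g ∈ Icc 1 (4 * B),
      (if G ≤ (g : ℝ) then ((if g ∣ n then (1 : ℝ) else 0) * (if g ∣ m then (1 : ℝ) else 0))
        else 0) := by
    unfold QQ
    refine Finset.sum_le_sum fun n hn => Finset.sum_le_sum fun m hm => ?_
    rw [Finset.mem_Icc] at hn hm
    have hnn : ∀ g ∈ Icc 1 (4 * B), (0 : ℝ) ≤ (if G ≤ (g : ℝ) then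
        ((if g ∣ n then (1 : ℝ) else 0) * (if g ∣ m then (1 : ℝ) else 0)) else 0) := by
      intro g _
      split_ifs <;> norm_num
    by_cases h : G ≤ (n.gcd m : ℝ)
    · rw [if_pos h]
      have hmem : n.gcd m ∈ Icc 1 (4 * B) := by
        rw [Finset.mem_Icc]
        exact ⟨Nat.gcd_pos_of_pos_left _ (by omega),
          (Nat.le_of_dvd (by omega) (Nat.gcd_dvd_left n m)).trans hn.2⟩
      refine le_trans (le_of_eq ?_) (Finset.single_le_sum hnn hmem)
      rw [if_pos h, if_pos (Nat.gcd_dvd_left n m), if_pos (Nat.gcd_dvd_right n m), mul_one]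
    · rw [if_neg h]
      exact Finset.sum_nonneg hnn
  have h2 : ∑ n ∈ Icc 1 (4 * B), ∑ m ∈ Icc 1 (4 * B), ∑ g ∈ Icc 1 (4 * B),
      (if G ≤ (g : ℝ) then ((if g ∣ n then (1 : ℝ) else 0) * (if g ∣ m then (1 : ℝ) else 0))
        else 0) = ∑ g ∈ Icc 1 (4 * B), (if G ≤ (g : ℝ) then
        (∑ n ∈ Icc 1 (4 * B), (if g ∣ n then (1 : ℝ) else 0)) ^ 2 else 0) := by
    have e1 : ∀ n ∈ Icc 1 (4 * B), ∑ m ∈ Icc 1 (4 * B), ∑ g ∈ Icc 1 (4 * B),
        (if G ≤ (g : ℝ) then ((if g ∣ n then (1 : ℝ) else 0) * (if g ∣ m then (1 : ℝ) else 0))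
          else 0) = ∑ g ∈ Icc 1 (4 * B), ∑ m ∈ Icc 1 (4 * B),
        (if G ≤ (g : ℝ) then ((if g ∣ n then (1 : ℝ) else 0) * (if g ∣ m then (1 : ℝ) else 0))
          else 0) := fun n _ => Finset.sum_comm
    rw [Finset.sum_congr rfl e1, Finset.sum_comm]
    refine Finset.sum_congr rfl fun g _ => ?_
    by_cases h : G ≤ (g : ℝ)
    · simp only [if_pos h]
      rw [sq, Finset.sum_mul_sum]
    · simp only [if_neg h, Finset.sum_const_zero]
  have h3 : ∀ g ∈ Icc 1 (4 * B), (if G ≤ (g : ℝ) then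
        (∑ n ∈ Icc 1 (4 * B), (if g ∣ n then (1 : ℝ) else 0)) ^ 2 else 0) ≤
      16 * (B : ℝ) ^ 2 * G ^ (-(1 / 2) : ℝ) * (1 / (g : ℝ) ^ (3 / 2 : ℝ)) := by
    intro g hg
    rw [Finset.mem_Icc] at hg
    have hg0 : (0 : ℝ) < g := by exact_mod_cast hg.1
    have hnn : 0 ≤ 16 * (B : ℝ) ^ 2 * G ^ (-(1 / 2) : ℝ) * (1 / (g : ℝ) ^ (3 / 2 : ℝ)) := by
      positivity
    split_ifs with h
    · have e1 : ∑ n ∈ Icc 1 (4 * B), (if g ∣ n then (1 : ℝ) else 0) ≤ 4 * B / g := by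
        have e2 : Icc 1 (4 * B) = Ioc 0 (4 * B) := by
          ext i
          simp only [Finset.mem_Icc, Finset.mem_Ioc]
          omega
        rw [e2, ← Finset.sum_filter, Finset.sum_const, nsmul_eq_mul, mul_one,
          Nat.Ioc_filter_dvd_card_eq_div]
        have := @Nat.cast_div_le ℝ _ _ _ (4 * B) g
        push_cast at this ⊢
        exact this
      have e3 : (0 : ℝ) ≤ ∑ n ∈ Icc 1 (4 * B), (if g ∣ n then (1 : ℝ) else 0) :=
        Finset.sum_nonneg fun n _ => by split_ifs <;> norm_num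
      have e4 : (∑ n ∈ Icc 1 (4 * B), (if g ∣ n then (1 : ℝ) else 0)) ^ 2 ≤ (4 * B / g) ^ 2 :=
        pow_le_pow_left₀ e3 e1 2
      refine e4.trans ?_
      have e5 : (4 * (B : ℝ) / g) ^ 2 = 16 * (B : ℝ) ^ 2 * (g : ℝ) ^ (-2 : ℝ) := by
        rw [Real.rpow_neg hg0.le, div_pow, mul_pow]
        have : (g : ℝ) ^ (2 : ℝ) = (g : ℝ) ^ 2 := by
          rw [← Real.rpow_natCast]; norm_num
        rw [this]
        field_simp
        ring
      have e6 : (g : ℝ) ^ (-2 : ℝ) = (g : ℝ) ^ (-(1 / 2) : ℝ) * (1 / (g : ℝ) ^ (3 / 2 : ℝ)) := by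
        rw [one_div ((g : ℝ) ^ (3 / 2 : ℝ)), ← Real.rpow_neg hg0.le, ← Real.rpow_add hg0]
        norm_num
      have e7 : (g : ℝ) ^ (-(1 / 2) : ℝ) ≤ G ^ (-(1 / 2) : ℝ) :=
        Real.rpow_le_rpow_of_nonpos hG0 h (by norm_num)
      rw [e5, e6]
      have e8 : 0 ≤ 1 / (g : ℝ) ^ (3 / 2 : ℝ) := by positivity
      calc 16 * (B : ℝ) ^ 2 * ((g : ℝ) ^ (-(1 / 2) : ℝ) * (1 / (g : ℝ) ^ (3 / 2 : ℝ)))
          ≤ 16 * (B : ℝ) ^ 2 * (G ^ (-(1 / 2) : ℝ) * (1 / (g : ℝ) ^ (3 / 2 : ℝ))) := by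
            gcongr
        _ = _ := by ring
    · exact hnn
  have hsum : Summable (fun g : ℕ => 1 / (g : ℝ) ^ (3 / 2 : ℝ)) :=
    Real.summable_one_div_nat_rpow.2 (by norm_num)
  have h4 : ∑ g ∈ Icc 1 (4 * B), 1 / (g : ℝ) ^ (3 / 2 : ℝ) ≤ S0 :=
    hsum.sum_le_tsum _ fun g _ => by positivity
  calc QQ G B ≤ _ := h1
    _ = _ := h2
    _ ≤ ∑ g ∈ Icc 1 (4 * B),
        16 * (B : ℝ) ^ 2 * G ^ (-(1 / 2) : ℝ) * (1 / (g : ℝ) ^ (3 / 2 : ℝ)) :=
        Finset.sum_le_sum h3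
    _ = 16 * (B : ℝ) ^ 2 * G ^ (-(1 / 2) : ℝ) * ∑ g ∈ Icc 1 (4 * B),
        (1 / (g : ℝ) ^ (3 / 2 : ℝ)) := by rw [Finset.mul_sum]
    _ ≤ 16 * (B : ℝ) ^ 2 * G ^ (-(1 / 2) : ℝ) * S0 :=
        mul_le_mul_of_nonneg_left h4 (by positivity)
    _ = _ := by ring

theorem S0_nonneg : 0 ≤ S0 := tsum_nonneg fun g => by positivity

end GCrossAux

open GCrossAux in
/-- CROSS: pairs in two windows -/
theorem cross : SCross := by
  intro hcnt ε θ hε hε1 hθ
  obtain ⟨C1, hC1, hN⟩ := hcnt (ε / 2) (by linarith)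
  have hS0 := S0_nonneg
  refine ⟨min (θ / 2) (ε / 2), 16 * S0 + 4 * C1 * 4 ^ (1 + ε / 2) + 1,
    lt_min (by linarith) (by linarith), by positivity, ?_⟩
  intro M B B' K hB hB' hK hKB hM
  set c := min (θ / 2) (ε / 2) with hc
  have hB1 : (1 : ℝ) ≤ B := by exact_mod_cast hB
  have hB0 : (0 : ℝ) < B := by linarith
  have hKB' : K ≤ B := by
    have : (K : ℝ) ≤ (B : ℝ) ^ (1 : ℝ) :=
      hKB.trans (Real.rpow_le_rpow_of_exponent_le hB1 (by linarith))
    rw [Real.rpow_one] at this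
    exact_mod_cast this
  set G : ℝ := (B : ℝ) ^ θ with hG
  have hG1 : 1 ≤ G := Real.one_le_rpow hB1 hθ.le
  have hnn : ∀ z y, 0 ≤ h1 G z y + h2 z y := fun z y =>
    add_nonneg (h1_nonneg _ _ _) (h2_nonneg _ _)
  have s1 : ∑ a ∈ Ico B B', ∑ b ∈ Ico B B',
      nsq (fun x : Fin M → ℤˣ => Gc (cf M x) G a b K) ≤
      ∑ a ∈ Ico B B', ∑ b ∈ Ico B B', ∑ z ∈ Ioc a (a + K) ×ˢ Ioc a (a + K),
        ∑ y ∈ Ioc b (b + K) ×ˢ Ioc b (b + K), (h1 G z y + h2 z y) := by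
    refine Finset.sum_le_sum fun a ha => Finset.sum_le_sum fun b hb => ?_
    rw [Finset.mem_Ico] at ha hb
    exact nsq_le M G a b K (by omega) (by omega)
  have s2 : ∑ a ∈ Ico B B', ∑ b ∈ Ico B B', ∑ z ∈ Ioc a (a + K) ×ˢ Ioc a (a + K),
        ∑ y ∈ Ioc b (b + K) ×ˢ Ioc b (b + K), (h1 G z y + h2 z y) ≤
      K * (K * ∑ z ∈ ZZ B K, ∑ y ∈ ZZ B K, (h1 G z y + h2 z y)) := by
    calc _ = ∑ a ∈ Ico B B', ∑ z ∈ Ioc a (a + K) ×ˢ Ioc a (a + K), ∑ b ∈ Ico B B',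
        ∑ y ∈ Ioc b (b + K) ×ˢ Ioc b (b + K), (h1 G z y + h2 z y) :=
          Finset.sum_congr rfl fun a _ => Finset.sum_comm
      _ ≤ ∑ a ∈ Ico B B', ∑ z ∈ Ioc a (a + K) ×ˢ Ioc a (a + K),
          (K * ∑ y ∈ ZZ B K, (h1 G z y + h2 z y)) :=
          Finset.sum_le_sum fun a _ => Finset.sum_le_sum fun z _ =>
            win B B' K hB' hKB' _ (hnn z)
      _ ≤ K * ∑ z ∈ ZZ B K, (K * ∑ y ∈ ZZ B K, (h1 G z y + h2 z y)) :=
          win B B' K hB' hKB' _ fun z =>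
            mul_nonneg (Nat.cast_nonneg _) (Finset.sum_nonneg fun y _ => hnn z y)
      _ = _ := by rw [← Finset.mul_sum]
  have s3 : ∑ z ∈ ZZ B K, ∑ y ∈ ZZ B K, (h1 G z y + h2 z y) ≤
      QQ G B + 4 * (Npp (4 * B) K : ℝ) := by
    have e : ∑ z ∈ ZZ B K, ∑ y ∈ ZZ B K, (h1 G z y + h2 z y) =
        ∑ z ∈ ZZ B K, ∑ y ∈ ZZ B K, h1 G z y + ∑ z ∈ ZZ B K, ∑ y ∈ ZZ B K, h2 z y := by
      rw [← Finset.sum_add_distrib]
      refine Finset.sum_congr rfl fun z _ => ?_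
      rw [Finset.sum_add_distrib]
    rw [e, sum_h2]
    linarith [sum_h1 G B K]
  have s4 : QQ G B ≤ 16 * S0 * (B : ℝ) ^ (2 - c) := by
    refine (QQ_le G hG1 B).trans ?_
    have e1 : G ^ (-(1 / 2) : ℝ) = (B : ℝ) ^ (-(θ / 2)) := by
      rw [hG, ← Real.rpow_mul hB0.le]
      congr 1
      ring
    have e2 : (B : ℝ) ^ 2 = (B : ℝ) ^ (2 : ℝ) := by
      rw [← Real.rpow_natCast]; norm_num
    have e3 : (B : ℝ) ^ (2 : ℝ) * (B : ℝ) ^ (-(θ / 2)) ≤ (B : ℝ) ^ (2 - c) := by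
      rw [← Real.rpow_add hB0]
      refine Real.rpow_le_rpow_of_exponent_le hB1 ?_
      have := min_le_left (θ / 2) (ε / 2)
      rw [← hc] at this
      linarith
    rw [e1, e2]
    calc 16 * (B : ℝ) ^ (2 : ℝ) * (S0 * (B : ℝ) ^ (-(θ / 2)))
        = 16 * S0 * ((B : ℝ) ^ (2 : ℝ) * (B : ℝ) ^ (-(θ / 2))) := by ring
      _ ≤ _ := mul_le_mul_of_nonneg_left e3 (by positivity)
  have s5 : 4 * (Npp (4 * B) K : ℝ) ≤ 4 * C1 * 4 ^ (1 + ε / 2) * (B : ℝ) ^ (2 - c) := by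
    have e1 := hN (4 * B) K (by omega)
    push_cast at e1
    rw [Real.mul_rpow (by norm_num) hB0.le] at e1
    have e2 : (B : ℝ) ^ (1 + ε / 2) * K ≤ (B : ℝ) ^ (2 - c) := by
      calc (B : ℝ) ^ (1 + ε / 2) * K ≤ (B : ℝ) ^ (1 + ε / 2) * (B : ℝ) ^ (1 - ε) :=
            mul_le_mul_of_nonneg_left hKB (by positivity)
        _ = (B : ℝ) ^ (1 + ε / 2 + (1 - ε)) := by rw [← Real.rpow_add hB0]
        _ ≤ _ := by
            refine Real.rpow_le_rpow_of_exponent_le hB1 ?_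
            have := min_le_right (θ / 2) (ε / 2)
            rw [← hc] at this
            linarith
    calc 4 * (Npp (4 * B) K : ℝ) ≤ 4 * (C1 * (4 ^ (1 + ε / 2) * (B : ℝ) ^ (1 + ε / 2)) * K) :=
          mul_le_mul_of_nonneg_left e1 (by norm_num)
      _ = 4 * C1 * 4 ^ (1 + ε / 2) * ((B : ℝ) ^ (1 + ε / 2) * K) := by ring
      _ ≤ _ := mul_le_mul_of_nonneg_left e2 (by positivity)
  have hBc : 0 < (B : ℝ) ^ (2 - c) := Real.rpow_pos_of_pos hB0 _
  calc _ ≤ _ := s1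
    _ ≤ _ := s2
    _ ≤ K * (K * ((16 * S0 + 4 * C1 * 4 ^ (1 + ε / 2) + 1) * (B : ℝ) ^ (2 - c))) := by
        have e1 : ∑ z ∈ ZZ B K, ∑ y ∈ ZZ B K, (h1 G z y + h2 z y) ≤
            (16 * S0 + 4 * C1 * 4 ^ (1 + ε / 2) + 1) * (B : ℝ) ^ (2 - c) := by
          nlinarith
        gcongr
    _ = _ := by ring

end Pool.Agent.W815.RGE
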