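import Pool.Agent.W815.RGC.StmG

set_option autoImplicit false

/-!
# Powers of the window sum through sums over injective tuples
-/

namespace Pool.Agent.W815.RGE.Expn2

open Finset Pool.Agent.W815.RGC

section gen

variable {α : Type} [Fintype α] [DecidableEq α]

/-- generic injective sums -/
noncomputable def SS (g : α → ℝ) (j : ℕ) : ℝ := ∑ u : Fin j ↪ α, ∏ i, g (u i)

lemma SS_zero (g : α → ℝ) : SS g 0 = 1 := by
  classical
  unfold SS
  simp

/-- sum over embeddings of `Fin (j+1)` with an arbitrary weight of the first entry -/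
lemma sum_succ (g h : α → ℝ) (j : ℕ) :
    ∑ u : Fin (j + 1) ↪ α, h (u 0) * ∏ i : Fin j, g (u i.succ) =
      ∑ u : Fin j ↪ α, (∏ i, g (u i)) * ∑ x ∈ univ.filter (fun x => x ∉ Set.range u), h x := by
  classical
  rw [← (Equiv.embeddingFinSucc j α).symm.sum_comp, Fintype.sum_sigma]
  refine Finset.sum_congr rfl fun u _ => ?_
  rw [Finset.mul_sum, Finset.sum_subtype (p := fun x => x ∉ Set.range u) _ (by simp)]
  refine Finset.sum_congr rfl fun x _ => ?_
  simp [mul_comm]

lemma sum_range_emb (h : α → ℝ) (j : ℕ) (u : Fin j ↪ α) :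
    ∑ x ∈ univ.filter (fun x => x ∉ Set.range u), h x = ∑ x, h x - ∑ i, h (u i) := by
  classical
  have h1 : ∑ i, h (u i) = ∑ x ∈ univ.filter (fun x => x ∈ Set.range u), h x := by
    have : univ.filter (fun x => x ∈ Set.range u) = univ.map u := by
      ext x; simp
    rw [this, Finset.sum_map]
  rw [h1, eq_sub_iff_add_eq, add_comm, Finset.sum_filter_add_sum_filter_not]

lemma SS_succ (g : α → ℝ) (j : ℕ) :
    SS g (j + 1) = ∑ u : Fin j ↪ α, (∏ i, g (u i)) * (∑ x, g x - ∑ i, g (u i)) := by
  classical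
  have := sum_succ g g j
  simp_rw [sum_range_emb] at this
  rw [← this]
  unfold SS
  refine Finset.sum_congr rfl fun u _ => ?_
  rw [Fin.prod_univ_succ]

lemma sum_sym (g : α → ℝ) (j : ℕ) (i : Fin (j + 1)) :
    ∑ u : Fin (j + 1) ↪ α, (∏ l, g (u l)) * g (u i) =
      ∑ u : Fin (j + 1) ↪ α, (∏ l, g (u l)) * g (u 0) := by
  classical
  let e : (Fin (j + 1) ↪ α) ≃ (Fin (j + 1) ↪ α) :=
    Equiv.embeddingCongr (Equiv.swap 0 i) (Equiv.refl α)
  rw [← e.sum_comp]
  refine Finset.sum_congr rfl fun u _ => ?_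
  have h1 : ∀ l, (e u) l = u (Equiv.swap 0 i l) := by
    intro l
    simp [e, Equiv.embeddingCongr]
  simp only [h1]
  rw [Equiv.swap_apply_right]
  congr 1
  exact Equiv.prod_comp (Equiv.swap 0 i) (fun l => g (u l))

lemma rec (g : α → ℝ) (hg : ∀ x, g x ^ 3 = g x) (j : ℕ) :
    (∑ x, g x) * SS g (j + 1) =
      SS g (j + 2) + (j + 1) * ((∑ x, g x ^ 2) - j) * SS g j := by
  classical
  have h1 := SS_succ g (j + 1)
  have h2 : SS g (j + 1 + 1) = (∑ x, g x) * SS g (j + 1) -
      ∑ i : Fin (j + 1), ∑ u : Fin (j + 1) ↪ α, (∏ l, g (u l)) * g (u i) := by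
    rw [h1, Finset.sum_comm]
    unfold SS
    rw [Finset.mul_sum, ← Finset.sum_sub_distrib]
    refine Finset.sum_congr rfl fun u _ => ?_
    rw [← Finset.mul_sum]; ring
  have h3 : ∀ i : Fin (j + 1), ∑ u : Fin (j + 1) ↪ α, (∏ l, g (u l)) * g (u i) =
      ((∑ x, g x ^ 2) - j) * SS g j := by
    intro i
    rw [sum_sym]
    have h4 := sum_succ g (fun x => g x ^ 2) j
    simp_rw [sum_range_emb] at h4
    have h5 : ∑ u : Fin (j + 1) ↪ α, (∏ l, g (u l)) * g (u 0) =
        ∑ u : Fin (j + 1) ↪ α, (fun x => g x ^ 2) (u 0) * ∏ i : Fin j, g (u i.succ) := by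
      refine Finset.sum_congr rfl fun u _ => ?_
      rw [Fin.prod_univ_succ]; ring
    rw [h5, h4]
    unfold SS
    rw [Finset.mul_sum]
    refine Finset.sum_congr rfl fun u _ => ?_
    have h6 : (∏ i, g (u i)) * ∑ i, g (u i) ^ 2 = j * ∏ i, g (u i) := by
      rw [Finset.mul_sum]
      have : ∀ i ∈ (univ : Finset (Fin j)), (∏ l, g (u l)) * g (u i) ^ 2 = ∏ l, g (u l) := by
        intro i hi
        rw [← Finset.mul_prod_erase univ (fun l => g (u l)) hi]
        have := hg (u i)
        linear_combination (∏ l ∈ univ.erase i, g (u l)) * this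
      rw [Finset.sum_congr rfl this]
      simp
    linear_combination (-1 : ℝ) * h6
  rw [Finset.sum_congr rfl (fun i _ => h3 i)] at h2
  simp at h2
  have : SS g (j + 2) = SS g (j + 1 + 1) := rfl
  rw [this, h2]; ring

lemma rec0 (g : α → ℝ) : (∑ x, g x) * SS g 0 = SS g 1 := by
  classical
  have := SS_succ g 0
  rw [this, SS_zero]
  simp

end gen

/-- the coefficients -/
noncomputable def c : ℕ → ℕ → ℕ → ℝ
  | 0, j, m => if j = 0 ∧ m = 0 then 1 else 0
  | k + 1, j, m => (if j = 0 then 0 else c k (j - 1) m) +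
      (j + 1) * (if m = 0 then 0 else c k (j + 1) (m - 1)) - (j + 1) * j * c k (j + 1) m

lemma c_supp : ∀ k j m, k < 2 * m + j → c k j m = 0
  | 0, j, m, h => by
    simp only [c]
    rw [if_neg]; omega
  | k + 1, j, m, h => by
    simp only [c]
    rw [c_supp k (j + 1) m (by omega)]
    rcases Nat.eq_zero_or_pos j with hj | hj
    · rcases Nat.eq_zero_or_pos m with hm | hm
      · omega
      · rw [if_pos hj, if_neg (by omega), c_supp k (j + 1) (m - 1) (by omega)]; ring
    · rcases Nat.eq_zero_or_pos m with hm | hm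
      · rw [if_neg (by omega), if_pos hm, c_supp k (j - 1) m (by omega)]; ring
      · rw [if_neg (by omega), if_neg (by omega), c_supp k (j - 1) m (by omega),
          c_supp k (j + 1) (m - 1) (by omega)]; ring

lemma c_lead : ∀ k j m, 2 * m + j = k →
    c k j m * ((j.factorial : ℝ) * m.factorial * 2 ^ m) = (k.factorial : ℝ)
  | 0, j, m, h => by
    have hj : j = 0 := by omega
    have hm : m = 0 := by omega
    subst hj; subst hm; simp [c]
  | k + 1, j, m, h => by
    simp only [c]
    rw [c_supp k (j + 1) m (by omega)]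
    have hk : ((k + 1).factorial : ℝ) = (2 * m + j) * k.factorial := by
      rw [Nat.factorial_succ]; push_cast
      have : (2 * m + j : ℝ) = k + 1 := by exact_mod_cast h
      rw [this]
    rw [hk]
    have A : (if j = 0 then 0 else c k (j - 1) m) * ((j.factorial : ℝ) * m.factorial * 2 ^ m) =
        j * k.factorial := by
      rcases Nat.eq_zero_or_pos j with hj | hj
      · subst hj; simp
      · rw [if_neg (by omega)]
        obtain ⟨i, rfl⟩ : ∃ i, j = i + 1 := ⟨j - 1, by omega⟩
        have := c_lead k i m (by omega)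
        simp only [Nat.add_sub_cancel]
        rw [Nat.factorial_succ]; push_cast
        linear_combination ((i : ℝ) + 1) * this
    have B : ((j : ℝ) + 1) * (if m = 0 then 0 else c k (j + 1) (m - 1)) *
        ((j.factorial : ℝ) * m.factorial * 2 ^ m) = 2 * m * k.factorial := by
      rcases Nat.eq_zero_or_pos m with hm | hm
      · subst hm; simp
      · rw [if_neg (by omega)]
        obtain ⟨i, rfl⟩ : ∃ i, m = i + 1 := ⟨m - 1, by omega⟩
        have := c_lead k (j + 1) i (by omega)
        simp only [Nat.add_sub_cancel]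
        rw [Nat.factorial_succ] at this
        rw [Nat.factorial_succ, pow_succ]; push_cast at this ⊢
        linear_combination (2 * ((i : ℝ) + 1)) * this
    linear_combination A + B

lemma c_gauss (i : ℕ) : c (2 * i) 0 i = ((2 * i - 1).doubleFactorial : ℝ) := by
  have h := c_lead (2 * i) 0 i (by omega)
  rcases Nat.eq_zero_or_pos i with hi | hi
  · subst hi; simp [c]
  · have h1 : (2 * i).factorial = (2 * i).doubleFactorial * (2 * i - 1).doubleFactorial := by
      obtain ⟨n, hn⟩ : ∃ n, 2 * i = n + 1 := ⟨2 * i - 1, by omega⟩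
      rw [hn, Nat.factorial_eq_mul_doubleFactorial]; simp
    rw [Nat.doubleFactorial_two_mul] at h1
    rw [h1] at h
    push_cast at h
    simp only [Nat.factorial_zero, Nat.cast_one, one_mul] at h
    have h2 : ((i.factorial : ℝ) * 2 ^ i) ≠ 0 := by positivity
    apply mul_right_cancel₀ h2
    rw [h]; ring

/-- the coefficients as functions of `N` -/
noncomputable def t (N : ℝ) : ℕ → ℕ → ℝ
  | 0, j => if j = 0 then 1 else 0
  | k + 1, j => (if j = 0 then 0 else t N k (j - 1)) + (j + 1) * (N - j) * t N k (j + 1)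

lemma t_supp (N : ℝ) : ∀ k j, k < j → t N k j = 0
  | 0, j, h => by simp only [t]; rw [if_neg (by omega)]
  | k + 1, j, h => by
    simp only [t]
    rw [if_neg (by omega), t_supp N k (j - 1) (by omega), t_supp N k (j + 1) (by omega)]; ring

lemma t_eq (N : ℝ) : ∀ k j L, k < L → t N k j = ∑ m ∈ range L, c k j m * N ^ m
  | 0, j, L, h => by
    simp only [t, c]
    obtain ⟨l, rfl⟩ : ∃ l, L = l + 1 := ⟨L - 1, by omega⟩
    rw [Finset.sum_range_succ']
    by_cases hj : j = 0
    · simp [hj]
    · simp [hj]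
  | k + 1, j, L, h => by
    simp only [t]
    obtain ⟨l, rfl⟩ : ∃ l, L = l + 1 := ⟨L - 1, by omega⟩
    have e1 : (if j = 0 then 0 else t N k (j - 1)) =
        ∑ m ∈ range (l + 1), (if j = 0 then 0 else c k (j - 1) m) * N ^ m := by
      by_cases hj : j = 0
      · simp [hj]
      · simp only [if_neg hj]
        exact t_eq N k (j - 1) (l + 1) (by omega)
    have e2 : N * t N k (j + 1) =
        ∑ m ∈ range (l + 1), (if m = 0 then 0 else c k (j + 1) (m - 1)) * N ^ m := by
      rw [Finset.sum_range_succ', t_eq N k (j + 1) l (by omega), Finset.mul_sum]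
      simp only [if_true, zero_mul, add_zero]
      refine Finset.sum_congr rfl fun m _ => ?_
      rw [if_neg (by omega), Nat.add_sub_cancel, pow_succ]; ring
    have e3 : t N k (j + 1) = ∑ m ∈ range (l + 1), c k (j + 1) m * N ^ m :=
      t_eq N k (j + 1) (l + 1) (by omega)
    have e4 : ∑ m ∈ range (l + 1), c (k + 1) j m * N ^ m =
        (∑ m ∈ range (l + 1), (if j = 0 then 0 else c k (j - 1) m) * N ^ m) +
        (j + 1) * (∑ m ∈ range (l + 1), (if m = 0 then 0 else c k (j + 1) (m - 1)) * N ^ m) -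
        (j + 1) * j * ∑ m ∈ range (l + 1), c k (j + 1) m * N ^ m := by
      rw [Finset.mul_sum, Finset.mul_sum, ← Finset.sum_add_distrib, ← Finset.sum_sub_distrib]
      refine Finset.sum_congr rfl fun m _ => ?_
      simp only [c]; ring
    rw [e4, ← e1, ← e2, ← e3]; ring

lemma pow_exp (P N : ℝ) (S : ℕ → ℝ) (h0 : S 0 = 1) (h1 : P * S 0 = S 1)
    (hr : ∀ j : ℕ, P * S (j + 1) = S (j + 2) + (j + 1) * (N - j) * S j) :
    ∀ k L, k < L → P ^ k = ∑ j ∈ range L, t N k j * S j
  | 0, L, h => by
    obtain ⟨l, rfl⟩ : ∃ l, L = l + 1 := ⟨L - 1, by omega⟩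
    rw [Finset.sum_range_succ']
    simp [t, h0]
  | k + 1, L, h => by
    obtain ⟨l, rfl⟩ : ∃ l, L = l + 1 := ⟨L - 1, by omega⟩
    have ih := pow_exp P N S h0 h1 hr k (l + 1) (by omega)
    have e1 : ∑ j ∈ range (l + 1), t N (k + 1) j * S j =
        (∑ j ∈ range (l + 1), (if j = 0 then 0 else t N k (j - 1)) * S j) +
        ∑ j ∈ range (l + 1), (j + 1) * (N - j) * t N k (j + 1) * S j := by
      rw [← Finset.sum_add_distrib]
      refine Finset.sum_congr rfl fun j _ => ?_
      simp only [t]; ring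
    have e2 : ∑ j ∈ range (l + 1), (if j = 0 then 0 else t N k (j - 1)) * S j =
        ∑ j ∈ range l, t N k j * S (j + 1) := by
      rw [Finset.sum_range_succ']
      simp
    have e3 : ∑ j ∈ range (l + 1), (j + 1) * (N - j) * t N k (j + 1) * S j =
        ∑ j ∈ range l, ((j : ℝ) + 1) * (N - j) * t N k (j + 1) * S j := by
      rw [Finset.sum_range_succ, t_supp N k (l + 1) (by omega)]; ring
    have e4 : ∑ j ∈ range l, t N k j * S (j + 1) = ∑ j ∈ range (l + 1), t N k j * S (j + 1) := by
      rw [Finset.sum_range_succ, t_supp N k l (by omega)]; ring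
    have e5 : P ^ (k + 1) = ∑ j ∈ range (l + 1), t N k j * (P * S j) := by
      rw [pow_succ, ih, Finset.sum_mul]
      refine Finset.sum_congr rfl fun j _ => ?_
      ring
    rw [e5, e1, e2, e3, e4, Finset.sum_range_succ', Finset.sum_range_succ' (fun j => t N k j * S (j + 1)),
      h1]
    have e6 : ∑ j ∈ range l, t N k (j + 1) * (P * S (j + 1)) =
        ∑ j ∈ range l, t N k (j + 1) * S (j + 1 + 1) +
          ∑ j ∈ range l, ((j : ℝ) + 1) * (N - j) * t N k (j + 1) * S j := by
      rw [← Finset.sum_add_distrib]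
      refine Finset.sum_congr rfl fun j _ => ?_
      rw [hr]; ring
    rw [e6]
    simp only [zero_add]
    ring

end Pool.Agent.W815.RGE.Expn2

namespace Pool.Agent.W815.RGE

open Finset Pool.Agent.W815.RGC Expn2

lemma rf_cube (s : ℕ → ℤˣ) (n : ℕ) : rf s n ^ 3 = rf s n := by
  classical
  unfold rf
  split_ifs
  · rw [← Finset.prod_pow]
    refine Finset.prod_congr rfl fun p _ => ?_
    rcases Int.units_eq_one_or (s p) with h | h <;> rw [h] <;> norm_num
  · simp

lemma rf_sq (s : ℕ → ℤˣ) (n : ℕ) : rf s n ^ 2 = open Classical in if Squarefree n then 1 else 0 := by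
  classical
  unfold rf
  split_ifs
  · rw [← Finset.prod_pow]
    refine Finset.prod_eq_one fun p _ => ?_
    rcases Int.units_eq_one_or (s p) with h | h <;> simp [h]
  · simp

theorem expn : SExpn := by
  classical
  refine ⟨c, c_supp, c_gauss, ?_⟩
  intro s k a K
  let g : {n // n ∈ Ioc a (a + K)} → ℝ := fun x => rf s x
  have hP : ∑ x, g x = W (rf s) a K := by
    unfold W
    exact Finset.sum_coe_sort (Ioc a (a + K)) (fun n => rf s n)
  have hN : ∑ x, g x ^ 2 = Nn a K := by
    unfold Nn
    have h1 : ∑ x, g x ^ 2 = ∑ n ∈ Ioc a (a + K), rf s n ^ 2 :=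
      Finset.sum_coe_sort (Ioc a (a + K)) (fun n => rf s n ^ 2)
    rw [h1]
    simp_rw [rf_sq]
    rw [Finset.sum_ite, Finset.sum_const_zero, add_zero, Finset.sum_const, nsmul_eq_mul, mul_one]
  have hS : ∀ j, SS g j = S (rf s) j a K := fun j => rfl
  have hg : ∀ x, g x ^ 3 = g x := fun x => rf_cube s x
  have key := pow_exp (W (rf s) a K) (Nn a K) (fun j => S (rf s) j a K)
    (by simp only [← hS]; exact SS_zero g)
    (by simp only [← hS]; rw [← hP]; exact rec0 g)
    (by intro j; simp only [← hS]; rw [← hP, ← hN]; exact Expn2.rec g hg j) k (k + 1) (by omega)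
  rw [key]
  refine Finset.sum_congr rfl fun j _ => ?_
  rw [t_eq (Nn a K) k j (k + 1) (by omega), Finset.sum_mul]

end Pool.Agent.W815.RGE
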