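import Pool.Agent.W815.RGC.StmG

set_option autoImplicit false

namespace Pool.Agent.W815.RGE

theorem gcd_large : SGcd := by
  classical
  intro r B n hB hn hsq hprod i
  by_contra hcon
  push Not at hcon
  have hn0 : ∀ l, 0 < n l := fun l => lt_of_lt_of_le hB (hn l)
  have hsplit : n i * ∏ l ∈ Finset.univ.erase i, n l = ∏ l, n l :=
    Finset.mul_prod_erase Finset.univ n (Finset.mem_univ i)
  -- every prime divisor of `n i` divides another one
  have hdvd : n i ∣ ∏ l ∈ Finset.univ.erase i, (n i).gcd (n l) := by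
    rw [← Nat.prod_primeFactors_of_squarefree (hsq i)]
    apply Finset.prod_primes_dvd
    · intro p hp
      exact (Nat.prime_of_mem_primeFactors hp).prime
    · intro p hp
      rw [Nat.prod_primeFactors_of_squarefree (hsq i)]
      have hpp := Nat.prime_of_mem_primeFactors hp
      have hpi := Nat.dvd_of_mem_primeFactors hp
      have h1 : ∃ l ∈ Finset.univ.erase i, p ∣ n l := by
        by_contra h2
        push Not at h2
        have h3 : ¬ p ∣ ∏ l ∈ Finset.univ.erase i, n l := by
          intro h4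
          obtain ⟨l, hl, hl2⟩ := (hpp.prime.dvd_finsetProd_iff _).mp h4
          exact h2 l hl hl2
        obtain ⟨k, hk⟩ := hprod
        have h5 : p ∣ k * k := by
          rw [← hk, ← hsplit]
          exact Dvd.dvd.mul_right hpi _
        have h6 : p ∣ k := (hpp.dvd_mul.mp h5).elim id id
        have h7 : p * p ∣ n i * ∏ l ∈ Finset.univ.erase i, n l := by
          rw [hsplit, hk]
          exact mul_dvd_mul h6 h6
        have h8 : Nat.Coprime (p * p) (∏ l ∈ Finset.univ.erase i, n l) := by
          have := (hpp.coprime_iff_not_dvd.mpr h3)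
          exact Nat.Coprime.mul_left this this
        have h9 : p * p ∣ n i := h8.dvd_of_dvd_mul_right h7
        have h10 := (hsq i) p h9
        rw [Nat.isUnit_iff] at h10
        exact hpp.one_lt.ne' h10
      obtain ⟨l, hl, hl2⟩ := h1
      exact (Nat.dvd_gcd hpi hl2).trans (Finset.dvd_prod_of_mem _ hl)
  have hpos : 0 < ∏ l ∈ Finset.univ.erase i, (n i).gcd (n l) :=
    Finset.prod_pos fun l _ => Nat.gcd_pos_of_pos_left _ (hn0 i)
  have hle : B ≤ ∏ l ∈ Finset.univ.erase i, (n i).gcd (n l) :=
    (hn i).trans (Nat.le_of_dvd hpos hdvd)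
  have hleR : (B : ℝ) ≤ ∏ l ∈ Finset.univ.erase i, ((n i).gcd (n l) : ℝ) := by
    exact_mod_cast hle
  have hcard : (Finset.univ.erase i : Finset (Fin (r + 2))).card = r + 1 := by
    rw [Finset.card_erase_of_mem (Finset.mem_univ i), Finset.card_univ, Fintype.card_fin]
    rfl
  have hne : (Finset.univ.erase i : Finset (Fin (r + 2))).Nonempty := by
    rw [← Finset.card_pos, hcard]; omega
  have hlt : ∏ l ∈ Finset.univ.erase i, ((n i).gcd (n l) : ℝ) <
      ∏ l ∈ (Finset.univ.erase i : Finset (Fin (r + 2))), (B : ℝ) ^ (1 / ((r : ℝ) + 1)) := by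
    apply Finset.prod_lt_prod_of_nonempty
    · intro l _
      exact_mod_cast Nat.gcd_pos_of_pos_left _ (hn0 i)
    · intro l hl
      exact hcon l (Finset.ne_of_mem_erase hl)
    · exact hne
  rw [Finset.prod_const, hcard] at hlt
  have hfin : ((B : ℝ) ^ (1 / ((r : ℝ) + 1))) ^ (r + 1) = (B : ℝ) := by
    rw [← Real.rpow_natCast, ← Real.rpow_mul (by positivity)]
    have : (1 / ((r : ℝ) + 1)) * ((r + 1 : ℕ) : ℝ) = 1 := by
      push_cast
      field_simp
    rw [this, Real.rpow_one]
  rw [hfin] at hlt
  linarith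

end Pool.Agent.W815.RGE
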