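import Pool.Agent.W815.RGC.StmG
import Pool.Agent.W815.RGC.Mom
import Pool.Agent.W815.RGC.Ldg
import Pool.Agent.W815.RGC.Sec

set_option autoImplicit false

/-!
# Project RGE: norms of the window sums (parts HYP and HOL)
-/

namespace Pool.Agent.W815.RGE

open Finset MeasureTheory Filter Topology Pool.Agent.Helper497.HS Pool.Agent.H595R2.PTF
open Pool.Agent.W815.RGC

/-- the window sum has low degree -/
theorem ghyp_LD (M a K d : ℕ) (hM : a + K < M)
    (hd : ∀ n ∈ Icc 1 (a + K), n.primeFactors.card ≤ d) :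
    LD d (fun x : Fin M → ℤˣ => W (cf M x) a K) := by
  unfold W
  refine LD.sum _ fun n hn => ?_
  have hn' := mem_Ioc.mp hn
  obtain ⟨c, hc⟩ := rf_ext (M := M) (n := n) (by omega)
  have h : (fun x : Fin M → ℤˣ => cf M x n) = fun x => c * chi (PSet M n) x := by
    funext x
    exact hc x
  rw [h]
  refine LD.const_mul _ ((LD_chi _).mono ?_)
  rw [PSet_card (by omega)]
  exact hd n (mem_Icc.mpr (by omega))

/-- the second moment of the window sum -/
theorem ghyp_nsq (M a K : ℕ) (hM : a + K < M) :
    nsq (fun x : Fin M → ℤˣ => W (cf M x) a K) ≤ K := by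
  classical
  let c : ℕ → ℝ := fun n => if Squarefree n then 1 else 0
  have hW : ∀ x : Fin M → ℤˣ, W (cf M x) a K = ∑ n ∈ Ioc a (a + K), c n * chi (secS M n) x := by
    intro x
    unfold W
    refine Finset.sum_congr rfl fun n hn => ?_
    have hn' := mem_Ioc.mp hn
    have h := sec_rf_eq M n (by omega) x
    change rf (ext M x) n = _
    rw [h]
    simp only [c]
    by_cases hs : Squarefree n
    · rw [if_pos hs, if_pos hs, one_mul]
    · rw [if_neg hs, if_neg hs, zero_mul]
  have hns : nsq (fun x : Fin M → ℤˣ => W (cf M x) a K) =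
      ∑ n ∈ Ioc a (a + K), ∑ m ∈ Ioc a (a + K),
        c n * c m * (if secS M m = secS M n then 1 else 0) := by
    unfold nsq
    have h1 : ∀ x : Fin M → ℤˣ, (W (cf M x) a K) ^ 2 =
        ∑ n ∈ Ioc a (a + K), ∑ m ∈ Ioc a (a + K),
          (c n * c m) * (chi (secS M n) x * chi (secS M m) x) := by
      intro x
      rw [hW x, sq, Finset.sum_mul_sum]
      refine Finset.sum_congr rfl fun q _ => Finset.sum_congr rfl fun q' _ => ?_
      ring
    rw [Ex_congr h1, Ex_sum]
    refine Finset.sum_congr rfl fun q _ => ?_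
    rw [Ex_sum]
    refine Finset.sum_congr rfl fun q' _ => ?_
    rw [Ex_const_mul]
    congr 1
    exact fc_chi (secS M q) (secS M q')
  rw [hns]
  have hle : ∀ n ∈ Ioc a (a + K), ∀ m ∈ Ioc a (a + K),
      c n * c m * (if secS M m = secS M n then 1 else 0) ≤ if n = m then (1 : ℝ) else 0 := by
    intro n hn m hm
    have hn' := mem_Ioc.mp hn
    have hm' := mem_Ioc.mp hm
    by_cases hnm : n = m
    · rw [if_pos hnm, ← hnm, if_pos rfl]
      simp only [c]
      by_cases hs : Squarefree n
      · rw [if_pos hs]; norm_num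
      · rw [if_neg hs]; norm_num
    · rw [if_neg hnm]
      by_cases hT : secS M m = secS M n
      · by_cases hs : Squarefree n
        · by_cases hs' : Squarefree m
          · exfalso
            apply hnm
            have e1 := PSet_map (M := M) (n := n) (by omega)
            have e2 := PSet_map (M := M) (n := m) (by omega)
            have hT' : PSet M m = PSet M n := hT
            rw [hT', e1] at e2
            rw [← Nat.prod_primeFactors_of_squarefree hs, e2,
              Nat.prod_primeFactors_of_squarefree hs']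
          · have : c m = 0 := if_neg hs'
            rw [this, mul_zero, zero_mul]
        · have : c n = 0 := if_neg hs
          rw [this, zero_mul, zero_mul]
      · rw [if_neg hT, mul_zero]
  refine (Finset.sum_le_sum fun q hq => Finset.sum_le_sum fun q' hq' => hle q hq q' hq').trans ?_
  have h2 : ∀ n ∈ Ioc a (a + K), ∑ m ∈ Ioc a (a + K), (if n = m then (1 : ℝ) else 0) = 1 := by
    intro n hn
    rw [Finset.sum_ite_eq, if_pos hn]
  rw [Finset.sum_congr rfl h2, Finset.sum_const, Nat.card_Ioc, nsmul_eq_mul, mul_one]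
  rw [Nat.add_sub_cancel_left]

/-- HYP: norms of the window sum -/
theorem hyp : SHyp := by
  intro M a K d i hM hd
  have h1 := mom M d (fun x => W (cf M x) a K) (ghyp_LD M a K d hM hd) i
  refine h1.trans ?_
  have h0 : 0 ≤ nsq (fun x : Fin M → ℤˣ => W (cf M x) a K) := Ex_nonneg fun _ => sq_nonneg _
  refine pow_le_pow_left₀ (by positivity) ?_ _
  exact mul_le_mul_of_nonneg_left (ghyp_nsq M a K hM) (by positivity)

theorem ghyp_pow (y L : ℝ) (hy : 0 ≤ y) (hL : 0 < L) (s N : ℕ) (hs : s ≤ N) :
    y ^ s ≤ L ^ s + L ^ s / L ^ N * y ^ N := by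
  rcases le_total y L with h | h
  · have h1 : y ^ s ≤ L ^ s := pow_le_pow_left₀ hy h s
    have h2 : 0 ≤ L ^ s / L ^ N * y ^ N := by positivity
    linarith
  · have h1 : y ^ s ≤ L ^ s / L ^ N * y ^ N := by
      obtain ⟨r, rfl⟩ := Nat.exists_eq_add_of_le hs
      have h3 : L ^ s / L ^ (s + r) * y ^ (s + r) = y ^ s * (y ^ r / L ^ r) := by
        rw [pow_add, pow_add]
        field_simp
      rw [h3]
      have h4 : 1 ≤ y ^ r / L ^ r := by
        rw [one_le_div (by positivity)]
        exact pow_le_pow_left₀ hL.le h r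
      have h5 : 0 ≤ y ^ s := by positivity
      nlinarith
    have h2 : 0 ≤ L ^ s := by positivity
    linarith

/-- HOL: products of powers of two window sums -/
theorem hol : SHol := by
  intro hH M a b K d i p q ha hb hd hpq
  rcases Nat.eq_zero_or_pos K with hK | hK
  · subst hK
    have hW : ∀ (g : ℕ → ℝ) (c : ℕ), W g c 0 = 0 := by
      intro g c
      simp [W]
    simp only [hW]
    rcases Nat.eq_zero_or_pos (p + q) with h | h
    · obtain ⟨rfl, rfl⟩ : p = 0 ∧ q = 0 := by omega
      simp only [pow_zero, mul_one, one_pow, add_zero]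
      rw [Ex_const]
      norm_num
    · have h1 : ((0 : ℝ) ^ p * 0 ^ q) ^ 2 = 0 := by
        rw [← pow_add, zero_pow (by omega), zero_pow (by norm_num)]
      rw [h1, Ex_const]
      positivity
  · set L : ℝ := (3 : ℝ) ^ (i * d) * K with hL
    have hKr : (0 : ℝ) < K := by exact_mod_cast hK
    have hL0 : 0 < L := by positivity
    have key : ∀ c : ℕ, c + K < M →
        Ex (fun x : Fin M → ℤˣ => (W (cf M x) c K ^ 2) ^ (p + q)) ≤ 2 * L ^ (p + q) := by
      intro c hc
      have h1 := hH M c K d i hc (fun n hn => hd n (by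
        rw [mem_Icc] at hn ⊢
        omega))
      rw [← hL] at h1
      have h2 : Ex (fun x : Fin M → ℤˣ => (W (cf M x) c K ^ 2) ^ (p + q)) ≤
          Ex (fun x : Fin M → ℤˣ => L ^ (p + q) +
            L ^ (p + q) / L ^ (2 ^ i) * W (cf M x) c K ^ (2 ^ (i + 1))) := by
        refine Ex_mono fun x => ?_
        have h3 := ghyp_pow (W (cf M x) c K ^ 2) L (sq_nonneg _) hL0 (p + q) (2 ^ i) hpq
        have h4 : (W (cf M x) c K ^ 2) ^ (2 ^ i) = W (cf M x) c K ^ (2 ^ (i + 1)) := by
          rw [← pow_mul]
          congr 1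
          ring
        rw [h4] at h3
        exact h3
      refine h2.trans ?_
      rw [Ex_add, Ex_const, Ex_const_mul]
      have h5 : L ^ (p + q) / L ^ (2 ^ i) *
          Ex (fun x : Fin M → ℤˣ => W (cf M x) c K ^ (2 ^ (i + 1))) ≤ L ^ (p + q) := by
        calc L ^ (p + q) / L ^ (2 ^ i) *
            Ex (fun x : Fin M → ℤˣ => W (cf M x) c K ^ (2 ^ (i + 1)))
            ≤ L ^ (p + q) / L ^ (2 ^ i) * L ^ (2 ^ i) :=
              mul_le_mul_of_nonneg_left h1 (by positivity)
          _ = L ^ (p + q) := div_mul_cancel₀ _ (by positivity)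
      linarith
    have hpt : ∀ x : Fin M → ℤˣ, (W (cf M x) a K ^ p * W (cf M x) b K ^ q) ^ 2 ≤
        (W (cf M x) a K ^ 2) ^ (p + q) + (W (cf M x) b K ^ 2) ^ (p + q) := by
      intro x
      set u := W (cf M x) a K ^ 2 with hu
      set v := W (cf M x) b K ^ 2 with hv
      have hu0 : 0 ≤ u := sq_nonneg _
      have hv0 : 0 ≤ v := sq_nonneg _
      have h1 : (W (cf M x) a K ^ p * W (cf M x) b K ^ q) ^ 2 = u ^ p * v ^ q := by
        rw [hu, hv]; ring
      rw [h1, pow_add, pow_add]
      rcases le_total u v with h | h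
      · have h2 : u ^ p ≤ v ^ p := pow_le_pow_left₀ hu0 h p
        have h3 : u ^ p * v ^ q ≤ v ^ p * v ^ q := mul_le_mul_of_nonneg_right h2 (by positivity)
        have h4 : 0 ≤ u ^ p * u ^ q := by positivity
        linarith
      · have h2 : v ^ q ≤ u ^ q := pow_le_pow_left₀ hv0 h q
        have h3 : u ^ p * v ^ q ≤ u ^ p * u ^ q := mul_le_mul_of_nonneg_left h2 (by positivity)
        have h4 : 0 ≤ v ^ p * v ^ q := by positivity
        linarith
    refine (Ex_mono hpt).trans ?_
    rw [Ex_add]
    have h1 := key a ha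
    have h2 := key b hb
    linarith

end Pool.Agent.W815.RGE
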