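import Pool.Agent.W815.RGC.StmG

set_option autoImplicit false

/-!
# Project RGE: the Gaussian law along real windows (LAST)
-/

namespace Pool.Agent.W815.RGE.LastAux

open Finset MeasureTheory Filter Topology Pool.Agent.Helper497.HS Pool.Agent.H595R2.PTF
open Pool.Agent.W815.RGC Pool.Agent.W815.RGE

/-- the distribution function of the standard normal law -/
noncomputable abbrev Ph (t : ℝ) : ℝ :=
  ProbabilityTheory.cdf (ProbabilityTheory.gaussianReal 0 1) t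

theorem ph_cont (t : ℝ) : ContinuousAt Ph t := by
  have hna : NullSingletonClass (ProbabilityTheory.gaussianReal 0 1) :=
    ProbabilityTheory.nullSingletonClass_gaussianReal one_ne_zero
  have hmono : Monotone Ph := ProbabilityTheory.monotone_cdf _
  rw [hmono.continuousAt_iff_leftLim_eq_rightLim]
  have h1 : Function.rightLim Ph t = Ph t :=
    StieltjesFunction.rightLim_eq (ProbabilityTheory.cdf (ProbabilityTheory.gaussianReal 0 1)) t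
  rw [h1]
  have h := StieltjesFunction.measure_singleton
    (ProbabilityTheory.cdf (ProbabilityTheory.gaussianReal 0 1)) t
  rw [ProbabilityTheory.measure_cdf, measure_singleton] at h
  have h2 : Ph t - Function.leftLim Ph t ≤ 0 := ENNReal.ofReal_eq_zero.1 h.symm
  exact le_antisymm (hmono.leftLim_le le_rfl) (by linarith)

theorem ph_le (t : ℝ) : Ph t ≤ 1 := ProbabilityTheory.cdf_le_one _ t

theorem ph_nonneg (t : ℝ) : 0 ≤ Ph t := ProbabilityTheory.cdf_nonneg _ t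

theorem sq_diff (H : ℝ) (K : ℕ) (t d : ℝ) (hd : 0 < d) (hH : 0 ≤ H) (hK1 : 1 ≤ K)
    (hKH : |H - K| ≤ 1) (hKt : |t| ≤ d * K) :
    |t * Real.sqrt (H / (Real.pi ^ 2 / 6)) - t * Real.sqrt (6 / Real.pi ^ 2 * K)| ≤
      d * Real.sqrt (6 / Real.pi ^ 2 * K) := by
  have hpi : (0 : ℝ) < 6 / Real.pi ^ 2 := by positivity
  have e1 : H / (Real.pi ^ 2 / 6) = 6 / Real.pi ^ 2 * H := by
    have := Real.pi_pos.ne'
    field_simp
  rw [e1, Real.sqrt_mul hpi.le, Real.sqrt_mul hpi.le]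
  have hs0 : 0 ≤ Real.sqrt (6 / Real.pi ^ 2) := Real.sqrt_nonneg _
  have hKR : (1 : ℝ) ≤ K := by exact_mod_cast hK1
  obtain ⟨h, hh⟩ : ∃ h : ℝ, h = Real.sqrt H := ⟨_, rfl⟩
  obtain ⟨k, hk⟩ : ∃ k : ℝ, k = Real.sqrt K := ⟨_, rfl⟩
  have h2 : h ^ 2 = H := by rw [hh]; exact Real.sq_sqrt hH
  have k2 : k ^ 2 = K := by rw [hk]; exact Real.sq_sqrt (by linarith)
  have h0 : 0 ≤ h := by rw [hh]; exact Real.sqrt_nonneg _
  have k0 : 0 < k := by rw [hk]; exact Real.sqrt_pos.2 (by linarith)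
  rw [← hh, ← hk]
  have e2 : t * (Real.sqrt (6 / Real.pi ^ 2) * h) - t * (Real.sqrt (6 / Real.pi ^ 2) * k) =
      Real.sqrt (6 / Real.pi ^ 2) * (t * (h - k)) := by ring
  have e3 : d * (Real.sqrt (6 / Real.pi ^ 2) * k) = Real.sqrt (6 / Real.pi ^ 2) * (d * k) := by ring
  rw [e2, e3, abs_mul, abs_of_nonneg hs0]
  refine mul_le_mul_of_nonneg_left ?_ hs0
  rw [abs_mul]
  -- |h - k| * k ≤ |h - k| * (h + k) = |H - K| ≤ 1
  have h3 : |h - k| * k ≤ 1 := by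
    have h4 : |h - k| * (h + k) = |H - K| := by
      have h6 : |h - k| * |h + k| = |H - K| := by
        rw [← abs_mul, ← h2, ← k2]
        congr 1
        ring
      rwa [abs_of_nonneg (show 0 ≤ h + k by linarith)] at h6
    nlinarith [abs_nonneg (h - k)]
  have h5 : |t| * |h - k| * k ≤ d * k * k := by
    calc |t| * |h - k| * k = |t| * (|h - k| * k) := by ring
      _ ≤ |t| * 1 := mul_le_mul_of_nonneg_left h3 (abs_nonneg _)
      _ ≤ d * K := by linarith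
      _ = d * k * k := by rw [← k2]; ring
  exact le_of_mul_le_mul_right h5 k0

theorem win (s : ℕ → ℤˣ) (t d η H : ℝ) (B B' K : ℕ) (hd : 0 < d) (hH : 0 ≤ H) (hK1 : 1 ≤ K)
    (hKH : |H - K| ≤ 1) (hKt : |t| ≤ d * K) (hBB : B < B')
    (hlo : |(((Ico B B').filter
      (fun a => W (rf s) a K / Real.sqrt (6 / Real.pi ^ 2 * K) ≤ t - d)).card : ℝ) /
      ((B' : ℝ) - B) - Ph (t - d)| ≤ η)
    (hhi : |(((Ico B B').filter
      (fun a => W (rf s) a K / Real.sqrt (6 / Real.pi ^ 2 * K) ≤ t + d)).card : ℝ) /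
      ((B' : ℝ) - B) - Ph (t + d)| ≤ η)
    (hc1 : |Ph (t - d) - Ph t| ≤ η) (hc2 : |Ph (t + d) - Ph t| ≤ η) :
    |(((Ico B B').filter
      (fun a => W (rf s) a K ≤ t * Real.sqrt (H / (Real.pi ^ 2 / 6)))).card : ℝ) -
      ((B' : ℝ) - B) * Ph t| ≤ 2 * η * ((B' : ℝ) - B) := by
  have hKR : (1 : ℝ) ≤ K := by exact_mod_cast hK1
  have hpi : (0 : ℝ) < 6 / Real.pi ^ 2 := by positivity
  have hσ : 0 < Real.sqrt (6 / Real.pi ^ 2 * K) := Real.sqrt_pos.2 (by positivity)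
  have hdiff := sq_diff H K t d hd hH hK1 hKH hKt
  rw [abs_le] at hdiff
  have hL : (0 : ℝ) < (B' : ℝ) - B := by
    have : (B : ℝ) < B' := by exact_mod_cast hBB
    linarith
  have s1 : ((Ico B B').filter
      (fun a => W (rf s) a K / Real.sqrt (6 / Real.pi ^ 2 * K) ≤ t - d)) ⊆
      ((Ico B B').filter
      (fun a => W (rf s) a K ≤ t * Real.sqrt (H / (Real.pi ^ 2 / 6)))) := by
    intro a ha
    rw [mem_filter] at ha ⊢
    refine ⟨ha.1, ?_⟩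
    have h := (div_le_iff₀ hσ).1 ha.2
    linarith [hdiff.1]
  have s2 : ((Ico B B').filter
      (fun a => W (rf s) a K ≤ t * Real.sqrt (H / (Real.pi ^ 2 / 6)))) ⊆
      ((Ico B B').filter
      (fun a => W (rf s) a K / Real.sqrt (6 / Real.pi ^ 2 * K) ≤ t + d)) := by
    intro a ha
    rw [mem_filter] at ha ⊢
    refine ⟨ha.1, ?_⟩
    rw [div_le_iff₀ hσ]
    linarith [hdiff.2, ha.2]
  have c1 : (((Ico B B').filter
      (fun a => W (rf s) a K / Real.sqrt (6 / Real.pi ^ 2 * K) ≤ t - d)).card : ℝ) ≤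
      (((Ico B B').filter
      (fun a => W (rf s) a K ≤ t * Real.sqrt (H / (Real.pi ^ 2 / 6)))).card : ℝ) := by
    exact_mod_cast card_le_card s1
  have c2 : (((Ico B B').filter
      (fun a => W (rf s) a K ≤ t * Real.sqrt (H / (Real.pi ^ 2 / 6)))).card : ℝ) ≤
      (((Ico B B').filter
      (fun a => W (rf s) a K / Real.sqrt (6 / Real.pi ^ 2 * K) ≤ t + d)).card : ℝ) := by
    exact_mod_cast card_le_card s2
  rw [abs_le] at hlo hhi hc1 hc2 ⊢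
  have l1 : (Ph t - 2 * η) * ((B' : ℝ) - B) ≤ (((Ico B B').filter
      (fun a => W (rf s) a K / Real.sqrt (6 / Real.pi ^ 2 * K) ≤ t - d)).card : ℝ) := by
    rw [← le_div_iff₀ hL]
    linarith [hlo.1, hc1.1]
  have l2 : (((Ico B B').filter
      (fun a => W (rf s) a K / Real.sqrt (6 / Real.pi ^ 2 * K) ≤ t + d)).card : ℝ) ≤
      (Ph t + 2 * η) * ((B' : ℝ) - B) := by
    rw [← div_le_iff₀ hL]
    linarith [hhi.2, hc2.2]
  constructor
  · linarith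
  · linarith

theorem powers (ε X : ℝ) (hX : 0 < X) (u : ℝ) (hu : u = X ^ (ε / 2)) (hu0 : 0 < u) :
    X ^ ε = u ^ 2 ∧ X ^ (1 - ε) = X / u ^ 2 ∧ X ^ (1 - ε / 2) = X / u := by
  have e : X ^ ε = u ^ 2 := by
    rw [hu, ← Real.rpow_natCast, ← Real.rpow_mul hX.le]
    congr 1
    push_cast
    ring
  refine ⟨e, ?_, ?_⟩
  · rw [Real.rpow_sub hX, Real.rpow_one, e]
  · rw [Real.rpow_sub hX, Real.rpow_one, hu]

/-- the parameter conditions -/
theorem params (ε X H u T : ℝ) (hε : 0 < ε) (hε1 : ε < 1 / 2) (hX : 16 ≤ X)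
    (hu : u = X ^ (ε / 2)) (hu8 : 8 ≤ u) (huT : T ≤ u)
    (hH1 : X ^ ε < H) (hH2 : H < X ^ (1 - ε)) (K : ℕ) (hK : K = ⌊H⌋₊ ∨ K = ⌊H⌋₊ + 1) :
    3 * ⌊X - H / 2⌋₊ ≤ 2 * ⌊2 * X - H / 2⌋₊ ∧ ⌊2 * X - H / 2⌋₊ ≤ 3 * ⌊X - H / 2⌋₊ ∧
    X / 4 ≤ (⌊X - H / 2⌋₊ : ℝ) ∧
    (⌊X - H / 2⌋₊ : ℝ) ^ (ε / 2) ≤ K ∧ (K : ℝ) ≤ (⌊X - H / 2⌋₊ : ℝ) ^ (1 - ε / 2) ∧
    1 ≤ K ∧ |H - K| ≤ 1 ∧ T ≤ K ∧ ⌊X - H / 2⌋₊ < ⌊2 * X - H / 2⌋₊ ∧ 1 ≤ H ∧ H ≤ X ∧
    |((⌊2 * X - H / 2⌋₊ : ℝ) - ⌊X - H / 2⌋₊) - X| ≤ 1 := by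
  have hX0 : 0 < X := by linarith
  obtain ⟨p1, p2, p3⟩ := powers ε X hX0 u hu (by linarith)
  rw [p1] at hH1
  rw [p2] at hH2
  have hu2 : (64 : ℝ) ≤ u ^ 2 := by nlinarith
  have hH0 : 0 < H := by nlinarith
  have hHX : H ≤ X / 64 := by
    refine le_trans hH2.le ?_
    exact div_le_div_of_nonneg_left hX0.le (by norm_num) hu2
  have hf1 : (⌊H⌋₊ : ℝ) ≤ H := Nat.floor_le hH0.le
  have hf2 : H < (⌊H⌋₊ : ℝ) + 1 := Nat.lt_floor_add_one H
  have hK1 : H - 1 < K := by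
    rcases hK with h | h
    · rw [h]; linarith
    · rw [h]; push_cast; linarith
  have hK2 : (K : ℝ) ≤ H + 1 := by
    rcases hK with h | h
    · rw [h]; linarith
    · rw [h]; push_cast; linarith
  have hB1 : (⌊X - H / 2⌋₊ : ℝ) ≤ X - H / 2 := Nat.floor_le (by linarith)
  have hB2 : X - H / 2 < (⌊X - H / 2⌋₊ : ℝ) + 1 := Nat.lt_floor_add_one _
  have hB3 : (⌊2 * X - H / 2⌋₊ : ℝ) ≤ 2 * X - H / 2 := Nat.floor_le (by linarith)
  have hB4 : 2 * X - H / 2 < (⌊2 * X - H / 2⌋₊ : ℝ) + 1 := Nat.lt_floor_add_one _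
  have hB5 : X / 4 ≤ (⌊X - H / 2⌋₊ : ℝ) := by linarith
  have hKu : u ≤ K := by nlinarith
  refine ⟨?_, ?_, hB5, ?_, ?_, ?_, ?_, by linarith, ?_, by nlinarith, by linarith, ?_⟩
  · have : ((3 * ⌊X - H / 2⌋₊ : ℕ) : ℝ) ≤ ((2 * ⌊2 * X - H / 2⌋₊ : ℕ) : ℝ) := by
      push_cast
      linarith
    exact_mod_cast this
  · have : ((⌊2 * X - H / 2⌋₊ : ℕ) : ℝ) ≤ ((3 * ⌊X - H / 2⌋₊ : ℕ) : ℝ) := by
      push_cast
      linarith
    exact_mod_cast this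
  · calc (⌊X - H / 2⌋₊ : ℝ) ^ (ε / 2) ≤ X ^ (ε / 2) :=
        Real.rpow_le_rpow (Nat.cast_nonneg _) (by linarith) (by linarith)
      _ = u := hu.symm
      _ ≤ K := hKu
  · have h1 : (X / 4) ^ (1 - ε / 2) ≤ (⌊X - H / 2⌋₊ : ℝ) ^ (1 - ε / 2) :=
      Real.rpow_le_rpow (by linarith) hB5 (by linarith)
    have h2 : X / u / 4 ≤ (X / 4) ^ (1 - ε / 2) := by
      rw [Real.div_rpow hX0.le (by norm_num), p3]
      refine div_le_div_of_nonneg_left (by positivity) (by positivity) ?_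
      calc (4 : ℝ) ^ (1 - ε / 2) ≤ 4 ^ (1 : ℝ) :=
            Real.rpow_le_rpow_of_exponent_le (by norm_num) (by linarith)
        _ = 4 := Real.rpow_one 4
    have h3 : H + 1 ≤ X / u / 4 := by
      have h4 : H * u ^ 2 < X := by
        rwa [lt_div_iff₀ (by linarith)] at hH2
      rw [le_div_iff₀ (by norm_num), le_div_iff₀ (by linarith)]
      -- (H + 1) * 4 * u ≤ X; H ≥ 1, H u ^ 2 < X, u ≥ 8
      have h5 : 1 ≤ H := by linarith
      have hu0 : 0 ≤ u := by linarith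
      have h6 : ((H + 1) * 4) * u ≤ (8 * H) * u :=
        mul_le_mul_of_nonneg_right (by linarith) hu0
      have h7 : (H * u) * 8 ≤ (H * u) * u :=
        mul_le_mul_of_nonneg_left hu8 (mul_nonneg hH0.le hu0)
      have h8 : (H * u) * u = H * u ^ 2 := by ring
      have h9 : (8 * H) * u = (H * u) * 8 := by ring
      have h10 : (H + 1) * 4 * u = ((H + 1) * 4) * u := rfl
      linarith
    linarith
  · have : (1 : ℝ) ≤ K := by linarith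
    exact_mod_cast this
  · rw [abs_le]
    constructor <;> linarith
  · have : (⌊X - H / 2⌋₊ : ℝ) < (⌊2 * X - H / 2⌋₊ : ℝ) := by linarith
    exact_mod_cast this
  · rw [abs_le]
    constructor <;> linarith

end Pool.Agent.W815.RGE.LastAux

namespace Pool.Agent.W815.RGE

open Finset MeasureTheory Filter Topology Pool.Agent.Helper497.HS Pool.Agent.H595R2.PTF
open Pool.Agent.W815.RGC Pool.Agent.W815.RGE.LastAux

theorem last : SLast := by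
  intro hReal s hU ε hε hε1 H hH t
  rw [Metric.tendsto_atTop']
  intro η' hη'
  obtain ⟨η, hη, hη4⟩ : ∃ η : ℝ, 0 < η ∧ 4 * η = η' := ⟨η' / 4, by linarith, by ring⟩
  -- continuity
  obtain ⟨d, hd, hc1, hc2⟩ : ∃ d : ℝ, 0 < d ∧ |Ph (t - d) - Ph t| ≤ η ∧ |Ph (t + d) - Ph t| ≤ η := by
    obtain ⟨δ, hδ, hδall⟩ := Metric.continuousAt_iff.1 (ph_cont t) η hη
    refine ⟨δ / 2, by linarith, ?_, ?_⟩
    · have := @hδall (t - δ / 2) (by
        rw [Real.dist_eq]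
        rw [show t - δ / 2 - t = -(δ / 2) by ring, abs_neg, abs_of_pos (by linarith)]
        linarith)
      rw [Real.dist_eq] at this
      exact this.le
    · have := @hδall (t + δ / 2) (by
        rw [Real.dist_eq]
        rw [show t + δ / 2 - t = δ / 2 by ring, abs_of_pos (by linarith)]
        linarith)
      rw [Real.dist_eq] at this
      exact this.le
  obtain ⟨B1, hB1⟩ := hU (ε / 2) (t - d) η (by linarith) (by linarith) hη
  obtain ⟨B2, hB2⟩ := hU (ε / 2) (t + d) η (by linarith) (by linarith) hη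
  have ev1 : ∀ᶠ X : ℝ in atTop, 8 ≤ X ^ (ε / 2) :=
    (tendsto_rpow_atTop (by linarith : 0 < ε / 2)).eventually_ge_atTop 8
  have ev2 : ∀ᶠ X : ℝ in atTop, |t| / d ≤ X ^ (ε / 2) :=
    (tendsto_rpow_atTop (by linarith : 0 < ε / 2)).eventually_ge_atTop _
  have ev3 : ∀ᶠ X : ℝ in atTop, 16 ≤ X := eventually_ge_atTop 16
  have ev4 : ∀ᶠ X : ℝ in atTop, 4 * (B1 : ℝ) ≤ X := eventually_ge_atTop _
  have ev5 : ∀ᶠ X : ℝ in atTop, 4 * (B2 : ℝ) ≤ X := eventually_ge_atTop _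
  have ev6 : ∀ᶠ X : ℝ in atTop, (3 + 2 * η) / η ≤ X := eventually_ge_atTop _
  obtain ⟨X0, hX0⟩ := eventually_atTop.1 (hH.and (ev1.and (ev2.and (ev3.and (ev4.and (ev5.and ev6))))))
  refine ⟨X0, fun X hX => ?_⟩
  obtain ⟨⟨hH1, hH2⟩, h1, h2, h3, h4, h5, h6⟩ := hX0 X hX.le
  obtain ⟨h, hh⟩ : ∃ h : ℝ, h = H X := ⟨_, rfl⟩
  rw [← hh] at hH1 hH2 ⊢
  have key : ∀ K : ℕ, (K = ⌊h⌋₊ ∨ K = ⌊h⌋₊ + 1) →
      |(((Ico ⌊X - h / 2⌋₊ ⌊2 * X - h / 2⌋₊).filter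
        (fun a => W (rf s) a K ≤ t * Real.sqrt (h / (Real.pi ^ 2 / 6)))).card : ℝ) -
        ((⌊2 * X - h / 2⌋₊ : ℝ) - ⌊X - h / 2⌋₊) * Ph t| ≤
        2 * η * ((⌊2 * X - h / 2⌋₊ : ℝ) - ⌊X - h / 2⌋₊) := by
    intro K hK
    obtain ⟨q1, q2, q3, q4, q5, q6, q7, q8, q9, q10, q11, q12⟩ :=
      params ε X h (X ^ (ε / 2)) (|t| / d) hε hε1 h3 rfl h1 h2 hH1 hH2 K hK
    refine win s t d η h _ _ K hd (by linarith) q6 q7 ?_ q9 ?_ ?_ hc1 hc2
    · rw [div_le_iff₀ hd] at q8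
      linarith
    · refine hB1 _ _ K ?_ q1 q2 q4 q5
      have : (B1 : ℝ) ≤ (⌊X - h / 2⌋₊ : ℝ) := by linarith
      exact_mod_cast this
    · refine hB2 _ _ K ?_ q1 q2 q4 q5
      have : (B2 : ℝ) ≤ (⌊X - h / 2⌋₊ : ℝ) := by linarith
      exact_mod_cast this
  obtain ⟨q1, q2, q3, q4, q5, q6, q7, q8, q9, q10, q11, q12⟩ :=
      params ε X h (X ^ (ε / 2)) (|t| / d) hε hε1 h3 rfl h1 h2 hH1 hH2 ⌊h⌋₊ (Or.inl rfl)
  have k1 := key ⌊h⌋₊ (Or.inl rfl)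
  have k2 := key (⌊h⌋₊ + 1) (Or.inr rfl)
  have hR := hReal (rf s) X h (t * Real.sqrt (h / (Real.pi ^ 2 / 6))) (by linarith) q10 q11
  have hset : {x : ℝ | x ∈ Set.Icc X (2 * X) ∧
      Mx (rf s) x h / Real.sqrt (h / (Real.pi ^ 2 / 6)) ≤ t} =
      {x : ℝ | x ∈ Set.Icc X (2 * X) ∧ Mx (rf s) x h ≤ t * Real.sqrt (h / (Real.pi ^ 2 / 6))} := by
    ext x
    have hσ : 0 < Real.sqrt (h / (Real.pi ^ 2 / 6)) := by
      apply Real.sqrt_pos.2
      have := Real.pi_pos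
      have : 0 < h := by linarith
      positivity
    simp only [Set.mem_setOf_eq, div_le_iff₀ hσ]
  rw [hset]
  obtain ⟨f, hf⟩ : ∃ f : ℝ, f = Int.fract h := ⟨_, rfl⟩
  have hf0 : 0 ≤ f := by rw [hf]; exact Int.fract_nonneg h
  have hf1 : f < 1 := by rw [hf]; exact Int.fract_lt_one h
  rw [← hf] at hR
  obtain ⟨L, hL⟩ : ∃ L : ℝ, L = (⌊2 * X - h / 2⌋₊ : ℝ) - ⌊X - h / 2⌋₊ := ⟨_, rfl⟩
  rw [← hL] at k1 k2 q12
  obtain ⟨N1, hN1⟩ : ∃ N : ℝ, N = (((Ico ⌊X - h / 2⌋₊ ⌊2 * X - h / 2⌋₊).filter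
        (fun a => W (rf s) a ⌊h⌋₊ ≤ t * Real.sqrt (h / (Real.pi ^ 2 / 6)))).card : ℝ) := ⟨_, rfl⟩
  obtain ⟨N2, hN2⟩ : ∃ N : ℝ, N = (((Ico ⌊X - h / 2⌋₊ ⌊2 * X - h / 2⌋₊).filter
        (fun a => W (rf s) a (⌊h⌋₊ + 1) ≤ t * Real.sqrt (h / (Real.pi ^ 2 / 6)))).card : ℝ) := ⟨_, rfl⟩
  rw [← hN1] at k1 hR
  rw [← hN2] at k2 hR
  obtain ⟨V, hV⟩ : ∃ V : ℝ, V = (volume {x : ℝ | x ∈ Set.Icc X (2 * X) ∧
    Mx (rf s) x h ≤ t * Real.sqrt (h / (Real.pi ^ 2 / 6))}).toReal := ⟨_, rfl⟩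
  rw [← hV] at hR ⊢
  obtain ⟨P, hP⟩ : ∃ P : ℝ, P = Ph t := ⟨_, rfl⟩
  have hP0 : 0 ≤ P := by rw [hP]; exact ph_nonneg t
  have hP1 : P ≤ 1 := by rw [hP]; exact ph_le t
  rw [← hP] at k1 k2
  change dist (V / X) (Ph t) < η'
  rw [← hP, Real.dist_eq]
  rw [abs_le] at k1 k2 hR q12
  have hX0 : 0 < X := by linarith
  have m1 : |V - P * X| ≤ 3 + 2 * η * (X + 1) := by
    have a1 : f * (N2 - L * P) ≤ f * (2 * η * L) := mul_le_mul_of_nonneg_left k2.2 hf0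
    have a2 : f * (-(2 * η * L)) ≤ f * (N2 - L * P) := mul_le_mul_of_nonneg_left k2.1 hf0
    have a3 : (1 - f) * (N1 - L * P) ≤ (1 - f) * (2 * η * L) :=
      mul_le_mul_of_nonneg_left k1.2 (by linarith)
    have a4 : (1 - f) * (-(2 * η * L)) ≤ (1 - f) * (N1 - L * P) :=
      mul_le_mul_of_nonneg_left k1.1 (by linarith)
    have b1 : 2 * η * L ≤ 2 * η * (X + 1) := by
      apply mul_le_mul_of_nonneg_left _ (by linarith)
      linarith [q12.2]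
    have b2 : P * (L - X) ≤ P * 1 := mul_le_mul_of_nonneg_left q12.2 hP0
    have b3 : P * (-1) ≤ P * (L - X) := mul_le_mul_of_nonneg_left q12.1 hP0
    have r1 := hR.1
    have r2 := hR.2
    have z1 : V - P * X = (V - ((1 - f) * N1 + f * N2)) + (1 - f) * (N1 - L * P) +
      f * (N2 - L * P) + P * (L - X) := by ring
    have z2 : (1 - f) * (2 * η * L) + f * (2 * η * L) = 2 * η * L := by ring
    have z3 : (1 - f) * (-(2 * η * L)) + f * (-(2 * η * L)) = -(2 * η * L) := by ring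
    clear hR hN1 hN2 hV hset key hX0
    rw [z1]
    rw [abs_le]
    constructor
    · linarith only [r1, a2, a4, b3, b1, z3, hP1]
    · linarith only [r2, a1, a3, b2, b1, z2, hP1]
  have m2 : V / X - P = (V - P * X) / X := by
    field_simp
  rw [m2, abs_div, abs_of_pos hX0, div_lt_iff₀ hX0, ← hη4]
  have m3 : 3 + 2 * η ≤ η * X := by
    rw [div_le_iff₀ hη] at h6
    linarith
  refine lt_of_le_of_lt m1 ?_
  have m4 : 0 < η * X := mul_pos hη hX0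
  have m5 : 3 + 2 * η * (X + 1) = (3 + 2 * η) + 2 * (η * X) := by ring
  have m6 : 4 * η * X = 4 * (η * X) := by ring
  rw [m5, m6]
  linarith only [m3, m4]

end Pool.Agent.W815.RGE
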