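import Pool.Agent.W815.RGC.StmG

set_option autoImplicit false

namespace Pool.Agent.W815.RGE.Ml2

open Finset MeasureTheory Filter Topology Pool.Agent.Helper497.HS Pool.Agent.H595R2.PTF
open Pool.Agent.W815.RGC Pool.Agent.W815.RGE

theorem S_zero (g : ℕ → ℝ) (a K : ℕ) : S g 0 a K = 1 := by
  simp [S]

theorem Nn_nonneg (a K : ℕ) : 0 ≤ Nn a K := by
  unfold Nn; exact Nat.cast_nonneg _

theorem Nn_le (a K : ℕ) : Nn a K ≤ K := by
  classical
  unfold Nn
  have h : ((Ioc a (a + K)).filter Squarefree).card ≤ K := by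
    refine (card_filter_le _ _).trans ?_
    simp
  have := (Nat.cast_le (α := ℝ)).mpr h
  convert this

theorem c0_pos : 0 < 6 / Real.pi ^ 2 := by positivity

theorem c0_le : 6 / Real.pi ^ 2 ≤ 1 := by
  rw [div_le_one (by positivity)]
  nlinarith [Real.pi_gt_three]

theorem AA_zero (g : ℕ → ℝ) (m B B' K : ℕ) :
    AA g 0 m B B' K = ∑ a ∈ Ico B B', Nn a K ^ m := by
  unfold AA
  refine sum_congr rfl fun a _ => ?_
  rw [S_zero, mul_one]

/-- the mean of `N^m` -/
theorem mean_bound (C : ℝ) (hC : ∀ B K : ℕ, 1 ≤ K → K ≤ B →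
    ∑ a ∈ range (3 * B), |Nn a K - 6 / Real.pi ^ 2 * K| ≤ C * B * Real.sqrt K)
    (m B B' K : ℕ) (hK : 1 ≤ K) (hKB : K ≤ B) (hB' : B' ≤ 3 * B) (hBB : B ≤ B') :
    |(∑ a ∈ Ico B B', Nn a K ^ m) - (6 / Real.pi ^ 2 * K) ^ m * ((B' : ℝ) - B)| ≤
      m * (K : ℝ) ^ (m - 1) * (C * B * Real.sqrt K) := by
  have hcard : ((B' : ℝ) - B) = ∑ a ∈ Ico B B', (1 : ℝ) := by
    rw [sum_const, Nat.card_Ico, nsmul_eq_mul, mul_one, Nat.cast_sub hBB]
  rw [hcard, mul_sum, ← sum_sub_distrib]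
  refine (abs_sum_le_sum_abs _ _).trans ?_
  have h1 : ∀ a ∈ Ico B B', |Nn a K ^ m - (6 / Real.pi ^ 2 * K) ^ m * 1| ≤
      m * (K : ℝ) ^ (m - 1) * |Nn a K - 6 / Real.pi ^ 2 * K| := by
    intro a _
    rw [mul_one]
    refine (abs_pow_sub_pow_le _ _ _).trans ?_
    have hx : |Nn a K| ≤ K := by rw [abs_of_nonneg (Nn_nonneg a K)]; exact Nn_le a K
    have hy : |6 / Real.pi ^ 2 * (K : ℝ)| ≤ (K : ℝ) := by
      rw [abs_of_nonneg (by positivity)]
      calc 6 / Real.pi ^ 2 * (K : ℝ) ≤ 1 * K := by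
            exact mul_le_mul_of_nonneg_right c0_le (Nat.cast_nonneg _)
        _ = K := one_mul _
    have hmax : max |Nn a K| |6 / Real.pi ^ 2 * (K : ℝ)| ^ (m - 1) ≤ (K : ℝ) ^ (m - 1) :=
      pow_le_pow_left₀ (le_trans (abs_nonneg _) (le_max_left _ _)) (max_le hx hy) _
    calc |Nn a K - 6 / Real.pi ^ 2 * K| * m * max |Nn a K| |6 / Real.pi ^ 2 * (K : ℝ)| ^ (m - 1)
        ≤ |Nn a K - 6 / Real.pi ^ 2 * K| * m * (K : ℝ) ^ (m - 1) :=
          mul_le_mul_of_nonneg_left hmax (by positivity)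
      _ = _ := by ring
  refine (sum_le_sum h1).trans ?_
  rw [← mul_sum]
  refine mul_le_mul_of_nonneg_left ?_ (by positivity)
  refine le_trans ?_ (hC B K hK hKB)
  refine sum_le_sum_of_subset_of_nonneg ?_ (fun _ _ _ => abs_nonneg _)
  intro a ha
  rw [mem_Ico] at ha
  rw [mem_range]; omega

theorem sqrt_pow_lower (x d b : ℝ) (k : ℕ) (hx : 0 ≤ x) (hb : 0 ≤ b) (hd : b / 2 ≤ d) :
    Real.sqrt (6 / Real.pi ^ 2) ^ k * Real.sqrt x ^ k * (b / 2) ≤
      Real.sqrt (6 / Real.pi ^ 2 * x) ^ k * d := by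
  rw [Real.sqrt_mul c0_pos.le, mul_pow]
  exact mul_le_mul_of_nonneg_left hd (by positivity)

theorem case2 (b x d A c' : ℝ) (k : ℕ) (hb : 1 ≤ b) (hx : 1 ≤ x) (hd : b / 2 ≤ d) (e : ℝ)
    (he : e ≤ (k : ℝ) / 2) (hA : |A| ≤ b ^ (1 - c') * x ^ e) :
    |A / (Real.sqrt (6 / Real.pi ^ 2 * x) ^ k * d)| ≤
      2 / Real.sqrt (6 / Real.pi ^ 2) ^ k * b ^ (-c') := by
  have hb0 : 0 < b := by linarith
  have hx0 : 0 < x := by linarith
  have hs0 : 0 < Real.sqrt (6 / Real.pi ^ 2) := Real.sqrt_pos.mpr c0_pos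
  have hsx : 0 < Real.sqrt x := Real.sqrt_pos.mpr hx0
  have hlow := sqrt_pow_lower x d b k hx0.le hb0.le hd
  have hlpos : 0 < Real.sqrt (6 / Real.pi ^ 2) ^ k * Real.sqrt x ^ k * (b / 2) := by positivity
  have hpos : 0 < Real.sqrt (6 / Real.pi ^ 2 * x) ^ k * d := lt_of_lt_of_le hlpos hlow
  rw [abs_div, abs_of_pos hpos, div_le_iff₀ hpos]
  have h1 : x ^ e ≤ Real.sqrt x ^ k := by
    have h2 : Real.sqrt x ^ k = x ^ ((k : ℝ) / 2) := by
      rw [Real.sqrt_eq_rpow, ← Real.rpow_natCast, ← Real.rpow_mul hx0.le]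
      congr 1; ring
    rw [h2]
    exact Real.rpow_le_rpow_of_exponent_le hx he
  have h3 : b ^ (1 - c') = b * b ^ (-c') := by
    rw [show (1 - c') = 1 + (-c') by ring, Real.rpow_add hb0, Real.rpow_one]
  calc |A| ≤ b ^ (1 - c') * x ^ e := hA
    _ ≤ b ^ (1 - c') * Real.sqrt x ^ k := mul_le_mul_of_nonneg_left h1 (by positivity)
    _ = (2 / Real.sqrt (6 / Real.pi ^ 2) ^ k * b ^ (-c')) *
        (Real.sqrt (6 / Real.pi ^ 2) ^ k * Real.sqrt x ^ k * (b / 2)) := by
        rw [h3]; field_simp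
    _ ≤ _ := mul_le_mul_of_nonneg_left hlow (by positivity)

theorem case3 (b x d A : ℝ) (k m : ℕ) (hb : 1 ≤ b) (hx : 1 ≤ x) (hd : b / 2 ≤ d)
    (hm : 2 * m < k) (hA0 : 0 ≤ A) (hA : A ≤ x ^ m * d) :
    |A / (Real.sqrt (6 / Real.pi ^ 2 * x) ^ k * d)| ≤
      1 / Real.sqrt (6 / Real.pi ^ 2) ^ k * (Real.sqrt x)⁻¹ := by
  have hb0 : 0 < b := by linarith
  have hx0 : 0 < x := by linarith
  have hs0 : 0 < Real.sqrt (6 / Real.pi ^ 2) := Real.sqrt_pos.mpr c0_pos
  have hsx : 0 < Real.sqrt x := Real.sqrt_pos.mpr hx0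
  have hsx1 : 1 ≤ Real.sqrt x := Real.one_le_sqrt.mpr hx
  have hd0 : 0 < d := by linarith
  have hσ : Real.sqrt (6 / Real.pi ^ 2 * x) ^ k = Real.sqrt (6 / Real.pi ^ 2) ^ k * Real.sqrt x ^ k := by
    rw [Real.sqrt_mul c0_pos.le, mul_pow]
  have hpos : 0 < Real.sqrt (6 / Real.pi ^ 2 * x) ^ k * d := by rw [hσ]; positivity
  rw [abs_div, abs_of_pos hpos, div_le_iff₀ hpos, abs_of_nonneg hA0]
  obtain ⟨l, hl⟩ : ∃ l, k = l + 1 := ⟨k - 1, by omega⟩
  have h1 : x ^ m ≤ Real.sqrt x ^ l := by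
    have h2 : x ^ m = Real.sqrt x ^ (2 * m) := by
      rw [pow_mul, Real.sq_sqrt hx0.le]
    rw [h2]
    exact pow_le_pow_right₀ hsx1 (by omega)
  calc A ≤ x ^ m * d := hA
    _ ≤ Real.sqrt x ^ l * d := mul_le_mul_of_nonneg_right h1 hd0.le
    _ = 1 / Real.sqrt (6 / Real.pi ^ 2) ^ k * (Real.sqrt x)⁻¹ *
        (Real.sqrt (6 / Real.pi ^ 2 * x) ^ k * d) := by
        rw [hσ, hl, pow_succ (Real.sqrt x) l]; field_simp

theorem case4 (b x d A C : ℝ) (m : ℕ) (hb : 1 ≤ b) (hx : 1 ≤ x) (hd : b / 2 ≤ d) (hC : 0 < C)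
    (hA : |A - (6 / Real.pi ^ 2 * x) ^ m * d| ≤ m * x ^ (m - 1) * (C * b * Real.sqrt x)) :
    |A / (Real.sqrt (6 / Real.pi ^ 2 * x) ^ (2 * m) * d) - 1| ≤
      2 * m * C / (6 / Real.pi ^ 2) ^ m * (Real.sqrt x)⁻¹ := by
  have hb0 : 0 < b := by linarith
  have hx0 : 0 < x := by linarith
  have hsx : 0 < Real.sqrt x := Real.sqrt_pos.mpr hx0
  have hd0 : 0 < d := by linarith
  have hc0 := c0_pos
  have hσ : Real.sqrt (6 / Real.pi ^ 2 * x) ^ (2 * m) = (6 / Real.pi ^ 2 * x) ^ m := by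
    rw [pow_mul, Real.sq_sqrt (by positivity)]
  rw [hσ]
  set u := 6 / Real.pi ^ 2 with hu
  have hpos : 0 < (u * x) ^ m * d := by positivity
  have h1 : A / ((u * x) ^ m * d) - 1 = (A - (u * x) ^ m * d) / ((u * x) ^ m * d) := by
    field_simp
  rw [h1, abs_div, abs_of_pos hpos, div_le_iff₀ hpos]
  refine hA.trans ?_
  have h2 : (m : ℝ) * x ^ (m - 1) * Real.sqrt x = m * x ^ m * (Real.sqrt x)⁻¹ := by
    rcases Nat.eq_zero_or_pos m with hm | hm
    · rw [hm]; simp
    · obtain ⟨l, rfl⟩ : ∃ l, m = l + 1 := ⟨m - 1, by omega⟩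
      rw [Nat.add_sub_cancel, pow_succ]
      have h3 : x = Real.sqrt x * Real.sqrt x := (Real.mul_self_sqrt hx0.le).symm
      have h4 : x * (Real.sqrt x)⁻¹ = Real.sqrt x := by
        rw [mul_inv_eq_iff_eq_mul₀ hsx.ne']; exact h3
      rw [mul_assoc (((l + 1 : ℕ) : ℝ)) (x ^ l * x), mul_assoc (x ^ l), h4]; ring
  calc (m : ℝ) * x ^ (m - 1) * (C * b * Real.sqrt x) = C * b * ((m : ℝ) * x ^ (m - 1) * Real.sqrt x) := by ring
    _ = C * b * (m * x ^ m * (Real.sqrt x)⁻¹) := by rw [h2]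
    _ = 2 * m * C / u ^ m * (Real.sqrt x)⁻¹ * ((u * x) ^ m * (b / 2)) := by
        rw [mul_pow]; field_simp
    _ ≤ 2 * m * C / u ^ m * (Real.sqrt x)⁻¹ * ((u * x) ^ m * d) := by
        refine mul_le_mul_of_nonneg_left ?_ (by positivity)
        exact mul_le_mul_of_nonneg_left hd (by positivity)

theorem ml : SMl := by
  intro hE hN s hG ε hε0 hε1 B B' K hB hyp k
  obtain ⟨c, hcz, hcd, hW⟩ := hE
  obtain ⟨C, hC0, hC⟩ := hN
  have hc0 := c0_pos
  have hBr : Tendsto (fun n => (B n : ℝ)) atTop atTop := tendsto_natCast_atTop_atTop.comp hB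
  have hKr : Tendsto (fun n => (K n : ℝ)) atTop atTop :=
    tendsto_atTop_mono (fun n => (hyp n).2.2.2.1) ((tendsto_rpow_atTop hε0).comp hBr)
  have hB1 : ∀ᶠ n in atTop, 1 ≤ B n := hB.eventually_ge_atTop 1
  have hK1 : ∀ n, (1 : ℝ) ≤ K n := fun n => by exact_mod_cast (hyp n).2.2.1
  -- lower bound for the length
  have hD : ∀ n, (B n : ℝ) / 2 ≤ (B' n : ℝ) - B n := by
    intro n
    have h := (hyp n).1
    have : (3 : ℝ) * B n ≤ 2 * B' n := by exact_mod_cast h
    linarith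
  have hBB : ∀ n, B n ≤ B' n := by
    intro n; have h := (hyp n).1; omega
  have hKB : ∀ᶠ n in atTop, K n ≤ B n := by
    filter_upwards [hB1] with n hn
    have h1 : (1 : ℝ) ≤ B n := by exact_mod_cast hn
    have h2 := (hyp n).2.2.2.2
    have h3 : (B n : ℝ) ^ (1 - ε) ≤ (B n : ℝ) ^ (1 : ℝ) :=
      Real.rpow_le_rpow_of_exponent_le h1 (by linarith)
    rw [Real.rpow_one] at h3
    exact_mod_cast h2.trans h3
  have key : ∀ n, (∑ a ∈ Ico (B n) (B' n),
      (W (rf s) a (K n) / Real.sqrt (6 / Real.pi ^ 2 * K n)) ^ k) / ((B' n : ℝ) - B n) =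
      ∑ j ∈ range (k + 1), ∑ m ∈ range (k + 1), c k j m * (AA (rf s) j m (B n) (B' n) (K n) /
        (Real.sqrt (6 / Real.pi ^ 2 * K n) ^ k * ((B' n : ℝ) - B n))) := by
    intro n
    have h1 : ∀ a ∈ Ico (B n) (B' n),
        (W (rf s) a (K n) / Real.sqrt (6 / Real.pi ^ 2 * K n)) ^ k =
        ∑ j ∈ range (k + 1), ∑ m ∈ range (k + 1), c k j m * (Nn a (K n) ^ m * S (rf s) j a (K n)) /
          Real.sqrt (6 / Real.pi ^ 2 * K n) ^ k := by
      intro a _
      rw [div_pow, hW, sum_div]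
      refine sum_congr rfl fun j _ => ?_
      rw [sum_div]
      refine sum_congr rfl fun m _ => ?_
      ring
    rw [sum_congr rfl h1, sum_comm, sum_div]
    refine sum_congr rfl fun j _ => ?_
    rw [sum_comm, sum_div]
    refine sum_congr rfl fun m _ => ?_
    unfold AA
    rw [← sum_div, ← mul_sum]
    rw [div_div, mul_div_assoc]
  have term : ∀ j m : ℕ, Tendsto (fun n => c k j m * (AA (rf s) j m (B n) (B' n) (K n) /
        (Real.sqrt (6 / Real.pi ^ 2 * K n) ^ k * ((B' n : ℝ) - B n)))) atTop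
        (nhds (if j = 0 ∧ 2 * m = k then gm k else 0)) := by
    intro j m
    rcases lt_or_ge k (2 * m + j) with hlt | hle
    · have h1 : ¬ (j = 0 ∧ 2 * m = k) := by rintro ⟨h, h'⟩; omega
      rw [if_neg h1, hcz k j m hlt]
      simp
    · rcases Nat.eq_zero_or_pos j with hj | hj
      · subst hj
        have hAA : ∀ n, AA (rf s) 0 m (B n) (B' n) (K n) = ∑ a ∈ Ico (B n) (B' n), Nn a (K n) ^ m :=
          fun n => AA_zero _ _ _ _ _
        have hinv : Tendsto (fun n => (Real.sqrt (K n : ℝ))⁻¹) atTop (nhds 0) :=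
          tendsto_inv_atTop_zero.comp (Real.tendsto_sqrt_atTop.comp hKr)
        rcases Nat.lt_or_ge (2 * m) k with hmk | hmk
        · have h1 : ¬ (0 = 0 ∧ 2 * m = k) := by rintro ⟨-, h'⟩; omega
          rw [if_neg h1]
          have h2 : Tendsto (fun n => (AA (rf s) 0 m (B n) (B' n) (K n) /
              (Real.sqrt (6 / Real.pi ^ 2 * K n) ^ k * ((B' n : ℝ) - B n)))) atTop (nhds 0) := by
            refine squeeze_zero_norm' (a := fun n => 1 / Real.sqrt (6 / Real.pi ^ 2) ^ k *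
              (Real.sqrt (K n : ℝ))⁻¹) ?_ ?_
            · filter_upwards [hB1] with n hn
              rw [Real.norm_eq_abs]
              refine case3 (B n) (K n) _ _ k m (by exact_mod_cast hn) (hK1 n) (hD n) hmk ?_ ?_
              · rw [hAA]; exact sum_nonneg fun a _ => pow_nonneg (Nn_nonneg _ _) _
              · rw [hAA]
                have hcard : ((B' n : ℝ) - B n) = ∑ a ∈ Ico (B n) (B' n), (1 : ℝ) := by
                  rw [sum_const, Nat.card_Ico, nsmul_eq_mul, mul_one, Nat.cast_sub (hBB n)]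
                rw [hcard, mul_sum]
                refine sum_le_sum fun a _ => ?_
                rw [mul_one]
                exact pow_le_pow_left₀ (Nn_nonneg _ _) (Nn_le _ _) _
            · have := hinv.const_mul (1 / Real.sqrt (6 / Real.pi ^ 2) ^ k)
              rwa [mul_zero] at this
          have h3 := h2.const_mul (c k 0 m)
          rwa [mul_zero] at h3
        · have hk : k = 2 * m := by omega
          rw [if_pos ⟨rfl, hk.symm⟩]
          have h2 : Tendsto (fun n => (AA (rf s) 0 m (B n) (B' n) (K n) /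
              (Real.sqrt (6 / Real.pi ^ 2 * K n) ^ k * ((B' n : ℝ) - B n)) - 1)) atTop (nhds 0) := by
            refine squeeze_zero_norm' (a := fun n => 2 * m * C / (6 / Real.pi ^ 2) ^ m *
              (Real.sqrt (K n : ℝ))⁻¹) ?_ ?_
            · filter_upwards [hB1, hKB] with n hn hn2
              rw [Real.norm_eq_abs, hk]
              refine case4 (B n) (K n) _ _ C m (by exact_mod_cast hn) (hK1 n) (hD n) hC0 ?_
              rw [hAA]
              exact mean_bound C hC m (B n) (B' n) (K n) (hyp n).2.2.1 hn2 (hyp n).2.1 (hBB n)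
            · have := hinv.const_mul (2 * m * C / (6 / Real.pi ^ 2) ^ m)
              rwa [mul_zero] at this
          have h3 : Tendsto (fun n => (AA (rf s) 0 m (B n) (B' n) (K n) /
              (Real.sqrt (6 / Real.pi ^ 2 * K n) ^ k * ((B' n : ℝ) - B n)))) atTop (nhds 1) := by
            have := h2.add_const 1
            simpa using this
          have h4 := h3.const_mul (c k 0 m)
          rw [mul_one] at h4
          have h5 : c k 0 m = gm k := by
            have h6 : Even k := ⟨m, by omega⟩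
            unfold gm
            rw [if_pos h6, hk, hcd m]
          rw [h5] at h4 ⊢
          exact h4
      · have h1 : ¬ (j = 0 ∧ 2 * m = k) := by rintro ⟨h, h'⟩; omega
        rw [if_neg h1]
        obtain ⟨c', hc', B0, hG'⟩ := hG ε hε0 hε1 j m hj
        have hB0 : ∀ᶠ n in atTop, B0 ≤ B n := hB.eventually_ge_atTop B0
        have h2 : Tendsto (fun n => (AA (rf s) j m (B n) (B' n) (K n) /
            (Real.sqrt (6 / Real.pi ^ 2 * K n) ^ k * ((B' n : ℝ) - B n)))) atTop (nhds 0) := by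
          refine squeeze_zero_norm' (a := fun n => 2 / Real.sqrt (6 / Real.pi ^ 2) ^ k *
            (B n : ℝ) ^ (-c')) ?_ ?_
          · filter_upwards [hB1, hB0] with n hn hn2
            rw [Real.norm_eq_abs]
            refine case2 (B n) (K n) _ _ c' k (by exact_mod_cast hn) (hK1 n) (hD n)
              ((m : ℝ) + (j : ℝ) / 2) ?_ ?_
            · have : ((2 * m + j : ℕ) : ℝ) ≤ k := by exact_mod_cast hle
              push_cast at this
              linarith
            · exact hG' (B n) hn2 (B' n) (hyp n).2.1 (K n) (hyp n).2.2.1 (hyp n).2.2.2.2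
          · have := ((tendsto_rpow_neg_atTop hc').comp hBr).const_mul
              (2 / Real.sqrt (6 / Real.pi ^ 2) ^ k)
            rwa [mul_zero] at this
        have h3 := h2.const_mul (c k j m)
        rwa [mul_zero] at h3
  have hlim : Tendsto (fun n => ∑ j ∈ range (k + 1), ∑ m ∈ range (k + 1), c k j m *
      (AA (rf s) j m (B n) (B' n) (K n) /
        (Real.sqrt (6 / Real.pi ^ 2 * K n) ^ k * ((B' n : ℝ) - B n)))) atTop
      (nhds (∑ j ∈ range (k + 1), ∑ m ∈ range (k + 1), (if j = 0 ∧ 2 * m = k then gm k else 0))) :=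
    tendsto_finsetSum _ fun j _ => tendsto_finsetSum _ fun m _ => term j m
  have hval : (∑ j ∈ range (k + 1), ∑ m ∈ range (k + 1), (if j = 0 ∧ 2 * m = k then gm k else 0))
      = gm k := by
    rw [sum_eq_single 0]
    · rcases Nat.even_or_odd k with hk | hk
      · obtain ⟨i, hi⟩ := hk
        rw [sum_eq_single i]
        · rw [if_pos ⟨rfl, by omega⟩]
        · intro m _ hm
          rw [if_neg]
          rintro ⟨-, h⟩; omega
        · intro h
          exfalso; apply h; rw [mem_range]; omega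
      · rw [sum_eq_zero]
        · unfold gm
          rw [if_neg (Nat.not_even_iff_odd.mpr hk)]
        · intro m _
          rw [if_neg]
          rintro ⟨-, h⟩
          obtain ⟨i, hi⟩ := hk
          omega
    · intro j _ hj
      refine sum_eq_zero fun m _ => ?_
      rw [if_neg]
      rintro ⟨h, -⟩; exact hj h
    · intro h
      exfalso; apply h; rw [mem_range]; omega
  rw [hval] at hlim
  refine hlim.congr fun n => ?_
  rw [key n]

end Pool.Agent.W815.RGE.Ml2

namespace Pool.Agent.W815.RGE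

theorem ml : SMl := Ml2.ml

end Pool.Agent.W815.RGE
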