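import Pool.Agent.W815.RGC.StmG

set_option autoImplicit false

namespace Pool.Agent.W815.RGE

open Finset MeasureTheory Filter Topology ProbabilityTheory

namespace MM

/-- Taylor bound along a ray -/
lemma taylor (x : ℝ) (m : ℕ) : ∀ t : ℝ, 0 ≤ t →
    ‖Complex.exp ((t : ℂ) * ((x : ℂ) * Complex.I)) -
      ∑ k ∈ range m, ((t : ℂ) * ((x : ℂ) * Complex.I)) ^ k / (k.factorial : ℂ)‖ ≤
      (t * |x|) ^ m / (m.factorial : ℝ) := by
  induction m with
  | zero =>
    intro t ht
    have e : (t : ℂ) * ((x : ℂ) * Complex.I) = ((t * x : ℝ) : ℂ) * Complex.I := by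
      push_cast; ring
    rw [e, Finset.range_zero, Finset.sum_empty, sub_zero, Complex.norm_exp_ofReal_mul_I]
    simp
  | succ m ih =>
    intro t ht
    set z : ℂ := (x : ℂ) * Complex.I with hz
    have hnz : ‖z‖ = |x| := by
      rw [hz, norm_mul, Complex.norm_I, mul_one, Complex.norm_real, Real.norm_eq_abs]
    have hd1 : ∀ s : ℝ, HasDerivAt (fun s : ℝ => (s : ℂ) * z) z s := by
      intro s
      have h := (Complex.ofRealCLM.hasDerivAt (x := s)).mul_const z
      simpa using h
    have hd2 : ∀ s : ℝ, HasDerivAt (fun s : ℝ => Complex.exp ((s : ℂ) * z) -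
        ∑ k ∈ range (m + 1), ((s : ℂ) * z) ^ k / (k.factorial : ℂ))
        (z * (Complex.exp ((s : ℂ) * z) -
          ∑ k ∈ range m, ((s : ℂ) * z) ^ k / (k.factorial : ℂ))) s := by
      intro s
      have h1 : HasDerivAt (fun s : ℝ => Complex.exp ((s : ℂ) * z))
          (Complex.exp ((s : ℂ) * z) * z) s := (hd1 s).cexp
      have h2 : HasDerivAt (fun s : ℝ => ∑ k ∈ range (m + 1), ((s : ℂ) * z) ^ k / (k.factorial : ℂ))
          (∑ k ∈ range m, ((s : ℂ) * z) ^ k / (k.factorial : ℂ) * z) s := by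
        have e : (fun s : ℝ => ∑ k ∈ range (m + 1), ((s : ℂ) * z) ^ k / (k.factorial : ℂ)) =
            fun s : ℝ => ∑ k ∈ range m, ((s : ℂ) * z) ^ (k + 1) / ((k + 1).factorial : ℂ) + 1 := by
          funext s
          rw [Finset.sum_range_succ']
          simp
        rw [e]
        apply HasDerivAt.add_const
        apply HasDerivAt.fun_sum
        intro k _
        have h3 := ((hd1 s).fun_pow (k + 1)).div_const ((k + 1).factorial : ℂ)
        refine h3.congr_deriv ?_
        have hk : ((k + 1).factorial : ℂ) = ((k : ℂ) + 1) * (k.factorial : ℂ) := by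
          rw [Nat.factorial_succ]; push_cast; ring
        have hk1 : (k.factorial : ℂ) ≠ 0 := by exact_mod_cast k.factorial_ne_zero
        have hk2 : ((k : ℂ) + 1) ≠ 0 := by exact_mod_cast k.succ_ne_zero
        rw [hk]
        simp only [Nat.add_sub_cancel]
        push_cast
        field_simp
      refine (h1.fun_sub h2).congr_deriv ?_
      rw [← Finset.sum_mul]
      ring
    have hB : ∀ s : ℝ, HasDerivAt (fun s : ℝ => (s * |x|) ^ (m + 1) / ((m + 1).factorial : ℝ))
        (|x| * ((s * |x|) ^ m / (m.factorial : ℝ))) s := by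
      intro s
      have h1 : HasDerivAt (fun s : ℝ => s * |x|) |x| s := by
        simpa using (hasDerivAt_id s).mul_const |x|
      have h3 := (h1.fun_pow (m + 1)).div_const ((m + 1).factorial : ℝ)
      refine h3.congr_deriv ?_
      have hk : ((m + 1).factorial : ℝ) = ((m : ℝ) + 1) * (m.factorial : ℝ) := by
        rw [Nat.factorial_succ]; push_cast; ring
      have hk1 : (m.factorial : ℝ) ≠ 0 := by exact_mod_cast m.factorial_ne_zero
      have hk2 : ((m : ℝ) + 1) ≠ 0 := by exact_mod_cast m.succ_ne_zero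
      rw [hk]
      simp only [Nat.add_sub_cancel]
      push_cast
      field_simp
    refine image_norm_le_of_norm_deriv_right_le_deriv_boundary
      (f := fun s : ℝ => Complex.exp ((s : ℂ) * z) -
        ∑ k ∈ range (m + 1), ((s : ℂ) * z) ^ k / (k.factorial : ℂ))
      (f' := fun s : ℝ => z * (Complex.exp ((s : ℂ) * z) -
          ∑ k ∈ range m, ((s : ℂ) * z) ^ k / (k.factorial : ℂ))) (a := 0) (b := t)
      (fun s _ => (hd2 s).continuousAt.continuousWithinAt)
      (fun s _ => (hd2 s).hasDerivWithinAt)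
      (B := fun s : ℝ => (s * |x|) ^ (m + 1) / ((m + 1).factorial : ℝ)) ?_ hB ?_
      ⟨ht, le_rfl⟩
    · rw [Finset.sum_range_succ']
      simp
    · intro s hs
      rw [norm_mul, hnz]
      exact mul_le_mul_of_nonneg_left (ih s hs.1) (abs_nonneg x)

lemma taylor' (x : ℝ) (m : ℕ) :
    ‖Complex.exp ((x : ℂ) * Complex.I) -
      ∑ k ∈ range m, ((x : ℂ) * Complex.I) ^ k / (k.factorial : ℂ)‖ ≤
      |x| ^ m / (m.factorial : ℝ) := by
  have h := taylor x m 1 zero_le_one
  simpa using h

lemma gm_even (j : ℕ) : gm (2 * j) * (2 ^ j * (j.factorial : ℝ)) = ((2 * j).factorial : ℝ) := by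
  have he : Even (2 * j) := even_two_mul j
  unfold gm
  rw [if_pos he]
  rcases j with _ | j
  · simp
  · have h1 : (2 * (j + 1)).factorial = (2 * (j + 1)).doubleFactorial *
        (2 * (j + 1) - 1).doubleFactorial := by
      have := Nat.factorial_eq_mul_doubleFactorial (2 * j + 1)
      rw [show 2 * (j + 1) = 2 * j + 1 + 1 by ring]
      rw [this]
      congr 1
    rw [h1, Nat.doubleFactorial_two_mul]
    push_cast
    ring

lemma gm_odd (j : ℕ) : gm (2 * j + 1) = 0 := by
  unfold gm
  rw [if_neg]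
  rw [Nat.not_even_iff_odd]
  exact odd_two_mul_add_one j

lemma partial_sum (s : ℝ) (r : ℕ) :
    ∑ k ∈ range (2 * r), ((s : ℂ) * Complex.I) ^ k / (k.factorial : ℂ) * (gm k : ℂ) =
      ∑ j ∈ range r, (-(s : ℂ) ^ 2 / 2) ^ j / (j.factorial : ℂ) := by
  induction r with
  | zero => simp
  | succ r ih =>
    rw [show 2 * (r + 1) = 2 * r + 1 + 1 by ring, Finset.sum_range_succ, Finset.sum_range_succ,
      ih, Finset.sum_range_succ, gm_odd]
    simp only [Complex.ofReal_zero, mul_zero, add_zero]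
    congr 1
    have h := gm_even r
    have h' : (gm (2 * r) : ℂ) * (2 ^ r * (r.factorial : ℂ)) = ((2 * r).factorial : ℂ) := by
      exact_mod_cast h
    have h1 : ((2 * r).factorial : ℂ) ≠ 0 := by exact_mod_cast (2 * r).factorial_ne_zero
    have h2 : (r.factorial : ℂ) ≠ 0 := by exact_mod_cast r.factorial_ne_zero
    have h3 : ((s : ℂ) * Complex.I) ^ (2 * r) = (-(s : ℂ) ^ 2) ^ r := by
      rw [pow_mul, mul_pow, Complex.I_sq]
      congr 1
      ring
    rw [h3, div_pow, ← h']
    have h4 : (gm (2 * r) : ℂ) ≠ 0 := by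
      intro h5
      rw [h5, zero_mul] at h'
      exact h1 h'.symm
    field_simp

lemma tail_eq (s : ℝ) (r : ℕ) :
    |s| ^ (2 * r) / ((2 * r).factorial : ℝ) * gm (2 * r) = (s ^ 2 / 2) ^ r / (r.factorial : ℝ) := by
  have h := gm_even r
  have h1 : ((2 * r).factorial : ℝ) ≠ 0 := by exact_mod_cast (2 * r).factorial_ne_zero
  have h2 : (r.factorial : ℝ) ≠ 0 := by exact_mod_cast r.factorial_ne_zero
  have h4 : gm (2 * r) ≠ 0 := by
    intro h5
    rw [h5, zero_mul] at h
    exact h1 h.symm
  rw [← h, pow_mul, sq_abs, div_pow]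
  field_simp

/-- uniform measure on the values -/
noncomputable def um (A : Finset ℕ) (Z : ℕ → ℝ) : Measure ℝ :=
  (A.card : ENNReal)⁻¹ • ∑ a ∈ A, Measure.dirac (Z a)

lemma um_prob (A : Finset ℕ) (Z : ℕ → ℝ) (hA : A.Nonempty) : IsProbabilityMeasure (um A Z) := by
  constructor
  unfold um
  rw [Measure.smul_apply, Measure.finsetSum_apply]
  simp only [measure_univ, Finset.sum_const, nsmul_eq_mul, mul_one, smul_eq_mul]
  apply ENNReal.inv_mul_cancel
  · exact_mod_cast hA.card_pos.ne'
  · exact ENNReal.natCast_ne_top _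

lemma um_integral (A : Finset ℕ) (Z : ℕ → ℝ) (f : ℝ → ℂ) :
    ∫ x, f x ∂(um A Z) = (∑ a ∈ A, f (Z a)) / (A.card : ℂ) := by
  unfold um
  rw [integral_smul_measure, integral_finsetSum_measure]
  · simp only [integral_dirac]
    rw [ENNReal.toReal_inv, ENNReal.toReal_natCast, Complex.real_smul]
    push_cast
    rw [div_eq_inv_mul]
  · intro a _
    apply integrable_dirac
    exact enorm_lt_top

lemma um_Iic (A : Finset ℕ) (Z : ℕ → ℝ) (t : ℝ) :
    (um A Z).real (Set.Iic t) = ((A.filter (fun a => Z a ≤ t)).card : ℝ) / (A.card : ℝ) := by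
  unfold um
  rw [Measure.real, Measure.smul_apply, Measure.finsetSum_apply]
  have h : ∀ a ∈ A, (Measure.dirac (Z a)) (Set.Iic t) = if Z a ≤ t then 1 else 0 := by
    intro a _
    rw [Measure.dirac_apply' _ measurableSet_Iic, Set.indicator_apply]
    rfl
  rw [Finset.sum_congr rfl h, ← Finset.sum_filter, Finset.sum_const, nsmul_eq_mul, mul_one,
    smul_eq_mul, ENNReal.toReal_mul, ENNReal.toReal_inv, ENNReal.toReal_natCast,
    ENNReal.toReal_natCast, div_eq_inv_mul]

end MM

open MM

theorem mm : SMm := by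
  intro A Z hA hmom t
  -- characteristic functions
  have hchar : ∀ s : ℝ, Tendsto (fun n => (∑ a ∈ A n, Complex.exp (((s * Z n a : ℝ) : ℂ) *
      Complex.I)) / ((A n).card : ℂ)) atTop (𝓝 (Complex.exp (-(s : ℂ) ^ 2 / 2))) := by
    intro s
    rw [Metric.tendsto_atTop]
    intro ε hε
    have hr1 : Tendsto (fun r : ℕ => ∑ j ∈ range r, (-(s : ℂ) ^ 2 / 2) ^ j / (j.factorial : ℂ))
        atTop (𝓝 (Complex.exp (-(s : ℂ) ^ 2 / 2))) := by
      have := NormedSpace.expSeries_div_hasSum_exp (𝔸 := ℂ) (-(s : ℂ) ^ 2 / 2)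
      rw [← Complex.exp_eq_exp_ℂ] at this
      exact this.tendsto_sum_nat
    have hr2 : Tendsto (fun r : ℕ => (s ^ 2 / 2) ^ r / (r.factorial : ℝ)) atTop (𝓝 0) :=
      FloorSemiring.tendsto_pow_div_factorial_atTop _
    obtain ⟨r, hra, hrb⟩ := ((Metric.tendsto_nhds.mp hr1 (ε / 4) (by positivity)).and
      (hr2.eventually (gt_mem_nhds (show (0 : ℝ) < ε / 4 by positivity)))).exists
    rw [← partial_sum] at hra
    rw [← tail_eq] at hrb
    -- the polynomial part
    have hp : Tendsto (fun n => ∑ k ∈ range (2 * r), ((s : ℂ) * Complex.I) ^ k / (k.factorial : ℂ) *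
        (((∑ a ∈ A n, Z n a ^ k) / ((A n).card : ℝ) : ℝ) : ℂ)) atTop
        (𝓝 (∑ k ∈ range (2 * r), ((s : ℂ) * Complex.I) ^ k / (k.factorial : ℂ) * (gm k : ℂ))) := by
      apply tendsto_finsetSum
      intro k _
      apply Tendsto.const_mul
      exact (Complex.continuous_ofReal.tendsto _).comp (hmom k)
    have ht : Tendsto (fun n => |s| ^ (2 * r) / ((2 * r).factorial : ℝ) *
        ((∑ a ∈ A n, Z n a ^ (2 * r)) / ((A n).card : ℝ))) atTop
        (𝓝 (|s| ^ (2 * r) / ((2 * r).factorial : ℝ) * gm (2 * r))) :=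
      (hmom (2 * r)).const_mul _
    have e1 := Metric.tendsto_nhds.mp hp (ε / 4) (by positivity)
    have e2 := ht.eventually (gt_mem_nhds hrb)
    obtain ⟨N, hN⟩ := eventually_atTop.mp (e1.and e2)
    refine ⟨N, fun n hn => ?_⟩
    obtain ⟨f1, f2⟩ := hN n hn
    have hc : (0 : ℝ) < ((A n).card : ℝ) := by exact_mod_cast (hA n).card_pos
    have hcc : ((A n).card : ℂ) ≠ 0 := by exact_mod_cast (hA n).card_pos.ne'
    -- Taylor
    have hT : ‖(∑ a ∈ A n, Complex.exp (((s * Z n a : ℝ) : ℂ) * Complex.I)) / ((A n).card : ℂ) -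
        ∑ k ∈ range (2 * r), ((s : ℂ) * Complex.I) ^ k / (k.factorial : ℂ) *
          (((∑ a ∈ A n, Z n a ^ k) / ((A n).card : ℝ) : ℝ) : ℂ)‖ ≤
        |s| ^ (2 * r) / ((2 * r).factorial : ℝ) *
          ((∑ a ∈ A n, Z n a ^ (2 * r)) / ((A n).card : ℝ)) := by
      have g1 : (∑ a ∈ A n, Complex.exp (((s * Z n a : ℝ) : ℂ) * Complex.I)) / ((A n).card : ℂ) -
        ∑ k ∈ range (2 * r), ((s : ℂ) * Complex.I) ^ k / (k.factorial : ℂ) *
          (((∑ a ∈ A n, Z n a ^ k) / ((A n).card : ℝ) : ℝ) : ℂ) =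
          (∑ a ∈ A n, (Complex.exp (((s * Z n a : ℝ) : ℂ) * Complex.I) -
            ∑ k ∈ range (2 * r), (((s * Z n a : ℝ) : ℂ) * Complex.I) ^ k / (k.factorial : ℂ))) /
            ((A n).card : ℂ) := by
        rw [Finset.sum_sub_distrib, sub_div]
        congr 1
        rw [Finset.sum_comm, Finset.sum_div]
        apply Finset.sum_congr rfl
        intro k _
        push_cast
        rw [Finset.sum_div, Finset.mul_sum, Finset.sum_div]
        apply Finset.sum_congr rfl
        intro a _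
        ring
      rw [g1, norm_div, Complex.norm_natCast, mul_div_assoc', div_le_div_iff_of_pos_right hc]
      refine (norm_sum_le _ _).trans ?_
      rw [Finset.mul_sum]
      apply Finset.sum_le_sum
      intro a _
      refine (taylor' (s * Z n a) (2 * r)).trans (le_of_eq ?_)
      rw [abs_mul, mul_pow]
      have : |Z n a| ^ (2 * r) = Z n a ^ (2 * r) := by
        rw [pow_mul, pow_mul, sq_abs]
      rw [this]
      ring
    rw [dist_eq_norm] at f1 hra ⊢
    have tri : ∀ a b c d : ℂ, ‖a - d‖ ≤ ‖a - b‖ + ‖b - c‖ + ‖c - d‖ := by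
      intro a b c d
      have : a - d = (a - b) + (b - c) + (c - d) := by ring
      rw [this]
      exact (norm_add_le _ _).trans (add_le_add_left (norm_add_le _ _) _)
    refine (tri _ _ _ _).trans_lt ((add_lt_add (add_lt_add (hT.trans_lt f2) f1) hra).trans ?_)
    linarith
  -- weak convergence
  let μ : ℕ → ProbabilityMeasure ℝ := fun n => ⟨um (A n) (Z n), um_prob _ _ (hA n)⟩
  let μ₀ : ProbabilityMeasure ℝ := ⟨gaussianReal 0 1, inferInstance⟩
  have hw : Tendsto μ atTop (𝓝 μ₀) := by
    rw [ProbabilityMeasure.tendsto_iff_tendsto_charFun]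
    intro s
    have h1 : charFun (μ₀ : Measure ℝ) s = Complex.exp (-(s : ℂ) ^ 2 / 2) := by
      change charFun (gaussianReal 0 1) s = _
      rw [charFun_gaussianReal]
      congr 1
      push_cast
      ring
    rw [h1]
    refine (hchar s).congr fun n => ?_
    change _ = charFun (um (A n) (Z n)) s
    rw [charFun_apply_real, um_integral]
    congr 1
    apply Finset.sum_congr rfl
    intro a _
    congr 1
    push_cast
    ring
  have h2 := ProbabilityMeasure.tendsto_measure_of_null_frontier_of_tendsto' hw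
    (E := Set.Iic t) (by
      change gaussianReal 0 1 (frontier (Set.Iic t)) = 0
      rw [frontier_Iic]
      have := nullSingletonClass_gaussianReal (μ := 0) (v := 1) one_ne_zero
      exact measure_singleton t)
  have h3 := (ENNReal.tendsto_toReal (measure_ne_top (μ₀ : Measure ℝ) (Set.Iic t))).comp h2
  rw [cdf_eq_real]
  refine h3.congr fun n => ?_
  exact um_Iic (A n) (Z n) t

end Pool.Agent.W815.RGE
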