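import Pool.Agent.W815.RGC.StmG
import Pool.Agent.W815.RGC.Sqf

set_option autoImplicit false

/-!
# Project RGE: the number of squarefree integers in windows
-/

namespace Pool.Agent.W815.RGE

open Finset Filter Topology Pool.Agent.W815.RGC Pool.Agent.W815.RGC.SqfAux

namespace NavAux

theorem sum_win (f : ℕ → ℝ) (a K : ℕ) :
    ∑ n ∈ Ioc a (a + K), f n = ∑ j ∈ range K, f (j + a + 1) := by
  induction K with
  | zero => simp
  | succ K ih =>
    rw [← add_assoc, Finset.sum_Ioc_succ_top (by omega : a ≤ a + K), ih, Finset.sum_range_succ]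
    congr 2
    omega

/-- number of the multiples of `d ^ 2` in a window -/
noncomputable def cnt (a K d : ℕ) : ℝ := ∑ n ∈ Ioc a (a + K), if d ^ 2 ∣ n then (1 : ℝ) else 0

theorem cnt_nonneg (a K d : ℕ) : 0 ≤ cnt a K d :=
  Finset.sum_nonneg fun n _ => by split_ifs <;> norm_num

theorem cnt_zero (N d : ℕ) :
    ∑ n ∈ Ioc 0 N, (if d ^ 2 ∣ n then (1 : ℝ) else 0) = ((N / d ^ 2 : ℕ) : ℝ) := by
  rw [← Finset.sum_filter, Finset.sum_const, Nat.Ioc_filter_dvd_card_eq_div, nsmul_eq_mul, mul_one]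

theorem cnt_eq (a K d : ℕ) :
    cnt a K d = (((a + K) / d ^ 2 : ℕ) : ℝ) - ((a / d ^ 2 : ℕ) : ℝ) := by
  unfold cnt
  rw [← cnt_zero, ← cnt_zero, ← Finset.sum_Ioc_consecutive _ (Nat.zero_le a) (by omega : a ≤ a + K)]
  ring

theorem cnt_approx (a K d : ℕ) : |cnt a K d - (K : ℝ) * (1 / (d : ℝ) ^ 2)| ≤ 1 := by
  obtain ⟨h1, h2⟩ := floor_bounds (a + K) d
  obtain ⟨h3, h4⟩ := floor_bounds a d
  rw [cnt_eq, abs_le]
  push_cast at h1 h2
  constructor <;> nlinarith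

theorem Nn_eq (a K M : ℕ) (h : a + K ≤ M) : Nn a K = ∑ d ∈ Ioc 0 M, mu d * cnt a K d := by
  classical
  unfold Nn
  rw [Finset.card_filter]
  push_cast
  have h1 : ∀ n ∈ Ioc a (a + K), (if Squarefree n then (1 : ℝ) else 0) =
      ∑ d ∈ Ioc 0 M, if d ^ 2 ∣ n then mu d else 0 := by
    intro n hn
    rw [Finset.mem_Ioc] at hn
    exact ind_eq n M (by omega) (by omega) _
  calc _ = ∑ n ∈ Ioc a (a + K), ∑ d ∈ Ioc 0 M, (if d ^ 2 ∣ n then mu d else 0) := by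
        rw [← Finset.sum_congr rfl h1]
    _ = ∑ d ∈ Ioc 0 M, ∑ n ∈ Ioc a (a + K), (if d ^ 2 ∣ n then mu d else 0) := Finset.sum_comm
    _ = _ := by
        refine Finset.sum_congr rfl fun d _ => ?_
        unfold cnt
        rw [Finset.mul_sum]
        refine Finset.sum_congr rfl fun n _ => ?_
        split_ifs <;> simp

theorem tail_le (D M : ℕ) (hD : D ≠ 0) (hDM : D ≤ M) :
    ∑ d ∈ Ioc D M, (1 / (d : ℝ) ^ 2) ≤ 1 / (D : ℝ) := by
  have h1 : ∑ d ∈ Ioc D M, (1 / (d : ℝ) ^ 2) = ∑ d ∈ Ioc D M, ((d : ℝ) ^ 2)⁻¹ :=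
    Finset.sum_congr rfl fun d _ => one_div _
  rw [h1]
  refine (sum_Ioc_inv_sq_le_sub hD hDM).trans ?_
  have : (0 : ℝ) ≤ (M : ℝ)⁻¹ := inv_nonneg.2 (Nat.cast_nonneg _)
  rw [one_div]
  linarith

theorem window (a K M D : ℕ) (hD : D ≠ 0) (hDM : D ≤ M) (h : a + K ≤ M) :
    |Nn a K - K * ∑ d ∈ Ioc 0 M, mu d * (1 / (d : ℝ) ^ 2)| ≤
      (D : ℝ) + (K : ℝ) / D + ∑ d ∈ Ioc D M, cnt a K d := by
  rw [Nn_eq a K M h, Finset.mul_sum, ← Finset.sum_sub_distrib]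
  have e : ∀ d, mu d * cnt a K d - (K : ℝ) * (mu d * (1 / (d : ℝ) ^ 2)) =
      mu d * (cnt a K d - (K : ℝ) * (1 / (d : ℝ) ^ 2)) := fun d => by ring
  rw [← Finset.sum_Ioc_consecutive _ (Nat.zero_le D) hDM]
  refine (abs_add_le _ _).trans ?_
  rw [add_assoc]
  apply add_le_add
  · calc |∑ d ∈ Ioc 0 D, (mu d * cnt a K d - (K : ℝ) * (mu d * (1 / (d : ℝ) ^ 2)))|
        ≤ ∑ d ∈ Ioc 0 D, |mu d * cnt a K d - (K : ℝ) * (mu d * (1 / (d : ℝ) ^ 2))| :=
          Finset.abs_sum_le_sum_abs _ _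
      _ ≤ ∑ _d ∈ Ioc 0 D, (1 : ℝ) := by
          refine Finset.sum_le_sum fun d _ => ?_
          rw [e, abs_mul]
          calc |mu d| * |cnt a K d - (K : ℝ) * (1 / (d : ℝ) ^ 2)| ≤ 1 * 1 :=
                mul_le_mul (abs_mu_le d) (cnt_approx a K d) (abs_nonneg _) zero_le_one
            _ = 1 := one_mul 1
      _ = D := by simp
  · calc |∑ d ∈ Ioc D M, (mu d * cnt a K d - (K : ℝ) * (mu d * (1 / (d : ℝ) ^ 2)))|
        ≤ ∑ d ∈ Ioc D M, |mu d * cnt a K d - (K : ℝ) * (mu d * (1 / (d : ℝ) ^ 2))| :=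
          Finset.abs_sum_le_sum_abs _ _
      _ ≤ ∑ d ∈ Ioc D M, ((K : ℝ) * (1 / (d : ℝ) ^ 2) + cnt a K d) := by
          refine Finset.sum_le_sum fun d _ => ?_
          rw [e, abs_mul]
          have h1 : (0 : ℝ) ≤ (K : ℝ) * (1 / (d : ℝ) ^ 2) := by positivity
          have h2 := cnt_nonneg a K d
          have h3 : |cnt a K d - (K : ℝ) * (1 / (d : ℝ) ^ 2)| ≤
              (K : ℝ) * (1 / (d : ℝ) ^ 2) + cnt a K d := by
            rw [abs_le]
            constructor <;> linarith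
          calc |mu d| * |cnt a K d - (K : ℝ) * (1 / (d : ℝ) ^ 2)| ≤
                1 * ((K : ℝ) * (1 / (d : ℝ) ^ 2) + cnt a K d) :=
                mul_le_mul (abs_mu_le d) h3 (abs_nonneg _) zero_le_one
            _ = _ := one_mul _
      _ = K * ∑ d ∈ Ioc D M, (1 / (d : ℝ) ^ 2) + ∑ d ∈ Ioc D M, cnt a K d := by
          rw [Finset.sum_add_distrib, Finset.mul_sum]
      _ ≤ K * (1 / (D : ℝ)) + ∑ d ∈ Ioc D M, cnt a K d := by
          have := mul_le_mul_of_nonneg_left (tail_le D M hD hDM) (Nat.cast_nonneg (α := ℝ) K)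
          linarith
      _ = _ := by rw [mul_one_div]

theorem sum_cnt (B K d : ℕ) (hKB : K ≤ B) :
    ∑ a ∈ range (3 * B), cnt a K d ≤ (K : ℝ) * (4 * B) * (1 / (d : ℝ) ^ 2) := by
  set f : ℕ → ℝ := fun n => if d ^ 2 ∣ n then (1 : ℝ) else 0 with hf
  have hf0 : ∀ n, 0 ≤ f n := fun n => by
    simp only [hf]
    split_ifs <;> norm_num
  calc ∑ a ∈ range (3 * B), cnt a K d = ∑ a ∈ range (3 * B), ∑ j ∈ range K, f (j + a + 1) :=
        Finset.sum_congr rfl fun a _ => sum_win f a K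
    _ = ∑ j ∈ range K, ∑ a ∈ range (3 * B), f (j + a + 1) := Finset.sum_comm
    _ ≤ ∑ _j ∈ range K, ((4 * B : ℕ) : ℝ) * (1 / (d : ℝ) ^ 2) := by
        refine Finset.sum_le_sum fun j hj => ?_
        rw [Finset.mem_range] at hj
        have h1 : ∑ a ∈ range (3 * B), f (j + a + 1) = ∑ n ∈ Ioc j (j + 3 * B), f n := by
          rw [sum_win]
          refine Finset.sum_congr rfl fun a _ => ?_
          rw [add_comm j a]
        rw [h1]
        calc ∑ n ∈ Ioc j (j + 3 * B), f n ≤ ∑ n ∈ Ioc 0 (4 * B), f n := by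
              refine Finset.sum_le_sum_of_subset_of_nonneg ?_ fun n _ _ => hf0 n
              intro n hn
              rw [Finset.mem_Ioc] at hn ⊢
              omega
          _ = ((4 * B / d ^ 2 : ℕ) : ℝ) := cnt_zero _ _
          _ ≤ _ := by
              have := (floor_bounds (4 * B) d).1
              linarith
    _ = _ := by
        rw [Finset.sum_const, card_range, nsmul_eq_mul]
        push_cast
        ring

theorem total (B K M D : ℕ) (hD : D ≠ 0) (hDM : D ≤ M) (hKB : K ≤ B) (h : 4 * B ≤ M) :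
    ∑ a ∈ range (3 * B), |Nn a K - K * ∑ d ∈ Ioc 0 M, mu d * (1 / (d : ℝ) ^ 2)| ≤
      3 * B * ((D : ℝ) + (K : ℝ) / D) + 4 * B * ((K : ℝ) / D) := by
  calc ∑ a ∈ range (3 * B), |Nn a K - K * ∑ d ∈ Ioc 0 M, mu d * (1 / (d : ℝ) ^ 2)|
      ≤ ∑ a ∈ range (3 * B), ((D : ℝ) + (K : ℝ) / D + ∑ d ∈ Ioc D M, cnt a K d) := by
        refine Finset.sum_le_sum fun a ha => ?_
        rw [Finset.mem_range] at ha
        exact window a K M D hD hDM (by omega)
    _ = 3 * B * ((D : ℝ) + (K : ℝ) / D) + ∑ d ∈ Ioc D M, ∑ a ∈ range (3 * B), cnt a K d := by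
        rw [Finset.sum_add_distrib, Finset.sum_const, card_range, nsmul_eq_mul, Finset.sum_comm]
        push_cast
        ring
    _ ≤ 3 * B * ((D : ℝ) + (K : ℝ) / D) +
          ∑ d ∈ Ioc D M, (K : ℝ) * (4 * B) * (1 / (d : ℝ) ^ 2) := by
        gcongr with d _
        exact sum_cnt B K d hKB
    _ = 3 * B * ((D : ℝ) + (K : ℝ) / D) +
          (K : ℝ) * (4 * B) * ∑ d ∈ Ioc D M, (1 / (d : ℝ) ^ 2) := by
        rw [Finset.mul_sum]
    _ ≤ 3 * B * ((D : ℝ) + (K : ℝ) / D) + (K : ℝ) * (4 * B) * (1 / (D : ℝ)) := by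
        have := tail_le D M hD hDM
        gcongr
    _ = _ := by ring

theorem mu_tendsto : Tendsto (fun M : ℕ => ∑ d ∈ Ioc 0 M, mu d * (1 / (d : ℝ) ^ 2)) atTop
    (𝓝 (6 / Real.pi ^ 2)) := by
  have h := mu_hasSum.tendsto_sum_nat.comp (tendsto_add_atTop_nat 1)
  refine h.congr fun M => ?_
  simp only [Function.comp_apply]
  rw [Finset.range_eq_Ico, Finset.sum_eq_sum_Ico_succ_bot (by omega)]
  have e : Finset.Ico (0 + 1) (M + 1) = Ioc 0 M := by
    ext x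
    simp only [Finset.mem_Ico, Finset.mem_Ioc]
    omega
  rw [e]
  simp

theorem total_lim (B K D : ℕ) (hD : D ≠ 0) (hKB : K ≤ B) :
    ∑ a ∈ range (3 * B), |Nn a K - 6 / Real.pi ^ 2 * K| ≤
      3 * B * ((D : ℝ) + (K : ℝ) / D) + 4 * B * ((K : ℝ) / D) := by
  have ht : Tendsto (fun M : ℕ => ∑ a ∈ range (3 * B),
      |Nn a K - K * ∑ d ∈ Ioc 0 M, mu d * (1 / (d : ℝ) ^ 2)|) atTop
      (𝓝 (∑ a ∈ range (3 * B), |Nn a K - K * (6 / Real.pi ^ 2)|)) :=
    tendsto_finsetSum _ fun a _ => ((mu_tendsto.const_mul _).const_sub _).abs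
  have h := le_of_tendsto ht (b := 3 * B * ((D : ℝ) + (K : ℝ) / D) + 4 * B * ((K : ℝ) / D)) (by
    filter_upwards [eventually_ge_atTop (max (4 * B) D)] with M hM
    exact total B K M D hD ((le_max_right _ _).trans hM) hKB ((le_max_left _ _).trans hM))
  rw [mul_comm (K : ℝ) (6 / Real.pi ^ 2)] at h
  exact h

end NavAux

theorem nav : SNav := by
  refine ⟨17, by norm_num, fun B K hK hKB => ?_⟩
  have hs : 1 ≤ Nat.sqrt K := by
    rw [Nat.le_sqrt]
    omega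
  refine (NavAux.total_lim B K (Nat.sqrt K) (by omega) hKB).trans ?_
  have h1 : ((Nat.sqrt K : ℕ) : ℝ) ≤ Real.sqrt K := Real.nat_sqrt_le_real_sqrt
  have h2 : Real.sqrt K ≤ (Nat.sqrt K : ℝ) + 1 := Real.real_sqrt_le_nat_sqrt_succ
  have h3 : (1 : ℝ) ≤ (Nat.sqrt K : ℝ) := by exact_mod_cast hs
  have h4 : (K : ℝ) / (Nat.sqrt K : ℝ) ≤ 2 * Real.sqrt K := by
    rw [div_le_iff₀ (by linarith)]
    have h5 : Real.sqrt K * Real.sqrt K = K := Real.mul_self_sqrt (Nat.cast_nonneg _)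
    have h6 : Real.sqrt K ≤ 2 * (Nat.sqrt K : ℝ) := by linarith
    have h7 : 0 ≤ Real.sqrt K := Real.sqrt_nonneg _
    nlinarith
  have hB : (0 : ℝ) ≤ B := Nat.cast_nonneg _
  calc 3 * (B : ℝ) * ((Nat.sqrt K : ℝ) + (K : ℝ) / (Nat.sqrt K : ℝ)) +
        4 * B * ((K : ℝ) / (Nat.sqrt K : ℝ))
      ≤ 3 * (B : ℝ) * (Real.sqrt K + 2 * Real.sqrt K) + 4 * B * (2 * Real.sqrt K) := by
        gcongr
    _ = 17 * B * Real.sqrt K := by ring

end Pool.Agent.W815.RGE
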