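import Pool.Agent.W815.RGC.StmG

set_option autoImplicit false

/-!
QBP: assembly of the second moment bound (by helper521 for project RGE)
-/

namespace Pool.Agent.W815.RGE

open Finset MeasureTheory Filter Topology Pool.Agent.Helper497.HS Pool.Agent.H595R2.PTF
open Pool.Agent.W815.RGC

theorem qbp_cs {M : ℕ} (G P : (Fin M → ℤˣ) → ℝ) (g p : ℝ) (hg : 0 ≤ g) (hp : 0 ≤ p)
    (h1 : nsq G ≤ g ^ 2) (h2 : Ex (fun x => P x ^ 2) ≤ p ^ 2) :
    Ex (fun x => G x * P x) ≤ g * p := by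
  have h3 := Ex_mul_sq_le G P
  have h4 : Ex (fun ω => G ω ^ 2) * Ex (fun ω => P ω ^ 2) ≤ (g * p) ^ 2 := by
    rw [mul_pow]
    exact mul_le_mul h1 h2 (Ex_nonneg fun _ => sq_nonneg _) (sq_nonneg _)
  exact abs_le_of_sq_le_sq' (h3.trans h4) (mul_nonneg hg hp) |>.2

theorem qbp_nsq {M : ℕ} (s : Finset ℕ) (w : ℕ → ℝ) (F : ℕ → (Fin M → ℤˣ) → ℝ) :
    nsq (fun x => ∑ a ∈ s, w a * F a x) =
      ∑ a ∈ s, ∑ b ∈ s, (w a * w b) * Ex (fun x => F a x * F b x) := by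
  unfold nsq
  have h1 : ∀ x : Fin M → ℤˣ, (∑ a ∈ s, w a * F a x) ^ 2 =
      ∑ a ∈ s, ∑ b ∈ s, (w a * w b) * (F a x * F b x) := by
    intro x
    rw [sq, Finset.sum_mul_sum]
    refine Finset.sum_congr rfl (fun a _ => Finset.sum_congr rfl (fun b _ => ?_))
    ring
  rw [Ex_congr h1, Ex_sum s (fun a x => ∑ b ∈ s, (w a * w b) * (F a x * F b x))]
  refine Finset.sum_congr rfl (fun a _ => ?_)
  rw [Ex_sum s (fun b x => (w a * w b) * (F a x * F b x))]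
  refine Finset.sum_congr rfl (fun b _ => ?_)
  rw [Ex_const_mul]

theorem qbp_sumsqrt (s : Finset ℕ) (t : ℕ → ℕ → ℝ) (n T R : ℝ) (ht : ∀ a b, 0 ≤ t a b)
    (hn : (s.card : ℝ) ≤ n) (hn0 : 0 ≤ n) (hT : ∑ a ∈ s, ∑ b ∈ s, t a b ≤ T) (hR : 0 ≤ R)
    (h : n ^ 2 * T ≤ R ^ 2) : ∑ a ∈ s, ∑ b ∈ s, Real.sqrt (t a b) ≤ R := by
  have h1 := sq_sum_le_card_mul_sum_sq (s := s ×ˢ s) (f := fun p : ℕ × ℕ => Real.sqrt (t p.1 p.2))
  rw [Finset.sum_product, Finset.sum_product, Finset.card_product] at h1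
  have h2 : ∑ a ∈ s, ∑ b ∈ s, Real.sqrt (t a b) ^ 2 = ∑ a ∈ s, ∑ b ∈ s, t a b := by
    refine Finset.sum_congr rfl (fun a _ => Finset.sum_congr rfl (fun b _ => ?_))
    exact Real.sq_sqrt (ht a b)
  simp only [h2] at h1
  have h3 : ((s.card * s.card : ℕ) : ℝ) ≤ n ^ 2 := by
    push_cast
    nlinarith [hn, hn0, Nat.cast_nonneg (α := ℝ) s.card]
  have h0 : 0 ≤ ∑ a ∈ s, ∑ b ∈ s, t a b :=
    Finset.sum_nonneg (fun a _ => Finset.sum_nonneg (fun b _ => ht a b))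
  have h4 : (∑ a ∈ s, ∑ b ∈ s, Real.sqrt (t a b)) ^ 2 ≤ R ^ 2 := by
    refine h1.trans (le_trans ?_ h)
    exact mul_le_mul h3 hT h0 (sq_nonneg _)
  exact (abs_le_of_sq_le_sq' h4 hR).2

theorem qbp_Nn (a K : ℕ) : 0 ≤ Nn a K ∧ Nn a K ≤ K := by
  unfold Nn
  refine ⟨Nat.cast_nonneg _, ?_⟩
  have h1 := Finset.card_filter_le (Ioc a (a + K)) (fun n => Squarefree n)
  rw [Nat.card_Ioc, Nat.add_sub_cancel_left] at h1
  exact_mod_cast (by convert h1)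

theorem qbp : SQbp := by
  intro hDeg hHyp hHol hGcd hSplit hSame hCnt hCross
  intro ε j m hε hε1 hj
  obtain ⟨J, rfl⟩ : ∃ J, j = J + 1 := ⟨j - 1, by omega⟩
  set θ : ℝ := 1 / (2 * (J : ℝ) + 1) with hθdef
  have hθ : 0 < θ := by positivity
  obtain ⟨c1, C1, hc1, hC1, H1⟩ := hSame ε θ hε hε1 hθ
  obtain ⟨c2, C2, hc2, hC2, H2⟩ := hCross hCnt ε θ hε hε1 hθ
  set c0 : ℝ := min c1 c2 with hc0def
  have hc0 : 0 < c0 := lt_min hc1 hc2
  have hc01 : c0 ≤ c1 := min_le_left _ _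
  have hc02 : c0 ≤ c2 := min_le_right _ _
  set η : ℝ := c0 / (4 * ((J : ℝ) + 1)) with hηdef
  have hη : 0 < η := by positivity
  obtain ⟨i, hi⟩ : ∃ i, 2 * J ≤ 2 ^ i := ⟨2 * J, (Nat.lt_two_pow_self).le⟩
  obtain ⟨C0, hC0, HD⟩ := hDeg (3 ^ i) η (Nat.one_le_pow _ _ (by norm_num)) hη
  set Cf : ℝ := 2 * C0 ^ J * (5 : ℝ) ^ (c0 / 4) *
    (4 * J * Real.sqrt C1 + 2 * (J + 1) * Real.sqrt C2) with hCf
  have hsC1 : 0 < Real.sqrt C1 := Real.sqrt_pos.2 hC1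
  have hsC2 : 0 < Real.sqrt C2 := Real.sqrt_pos.2 hC2
  have hJ0 : (0 : ℝ) ≤ J := Nat.cast_nonneg J
  refine ⟨c0 / 4, Cf, by positivity, by positivity, ?_⟩
  intro B B' K hB hB' hK hKB
  have hB1 : (1 : ℝ) ≤ B := by exact_mod_cast hB
  have hB0 : (0 : ℝ) < B := by linarith
  have hK1 : (1 : ℝ) ≤ K := by exact_mod_cast hK
  have hK0 : (0 : ℝ) < K := by linarith
  have hKBr : (K : ℝ) ≤ B := by
    refine hKB.trans ?_
    calc (B : ℝ) ^ (1 - ε) ≤ (B : ℝ) ^ (1 : ℝ) :=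
          Real.rpow_le_rpow_of_exponent_le hB1 (by linarith)
      _ = B := Real.rpow_one _
  have hKBn : K ≤ B := by exact_mod_cast hKBr
  set M : ℕ := 3 * B + K + 1 with hM
  obtain ⟨d, hd, hd2⟩ := HD M (by omega)
  -- the constant Q
  set Q : ℝ := C0 * (5 * (B : ℝ)) ^ η * K with hQ
  have hQ0 : 0 < Q := by positivity
  have hLam : (3 : ℝ) ^ (i * d) * K ≤ Q := by
    rw [hQ]
    apply mul_le_mul_of_nonneg_right _ hK0.le
    have h1 : (3 : ℝ) ^ (i * d) = (((3 ^ i : ℕ) : ℝ)) ^ d := by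
      push_cast
      rw [pow_mul]
    rw [h1]
    refine hd2.trans ?_
    apply mul_le_mul_of_nonneg_left _ hC0.le
    apply Real.rpow_le_rpow (Nat.cast_nonneg _) _ hη.le
    have : M ≤ 5 * B := by omega
    exact_mod_cast this
  -- the bound for the powers of the window sums
  have hP : ∀ a b p q : ℕ, a + K < M → b + K < M → p + q = 2 * J →
      Ex (fun x : Fin M → ℤˣ => (W (cf M x) a K ^ p * W (cf M x) b K ^ q) ^ 2) ≤
        (2 * Q ^ J) ^ 2 := by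
    intro a b p q ha hb hpq
    refine (hHol hHyp M a b K d i p q ha hb hd (by omega)).trans ?_
    rw [hpq]
    have h5 : ((3 : ℝ) ^ (i * d) * K) ^ (2 * J) ≤ Q ^ (2 * J) :=
      pow_le_pow_left₀ (by positivity) hLam _
    calc 4 * ((3 : ℝ) ^ (i * d) * K) ^ (2 * J) ≤ 4 * Q ^ (2 * J) := by linarith
      _ = (2 * Q ^ J) ^ 2 := by ring
  -- the bound for Gs
  set s1 : ℝ := Real.sqrt C1 * K * (B : ℝ) ^ (-c1 / 2) with hs1
  have hs10 : 0 ≤ s1 := by positivity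
  have hGs : ∀ a, B ≤ a → a ≤ 3 * B → a + K < M →
      nsq (fun x : Fin M → ℤˣ => Gs (cf M x) ((B : ℝ) ^ θ) a K) ≤ s1 ^ 2 := by
    intro a ha ha3 haM
    refine (H1 M B a K hB ha ha3 hK hKB haM).trans (le_of_eq ?_)
    rw [hs1, mul_pow, mul_pow, Real.sq_sqrt hC1.le, ← Real.rpow_natCast ((B : ℝ) ^ (-c1 / 2)) 2,
      ← Real.rpow_mul hB0.le]
    norm_num
  set t : ℕ → ℕ → ℝ := fun a b =>
    nsq (fun x : Fin M → ℤˣ => Gc (cf M x) ((B : ℝ) ^ θ) a b K) with htdef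
  have ht0 : ∀ a b, 0 ≤ t a b := fun a b => nsq_nonneg _
  have hbd : ∀ a ∈ Ico B B', ∀ b ∈ Ico B B',
      Ex (fun x : Fin M → ℤˣ => S (cf M x) (J + 1) a K * S (cf M x) (J + 1) b K) ≤
        J * (s1 * (2 * Q ^ J)) + (J + 1) * (Real.sqrt (t a b) * (2 * Q ^ J)) := by
    intro a ha b hb
    rw [Finset.mem_Ico] at ha hb
    have haM : a + K < M := by omega
    have hbM : b + K < M := by omega
    refine (hSplit hGcd M J B a b K hB ha.1 hb.1 haM hbM).trans ?_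
    apply add_le_add
    · rcases Nat.eq_zero_or_pos J with hJ | hJ
      · rw [hJ]; simp
      · apply mul_le_mul_of_nonneg_left _ hJ0
        exact qbp_cs _ _ s1 (2 * Q ^ J) hs10 (by positivity)
          (hGs a ha.1 (by omega) haM) (hP a b (J - 1) (J + 1) haM hbM (by omega))
    · apply mul_le_mul_of_nonneg_left _ (by positivity)
      exact qbp_cs _ _ (Real.sqrt (t a b)) (2 * Q ^ J) (Real.sqrt_nonneg _) (by positivity)
        (by rw [Real.sq_sqrt (ht0 a b)]) (hP a b J J haM hbM (by omega))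
  -- the sum over a and b
  have hcard : (((Ico B B').card : ℕ) : ℝ) ≤ 2 * B := by
    rw [Nat.card_Ico]
    have : B' - B ≤ 2 * B := by omega
    exact_mod_cast this
  set R2 : ℝ := 2 * Real.sqrt C2 * (B : ℝ) ^ (2 - c2 / 2) * K with hR2
  have hsum : ∑ a ∈ Ico B B', ∑ b ∈ Ico B B', Real.sqrt (t a b) ≤ R2 := by
    refine qbp_sumsqrt (Ico B B') t (2 * B) (C2 * (B : ℝ) ^ (2 - c2) * (K : ℝ) ^ 2) R2 ht0 hcard
      (by positivity) (H2 M B B' K hB hB' hK hKB (by omega)) (by positivity) (le_of_eq ?_)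
    have e1 : ((B : ℝ) ^ (2 - c2 / 2)) ^ 2 = (B : ℝ) ^ 2 * (B : ℝ) ^ (2 - c2) := by
      rw [← Real.rpow_natCast ((B : ℝ) ^ (2 - c2 / 2)) 2, ← Real.rpow_mul hB0.le,
        ← Real.rpow_natCast (B : ℝ) 2, ← Real.rpow_add hB0]
      congr 1
      push_cast
      ring
    rw [hR2]
    calc (2 * (B : ℝ)) ^ 2 * (C2 * (B : ℝ) ^ (2 - c2) * (K : ℝ) ^ 2)
        = 4 * C2 * ((B : ℝ) ^ 2 * (B : ℝ) ^ (2 - c2)) * (K : ℝ) ^ 2 := by ring
      _ = 4 * (Real.sqrt C2) ^ 2 * ((B : ℝ) ^ (2 - c2 / 2)) ^ 2 * (K : ℝ) ^ 2 := by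
          rw [e1, Real.sq_sqrt hC2.le]
      _ = (2 * Real.sqrt C2 * (B : ℝ) ^ (2 - c2 / 2) * K) ^ 2 := by ring
  have hAA : (fun x : Fin M → ℤˣ => AA (cf M x) (J + 1) m B B' K) =
      fun x => ∑ a ∈ Ico B B', Nn a K ^ m * (fun y : Fin M → ℤˣ => S (cf M y) (J + 1) a K) x := by
    funext x
    rfl
  rw [hAA, qbp_nsq (Ico B B') (fun a => Nn a K ^ m)
    (fun a (y : Fin M → ℤˣ) => S (cf M y) (J + 1) a K)]
  have hstep : ∑ a ∈ Ico B B', ∑ b ∈ Ico B B', (Nn a K ^ m * Nn b K ^ m) *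
      Ex (fun x : Fin M → ℤˣ => S (cf M x) (J + 1) a K * S (cf M x) (J + 1) b K) ≤
      ∑ a ∈ Ico B B', ∑ b ∈ Ico B B', (K : ℝ) ^ (2 * m) *
        (J * (s1 * (2 * Q ^ J)) + (J + 1) * (Real.sqrt (t a b) * (2 * Q ^ J))) := by
    refine Finset.sum_le_sum (fun a ha => Finset.sum_le_sum (fun b hb => ?_))
    obtain ⟨hna, hna'⟩ := qbp_Nn a K
    obtain ⟨hnb, hnb'⟩ := qbp_Nn b K
    have hV : 0 ≤ (J : ℝ) * (s1 * (2 * Q ^ J)) + (J + 1) * (Real.sqrt (t a b) * (2 * Q ^ J)) := by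
      positivity
    refine (mul_le_mul_of_nonneg_left (hbd a ha b hb) (by positivity)).trans ?_
    apply mul_le_mul_of_nonneg_right _ hV
    calc Nn a K ^ m * Nn b K ^ m ≤ (K : ℝ) ^ m * (K : ℝ) ^ m :=
          mul_le_mul (pow_le_pow_left₀ hna hna' m) (pow_le_pow_left₀ hnb hnb' m)
            (by positivity) (by positivity)
      _ = (K : ℝ) ^ (2 * m) := by rw [← pow_add]; congr 1; ring
  refine hstep.trans ?_
  have hcompute : ∑ a ∈ Ico B B', ∑ b ∈ Ico B B', (K : ℝ) ^ (2 * m) *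
        (J * (s1 * (2 * Q ^ J)) + (J + 1) * (Real.sqrt (t a b) * (2 * Q ^ J))) =
      (K : ℝ) ^ (2 * m) * (2 * Q ^ J) * (J * s1 * (((Ico B B').card : ℝ) * ((Ico B B').card : ℝ)) +
        (J + 1) * ∑ a ∈ Ico B B', ∑ b ∈ Ico B B', Real.sqrt (t a b)) := by
    simp only [← Finset.mul_sum, Finset.sum_add_distrib, Finset.sum_const, nsmul_eq_mul,
      ← Finset.sum_mul]
    ring
  rw [hcompute]
  -- the final estimate
  have hb1 : (J : ℝ) * s1 * (((Ico B B').card : ℝ) * ((Ico B B').card : ℝ)) ≤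
      4 * J * Real.sqrt C1 * (K * (B : ℝ) ^ (2 - c0 / 2)) := by
    have h1 : (((Ico B B').card : ℝ) * ((Ico B B').card : ℝ)) ≤ 4 * (B : ℝ) ^ 2 := by
      nlinarith [hcard, Nat.cast_nonneg (α := ℝ) (Ico B B').card, hB0]
    have h2 : (B : ℝ) ^ (-c1 / 2) * (B : ℝ) ^ 2 ≤ (B : ℝ) ^ (2 - c0 / 2) := by
      rw [← Real.rpow_natCast (B : ℝ) 2, ← Real.rpow_add hB0]
      apply Real.rpow_le_rpow_of_exponent_le hB1
      push_cast
      linarith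
    calc (J : ℝ) * s1 * (((Ico B B').card : ℝ) * ((Ico B B').card : ℝ))
        ≤ J * s1 * (4 * (B : ℝ) ^ 2) := mul_le_mul_of_nonneg_left h1 (by positivity)
      _ = 4 * J * Real.sqrt C1 * (K * ((B : ℝ) ^ (-c1 / 2) * (B : ℝ) ^ 2)) := by rw [hs1]; ring
      _ ≤ 4 * J * Real.sqrt C1 * (K * (B : ℝ) ^ (2 - c0 / 2)) := by
          apply mul_le_mul_of_nonneg_left _ (by positivity)
          exact mul_le_mul_of_nonneg_left h2 hK0.le
  have hb2 : ((J : ℝ) + 1) * ∑ a ∈ Ico B B', ∑ b ∈ Ico B B', Real.sqrt (t a b) ≤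
      2 * (J + 1) * Real.sqrt C2 * (K * (B : ℝ) ^ (2 - c0 / 2)) := by
    have h2 : (B : ℝ) ^ (2 - c2 / 2) ≤ (B : ℝ) ^ (2 - c0 / 2) :=
      Real.rpow_le_rpow_of_exponent_le hB1 (by linarith)
    calc ((J : ℝ) + 1) * ∑ a ∈ Ico B B', ∑ b ∈ Ico B B', Real.sqrt (t a b)
        ≤ (J + 1) * R2 := mul_le_mul_of_nonneg_left hsum (by positivity)
      _ = 2 * (J + 1) * Real.sqrt C2 * (K * (B : ℝ) ^ (2 - c2 / 2)) := by rw [hR2]; ring
      _ ≤ 2 * (J + 1) * Real.sqrt C2 * (K * (B : ℝ) ^ (2 - c0 / 2)) := by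
          apply mul_le_mul_of_nonneg_left _ (by positivity)
          exact mul_le_mul_of_nonneg_left h2 hK0.le
  have hQJ : Q ^ J ≤ C0 ^ J * (5 : ℝ) ^ (c0 / 4) * (B : ℝ) ^ (c0 / 4) * (K : ℝ) ^ J := by
    have h1 : ((5 * (B : ℝ)) ^ η) ^ J ≤ (5 : ℝ) ^ (c0 / 4) * (B : ℝ) ^ (c0 / 4) := by
      rw [← Real.mul_rpow (by norm_num) hB0.le, ← Real.rpow_natCast ((5 * (B : ℝ)) ^ η) J,
        ← Real.rpow_mul (by positivity)]
      apply Real.rpow_le_rpow_of_exponent_le (by linarith)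
      rw [hηdef]
      rw [div_mul_eq_mul_div, div_le_div_iff₀ (by positivity) (by norm_num)]
      nlinarith [hc0, hJ0]
    rw [hQ, mul_pow, mul_pow]
    calc C0 ^ J * ((5 * (B : ℝ)) ^ η) ^ J * (K : ℝ) ^ J
        ≤ C0 ^ J * ((5 : ℝ) ^ (c0 / 4) * (B : ℝ) ^ (c0 / 4)) * (K : ℝ) ^ J := by
          apply mul_le_mul_of_nonneg_right _ (by positivity)
          exact mul_le_mul_of_nonneg_left h1 (by positivity)
      _ = _ := by ring
  set Y : ℝ := K * (B : ℝ) ^ (2 - c0 / 2) with hY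
  have hY0 : 0 < Y := by positivity
  calc (K : ℝ) ^ (2 * m) * (2 * Q ^ J) *
        (J * s1 * (((Ico B B').card : ℝ) * ((Ico B B').card : ℝ)) +
        (J + 1) * ∑ a ∈ Ico B B', ∑ b ∈ Ico B B', Real.sqrt (t a b))
      ≤ (K : ℝ) ^ (2 * m) * (2 * Q ^ J) *
        (4 * J * Real.sqrt C1 * Y + 2 * (J + 1) * Real.sqrt C2 * Y) := by
        apply mul_le_mul_of_nonneg_left (add_le_add hb1 hb2) (by positivity)
    _ ≤ (K : ℝ) ^ (2 * m) *
        (2 * (C0 ^ J * (5 : ℝ) ^ (c0 / 4) * (B : ℝ) ^ (c0 / 4) * (K : ℝ) ^ J)) *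
        (4 * J * Real.sqrt C1 * Y + 2 * (J + 1) * Real.sqrt C2 * Y) := by
        apply mul_le_mul_of_nonneg_right _ (by positivity)
        apply mul_le_mul_of_nonneg_left _ (by positivity)
        exact mul_le_mul_of_nonneg_left hQJ (by norm_num)
    _ = Cf * ((B : ℝ) ^ (c0 / 4) * (B : ℝ) ^ (2 - c0 / 2)) *
        ((K : ℝ) ^ (2 * m) * (K : ℝ) ^ J * K) := by rw [hCf, hY]; ring
    _ = Cf * (B : ℝ) ^ (2 - c0 / 4) * (K : ℝ) ^ (2 * m + (J + 1)) := by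
        rw [← Real.rpow_add hB0]
        have e1 : c0 / 4 + (2 - c0 / 2) = 2 - c0 / 4 := by ring
        have e2 : (K : ℝ) ^ (2 * m) * (K : ℝ) ^ J * K = (K : ℝ) ^ (2 * m + (J + 1)) := by
          rw [pow_add, pow_succ]; ring
        rw [e1, e2]

end Pool.Agent.W815.RGE
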