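import Pool.Agent.W815.RGC.StmG
import Pool.Agent.W815.RGC.Det

set_option autoImplicit false

/-!
# Project RGE: from real windows to integer windows (REAL)
-/

namespace Pool.Agent.W815.RGE.RealAux

open Finset MeasureTheory Pool.Agent.W815.RGC Pool.Agent.W815.RGC.DetAux

/-- the window sum with the lower end `y` -/
noncomputable def F (g : ℕ → ℝ) (H y : ℝ) : ℝ := ∑ n ∈ Ioo ⌊y⌋₊ ⌈y + H⌉₊, g n

/-- the set of the good lower ends -/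
def SF (g : ℕ → ℝ) (H τ : ℝ) : Set ℝ := {y | F g H y ≤ τ}

/-- the function which is integrated -/
noncomputable def G1 (g : ℕ → ℝ) (H τ y : ℝ) : ℝ := (SF g H τ).indicator (fun _ => (1 : ℝ)) y

theorem F_meas (g : ℕ → ℝ) (H : ℝ) : Measurable (F g H) := by
  have h1 : Measurable (fun p : ℕ × ℕ => ∑ n ∈ Ioo p.1 p.2, g n) := Measurable.of_discrete
  exact h1.comp (Nat.measurable_floor.prodMk (Nat.measurable_ceil.comp (measurable_id.add_const H)))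

theorem SF_meas (g : ℕ → ℝ) (H τ : ℝ) : MeasurableSet (SF g H τ) :=
  measurableSet_le (F_meas g H) measurable_const

theorem F_fst (g : ℕ → ℝ) (H : ℝ) (hH : 0 ≤ H) (a : ℕ) (y : ℝ) (h1 : (a : ℝ) < y)
    (h2 : y < a + (1 - Int.fract H)) : F g H y = W g a ⌊H⌋₊ := by
  have hf0 := Int.fract_nonneg H
  have hf1 := Int.fract_lt_one H
  have hfl : H = (⌊H⌋₊ : ℝ) + Int.fract H := by
    rw [natCast_floor_eq_intCast_floor hH]
    exact (Int.floor_add_fract H).symm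
  have e1 : ⌊y⌋₊ = a := by
    rw [Nat.floor_eq_iff (by linarith [Nat.cast_nonneg (α := ℝ) a])]
    exact ⟨h1.le, by linarith⟩
  have e2 : ⌈y + H⌉₊ = a + ⌊H⌋₊ + 1 := by
    rw [Nat.ceil_eq_iff (by omega)]
    constructor
    · rw [Nat.add_sub_cancel]
      push_cast
      linarith
    · push_cast
      linarith
  unfold F W
  rw [e1, e2, Ioo_eq]

theorem F_snd (g : ℕ → ℝ) (H : ℝ) (hH : 0 ≤ H) (a : ℕ) (y : ℝ)
    (h1 : a + (1 - Int.fract H) < y) (h2 : y < a + 1) : F g H y = W g a (⌊H⌋₊ + 1) := by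
  have hf0 := Int.fract_nonneg H
  have hf1 := Int.fract_lt_one H
  have hfl : H = (⌊H⌋₊ : ℝ) + Int.fract H := by
    rw [natCast_floor_eq_intCast_floor hH]
    exact (Int.floor_add_fract H).symm
  have e1 : ⌊y⌋₊ = a := by
    rw [Nat.floor_eq_iff (by linarith [Nat.cast_nonneg (α := ℝ) a])]
    exact ⟨by linarith, h2⟩
  have e2 : ⌈y + H⌉₊ = (a + (⌊H⌋₊ + 1)) + 1 := by
    rw [Nat.ceil_eq_iff (by omega)]
    constructor
    · rw [Nat.add_sub_cancel]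
      push_cast
      linarith
    · push_cast
      linarith
  unfold F W
  rw [e1, e2, Ioo_eq]

theorem G1_eq (g : ℕ → ℝ) (H τ y w : ℝ) (h : F g H y = w) :
    G1 g H τ y = if w ≤ τ then 1 else 0 := by
  unfold G1
  by_cases hw : w ≤ τ
  · have h1 : y ∈ SF g H τ := by
      show F g H y ≤ τ
      rw [h]
      exact hw
    rw [Set.indicator_of_mem h1, if_pos hw]
  · have h1 : y ∉ SF g H τ := by
      show ¬ F g H y ≤ τ
      rw [h]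
      exact hw
    rw [Set.indicator_of_notMem h1, if_neg hw]

theorem G1_unit (g : ℕ → ℝ) (H τ : ℝ) (hH : 0 ≤ H) (a : ℕ) :
    IntervalIntegrable (G1 g H τ) volume a ((a + 1 : ℕ) : ℝ) ∧
      ∫ y in (a : ℝ)..((a + 1 : ℕ) : ℝ), G1 g H τ y =
        (1 - Int.fract H) * (if W g a ⌊H⌋₊ ≤ τ then 1 else 0) +
          Int.fract H * (if W g a (⌊H⌋₊ + 1) ≤ τ then 1 else 0) := by
  have hf0 := Int.fract_nonneg H
  have hf1 := Int.fract_lt_one H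
  obtain ⟨i1, j1⟩ := int_const (G1 g H τ) a (a + (1 - Int.fract H))
    (if W g a ⌊H⌋₊ ≤ τ then 1 else 0) (by linarith)
    (fun y h1 h2 => G1_eq g H τ y _ (F_fst g H hH a y h1 h2))
  obtain ⟨i2, j2⟩ := int_const (G1 g H τ) (a + (1 - Int.fract H)) (a + 1)
    (if W g a (⌊H⌋₊ + 1) ≤ τ then 1 else 0) (by linarith)
    (fun y h1 h2 => G1_eq g H τ y _ (F_snd g H hH a y h1 h2))
  have e : ((a + 1 : ℕ) : ℝ) = (a : ℝ) + 1 := by push_cast; rfl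
  rw [e]
  refine ⟨i1.trans i2, ?_⟩
  rw [← intervalIntegral.integral_add_adjacent_intervals i1 i2, j1, j2]
  ring

theorem G1_ii (g : ℕ → ℝ) (H τ : ℝ) (hH : 0 ≤ H) (u v : ℝ) (hu : 0 ≤ u) (hv : 0 ≤ v) :
    IntervalIntegrable (G1 g H τ) volume u v := by
  have h1 : ∀ N : ℕ, IntervalIntegrable (G1 g H τ) volume ((0 : ℕ) : ℝ) (N : ℝ) := by
    intro N
    exact IntervalIntegrable.trans_iterate (a := fun n : ℕ => (n : ℝ))
      (fun k _ => (G1_unit g H τ hH k).1)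
  obtain ⟨N, hN⟩ := exists_nat_ge (max u v)
  refine (h1 N).mono_set ?_
  have hu2 : u ≤ N := (le_max_left u v).trans hN
  have hv2 : v ≤ N := (le_max_right u v).trans hN
  apply Set.uIcc_subset_uIcc
  · exact Set.mem_uIcc_of_le (by simpa using hu) hu2
  · exact Set.mem_uIcc_of_le (by simpa using hv) hv2

theorem G1_bound (g : ℕ → ℝ) (H τ y : ℝ) : ‖G1 g H τ y‖ ≤ 1 := by
  unfold G1
  by_cases h1 : y ∈ SF g H τ
  · rw [Set.indicator_of_mem h1]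
    simp
  · rw [Set.indicator_of_notMem h1]
    simp

theorem G1_tail (g : ℕ → ℝ) (H τ : ℝ) (y : ℝ) (hy : 0 ≤ y) :
    |∫ t in (⌊y⌋₊ : ℝ)..y, G1 g H τ t| ≤ 1 := by
  have h1 : (⌊y⌋₊ : ℝ) ≤ y := Nat.floor_le hy
  have h2 : y < (⌊y⌋₊ : ℝ) + 1 := Nat.lt_floor_add_one y
  have h3 : ‖∫ t in (⌊y⌋₊ : ℝ)..y, G1 g H τ t‖ ≤ 1 * |y - ⌊y⌋₊| :=
    intervalIntegral.norm_integral_le_of_norm_le_const (fun t _ => G1_bound g H τ t)
  rw [Real.norm_eq_abs, abs_of_nonneg (by linarith : 0 ≤ y - (⌊y⌋₊ : ℝ))] at h3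
  linarith

end Pool.Agent.W815.RGE.RealAux

namespace Pool.Agent.W815.RGE

open Finset MeasureTheory Pool.Agent.W815.RGC Pool.Agent.W815.RGC.DetAux
open Pool.Agent.W815.RGE.RealAux

theorem Mx_eq (g : ℕ → ℝ) (X H x : ℝ) (hX : 2 ≤ X) (hHX : H ≤ X) (hH : 1 ≤ H) (hx : X ≤ x) :
    Mx g x H = F g H (x - H / 2) := by
  have hx0 : 0 ≤ x - H / 2 := by linarith
  unfold Mx F
  congr 1
  ext n
  rw [mem_filter, mem_range, mem_Ioo, Nat.floor_lt hx0, Nat.lt_ceil, abs_lt]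
  constructor
  · rintro ⟨-, h1, h2⟩
    constructor <;> linarith
  · rintro ⟨h1, h2⟩
    refine ⟨?_, by linarith, by linarith⟩
    have h3 : (n : ℝ) ≤ x + H := by linarith
    have h4 := Nat.le_floor h3
    omega

theorem realw : SReal := by
  intro g X H τ hX hH1 hHX
  have hH : 0 ≤ H := by linarith
  have e0 : {x : ℝ | x ∈ Set.Icc X (2 * X) ∧ Mx g x H ≤ τ} =
      Set.Icc X (2 * X) ∩ (fun x : ℝ => x - H / 2) ⁻¹' (SF g H τ) := by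
    ext x
    show (x ∈ Set.Icc X (2 * X) ∧ Mx g x H ≤ τ) ↔ (x ∈ Set.Icc X (2 * X) ∧ F g H (x - H / 2) ≤ τ)
    constructor
    · rintro ⟨h1, h2⟩
      exact ⟨h1, by rwa [← Mx_eq g X H x hX hHX hH1 h1.1]⟩
    · rintro ⟨h1, h2⟩
      exact ⟨h1, by rwa [Mx_eq g X H x hX hHX hH1 h1.1]⟩
  have hT : MeasurableSet ((fun x : ℝ => x - H / 2) ⁻¹' (SF g H τ)) :=
    (measurable_id.sub_const (H / 2)) (SF_meas g H τ)
  have e1 : (volume {x : ℝ | x ∈ Set.Icc X (2 * X) ∧ Mx g x H ≤ τ}).toReal =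
      ∫ y in (X - H / 2)..(2 * X - H / 2), G1 g H τ y := by
    rw [← intervalIntegral.integral_comp_sub_right (G1 g H τ) (H / 2),
      intervalIntegral.integral_of_le (by linarith), ← integral_Icc_eq_integral_Ioc, e0]
    have h1 : (fun x : ℝ => G1 g H τ (x - H / 2)) =
        ((fun x : ℝ => x - H / 2) ⁻¹' (SF g H τ)).indicator (fun _ => (1 : ℝ)) := by
      funext x
      rfl
    rw [h1, setIntegral_indicator hT, setIntegral_const, smul_eq_mul, mul_one]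
    rfl
  rw [e1]
  set Y₁ := X - H / 2 with hY₁
  set Y₂ := 2 * X - H / 2 with hY₂
  have hy1 : 0 ≤ Y₁ := by rw [hY₁]; linarith
  have hy2 : 0 ≤ Y₂ := by rw [hY₂]; linarith
  have hy12 : Y₁ ≤ Y₂ := by rw [hY₁, hY₂]; linarith
  have hB : ⌊Y₁⌋₊ ≤ ⌊Y₂⌋₊ := Nat.floor_mono hy12
  -- the main part
  have e2 : ∫ y in (⌊Y₁⌋₊ : ℝ)..(⌊Y₂⌋₊ : ℝ), G1 g H τ y =
      (1 - Int.fract H) *
        (((Ico ⌊Y₁⌋₊ ⌊Y₂⌋₊).filter (fun a => W g a ⌊H⌋₊ ≤ τ)).card : ℝ) +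
      Int.fract H *
        (((Ico ⌊Y₁⌋₊ ⌊Y₂⌋₊).filter (fun a => W g a (⌊H⌋₊ + 1) ≤ τ)).card : ℝ) := by
    rw [← intervalIntegral.sum_integral_adjacent_intervals_Ico (a := fun n : ℕ => (n : ℝ)) hB
      (fun k _ => (G1_unit g H τ hH k).1)]
    rw [← sum_boole, ← sum_boole, mul_sum, mul_sum, ← sum_add_distrib]
    exact sum_congr rfl fun k _ => (G1_unit g H τ hH k).2
  rw [← e2]
  -- the two ends
  have hb1 : (0 : ℝ) ≤ (⌊Y₁⌋₊ : ℝ) := Nat.cast_nonneg _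
  have hb2 : (0 : ℝ) ≤ (⌊Y₂⌋₊ : ℝ) := Nat.cast_nonneg _
  have s1 := intervalIntegral.integral_add_adjacent_intervals
    (G1_ii g H τ hH (⌊Y₁⌋₊ : ℝ) Y₁ hb1 hy1) (G1_ii g H τ hH Y₁ Y₂ hy1 hy2)
  have s2 := intervalIntegral.integral_add_adjacent_intervals
    (G1_ii g H τ hH (⌊Y₁⌋₊ : ℝ) (⌊Y₂⌋₊ : ℝ) hb1 hb2) (G1_ii g H τ hH (⌊Y₂⌋₊ : ℝ) Y₂ hb2 hy2)
  have t1 := G1_tail g H τ Y₁ hy1
  have t2 := G1_tail g H τ Y₂ hy2
  have e3 : (∫ y in Y₁..Y₂, G1 g H τ y) - ∫ y in (⌊Y₁⌋₊ : ℝ)..(⌊Y₂⌋₊ : ℝ), G1 g H τ y =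
      (∫ t in (⌊Y₂⌋₊ : ℝ)..Y₂, G1 g H τ t) - ∫ t in (⌊Y₁⌋₊ : ℝ)..Y₁, G1 g H τ t := by
    linarith
  rw [e3]
  have t3 := abs_sub (∫ t in (⌊Y₂⌋₊ : ℝ)..Y₂, G1 g H τ t) (∫ t in (⌊Y₁⌋₊ : ℝ)..Y₁, G1 g H τ t)
  linarith

end Pool.Agent.W815.RGE
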