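import Pool.Agent.W815.RGC.Stm
import Pool.Agent.H510R2.Div

set_option autoImplicit false

/-!
# Project RGC, part CNT: pairs of pairs with the same squarefree quotient
-/

namespace Pool.Agent.W815.RGC

open Finset

namespace Cnt

theorem mem_PR {M K : ℕ} {x : ℕ × ℕ} :
    x ∈ PR M K ↔ 1 ≤ x.1 ∧ x.2 ≤ M ∧ x.1 < x.2 ∧ x.2 < x.1 + K := by
  unfold PR
  simp only [mem_filter, mem_product, mem_Icc]
  omega

/-- the decomposition of a pair -/
theorem decomp {n m : ℕ} (hn : 1 ≤ n) (hnm : n < m) :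
    1 ≤ n.gcd m ∧ n.gcd m * (n / n.gcd m) = n ∧ n.gcd m * (m / n.gcd m) = m ∧
      1 ≤ n / n.gcd m ∧ n / n.gcd m ≤ m / n.gcd m := by
  have hg : 0 < n.gcd m := Nat.gcd_pos_of_pos_left _ hn
  refine ⟨hg, Nat.mul_div_cancel' (Nat.gcd_dvd_left n m), Nat.mul_div_cancel' (Nat.gcd_dvd_right n m),
    Nat.div_pos (Nat.gcd_le_left _ hn) hg, Nat.div_le_div_right hnm.le⟩

/-- the number of pairs with given `kap` -/
theorem card_fiber (M K : ℕ) (x : ℕ × ℕ) (hx : x ∈ PR M K) :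
    ((PR M K).filter (fun y => kap y = kap x)).card ≤
      (kap x).divisors.card * (M * x.1.gcd x.2 / x.1) := by
  rw [mem_PR] at hx
  obtain ⟨hx1, hx2, hx3, hx4⟩ := hx
  obtain ⟨g1, g2, g3, g4, g5⟩ := decomp hx1 hx3
  have hsub : ((PR M K).filter (fun y => kap y = kap x)).card ≤
      ((kap x).divisors ×ˢ Icc 1 (M * x.1.gcd x.2 / x.1)).card := by
    apply Finset.card_le_card_of_injOn (fun y => (y.2 / y.1.gcd y.2, y.1.gcd y.2))
    · intro y hy
      simp only [coe_filter, Set.mem_setOf_eq, mem_PR] at hy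
      obtain ⟨⟨hy1, hy2, hy3, hy4⟩, hk⟩ := hy
      obtain ⟨f1, f2, f3, f4, f5⟩ := decomp hy1 hy3
      simp only [coe_product, Set.mem_prod, mem_coe, Nat.mem_divisors, mem_Icc]
      have hb : x.1 / x.1.gcd x.2 ≤ y.2 / y.1.gcd y.2 := by
        by_contra hlt
        push Not at hlt
        have e1 : kap y ≤ (y.2 / y.1.gcd y.2) * (y.2 / y.1.gcd y.2) := by
          unfold kap
          exact Nat.mul_le_mul_right _ f5
        have e2 : (x.1 / x.1.gcd x.2) * (x.1 / x.1.gcd x.2) ≤ kap x := by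
          unfold kap
          exact Nat.mul_le_mul_left _ g5
        have e3 : (y.2 / y.1.gcd y.2) * (y.2 / y.1.gcd y.2) <
            (x.1 / x.1.gcd x.2) * (x.1 / x.1.gcd x.2) := Nat.mul_self_lt_mul_self hlt
        omega
      refine ⟨⟨?_, ?_⟩, f1, ?_⟩
      · rw [← hk]
        exact Dvd.intro_left _ rfl
      · have : 0 < kap x := by
          unfold kap
          exact Nat.mul_pos g4 (lt_of_lt_of_le g4 g5)
        omega
      · rw [Nat.le_div_iff_mul_le hx1]
        calc y.1.gcd y.2 * x.1 = y.1.gcd y.2 * (x.1.gcd x.2 * (x.1 / x.1.gcd x.2)) := by rw [g2]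
          _ ≤ y.1.gcd y.2 * (x.1.gcd x.2 * (y.2 / y.1.gcd y.2)) := by gcongr
          _ = (y.1.gcd y.2 * (y.2 / y.1.gcd y.2)) * x.1.gcd x.2 := by ring
          _ = y.2 * x.1.gcd x.2 := by rw [f3]
          _ ≤ M * x.1.gcd x.2 := by gcongr
    · intro y hy z hz hyz
      simp only [coe_filter, Set.mem_setOf_eq, mem_PR] at hy hz
      obtain ⟨⟨hy1, hy2, hy3, hy4⟩, hky⟩ := hy
      obtain ⟨⟨hz1, hz2, hz3, hz4⟩, hkz⟩ := hz
      obtain ⟨f1, f2, f3, f4, f5⟩ := decomp hy1 hy3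
      obtain ⟨k1, k2, k3, k4, k5⟩ := decomp hz1 hz3
      simp only [Prod.mk.injEq] at hyz
      obtain ⟨ha, hb⟩ := hyz
      have h2 : y.2 = z.2 := by rw [← f3, ← k3, ha, hb]
      have hkk : kap y = kap z := by rw [hky, hkz]
      unfold kap at hkk
      rw [ha] at hkk
      have h1' : y.1 / y.1.gcd y.2 = z.1 / z.1.gcd z.2 :=
        Nat.eq_of_mul_eq_mul_right (lt_of_lt_of_le k4 k5) hkk
      have h1 : y.1 = z.1 := by rw [← f2, ← k2, h1', hb]
      exact Prod.ext h1 h2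
  refine hsub.trans ?_
  rw [card_product, Nat.card_Icc]
  simp

/-- harmonic sums over multiples -/
theorem sum_mult (M d : ℕ) (hd : 1 ≤ d) :
    ∑ n ∈ (Icc 1 M).filter (fun n => d ∣ n), (d : ℝ) / n ≤ ∑ j ∈ Icc 1 M, (1 : ℝ) / j := by
  have hinj : Set.InjOn (fun n => n / d) ((Icc 1 M).filter (fun n => d ∣ n) : Finset ℕ) := by
    intro a ha b hb hab
    simp only [coe_filter, Set.mem_setOf_eq, mem_Icc] at ha hb
    simp only at hab
    rw [← Nat.mul_div_cancel' ha.2, ← Nat.mul_div_cancel' hb.2, hab]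
  calc ∑ n ∈ (Icc 1 M).filter (fun n => d ∣ n), (d : ℝ) / n
      = ∑ n ∈ (Icc 1 M).filter (fun n => d ∣ n), (1 : ℝ) / ((n / d : ℕ) : ℝ) := by
        apply Finset.sum_congr rfl
        intro n hn
        simp only [mem_filter, mem_Icc] at hn
        obtain ⟨e, rfl⟩ := hn.2
        rw [Nat.mul_div_cancel_left _ hd]
        have he : e ≠ 0 := by
          rintro rfl
          simp at hn
        have : (d : ℝ) ≠ 0 := by positivity
        have : (e : ℝ) ≠ 0 := by exact_mod_cast he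
        push_cast
        field_simp
    _ = ∑ j ∈ ((Icc 1 M).filter (fun n => d ∣ n)).image (fun n => n / d), (1 : ℝ) / j := by
        rw [Finset.sum_image hinj]
    _ ≤ ∑ j ∈ Icc 1 M, (1 : ℝ) / j := by
        apply Finset.sum_le_sum_of_subset_of_nonneg
        · intro j hj
          simp only [mem_image, mem_filter, mem_Icc] at hj ⊢
          obtain ⟨n, ⟨⟨hn1, hn2⟩, hdn⟩, rfl⟩ := hj
          exact ⟨Nat.div_pos (Nat.le_of_dvd hn1 hdn) hd, (Nat.div_le_self _ _).trans hn2⟩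
        · intro j _ _
          positivity

theorem harm (M : ℕ) : ∑ j ∈ Icc 1 M, (1 : ℝ) / j ≤ 1 + Real.log M := by
  have h := harmonic_le_one_add_log M
  rw [harmonic_eq_sum_Icc] at h
  push_cast at h
  simpa [one_div] using h

/-- sums of gcds -/
theorem sum_gcd (M h : ℕ) (hh : 1 ≤ h) :
    ∑ n ∈ Icc 1 M, ((n.gcd h : ℕ) : ℝ) / n ≤ (h.divisors.card : ℝ) * (1 + Real.log M) := by
  calc ∑ n ∈ Icc 1 M, ((n.gcd h : ℕ) : ℝ) / n
      ≤ ∑ n ∈ Icc 1 M, ∑ d ∈ h.divisors, (if d ∣ n then (d : ℝ) / n else 0) := by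
        apply Finset.sum_le_sum
        intro n hn
        have hmem : n.gcd h ∈ h.divisors := by
          rw [Nat.mem_divisors]
          exact ⟨Nat.gcd_dvd_right n h, by omega⟩
        have hs := Finset.single_le_sum (f := fun d => (if d ∣ n then (d : ℝ) / n else 0))
          (s := h.divisors) (fun d _ => by split_ifs <;> positivity) hmem
        simp only [Nat.gcd_dvd_left, if_true] at hs
        exact hs
    _ = ∑ d ∈ h.divisors, ∑ n ∈ (Icc 1 M).filter (fun n => d ∣ n), (d : ℝ) / n := by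
        rw [Finset.sum_comm]
        apply Finset.sum_congr rfl
        intro d _
        rw [Finset.sum_filter]
    _ ≤ ∑ d ∈ h.divisors, (1 + Real.log M) := by
        apply Finset.sum_le_sum
        intro d hd
        exact (sum_mult M d (Nat.pos_of_mem_divisors hd)).trans (harm M)
    _ = (h.divisors.card : ℝ) * (1 + Real.log M) := by
        rw [Finset.sum_const, nsmul_eq_mul]

/-- the sum over pairs -/
theorem sum_PR (M K : ℕ) :
    ∑ x ∈ PR M K, ((x.1.gcd x.2 : ℕ) : ℝ) / x.1 ≤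
      ∑ h ∈ (Icc 1 M).filter (fun h => h < K), ∑ n ∈ Icc 1 M, ((n.gcd h : ℕ) : ℝ) / n := by
  rw [← Finset.sum_product']
  have hinj : Set.InjOn (fun x : ℕ × ℕ => (x.2 - x.1, x.1)) (PR M K : Finset (ℕ × ℕ)) := by
    intro a ha b hb hab
    simp only [mem_coe, mem_PR] at ha hb
    simp only [Prod.mk.injEq] at hab
    exact Prod.ext hab.2 (by omega)
  calc ∑ x ∈ PR M K, ((x.1.gcd x.2 : ℕ) : ℝ) / x.1
      = ∑ x ∈ PR M K, (fun z : ℕ × ℕ => ((z.2.gcd z.1 : ℕ) : ℝ) / z.2) (x.2 - x.1, x.1) := by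
        apply Finset.sum_congr rfl
        intro x hx
        rw [mem_PR] at hx
        simp only
        rw [Nat.gcd_sub_self_right hx.2.2.1.le]
    _ = ∑ z ∈ (PR M K).image (fun x : ℕ × ℕ => (x.2 - x.1, x.1)),
          (fun z : ℕ × ℕ => ((z.2.gcd z.1 : ℕ) : ℝ) / z.2) z := by
        rw [Finset.sum_image hinj]
    _ ≤ _ := by
        apply Finset.sum_le_sum_of_subset_of_nonneg
        · intro z hz
          simp only [mem_image, mem_PR] at hz
          obtain ⟨x, ⟨h1, h2, h3, h4⟩, rfl⟩ := hz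
          simp only [mem_product, mem_filter, mem_Icc]
          omega
        · intro z _ _
          positivity

end Cnt

open Cnt in
theorem cnt : SCnt := by
  intro η hη
  obtain ⟨D, hD0, hD⟩ := Pool.Agent.H510R2.divisor_bound (η / 4) (by positivity)
  refine ⟨D * D * (1 + 4 / η), by positivity, ?_⟩
  intro M K hM
  have hM' : (1 : ℝ) ≤ M := by exact_mod_cast hM
  have hM0 : (0 : ℝ) < M := by linarith
  set ε := η / 4 with hε
  have hε0 : 0 < ε := by positivity
  -- the fibres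
  have h1 : ∀ x ∈ PR M K, (((PR M K).filter (fun y => kap y = kap x)).card : ℝ) ≤
      D * (M : ℝ) ^ (2 * ε) * M * (((x.1.gcd x.2 : ℕ) : ℝ) / x.1) := by
    intro x hx
    have hc := card_fiber M K x hx
    have hx' := mem_PR.mp hx
    obtain ⟨hx1, hx2, hx3, hx4⟩ := hx'
    obtain ⟨g1, g2, g3, g4, g5⟩ := decomp hx1 hx3
    have hkpos : 1 ≤ kap x := by
      unfold kap
      exact Nat.mul_pos g4 (lt_of_lt_of_le g4 g5)
    have hkle : kap x ≤ M * M := by
      unfold kap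
      exact Nat.mul_le_mul ((Nat.div_le_self _ _).trans (hx3.le.trans hx2))
        ((Nat.div_le_self _ _).trans hx2)
    have htau : ((kap x).divisors.card : ℝ) ≤ D * (M : ℝ) ^ (2 * ε) := by
      refine (hD (kap x) hkpos).trans ?_
      have h2 : ((kap x : ℕ) : ℝ) ≤ (M : ℝ) ^ (2 : ℝ) := by
        have : ((kap x : ℕ) : ℝ) ≤ (M : ℝ) * M := by exact_mod_cast hkle
        rw [show (2 : ℝ) = ((2 : ℕ) : ℝ) by norm_num, Real.rpow_natCast, sq]
        exact this
      have h3 : ((kap x : ℕ) : ℝ) ^ ε ≤ ((M : ℝ) ^ (2 : ℝ)) ^ ε :=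
        Real.rpow_le_rpow (by positivity) h2 hε0.le
      rw [← Real.rpow_mul hM0.le] at h3
      exact mul_le_mul_of_nonneg_left h3 hD0.le
    have hdiv : ((M * x.1.gcd x.2 / x.1 : ℕ) : ℝ) ≤ (M : ℝ) * (((x.1.gcd x.2 : ℕ) : ℝ) / x.1) := by
      refine (Nat.cast_div_le).trans ?_
      push_cast
      rw [mul_div_assoc]
    calc (((PR M K).filter (fun y => kap y = kap x)).card : ℝ)
        ≤ ((kap x).divisors.card : ℝ) * ((M * x.1.gcd x.2 / x.1 : ℕ) : ℝ) := by exact_mod_cast hc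
      _ ≤ (D * (M : ℝ) ^ (2 * ε)) * ((M : ℝ) * (((x.1.gcd x.2 : ℕ) : ℝ) / x.1)) := by
          apply mul_le_mul htau hdiv (by positivity) (by positivity)
      _ = _ := by ring
  -- sum over h
  have h2 : ∀ h ∈ (Icc 1 M).filter (fun h => h < K),
      ∑ n ∈ Icc 1 M, ((n.gcd h : ℕ) : ℝ) / n ≤ D * (M : ℝ) ^ ε * ((1 + 1 / ε) * (M : ℝ) ^ ε) := by
    intro h hh
    simp only [mem_filter, mem_Icc] at hh
    obtain ⟨⟨hh1, hh2⟩, hh3⟩ := hh
    refine (sum_gcd M h hh1).trans ?_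
    have htau : ((h.divisors.card : ℕ) : ℝ) ≤ D * (M : ℝ) ^ ε := by
      refine (hD h hh1).trans ?_
      apply mul_le_mul_of_nonneg_left _ hD0.le
      exact Real.rpow_le_rpow (by positivity) (by exact_mod_cast hh2) hε0.le
    have hlog : 1 + Real.log M ≤ (1 + 1 / ε) * (M : ℝ) ^ ε := by
      have e1 := Real.log_le_rpow_div hM0.le hε0
      have e2 : (1 : ℝ) ≤ (M : ℝ) ^ ε := Real.one_le_rpow hM' hε0.le
      have e3 : (1 + 1 / ε) * (M : ℝ) ^ ε = (M : ℝ) ^ ε + (M : ℝ) ^ ε / ε := by ring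
      rw [e3]
      linarith
    have hlog0 : 0 ≤ 1 + Real.log M := by
      have := Real.log_nonneg hM'
      linarith
    exact mul_le_mul htau hlog hlog0 (by positivity)
  have hcardH : (((Icc 1 M).filter (fun h => h < K)).card : ℝ) ≤ K := by
    have : ((Icc 1 M).filter (fun h => h < K)) ⊆ range K := by
      intro h hh
      simp only [mem_filter, mem_Icc, mem_range] at hh ⊢
      exact hh.2
    have := Finset.card_le_card this
    rw [card_range] at this
    exact_mod_cast this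
  have h3 : ∑ x ∈ PR M K, ((x.1.gcd x.2 : ℕ) : ℝ) / x.1 ≤
      K * (D * (M : ℝ) ^ ε * ((1 + 1 / ε) * (M : ℝ) ^ ε)) := by
    refine (sum_PR M K).trans ?_
    refine (Finset.sum_le_sum h2).trans ?_
    rw [Finset.sum_const, nsmul_eq_mul]
    apply mul_le_mul_of_nonneg_right hcardH (by positivity)
  have hcast : (Npp M K : ℝ) = ∑ x ∈ PR M K, (((PR M K).filter (fun y => kap y = kap x)).card : ℝ) := by
    unfold Npp
    push_cast
    rfl
  rw [hcast]
  calc ∑ x ∈ PR M K, (((PR M K).filter (fun y => kap y = kap x)).card : ℝ)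
      ≤ ∑ x ∈ PR M K, D * (M : ℝ) ^ (2 * ε) * M * (((x.1.gcd x.2 : ℕ) : ℝ) / x.1) :=
        Finset.sum_le_sum h1
    _ = D * (M : ℝ) ^ (2 * ε) * M * ∑ x ∈ PR M K, (((x.1.gcd x.2 : ℕ) : ℝ) / x.1) := by
        rw [Finset.mul_sum]
    _ ≤ D * (M : ℝ) ^ (2 * ε) * M * (K * (D * (M : ℝ) ^ ε * ((1 + 1 / ε) * (M : ℝ) ^ ε))) := by
        apply mul_le_mul_of_nonneg_left h3 (by positivity)
    _ = D * D * (1 + 1 / ε) * ((M : ℝ) ^ (2 * ε) * M * (M : ℝ) ^ ε * (M : ℝ) ^ ε) * K := by ring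
    _ = D * D * (1 + 4 / η) * (M : ℝ) ^ (1 + η) * K := by
        have e1 : (M : ℝ) ^ (2 * ε) * M * (M : ℝ) ^ ε * (M : ℝ) ^ ε = (M : ℝ) ^ (1 + η) := by
          have e2 : (M : ℝ) ^ (2 * ε) * M = (M : ℝ) ^ (2 * ε + 1) := by
            rw [Real.rpow_add_one hM0.ne']
          rw [e2, ← Real.rpow_add hM0, ← Real.rpow_add hM0]
          congr 1
          rw [hε]; ring
        have e3 : (1 : ℝ) + 1 / ε = 1 + 4 / η := by
          rw [hε]; field_simp
        rw [e1, e3]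

end Pool.Agent.W815.RGC
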