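import Pool.Agent.W815.RGC.StmG
import Pool.Agent.W815.RGC.Cnt
import Pool.Agent.W815.RGC.Sec

set_option autoImplicit false

/-!
# Project RGE, part SAME: pairs with a large common factor in the same window
-/

namespace Pool.Agent.W815.RGE

open Finset MeasureTheory Filter Topology Pool.Agent.Helper497.HS Pool.Agent.H595R2.PTF
open Pool.Agent.W815.RGC

namespace GSame

/-- the square of the window -/
def II (a K : ℕ) : Finset (ℕ × ℕ) := Ioc a (a + K) ×ˢ Ioc a (a + K)

/-- the pairs with a large common factor -/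
noncomputable def PP (G : ℝ) (a K : ℕ) : Finset (ℕ × ℕ) :=
  open Classical in (II a K).filter (fun q => q.1 ≠ q.2 ∧ G ≤ (q.1.gcd q.2 : ℝ))

theorem mem_II {a K : ℕ} {q : ℕ × ℕ} :
    q ∈ II a K ↔ a < q.1 ∧ q.1 ≤ a + K ∧ a < q.2 ∧ q.2 ≤ a + K := by
  unfold II
  simp only [mem_product, mem_Ioc]
  tauto

theorem mem_PP {G : ℝ} {a K : ℕ} {q : ℕ × ℕ} :
    q ∈ PP G a K ↔ q ∈ II a K ∧ q.1 ≠ q.2 ∧ G ≤ (q.1.gcd q.2 : ℝ) := by
  unfold PP
  rw [mem_filter]

/-- the second moment is bounded by a count -/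
theorem nsq_le (M a K : ℕ) (G : ℝ) (hM : a + K < M) :
    nsq (fun x : Fin M → ℤˣ => Gs (cf M x) G a K) ≤
      ∑ q ∈ PP G a K, (((II a K).filter (fun y => kap y = kap q)).card : ℝ) := by
  classical
  let c : ℕ × ℕ → ℝ := fun q => if (Squarefree q.1 ∧ Squarefree q.2) then 1 else 0
  let T : ℕ × ℕ → Finset (Fin M) := fun q => symmDiff (secS M q.1) (secS M q.2)
  have hmem : ∀ q ∈ PP G a K, q ∈ II a K := fun q hq => (mem_PP.1 hq).1
  have hlt : ∀ q ∈ II a K, q.1 < M ∧ q.2 < M := by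
    intro q hq
    rw [mem_II] at hq
    omega
  have hc0 : ∀ q, 0 ≤ c q := by
    intro q
    simp only [c]
    split_ifs
    · exact zero_le_one
    · exact le_rfl
  have hc1 : ∀ q, c q ≤ 1 := by
    intro q
    simp only [c]
    split_ifs
    · exact le_rfl
    · exact zero_le_one
  have hG : ∀ x : Fin M → ℤˣ, Gs (cf M x) G a K = ∑ q ∈ PP G a K, c q * chi (T q) x := by
    intro x
    have h1 : Gs (cf M x) G a K = ∑ q ∈ PP G a K, cf M x q.1 * cf M x q.2 := by
      have e : PP G a K = (II a K).filter (fun q => q.1 ≠ q.2 ∧ G ≤ (q.1.gcd q.2 : ℝ)) := by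
        ext q
        rw [mem_PP, mem_filter]
      rw [e, Finset.sum_filter]
      unfold II Gs
      rw [Finset.sum_product]
    rw [h1]
    refine Finset.sum_congr rfl fun q hq => ?_
    obtain ⟨h3, h4⟩ := hlt q (hmem q hq)
    show rf (ext M x) q.1 * rf (ext M x) q.2 = _
    rw [sec_rf_eq _ _ h3, sec_rf_eq _ _ h4]
    simp only [c, T]
    by_cases ha : Squarefree q.1
    · by_cases hb : Squarefree q.2
      · rw [if_pos ha, if_pos hb, if_pos ⟨ha, hb⟩, chi_mul_chi, one_mul]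
      · have hn : ¬ (Squarefree q.1 ∧ Squarefree q.2) := fun h => hb h.2
        rw [if_neg hb, if_neg hn]
        simp
    · have hn : ¬ (Squarefree q.1 ∧ Squarefree q.2) := fun h => ha h.1
      rw [if_neg ha, if_neg hn]
      simp
  have hns : nsq (fun x : Fin M → ℤˣ => Gs (cf M x) G a K) =
      ∑ q ∈ PP G a K, ∑ q' ∈ PP G a K, c q * c q' * (if T q' = T q then 1 else 0) := by
    unfold nsq
    have h1 : ∀ x : Fin M → ℤˣ, (Gs (cf M x) G a K) ^ 2 =
        ∑ q ∈ PP G a K, ∑ q' ∈ PP G a K, (c q * c q') * (chi (T q) x * chi (T q') x) := by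
      intro x
      rw [hG x, sq, Finset.sum_mul_sum]
      refine Finset.sum_congr rfl fun q _ => Finset.sum_congr rfl fun q' _ => ?_
      ring
    rw [Ex_congr h1, Ex_sum]
    refine Finset.sum_congr rfl fun q _ => ?_
    rw [Ex_sum]
    refine Finset.sum_congr rfl fun q' _ => ?_
    rw [Ex_const_mul]
    congr 1
    exact fc_chi (T q) (T q')
  rw [hns]
  have hle : ∀ q ∈ PP G a K, ∀ q' ∈ PP G a K,
      c q * c q' * (if T q' = T q then 1 else 0) ≤ (if kap q' = kap q then (1:ℝ) else 0) := by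
    intro q hq q' hq'
    have hq2 := hlt q (hmem q hq)
    have hq2' := hlt q' (hmem q' hq')
    by_cases hT : T q' = T q
    · rw [if_pos hT, mul_one]
      by_cases hk : kap q' = kap q
      · rw [if_pos hk]
        have h1 := hc1 q
        have h2 := hc1 q'
        have h3 := hc0 q
        have h4 := hc0 q'
        nlinarith [mul_le_mul h1 h2 h4 zero_le_one]
      · rw [if_neg hk]
        by_cases hs : Squarefree q.1 ∧ Squarefree q.2
        · by_cases hs' : Squarefree q'.1 ∧ Squarefree q'.2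
          · exfalso
            apply hk
            have e := sec_T_eq M q'.1 q'.2 q.1 q.2 (by omega) (by omega) (by omega) (by omega) hT
            have k1 := sec_kap_eq q'.1 q'.2 hs'.1 hs'.2
            have k2 := sec_kap_eq q.1 q.2 hs.1 hs.2
            rw [Prod.mk.eta] at k1 k2
            rw [k1, k2, e]
          · have : c q' = 0 := if_neg hs'
            rw [this, mul_zero]
        · have : c q = 0 := if_neg hs
          rw [this, zero_mul]
    · rw [if_neg hT, mul_zero]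
      split_ifs <;> positivity
  refine Finset.sum_le_sum fun q hq => ?_
  refine (Finset.sum_le_sum fun q' hq' => hle q hq q' hq').trans ?_
  rw [← Finset.sum_filter, Finset.sum_const, nsmul_eq_mul, mul_one]
  have hsub : (PP G a K).filter (fun y => kap y = kap q) ⊆
      (II a K).filter (fun y => kap y = kap q) := by
    intro y hy
    rw [mem_filter] at hy ⊢
    exact ⟨hmem y hy.1, hy.2⟩
  exact_mod_cast Finset.card_le_card hsub

/-- multiples in a window -/
theorem win {a K d e : ℕ} (hd : 1 ≤ d) (h1 : a < e * d) (h2 : e * d ≤ a + K) :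
    a / d < e ∧ e ≤ a / d + K / d + 1 := by
  refine ⟨(Nat.div_lt_iff_lt_mul hd).2 h1, ?_⟩
  have ha : a < (a / d + 1) * d := by
    have := Nat.div_add_mod a d
    have := Nat.mod_lt a hd
    nlinarith
  have hK : K < (K / d + 1) * d := by
    have := Nat.div_add_mod K d
    have := Nat.mod_lt K hd
    nlinarith
  by_contra hcon
  push Not at hcon
  have : (a / d + K / d + 2) * d ≤ e * d := Nat.mul_le_mul_right _ hcon
  nlinarith

/-- the decomposition of a pair -/
theorem decomp {n m : ℕ} (hn : 1 ≤ n) (hm : 1 ≤ m) :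
    1 ≤ n.gcd m ∧ n.gcd m * (n / n.gcd m) = n ∧ n.gcd m * (m / n.gcd m) = m ∧
      1 ≤ n / n.gcd m ∧ 1 ≤ m / n.gcd m := by
  have hg : 0 < n.gcd m := Nat.gcd_pos_of_pos_left _ hn
  exact ⟨hg, Nat.mul_div_cancel' (Nat.gcd_dvd_left n m), Nat.mul_div_cancel' (Nat.gcd_dvd_right n m),
    Nat.div_pos (Nat.gcd_le_left _ hn) hg, Nat.div_pos (Nat.gcd_le_right _ hm) hg⟩

/-- the number of pairs with given `kap` -/
theorem card_fiber (a K : ℕ) (ha : 1 ≤ a) (hK : K ≤ a) (q : ℕ × ℕ) (hq : q ∈ II a K) :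
    ((II a K).filter (fun y => kap y = kap q)).card ≤
      (kap q).divisors.card * (2 * q.1.gcd q.2 * K / a + 1) := by
  rw [mem_II] at hq
  obtain ⟨q1, q2, q3, q4⟩ := hq
  obtain ⟨g1, g2, g3, g4, g5⟩ := decomp (n := q.1) (m := q.2) (by omega) (by omega)
  have hkq : 0 < kap q := by
    unfold kap
    exact Nat.mul_pos g4 g5
  have hsub : ((II a K).filter (fun y => kap y = kap q)).card ≤
      ((kap q).divisors ×ˢ Icc 1 (2 * q.1.gcd q.2 * K / a + 1)).card := by
    apply Finset.card_le_card_of_injOn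
      (fun y => (y.1 / y.1.gcd y.2, y.1.gcd y.2 - a / (y.1 / y.1.gcd y.2)))
    · intro y hy
      simp only [coe_filter, Set.mem_ofPred_eq, mem_II] at hy
      obtain ⟨⟨y1, y2, y3, y4⟩, hk⟩ := hy
      obtain ⟨f1, f2, f3, f4, f5⟩ := decomp (n := y.1) (m := y.2) (by omega) (by omega)
      simp only [coe_product, Set.mem_prod, mem_coe, Nat.mem_divisors, mem_Icc]
      have hkap : (y.1 / y.1.gcd y.2) * (y.2 / y.1.gcd y.2) = kap q := by
        rw [← hk]
        rfl
      have hkapq : (q.1 / q.1.gcd q.2) * (q.2 / q.1.gcd q.2) = kap q := rfl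
      generalize hgy : y.1.gcd y.2 = gy at *
      generalize hay : y.1 / gy = ay at *
      generalize hby : y.2 / gy = b' at *
      generalize hgq : q.1.gcd q.2 = gq at *
      generalize haq : q.1 / gq = aq at *
      generalize hbq : q.2 / gq = bq at *
      have hw := win (a := a) (K := K) (d := ay) (e := gy) f4 (by omega) (by omega)
      -- the comparison of the cofactors
      have hb2 : b' ≤ 2 * ay := by
        by_contra hcon
        push Not at hcon
        have : gy * (2 * ay) < gy * b' := Nat.mul_lt_mul_of_pos_left hcon f1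
        nlinarith
      have hbig : a ≤ 2 * gq * ay := by
        by_contra hcon
        push Not at hcon
        have e1 : (2 * gq * ay) * (2 * gq * ay) < a * a := Nat.mul_self_lt_mul_self hcon
        have e2 : a * a ≤ (gq * aq) * (gq * bq) := by
          rw [g2, g3]
          exact Nat.mul_le_mul q1.le q3.le
        have e3 : (gq * aq) * (gq * bq) = gq * gq * kap q := by
          rw [← hkapq]
          ring
        have e4 : gq * gq * kap q ≤ gq * gq * (ay * (2 * ay)) := by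
          rw [← hkap]
          exact Nat.mul_le_mul_left _ (Nat.mul_le_mul_left _ hb2)
        nlinarith
      have hv : K / ay ≤ 2 * gq * K / a := by
        rw [Nat.le_div_iff_mul_le ha]
        have e1 : K / ay * ay ≤ K := Nat.div_mul_le_self K ay
        calc K / ay * a ≤ K / ay * (2 * gq * ay) := Nat.mul_le_mul_left _ hbig
          _ = 2 * gq * (K / ay * ay) := by ring
          _ ≤ 2 * gq * K := Nat.mul_le_mul_left _ e1
      refine ⟨⟨?_, hkq.ne'⟩, by omega, by omega⟩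
      rw [← hkap]
      exact Dvd.intro _ rfl
    · intro y hy z hz hyz
      simp only [coe_filter, Set.mem_ofPred_eq, mem_II] at hy hz
      obtain ⟨⟨y1, y2, y3, y4⟩, hky⟩ := hy
      obtain ⟨⟨z1, z2, z3, z4⟩, hkz⟩ := hz
      obtain ⟨f1, f2, f3, f4, f5⟩ := decomp (n := y.1) (m := y.2) (by omega) (by omega)
      obtain ⟨k1, k2, k3, k4, k5⟩ := decomp (n := z.1) (m := z.2) (by omega) (by omega)
      simp only [Prod.mk.injEq] at hyz
      obtain ⟨hA, hB⟩ := hyz
      have hkk : kap y = kap z := by rw [hky, hkz]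
      unfold kap at hkk
      have hw1 := win (a := a) (K := K) (d := y.1 / y.1.gcd y.2) (e := y.1.gcd y.2) f4
        (by rw [f2]; exact y1) (by rw [f2]; exact y2)
      have hw2 := win (a := a) (K := K) (d := z.1 / z.1.gcd z.2) (e := z.1.gcd z.2) k4
        (by rw [k2]; exact z1) (by rw [k2]; exact z2)
      rw [hA] at hB hw1
      have hg : y.1.gcd y.2 = z.1.gcd z.2 := by omega
      have h1 : y.1 = z.1 := by rw [← f2, ← k2, hA, hg]
      rw [hA] at hkk
      have hbb : y.2 / y.1.gcd y.2 = z.2 / z.1.gcd z.2 := Nat.eq_of_mul_eq_mul_left k4 hkk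
      have h2 : y.2 = z.2 := by rw [← f3, ← k3, hbb, hg]
      exact Prod.ext h1 h2
  refine hsub.trans ?_
  rw [card_product, Nat.card_Icc]
  simp

/-- number of multiples in a window -/
theorem card_mult (a K d : ℕ) (hd : 1 ≤ d) :
    ((Ioc a (a + K)).filter (fun n => d ∣ n)).card ≤ K / d + 1 := by
  have h : ((Ioc a (a + K)).filter (fun n => d ∣ n)).card ≤ (Icc 1 (K / d + 1)).card := by
    apply Finset.card_le_card_of_injOn (fun n => n / d - a / d)
    · intro n hn
      simp only [coe_filter, Set.mem_ofPred_eq, mem_Ioc] at hn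
      obtain ⟨⟨h1, h2⟩, e, rfl⟩ := hn
      have hw := win (a := a) (K := K) (d := d) (e := e) hd (by rw [mul_comm]; exact h1)
        (by rw [mul_comm]; exact h2)
      simp only [coe_Icc, Set.mem_Icc]
      rw [Nat.mul_div_cancel_left _ hd]
      omega
    · intro n hn m hm hnm
      simp only [coe_filter, Set.mem_ofPred_eq, mem_Ioc] at hn hm
      obtain ⟨⟨h1, h2⟩, e, rfl⟩ := hn
      obtain ⟨⟨h3, h4⟩, f, rfl⟩ := hm
      have hw := win (a := a) (K := K) (d := d) (e := e) hd (by rw [mul_comm]; exact h1)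
        (by rw [mul_comm]; exact h2)
      have hw' := win (a := a) (K := K) (d := d) (e := f) hd (by rw [mul_comm]; exact h3)
        (by rw [mul_comm]; exact h4)
      simp only at hnm
      rw [Nat.mul_div_cancel_left _ hd, Nat.mul_div_cancel_left _ hd] at hnm
      have : e = f := by omega
      rw [this]
  rwa [Nat.card_Icc, Nat.add_sub_cancel] at h

/-- a common factor of two different numbers of the window is at most `K` -/
theorem gcd_le {a K : ℕ} {q : ℕ × ℕ} (hq : q ∈ II a K) (hne : q.1 ≠ q.2) :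
    1 ≤ q.1.gcd q.2 ∧ q.1.gcd q.2 ≤ K := by
  rw [mem_II] at hq
  obtain ⟨q1, q2, q3, q4⟩ := hq
  refine ⟨Nat.gcd_pos_of_pos_left _ (by omega), ?_⟩
  rcases Nat.lt_or_gt_of_ne hne with h | h
  · have h1 : q.1.gcd q.2 ∣ q.2 - q.1 := Nat.dvd_sub (Nat.gcd_dvd_right _ _) (Nat.gcd_dvd_left _ _)
    have h2 := Nat.le_of_dvd (by omega) h1
    omega
  · have h1 : q.1.gcd q.2 ∣ q.1 - q.2 := Nat.dvd_sub (Nat.gcd_dvd_left _ _) (Nat.gcd_dvd_right _ _)
    have h2 := Nat.le_of_dvd (by omega) h1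
    omega

theorem sum_gcd_PP (G : ℝ) (a K : ℕ) :
    ∑ q ∈ PP G a K, ((q.1.gcd q.2 : ℕ) : ℝ) ≤ 4 * (K : ℝ) ^ 2 * ∑ d ∈ Icc 1 K, (1 : ℝ) / d := by
  classical
  calc ∑ q ∈ PP G a K, ((q.1.gcd q.2 : ℕ) : ℝ)
      ≤ ∑ q ∈ PP G a K, ∑ d ∈ Icc 1 K, (if d ∣ q.1 ∧ d ∣ q.2 then (d : ℝ) else 0) := by
        refine Finset.sum_le_sum fun q hq => ?_
        rw [mem_PP] at hq
        have hg := gcd_le hq.1 hq.2.1
        have hmem : q.1.gcd q.2 ∈ Icc 1 K := by
          rw [mem_Icc]
          exact hg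
        have hs := Finset.single_le_sum
          (f := fun d => (if d ∣ q.1 ∧ d ∣ q.2 then (d : ℝ) else 0))
          (s := Icc 1 K) (fun d _ => by split_ifs <;> positivity) hmem
        simp only [Nat.gcd_dvd_left, Nat.gcd_dvd_right, and_self, if_true] at hs
        exact hs
    _ ≤ ∑ q ∈ II a K, ∑ d ∈ Icc 1 K, (if d ∣ q.1 ∧ d ∣ q.2 then (d : ℝ) else 0) := by
        apply Finset.sum_le_sum_of_subset_of_nonneg
        · intro q hq
          exact (mem_PP.1 hq).1
        · intro q _ _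
          exact Finset.sum_nonneg fun d _ => by split_ifs <;> positivity
    _ = ∑ d ∈ Icc 1 K, ∑ q ∈ II a K, (if d ∣ q.1 ∧ d ∣ q.2 then (d : ℝ) else 0) :=
        Finset.sum_comm
    _ ≤ ∑ d ∈ Icc 1 K, 4 * (K : ℝ) ^ 2 * ((1 : ℝ) / d) := by
        refine Finset.sum_le_sum fun d hd => ?_
        rw [mem_Icc] at hd
        obtain ⟨hd1, hd2⟩ := hd
        have hd0 : (0 : ℝ) < d := by exact_mod_cast hd1
        rw [← Finset.sum_filter, Finset.sum_const, nsmul_eq_mul]
        have hcard : ((II a K).filter (fun q => d ∣ q.1 ∧ d ∣ q.2)).card ≤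
            (K / d + 1) * (K / d + 1) := by
          have e : (II a K).filter (fun q => d ∣ q.1 ∧ d ∣ q.2) =
              (Ioc a (a + K)).filter (fun n => d ∣ n) ×ˢ (Ioc a (a + K)).filter (fun n => d ∣ n) := by
            ext q
            simp only [II, mem_filter, mem_product]
            tauto
          rw [e, card_product]
          exact Nat.mul_le_mul (card_mult a K d hd1) (card_mult a K d hd1)
        have h1 : ((K / d + 1 : ℕ) : ℝ) ≤ 2 * K / d := by
          have e1 : ((K / d : ℕ) : ℝ) ≤ (K : ℝ) / d := Nat.cast_div_le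
          have e2 : (1 : ℝ) ≤ (K : ℝ) / d := by
            rw [le_div_iff₀ hd0, one_mul]
            exact_mod_cast hd2
          push_cast
          have e3 : 2 * (K : ℝ) / d = (K : ℝ) / d + (K : ℝ) / d := by ring
          rw [e3]
          linarith
        have h2 : ((((II a K).filter (fun q => d ∣ q.1 ∧ d ∣ q.2)).card : ℕ) : ℝ) ≤
            (2 * K / d) * (2 * K / d) := by
          have h3 : ((((II a K).filter (fun q => d ∣ q.1 ∧ d ∣ q.2)).card : ℕ) : ℝ) ≤
              ((K / d + 1 : ℕ) : ℝ) * ((K / d + 1 : ℕ) : ℝ) := by exact_mod_cast hcard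
          exact h3.trans (mul_le_mul h1 h1 (by positivity) (by positivity))
        calc ((((II a K).filter (fun q => d ∣ q.1 ∧ d ∣ q.2)).card : ℕ) : ℝ) * d
            ≤ (2 * K / d) * (2 * K / d) * d := mul_le_mul_of_nonneg_right h2 hd0.le
          _ = 4 * (K : ℝ) ^ 2 * ((1 : ℝ) / d) := by
              field_simp
              ring
    _ = _ := by rw [Finset.mul_sum]

end GSame

open GSame in
theorem same : SSame := by
  intro ε θ hε hε1 hθ
  set μ : ℝ := min ε θ with hμ
  have hμ0 : 0 < μ := lt_min hε hθ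
  set η : ℝ := μ / 6 with hη
  have hη0 : 0 < η := by positivity
  obtain ⟨D, hD0, hD⟩ := Pool.Agent.H510R2.divisor_bound η hη0
  refine ⟨μ / 2, D * (16 : ℝ) ^ η * 4 * (1 + 1 / η) * 3, by positivity, by positivity, ?_⟩
  intro M B a K hB haB ha3 hK1 hKB hM
  have hB1 : (1 : ℝ) ≤ B := by exact_mod_cast hB
  have hB0 : (0 : ℝ) < B := by linarith
  have ha1 : 1 ≤ a := hB.trans haB
  have ha0 : (0 : ℝ) < a := by exact_mod_cast ha1
  have hBa : (B : ℝ) ≤ a := by exact_mod_cast haB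
  have hKB' : (K : ℝ) ≤ B := by
    refine hKB.trans ?_
    calc (B : ℝ) ^ (1 - ε) ≤ (B : ℝ) ^ (1 : ℝ) :=
          Real.rpow_le_rpow_of_exponent_le hB1 (by linarith)
      _ = B := Real.rpow_one _
  have hKBn : K ≤ B := by exact_mod_cast hKB'
  have hKa : K ≤ a := hKBn.trans haB
  have hK0 : (0 : ℝ) < K := by exact_mod_cast hK1
  set G : ℝ := (B : ℝ) ^ θ with hG
  have hG0 : 0 < G := Real.rpow_pos_of_pos hB0 _
  refine (nsq_le M a K G hM).trans ?_
  -- the fibres
  have hfib : ∀ q ∈ PP G a K, (((II a K).filter (fun y => kap y = kap q)).card : ℝ) ≤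
      (D * ((16 : ℝ) ^ η * (B : ℝ) ^ (2 * η))) * (2 * (K : ℝ) / a + 1 / G) *
        ((q.1.gcd q.2 : ℕ) : ℝ) := by
    intro q hq
    obtain ⟨hqI, hne, hgG⟩ := mem_PP.1 hq
    have hc := card_fiber a K ha1 hKa q hqI
    obtain ⟨hg1, hg2⟩ := gcd_le hqI hne
    rw [mem_II] at hqI
    obtain ⟨q1, q2, q3, q4⟩ := hqI
    obtain ⟨g1, g2, g3, g4, g5⟩ := GSame.decomp (n := q.1) (m := q.2) (by omega) (by omega)
    have hkpos : 1 ≤ kap q := by
      unfold kap
      exact Nat.mul_pos g4 g5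
    have hkle : kap q ≤ (4 * B) * (4 * B) := by
      unfold kap
      exact Nat.mul_le_mul ((Nat.div_le_self _ _).trans (by omega))
        ((Nat.div_le_self _ _).trans (by omega))
    have htau : ((kap q).divisors.card : ℝ) ≤ D * ((16 : ℝ) ^ η * (B : ℝ) ^ (2 * η)) := by
      refine (hD (kap q) hkpos).trans ?_
      have h2 : ((kap q : ℕ) : ℝ) ≤ 16 * (B : ℝ) ^ (2 : ℝ) := by
        have : ((kap q : ℕ) : ℝ) ≤ (4 * (B : ℝ)) * (4 * B) := by exact_mod_cast hkle
        rw [show (2 : ℝ) = ((2 : ℕ) : ℝ) by norm_num, Real.rpow_natCast]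
        nlinarith
      have h3 : ((kap q : ℕ) : ℝ) ^ η ≤ (16 * (B : ℝ) ^ (2 : ℝ)) ^ η :=
        Real.rpow_le_rpow (by positivity) h2 hη0.le
      rw [Real.mul_rpow (by norm_num) (by positivity), ← Real.rpow_mul hB0.le] at h3
      exact mul_le_mul_of_nonneg_left h3 hD0.le
    have hdiv : ((2 * q.1.gcd q.2 * K / a + 1 : ℕ) : ℝ) ≤
        (2 * (K : ℝ) / a + 1 / G) * ((q.1.gcd q.2 : ℕ) : ℝ) := by
      have e1 : ((2 * q.1.gcd q.2 * K / a : ℕ) : ℝ) ≤ ((2 * q.1.gcd q.2 * K : ℕ) : ℝ) / a :=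
        Nat.cast_div_le
      have e2 : (1 : ℝ) ≤ 1 / G * ((q.1.gcd q.2 : ℕ) : ℝ) := by
        rw [one_div, inv_mul_eq_div, le_div_iff₀ hG0, one_mul]
        exact hgG
      push_cast at e1 ⊢
      have e3 : (2 * (K : ℝ) / a + 1 / G) * ((q.1.gcd q.2 : ℕ) : ℝ) =
          2 * ((q.1.gcd q.2 : ℕ) : ℝ) * K / a + 1 / G * ((q.1.gcd q.2 : ℕ) : ℝ) := by ring
      rw [e3]
      linarith
    calc (((II a K).filter (fun y => kap y = kap q)).card : ℝ)
        ≤ ((kap q).divisors.card : ℝ) * ((2 * q.1.gcd q.2 * K / a + 1 : ℕ) : ℝ) := by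
          exact_mod_cast hc
      _ ≤ (D * ((16 : ℝ) ^ η * (B : ℝ) ^ (2 * η))) *
          ((2 * (K : ℝ) / a + 1 / G) * ((q.1.gcd q.2 : ℕ) : ℝ)) := by
          apply mul_le_mul htau hdiv (by positivity) (by positivity)
      _ = _ := by ring
  refine (Finset.sum_le_sum hfib).trans ?_
  rw [← Finset.mul_sum]
  have hsum : ∑ q ∈ PP G a K, ((q.1.gcd q.2 : ℕ) : ℝ) ≤
      4 * (K : ℝ) ^ 2 * ((1 + 1 / η) * (B : ℝ) ^ η) := by
    refine (sum_gcd_PP G a K).trans ?_
    apply mul_le_mul_of_nonneg_left _ (by positivity)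
    refine (Cnt.harm K).trans ?_
    have e1 := Real.log_le_rpow_div hK0.le hη0
    have e2 : (1 : ℝ) ≤ (B : ℝ) ^ η := Real.one_le_rpow hB1 hη0.le
    have e4 : (K : ℝ) ^ η ≤ (B : ℝ) ^ η := Real.rpow_le_rpow hK0.le hKB' hη0.le
    have e5 : (K : ℝ) ^ η / η ≤ (B : ℝ) ^ η / η := div_le_div_of_nonneg_right e4 hη0.le
    have e3 : (1 + 1 / η) * (B : ℝ) ^ η = (B : ℝ) ^ η + (B : ℝ) ^ η / η := by ring
    rw [e3]
    linarith
  have hKa' : 2 * (K : ℝ) / a + 1 / G ≤ 3 * (B : ℝ) ^ (-μ) := by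
    have e1 : (K : ℝ) / a ≤ (B : ℝ) ^ (-ε) := by
      rw [div_le_iff₀ ha0]
      calc (K : ℝ) ≤ (B : ℝ) ^ (1 - ε) := hKB
        _ = (B : ℝ) ^ (-ε) * B := by
            rw [← Real.rpow_add_one hB0.ne']
            congr 1
            ring
        _ ≤ (B : ℝ) ^ (-ε) * a := mul_le_mul_of_nonneg_left hBa (by positivity)
    have e2 : (B : ℝ) ^ (-ε) ≤ (B : ℝ) ^ (-μ) :=
      Real.rpow_le_rpow_of_exponent_le hB1 (by linarith [min_le_left ε θ])
    have e3 : 1 / G ≤ (B : ℝ) ^ (-μ) := by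
      rw [hG, one_div, ← Real.rpow_neg hB0.le]
      exact Real.rpow_le_rpow_of_exponent_le hB1 (by linarith [min_le_right ε θ])
    have e4 : 2 * (K : ℝ) / a = 2 * ((K : ℝ) / a) := by ring
    rw [e4]
    linarith
  calc D * ((16 : ℝ) ^ η * (B : ℝ) ^ (2 * η)) * (2 * (K : ℝ) / a + 1 / G) *
        ∑ q ∈ PP G a K, ((q.1.gcd q.2 : ℕ) : ℝ)
      ≤ D * ((16 : ℝ) ^ η * (B : ℝ) ^ (2 * η)) * (3 * (B : ℝ) ^ (-μ)) *
        (4 * (K : ℝ) ^ 2 * ((1 + 1 / η) * (B : ℝ) ^ η)) := by
        apply mul_le_mul _ hsum (by positivity) (by positivity)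
        exact mul_le_mul_of_nonneg_left hKa' (by positivity)
    _ = D * (16 : ℝ) ^ η * 4 * (1 + 1 / η) * 3 * (K : ℝ) ^ 2 *
        ((B : ℝ) ^ (2 * η) * (B : ℝ) ^ (-μ) * (B : ℝ) ^ η) := by ring
    _ = D * (16 : ℝ) ^ η * 4 * (1 + 1 / η) * 3 * (K : ℝ) ^ 2 * (B : ℝ) ^ (-(μ / 2)) := by
        rw [← Real.rpow_add hB0, ← Real.rpow_add hB0]
        congr 2
        rw [hη]
        ring

end Pool.Agent.W815.RGE
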