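import Pool.Agent.W815.RGC.StmG
import Pool.Agent.W815.RGC.Sec

set_option autoImplicit false

namespace Pool.Agent.W815.RGE

open Finset MeasureTheory Filter Topology Pool.Agent.Helper497.HS Pool.Agent.H595R2.PTF
open Pool.Agent.W815.RGC

namespace Split2

lemma prod_cnt {ι κ R : Type} [Fintype ι] [Fintype κ] [DecidableEq κ] [CommMonoid R]
    (T : ι → Finset κ) (f : κ → R) :
    ∏ i, ∏ j ∈ T i, f j = ∏ j, f j ^ (univ.filter (fun i => j ∈ T i)).card := by
  have h1 : ∀ i, ∏ j ∈ T i, f j = ∏ j, if j ∈ T i then f j else 1 := by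
    intro i
    rw [Finset.prod_ite_mem, Finset.univ_inter]
  simp_rw [h1]
  rw [Finset.prod_comm]
  refine Finset.prod_congr rfl fun j _ => ?_
  rw [Finset.prod_ite, Finset.prod_const, Finset.prod_const_one, mul_one]

lemma secS_prod (M n : ℕ) (hn : n < M) (h : Squarefree n) :
    n = ∏ j ∈ secS M n, (j : ℕ) := by
  conv_lhs => rw [← Nat.prod_primeFactors_of_squarefree h]
  symm
  refine Finset.prod_bij (fun i _ => (i : ℕ)) ?_ ?_ ?_ ?_
  · intro i hi
    exact (Finset.mem_filter.1 hi).2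
  · intro i _ j _ hij
    exact Fin.ext hij
  · intro p hp
    have hpM : p < M := lt_of_le_of_lt (Nat.le_of_mem_primeFactors hp) hn
    exact ⟨⟨p, hpM⟩, Finset.mem_filter.2 ⟨Finset.mem_univ _, hp⟩, rfl⟩
  · intro i _
    rfl

/-- the expectation of a product of values -/
lemma Ex_pr {ι : Type} [Fintype ι] (M : ℕ) (n : ι → ℕ) (hn : ∀ i, n i < M) :
    0 ≤ Ex (fun x : Fin M → ℤˣ => ∏ i, cf M x (n i)) ∧
    (Ex (fun x : Fin M → ℤˣ => ∏ i, cf M x (n i)) ≠ 0 →
      (∀ i, Squarefree (n i)) ∧ IsSquare (∏ i, n i)) := by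
  classical
  by_cases h : ∀ i, Squarefree (n i)
  · set T : Finset (Fin M) :=
      univ.filter (fun j => Odd (univ.filter (fun i => j ∈ secS M (n i))).card) with hTdef
    have h1 : ∀ x : Fin M → ℤˣ, ∏ i, cf M x (n i) = chi T x := by
      intro x
      have h0 : ∀ i, cf M x (n i) = ∏ j ∈ secS M (n i), sv (x j) := by
        intro i
        have := sec_rf_eq M (n i) (hn i) x
        rw [if_pos (h i)] at this
        exact this
      rw [Finset.prod_congr rfl (fun i _ => h0 i), prod_cnt]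
      unfold chi
      rw [hTdef, Finset.prod_filter]
      refine Finset.prod_congr rfl fun j _ => ?_
      split_ifs with ho
      · obtain ⟨k, hk⟩ := ho
        rw [hk, pow_add, pow_mul, sv_sq, one_pow, one_mul, pow_one]
      · rw [Nat.not_odd_iff_even] at ho
        obtain ⟨k, hk⟩ := ho
        rw [hk, ← two_mul, pow_mul, sv_sq, one_pow]
    have h2 : Ex (fun x : Fin M → ℤˣ => ∏ i, cf M x (n i)) = if T = ∅ then 1 else 0 := by
      rw [← Ex_chi_eq]
      exact Ex_congr h1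
    rw [h2]
    constructor
    · split_ifs <;> norm_num
    · intro hne
      have hT : T = ∅ := by
        by_contra h0
        rw [if_neg h0] at hne
        exact hne rfl
      refine ⟨h, ?_⟩
      have h3 : ∏ i, n i =
          ∏ j : Fin M, (j : ℕ) ^ (univ.filter (fun i => j ∈ secS M (n i))).card := by
        rw [← prod_cnt]
        exact Finset.prod_congr rfl fun i _ => secS_prod M (n i) (hn i) (h i)
      have h4 : ∀ j : Fin M, Even (univ.filter (fun i => j ∈ secS M (n i))).card := by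
        intro j
        rw [← Nat.not_odd_iff_even]
        intro ho
        have h5 : j ∈ T := Finset.mem_filter.2 ⟨Finset.mem_univ j, ho⟩
        rw [hT] at h5
        exact absurd h5 (Finset.notMem_empty _)
      choose k hk using h4
      rw [h3]
      refine ⟨∏ j : Fin M, (j : ℕ) ^ k j, ?_⟩
      rw [← Finset.prod_mul_distrib]
      refine Finset.prod_congr rfl fun j _ => ?_
      rw [← pow_add, ← hk j]
  · push Not at h
    obtain ⟨i, hi⟩ := h
    have h1 : ∀ x : Fin M → ℤˣ, ∏ i, cf M x (n i) = 0 := fun x =>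
      Finset.prod_eq_zero (Finset.mem_univ i) (by
        change rf (ext M x) (n i) = 0
        unfold rf
        rw [if_neg hi])
    have h2 : Ex (fun x : Fin M → ℤˣ => ∏ i, cf M x (n i)) = 0 := by
      rw [Ex_congr h1]
      exact Ex_const 0
    rw [h2]
    exact ⟨le_rfl, fun h => absurd rfl h⟩

/-- splitting off one coordinate -/
lemma sum_split {α : Type} [Fintype α] {n : ℕ} (p : Fin (n + 1)) (F : (Fin (n + 1) → α) → ℝ) :
    ∑ u, F u = ∑ a : α, ∑ w : Fin n → α, F (Fin.insertNth (α := fun _ => α) p a w) := by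
  rw [← Fintype.sum_prod_type', ← (Fin.insertNthEquiv (fun _ => α) p).sum_comp]
  rfl

lemma sum_one {α : Type} [Fintype α] {n : ℕ} (p : Fin (n + 1)) (φ : α → ℝ) (g : α → ℝ) :
    ∑ u : Fin (n + 1) → α, φ (u p) * ∏ i, g (u i) = (∑ a, φ a * g a) * (∑ a, g a) ^ n := by
  rw [sum_split p, Finset.sum_mul]
  refine Finset.sum_congr rfl fun a _ => ?_
  rw [Fintype.sum_pow, Finset.mul_sum]
  refine Finset.sum_congr rfl fun w _ => ?_
  rw [Fin.prod_univ_succAbove _ p]
  simp only [Fin.insertNth_apply_same, Fin.insertNth_apply_succAbove]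
  ring

/-- two coordinates of the same function -/
lemma sum_two {α : Type} [Fintype α] {J : ℕ} (l : Fin J) (Φ : α → α → ℝ) (g : α → ℝ) :
    ∑ u : Fin (J + 1) → α, Φ (u 0) (u l.succ) * ∏ i, g (u i) =
      (∑ a, ∑ b, Φ a b * (g a * g b)) * (∑ a, g a) ^ (J - 1) := by
  obtain ⟨J', rfl⟩ : ∃ J', J = J' + 1 := ⟨J - 1, by have := l.2; omega⟩
  rw [sum_split 0, Finset.sum_mul]
  refine Finset.sum_congr rfl fun a _ => ?_
  have h1 : ∀ w : Fin (J' + 1) → α,
      Φ (Fin.insertNth (α := fun _ => α) 0 a w 0) (Fin.insertNth (α := fun _ => α) 0 a w l.succ) *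
        ∏ i, g (Fin.insertNth (α := fun _ => α) 0 a w i) =
      g a * (Φ a (w l) * ∏ i, g (w i)) := by
    intro w
    rw [Fin.prod_univ_succAbove _ 0]
    have h2 : Fin.insertNth (α := fun _ => α) 0 a w l.succ = w l := by
      have := Fin.insertNth_apply_succAbove (α := fun _ => α) (0 : Fin (J' + 1 + 1)) a w l
      rwa [Fin.zero_succAbove] at this
    rw [h2]
    simp only [Fin.insertNth_apply_same, Fin.insertNth_apply_succAbove]
    ring
  rw [Finset.sum_congr rfl (fun w _ => h1 w), ← Finset.mul_sum, sum_one l (Φ a) g]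
  simp only [Nat.add_sub_cancel]
  rw [← mul_assoc, Finset.mul_sum]
  congr 1
  refine Finset.sum_congr rfl fun b _ => ?_
  ring

/-- coordinates of two functions -/
lemma sum_cross {α β : Type} [Fintype α] [Fintype β] {J : ℕ} (l : Fin (J + 1))
    (Φ : α → β → ℝ) (g : α → ℝ) (h : β → ℝ) :
    ∑ u : Fin (J + 1) → α, ∑ v : Fin (J + 1) → β,
        Φ (u 0) (v l) * ((∏ i, g (u i)) * ∏ i, h (v i)) =
      (∑ a, ∑ b, Φ a b * (g a * h b)) * ((∑ a, g a) ^ J * (∑ b, h b) ^ J) := by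
  have h1 : ∀ u : Fin (J + 1) → α, ∑ v : Fin (J + 1) → β,
        Φ (u 0) (v l) * ((∏ i, g (u i)) * ∏ i, h (v i)) =
      (∑ b, Φ (u 0) b * h b) * (∏ i, g (u i)) * (∑ b, h b) ^ J := by
    intro u
    have := sum_one l (Φ (u 0)) h
    calc _ = (∏ i, g (u i)) * ∑ v : Fin (J + 1) → β, Φ (u 0) (v l) * ∏ i, h (v i) := by
          rw [Finset.mul_sum]
          exact Finset.sum_congr rfl fun v _ => by ring
      _ = _ := by rw [this]; ring
  rw [Finset.sum_congr rfl (fun u _ => h1 u), ← Finset.sum_mul,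
    sum_one 0 (fun a => ∑ b, Φ a b * h b) g, mul_assoc]
  congr 1
  refine Finset.sum_congr rfl fun a _ => ?_
  rw [Finset.sum_mul]
  exact Finset.sum_congr rfl fun b _ => by ring

/-- sums over embeddings of nonnegative functions -/
lemma sum_emb {α : Type} [Fintype α] {j : ℕ} (F : (Fin j → α) → ℝ) (hF : ∀ u, 0 ≤ F u) :
    ∑ u : Fin j ↪ α, F (fun i => u i) ≤ ∑ u : Fin j → α, F u := by
  classical
  have h1 : ∑ u : Fin j ↪ α, F (fun i => u i) =
      ∑ f ∈ (univ : Finset (Fin j ↪ α)).map ⟨fun u => fun i => u i, fun u v h => by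
        ext i; exact congrFun h i⟩, F f := by
    rw [Finset.sum_map]
    rfl
  rw [h1]
  exact Finset.sum_le_sum_of_subset_of_nonneg (Finset.subset_univ _) fun f _ _ => hF f


section
variable (M J a b K : ℕ)

/-- correlation of products -/
noncomputable def EE (u : Fin (J + 1) → {n // n ∈ Ioc a (a + K)})
    (v : Fin (J + 1) → {n // n ∈ Ioc b (b + K)}) : ℝ :=
  Ex (fun x : Fin M → ℤˣ => (∏ i, cf M x (u i)) * ∏ i, cf M x (v i))

/-- same window weight -/
noncomputable def PP (G : ℝ) (n m : {n // n ∈ Ioc a (a + K)}) : ℝ :=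
  if (n : ℕ) ≠ m ∧ G ≤ ((n : ℕ).gcd m : ℝ) then 1 else 0

/-- two windows weight -/
noncomputable def QQ (G : ℝ) (n : {n // n ∈ Ioc a (a + K)}) (m : {n // n ∈ Ioc b (b + K)}) : ℝ :=
  if G ≤ ((n : ℕ).gcd m : ℝ) then 1 else 0

variable {M J a b K}

lemma EE_prop (haM : a + K < M) (hbM : b + K < M) (u : Fin (J + 1) → {n // n ∈ Ioc a (a + K)})
    (v : Fin (J + 1) → {n // n ∈ Ioc b (b + K)}) :
    0 ≤ EE M J a b K u v ∧ (EE M J a b K u v ≠ 0 → (∀ i, Squarefree (u i : ℕ)) ∧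
      (∀ i, Squarefree (v i : ℕ)) ∧ IsSquare ((∏ i, (u i : ℕ)) * ∏ i, (v i : ℕ))) := by
  have h := Ex_pr (ι := Fin (J + 1) ⊕ Fin (J + 1)) M
    (Sum.elim (fun i => (u i : ℕ)) (fun i => (v i : ℕ))) (by
      rintro (i | i)
      · exact lt_of_le_of_lt (mem_Ioc.1 (u i).2).2 haM
      · exact lt_of_le_of_lt (mem_Ioc.1 (v i).2).2 hbM)
  simp only [Fintype.prod_sum_type, Sum.elim_inl, Sum.elim_inr, Sum.forall] at h
  exact ⟨h.1, fun hne => ⟨(h.2 hne).1.1, (h.2 hne).1.2, (h.2 hne).2⟩⟩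

lemma PP_nonneg (G : ℝ) (n m : {n // n ∈ Ioc a (a + K)}) : 0 ≤ PP a K G n m := by
  unfold PP; split_ifs <;> norm_num

lemma QQ_nonneg (G : ℝ) (n : {n // n ∈ Ioc a (a + K)}) (m : {n // n ∈ Ioc b (b + K)}) :
    0 ≤ QQ a b K G n m := by
  unfold QQ; split_ifs <;> norm_num

/-- the total weight -/
noncomputable def TT (G : ℝ) (u : Fin (J + 1) → {n // n ∈ Ioc a (a + K)})
    (v : Fin (J + 1) → {n // n ∈ Ioc b (b + K)}) : ℝ :=
  ∑ l : Fin J, PP a K G (u 0) (u l.succ) + ∑ l, QQ a b K G (u 0) (v l)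

lemma TT_nonneg (G : ℝ) (u : Fin (J + 1) → {n // n ∈ Ioc a (a + K)})
    (v : Fin (J + 1) → {n // n ∈ Ioc b (b + K)}) : 0 ≤ TT G u v :=
  add_nonneg (Finset.sum_nonneg fun _ _ => PP_nonneg _ _ _)
    (Finset.sum_nonneg fun _ _ => QQ_nonneg _ _ _)

lemma key (hgcd : SGcd) (B : ℕ) (hB : 1 ≤ B) (hBa : B ≤ a) (hBb : B ≤ b) (haM : a + K < M)
    (hbM : b + K < M) (u : Fin (J + 1) ↪ {n // n ∈ Ioc a (a + K)})
    (v : Fin (J + 1) ↪ {n // n ∈ Ioc b (b + K)}) :
    EE M J a b K (fun i => u i) (fun i => v i) ≤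
      TT ((B : ℝ) ^ (1 / (2 * (J : ℝ) + 1))) (fun i => u i) (fun i => v i) *
        EE M J a b K (fun i => u i) (fun i => v i) := by
  classical
  obtain ⟨h0, h1⟩ := EE_prop haM hbM (fun i => u i) (fun i => v i)
  by_cases hE : EE M J a b K (fun i => u i) (fun i => v i) = 0
  · rw [hE, mul_zero]
  obtain ⟨hu, hv, hsq⟩ := h1 hE
  refine le_mul_of_one_le_left h0 ?_
  let e : Fin (2 * J + 2) ≃ Fin (J + 1) ⊕ Fin (J + 1) :=
    Fintype.equivOfCardEq (by simp only [Fintype.card_fin, Fintype.card_sum]; ring)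
  obtain ⟨l, hl, hg⟩ := hgcd (2 * J) B
    (fun i => Sum.elim (fun i => (u i : ℕ)) (fun i => (v i : ℕ)) (e i)) hB
    (by
      intro i
      rcases e i with j | j
      · exact hBa.trans (mem_Ioc.1 (u j).2).1.le
      · exact hBb.trans (mem_Ioc.1 (v j).2).1.le)
    (by
      intro i
      rcases e i with j | j
      · exact hu j
      · exact hv j)
    (by
      rw [Equiv.prod_comp e (Sum.elim (fun i => (u i : ℕ)) (fun i => (v i : ℕ))),
        Fintype.prod_sum_type]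
      exact hsq)
    (e.symm (Sum.inl 0))
  have hr : (((2 * J : ℕ) : ℝ)) = 2 * (J : ℝ) := by push_cast; ring
  rw [hr, Equiv.apply_symm_apply] at hg
  rcases hel : e l with l' | l'
  · rw [hel] at hg
    have hl0 : l' ≠ 0 := by
      rintro rfl
      exact hl (by rw [← hel, Equiv.symm_apply_apply])
    obtain ⟨l2, rfl⟩ := Fin.exists_succ_eq.2 hl0
    have hne : ((u 0 : {n // n ∈ Ioc a (a + K)}) : ℕ) ≠ u l2.succ := by
      intro h
      exact hl0 (u.injective (Subtype.ext h)).symm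
    have h2 : PP a K ((B : ℝ) ^ (1 / (2 * (J : ℝ) + 1))) (u 0) (u l2.succ) = 1 := by
      unfold PP
      exact if_pos ⟨hne, hg⟩
    unfold TT
    have h3 : (1 : ℝ) ≤ ∑ l : Fin J,
        PP a K ((B : ℝ) ^ (1 / (2 * (J : ℝ) + 1))) (u 0) (u l.succ) := by
      refine h2.symm.le.trans ?_
      exact Finset.single_le_sum
        (f := fun l : Fin J => PP a K ((B : ℝ) ^ (1 / (2 * (J : ℝ) + 1))) (u 0) (u l.succ))
        (fun _ _ => PP_nonneg _ _ _) (Finset.mem_univ l2)
    have h4 : (0 : ℝ) ≤ ∑ l : Fin (J + 1),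
        QQ a b K ((B : ℝ) ^ (1 / (2 * (J : ℝ) + 1))) (u 0) (v l) :=
      Finset.sum_nonneg fun _ _ => QQ_nonneg _ _ _
    linarith
  · rw [hel] at hg
    have h2 : QQ a b K ((B : ℝ) ^ (1 / (2 * (J : ℝ) + 1))) (u 0) (v l') = 1 := by
      unfold QQ
      exact if_pos hg
    unfold TT
    have h3 : (0 : ℝ) ≤ ∑ l : Fin J,
        PP a K ((B : ℝ) ^ (1 / (2 * (J : ℝ) + 1))) (u 0) (u l.succ) :=
      Finset.sum_nonneg fun _ _ => PP_nonneg _ _ _
    have h4 : (1 : ℝ) ≤ ∑ l : Fin (J + 1),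
        QQ a b K ((B : ℝ) ^ (1 / (2 * (J : ℝ) + 1))) (u 0) (v l) := by
      refine h2.symm.le.trans ?_
      exact Finset.single_le_sum
        (f := fun l : Fin (J + 1) => QQ a b K ((B : ℝ) ^ (1 / (2 * (J : ℝ) + 1))) (u 0) (v l))
        (fun _ _ => QQ_nonneg _ _ _) (Finset.mem_univ l')
    linarith

lemma W_eq (g : ℕ → ℝ) (a K : ℕ) : W g a K = ∑ n : {n // n ∈ Ioc a (a + K)}, g n := by
  unfold W
  exact (Finset.sum_coe_sort (Ioc a (a + K)) g).symm

lemma Gs_eq (g : ℕ → ℝ) (G : ℝ) (a K : ℕ) : Gs g G a K =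
    ∑ n : {n // n ∈ Ioc a (a + K)}, ∑ m : {n // n ∈ Ioc a (a + K)}, PP a K G n m * (g n * g m) := by
  unfold Gs PP
  rw [← Finset.sum_coe_sort (Ioc a (a + K))]
  refine Finset.sum_congr rfl fun n _ => ?_
  rw [← Finset.sum_coe_sort (Ioc a (a + K))]
  refine Finset.sum_congr rfl fun m _ => ?_
  split_ifs <;> simp

lemma Gc_eq (g : ℕ → ℝ) (G : ℝ) (a b K : ℕ) : Gc g G a b K =
    ∑ n : {n // n ∈ Ioc a (a + K)}, ∑ m : {n // n ∈ Ioc b (b + K)},
      QQ a b K G n m * (g n * g m) := by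
  unfold Gc QQ
  rw [← Finset.sum_coe_sort (Ioc a (a + K))]
  refine Finset.sum_congr rfl fun n _ => ?_
  rw [← Finset.sum_coe_sort (Ioc b (b + K))]
  refine Finset.sum_congr rfl fun m _ => ?_
  split_ifs <;> simp

lemma Ex_two (c : (Fin (J + 1) → {n // n ∈ Ioc a (a + K)}) →
      (Fin (J + 1) → {n // n ∈ Ioc b (b + K)}) → ℝ) :
    Ex (fun x : Fin M → ℤˣ => ∑ u, ∑ v, c u v * ((∏ i, cf M x (u i)) * ∏ i, cf M x (v i))) =
      ∑ u, ∑ v, c u v * EE M J a b K u v := by
  rw [Ex_sum]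
  refine Finset.sum_congr rfl fun u _ => ?_
  rw [Ex_sum]
  refine Finset.sum_congr rfl fun v _ => ?_
  rw [Ex_const_mul]
  rfl

lemma same_eq (G : ℝ) (l : Fin J) :
    ∑ u, ∑ v, PP a K G (u 0) (u l.succ) * EE M J a b K u v =
      Ex (fun x : Fin M → ℤˣ => Gs (cf M x) G a K *
        (W (cf M x) a K ^ (J - 1) * W (cf M x) b K ^ (J + 1))) := by
  rw [← Ex_two]
  refine Ex_congr fun x => ?_
  have h1 := sum_two l (PP a K G) (fun n : {n // n ∈ Ioc a (a + K)} => cf M x n)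
  rw [← mul_assoc, Gs_eq, W_eq (cf M x) a K, ← h1, W_eq (cf M x) b K, Fintype.sum_pow,
    Finset.sum_mul_sum]
  refine Finset.sum_congr rfl fun u _ => Finset.sum_congr rfl fun v _ => ?_
  ring

lemma cross_eq (G : ℝ) (l : Fin (J + 1)) :
    ∑ u, ∑ v, QQ a b K G (u 0) (v l) * EE M J a b K u v =
      Ex (fun x : Fin M → ℤˣ => Gc (cf M x) G a b K *
        (W (cf M x) a K ^ J * W (cf M x) b K ^ J)) := by
  rw [← Ex_two]
  refine Ex_congr fun x => ?_
  rw [Gc_eq, W_eq (cf M x) a K, W_eq (cf M x) b K]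
  exact sum_cross l (QQ a b K G) (fun n : {n // n ∈ Ioc a (a + K)} => cf M x n)
    (fun n : {n // n ∈ Ioc b (b + K)} => cf M x n)

end

end Split2

open Split2 in
theorem split : SSplit := by
  intro hgcd M J B a b K hB hBa hBb haM hbM
  classical
  set G : ℝ := (B : ℝ) ^ (1 / (2 * (J : ℝ) + 1)) with hG
  have h1 : Ex (fun x : Fin M → ℤˣ => S (cf M x) (J + 1) a K * S (cf M x) (J + 1) b K) =
      ∑ u : Fin (J + 1) ↪ {n // n ∈ Ioc a (a + K)}, ∑ v : Fin (J + 1) ↪ {n // n ∈ Ioc b (b + K)},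
        EE M J a b K (fun i => u i) (fun i => v i) := by
    have h2 : ∀ x : Fin M → ℤˣ, S (cf M x) (J + 1) a K * S (cf M x) (J + 1) b K =
        ∑ u : Fin (J + 1) ↪ {n // n ∈ Ioc a (a + K)}, ∑ v : Fin (J + 1) ↪ {n // n ∈ Ioc b (b + K)},
          (∏ i, cf M x (u i)) * ∏ i, cf M x (v i) := by
      intro x
      unfold S
      rw [Finset.sum_mul_sum]
    rw [Ex_congr h2, Ex_sum]
    refine Finset.sum_congr rfl fun u _ => ?_
    rw [Ex_sum]
    rfl
  have h3 : ∀ (u : Fin (J + 1) → {n // n ∈ Ioc a (a + K)})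
      (v : Fin (J + 1) → {n // n ∈ Ioc b (b + K)}), 0 ≤ TT G u v * EE M J a b K u v :=
    fun u v => mul_nonneg (TT_nonneg _ _ _) (EE_prop haM hbM u v).1
  have h4 : ∑ u : Fin (J + 1) ↪ {n // n ∈ Ioc a (a + K)},
        ∑ v : Fin (J + 1) ↪ {n // n ∈ Ioc b (b + K)},
        EE M J a b K (fun i => u i) (fun i => v i) ≤
      ∑ u : Fin (J + 1) → {n // n ∈ Ioc a (a + K)}, ∑ v : Fin (J + 1) → {n // n ∈ Ioc b (b + K)},
        TT G u v * EE M J a b K u v := by
    refine (Finset.sum_le_sum fun u _ => Finset.sum_le_sum fun v _ =>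
      key hgcd B hB hBa hBb haM hbM u v).trans ?_
    refine (Finset.sum_le_sum fun (u : Fin (J + 1) ↪ {n // n ∈ Ioc a (a + K)}) _ =>
      sum_emb (fun v => TT G (fun i => u i) v * EE M J a b K (fun i => u i) v)
        (fun v => h3 _ v)).trans ?_
    exact sum_emb (fun u => ∑ v : Fin (J + 1) → {n // n ∈ Ioc b (b + K)},
      TT G u v * EE M J a b K u v) (fun u => Finset.sum_nonneg fun v _ => h3 u v)
  have h5 : ∑ u : Fin (J + 1) → {n // n ∈ Ioc a (a + K)},
        ∑ v : Fin (J + 1) → {n // n ∈ Ioc b (b + K)}, TT G u v * EE M J a b K u v =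
      ∑ l : Fin J, (∑ u : Fin (J + 1) → {n // n ∈ Ioc a (a + K)},
        ∑ v : Fin (J + 1) → {n // n ∈ Ioc b (b + K)},
          PP a K G (u 0) (u l.succ) * EE M J a b K u v) +
      ∑ l : Fin (J + 1), (∑ u : Fin (J + 1) → {n // n ∈ Ioc a (a + K)},
        ∑ v : Fin (J + 1) → {n // n ∈ Ioc b (b + K)},
          QQ a b K G (u 0) (v l) * EE M J a b K u v) := by
    rw [Finset.sum_comm (s := (univ : Finset (Fin J))),
      Finset.sum_comm (s := (univ : Finset (Fin (J + 1)))), ← Finset.sum_add_distrib]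
    refine Finset.sum_congr rfl fun u _ => ?_
    rw [Finset.sum_comm (s := (univ : Finset (Fin J))),
      Finset.sum_comm (s := (univ : Finset (Fin (J + 1)))), ← Finset.sum_add_distrib]
    refine Finset.sum_congr rfl fun v _ => ?_
    unfold TT
    rw [add_mul, Finset.sum_mul, Finset.sum_mul]
  rw [h1]
  refine h4.trans (le_of_eq ?_)
  rw [h5, Finset.sum_congr rfl (fun l _ => same_eq G l),
    Finset.sum_congr rfl (fun l _ => cross_eq G l), Finset.sum_const, Finset.sum_const,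
    Finset.card_univ, Finset.card_univ, Fintype.card_fin, Fintype.card_fin, nsmul_eq_mul,
    nsmul_eq_mul]
  push_cast
  ring

end Pool.Agent.W815.RGE


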