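import Pool.Agent.W815.RGC.Stm

set_option autoImplicit false

namespace Pool.Agent.W815.RGC

open Finset MeasureTheory Filter Topology

namespace Asy2

theorem rf_le (s : ℕ → ℤˣ) (n : ℕ) : |rf s n| ≤ 1 := by
  unfold rf
  split_ifs with h
  · rw [Finset.abs_prod]
    refine le_of_eq (Finset.prod_eq_one fun p _ => ?_)
    rcases Int.units_eq_one_or (s p) with h | h <;> simp [h]
  · simp

theorem sq_aux (H : ℝ) (hH : 1 ≤ H) : 2 * (H + 1) ^ 2 ≤ 8 * H ^ 2 := by nlinarith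

set_option maxHeartbeats 1000000 in
theorem core (A : ℕ → ℕ → ℝ) (C δ₁ ε c X H I : ℝ) (B₀ : ℕ) (hC : 0 < C) (hδ0 : 0 < δ₁)
    (hδ1 : δ₁ < 1) (hε0 : 0 < ε) (hε1 : ε < 1) (hc0 : 0 < c) (hc1 : c ≤ 1)
    (hA : ∀ B : ℕ, B₀ ≤ B → ∀ K : ℕ, 1 ≤ K → (K : ℝ) ≤ (B : ℝ) ^ (1 - ε / 2) →
      |A B K - c * K * B| ≤ (K : ℝ) * (C * Real.sqrt ((B : ℝ) + K) + (B : ℝ) ^ (1 - δ₁)))
    (hX : 4 ≤ X) (hXB : (B₀ : ℝ) ≤ X / 4) (h8 : 8 ≤ X ^ (ε / 2)) (hH : 1 ≤ H)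
    (hH2 : H ≤ X ^ (1 - ε))
    (hI : |I - ((1 - Int.fract H) * (A ⌊2 * X - H / 2⌋₊ ⌊H⌋₊ - A ⌊X - H / 2⌋₊ ⌊H⌋₊) +
      Int.fract H * (A ⌊2 * X - H / 2⌋₊ (⌊H⌋₊ + 1) - A ⌊X - H / 2⌋₊ (⌊H⌋₊ + 1)))| ≤
      2 * (H + 1) ^ 2) :
    |I - c * H * X| ≤ 8 * H ^ 2 + 8 * H * (C * X ^ (1 / 2 : ℝ) + X ^ (1 - δ₁)) + H := by
  have hX0 : (0 : ℝ) < X := by linarith
  have hX1 : (1 : ℝ) ≤ X := by linarith
  have hHX : H ≤ X := by
    refine hH2.trans ?_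
    calc X ^ (1 - ε) ≤ X ^ (1 : ℝ) := Real.rpow_le_rpow_of_exponent_le hX1 (by linarith)
      _ = X := Real.rpow_one X
  have hfr : Int.fract H = H - (⌊H⌋₊ : ℝ) := by
    rw [natCast_floor_eq_intCast_floor (by linarith : (0 : ℝ) ≤ H)]
    rfl
  have hr0 := Int.fract_nonneg H
  have hr1 := Int.fract_lt_one H
  have hK0 : 1 ≤ ⌊H⌋₊ := Nat.le_floor (by simpa using hH)
  have hK0H : (⌊H⌋₊ : ℝ) ≤ H := Nat.floor_le (by linarith)
  have hb1 : (⌊X - H / 2⌋₊ : ℝ) ≤ X - H / 2 := Nat.floor_le (by linarith)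
  have hb2 : (⌊2 * X - H / 2⌋₊ : ℝ) ≤ 2 * X - H / 2 := Nat.floor_le (by linarith)
  have hb3 := Nat.lt_floor_add_one (X - H / 2)
  have hb4 := Nat.lt_floor_add_one (2 * X - H / 2)
  generalize ⌊H⌋₊ = K0 at *
  generalize ⌊X - H / 2⌋₊ = B1 at *
  generalize ⌊2 * X - H / 2⌋₊ = B2 at *
  have hK0' : (1 : ℝ) ≤ (K0 : ℝ) := by exact_mod_cast hK0
  have hpow : ∀ B : ℕ, X / 4 ≤ (B : ℝ) → 2 * H ≤ (B : ℝ) ^ (1 - ε / 2) := by
    intro B hB
    have e1 : (X / 4) ^ (1 - ε / 2) ≤ (B : ℝ) ^ (1 - ε / 2) :=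
      Real.rpow_le_rpow (by linarith) hB (by linarith)
    have e2 : (X / 4) ^ (1 - ε / 2) = X ^ (1 - ε / 2) / (4 : ℝ) ^ (1 - ε / 2) :=
      Real.div_rpow hX0.le (by norm_num) _
    have e3 : (4 : ℝ) ^ (1 - ε / 2) ≤ 4 := by
      calc (4 : ℝ) ^ (1 - ε / 2) ≤ (4 : ℝ) ^ (1 : ℝ) :=
            Real.rpow_le_rpow_of_exponent_le (by norm_num) (by linarith)
        _ = 4 := Real.rpow_one 4
    have e4 : X ^ (1 - ε / 2) = X ^ (1 - ε) * X ^ (ε / 2) := by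
      rw [← Real.rpow_add hX0]
      ring_nf
    have e5 : 0 < (4 : ℝ) ^ (1 - ε / 2) := by positivity
    have e6 : 0 < X ^ (1 - ε) := Real.rpow_pos_of_pos hX0 _
    have e7 : 8 * X ^ (1 - ε) ≤ X ^ (1 - ε / 2) := by
      rw [e4]
      nlinarith
    have e8 : 2 * X ^ (1 - ε) ≤ X ^ (1 - ε / 2) / (4 : ℝ) ^ (1 - ε / 2) := by
      rw [le_div_iff₀ e5]
      nlinarith
    calc 2 * H ≤ 2 * X ^ (1 - ε) := by linarith
      _ ≤ _ := e8
      _ = _ := e2.symm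
      _ ≤ _ := e1
  have hXh : Real.sqrt (4 * X) = 2 * X ^ (1 / 2 : ℝ) := by
    rw [Real.sqrt_mul (by norm_num), ← Real.sqrt_eq_rpow]
    have : Real.sqrt 4 = 2 := by
      rw [show (4 : ℝ) = 2 ^ 2 by norm_num]
      exact Real.sqrt_sq (by norm_num)
    rw [this]
  have herr : ∀ B : ℕ, X / 4 ≤ (B : ℝ) → (B : ℝ) ≤ 2 * X → ∀ K : ℕ, 1 ≤ K → (K : ℝ) ≤ 2 * H →
      |A B K - c * K * B| ≤ 4 * H * (C * X ^ (1 / 2 : ℝ) + X ^ (1 - δ₁)) := by
    intro B hB hB2 K hK hK2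
    have h1 := hA B (by exact_mod_cast hXB.trans hB) K hK (hK2.trans (hpow B hB))
    have h2 : Real.sqrt ((B : ℝ) + K) ≤ 2 * X ^ (1 / 2 : ℝ) := by
      rw [← hXh]
      exact Real.sqrt_le_sqrt (by linarith)
    have h3 : (B : ℝ) ^ (1 - δ₁) ≤ 2 * X ^ (1 - δ₁) := by
      calc (B : ℝ) ^ (1 - δ₁) ≤ (2 * X) ^ (1 - δ₁) :=
            Real.rpow_le_rpow (Nat.cast_nonneg _) hB2 (by linarith)
        _ = (2 : ℝ) ^ (1 - δ₁) * X ^ (1 - δ₁) := Real.mul_rpow (by norm_num) hX0.le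
        _ ≤ 2 * X ^ (1 - δ₁) := by
            refine mul_le_mul_of_nonneg_right ?_ (Real.rpow_nonneg hX0.le _)
            calc (2 : ℝ) ^ (1 - δ₁) ≤ (2 : ℝ) ^ (1 : ℝ) :=
                  Real.rpow_le_rpow_of_exponent_le (by norm_num) (by linarith)
              _ = 2 := Real.rpow_one 2
    have h4 : 0 ≤ X ^ (1 / 2 : ℝ) := Real.rpow_nonneg hX0.le _
    have h5 : 0 ≤ X ^ (1 - δ₁) := Real.rpow_nonneg hX0.le _
    have h6 : C * Real.sqrt ((B : ℝ) + K) ≤ C * (2 * X ^ (1 / 2 : ℝ)) :=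
      mul_le_mul_of_nonneg_left h2 hC.le
    have h7 : 0 ≤ C * X ^ (1 / 2 : ℝ) := by positivity
    calc |A B K - c * K * B| ≤ (K : ℝ) * (C * Real.sqrt ((B : ℝ) + K) + (B : ℝ) ^ (1 - δ₁)) := h1
      _ ≤ (2 * H) * (C * (2 * X ^ (1 / 2 : ℝ)) + 2 * X ^ (1 - δ₁)) := by
          refine mul_le_mul hK2 (by linarith) ?_ (by linarith)
          have : 0 ≤ (B : ℝ) ^ (1 - δ₁) := Real.rpow_nonneg (Nat.cast_nonneg _) _
          positivity
      _ = 4 * H * (C * X ^ (1 / 2 : ℝ) + X ^ (1 - δ₁)) := by ring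
  have hB1 : X / 4 ≤ (B1 : ℝ) := by linarith
  have hB2 : X / 4 ≤ (B2 : ℝ) := by linarith
  have k1 := herr B1 hB1 (by linarith) K0 hK0 (by linarith)
  have k2 := herr B2 hB2 (by linarith) K0 hK0 (by linarith)
  have k3 := herr B1 hB1 (by linarith) (K0 + 1) (by omega) (by push_cast; linarith)
  have k4 := herr B2 hB2 (by linarith) (K0 + 1) (by omega) (by push_cast; linarith)
  have hg : 8 * H ^ 2 + 8 * H * (C * X ^ (1 / 2 : ℝ) + X ^ (1 - δ₁)) + H =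
      8 * H ^ 2 + 2 * (4 * H * (C * X ^ (1 / 2 : ℝ) + X ^ (1 - δ₁))) + H := by ring
  rw [hg]
  generalize 4 * H * (C * X ^ (1 / 2 : ℝ) + X ^ (1 - δ₁)) = e at k1 k2 k3 k4 ⊢
  push_cast at k3 k4
  generalize A B1 K0 = a1 at *
  generalize A B2 K0 = a2 at *
  generalize A B1 (K0 + 1) = a3 at *
  generalize A B2 (K0 + 1) = a4 at *
  rw [hfr] at hI hr0 hr1
  have hr0' : 0 ≤ H - (K0 : ℝ) := hr0
  generalize hr : H - (K0 : ℝ) = r at *
  have hK : (K0 : ℝ) = H - r := by linarith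
  rw [hK] at k1 k2 k3 k4
  have m1 : |(1 - r) * ((a2 - c * (H - r) * B2) - (a1 - c * (H - r) * B1)) +
      r * ((a4 - c * (H - r + 1) * B2) - (a3 - c * (H - r + 1) * B1))| ≤ 2 * e := by
    have n1 := abs_sub (a2 - c * (H - r) * B2) (a1 - c * (H - r) * B1)
    have n2 := abs_sub (a4 - c * (H - r + 1) * B2) (a3 - c * (H - r + 1) * B1)
    have n3 := abs_add_le ((1 - r) * ((a2 - c * (H - r) * B2) - (a1 - c * (H - r) * B1)))
      (r * ((a4 - c * (H - r + 1) * B2) - (a3 - c * (H - r + 1) * B1)))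
    rw [abs_mul, abs_mul, abs_of_nonneg hr0', abs_of_nonneg (by linarith : 0 ≤ 1 - r)] at n3
    have n4 : (1 - r) * |(a2 - c * (H - r) * B2) - (a1 - c * (H - r) * B1)| ≤ (1 - r) * (2 * e) :=
      mul_le_mul_of_nonneg_left (by linarith) (by linarith)
    have n5 : r * |(a4 - c * (H - r + 1) * B2) - (a3 - c * (H - r + 1) * B1)| ≤ r * (2 * e) :=
      mul_le_mul_of_nonneg_left (by linarith) hr0'
    linarith
  have m2 : |c * H * ((B2 : ℝ) - B1 - X)| ≤ H := by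
    have : |(B2 : ℝ) - B1 - X| ≤ 1 := by
      rw [abs_le]
      constructor <;> linarith
    rw [abs_mul, abs_of_pos (by positivity : 0 < c * H)]
    calc c * H * |(B2 : ℝ) - B1 - X| ≤ (1 * H) * 1 :=
          mul_le_mul (mul_le_mul_of_nonneg_right hc1 (by linarith)) this (abs_nonneg _)
            (by linarith)
      _ = H := by ring
  have m3 : I - c * H * X = (I - ((1 - r) * (a2 - a1) + r * (a4 - a3))) +
      ((1 - r) * ((a2 - c * (H - r) * B2) - (a1 - c * (H - r) * B1)) +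
      r * ((a4 - c * (H - r + 1) * B2) - (a3 - c * (H - r + 1) * B1))) +
      c * H * ((B2 : ℝ) - B1 - X) := by ring
  rw [m3]
  have m4 := abs_add_three (I - ((1 - r) * (a2 - a1) + r * (a4 - a3)))
    ((1 - r) * ((a2 - c * (H - r) * B2) - (a1 - c * (H - r) * B1)) +
      r * ((a4 - c * (H - r + 1) * B2) - (a3 - c * (H - r + 1) * B1)))
    (c * H * ((B2 : ℝ) - B1 - X))
  have m5 : 2 * (H + 1) ^ 2 ≤ 8 * H ^ 2 := sq_aux H hH
  refine m4.trans ?_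
  refine (add_le_add (add_le_add hI m1) m2).trans ?_
  exact add_le_add_left (add_le_add_left m5 _) _

end Asy2

/-- from the discrete asymptotics to the problem -/
theorem asy : SAsy := by
  rintro ⟨C, hC, hDiag⟩ hDet s hGood ε hε0 hε1
  obtain ⟨δ₁, hδ0, hδ1, B₀, hB⟩ := hGood (ε / 2) (by linarith) (by linarith)
  have hpi1 := Real.pi_gt_three
  have hpi2 := Real.pi_lt_d2
  have hpi0 : 0 < Real.pi := Real.pi_pos
  obtain ⟨c, hc⟩ : ∃ c : ℝ, c = 6 / Real.pi ^ 2 := ⟨_, rfl⟩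
  have hc0 : 0 < c := by rw [hc]; positivity
  have hc1 : c ≤ 1 := by
    rw [hc, div_le_one (by positivity)]
    nlinarith
  have hc2 : 1 / 2 ≤ c := by
    rw [hc, le_div_iff₀ (by positivity)]
    nlinarith
  obtain ⟨m, hm⟩ : ∃ m : ℝ, m = min (1 / 2) (min δ₁ ε) := ⟨_, rfl⟩
  have hm0 : 0 < m := by
    rw [hm]
    exact lt_min (by norm_num) (lt_min hδ0 hε0)
  have hm1 : m ≤ 1 / 2 := by rw [hm]; exact min_le_left _ _
  have hm2 : m ≤ δ₁ := by rw [hm]; exact (min_le_right _ _).trans (min_le_left _ _)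
  have hm3 : m ≤ ε := by rw [hm]; exact (min_le_right _ _).trans (min_le_right _ _)
  have ev1 : ∀ᶠ X : ℝ in atTop, 8 ≤ X ^ (ε / 2) :=
    (tendsto_rpow_atTop (by linarith : 0 < ε / 2)).eventually_ge_atTop 8
  have ev2 : ∀ᶠ X : ℝ in atTop, 34 + 16 * C ≤ X ^ (m / 2) :=
    (tendsto_rpow_atTop (by linarith : 0 < m / 2)).eventually_ge_atTop _
  have ev3 : ∀ᶠ X : ℝ in atTop, 4 ≤ X := eventually_ge_atTop 4
  have ev4 : ∀ᶠ X : ℝ in atTop, 4 * (B₀ : ℝ) ≤ X := eventually_ge_atTop _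
  obtain ⟨X₀, hX₀⟩ := Filter.eventually_atTop.1 (ev1.and (ev2.and (ev3.and ev4)))
  refine ⟨m / 2, X₀, by linarith, fun X H hXX hH hH2 => ?_⟩
  obtain ⟨h8, h34, hX4, hXB⟩ := hX₀ X hXX
  have hX0 : (0 : ℝ) < X := by linarith
  have hX1 : (1 : ℝ) ≤ X := by linarith
  have hH0 : 0 < H := by linarith
  have hHX : H ≤ X := by
    refine hH2.trans ?_
    calc X ^ (1 - ε) ≤ X ^ (1 : ℝ) := Real.rpow_le_rpow_of_exponent_le hX1 (by linarith)
      _ = X := Real.rpow_one X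
  have hI := hDet (rf s) (Asy2.rf_le s) X H (by linarith) hH hHX
  have hcore := Asy2.core (E (rf s)) C δ₁ ε c X H _ B₀ hC hδ0 hδ1 hε0 hε1 hc0 hc1 (by
    intro B hBB K hK hKB
    have h1 := hB B hBB K hK hKB
    have h2 := hDiag B K
    rw [← hc] at h2
    have h3 : E (rf s) B K - c * K * B = Off (rf s) B K + (Dg B K - c * K * B) := by
      unfold Off
      ring
    rw [h3]
    refine (abs_add_le _ _).trans ?_
    refine (add_le_add h1 h2).trans (le_of_eq ?_)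
    ring) hX4 (by linarith) h8 hH hH2 hI
  unfold V
  generalize (∫ x in X..2 * X, (∑ n ∈ (Finset.range (⌈x + H⌉₊ + 1)).filter
      (fun n : ℕ => |(n : ℝ) - x| < H / 2), rf s n) ^ 2) = I at hcore ⊢
  have hpos : 0 < c * H * X := by positivity
  have e1 : 1 / X * I / (H / (Real.pi ^ 2 / 6)) - 1 = (I - c * H * X) / (c * H * X) := by
    rw [hc]
    field_simp
  rw [e1, abs_div, abs_of_pos hpos, div_le_iff₀ hpos]
  refine hcore.trans ?_
  have y1 : H ≤ X ^ (1 - m) :=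
    hH2.trans (Real.rpow_le_rpow_of_exponent_le hX1 (by linarith))
  have y2 : X ^ (1 / 2 : ℝ) ≤ X ^ (1 - m) := Real.rpow_le_rpow_of_exponent_le hX1 (by linarith)
  have y3 : X ^ (1 - δ₁) ≤ X ^ (1 - m) := Real.rpow_le_rpow_of_exponent_le hX1 (by linarith)
  have y4 : 1 ≤ X ^ (1 - m) := Real.one_le_rpow hX1 (by linarith)
  have y5 : X ^ (1 - m) * X ^ (m / 2) = X * X ^ (-(m / 2)) := by
    nth_rewrite 3 [← Real.rpow_one X]
    rw [← Real.rpow_add hX0, ← Real.rpow_add hX0]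
    ring_nf
  have y6 : 0 < X ^ (-(m / 2)) := Real.rpow_pos_of_pos hX0 _
  generalize X ^ (1 - m) = Y at *
  have z1 : 8 * H ^ 2 ≤ 8 * H * Y := by nlinarith
  have z2 : C * X ^ (1 / 2 : ℝ) ≤ C * Y := mul_le_mul_of_nonneg_left y2 hC.le
  have z3 : 8 * H * (C * X ^ (1 / 2 : ℝ) + X ^ (1 - δ₁)) ≤ 8 * H * (C * Y + Y) :=
    mul_le_mul_of_nonneg_left (by linarith) (by positivity)
  have z4 : H ≤ H * Y := by nlinarith
  have z5 : Y * (34 + 16 * C) ≤ X * X ^ (-(m / 2)) := by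
    rw [← y5]
    exact mul_le_mul_of_nonneg_left h34 (by linarith)
  have z6 : H * (Y * (34 + 16 * C)) ≤ H * (X * X ^ (-(m / 2))) :=
    mul_le_mul_of_nonneg_left z5 hH0.le
  have z7 : 0 < H * (X * X ^ (-(m / 2))) := by positivity
  have z8 : (1 / 2) * (H * (X * X ^ (-(m / 2)))) ≤ c * (H * (X * X ^ (-(m / 2)))) :=
    mul_le_mul_of_nonneg_right hc2 z7.le
  calc 8 * H ^ 2 + 8 * H * (C * X ^ (1 / 2 : ℝ) + X ^ (1 - δ₁)) + H
      ≤ 8 * H * Y + 8 * H * (C * Y + Y) + H * Y := by linarith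
    _ = (1 / 2) * (H * (Y * (34 + 16 * C))) := by ring
    _ ≤ (1 / 2) * (H * (X * X ^ (-(m / 2)))) := by linarith
    _ ≤ c * (H * (X * X ^ (-(m / 2)))) := z8
    _ = X ^ (-(m / 2)) * (c * H * X) := by ring

end Pool.Agent.W815.RGC
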