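import Pool.Agent.W815.RGC.Stm

set_option autoImplicit false

/-!
# Borel-Cantelli for the off-diagonal part
-/

namespace Pool.Agent.W815.RGC

open Finset MeasureTheory Filter Topology Pool.Agent.Helper497.HS Pool.Agent.H595R2.PTF

theorem bc2_rf (s : ℕ → ℤˣ) (M n : ℕ) (hn : n < M) :
    rf (ext M (fun i : Fin M => s i)) n = rf s n := by
  classical
  unfold rf
  by_cases h : Squarefree n
  · rw [if_pos h, if_pos h]
    refine Finset.prod_congr rfl fun p hp => ?_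
    have h1 : p ≤ n := Nat.le_of_mem_primeFactors hp
    have h2 : p < M := lt_of_le_of_lt h1 hn
    unfold ext
    rw [dif_pos h2]
  · rw [if_neg h, if_neg h]

theorem bc2_off (s : ℕ → ℤˣ) (B K : ℕ) :
    Off (rf (ext (B + K + 1) (fun i : Fin (B + K + 1) => s i))) B K = Off (rf s) B K := by
  unfold Off E W
  congr 1
  refine Finset.sum_congr rfl fun a ha => ?_
  congr 1
  refine Finset.sum_congr rfl fun n hn => ?_
  rw [Finset.mem_range] at ha
  rw [Finset.mem_Ioc] at hn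
  exact bc2_rf s _ n (by omega)

theorem bc2_one (h1 : SFin) (h2 : SLaw) (Ω : Type) (hΩ : MeasurableSpace Ω) (μ : Measure Ω)
    (hμ : IsProbabilityMeasure μ) (e : ℕ → Ω → ℤˣ) (he : IsSigns μ e) (ε : ℝ) (hε : 0 < ε)
    (hε1 : ε < 1) : ∃ δ : ℝ, 0 < δ ∧ δ < 1 ∧ ∀ᵐ ω ∂μ, ∀ᶠ B : ℕ in atTop, ∀ K : ℕ, 1 ≤ K → K ≤ B →
      (K : ℝ) ≤ (B : ℝ) ^ (1 - ε) →
      |Off (rf (fun p => e p ω)) B K| ≤ (K : ℝ) * (B : ℝ) ^ (1 - δ) := by
  classical
  obtain ⟨δ, C, hδ, hδ1, hC, hF⟩ := h1 ε hε hε1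
  refine ⟨δ, hδ, hδ1, ?_⟩
  let S : ℕ → ℕ → Set Ω := fun B K =>
    {ω | (K : ℝ) * (B : ℝ) ^ (1 - δ) < |Off (rf (fun p => e p ω)) B K|}
  let I : ℕ → Finset ℕ := fun B => (Icc 1 B).filter (fun K => (K : ℝ) ≤ (B : ℝ) ^ (1 - ε))
  have hS : ∀ B K : ℕ, K ∈ I B → μ (S B K) ≤ ENNReal.ofReal (C / (B : ℝ) ^ 4) := by
    intro B K hK
    obtain ⟨hK1, hK2⟩ := Finset.mem_filter.1 hK
    rw [Finset.mem_Icc] at hK1
    have h3 := h2 Ω hΩ μ hμ e he (B + K + 1) (fun x : Fin (B + K + 1) → ℤˣ =>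
      (K : ℝ) * (B : ℝ) ^ (1 - δ) < |Off (rf (ext (B + K + 1) x)) B K|)
    have h4 : {ω | (K : ℝ) * (B : ℝ) ^ (1 - δ) < |Off (rf (ext (B + K + 1)
        (fun i : Fin (B + K + 1) => e i ω))) B K|} = S B K := by
      ext ω
      have h5 : Off (rf (ext (B + K + 1) (fun i : Fin (B + K + 1) => e i ω))) B K =
        Off (rf (fun p => e p ω)) B K := bc2_off (fun p => e p ω) B K
      rw [Set.mem_ofPred_eq, h5]
      rfl
    rw [← h4, h3]
    exact ENNReal.ofReal_le_ofReal (hF B K (by omega) hK1.1 hK2)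
  have hBad : ∀ B : ℕ, μ (⋃ K ∈ I B, S B K) ≤ ENNReal.ofReal (C * (1 / (B : ℝ) ^ 2)) := by
    intro B
    rcases Nat.eq_zero_or_pos B with rfl | hB
    · have : I 0 = ∅ := by
        apply Finset.eq_empty_of_forall_notMem
        intro K hK
        have := Finset.mem_Icc.1 (Finset.mem_filter.1 hK).1
        omega
      rw [this]
      simp
    · have hB' : (1 : ℝ) ≤ B := by exact_mod_cast hB
      calc μ (⋃ K ∈ I B, S B K) ≤ ∑ K ∈ I B, μ (S B K) := measure_biUnion_finset_le _ _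
        _ ≤ ∑ _K ∈ I B, ENNReal.ofReal (C / (B : ℝ) ^ 4) := Finset.sum_le_sum (hS B)
        _ = ENNReal.ofReal (((I B).card : ℝ) * (C / (B : ℝ) ^ 4)) := by
          rw [Finset.sum_const, nsmul_eq_mul, ENNReal.ofReal_mul (Nat.cast_nonneg _),
            ENNReal.ofReal_natCast]
        _ ≤ ENNReal.ofReal (C * (1 / (B : ℝ) ^ 2)) := by
          apply ENNReal.ofReal_le_ofReal
          have h5 : ((I B).card : ℝ) ≤ B := by
            have : (I B).card ≤ (Icc 1 B).card := Finset.card_filter_le _ _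
            rw [Nat.card_Icc] at this
            exact_mod_cast (by omega : (I B).card ≤ B)
          calc ((I B).card : ℝ) * (C / (B : ℝ) ^ 4) ≤ B * (C / (B : ℝ) ^ 4) :=
                mul_le_mul_of_nonneg_right h5 (by positivity)
            _ = C * (1 / (B : ℝ) ^ 3) := by
                field_simp
            _ ≤ C * (1 / (B : ℝ) ^ 2) := by
                apply mul_le_mul_of_nonneg_left _ hC.le
                exact one_div_le_one_div_of_le (by positivity)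
                  (pow_le_pow_right₀ hB' (by norm_num))
  have hsum : ∑' B : ℕ, μ (⋃ K ∈ I B, S B K) ≠ ⊤ := by
    have h6 : Summable (fun B : ℕ => C * (1 / (B : ℝ) ^ 2)) :=
      (Real.summable_one_div_nat_pow.2 (by norm_num)).mul_left C
    exact ne_top_of_le_ne_top h6.tsum_ofReal_ne_top (ENNReal.tsum_le_tsum hBad)
  filter_upwards [ae_eventually_notMem hsum] with ω hω
  filter_upwards [hω] with B hB K hK1 hK2 hK3
  by_contra hcon
  push Not at hcon
  apply hB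
  simp only [Set.mem_iUnion]
  exact ⟨K, Finset.mem_filter.2 ⟨Finset.mem_Icc.2 ⟨hK1, hK2⟩, hK3⟩, hcon⟩

theorem bc : SBc := by
  intro h1 h2 Ω hΩ μ hμ e he
  have hk : ∀ k : ℕ, 0 < 1 / ((k : ℝ) + 2) ∧ 1 / ((k : ℝ) + 2) < 1 := by
    intro k
    have : (0 : ℝ) ≤ k := Nat.cast_nonneg k
    refine ⟨by positivity, ?_⟩
    rw [div_lt_one (by positivity)]
    linarith
  choose δ hδ hδ1 hae using fun k : ℕ =>
    bc2_one h1 h2 Ω hΩ μ hμ e he (1 / ((k : ℝ) + 2)) (hk k).1 (hk k).2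
  filter_upwards [ae_all_iff.2 hae] with ω hω ε hε hε1
  obtain ⟨k, hkε⟩ := exists_nat_one_div_lt hε
  have hkε' : 1 / ((k : ℝ) + 2) ≤ ε := by
    have : (0 : ℝ) ≤ k := Nat.cast_nonneg k
    have h3 : 1 / ((k : ℝ) + 2) ≤ 1 / ((k : ℝ) + 1) :=
      one_div_le_one_div_of_le (by positivity) (by linarith)
    linarith
  obtain ⟨N, hN⟩ := eventually_atTop.1 (hω k)
  refine ⟨δ k, hδ k, hδ1 k, max N 1, fun B hB K hK hKB => ?_⟩
  have hB1 : 1 ≤ B := (le_max_right _ _).trans hB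
  have hB1' : (1 : ℝ) ≤ B := by exact_mod_cast hB1
  refine hN B ((le_max_left _ _).trans hB) K hK ?_ ?_
  · have h4 : (B : ℝ) ^ (1 - ε) ≤ (B : ℝ) ^ (1 : ℝ) :=
      Real.rpow_le_rpow_of_exponent_le hB1' (by linarith)
    rw [Real.rpow_one] at h4
    exact_mod_cast hKB.trans h4
  · exact hKB.trans (Real.rpow_le_rpow_of_exponent_le hB1' (by linarith))

end Pool.Agent.W815.RGC

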