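import Pool.Agent.W815.RGC.StmC
import Pool.Agent.H510R2.Div

set_option autoImplicit false

/-!
# Project RGD: the number of quadruples
-/

namespace Pool.Agent.W815.RGD

open Finset

theorem cls_card (M q : ℕ) (hM : 1 ≤ M) (hq : 1 ≤ q) (v : ℤ) :
    (((Ioc (-(M : ℤ) - 1) (M : ℤ)).filter (fun x => v ≡ x [ZMOD q])).card : ℝ) ≤
      3 * ((M : ℝ) / q + 1) := by
  have hq' : (0 : ℤ) < q := by exact_mod_cast hq
  have h := Int.Ioc_filter_modEq_card (-(M : ℤ) - 1) (M : ℤ) hq' v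
  have h0 : (Ioc (-(M : ℤ) - 1) (M : ℤ)).filter (fun x => v ≡ x [ZMOD q]) =
      (Ioc (-(M : ℤ) - 1) (M : ℤ)).filter (fun x => x ≡ v [ZMOD q]) :=
    Finset.filter_congr fun x _ => Int.modEq_comm
  rw [h0]
  have hq0 : (0 : ℚ) < q := by exact_mod_cast hq
  have hM0 : (1 : ℚ) ≤ M := by exact_mod_cast hM
  have h1 : (((Ioc (-(M : ℤ) - 1) (M : ℤ)).filter (fun x => x ≡ v [ZMOD q])).card : ℚ) ≤
      3 * ((M : ℚ) / q + 1) := by
    have h2 : ((((Ioc (-(M : ℤ) - 1) (M : ℤ)).filter (fun x => x ≡ v [ZMOD q])).card : ℤ) : ℚ) =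
        ((max (⌊((M : ℤ) - v : ℚ) / ((q : ℤ) : ℚ)⌋ -
          ⌊(((-(M : ℤ) - 1 : ℤ) : ℚ) - v) / ((q : ℤ) : ℚ)⌋) 0 : ℤ) : ℚ) := by
      rw [h]
    have h3 : (((Ioc (-(M : ℤ) - 1) (M : ℤ)).filter (fun x => x ≡ v [ZMOD q])).card : ℚ) =
        ((((Ioc (-(M : ℤ) - 1) (M : ℤ)).filter (fun x => x ≡ v [ZMOD q])).card : ℤ) : ℚ) := by
      push_cast
      rfl
    rw [h3, h2]
    have h4 : (0 : ℚ) ≤ 3 * ((M : ℚ) / q + 1) := by positivity
    rcases max_choice (⌊((M : ℤ) - v : ℚ) / ((q : ℤ) : ℚ)⌋ -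
          ⌊(((-(M : ℤ) - 1 : ℤ) : ℚ) - v) / ((q : ℤ) : ℚ)⌋) 0 with h5 | h5
    · rw [h5]
      push_cast
      have e1 := Int.floor_le (((M : ℚ) - v) / (q : ℚ))
      have e2 := Int.lt_floor_add_one ((-(M : ℚ) - 1 - v) / (q : ℚ))
      have e3 : ((M : ℚ) - v) / (q : ℚ) - (-(M : ℚ) - 1 - v) / (q : ℚ) = (2 * M + 1) / q := by
        field_simp
        ring
      have e4 : (2 * (M : ℚ) + 1) / q ≤ 3 * ((M : ℚ) / q) := by
        rw [← mul_div_assoc]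
        exact div_le_div_of_nonneg_right (by linarith) hq0.le
      linarith
    · rw [h5]
      push_cast
      exact h4
  have h6 : (((((Ioc (-(M : ℤ) - 1) (M : ℤ)).filter (fun x => x ≡ v [ZMOD q])).card : ℚ) : ℚ) : ℝ) ≤
      ((3 * ((M : ℚ) / q + 1) : ℚ) : ℝ) := by exact_mod_cast h1
  push_cast at h6
  exact h6

/-- pairs -/
noncomputable def PP (M q : ℕ) : Finset (ℤ × ℤ) :=
  ((Ioc (-(M : ℤ) - 1) (M : ℤ)) ×ˢ (Ioc (-(M : ℤ) - 1) (M : ℤ))).filter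
    (fun x => x.1 ≡ x.2 [ZMOD q] ∧ x.1 ≠ 0 ∧ x.2 ≠ 0)

theorem PP_card (M q : ℕ) (hM : 1 ≤ M) (hq : 1 ≤ q) :
    ((PP M q).card : ℝ) ≤ 9 * M * ((M : ℝ) / q + 1) := by
  classical
  have h1 : PP M q ⊆ (Ioc (-(M : ℤ) - 1) (M : ℤ)).biUnion (fun a =>
      ((Ioc (-(M : ℤ) - 1) (M : ℤ)).filter (fun x => a ≡ x [ZMOD q])).image (fun x => (a, x))) := by
    rintro ⟨a, b⟩ h
    simp only [PP, Finset.mem_filter, Finset.mem_product] at h
    simp only [Finset.mem_biUnion, Finset.mem_image, Finset.mem_filter]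
    exact ⟨a, h.1.1, b, ⟨h.1.2, h.2.1⟩, rfl⟩
  have h2 : (PP M q).card ≤ ∑ a ∈ Ioc (-(M : ℤ) - 1) (M : ℤ),
      ((Ioc (-(M : ℤ) - 1) (M : ℤ)).filter (fun x => a ≡ x [ZMOD q])).card := by
    refine (Finset.card_le_card h1).trans (Finset.card_biUnion_le.trans ?_)
    exact Finset.sum_le_sum fun a _ => Finset.card_image_le
  have h3 : ((PP M q).card : ℝ) ≤ ∑ a ∈ Ioc (-(M : ℤ) - 1) (M : ℤ), 3 * ((M : ℝ) / q + 1) := by
    have h4 : ((PP M q).card : ℝ) ≤ ((∑ a ∈ Ioc (-(M : ℤ) - 1) (M : ℤ),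
      ((Ioc (-(M : ℤ) - 1) (M : ℤ)).filter (fun x => a ≡ x [ZMOD q])).card : ℕ) : ℝ) := by
      exact_mod_cast h2
    refine h4.trans ?_
    push_cast
    exact Finset.sum_le_sum fun a _ => cls_card M q hM hq a
  refine h3.trans ?_
  rw [Finset.sum_const, nsmul_eq_mul, Int.card_Ioc]
  have h5 : (((M : ℤ) - (-(M : ℤ) - 1)).toNat : ℝ) ≤ 3 * M := by
    have : ((M : ℤ) - (-(M : ℤ) - 1)).toNat ≤ 3 * M := by omega
    exact_mod_cast this
  have h6 : (0 : ℝ) ≤ 3 * ((M : ℝ) / q + 1) := by positivity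
  calc _ ≤ 3 * (M : ℝ) * (3 * ((M : ℝ) / q + 1)) := mul_le_mul_of_nonneg_right h5 h6
    _ = _ := by ring

theorem quad_card (N L q : ℕ) :
    (Quad N L q).card ≤ ∑ x ∈ PP (N * L) q,
      (x.1.natAbs.divisors ×ˢ x.2.natAbs.divisors).card := by
  classical
  rw [← Finset.card_sigma]
  refine Finset.card_le_card_of_injOn (fun z : (ℕ × ℕ) × (ℕ × ℕ) =>
    (⟨(((z.1.1 : ℤ) - z.1.2) * z.2.2, ((z.2.1 : ℤ) - z.2.2) * z.1.2), (z.2.2, z.1.2)⟩ :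
      (Σ _ : ℤ × ℤ, ℕ × ℕ))) ?_ ?_
  · rintro ⟨⟨n1, m1⟩, ⟨n2, m2⟩⟩ hz
    simp only [Quad, Finset.coe_filter, Set.mem_ofPred_eq, Finset.mem_product,
      Finset.mem_Icc] at hz
    obtain ⟨⟨⟨⟨a1, a2⟩, a3, a4⟩, ⟨a5, a6⟩, a7, a8⟩, b1, b2, b3, b4, b5, b6, b7⟩ := hz
    have c1 : ((n1 : ℤ) - m1) ≤ L := by omega
    have c2 : -(L : ℤ) ≤ ((n1 : ℤ) - m1) := by omega
    have c3 : ((n2 : ℤ) - m2) ≤ L := by omega
    have c4 : -(L : ℤ) ≤ ((n2 : ℤ) - m2) := by omega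
    have c5 : ((n1 : ℤ) - m1) ≠ 0 := by omega
    have c6 : ((n2 : ℤ) - m2) ≠ 0 := by omega
    have d1 : (1 : ℤ) ≤ m1 := by exact_mod_cast a3
    have d2 : (m1 : ℤ) ≤ N := by exact_mod_cast a4
    have d3 : (1 : ℤ) ≤ m2 := by exact_mod_cast a7
    have d4 : (m2 : ℤ) ≤ N := by exact_mod_cast a8
    have hL0 : (0 : ℤ) ≤ L := by positivity
    have e1 : ((n1 : ℤ) - m1) * m2 ≠ 0 := mul_ne_zero c5 (by omega)
    have e2 : ((n2 : ℤ) - m2) * m1 ≠ 0 := mul_ne_zero c6 (by omega)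
    have hmod : ((n1 : ℤ) - m1) * m2 ≡ ((n2 : ℤ) - m2) * m1 [ZMOD q] := by
      have h1 : (n1 : ℤ) * m2 ≡ n2 * m1 [ZMOD q] := by
        have := (Int.natCast_modEq_iff).2 b7
        push_cast at this
        exact this
      have h2 := h1.sub_right ((m1 : ℤ) * m2)
      have e3 : ((n1 : ℤ) - m1) * m2 = (n1 : ℤ) * m2 - (m1 : ℤ) * m2 := by ring
      have e4 : ((n2 : ℤ) - m2) * m1 = (n2 : ℤ) * m1 - (m1 : ℤ) * m2 := by ring
      rw [e3, e4]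
      exact h2
    simp only [Finset.coe_sigma, Set.mem_sigma_iff, Finset.mem_coe, PP, Finset.mem_filter,
      Finset.mem_product, Finset.mem_Ioc, Nat.mem_divisors]
    refine ⟨⟨⟨⟨?_, ?_⟩, ?_, ?_⟩, hmod, e1, e2⟩, ⟨?_, ?_⟩, ?_, ?_⟩
    · push_cast
      nlinarith
    · push_cast
      nlinarith
    · push_cast
      nlinarith
    · push_cast
      nlinarith
    · rw [Int.natAbs_mul, Int.natAbs_natCast]
      exact dvd_mul_left _ _
    · exact Int.natAbs_ne_zero.2 e1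
    · rw [Int.natAbs_mul, Int.natAbs_natCast]
      exact dvd_mul_left _ _
    · exact Int.natAbs_ne_zero.2 e2
  · rintro ⟨⟨n1, m1⟩, ⟨n2, m2⟩⟩ hz ⟨⟨n1', m1'⟩, ⟨n2', m2'⟩⟩ hz' heq
    simp only [Quad, Finset.coe_filter, Set.mem_ofPred_eq, Finset.mem_product,
      Finset.mem_Icc] at hz hz'
    simp only [Sigma.mk.injEq, Prod.mk.injEq, heq_eq_eq] at heq
    obtain ⟨⟨h1, h2⟩, h3, h4⟩ := heq
    subst h3 h4
    have d1 : (m1 : ℤ) ≠ 0 := by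
      have := hz.1.1.2.1
      omega
    have d2 : (m2 : ℤ) ≠ 0 := by
      have := hz.1.2.2.1
      omega
    have e1 := mul_right_cancel₀ d2 h1
    have e2 := mul_right_cancel₀ d1 h2
    have e3 : n1 = n1' := by omega
    have e4 : n2 = n2' := by omega
    rw [e3, e4]

theorem cntC : SCntC := by
  intro η hη
  obtain ⟨D, hD, hτ⟩ := Pool.Agent.H510R2.divisor_bound (η / 4) (by positivity)
  refine ⟨9 * D ^ 2, by positivity, ?_⟩
  intro N L q hN hL hLN hq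
  have hM : 1 ≤ N * L := Nat.mul_pos hN hL
  have hN1 : (1 : ℝ) ≤ N := by exact_mod_cast hN
  have hdiv : ∀ a : ℤ, a ≠ 0 → a ∈ Ioc (-((N * L : ℕ) : ℤ) - 1) ((N * L : ℕ) : ℤ) →
      (a.natAbs.divisors.card : ℝ) ≤ D * (N : ℝ) ^ (η / 2) := by
    intro a ha hmem
    rw [Finset.mem_Ioc] at hmem
    have h1 : 1 ≤ a.natAbs := Int.natAbs_pos.2 ha
    have h2 : a.natAbs ≤ N * L := by omega
    have h3 : a.natAbs ≤ N ^ 2 := by
      rw [sq]
      exact h2.trans (Nat.mul_le_mul_left _ hLN)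
    have h4 : (a.natAbs : ℝ) ≤ (N : ℝ) ^ (2 : ℝ) := by
      rw [Real.rpow_two]
      exact_mod_cast h3
    refine (hτ _ h1).trans ?_
    apply mul_le_mul_of_nonneg_left _ hD.le
    calc (a.natAbs : ℝ) ^ (η / 4) ≤ ((N : ℝ) ^ (2 : ℝ)) ^ (η / 4) :=
          Real.rpow_le_rpow (by positivity) h4 (by positivity)
      _ = (N : ℝ) ^ (η / 2) := by
          rw [← Real.rpow_mul (by positivity)]
          congr 1
          ring
  have h1 : ((Quad N L q).card : ℝ) ≤ ∑ x ∈ PP (N * L) q,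
      (((x.1.natAbs.divisors ×ˢ x.2.natAbs.divisors).card : ℕ) : ℝ) := by
    exact_mod_cast quad_card N L q
  have h2 : ∀ x ∈ PP (N * L) q,
      (((x.1.natAbs.divisors ×ˢ x.2.natAbs.divisors).card : ℕ) : ℝ) ≤ D ^ 2 * (N : ℝ) ^ η := by
    intro x hx
    simp only [PP, Finset.mem_filter, Finset.mem_product] at hx
    rw [Finset.card_product]
    push_cast
    have e1 := hdiv x.1 hx.2.2.1 hx.1.1
    have e2 := hdiv x.2 hx.2.2.2 hx.1.2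
    have e3 : (0 : ℝ) ≤ D * (N : ℝ) ^ (η / 2) := by positivity
    calc (x.1.natAbs.divisors.card : ℝ) * (x.2.natAbs.divisors.card : ℝ) ≤
          (D * (N : ℝ) ^ (η / 2)) * (D * (N : ℝ) ^ (η / 2)) :=
          mul_le_mul e1 e2 (by positivity) e3
      _ = D ^ 2 * ((N : ℝ) ^ (η / 2) * (N : ℝ) ^ (η / 2)) := by ring
      _ = D ^ 2 * (N : ℝ) ^ η := by
          rw [← Real.rpow_add (by positivity)]
          congr 2
          ring
  refine h1.trans ((Finset.sum_le_sum h2).trans ?_)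
  rw [Finset.sum_const, nsmul_eq_mul]
  have h3 := PP_card (N * L) q hM hq
  push_cast at h3
  have h4 : (0 : ℝ) ≤ D ^ 2 * (N : ℝ) ^ η := by positivity
  calc ((PP (N * L) q).card : ℝ) * (D ^ 2 * (N : ℝ) ^ η) ≤
        (9 * ((N : ℝ) * L) * ((N : ℝ) * L / q + 1)) * (D ^ 2 * (N : ℝ) ^ η) :=
        mul_le_mul_of_nonneg_right h3 h4
    _ = _ := by ring

end Pool.Agent.W815.RGD
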