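import Pool.Agent.W815.RGC.StmC

/-! Expansion of the variance of a twisted Moebius sum in short intervals. -/

set_option autoImplicit false

namespace Pool.Agent.W815.RGD

open Finset MeasureTheory Filter Topology

namespace CExp

theorem vol (a b c d : ℝ) :
    (volume (Set.Ioc c d ∩ Set.Ioo a b)).toReal = max 0 (min d b - max c a) := by
  have h : volume (Set.Ioc c d ∩ Set.Ioo a b) = ENNReal.ofReal (min d b - max c a) := by
    apply le_antisymm
    · rw [← Real.volume_Ioc]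
      apply measure_mono
      rintro x ⟨⟨h1, h2⟩, h3, h4⟩
      exact ⟨max_lt h1 h3, le_min h2 h4.le⟩
    · rw [← Real.volume_Ioo]
      apply measure_mono
      rintro x ⟨h1, h2⟩
      exact ⟨⟨(le_max_left _ _).trans_lt h1, (h2.trans_le (min_le_left _ _)).le⟩,
        (le_max_right _ _).trans_lt h1, h2.trans_le (min_le_right _ _)⟩
  rw [h, ENNReal.toReal_ofReal', max_comm]

/-- the indicator of both conditions -/
noncomputable def F (H : ℝ) (n m : ℕ) : ℝ → ℝ :=
  Set.indicator (Set.Ioo (max (n : ℝ) m - H / 2) (min (n : ℝ) m + H / 2)) (fun _ => 1)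

theorem intF (X H : ℝ) (n m : ℕ) (hX : 1 ≤ X) :
    ∫ x in X..2 * X, F H n m x = wt X H n m := by
  rw [intervalIntegral.integral_of_le (by linarith)]
  unfold F
  rw [setIntegral_indicator measurableSet_Ioo, setIntegral_const, smul_eq_mul, mul_one]
  exact vol _ _ _ _

theorem iF (X H : ℝ) (n m : ℕ) : IntervalIntegrable (F H n m) volume X (2 * X) := by
  unfold F
  rw [intervalIntegrable_iff]
  exact (integrableOn_const (by simp [Set.uIoc])).indicator measurableSet_Ioo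

theorem iFC (X H : ℝ) (n m : ℕ) :
    IntervalIntegrable (fun x => ((F H n m x : ℝ) : ℂ)) volume X (2 * X) :=
  ⟨(iF X H n m).1.ofReal, (iF X H n m).2.ofReal⟩

theorem F_eq (H : ℝ) (n m : ℕ) (x : ℝ) :
    F H n m x = (if |(n : ℝ) - x| < H / 2 then 1 else 0) * (if |(m : ℝ) - x| < H / 2 then 1 else 0) := by
  unfold F
  rw [Set.indicator_apply]
  have : x ∈ Set.Ioo (max (n : ℝ) m - H / 2) (min (n : ℝ) m + H / 2) ↔
      (|(n : ℝ) - x| < H / 2 ∧ |(m : ℝ) - x| < H / 2) := by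
    rw [abs_lt, abs_lt, Set.mem_Ioo, sub_lt_iff_lt_add, max_lt_iff,
      show x < min (n : ℝ) m + H / 2 ↔ x - H / 2 < min (n : ℝ) m from sub_lt_iff_lt_add.symm,
      lt_min_iff]
    constructor
    · rintro ⟨⟨h1, h2⟩, h3, h4⟩
      exact ⟨⟨by linarith, by linarith⟩, by linarith, by linarith⟩
    · rintro ⟨⟨h1, h2⟩, h3, h4⟩
      exact ⟨⟨by linarith, by linarith⟩, by linarith, by linarith⟩
  by_cases h1 : |(n : ℝ) - x| < H / 2 <;> by_cases h2 : |(m : ℝ) - x| < H / 2 <;>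
    simp [this, h1, h2]

theorem Mc_eq {q : ℕ} (χ : DirichletCharacter ℂ q) (X H x : ℝ) (hX : 1 ≤ X)
    (hHX : H ≤ X) (h1 : X ≤ x) (h2 : x ≤ 2 * X) :
    Mc χ x H = ∑ n ∈ Icc 1 (Nx X), (((ArithmeticFunction.moebius n : ℤ) : ℂ) * χ (n : ZMod q)) *
      (if |(n : ℝ) - x| < H / 2 then 1 else 0) := by
  unfold Mc
  have e : (Finset.range (⌈x + H⌉₊ + 1)).filter (fun n : ℕ => |(n : ℝ) - x| < H / 2) =
      (Icc 1 (Nx X)).filter (fun n : ℕ => |(n : ℝ) - x| < H / 2) := by
    ext n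
    simp only [Finset.mem_filter, Finset.mem_range, Finset.mem_Icc]
    constructor
    · rintro ⟨_, h⟩
      refine ⟨⟨?_, ?_⟩, h⟩
      · rw [abs_lt] at h
        by_contra hn
        have hn : n = 0 := by omega
        subst hn
        have := h.1
        push_cast at this
        linarith
      · rw [abs_lt] at h
        have h3 : (n : ℝ) ≤ 3 * X := by linarith [h.2]
        have h4 : (n : ℝ) ≤ (⌈3 * X⌉₊ : ℕ) := h3.trans (Nat.le_ceil _)
        have h5 : n ≤ ⌈3 * X⌉₊ := by exact_mod_cast h4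
        unfold Nx
        omega
    · rintro ⟨_, h⟩
      refine ⟨?_, h⟩
      have hpos : 0 < H / 2 := (abs_nonneg _).trans_lt h
      rw [abs_lt] at h
      have h3 : (n : ℝ) ≤ x + H := by linarith [h.2]
      have h4 : (n : ℝ) ≤ (⌈x + H⌉₊ : ℕ) := h3.trans (Nat.le_ceil _)
      have h5 : n ≤ ⌈x + H⌉₊ := by exact_mod_cast h4
      omega
  rw [e, Finset.sum_filter]
  refine Finset.sum_congr rfl fun n _ => ?_
  split_ifs <;> simp

theorem sq_eq {q : ℕ} (χ : DirichletCharacter ℂ q) (X H x : ℝ) (hX : 1 ≤ X)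
    (hHX : H ≤ X) (h1 : X ≤ x) (h2 : x ≤ 2 * X) :
    ((‖Mc χ x H‖ ^ 2 : ℝ) : ℂ) = ∑ n ∈ Icc 1 (Nx X), ∑ m ∈ Icc 1 (Nx X),
    (((ArithmeticFunction.moebius n : ℤ) : ℂ) * ((ArithmeticFunction.moebius m : ℤ) : ℂ)) *
      (χ (n : ZMod q) * (starRingEnd ℂ) (χ (m : ZMod q))) * ((F H n m x : ℝ) : ℂ) := by
  have h : ((‖Mc χ x H‖ ^ 2 : ℝ) : ℂ) = Mc χ x H * (starRingEnd ℂ) (Mc χ x H) := by
    rw [Complex.mul_conj']
    push_cast
    rfl
  rw [h, Mc_eq χ X H x hX hHX h1 h2, map_sum, Finset.sum_mul_sum]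
  refine Finset.sum_congr rfl fun n _ => Finset.sum_congr rfl fun m _ => ?_
  rw [F_eq, map_mul, map_mul, map_intCast]
  have e1 : (starRingEnd ℂ) (if |(m : ℝ) - x| < H / 2 then (1 : ℂ) else 0) =
      (if |(m : ℝ) - x| < H / 2 then (1 : ℂ) else 0) := by split_ifs <;> simp
  rw [e1]
  push_cast
  split_ifs <;> simp <;> ring

end CExp

open CExp in
theorem expn : SExp := by
  intro q _ χ X H hX hH hHX
  have h0 : X * Vc χ X H = ∫ x in X..2 * X, ‖Mc χ x H‖ ^ 2 := by
    unfold Vc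
    have : X ≠ 0 := by positivity
    field_simp
  rw [h0, ← intervalIntegral.integral_ofReal]
  have h1 : (∫ x in X..2 * X, ((‖Mc χ x H‖ ^ 2 : ℝ) : ℂ)) =
      ∫ x in X..2 * X, ∑ n ∈ Icc 1 (Nx X), ∑ m ∈ Icc 1 (Nx X),
    (((ArithmeticFunction.moebius n : ℤ) : ℂ) * ((ArithmeticFunction.moebius m : ℤ) : ℂ)) *
      (χ (n : ZMod q) * (starRingEnd ℂ) (χ (m : ZMod q))) * ((F H n m x : ℝ) : ℂ) := by
    apply intervalIntegral.integral_congr
    intro x hx
    rw [Set.uIcc_of_le (by linarith)] at hx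
    exact sq_eq χ X H x hX hHX hx.1 hx.2
  rw [h1, intervalIntegral.integral_finset_sum]
  · refine Finset.sum_congr rfl fun n _ => ?_
    rw [intervalIntegral.integral_finset_sum]
    · refine Finset.sum_congr rfl fun m _ => ?_
      rw [intervalIntegral.integral_const_mul, intervalIntegral.integral_ofReal, intF X H n m hX]
    · intro m _
      exact (iFC X H n m).const_mul _
  · intro n _
    have h2 := IntervalIntegrable.sum (μ := volume) (a := X) (b := 2 * X) (Icc 1 (Nx X))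
      (f := fun m x => (((ArithmeticFunction.moebius n : ℤ) : ℂ) *
        ((ArithmeticFunction.moebius m : ℤ) : ℂ)) *
        (χ (n : ZMod q) * (starRingEnd ℂ) (χ (m : ZMod q))) * ((F H n m x : ℝ) : ℂ))
      (fun m _ => (iFC X H n m).const_mul _)
    have e : (∑ m ∈ Icc 1 (Nx X), fun (x : ℝ) => (((ArithmeticFunction.moebius n : ℤ) : ℂ) *
        ((ArithmeticFunction.moebius m : ℤ) : ℂ)) *
        (χ (n : ZMod q) * (starRingEnd ℂ) (χ (m : ZMod q))) * ((F H n m x : ℝ) : ℂ)) =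
        fun x => ∑ m ∈ Icc 1 (Nx X), (((ArithmeticFunction.moebius n : ℤ) : ℂ) *
        ((ArithmeticFunction.moebius m : ℤ) : ℂ)) *
        (χ (n : ZMod q) * (starRingEnd ℂ) (χ (m : ZMod q))) * ((F H n m x : ℝ) : ℂ) := by
      funext x
      rw [Finset.sum_apply]
    exact e ▸ h2

end Pool.Agent.W815.RGD
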