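import Mathlib

set_option autoImplicit false

/-!
# Project RGD: the Good-Churchhouse asymptotics for `μχ`, almost all characters `χ` modulo `q`
-/

namespace Pool.Agent.W815.RGD

open Finset MeasureTheory Filter Topology

/-- `∑_{|n-x|<H/2} μ(n) χ(n)` -/
noncomputable def Mc {q : ℕ} (χ : DirichletCharacter ℂ q) (x H : ℝ) : ℂ :=
  ∑ n ∈ (Finset.range (⌈x + H⌉₊ + 1)).filter (fun n : ℕ => |(n : ℝ) - x| < H / 2),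
    ((ArithmeticFunction.moebius n : ℤ) : ℂ) * χ (n : ZMod q)

/-- the variance in short intervals of `μχ` -/
noncomputable def Vc {q : ℕ} (χ : DirichletCharacter ℂ q) (X H : ℝ) : ℝ :=
  (1 / X) * ∫ x in X..2 * X, ‖Mc χ x H‖ ^ 2

/-- number of squarefree integers prime to `q` in `(X, 2X]` -/
noncomputable def Sq (q : ℕ) (X : ℝ) : ℝ :=
  open Classical in
  (((Ioc ⌊X⌋₊ ⌊2 * X⌋₊).filter (fun n => Squarefree n ∧ n.Coprime q)).card : ℝ)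

/-- length of the set of `x ∈ [X,2X]` with `|n-x|<H/2`, `|m-x|<H/2` -/
noncomputable def wt (X H : ℝ) (n m : ℕ) : ℝ :=
  max 0 (min (2 * X) (min (n : ℝ) m + H / 2) - max X (max (n : ℝ) m - H / 2))

/-- range of summation -/
noncomputable def Nx (X : ℝ) : ℕ := ⌈3 * X⌉₊ + 1

/-- EXP -/
def SExp : Prop := ∀ (q : ℕ) (_ : NeZero q) (χ : DirichletCharacter ℂ q) (X H : ℝ), 1 ≤ X → 1 ≤ H →
  H ≤ X → ((X * Vc χ X H : ℝ) : ℂ) = ∑ n ∈ Icc 1 (Nx X), ∑ m ∈ Icc 1 (Nx X),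
    (((ArithmeticFunction.moebius n : ℤ) : ℂ) * ((ArithmeticFunction.moebius m : ℤ) : ℂ)) *
      (χ (n : ZMod q) * (starRingEnd ℂ) (χ (m : ZMod q))) * ((wt X H n m : ℝ) : ℂ)

/-- quadruples -/
def Quad (N L q : ℕ) : Finset ((ℕ × ℕ) × (ℕ × ℕ)) :=
  ((Icc 1 N ×ˢ Icc 1 N) ×ˢ (Icc 1 N ×ˢ Icc 1 N)).filter (fun z =>
    z.1.1 ≠ z.1.2 ∧ z.1.1 ≤ z.1.2 + L ∧ z.1.2 ≤ z.1.1 + L ∧
    z.2.1 ≠ z.2.2 ∧ z.2.1 ≤ z.2.2 + L ∧ z.2.2 ≤ z.2.1 + L ∧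
    z.1.1 * z.2.2 ≡ z.2.1 * z.1.2 [MOD q])

/-- CNT -/
def SCntC : Prop := ∀ η : ℝ, 0 < η → ∃ C : ℝ, 0 < C ∧ ∀ N L q : ℕ, 1 ≤ N → 1 ≤ L → L ≤ N → 1 ≤ q →
  ((Quad N L q).card : ℝ) ≤ C * (N : ℝ) ^ η * (N * L) * ((N : ℝ) * L / q + 1)

/-- ORTH -/
def SOrth : Prop := ∀ (q : ℕ) (_ : NeZero q) (P : Finset (ℕ × ℕ)) (c : ℕ × ℕ → ℝ) (A : ℝ), 0 ≤ A →
  (∀ x ∈ P, |c x| ≤ A) →
  (∑ᶠ χ : DirichletCharacter ℂ q,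
    ‖∑ x ∈ P, (c x : ℂ) * (χ (x.1 : ZMod q) * (starRingEnd ℂ) (χ (x.2 : ZMod q)))‖ ^ 2) ≤
  (q.totient : ℝ) * A ^ 2 *
    ((P ×ˢ P).filter (fun z => z.1.1 * z.2.2 ≡ z.2.1 * z.1.2 [MOD q])).card

/-- DIA -/
def SDia : Prop := ∀ (q : ℕ) (X H : ℝ), 1 ≤ X → 1 ≤ H → H ≤ X →
  |(open Classical in ∑ n ∈ (Icc 1 (Nx X)).filter (fun n => Squarefree n ∧ n.Coprime q),
      wt X H n n) - H * Sq q X| ≤ 4 * H * (H + 2)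

/-- FIN -/
def SFinC : Prop := ∀ ε : ℝ, 0 < ε → ε < 1 → ∃ δ C : ℝ, 0 < δ ∧ 0 < C ∧
  ∀ (q : ℕ) (_ : NeZero q) (X H : ℝ), 1 ≤ X → 1 ≤ H → H ≤ X ^ (1 - ε) → X ^ ε * H ^ 2 ≤ q →
    (Set.ncard {χ : DirichletCharacter ℂ q | X ^ (-δ) * H < |Vc χ X H - H * Sq q X / X|} : ℝ) ≤
      C * X ^ (-δ) * q.totient

/-- PRM: prime moduli -/
def SPrm : Prop := ∀ ε : ℝ, 0 < ε → ε < 1 → ∃ δ C : ℝ, 0 < δ ∧ 0 < C ∧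
  ∀ (q : ℕ) (X H : ℝ), q.Prime → 1 ≤ X → 1 ≤ H → H ≤ X ^ (1 - ε) → X ^ ε * H ^ 2 ≤ q →
    (Set.ncard {χ : DirichletCharacter ℂ q |
      X ^ (-δ) < |Vc χ X H / (H / (Real.pi ^ 2 / 6)) - 1|} : ℝ) ≤ C * X ^ (-δ) * (q - 1)

end Pool.Agent.W815.RGD
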