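import Mathlib
import Pool.Agent.W815.RGC.StmC

set_option autoImplicit false

/-!
# Project RGD, part EXP
-/

namespace Pool.Agent.W815.RGD

open Finset MeasureTheory Filter Topology

private lemma ind_integral (X a b : ℝ) (hX : 0 ≤ X) :
    ∫ x in X..2 * X, (Set.Ioo a b).indicator (fun _ => (1 : ℝ)) x
      = max 0 (min (2 * X) b - max X a) := by
  rw [intervalIntegral.integral_of_le (by linarith), setIntegral_indicator measurableSet_Ioo,
    setIntegral_const, smul_eq_mul, mul_one]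
  have h : (Set.Ioc X (2 * X) ∩ Set.Ioo a b : Set ℝ) =ᵐ[volume]
      (Set.Ioc X (2 * X) ∩ Set.Ioc a b : Set ℝ) :=
    (ae_eq_refl _).inter Ioo_ae_eq_Ioc
  rw [measureReal_congr h, Set.Ioc_inter_Ioc, Real.volume_real_Ioc]
  exact max_comm _ _

private lemma ind_intble (X a b : ℝ) :
    IntervalIntegrable (fun x => (Set.Ioo a b).indicator (fun _ => (1 : ℝ)) x) volume X (2 * X) := by
  rw [intervalIntegrable_iff]
  have h : IntegrableOn (fun _ : ℝ => (1 : ℝ)) (Set.uIoc X (2 * X)) volume := by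
    rw [← intervalIntegrable_iff]
    exact intervalIntegrable_const
  exact Integrable.indicator h measurableSet_Ioo

private lemma Mc_eq {q : ℕ} (χ : DirichletCharacter ℂ q) (X H x : ℝ) (hX : 1 ≤ X) (hH : 1 ≤ H)
    (hHX : H ≤ X) (h1 : X ≤ x) (h2 : x ≤ 2 * X) :
    Mc χ x H = ∑ n ∈ Icc 1 (Nx X), if |(n : ℝ) - x| < H / 2 then
      ((ArithmeticFunction.moebius n : ℤ) : ℂ) * χ (n : ZMod q) else 0 := by
  unfold Mc
  rw [← Finset.sum_filter]
  apply Finset.sum_congr _ (fun _ _ => rfl)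
  ext n
  simp only [Finset.mem_filter, Finset.mem_range, Finset.mem_Icc]
  constructor
  · rintro ⟨_, h⟩
    refine ⟨⟨?_, ?_⟩, h⟩
    · have := abs_lt.1 h
      have h3 : (0 : ℝ) < n := by linarith [this.1]
      have h4 : 0 < n := by exact_mod_cast h3
      omega
    · have := abs_lt.1 h
      have h3 : (n : ℝ) ≤ 3 * X := by linarith [this.2]
      have h4 : (n : ℝ) ≤ (⌈3 * X⌉₊ : ℝ) := h3.trans (Nat.le_ceil _)
      have h5 : n ≤ ⌈3 * X⌉₊ := by exact_mod_cast h4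
      unfold Nx
      omega
  · rintro ⟨_, h⟩
    refine ⟨?_, h⟩
    have := abs_lt.1 h
    have h3 : (n : ℝ) ≤ x + H := by linarith [this.2]
    have h4 : (n : ℝ) ≤ (⌈x + H⌉₊ : ℝ) := h3.trans (Nat.le_ceil _)
    have h5 : n ≤ ⌈x + H⌉₊ := by exact_mod_cast h4
    omega

private lemma ind_eq (H x : ℝ) (n m : ℕ) :
    (Set.Ioo (max (n : ℝ) m - H / 2) (min (n : ℝ) m + H / 2)).indicator (fun _ => (1 : ℝ)) x
      = (if |(n : ℝ) - x| < H / 2 then 1 else 0) * (if |(m : ℝ) - x| < H / 2 then 1 else 0) := by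
  have key : x ∈ Set.Ioo (max (n : ℝ) m - H / 2) (min (n : ℝ) m + H / 2) ↔
      (|(n : ℝ) - x| < H / 2 ∧ |(m : ℝ) - x| < H / 2) := by
    rw [Set.mem_Ioo, abs_lt, abs_lt]
    constructor
    · rintro ⟨a, b⟩
      have a1 := le_max_left (n : ℝ) m
      have a2 := le_max_right (n : ℝ) m
      have b1 := min_le_left (n : ℝ) m
      have b2 := min_le_right (n : ℝ) m
      refine ⟨⟨?_, ?_⟩, ?_, ?_⟩ <;> linarith
    · rintro ⟨⟨a1, a2⟩, b1, b2⟩
      constructor
      · rcases max_cases (n : ℝ) m with ⟨h, _⟩ | ⟨h, _⟩ <;> rw [h] <;> linarith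
      · rcases min_cases (n : ℝ) m with ⟨h, _⟩ | ⟨h, _⟩ <;> rw [h] <;> linarith
  by_cases h : x ∈ Set.Ioo (max (n : ℝ) m - H / 2) (min (n : ℝ) m + H / 2)
  · rw [Set.indicator_of_mem h]
    have := key.1 h
    rw [if_pos this.1, if_pos this.2, mul_one]
  · rw [Set.indicator_of_notMem h]
    by_cases h1 : |(n : ℝ) - x| < H / 2
    · by_cases h2 : |(m : ℝ) - x| < H / 2
      · exact absurd (key.2 ⟨h1, h2⟩) h
      · rw [if_neg h2, mul_zero]
    · rw [if_neg h1, zero_mul]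

private lemma sq_eq {q : ℕ} (χ : DirichletCharacter ℂ q) (X H x : ℝ) (hX : 1 ≤ X) (hH : 1 ≤ H)
    (hHX : H ≤ X) (h1 : X ≤ x) (h2 : x ≤ 2 * X) :
    ((‖Mc χ x H‖ ^ 2 : ℝ) : ℂ) = ∑ n ∈ Icc 1 (Nx X), ∑ m ∈ Icc 1 (Nx X),
      (((ArithmeticFunction.moebius n : ℤ) : ℂ) * ((ArithmeticFunction.moebius m : ℤ) : ℂ)) *
      (χ (n : ZMod q) * (starRingEnd ℂ) (χ (m : ZMod q))) *
      (((Set.Ioo (max (n : ℝ) m - H / 2) (min (n : ℝ) m + H / 2)).indicator
        (fun _ => (1 : ℝ)) x : ℝ) : ℂ) := by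
  have h := Complex.mul_conj (Mc χ x H)
  rw [Complex.normSq_eq_norm_sq] at h
  rw [← h, Mc_eq χ X H x hX hH hHX h1 h2, map_sum, Finset.sum_mul_sum]
  apply Finset.sum_congr rfl
  intro n _
  apply Finset.sum_congr rfl
  intro m _
  rw [ind_eq]
  by_cases a : |(n : ℝ) - x| < H / 2
  · by_cases b : |(m : ℝ) - x| < H / 2
    · simp only [if_pos a, if_pos b, map_mul, map_intCast, mul_one, Complex.ofReal_one]
      ring
    · simp [if_neg b]
  · simp [if_neg a]

theorem expn : SExp := by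
  intro q _ χ X H hX hH hHX
  have e1 : X * Vc χ X H = ∫ x in X..2 * X, ‖Mc χ x H‖ ^ 2 := by
    unfold Vc
    field_simp
  rw [e1, ← intervalIntegral.integral_ofReal]
  have e2 : ∫ x in X..2 * X, ((‖Mc χ x H‖ ^ 2 : ℝ) : ℂ) =
      ∫ x in X..2 * X, ∑ n ∈ Icc 1 (Nx X), ∑ m ∈ Icc 1 (Nx X),
      (((ArithmeticFunction.moebius n : ℤ) : ℂ) * ((ArithmeticFunction.moebius m : ℤ) : ℂ)) *
      (χ (n : ZMod q) * (starRingEnd ℂ) (χ (m : ZMod q))) *
      (((Set.Ioo (max (n : ℝ) m - H / 2) (min (n : ℝ) m + H / 2)).indicator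
        (fun _ => (1 : ℝ)) x : ℝ) : ℂ) := by
    apply intervalIntegral.integral_congr
    intro x hx
    rw [Set.uIcc_of_le (by linarith)] at hx
    exact sq_eq χ X H x hX hH hHX hx.1 hx.2
  rw [e2]
  have hi : ∀ n m : ℕ, IntervalIntegrable (fun x : ℝ =>
      (((ArithmeticFunction.moebius n : ℤ) : ℂ) * ((ArithmeticFunction.moebius m : ℤ) : ℂ)) *
      (χ (n : ZMod q) * (starRingEnd ℂ) (χ (m : ZMod q))) *
      (((Set.Ioo (max (n : ℝ) m - H / 2) (min (n : ℝ) m + H / 2)).indicator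
        (fun _ => (1 : ℝ)) x : ℝ) : ℂ)) volume X (2 * X) := by
    intro n m
    apply IntervalIntegrable.const_mul
    have h := ind_intble X (max (n : ℝ) m - H / 2) (min (n : ℝ) m + H / 2)
    exact ⟨h.1.ofReal, h.2.ofReal⟩
  rw [intervalIntegral.integral_finsetSum]
  · apply Finset.sum_congr rfl
    intro n _
    rw [intervalIntegral.integral_finsetSum]
    · apply Finset.sum_congr rfl
      intro m _
      rw [intervalIntegral.integral_const_mul, intervalIntegral.integral_ofReal,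
        ind_integral X _ _ (by linarith)]
      rfl
    · intro m _
      exact hi n m
  · intro n _
    have h := IntervalIntegrable.sum (Icc 1 (Nx X)) (fun m _ => hi n m)
    rw [Finset.sum_fn] at h
    exact h

end Pool.Agent.W815.RGD

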