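import Pool.Agent.W815.RGC.StmC

set_option autoImplicit false

/-!
# RGD-FIN: almost all characters
-/

namespace Pool.Agent.W815.RGD

open Finset MeasureTheory Filter Topology

lemma wt_nonneg (X H : ℝ) (n m : ℕ) : 0 ≤ wt X H n m := le_max_left _ _

lemma wt_le (X H : ℝ) (hH : 0 ≤ H) (n m : ℕ) : wt X H n m ≤ max 0 (H - |(n : ℝ) - m|) := by
  unfold wt
  apply max_le_max le_rfl
  have h1 : min (2 * X) (min (n : ℝ) m + H / 2) ≤ min (n : ℝ) m + H / 2 := min_le_right _ _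
  have h2 : max (n : ℝ) m - H / 2 ≤ max X (max (n : ℝ) m - H / 2) := le_max_right _ _
  have h3 : max (n : ℝ) m - min (n : ℝ) m = |(n : ℝ) - m| := by
    rw [max_sub_min_eq_abs']
  linarith

lemma wt_le' (X H : ℝ) (hH : 0 ≤ H) (n m : ℕ) : wt X H n m ≤ H := by
  refine (wt_le X H hH n m).trans (max_le hH ?_)
  have := abs_nonneg ((n : ℝ) - m)
  linarith

lemma wt_zero (X H : ℝ) (hH : 0 ≤ H) (n m : ℕ) (h : H ≤ |(n : ℝ) - m|) : wt X H n m = 0 := by
  refine le_antisymm ((wt_le X H hH n m).trans (max_le le_rfl ?_)) (wt_nonneg _ _ _ _)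
  linarith

/-- the off-diagonal pairs -/
def PP (N L : ℕ) : Finset (ℕ × ℕ) :=
  (Icc 1 N ×ˢ Icc 1 N).filter (fun x => x.1 ≠ x.2 ∧ x.1 ≤ x.2 + L ∧ x.2 ≤ x.1 + L)

lemma PP_quad (N L q : ℕ) :
    ((PP N L ×ˢ PP N L).filter (fun z => z.1.1 * z.2.2 ≡ z.2.1 * z.1.2 [MOD q])) ⊆ Quad N L q := by
  intro z hz
  simp only [PP, Quad, mem_filter, mem_product] at hz ⊢
  tauto

lemma chi_mul_conj {q : ℕ} [NeZero q] (χ : DirichletCharacter ℂ q) (n : ℕ) :
    χ (n : ZMod q) * (starRingEnd ℂ) (χ (n : ZMod q)) = if n.Coprime q then 1 else 0 := by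
  split_ifs with h
  · have hu : IsUnit (n : ZMod q) := (ZMod.isUnit_iff_coprime n q).mpr h
    rw [Complex.mul_conj, Complex.normSq_eq_norm_sq]
    obtain ⟨u, hu⟩ := hu
    rw [← hu, DirichletCharacter.unit_norm_eq_one χ u]
    norm_num
  · have hu : ¬ IsUnit (n : ZMod q) := fun h' => h ((ZMod.isUnit_iff_coprime n q).mp h')
    rw [χ.map_nonunit hu, zero_mul]

/-- the weighted coefficient -/
noncomputable def cf (X H : ℝ) (x : ℕ × ℕ) : ℝ :=
  ((ArithmeticFunction.moebius x.1 : ℤ) : ℝ) * ((ArithmeticFunction.moebius x.2 : ℤ) : ℝ) *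
    wt X H x.1 x.2

lemma abs_mu (n : ℕ) : |((ArithmeticFunction.moebius n : ℤ) : ℝ)| ≤ 1 := by
  have h := ArithmeticFunction.abs_moebius_le_one (n := n)
  exact_mod_cast h

lemma cf_le (X H : ℝ) (hH : 0 ≤ H) (x : ℕ × ℕ) : |cf X H x| ≤ H := by
  unfold cf
  rw [abs_mul, abs_mul, abs_of_nonneg (wt_nonneg X H _ _)]
  have h1 := abs_mu x.1
  have h2 := abs_mu x.2
  have h3 := wt_le' X H hH x.1 x.2
  have h4 := wt_nonneg X H x.1 x.2
  have h5 : |((ArithmeticFunction.moebius x.1 : ℤ) : ℝ)| *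
      |((ArithmeticFunction.moebius x.2 : ℤ) : ℝ)| ≤ 1 :=
    mul_le_one₀ h1 (abs_nonneg _) h2
  calc _ ≤ 1 * wt X H x.1 x.2 := mul_le_mul_of_nonneg_right h5 h4
    _ ≤ H := by rw [one_mul]; exact h3

/-- the off-diagonal part -/
noncomputable def Of {q : ℕ} (χ : DirichletCharacter ℂ q) (X H : ℝ) : ℂ :=
  ∑ x ∈ PP (Nx X) ⌈H⌉₊, (cf X H x : ℂ) * (χ (x.1 : ZMod q) * (starRingEnd ℂ) (χ (x.2 : ZMod q)))

open Classical in
/-- the diagonal part -/
noncomputable def Di (q : ℕ) (X H : ℝ) : ℝ :=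
  ∑ n ∈ (Icc 1 (Nx X)).filter (fun n => Squarefree n ∧ n.Coprime q), wt X H n n

lemma split (hE : SExp) (q : ℕ) [NeZero q] (χ : DirichletCharacter ℂ q) (X H : ℝ) (hX : 1 ≤ X)
    (hH : 1 ≤ H) (hHX : H ≤ X) : ((X * Vc χ X H : ℝ) : ℂ) = (Di q X H : ℂ) + Of χ X H := by
  classical
  rw [hE q inferInstance χ X H hX hH hHX, ← Finset.sum_product']
  have h0 : (Icc 1 (Nx X) ×ˢ Icc 1 (Nx X)) =
      ((Icc 1 (Nx X) ×ˢ Icc 1 (Nx X)).filter (fun x => x.1 = x.2)) ∪
      ((Icc 1 (Nx X) ×ˢ Icc 1 (Nx X)).filter (fun x => x.1 ≠ x.2)) := by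
    rw [Finset.filter_union_filter_not_eq]
  rw [← Finset.sum_filter_add_sum_filter_not (Icc 1 (Nx X) ×ˢ Icc 1 (Nx X)) (fun x => x.1 = x.2)]
  congr 1
  · -- diagonal
    unfold Di
    push_cast
    rw [Finset.sum_filter, Finset.sum_filter, Finset.sum_product]
    refine Finset.sum_congr rfl fun n hn => ?_
    rw [Finset.sum_eq_single n]
    · rw [if_pos rfl, chi_mul_conj]
      by_cases h1 : Squarefree n
      · have h2 : ((ArithmeticFunction.moebius n : ℤ) : ℂ) * ((ArithmeticFunction.moebius n : ℤ) : ℂ)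
            = 1 := by
          have h3 := ArithmeticFunction.moebius_sq_eq_one_of_squarefree h1
          rw [← sq]
          exact_mod_cast h3
        rw [h2, one_mul]
        by_cases h4 : n.Coprime q
        · simp [h1, h4]
        · simp [h4]
      · have h2 : ArithmeticFunction.moebius n = 0 :=
          ArithmeticFunction.moebius_eq_zero_of_not_squarefree h1
        simp [h2, h1]
    · intro m _ hm
      rw [if_neg (fun h => hm h.symm)]
    · intro h
      exact absurd hn h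
  · unfold Of PP
    have h1 : ∀ x ∈ (Icc 1 (Nx X) ×ˢ Icc 1 (Nx X)).filter (fun x => ¬ x.1 = x.2),
        x ∉ (Icc 1 (Nx X) ×ˢ Icc 1 (Nx X)).filter
          (fun x => x.1 ≠ x.2 ∧ x.1 ≤ x.2 + ⌈H⌉₊ ∧ x.2 ≤ x.1 + ⌈H⌉₊) →
        (((ArithmeticFunction.moebius x.1 : ℤ) : ℂ) * ((ArithmeticFunction.moebius x.2 : ℤ) : ℂ)) *
          (χ (x.1 : ZMod q) * (starRingEnd ℂ) (χ (x.2 : ZMod q))) * ((wt X H x.1 x.2 : ℝ) : ℂ) = 0 := by
      intro x hx hx2
      rw [mem_filter] at hx hx2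
      have h2 : H ≤ |(x.1 : ℝ) - x.2| := by
        have h3 : x.2 + ⌈H⌉₊ < x.1 ∨ x.1 + ⌈H⌉₊ < x.2 := by
          by_contra hcon
          push Not at hcon
          exact hx2 ⟨hx.1, hx.2, hcon.1, hcon.2⟩
        have h4 := Nat.le_ceil H
        rcases h3 with h3 | h3
        · have h5 : ((x.2 + ⌈H⌉₊ : ℕ) : ℝ) < x.1 := by exact_mod_cast h3
          push_cast at h5
          exact le_trans (by linarith) (le_abs_self _)
        · have h5 : ((x.1 + ⌈H⌉₊ : ℕ) : ℝ) < x.2 := by exact_mod_cast h3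
          push_cast at h5
          rw [abs_sub_comm]
          exact le_trans (by linarith) (le_abs_self _)
      rw [wt_zero X H (by linarith) _ _ h2]
      simp
    rw [← Finset.sum_subset _ h1]
    · refine Finset.sum_congr rfl fun x _ => ?_
      unfold cf
      push_cast
      ring
    · intro x hx
      rw [mem_filter] at hx ⊢
      exact ⟨hx.1, hx.2.1⟩

lemma cheb {q : ℕ} [NeZero q] (F : DirichletCharacter ℂ q → ℂ) (t : ℝ) (ht : 0 < t) (S : ℝ)
    (hS : (∑ᶠ χ : DirichletCharacter ℂ q, ‖F χ‖ ^ 2) ≤ S) :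
    ((Set.ncard {χ : DirichletCharacter ℂ q | t < ‖F χ‖} : ℕ) : ℝ) * t ^ 2 ≤ S := by
  classical
  haveI : Fintype (DirichletCharacter ℂ q) := Fintype.ofFinite _
  rw [finsum_eq_sum_of_fintype] at hS
  refine le_trans ?_ hS
  have h1 : Set.ncard {χ : DirichletCharacter ℂ q | t < ‖F χ‖} =
      (Finset.univ.filter (fun χ : DirichletCharacter ℂ q => t < ‖F χ‖)).card := by
    rw [Set.ncard_eq_toFinset_card']
    congr 1
    ext χ
    simp
  rw [h1, ← nsmul_eq_mul]
  refine (Finset.card_nsmul_le_sum _ (fun χ => ‖F χ‖ ^ 2) _ ?_).trans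
    (Finset.sum_le_sum_of_subset_of_nonneg (Finset.subset_univ _) (fun _ _ _ => by positivity))
  intro χ hχ
  rw [mem_filter] at hχ
  exact pow_le_pow_left₀ ht.le hχ.2.le 2

lemma totalcard (q : ℕ) [NeZero q] (s : Set (DirichletCharacter ℂ q)) :
    ((s.ncard : ℕ) : ℝ) ≤ q.totient := by
  have h := Set.ncard_le_card s
  rw [DirichletCharacter.card_eq_totient_of_hasEnoughRootsOfUnity] at h
  exact_mod_cast h

/-- the real inequality -/
lemma real_ineq (ε C0 X H qq NN LL Q : ℝ) (hε : 0 < ε) (hε1 : ε < 1) (hC0 : 0 < C0) (hX : 1 ≤ X)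
    (hH : 1 ≤ H) (hHX : H ≤ X ^ (1 - ε)) (hq : X ^ ε * H ^ 2 ≤ qq) (hN0 : 0 ≤ NN) (hN : NN ≤ 5 * X)
    (hL0 : 0 ≤ LL) (hL : LL ≤ 2 * H)
    (hQ : Q ≤ C0 * NN ^ (ε / 4) * (NN * LL) * (NN * LL / qq + 1)) :
    Q ≤ 550 * C0 * X ^ (ε / 4 + 2 - ε) := by
  have hX0 : 0 < X := by linarith
  have hH0 : 0 < H := by linarith
  have hXe : 0 < X ^ ε := Real.rpow_pos_of_pos hX0 _
  have hq0 : 0 < qq := lt_of_lt_of_le (by positivity) hq
  have h1 : NN * LL ≤ 10 * (X * H) := by
    calc NN * LL ≤ (5 * X) * (2 * H) := mul_le_mul hN hL hL0 (by positivity)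
      _ = _ := by ring
  have h2 : NN ^ (ε / 4) ≤ 5 * X ^ (ε / 4) := by
    calc NN ^ (ε / 4) ≤ (5 * X) ^ (ε / 4) := Real.rpow_le_rpow hN0 hN (by positivity)
      _ = 5 ^ (ε / 4) * X ^ (ε / 4) := Real.mul_rpow (by norm_num) hX0.le
      _ ≤ 5 ^ (1 : ℝ) * X ^ (ε / 4) := by
          apply mul_le_mul_of_nonneg_right _ (Real.rpow_nonneg hX0.le _)
          exact Real.rpow_le_rpow_of_exponent_le (by norm_num) (by linarith)
      _ = _ := by rw [Real.rpow_one]
  have h3 : NN * LL / qq ≤ 10 * X ^ (1 - ε) / H := by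
    rw [div_le_div_iff₀ hq0 hH0]
    have e1 : X ^ (1 - ε) * X ^ ε = X := by
      rw [← Real.rpow_add hX0, sub_add_cancel, Real.rpow_one]
    calc NN * LL * H ≤ 10 * (X * H) * H := mul_le_mul_of_nonneg_right h1 hH0.le
      _ = 10 * (X ^ (1 - ε) * X ^ ε) * H ^ 2 := by rw [e1]; ring
      _ = 10 * X ^ (1 - ε) * (X ^ ε * H ^ 2) := by ring
      _ ≤ 10 * X ^ (1 - ε) * qq := mul_le_mul_of_nonneg_left hq (by positivity)
  have h4 : NN * LL * (NN * LL / qq + 1) ≤ 110 * X ^ (2 - ε) := by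
    have e1 : X * X ^ (1 - ε) = X ^ (2 - ε) := by
      nth_rewrite 1 [← Real.rpow_one X]
      rw [← Real.rpow_add hX0]
      congr 1
      ring
    calc NN * LL * (NN * LL / qq + 1) ≤ 10 * (X * H) * (10 * X ^ (1 - ε) / H + 1) := by
          apply mul_le_mul h1 (by linarith) _ (by positivity)
          have : 0 ≤ NN * LL / qq := by positivity
          linarith
      _ = 100 * (X * X ^ (1 - ε)) + 10 * (X * H) := by field_simp; ring
      _ ≤ 100 * (X * X ^ (1 - ε)) + 10 * (X * X ^ (1 - ε)) := by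
          have := mul_le_mul_of_nonneg_left hHX hX0.le
          linarith
      _ = 110 * X ^ (2 - ε) := by rw [e1]; ring
  calc Q ≤ C0 * NN ^ (ε / 4) * (NN * LL) * (NN * LL / qq + 1) := hQ
    _ = C0 * NN ^ (ε / 4) * (NN * LL * (NN * LL / qq + 1)) := by ring
    _ ≤ C0 * (5 * X ^ (ε / 4)) * (110 * X ^ (2 - ε)) := by
        apply mul_le_mul (mul_le_mul_of_nonneg_left h2 hC0.le) h4 (by positivity) (by positivity)
    _ = 550 * C0 * (X ^ (ε / 4) * X ^ (2 - ε)) := by ring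
    _ = _ := by rw [← Real.rpow_add hX0]; congr 2; ring

theorem finC : SExp → SCntC → SOrth → SDia → SFinC := by
  intro hE hCnt hO hD ε hε hε1
  obtain ⟨C0, hC0, hcnt⟩ := hCnt (ε / 4) (by positivity)
  refine ⟨ε / 8, 2200 * C0 + 24, by positivity, by positivity, ?_⟩
  intro q hq0 X H hX hH hHX hq
  have hX0 : 0 < X := by linarith
  have hH0 : 0 < H := by linarith
  have hXH : H ≤ X := hHX.trans (by
    calc X ^ (1 - ε) ≤ X ^ (1 : ℝ) := Real.rpow_le_rpow_of_exponent_le hX (by linarith)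
      _ = X := Real.rpow_one X)
  have hphi : (0 : ℝ) ≤ q.totient := Nat.cast_nonneg _
  have hXd : 0 < X ^ (-(ε / 8)) := Real.rpow_pos_of_pos hX0 _
  by_cases hbig : 24 ≤ X ^ (7 * ε / 8)
  · -- main case
    set N := Nx X with hN
    set L := ⌈H⌉₊ with hL
    have hN1 : 1 ≤ N := by rw [hN]; unfold Nx; omega
    have hL1 : 1 ≤ L := Nat.one_le_ceil_iff.mpr hH0
    have hLN : L ≤ N := by
      rw [hN, hL]
      unfold Nx
      exact (Nat.ceil_mono (by linarith)).trans (Nat.le_succ _)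
    have hN5 : (N : ℝ) ≤ 5 * X := by
      rw [hN]
      unfold Nx
      have := (Nat.ceil_lt_add_one (show 0 ≤ 3 * X by linarith)).le
      push_cast
      linarith
    have hL2 : (L : ℝ) ≤ 2 * H := by
      have := (Nat.ceil_lt_add_one hH0.le).le
      rw [hL]
      linarith
    have hq1 : 1 ≤ q := Nat.one_le_iff_ne_zero.mpr hq0.out
    have hquad := real_ineq ε C0 X H q N L (Quad N L q).card hε hε1 hC0 hX hH hHX hq
      (Nat.cast_nonneg _) hN5 (Nat.cast_nonneg _) hL2 (hcnt N L q hN1 hL1 hLN hq1)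
    have horth : (∑ᶠ χ : DirichletCharacter ℂ q, ‖Of χ X H‖ ^ 2) ≤
        (q.totient : ℝ) * H ^ 2 * (550 * C0 * X ^ (ε / 4 + 2 - ε)) := by
      refine (hO q hq0 (PP N L) (cf X H) H hH0.le (fun x _ => cf_le X H hH0.le x)).trans ?_
      apply mul_le_mul_of_nonneg_left _ (by positivity)
      refine le_trans ?_ hquad
      exact_mod_cast Finset.card_le_card (PP_quad N L q)
    have ht : 0 < X ^ (1 - ε / 8) * H / 2 := by
      have := Real.rpow_pos_of_pos hX0 (1 - ε / 8)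
      positivity
    have hch := cheb (fun χ : DirichletCharacter ℂ q => Of χ X H) _ ht _ horth
    have hsub : {χ : DirichletCharacter ℂ q | X ^ (-(ε / 8)) * H < |Vc χ X H - H * Sq q X / X|} ⊆
        {χ : DirichletCharacter ℂ q | X ^ (1 - ε / 8) * H / 2 < ‖Of χ X H‖} := by
      intro χ hχ
      rw [Set.mem_setOf_eq] at hχ ⊢
      have e1 : X ^ (1 - ε / 8) = X * X ^ (-(ε / 8)) := by
        nth_rewrite 2 [← Real.rpow_one X]
        rw [← Real.rpow_add hX0]
        congr 1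
      have h1 : X ^ (1 - ε / 8) * H < |X * Vc χ X H - H * Sq q X| := by
        have h2 : X * Vc χ X H - H * Sq q X = X * (Vc χ X H - H * Sq q X / X) := by
          field_simp
        rw [h2, abs_mul, abs_of_pos hX0, e1, mul_assoc]
        exact mul_lt_mul_of_pos_left hχ hX0
      have h3 : |X * Vc χ X H - H * Sq q X| ≤ ‖Of χ X H‖ + 4 * H * (H + 2) := by
        have h4 := split hE q χ X H hX hH hXH
        have h5 : ((X * Vc χ X H - H * Sq q X : ℝ) : ℂ) =
            Of χ X H + ((Di q X H - H * Sq q X : ℝ) : ℂ) := by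
          rw [Complex.ofReal_sub, h4]
          push_cast
          ring
        have h6 : |X * Vc χ X H - H * Sq q X| = ‖((X * Vc χ X H - H * Sq q X : ℝ) : ℂ)‖ := by
          rw [Complex.norm_real, Real.norm_eq_abs]
        rw [h6, h5]
        refine (norm_add_le _ _).trans ?_
        gcongr
        rw [Complex.norm_real, Real.norm_eq_abs]
        exact hD q X H hX hH hXH
      have h7 : 4 * H * (H + 2) ≤ X ^ (1 - ε / 8) * H / 2 := by
        have h8 : 24 * H ≤ X ^ (1 - ε / 8) := by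
          calc 24 * H ≤ X ^ (7 * ε / 8) * X ^ (1 - ε) :=
                mul_le_mul hbig hHX hH0.le (by positivity)
            _ = X ^ (1 - ε / 8) := by
                rw [← Real.rpow_add hX0]
                congr 1
                ring
        nlinarith
      linarith
    have hfin : ((Set.ncard {χ : DirichletCharacter ℂ q |
        X ^ (-(ε / 8)) * H < |Vc χ X H - H * Sq q X / X|} : ℕ) : ℝ) ≤
        ((Set.ncard {χ : DirichletCharacter ℂ q | X ^ (1 - ε / 8) * H / 2 < ‖Of χ X H‖} : ℕ) : ℝ) := by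
      exact_mod_cast Set.ncard_le_ncard hsub (Set.toFinite _)
    refine hfin.trans ?_
    have h9 : (q.totient : ℝ) * H ^ 2 * (550 * C0 * X ^ (ε / 4 + 2 - ε)) =
        (2200 * C0 * X ^ (-(ε / 2)) * q.totient) * (X ^ (1 - ε / 8) * H / 2) ^ 2 := by
      have e2 : X ^ (ε / 4 + 2 - ε) = X ^ (-(ε / 2)) * (X ^ (1 - ε / 8)) ^ 2 := by
        rw [← Real.rpow_natCast (X ^ (1 - ε / 8)) 2, ← Real.rpow_mul hX0.le, ← Real.rpow_add hX0]
        congr 1
        push_cast
        ring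
      rw [e2]
      ring
    rw [h9] at hch
    have h10 := le_of_mul_le_mul_right hch (by positivity)
    refine h10.trans ?_
    apply mul_le_mul_of_nonneg_right _ hphi
    have h11 : X ^ (-(ε / 2)) ≤ X ^ (-(ε / 8)) :=
      Real.rpow_le_rpow_of_exponent_le hX (by linarith)
    calc 2200 * C0 * X ^ (-(ε / 2)) ≤ 2200 * C0 * X ^ (-(ε / 8)) :=
          mul_le_mul_of_nonneg_left h11 (by positivity)
      _ ≤ (2200 * C0 + 24) * X ^ (-(ε / 8)) :=
          mul_le_mul_of_nonneg_right (by linarith) hXd.le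
  · -- small X
    push Not at hbig
    refine (totalcard q _).trans ?_
    have h1 : X ^ (ε / 8) ≤ 24 := by
      refine le_trans ?_ hbig.le
      exact Real.rpow_le_rpow_of_exponent_le hX (by linarith)
    have h2 : 1 ≤ 24 * X ^ (-(ε / 8)) := by
      rw [Real.rpow_neg hX0.le, ← div_eq_mul_inv, le_div_iff₀ (Real.rpow_pos_of_pos hX0 _)]
      linarith
    have h3 : 24 * X ^ (-(ε / 8)) ≤ (2200 * C0 + 24) * X ^ (-(ε / 8)) :=
      mul_le_mul_of_nonneg_right (by linarith) hXd.le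
    calc (q.totient : ℝ) = 1 * q.totient := (one_mul _).symm
      _ ≤ ((2200 * C0 + 24) * X ^ (-(ε / 8))) * q.totient :=
          mul_le_mul_of_nonneg_right (h2.trans h3) hphi

end Pool.Agent.W815.RGD
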