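import Pool.Agent.H595R2.PTF.Bonami

set_option autoImplicit false

/-!
# Project RGC: the Good-Churchhouse asymptotics for almost every random multiplicative function

`rf s` is the multiplicative function supported on the squarefree integers with `rf s p = s p`.
-/

namespace Pool.Agent.W815.RGC

open Finset MeasureTheory Filter Topology Pool.Agent.Helper497.HS Pool.Agent.H595R2.PTF

/-- the multiplicative function with values `±1` on squarefree numbers attached to signs `s p` -/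
noncomputable def rf (s : ℕ → ℤˣ) (n : ℕ) : ℝ :=
  open Classical in if Squarefree n then ∏ p ∈ n.primeFactors, ((s p : ℤ) : ℝ) else 0

/-- the variance in short intervals, as in the problem -/
noncomputable def V (g : ℕ → ℝ) (X H : ℝ) : ℝ :=
  (1 / X) * ∫ x in X..2 * X,
    (∑ n ∈ (Finset.range (⌈x + H⌉₊ + 1)).filter (fun n : ℕ => |(n : ℝ) - x| < H / 2), g n) ^ 2

/-- `∑_{a < n ≤ a + K} g n` -/
noncomputable def W (g : ℕ → ℝ) (a K : ℕ) : ℝ := ∑ n ∈ Ioc a (a + K), g n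

/-- `∑_{a < B} (∑_{a < n ≤ a + K} g n)^2` -/
noncomputable def E (g : ℕ → ℝ) (B K : ℕ) : ℝ := ∑ a ∈ range B, (W g a K) ^ 2

/-- the diagonal part -/
noncomputable def Dg (B K : ℕ) : ℝ :=
  open Classical in ∑ a ∈ range B, (((Ioc a (a + K)).filter Squarefree).card : ℝ)

/-- the off-diagonal part -/
noncomputable def Off (g : ℕ → ℝ) (B K : ℕ) : ℝ := E g B K - Dg B K

/-- extension of a point of a finite cube by ones -/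
def ext (M : ℕ) (x : Fin M → ℤˣ) (p : ℕ) : ℤˣ := if h : p < M then x ⟨p, h⟩ else 1

/-- pairs `n < m < n + K`, `m ≤ M` -/
def PR (M K : ℕ) : Finset (ℕ × ℕ) :=
  (Icc 1 M ×ˢ Icc 1 M).filter (fun x => x.1 < x.2 ∧ x.2 < x.1 + K)

/-- `n m / gcd(n,m)^2` -/
def kap (x : ℕ × ℕ) : ℕ := (x.1 / x.1.gcd x.2) * (x.2 / x.1.gcd x.2)

/-- number of pairs of pairs with the same `kap` -/
def Npp (M K : ℕ) : ℕ := ∑ x ∈ PR M K, ((PR M K).filter (fun y => kap y = kap x)).card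

/-- CNT -/
def SCnt : Prop := ∀ η : ℝ, 0 < η → ∃ C : ℝ, 0 < C ∧ ∀ M K : ℕ, 1 ≤ M →
  (Npp M K : ℝ) ≤ C * (M : ℝ) ^ (1 + η) * K

/-- SEC: second moment -/
def SSec : Prop := ∀ B K : ℕ,
  nsq (fun x : Fin (B + K + 1) → ℤˣ => Off (rf (ext (B + K + 1) x)) B K) ≤
    4 * (K : ℝ) ^ 2 * (Npp (B + K) K : ℝ)

/-- LDG: degree -/
def SLdg : Prop := ∀ B K d : ℕ, (∀ n ∈ Icc 1 (B + K), n.primeFactors.card ≤ d) →
  LD (2 * d) (fun x : Fin (B + K + 1) → ℤˣ => Off (rf (ext (B + K + 1) x)) B K)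

/-- MOM: high moments of low degree functions -/
def SMom : Prop := ∀ (M d : ℕ) (P : (Fin M → ℤˣ) → ℝ), LD d P → ∀ i : ℕ,
  Ex (fun x => P x ^ (2 ^ (i + 1))) ≤ ((3 : ℝ) ^ (i * d) * nsq P) ^ (2 ^ i)

/-- TAIL -/
def STail : Prop := ∀ (M d : ℕ) (P : (Fin M → ℤˣ) → ℝ), LD d P → ∀ (i : ℕ) (t : ℝ), 0 < t →
  Pr (fun x => t < |P x|) ≤ ((3 : ℝ) ^ (i * d) * nsq P / t ^ 2) ^ (2 ^ i)

/-- DEG: the number of prime factors is small -/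
def SDeg : Prop := ∀ (A : ℕ) (η : ℝ), 1 ≤ A → 0 < η → ∃ C : ℝ, 0 < C ∧ ∀ M : ℕ, 1 ≤ M →
  ∃ d : ℕ, (∀ n ∈ Icc 1 M, n.primeFactors.card ≤ d) ∧ (A : ℝ) ^ d ≤ C * (M : ℝ) ^ η

/-- FIN: tail bound for the off-diagonal part -/
def SFin : Prop := ∀ ε : ℝ, 0 < ε → ε < 1 → ∃ δ C : ℝ, 0 < δ ∧ δ < 1 ∧ 0 < C ∧ ∀ B K : ℕ, 1 ≤ B →
  1 ≤ K → (K : ℝ) ≤ (B : ℝ) ^ (1 - ε) →
  Pr (fun x : Fin (B + K + 1) → ℤˣ =>
    (K : ℝ) * (B : ℝ) ^ (1 - δ) < |Off (rf (ext (B + K + 1) x)) B K|) ≤ C / (B : ℝ) ^ 4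

/-- the class of random signs -/
structure IsSigns {Ω : Type} [MeasurableSpace Ω] (μ : Measure Ω) (e : ℕ → Ω → ℤˣ) : Prop where
  meas : ∀ p, Measurable (e p)
  ind : ProbabilityTheory.iIndepFun e μ
  half : ∀ p, μ (e p ⁻¹' {1}) = 1 / 2

/-- LAW: the law of finitely many signs is uniform on the cube -/
def SLaw : Prop := ∀ (Ω : Type) (_ : MeasurableSpace Ω) (μ : Measure Ω) (_ : IsProbabilityMeasure μ)
  (e : ℕ → Ω → ℤˣ), IsSigns μ e → ∀ (M : ℕ) (A : (Fin M → ℤˣ) → Prop),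
  μ {ω | A (fun i => e i ω)} = ENNReal.ofReal (Pr A)

/-- the property of a sign sequence which holds almost surely -/
def Good (s : ℕ → ℤˣ) : Prop := ∀ ε : ℝ, 0 < ε → ε < 1 → ∃ δ : ℝ, 0 < δ ∧ δ < 1 ∧ ∃ B₀ : ℕ,
  ∀ B : ℕ, B₀ ≤ B → ∀ K : ℕ, 1 ≤ K → (K : ℝ) ≤ (B : ℝ) ^ (1 - ε) →
    |Off (rf s) B K| ≤ (K : ℝ) * (B : ℝ) ^ (1 - δ)

/-- BC: Borel-Cantelli -/
def SBc : Prop := SFin → SLaw → ∀ (Ω : Type) (_ : MeasurableSpace Ω) (μ : Measure Ω)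
  (_ : IsProbabilityMeasure μ) (e : ℕ → Ω → ℤˣ), IsSigns μ e →
  ∀ᵐ ω ∂μ, Good (fun p => e p ω)

/-- SQF: counting squarefree numbers -/
def SSqf : Prop := ∃ C : ℝ, 0 < C ∧ ∀ N : ℕ,
  |((open Classical in (Ioc 0 N).filter Squarefree).card : ℝ) - 6 / Real.pi ^ 2 * N| ≤
    C * Real.sqrt N

/-- DIAG -/
def SDiag : Prop := ∃ C : ℝ, 0 < C ∧ ∀ B K : ℕ,
  |Dg B K - 6 / Real.pi ^ 2 * K * B| ≤ C * K * Real.sqrt ((B : ℝ) + K)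

/-- DET: the variance through `E` -/
def SDet : Prop := ∀ (g : ℕ → ℝ), (∀ n, |g n| ≤ 1) → ∀ X H : ℝ, 2 ≤ X → 1 ≤ H → H ≤ X →
  |(∫ x in X..2 * X, (∑ n ∈ (Finset.range (⌈x + H⌉₊ + 1)).filter
      (fun n : ℕ => |(n : ℝ) - x| < H / 2), g n) ^ 2) -
    ((1 - Int.fract H) * (E g ⌊2 * X - H / 2⌋₊ ⌊H⌋₊ - E g ⌊X - H / 2⌋₊ ⌊H⌋₊) +
      Int.fract H * (E g ⌊2 * X - H / 2⌋₊ (⌊H⌋₊ + 1) - E g ⌊X - H / 2⌋₊ (⌊H⌋₊ + 1)))| ≤
    2 * (H + 1) ^ 2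

/-- ASY: from the discrete asymptotics to the problem -/
def SAsy : Prop := SDiag → SDet → ∀ s : ℕ → ℤˣ, Good s →
  ∀ ε : ℝ, 0 < ε → ε < 1 → ∃ δ X₀ : ℝ, 0 < δ ∧ ∀ X H : ℝ, X₀ ≤ X → 1 ≤ H → H ≤ X ^ (1 - ε) →
    |V (rf s) X H / (H / (Real.pi ^ 2 / 6)) - 1| ≤ X ^ (-δ)

end Pool.Agent.W815.RGC
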