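import Pool.Agent.W815.RGC.StmC
import Pool.Agent.W815.RGC.Stm

set_option autoImplicit false

namespace Pool.Agent.W815.RGD

open Finset MeasureTheory Filter Topology

/-- count of squarefree numbers in `(X, 2X]` prime to a prime `q` -/
theorem prm_sq (C0 : ℝ) (hC0 : 0 < C0)
    (hS : ∀ N : ℕ, |((open Classical in (Ioc 0 N).filter Squarefree).card : ℝ) -
      6 / Real.pi ^ 2 * N| ≤ C0 * Real.sqrt N) (q : ℕ) (hq : q.Prime) (X : ℝ) (hX : 1 ≤ X) :
    |Sq q X - 6 / Real.pi ^ 2 * X| ≤ 3 * C0 * Real.sqrt X + 1 + 2 * X / q := by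
  classical
  have hpi : 6 / Real.pi ^ 2 ≤ 1 := by
    rw [div_le_one (by positivity)]
    nlinarith [Real.pi_gt_three]
  have hpi0 : 0 ≤ 6 / Real.pi ^ 2 := by positivity
  have hq0 : (0 : ℝ) < q := by exact_mod_cast hq.pos
  set A : ℕ := ⌊X⌋₊ with hA
  set B : ℕ := ⌊2 * X⌋₊ with hB
  have hAB : A ≤ B := Nat.floor_mono (by linarith)
  have hA1 : (A : ℝ) ≤ X := Nat.floor_le (by linarith)
  have hA2 : X < A + 1 := Nat.lt_floor_add_one X
  have hB1 : (B : ℝ) ≤ 2 * X := Nat.floor_le (by linarith)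
  have hB2 : 2 * X < B + 1 := Nat.lt_floor_add_one (2 * X)
  -- splitting
  have h1 : ((Ioc 0 B).filter Squarefree).card =
      ((Ioc 0 A).filter Squarefree).card + ((Ioc A B).filter Squarefree).card := by
    rw [← Finset.card_union_of_disjoint, ← Finset.filter_union,
      Finset.Ioc_union_Ioc_eq_Ioc (Nat.zero_le _) hAB]
    refine Finset.disjoint_filter_filter ?_
    rw [Finset.disjoint_left]
    intro a ha hb
    rw [Finset.mem_Ioc] at ha hb
    omega
  have h1' : (((Ioc 0 B).filter Squarefree).card : ℝ) =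
      ((Ioc 0 A).filter Squarefree).card + ((Ioc A B).filter Squarefree).card := by
    exact_mod_cast h1
  have h2 : ((Ioc A B).filter Squarefree).card ≤
      ((Ioc A B).filter (fun n => Squarefree n ∧ n.Coprime q)).card +
      ((Ioc 0 B).filter (fun n => q ∣ n)).card := by
    rw [← Nat.add_zero ((Ioc A B).filter Squarefree).card]
    refine le_trans ?_ (Finset.card_union_le _ _)
    rw [Nat.add_zero]
    refine Finset.card_le_card ?_
    intro n hn
    rw [Finset.mem_filter, Finset.mem_Ioc] at hn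
    rw [Finset.mem_union, Finset.mem_filter, Finset.mem_filter, Finset.mem_Ioc, Finset.mem_Ioc]
    by_cases hd : q ∣ n
    · right; exact ⟨⟨by omega, hn.1.2⟩, hd⟩
    · left
      refine ⟨hn.1, hn.2, ?_⟩
      exact ((Nat.Prime.coprime_iff_not_dvd hq).2 hd).symm
  have h3 : ((Ioc A B).filter (fun n => Squarefree n ∧ n.Coprime q)).card ≤
      ((Ioc A B).filter Squarefree).card := by
    refine Finset.card_le_card ?_
    intro n hn
    rw [Finset.mem_filter] at hn ⊢
    exact ⟨hn.1, hn.2.1⟩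
  have h4 : (((Ioc 0 B).filter (fun n => q ∣ n)).card : ℝ) ≤ 2 * X / q := by
    rw [Nat.Ioc_filter_dvd_card_eq_div]
    refine le_trans Nat.cast_div_le ?_
    exact div_le_div_of_nonneg_right hB1 hq0.le
  have hSq : Sq q X = (((Ioc A B).filter (fun n => Squarefree n ∧ n.Coprime q)).card : ℝ) := by
    unfold Sq
    rfl
  have h2' : (((Ioc A B).filter Squarefree).card : ℝ) ≤ Sq q X + 2 * X / q := by
    rw [hSq]
    have : (((Ioc A B).filter Squarefree).card : ℝ) ≤
      ((Ioc A B).filter (fun n => Squarefree n ∧ n.Coprime q)).card +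
      ((Ioc 0 B).filter (fun n => q ∣ n)).card := by exact_mod_cast h2
    linarith
  have h3' : Sq q X ≤ (((Ioc A B).filter Squarefree).card : ℝ) := by
    rw [hSq]; exact_mod_cast h3
  have hSA := hS A
  have hSB := hS B
  rw [abs_le] at hSA hSB
  have hsA : Real.sqrt A ≤ Real.sqrt X := Real.sqrt_le_sqrt hA1
  have hsB : Real.sqrt B ≤ 2 * Real.sqrt X := by
    have : Real.sqrt B ≤ Real.sqrt (2 ^ 2 * X) := Real.sqrt_le_sqrt (by nlinarith)
    rwa [Real.sqrt_mul (by norm_num), Real.sqrt_sq (by norm_num)] at this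
  have hsA' : C0 * Real.sqrt A ≤ C0 * Real.sqrt X := mul_le_mul_of_nonneg_left hsA hC0.le
  have hsB' : C0 * Real.sqrt B ≤ C0 * (2 * Real.sqrt X) := mul_le_mul_of_nonneg_left hsB hC0.le
  have e1 : 6 / Real.pi ^ 2 * ((B : ℝ) - A - X) ≤ 1 := by
    have : (B : ℝ) - A - X ≤ 1 := by linarith
    calc 6 / Real.pi ^ 2 * ((B : ℝ) - A - X) ≤ 6 / Real.pi ^ 2 * 1 :=
          mul_le_mul_of_nonneg_left this hpi0
      _ ≤ 1 := by linarith
  have e2 : -1 ≤ 6 / Real.pi ^ 2 * ((B : ℝ) - A - X) := by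
    have : -1 ≤ (B : ℝ) - A - X := by linarith
    calc -1 ≤ 6 / Real.pi ^ 2 * (-1) := by linarith
      _ ≤ 6 / Real.pi ^ 2 * ((B : ℝ) - A - X) := mul_le_mul_of_nonneg_left this hpi0
  have e3 : 6 / Real.pi ^ 2 * ((B : ℝ) - A - X) =
      6 / Real.pi ^ 2 * (B : ℝ) - 6 / Real.pi ^ 2 * (A : ℝ) - 6 / Real.pi ^ 2 * X := by ring
  rw [e3] at e1 e2
  have hq2 : 0 ≤ 2 * X / q := by positivity
  rw [abs_le]
  constructor
  · linarith
  · linarith

theorem prm : SFinC → Pool.Agent.W815.RGC.SSqf → SPrm := by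
  intro hF hS ε hε hε1
  obtain ⟨δ1, C', hδ1, hC', hF⟩ := hF ε hε hε1
  obtain ⟨C0, hC0, hS⟩ := hS
  set a : ℝ := min δ1 (min (1 / 2) ε) with ha
  have ha0 : 0 < a := lt_min hδ1 (lt_min (by norm_num) hε)
  have ha1 : a ≤ δ1 := min_le_left _ _
  have ha2 : a ≤ 1 / 2 := (min_le_right _ _).trans (min_le_left _ _)
  have ha3 : a ≤ ε := (min_le_right _ _).trans (min_le_right _ _)
  set K : ℝ := 2 * (1 + (3 * C0 + 1) + 2) with hK
  have hK0 : 0 < K := by positivity
  refine ⟨a / 2, C' + K, by positivity, by positivity, ?_⟩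
  intro q X H hq hX hH hHX hqX
  have hne : NeZero q := ⟨hq.ne_zero⟩
  have hX0 : 0 < X := by linarith
  have hH0 : 0 < H := by linarith
  have hq0 : (0 : ℝ) < q := by exact_mod_cast hq.pos
  have hq1 : (0 : ℝ) ≤ q - 1 := by
    have : (1 : ℝ) ≤ q := by exact_mod_cast hq.one_le
    linarith
  have htot : (q.totient : ℝ) = q - 1 := by
    rw [Nat.totient_prime hq, Nat.cast_sub hq.one_le, Nat.cast_one]
  have hfin : Finite (DirichletCharacter ℂ q) := by infer_instance
  have hp0 : 0 < X ^ (-(a / 2)) := Real.rpow_pos_of_pos hX0 _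
  have hcast : ∀ b : ℝ, a ≤ b → X ^ (-b) ≤ X ^ (-a) := fun b hb =>
    Real.rpow_le_rpow_of_exponent_le hX (by linarith)
  by_cases hcase : K * X ^ (-(a / 2)) ≤ 1
  · -- the main case
    have hqX' : X ^ ε ≤ q := by
      refine le_trans ?_ hqX
      have h1 : (1 : ℝ) ≤ H ^ 2 := one_le_pow₀ hH
      have h2 : 0 ≤ X ^ ε := Real.rpow_nonneg hX0.le _
      nlinarith
    have hsq := prm_sq C0 hC0 hS q hq X hX
    have hdiv : |Sq q X / X - 6 / Real.pi ^ 2| ≤ (3 * C0 + 1 + 2) * X ^ (-a) := by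
      have h1 : Sq q X / X - 6 / Real.pi ^ 2 = (Sq q X - 6 / Real.pi ^ 2 * X) / X := by
        field_simp
      rw [h1, abs_div, abs_of_pos hX0, div_le_iff₀ hX0]
      refine hsq.trans ?_
      have h2 : Real.sqrt X ≤ X ^ (-a) * X := by
        rw [Real.sqrt_eq_rpow]
        have : X ^ (1 / 2 : ℝ) = X ^ (-(1 / 2) : ℝ) * X := by
          nth_rewrite 3 [← Real.rpow_one X]
          rw [← Real.rpow_add hX0]
          norm_num
        rw [this]
        exact mul_le_mul_of_nonneg_right (hcast _ ha2) hX0.le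
      have h3 : 1 ≤ X ^ (-a) * X := by
        have : (1 : ℝ) ≤ Real.sqrt X := by
          rw [Real.one_le_sqrt]; exact hX
        linarith
      have h4 : 2 * X / q ≤ 2 * (X ^ (-a) * X) := by
        rw [div_le_iff₀ hq0]
        have h5 : X ^ (-a) * X ^ ε ≥ 1 := by
          rw [← Real.rpow_add hX0]
          exact Real.one_le_rpow hX (by linarith)
        have h6 : X ^ (-a) * X ^ ε ≤ X ^ (-a) * q :=
          mul_le_mul_of_nonneg_left hqX' (Real.rpow_nonneg hX0.le _)
        have h7 : 1 ≤ X ^ (-a) * q := by linarith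
        nlinarith
      have h8 : 3 * C0 * Real.sqrt X ≤ 3 * C0 * (X ^ (-a) * X) :=
        mul_le_mul_of_nonneg_left h2 (by positivity)
      calc 3 * C0 * Real.sqrt X + 1 + 2 * X / q ≤
          3 * C0 * (X ^ (-a) * X) + X ^ (-a) * X + 2 * (X ^ (-a) * X) := by linarith
        _ = (3 * C0 + 1 + 2) * X ^ (-a) * X := by ring
    have hsub : {χ : DirichletCharacter ℂ q |
        X ^ (-(a / 2)) < |Vc χ X H / (H / (Real.pi ^ 2 / 6)) - 1|} ⊆
        {χ : DirichletCharacter ℂ q | X ^ (-δ1) * H < |Vc χ X H - H * Sq q X / X|} := by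
      intro χ hχ
      rw [Set.mem_ofPred_eq] at hχ ⊢
      by_contra hcon
      rw [not_lt] at hcon
      refine absurd hχ (not_lt.2 ?_)
      have h1 : |Vc χ X H / H - Sq q X / X| ≤ X ^ (-a) := by
        have h2 : Vc χ X H / H - Sq q X / X = (Vc χ X H - H * Sq q X / X) / H := by
          field_simp
        rw [h2, abs_div, abs_of_pos hH0, div_le_iff₀ hH0]
        exact hcon.trans (mul_le_mul_of_nonneg_right (hcast _ ha1) hH0.le)
      have h3 : Vc χ X H / (H / (Real.pi ^ 2 / 6)) - 1 =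
          (Real.pi ^ 2 / 6) * ((Vc χ X H / H - Sq q X / X) +
            (Sq q X / X - 6 / Real.pi ^ 2)) := by
        have : Real.pi ≠ 0 := Real.pi_ne_zero
        field_simp
        ring
      rw [h3, abs_mul]
      have h4 : |Real.pi ^ 2 / 6| ≤ 2 := by
        rw [abs_of_pos (by positivity)]
        have := Real.pi_lt_d2
        have := Real.pi_pos
        nlinarith
      have h5 := abs_add_le (Vc χ X H / H - Sq q X / X) (Sq q X / X - 6 / Real.pi ^ 2)
      have h6 : |Vc χ X H / H - Sq q X / X + (Sq q X / X - 6 / Real.pi ^ 2)| ≤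
          (1 + (3 * C0 + 1) + 2) * X ^ (-a) := by
        refine h5.trans ?_
        calc _ ≤ X ^ (-a) + (3 * C0 + 1 + 2) * X ^ (-a) := add_le_add h1 hdiv
          _ = _ := by ring
      calc |Real.pi ^ 2 / 6| * |Vc χ X H / H - Sq q X / X + (Sq q X / X - 6 / Real.pi ^ 2)| ≤
          2 * ((1 + (3 * C0 + 1) + 2) * X ^ (-a)) :=
            mul_le_mul h4 h6 (abs_nonneg _) (by norm_num)
        _ = K * X ^ (-(a / 2)) * X ^ (-(a / 2)) := by
            have : X ^ (-a) = X ^ (-(a / 2)) * X ^ (-(a / 2)) := by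
              rw [← Real.rpow_add hX0]; congr 1; ring
            rw [this, hK]; ring
        _ ≤ 1 * X ^ (-(a / 2)) := mul_le_mul_of_nonneg_right hcase hp0.le
        _ = X ^ (-(a / 2)) := one_mul _
    have h1 := hF q hne X H hX hH hHX hqX
    have h2 : (Set.ncard {χ : DirichletCharacter ℂ q |
        X ^ (-(a / 2)) < |Vc χ X H / (H / (Real.pi ^ 2 / 6)) - 1|} : ℝ) ≤
        (Set.ncard {χ : DirichletCharacter ℂ q |
          X ^ (-δ1) * H < |Vc χ X H - H * Sq q X / X|} : ℝ) := by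
      exact_mod_cast Set.ncard_le_ncard hsub (Set.toFinite _)
    refine h2.trans (h1.trans ?_)
    rw [htot]
    refine mul_le_mul_of_nonneg_right ?_ hq1
    have h3 : X ^ (-δ1) ≤ X ^ (-(a / 2)) :=
      Real.rpow_le_rpow_of_exponent_le hX (by linarith)
    calc C' * X ^ (-δ1) ≤ C' * X ^ (-(a / 2)) := mul_le_mul_of_nonneg_left h3 hC'.le
      _ ≤ (C' + K) * X ^ (-(a / 2)) := by nlinarith
  · rw [not_le] at hcase
    have h1 : (Set.ncard {χ : DirichletCharacter ℂ q |
        X ^ (-(a / 2)) < |Vc χ X H / (H / (Real.pi ^ 2 / 6)) - 1|} : ℝ) ≤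
        (Nat.card (DirichletCharacter ℂ q) : ℝ) := by
      exact_mod_cast (Set.ncard_le_card _)
    have h2 : Nat.card (DirichletCharacter ℂ q) = q.totient :=
      DirichletCharacter.card_eq_totient_of_hasEnoughRootsOfUnity ℂ q
    rw [h2, htot] at h1
    refine h1.trans ?_
    have h3 : 1 ≤ (C' + K) * X ^ (-(a / 2)) := by nlinarith
    nlinarith

end Pool.Agent.W815.RGD
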