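import Pool.Agent.W815.RGC.StmC
import Pool.Agent.W815.RGC.Stm

set_option autoImplicit false

/-!
# Project RGD, part PRM: prime moduli
-/

namespace Pool.Agent.W815.RGD

open Finset MeasureTheory Filter Topology

namespace Prm2

/-- the number of characters -/
theorem card_char (q : ℕ) (hq : q.Prime) (P : DirichletCharacter ℂ q → Prop) :
    (Set.ncard {χ : DirichletCharacter ℂ q | P χ} : ℝ) ≤ (q : ℝ) - 1 := by
  have : NeZero q := ⟨hq.ne_zero⟩
  have h1 : Set.ncard {χ : DirichletCharacter ℂ q | P χ} ≤ Nat.card (DirichletCharacter ℂ q) := by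
    rw [← Set.ncard_univ]
    exact Set.ncard_le_ncard (Set.subset_univ _) Set.finite_univ
  rw [DirichletCharacter.card_eq_totient_of_hasEnoughRootsOfUnity, Nat.totient_prime hq] at h1
  calc (Set.ncard {χ : DirichletCharacter ℂ q | P χ} : ℝ) ≤ ((q - 1 : ℕ) : ℝ) := by
        exact_mod_cast h1
    _ = (q : ℝ) - 1 := by
        rw [Nat.cast_sub hq.one_lt.le, Nat.cast_one]

/-- squarefree numbers in `(X, 2X]` prime to the prime `q` -/
theorem sq_bound {C : ℝ} (hC : 0 < C)
    (hS : ∀ N : ℕ, |((open Classical in (Ioc 0 N).filter Squarefree).card : ℝ) -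
      6 / Real.pi ^ 2 * N| ≤ C * Real.sqrt N) (q : ℕ) (hq : q.Prime) (X : ℝ) (hX : 1 ≤ X) :
    |Sq q X - 6 / Real.pi ^ 2 * X| ≤ 3 * C * Real.sqrt X + 1 + 2 * X / q := by
  classical
  have hpi : 6 / Real.pi ^ 2 ≤ 1 := by
    rw [div_le_one (by positivity)]
    nlinarith [Real.pi_gt_three]
  have hpi0 : 0 ≤ 6 / Real.pi ^ 2 := by positivity
  set a := ⌊X⌋₊ with ha
  set b := ⌊2 * X⌋₊ with hb
  have hab : a ≤ b := Nat.floor_le_floor (by linarith)
  have ha1 : (a : ℝ) ≤ X := Nat.floor_le (by linarith)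
  have ha2 : X < (a : ℝ) + 1 := Nat.lt_floor_add_one X
  have hb1 : (b : ℝ) ≤ 2 * X := Nat.floor_le (by linarith)
  have hb2 : 2 * X < (b : ℝ) + 1 := Nat.lt_floor_add_one _
  have hSa := hS a
  have hSb := hS b
  have hq0 : (0 : ℝ) < q := by exact_mod_cast hq.pos
  -- the count of squarefree numbers in (a, b]
  have e1 : (((Ioc 0 b).filter Squarefree).card : ℝ) =
      (((Ioc 0 a).filter Squarefree).card : ℝ) + (((Ioc a b).filter Squarefree).card : ℝ) := by
    have : (Ioc 0 b).filter Squarefree =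
        ((Ioc 0 a).filter Squarefree) ∪ ((Ioc a b).filter Squarefree) := by
      rw [← Finset.filter_union, Finset.Ioc_union_Ioc_eq_Ioc (Nat.zero_le a) hab]
    rw [this, Finset.card_union_of_disjoint, Nat.cast_add]
    rw [Finset.disjoint_left]
    intro n hn hn'
    simp only [Finset.mem_filter, Finset.mem_Ioc] at hn hn'
    omega
  have e2 : (((Ioc a b).filter Squarefree).card : ℝ) =
      (((Ioc a b).filter (fun n => Squarefree n ∧ n.Coprime q)).card : ℝ) +
      (((Ioc a b).filter (fun n => Squarefree n ∧ ¬ n.Coprime q)).card : ℝ) := by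
    rw [← Nat.cast_add, ← Finset.filter_filter, ← Finset.filter_filter,
      Finset.card_filter_add_card_filter_not]
  have e3 : (((Ioc a b).filter (fun n => Squarefree n ∧ ¬ n.Coprime q)).card : ℝ) ≤ 2 * X / q := by
    have h1 : ((Ioc a b).filter (fun n => Squarefree n ∧ ¬ n.Coprime q)).card ≤
        ((Ioc 0 b).filter (fun n => q ∣ n)).card := by
      apply Finset.card_le_card
      intro n hn
      simp only [Finset.mem_filter, Finset.mem_Ioc] at hn ⊢
      refine ⟨⟨by omega, hn.1.2⟩, ?_⟩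
      have h2 := hn.2.2
      rw [Nat.coprime_comm, Nat.Prime.coprime_iff_not_dvd hq, not_not] at h2
      exact h2
    rw [Nat.Ioc_filter_dvd_card_eq_div] at h1
    have h2 : ((b / q : ℕ) : ℝ) ≤ (b : ℝ) / q := Nat.cast_div_le
    calc _ ≤ ((b / q : ℕ) : ℝ) := by exact_mod_cast h1
      _ ≤ (b : ℝ) / q := h2
      _ ≤ 2 * X / q := by
        apply div_le_div_of_nonneg_right hb1 hq0.le
  have e4 : Sq q X = (((Ioc a b).filter (fun n => Squarefree n ∧ n.Coprime q)).card : ℝ) := by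
    unfold Sq
    congr!
  have hsa : Real.sqrt a ≤ Real.sqrt X := Real.sqrt_le_sqrt ha1
  have hsb : Real.sqrt b ≤ 2 * Real.sqrt X := by
    calc Real.sqrt b ≤ Real.sqrt (4 * X) := Real.sqrt_le_sqrt (by linarith)
    _ = 2 * Real.sqrt X := by
      rw [show (4 : ℝ) * X = 2 ^ 2 * X by ring, Real.sqrt_mul (by norm_num),
        Real.sqrt_sq (by norm_num)]
  have hSa' : |(((Ioc 0 a).filter Squarefree).card : ℝ) - 6 / Real.pi ^ 2 * a| ≤
      C * Real.sqrt X := by
    refine le_trans ?_ (mul_le_mul_of_nonneg_left hsa hC.le)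
    convert hSa
  have hSb' : |(((Ioc 0 b).filter Squarefree).card : ℝ) - 6 / Real.pi ^ 2 * b| ≤
      C * (2 * Real.sqrt X) := by
    refine le_trans ?_ (mul_le_mul_of_nonneg_left hsb hC.le)
    convert hSb
  have h0 : (0 : ℝ) ≤ (((Ioc a b).filter (fun n => Squarefree n ∧ ¬ n.Coprime q)).card : ℝ) :=
    Nat.cast_nonneg _
  rw [e4]
  rw [abs_le] at hSa' hSb' ⊢
  have k1 : 6 / Real.pi ^ 2 * ((b : ℝ) - a) ≤ 6 / Real.pi ^ 2 * X + 1 := by
    have : (b : ℝ) - a ≤ X + 1 := by linarith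
    nlinarith
  have k2 : 6 / Real.pi ^ 2 * X - 1 ≤ 6 / Real.pi ^ 2 * ((b : ℝ) - a) := by
    have : X - 1 ≤ (b : ℝ) - a := by linarith
    nlinarith
  constructor
  · nlinarith [hSa'.1, hSa'.2, hSb'.1, hSb'.2]
  · nlinarith [hSa'.1, hSa'.2, hSb'.1, hSb'.2]

end Prm2

theorem prm : SFinC → Pool.Agent.W815.RGC.SSqf → SPrm := by
  intro hF hS ε hε hε1
  obtain ⟨C0, hC0, hS⟩ := hS
  obtain ⟨δ1, C', hδ1, hC', hF⟩ := hF ε hε hε1
  set κ : ℝ := min δ1 (min (1 / 2) ε) with hκ
  have hκ0 : 0 < κ := lt_min hδ1 (lt_min (by norm_num) hε)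
  have hκ1 : κ ≤ δ1 := min_le_left _ _
  have hκ2 : κ ≤ 1 / 2 := (min_le_right _ _).trans (min_le_left _ _)
  have hκ3 : κ ≤ ε := (min_le_right _ _).trans (min_le_right _ _)
  set K1 : ℝ := Real.pi ^ 2 / 6 * (3 * C0 + 4) with hK1
  have hK10 : 0 < K1 := by positivity
  refine ⟨κ / 2, C' + K1, by positivity, by positivity, ?_⟩
  intro q X H hq hX hH hHX hqX
  have : NeZero q := ⟨hq.ne_zero⟩
  have hX0 : 0 < X := by linarith
  have hH0 : 0 < H := by linarith
  have hq1 : (1 : ℝ) ≤ (q : ℝ) := by exact_mod_cast hq.one_lt.le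
  have hqm : (0 : ℝ) ≤ (q : ℝ) - 1 := by linarith
  rcases le_or_gt K1 (X ^ (κ / 2)) with hcase | hcase
  · -- large X
    have hmono : ∀ s t : ℝ, s ≤ t → X ^ (-t) ≤ X ^ (-s) := fun s t hst =>
      Real.rpow_le_rpow_of_exponent_le hX (by linarith)
    have hqε : X ^ ε ≤ q := by
      have : X ^ ε * 1 ≤ X ^ ε * H ^ 2 :=
        mul_le_mul_of_nonneg_left (by nlinarith) (by positivity)
      linarith
    have hSq : |Sq q X / X - 6 / Real.pi ^ 2| ≤ (3 * C0 + 3) * X ^ (-κ) := by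
      have h1 := Prm2.sq_bound hC0 hS q hq X hX
      have e1 : Sq q X / X - 6 / Real.pi ^ 2 = (Sq q X - 6 / Real.pi ^ 2 * X) / X := by
        field_simp
      rw [e1, abs_div, abs_of_pos hX0]
      have e2 : Real.sqrt X / X = X ^ (-(1 / 2) : ℝ) := by
        rw [Real.sqrt_eq_rpow, ← Real.rpow_sub_one hX0.ne']
        norm_num
      have e3 : (1 : ℝ) / X ≤ X ^ (-κ) := by
        rw [one_div, ← Real.rpow_neg_one]
        exact hmono κ 1 (by linarith)
      have e4 : 2 * X / q / X ≤ 2 * X ^ (-κ) := by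
        have : 2 * X / q / X = 2 * (1 / (q : ℝ)) := by field_simp
        rw [this]
        apply mul_le_mul_of_nonneg_left _ (by norm_num)
        calc 1 / (q : ℝ) ≤ 1 / X ^ ε := one_div_le_one_div_of_le (by positivity) hqε
        _ = X ^ (-ε) := by rw [Real.rpow_neg hX0.le, one_div]
        _ ≤ X ^ (-κ) := hmono κ ε hκ3
      have e5 : X ^ (-(1 / 2) : ℝ) ≤ X ^ (-κ) := hmono κ (1 / 2) hκ2
      calc |Sq q X - 6 / Real.pi ^ 2 * X| / X
          ≤ (3 * C0 * Real.sqrt X + 1 + 2 * X / q) / X :=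
            div_le_div_of_nonneg_right h1 hX0.le
        _ = 3 * C0 * (Real.sqrt X / X) + 1 / X + 2 * X / q / X := by ring
        _ ≤ 3 * C0 * X ^ (-κ) + X ^ (-κ) + 2 * X ^ (-κ) := by
            rw [e2]
            have := mul_le_mul_of_nonneg_left e5 (by positivity : 0 ≤ 3 * C0)
            linarith
        _ = (3 * C0 + 3) * X ^ (-κ) := by ring
    have hsub : {χ : DirichletCharacter ℂ q |
        X ^ (-(κ / 2)) < |Vc χ X H / (H / (Real.pi ^ 2 / 6)) - 1|} ⊆
        {χ : DirichletCharacter ℂ q | X ^ (-δ1) * H < |Vc χ X H - H * Sq q X / X|} := by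
      intro χ hχ
      simp only [Set.mem_ofPred_eq] at hχ ⊢
      by_contra hcon
      rw [not_lt] at hcon
      apply absurd hχ
      rw [not_lt]
      have e1 : Vc χ X H / (H / (Real.pi ^ 2 / 6)) - 1 =
          Real.pi ^ 2 / 6 * ((Vc χ X H - H * Sq q X / X) / H + (Sq q X / X - 6 / Real.pi ^ 2)) := by
        have := Real.pi_ne_zero
        field_simp
        ring
      rw [e1, abs_mul, abs_of_pos (by positivity : (0 : ℝ) < Real.pi ^ 2 / 6)]
      have e2 : |(Vc χ X H - H * Sq q X / X) / H| ≤ X ^ (-κ) := by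
        rw [abs_div, abs_of_pos hH0, div_le_iff₀ hH0]
        exact hcon.trans (mul_le_mul_of_nonneg_right (hmono κ δ1 hκ1) hH0.le)
      have e3 : X ^ (-κ) = X ^ (-(κ / 2)) * X ^ (-(κ / 2)) := by
        rw [← Real.rpow_add hX0]
        congr 1
        ring
      have e4 : K1 * X ^ (-(κ / 2)) ≤ 1 := by
        rw [Real.rpow_neg hX0.le, ← div_eq_mul_inv, div_le_one (by positivity)]
        exact hcase
      calc Real.pi ^ 2 / 6 * |(Vc χ X H - H * Sq q X / X) / H + (Sq q X / X - 6 / Real.pi ^ 2)|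
          ≤ Real.pi ^ 2 / 6 * (X ^ (-κ) + (3 * C0 + 3) * X ^ (-κ)) := by
            apply mul_le_mul_of_nonneg_left _ (by positivity)
            exact (abs_add_le _ _).trans (add_le_add e2 hSq)
        _ = K1 * X ^ (-(κ / 2)) * X ^ (-(κ / 2)) := by
            rw [e3, hK1]
            ring
        _ ≤ 1 * X ^ (-(κ / 2)) := mul_le_mul_of_nonneg_right e4 (by positivity)
        _ = X ^ (-(κ / 2)) := one_mul _
    have h1 : (Set.ncard {χ : DirichletCharacter ℂ q |
        X ^ (-(κ / 2)) < |Vc χ X H / (H / (Real.pi ^ 2 / 6)) - 1|} : ℝ) ≤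
        (Set.ncard {χ : DirichletCharacter ℂ q |
          X ^ (-δ1) * H < |Vc χ X H - H * Sq q X / X|} : ℝ) := by
      exact_mod_cast Set.ncard_le_ncard hsub (Set.toFinite _)
    have h2 := hF q ‹_› X H hX hH hHX hqX
    rw [Nat.totient_prime hq, Nat.cast_sub hq.one_lt.le, Nat.cast_one] at h2
    refine h1.trans (h2.trans ?_)
    apply mul_le_mul_of_nonneg_right _ hqm
    apply mul_le_mul _ (hmono (κ / 2) δ1 (by linarith)) (by positivity) (by positivity)
    linarith
  · -- small X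
    have h1 := Prm2.card_char q hq (fun χ =>
      X ^ (-(κ / 2)) < |Vc χ X H / (H / (Real.pi ^ 2 / 6)) - 1|)
    refine h1.trans ?_
    have e4 : 1 ≤ K1 * X ^ (-(κ / 2)) := by
      rw [Real.rpow_neg hX0.le, ← div_eq_mul_inv, le_div_iff₀ (by positivity), one_mul]
      exact hcase.le
    have e5 : 0 ≤ C' * X ^ (-(κ / 2)) := by positivity
    calc (q : ℝ) - 1 = 1 * ((q : ℝ) - 1) := by ring
      _ ≤ (C' + K1) * X ^ (-(κ / 2)) * ((q : ℝ) - 1) := by
        apply mul_le_mul_of_nonneg_right _ hqm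
        rw [add_mul]
        linarith

end Pool.Agent.W815.RGD
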