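import Pool.Agent.W815.RGC.Stm
import Pool.Agent.H510R2.Div

/-!
The number of pairs of pairs with the same product class.
-/

set_option autoImplicit false

namespace Pool.Agent.W815.RGC.Cnt2

open Finset Pool.Agent.W815.RGC

theorem mem_PR {M K : ℕ} {x : ℕ × ℕ} : x ∈ PR M K ↔
    ((1 ≤ x.1 ∧ x.1 ≤ M) ∧ (1 ≤ x.2 ∧ x.2 ≤ M)) ∧ x.1 < x.2 ∧ x.2 < x.1 + K := by
  unfold PR
  rw [mem_filter, mem_product, mem_Icc, mem_Icc]

theorem kap_pos {x : ℕ × ℕ} (h1 : 1 ≤ x.1) (h2 : 1 ≤ x.2) : 0 < kap x := by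
  have hg : 0 < x.1.gcd x.2 := Nat.gcd_pos_of_pos_left _ h1
  unfold kap
  apply Nat.mul_pos
  · exact Nat.div_pos (Nat.le_of_dvd h1 (Nat.gcd_dvd_left _ _)) hg
  · exact Nat.div_pos (Nat.le_of_dvd h2 (Nat.gcd_dvd_right _ _)) hg

theorem card_fib (M K : ℕ) (x : ℕ × ℕ) (hx : x ∈ PR M K) :
    ((PR M K).filter (fun y => kap y = kap x)).card ≤
      (kap x).divisors.card * (M * x.1.gcd x.2 / x.1) := by
  obtain ⟨⟨⟨hn1, hn2⟩, ⟨hm1, hm2⟩⟩, hnm, hmK⟩ := mem_PR.mp hx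
  have hkx : kap x ≠ 0 := (kap_pos hn1 hm1).ne'
  have e1 : x.1 / x.1.gcd x.2 * x.1.gcd x.2 = x.1 := Nat.div_mul_cancel (Nat.gcd_dvd_left _ _)
  have e3 : x.1 / x.1.gcd x.2 ≤ x.2 / x.1.gcd x.2 := Nat.div_le_div_right hnm.le
  have h0 : ((kap x).divisors ×ˢ Icc 1 (M * x.1.gcd x.2 / x.1)).card =
      (kap x).divisors.card * (M * x.1.gcd x.2 / x.1) := by
    rw [card_product, Nat.card_Icc, Nat.add_sub_cancel]
  rw [← h0]
  apply card_le_card_of_injOn (fun y => (y.2 / y.1.gcd y.2, y.1.gcd y.2))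
  · intro y hy
    rw [mem_coe, mem_filter, mem_PR] at hy
    obtain ⟨⟨⟨⟨hn1', hn2'⟩, ⟨hm1', hm2'⟩⟩, hnm', hmK'⟩, hk⟩ := hy
    have hk' : y.1 / y.1.gcd y.2 * (y.2 / y.1.gcd y.2) = kap x := hk
    have hkx' : kap x = x.1 / x.1.gcd x.2 * (x.2 / x.1.gcd x.2) := rfl
    have f2 : y.2 / y.1.gcd y.2 * y.1.gcd y.2 = y.2 := Nat.div_mul_cancel (Nat.gcd_dvd_right _ _)
    have f3 : y.1 / y.1.gcd y.2 ≤ y.2 / y.1.gcd y.2 := Nat.div_le_div_right hnm'.le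
    have hab : x.1 / x.1.gcd x.2 ≤ y.2 / y.1.gcd y.2 := by
      by_contra hcon
      have hcon' : y.2 / y.1.gcd y.2 < x.1 / x.1.gcd x.2 := not_le.mp hcon
      have := Nat.mul_lt_mul'' (lt_of_le_of_lt f3 hcon') (lt_of_lt_of_le hcon' e3)
      rw [hk', hkx'] at this
      exact lt_irrefl _ this
    show (y.2 / y.1.gcd y.2, y.1.gcd y.2) ∈
      (((kap x).divisors ×ˢ Icc 1 (M * x.1.gcd x.2 / x.1) : Finset (ℕ × ℕ)) : Set (ℕ × ℕ))
    rw [mem_coe, mem_product, Nat.mem_divisors, mem_Icc]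
    refine ⟨⟨Dvd.intro_left _ hk', hkx⟩, Nat.gcd_pos_of_pos_left _ hn1', ?_⟩
    show y.1.gcd y.2 ≤ M * x.1.gcd x.2 / x.1
    rw [Nat.le_div_iff_mul_le hn1]
    calc y.1.gcd y.2 * x.1 = y.1.gcd y.2 * (x.1 / x.1.gcd x.2 * x.1.gcd x.2) := by rw [e1]
      _ ≤ y.1.gcd y.2 * (y.2 / y.1.gcd y.2 * x.1.gcd x.2) :=
        Nat.mul_le_mul_left _ (Nat.mul_le_mul_right _ hab)
      _ = (y.2 / y.1.gcd y.2 * y.1.gcd y.2) * x.1.gcd x.2 := by ring
      _ = y.2 * x.1.gcd x.2 := by rw [f2]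
      _ ≤ M * x.1.gcd x.2 := Nat.mul_le_mul_right _ hm2'
  · intro y hy z hz hyz
    rw [mem_coe, mem_filter, mem_PR] at hy hz
    obtain ⟨⟨⟨⟨hn1', hn2'⟩, ⟨hm1', hm2'⟩⟩, hnm', hmK'⟩, hk⟩ := hy
    obtain ⟨⟨⟨⟨hn1'', hn2''⟩, ⟨hm1'', hm2''⟩⟩, hnm'', hmK''⟩, hkz⟩ := hz
    have hb : y.2 / y.1.gcd y.2 = z.2 / z.1.gcd z.2 := congrArg Prod.fst hyz
    have hg : y.1.gcd y.2 = z.1.gcd z.2 := congrArg Prod.snd hyz
    have hk' : y.1 / y.1.gcd y.2 * (y.2 / y.1.gcd y.2) = kap x := hk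
    have hkz' : z.1 / z.1.gcd z.2 * (z.2 / z.1.gcd z.2) = kap x := hkz
    have f1 : y.1 / y.1.gcd y.2 * y.1.gcd y.2 = y.1 := Nat.div_mul_cancel (Nat.gcd_dvd_left _ _)
    have f2 : y.2 / y.1.gcd y.2 * y.1.gcd y.2 = y.2 := Nat.div_mul_cancel (Nat.gcd_dvd_right _ _)
    have k1 : z.1 / z.1.gcd z.2 * z.1.gcd z.2 = z.1 := Nat.div_mul_cancel (Nat.gcd_dvd_left _ _)
    have k2 : z.2 / z.1.gcd z.2 * z.1.gcd z.2 = z.2 := Nat.div_mul_cancel (Nat.gcd_dvd_right _ _)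
    have hb0 : 0 < z.2 / z.1.gcd z.2 := by
      rcases Nat.eq_zero_or_pos (z.2 / z.1.gcd z.2) with h | h
      · rw [h, mul_zero] at hkz'
        exact absurd hkz'.symm hkx
      · exact h
    have ha : y.1 / y.1.gcd y.2 = z.1 / z.1.gcd z.2 := by
      apply Nat.eq_of_mul_eq_mul_right hb0
      rw [hkz', ← hk', hb]
    apply Prod.ext
    · rw [← f1, ← k1, ha, hg]
    · rw [← f2, ← k2, hb, hg]

theorem harm_le (M d : ℕ) (hM : 1 ≤ M) (hd : 1 ≤ d) :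
    ∑ n ∈ (Icc 1 M).filter (fun n => d ∣ n), (d : ℝ) / (n : ℝ) ≤ 1 + Real.log M := by
  have h1 : ∑ n ∈ (Icc 1 M).filter (fun n => d ∣ n), (d : ℝ) / (n : ℝ) =
      ∑ n ∈ (Icc 1 M).filter (fun n => d ∣ n), ((n / d : ℕ) : ℝ)⁻¹ := by
    apply sum_congr rfl
    intro n hn
    rw [mem_filter] at hn
    have hd0 : (d : ℝ) ≠ 0 := by positivity
    rw [Nat.cast_div hn.2 hd0, inv_div]
  have hinj : Set.InjOn (fun n => n / d) (((Icc 1 M).filter (fun n => d ∣ n) : Finset ℕ) : Set ℕ) := by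
    intro a ha b hb hab
    rw [mem_coe, mem_filter] at ha hb
    have h2 : a / d = b / d := hab
    rw [← Nat.div_mul_cancel ha.2, ← Nat.div_mul_cancel hb.2, h2]
  have h3 : ∑ n ∈ (Icc 1 M).filter (fun n => d ∣ n), ((n / d : ℕ) : ℝ)⁻¹ =
      ∑ j ∈ ((Icc 1 M).filter (fun n => d ∣ n)).image (fun n => n / d), ((j : ℕ) : ℝ)⁻¹ := by
    rw [sum_image hinj]
  have h4 : ∑ j ∈ ((Icc 1 M).filter (fun n => d ∣ n)).image (fun n => n / d), ((j : ℕ) : ℝ)⁻¹ ≤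
      ∑ j ∈ Icc 1 M, ((j : ℕ) : ℝ)⁻¹ := by
    apply sum_le_sum_of_subset_of_nonneg
    · intro j hj
      rw [mem_image] at hj
      obtain ⟨n, hn, rfl⟩ := hj
      rw [mem_filter, mem_Icc] at hn
      rw [mem_Icc]
      constructor
      · exact Nat.div_pos (Nat.le_of_dvd hn.1.1 hn.2) hd
      · exact (Nat.div_le_self _ _).trans hn.1.2
    · intro j _ _
      positivity
  have h5 : ∑ j ∈ Icc 1 M, ((j : ℕ) : ℝ)⁻¹ = ((harmonic M : ℚ) : ℝ) := by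
    rw [harmonic_eq_sum_Icc]
    push_cast
    rfl
  rw [h1, h3]
  refine h4.trans ?_
  rw [h5]
  exact harmonic_le_one_add_log M

theorem gcd_sum (M h : ℕ) (hM : 1 ≤ M) (hh : 1 ≤ h) :
    ∑ n ∈ Icc 1 M, ((n.gcd h : ℕ) : ℝ) / (n : ℝ) ≤ (h.divisors.card : ℝ) * (1 + Real.log M) := by
  calc ∑ n ∈ Icc 1 M, ((n.gcd h : ℕ) : ℝ) / (n : ℝ)
      ≤ ∑ n ∈ Icc 1 M, ∑ d ∈ h.divisors, (if d ∣ n then (d : ℝ) / (n : ℝ) else 0) := by
        apply sum_le_sum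
        intro n hn
        have hmem : n.gcd h ∈ h.divisors := by
          rw [Nat.mem_divisors]
          exact ⟨Nat.gcd_dvd_right _ _, by omega⟩
        have h1 : (if n.gcd h ∣ n then ((n.gcd h : ℕ) : ℝ) / (n : ℝ) else 0) =
            ((n.gcd h : ℕ) : ℝ) / (n : ℝ) := if_pos (Nat.gcd_dvd_left _ _)
        rw [← h1]
        apply single_le_sum (f := fun d : ℕ => (if d ∣ n then (d : ℝ) / (n : ℝ) else 0)) _ hmem
        intro d _
        show (0 : ℝ) ≤ if d ∣ n then (d : ℝ) / (n : ℝ) else 0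
        split_ifs
        · positivity
        · exact le_refl _
    _ = ∑ d ∈ h.divisors, ∑ n ∈ (Icc 1 M).filter (fun n => d ∣ n), (d : ℝ) / (n : ℝ) := by
        rw [sum_comm]
        apply sum_congr rfl
        intro d _
        rw [sum_filter]
    _ ≤ ∑ d ∈ h.divisors, (1 + Real.log M) := by
        apply sum_le_sum
        intro d hd
        exact harm_le M d hM (Nat.pos_of_mem_divisors hd)
    _ = (h.divisors.card : ℝ) * (1 + Real.log M) := by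
        rw [sum_const, nsmul_eq_mul]

theorem PR_sum (M K : ℕ) :
    ∑ x ∈ PR M K, ((x.1.gcd x.2 : ℕ) : ℝ) / (x.1 : ℝ) ≤
      ∑ h ∈ (Icc 1 M).filter (fun h => h < K), ∑ n ∈ Icc 1 M, ((n.gcd h : ℕ) : ℝ) / (n : ℝ) := by
  rw [← sum_product' (s := (Icc 1 M).filter (fun h => h < K)) (t := Icc 1 M)
    (f := fun h n => ((n.gcd h : ℕ) : ℝ) / (n : ℝ))]
  have hinj : Set.InjOn (fun x : ℕ × ℕ => (x.2 - x.1, x.1)) ((PR M K : Finset (ℕ × ℕ)) : Set (ℕ × ℕ)) := by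
    intro x hx y hy hxy
    rw [mem_coe, mem_PR] at hx hy
    have h1 : x.2 - x.1 = y.2 - y.1 := congrArg Prod.fst hxy
    have h2 : x.1 = y.1 := congrArg Prod.snd hxy
    apply Prod.ext
    · exact h2
    · omega
  have h1 : ∑ x ∈ PR M K, ((x.1.gcd x.2 : ℕ) : ℝ) / (x.1 : ℝ) =
      ∑ z ∈ (PR M K).image (fun x : ℕ × ℕ => (x.2 - x.1, x.1)),
        ((z.2.gcd z.1 : ℕ) : ℝ) / (z.2 : ℝ) := by
    rw [sum_image hinj]
    apply sum_congr rfl
    intro x hx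
    rw [mem_PR] at hx
    have h2 : x.1.gcd x.2 = x.1.gcd (x.2 - x.1) := by
      conv_lhs => rw [← Nat.sub_add_cancel hx.2.1.le]
      rw [Nat.gcd_add_self_right]
    rw [h2]
  rw [h1]
  apply sum_le_sum_of_subset_of_nonneg
  · intro z hz
    rw [mem_image] at hz
    obtain ⟨x, hx, rfl⟩ := hz
    rw [mem_PR] at hx
    rw [mem_product, mem_filter, mem_Icc, mem_Icc]
    refine ⟨⟨⟨?_, ?_⟩, ?_⟩, hx.1.1⟩
    · show 1 ≤ x.2 - x.1
      omega
    · show x.2 - x.1 ≤ M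
      omega
    · show x.2 - x.1 < K
      omega
  · intro z _ _
    positivity


end Pool.Agent.W815.RGC.Cnt2

namespace Pool.Agent.W815.RGC

open Finset Pool.Agent.W815.RGC.Cnt2

theorem cnt : SCnt := by
  intro η hη
  obtain ⟨D, hD0, hD⟩ := Pool.Agent.H510R2.divisor_bound (η / 4) (by positivity)
  refine ⟨D * D * (1 + 4 / η), by positivity, ?_⟩
  intro M K hM
  have hMr : (1 : ℝ) ≤ (M : ℝ) := by exact_mod_cast hM
  have hM0 : (0 : ℝ) < (M : ℝ) := by linarith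
  have hlog : 1 + Real.log M ≤ (1 + 4 / η) * (M : ℝ) ^ (η / 4) := by
    have h1 := Real.log_le_rpow_div (x := (M : ℝ)) hM0.le (show 0 < η / 4 by positivity)
    have h2 : (1 : ℝ) ≤ (M : ℝ) ^ (η / 4) := Real.one_le_rpow hMr (by positivity)
    have h3 : (M : ℝ) ^ (η / 4) / (η / 4) = 4 / η * (M : ℝ) ^ (η / 4) := by
      field_simp
    rw [h3] at h1
    linarith
  have hlog0 : 0 ≤ 1 + Real.log M := by
    have := Real.log_nonneg hMr
    linarith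
  -- the divisor bound for kap
  have htau : ∀ x ∈ PR M K, ((kap x).divisors.card : ℝ) ≤ D * (M : ℝ) ^ (η / 2) := by
    intro x hx
    obtain ⟨⟨⟨hn1, hn2⟩, ⟨hm1, hm2⟩⟩, hnm, hmK⟩ := mem_PR.mp hx
    have hk1 := kap_pos hn1 hm1
    refine (hD (kap x) hk1).trans ?_
    apply mul_le_mul_of_nonneg_left _ hD0.le
    have hk2 : kap x ≤ M * M := by
      unfold kap
      exact Nat.mul_le_mul ((Nat.div_le_self _ _).trans hn2) ((Nat.div_le_self _ _).trans hm2)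
    have hk3 : ((kap x : ℕ) : ℝ) ≤ (M : ℝ) ^ (2 : ℝ) := by
      have : ((kap x : ℕ) : ℝ) ≤ (M : ℝ) * (M : ℝ) := by exact_mod_cast hk2
      rw [Real.rpow_two, sq]
      exact this
    calc ((kap x : ℕ) : ℝ) ^ (η / 4) ≤ ((M : ℝ) ^ (2 : ℝ)) ^ (η / 4) :=
          Real.rpow_le_rpow (by positivity) hk3 (by positivity)
      _ = (M : ℝ) ^ (η / 2) := by
          rw [← Real.rpow_mul hM0.le]
          congr 1
          ring
  have h1 : (Npp M K : ℝ) ≤ ∑ x ∈ PR M K,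
      D * (M : ℝ) ^ (η / 2) * (M : ℝ) * (((x.1.gcd x.2 : ℕ) : ℝ) / (x.1 : ℝ)) := by
    unfold Npp
    push_cast
    apply sum_le_sum
    intro x hx
    have h2 := card_fib M K x hx
    have h3 : (((PR M K).filter (fun y => kap y = kap x)).card : ℝ) ≤
        ((kap x).divisors.card : ℝ) * ((M * x.1.gcd x.2 / x.1 : ℕ) : ℝ) := by
      exact_mod_cast h2
    refine h3.trans ?_
    have h4 : ((M * x.1.gcd x.2 / x.1 : ℕ) : ℝ) ≤ (M : ℝ) * (((x.1.gcd x.2 : ℕ) : ℝ) / (x.1 : ℝ)) := by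
      have h5 := Nat.cast_div_le (α := ℝ) (m := M * x.1.gcd x.2) (n := x.1)
      refine h5.trans (le_of_eq ?_)
      push_cast
      ring
    calc ((kap x).divisors.card : ℝ) * ((M * x.1.gcd x.2 / x.1 : ℕ) : ℝ)
        ≤ (D * (M : ℝ) ^ (η / 2)) * ((M : ℝ) * (((x.1.gcd x.2 : ℕ) : ℝ) / (x.1 : ℝ))) :=
          mul_le_mul (htau x hx) h4 (by positivity) (by positivity)
      _ = _ := by ring
  rw [← mul_sum] at h1
  have h6 : ∑ h ∈ (Icc 1 M).filter (fun h => h < K), ∑ n ∈ Icc 1 M,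
      ((n.gcd h : ℕ) : ℝ) / (n : ℝ) ≤
      (K : ℝ) * (D * (M : ℝ) ^ (η / 4) * ((1 + 4 / η) * (M : ℝ) ^ (η / 4))) := by
    have h7 : ∀ h ∈ (Icc 1 M).filter (fun h => h < K), ∑ n ∈ Icc 1 M,
        ((n.gcd h : ℕ) : ℝ) / (n : ℝ) ≤
        D * (M : ℝ) ^ (η / 4) * ((1 + 4 / η) * (M : ℝ) ^ (η / 4)) := by
      intro h hh
      rw [mem_filter, mem_Icc] at hh
      refine (gcd_sum M h hM hh.1.1).trans ?_
      apply mul_le_mul _ hlog hlog0 (by positivity)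
      refine (hD h hh.1.1).trans ?_
      apply mul_le_mul_of_nonneg_left _ hD0.le
      apply Real.rpow_le_rpow (by positivity) _ (by positivity)
      exact_mod_cast hh.1.2
    refine (sum_le_sum h7).trans ?_
    rw [sum_const, nsmul_eq_mul]
    apply mul_le_mul_of_nonneg_right _ (by positivity)
    have h8 : ((Icc 1 M).filter (fun h => h < K)).card ≤ K := by
      have h9 : (Icc 1 M).filter (fun h => h < K) ⊆ range K := by
        intro h hh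
        rw [mem_filter] at hh
        exact mem_range.mpr hh.2
      calc ((Icc 1 M).filter (fun h => h < K)).card ≤ (range K).card := card_le_card h9
        _ = K := card_range K
    exact_mod_cast h8
  have h10 := (PR_sum M K).trans h6
  refine h1.trans ?_
  calc D * (M : ℝ) ^ (η / 2) * (M : ℝ) * ∑ x ∈ PR M K, ((x.1.gcd x.2 : ℕ) : ℝ) / (x.1 : ℝ)
      ≤ D * (M : ℝ) ^ (η / 2) * (M : ℝ) *
        ((K : ℝ) * (D * (M : ℝ) ^ (η / 4) * ((1 + 4 / η) * (M : ℝ) ^ (η / 4)))) :=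
        mul_le_mul_of_nonneg_left h10 (by positivity)
    _ = D * D * (1 + 4 / η) * ((M : ℝ) ^ (η / 2) * (M : ℝ) * ((M : ℝ) ^ (η / 4) *
        (M : ℝ) ^ (η / 4))) * K := by ring
    _ = D * D * (1 + 4 / η) * (M : ℝ) ^ (1 + η) * K := by
        congr 2
        rw [← Real.rpow_add hM0]
        have h11 : (M : ℝ) ^ (η / 2) * (M : ℝ) = (M : ℝ) ^ (η / 2 + 1) := by
          rw [Real.rpow_add hM0, Real.rpow_one]
        rw [h11, ← Real.rpow_add hM0]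
        congr 1
        ring

end Pool.Agent.W815.RGC
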