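import Pool.Agent.W815.RGC.Stm

set_option autoImplicit false

/-!
Project RGC (helper815), part DET (second copy).
-/

namespace Pool.Agent.W815.RGC

open Finset MeasureTheory Filter Topology

namespace Det2

/-- the integrand -/
noncomputable def FF (g : ℕ → ℝ) (H x : ℝ) : ℝ :=
  (∑ n ∈ (Finset.range (⌈x + H⌉₊ + 1)).filter (fun n : ℕ => |(n : ℝ) - x| < H / 2), g n) ^ 2

theorem floor_add_fract {H : ℝ} (hH : 1 ≤ H) : (⌊H⌋₊ : ℝ) + Int.fract H = H := by
  have h1 : ((⌊H⌋₊ : ℕ) : ℝ) = (⌊H⌋ : ℝ) := natCast_floor_eq_intCast_floor (by linarith)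
  rw [h1]
  exact Int.floor_add_fract H

theorem set_eq {H x t : ℝ} {a K : ℕ} (hH : 1 ≤ H) (hx : x = a + t + H / 2) (h1 : (K : ℝ) < t + H)
    (h2 : t + H < K + 1) (h3 : 0 < t) (h4 : t < 1) :
    (Finset.range (⌈x + H⌉₊ + 1)).filter (fun n : ℕ => |(n : ℝ) - x| < H / 2) = Ioc a (a + K) := by
  ext n
  simp only [Finset.mem_filter, Finset.mem_range, Finset.mem_Ioc, abs_lt]
  constructor
  · rintro ⟨-, h5, h6⟩
    constructor
    · have : (a : ℝ) < n := by linarith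
      exact_mod_cast this
    · have : (n : ℝ) < ((a + K + 1 : ℕ) : ℝ) := by push_cast; linarith
      have h7 : n < a + K + 1 := by exact_mod_cast this
      omega
  · rintro ⟨h5, h6⟩
    have h5' : (a : ℝ) + 1 ≤ n := by exact_mod_cast h5
    have h6' : (n : ℝ) ≤ a + K := by exact_mod_cast h6
    refine ⟨?_, by linarith, by linarith⟩
    have h7 : (n : ℝ) ≤ ⌈x + H⌉₊ := by
      have := Nat.le_ceil (x + H)
      linarith
    have h8 : n ≤ ⌈x + H⌉₊ := by exact_mod_cast h7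
    omega

theorem FF_eq {g : ℕ → ℝ} {H x t : ℝ} {a K : ℕ} (hH : 1 ≤ H) (hx : x = a + t + H / 2)
    (h1 : (K : ℝ) < t + H) (h2 : t + H < K + 1) (h3 : 0 < t) (h4 : t < 1) :
    FF g H x = (W g a K) ^ 2 := by
  unfold FF W
  rw [set_eq hH hx h1 h2 h3 h4]

theorem FF_nonneg (g : ℕ → ℝ) (H x : ℝ) : 0 ≤ FF g H x := sq_nonneg _

theorem FF_le {g : ℕ → ℝ} (hg : ∀ n, |g n| ≤ 1) {H x t : ℝ} {a : ℕ} (hH : 1 ≤ H)
    (hx : x = a + t + H / 2) (h3 : 0 ≤ t) (h4 : t < 1) : FF g H x ≤ (H + 1) ^ 2 := by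
  have hsub : (Finset.range (⌈x + H⌉₊ + 1)).filter (fun n : ℕ => |(n : ℝ) - x| < H / 2) ⊆
      Ioc a (a + (⌊H⌋₊ + 1)) := by
    intro n hn
    simp only [Finset.mem_filter, Finset.mem_range, Finset.mem_Ioc, abs_lt] at hn ⊢
    obtain ⟨-, h5, h6⟩ := hn
    constructor
    · have : (a : ℝ) < n := by linarith
      exact_mod_cast this
    · have h7 := Nat.lt_floor_add_one H
      have : (n : ℝ) < ((a + (⌊H⌋₊ + 1) + 1 : ℕ) : ℝ) := by push_cast; linarith
      have h8 : n < a + (⌊H⌋₊ + 1) + 1 := by exact_mod_cast this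
      omega
  have hcard : ((((Finset.range (⌈x + H⌉₊ + 1)).filter
      (fun n : ℕ => |(n : ℝ) - x| < H / 2)).card : ℕ) : ℝ) ≤ H + 1 := by
    have h5 := Finset.card_le_card hsub
    rw [Nat.card_Ioc] at h5
    have h6 : a + (⌊H⌋₊ + 1) - a = ⌊H⌋₊ + 1 := by omega
    rw [h6] at h5
    have h7 := Nat.floor_le (show 0 ≤ H by linarith)
    have h8 : ((((Finset.range (⌈x + H⌉₊ + 1)).filter
      (fun n : ℕ => |(n : ℝ) - x| < H / 2)).card : ℕ) : ℝ) ≤ ((⌊H⌋₊ + 1 : ℕ) : ℝ) := by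
      exact_mod_cast h5
    push_cast at h8
    linarith
  unfold FF
  have h5 : |∑ n ∈ (Finset.range (⌈x + H⌉₊ + 1)).filter (fun n : ℕ => |(n : ℝ) - x| < H / 2), g n|
      ≤ H + 1 := by
    refine (Finset.abs_sum_le_sum_abs _ _).trans ?_
    refine (Finset.sum_le_card_nsmul _ _ 1 (fun n _ => hg n)).trans ?_
    rw [nsmul_eq_mul, mul_one]
    exact hcard
  rw [← sq_abs]
  have h6 := abs_nonneg (∑ n ∈ (Finset.range (⌈x + H⌉₊ + 1)).filter
    (fun n : ℕ => |(n : ℝ) - x| < H / 2), g n)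
  exact pow_le_pow_left₀ h6 h5 2

theorem piece {F : ℝ → ℝ} {p q c : ℝ} (hpq : p ≤ q) (h : ∀ x, p < x → x < q → F x = c) :
    IntervalIntegrable F volume p q ∧ ∫ x in p..q, F x = (q - p) * c := by
  have hE : Set.EqOn (fun _ : ℝ => c) F (Set.uIoo p q) := by
    intro x hx
    rw [Set.uIoo_of_le hpq] at hx
    exact (h x hx.1 hx.2).symm
  refine ⟨(intervalIntegrable_const (c := c)).congr_uIoo hE, ?_⟩
  rw [intervalIntegral.integral_of_le hpq, integral_Ioc_eq_integral_Ioo,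
    setIntegral_congr_fun (g := fun _ => c) measurableSet_Ioo (fun x hx => h x hx.1 hx.2)]
  rw [setIntegral_const]
  simp [Measure.real, Real.volume_Ioo, ENNReal.toReal_ofReal (sub_nonneg.2 hpq)]

theorem unit {g : ℕ → ℝ} {H : ℝ} (hH : 1 ≤ H) (a : ℕ) :
    IntervalIntegrable (FF g H) volume (a + H / 2) (a + 1 + H / 2) ∧
    ∫ x in (a + H / 2)..(a + 1 + H / 2), FF g H x =
      (1 - Int.fract H) * (W g a ⌊H⌋₊) ^ 2 + Int.fract H * (W g a (⌊H⌋₊ + 1)) ^ 2 := by
  have hr := floor_add_fract hH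
  have hr0 := Int.fract_nonneg H
  have hr1 := (Int.fract_lt_one H).le
  set r := Int.fract H with hrdef
  obtain ⟨i1, e1⟩ := piece (F := FF g H) (p := a + H / 2) (q := a + (1 - r) + H / 2)
    (c := (W g a ⌊H⌋₊) ^ 2) (by linarith) (by
      intro x hx1 hx2
      refine FF_eq (t := x - a - H / 2) hH (by ring) ?_ ?_ ?_ ?_ <;> linarith)
  obtain ⟨i2, e2⟩ := piece (F := FF g H) (p := a + (1 - r) + H / 2) (q := a + 1 + H / 2)
    (c := (W g a (⌊H⌋₊ + 1)) ^ 2) (by linarith) (by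
      intro x hx1 hx2
      refine FF_eq (t := x - a - H / 2) hH (by ring) ?_ ?_ ?_ ?_ <;> push_cast <;> linarith)
  refine ⟨i1.trans i2, ?_⟩
  rw [← intervalIntegral.integral_add_adjacent_intervals i1 i2, e1, e2]
  ring

end Det2

open Det2 in
theorem det : SDet := by
  intro g hg X H hX hH hHX
  show |(∫ x in X..2 * X, FF g H x) - _| ≤ _
  set B1 := ⌊X - H / 2⌋₊ with hB1
  set B2 := ⌊2 * X - H / 2⌋₊ with hB2
  have hB12 : B1 ≤ B2 := Nat.floor_mono (by linarith)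
  have b1 : (B1 : ℝ) ≤ X - H / 2 := Nat.floor_le (by linarith)
  have b1' : X - H / 2 < B1 + 1 := Nat.lt_floor_add_one _
  have b2 : (B2 : ℝ) ≤ 2 * X - H / 2 := Nat.floor_le (by linarith)
  have b2' : 2 * X - H / 2 < B2 + 1 := Nat.lt_floor_add_one _
  have hint : ∀ k ∈ Set.Ico B1 B2, IntervalIntegrable (FF g H) volume
      ((fun k : ℕ => (k : ℝ) + H / 2) k) ((fun k : ℕ => (k : ℝ) + H / 2) (k + 1)) := by
    intro k _
    have := (unit (g := g) hH k).1
    simpa using this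
  have hsum := intervalIntegral.sum_integral_adjacent_intervals_Ico hB12 hint
  have hmid : ∫ x in ((B1 : ℝ) + H / 2)..((B2 : ℝ) + H / 2), FF g H x =
      (1 - Int.fract H) * (E g B2 ⌊H⌋₊ - E g B1 ⌊H⌋₊) +
      Int.fract H * (E g B2 (⌊H⌋₊ + 1) - E g B1 (⌊H⌋₊ + 1)) := by
    rw [← hsum]
    unfold E
    rw [← Finset.sum_Ico_eq_sub _ hB12, ← Finset.sum_Ico_eq_sub _ hB12, Finset.mul_sum,
      Finset.mul_sum, ← Finset.sum_add_distrib]
    refine Finset.sum_congr rfl (fun k _ => ?_)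
    have := (unit (g := g) hH k).2
    simpa using this
  have imid : IntervalIntegrable (FF g H) volume ((B1 : ℝ) + H / 2) ((B2 : ℝ) + H / 2) := by
    have := IntervalIntegrable.trans_iterate_Ico hB12 hint
    simpa using this
  have i1 : IntervalIntegrable (FF g H) volume ((B1 : ℝ) + H / 2) X := by
    refine (unit (g := g) hH B1).1.mono_set ?_
    rw [Set.uIcc_of_le (by linarith), Set.uIcc_of_le (by linarith)]
    exact Set.Icc_subset_Icc le_rfl (by linarith)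
  have i2 : IntervalIntegrable (FF g H) volume ((B2 : ℝ) + H / 2) (2 * X) := by
    refine (unit (g := g) hH B2).1.mono_set ?_
    rw [Set.uIcc_of_le (by linarith), Set.uIcc_of_le (by linarith)]
    exact Set.Icc_subset_Icc le_rfl (by linarith)
  have hsplit : ∫ x in X..2 * X, FF g H x =
      (∫ x in ((B1 : ℝ) + H / 2)..((B2 : ℝ) + H / 2), FF g H x) -
      (∫ x in ((B1 : ℝ) + H / 2)..X, FF g H x) + ∫ x in ((B2 : ℝ) + H / 2)..(2 * X), FF g H x := by
    have h1 := intervalIntegral.integral_add_adjacent_intervals i1.symm imid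
    have h2 := intervalIntegral.integral_add_adjacent_intervals (i1.symm.trans imid) i2
    rw [← h2, ← h1, intervalIntegral.integral_symm]
    ring
  have bound : ∀ (B : ℕ) (Y : ℝ), (B : ℝ) ≤ Y - H / 2 → Y - H / 2 < B + 1 →
      |∫ x in ((B : ℝ) + H / 2)..Y, FF g H x| ≤ (H + 1) ^ 2 := by
    intro B Y h1 h2
    have h3 := intervalIntegral.norm_integral_le_of_norm_le_const (a := (B : ℝ) + H / 2) (b := Y)
      (C := (H + 1) ^ 2) (f := FF g H) (by
        intro x hx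
        rw [Set.uIoc_of_le (by linarith)] at hx
        rw [Real.norm_eq_abs, abs_of_nonneg (FF_nonneg _ _ _)]
        exact FF_le hg (t := x - B - H / 2) hH (by ring) (by linarith [hx.1]) (by linarith [hx.2]))
    rw [Real.norm_eq_abs] at h3
    refine h3.trans ?_
    have h4 : |Y - ((B : ℝ) + H / 2)| ≤ 1 := by
      rw [abs_le]; constructor <;> linarith
    calc (H + 1) ^ 2 * |Y - ((B : ℝ) + H / 2)| ≤ (H + 1) ^ 2 * 1 := by gcongr
      _ = (H + 1) ^ 2 := mul_one _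
  have hb1 := bound B1 X b1 b1'
  have hb2 := bound B2 (2 * X) b2 b2'
  rw [hsplit, hmid]
  have e : ∀ M P Q : ℝ, M - P + Q - M = Q - P := fun M P Q => by ring
  rw [e]
  rw [abs_le] at hb1 hb2 ⊢
  constructor <;> linarith [hb1.1, hb1.2, hb2.1, hb2.2]

end Pool.Agent.W815.RGC
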