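import Pool.Agent.W815.RGC.StmG
import Pool.Agent.W815.RGC.Ldg
import Pool.Agent.W815.RGC.Mom
import Pool.Agent.W815.RGC.Bc

set_option autoImplicit false

/-!
# Task RGE-BCG: the almost sure bound for the weighted sums
-/

namespace Pool.Agent.W815.RGE

open Finset MeasureTheory Filter Topology Pool.Agent.Helper497.HS Pool.Agent.H595R2.PTF
open Pool.Agent.W815.RGC

namespace Bcg2

theorem LD_rf {M n d : ℕ} (hn : n < M) (h1 : n.primeFactors.card ≤ d) :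
    LD d (fun x : Fin M → ℤˣ => rf (ext M x) n) := by
  obtain ⟨c, hc⟩ := rf_ext hn
  have h : (fun x : Fin M → ℤˣ => rf (ext M x) n) = fun x => c * chi (PSet M n) x := funext hc
  rw [h]
  exact LD.const_mul _ ((LD_chi _).mono (by rw [PSet_card hn]; exact h1))

theorem LD_prodF {M d : ℕ} {ι : Type} (s : Finset ι) (F : ι → (Fin M → ℤˣ) → ℝ)
    (hF : ∀ i ∈ s, LD d (F i)) : LD (s.card * d) (fun x => ∏ i ∈ s, F i x) := by
  classical
  induction s using Finset.induction_on with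
  | empty =>
    have h : (fun x : Fin M → ℤˣ => ∏ i ∈ (∅ : Finset ι), F i x) = fun x => chi ∅ x := by
      funext x
      simp [chi]
    rw [h]
    exact (LD_chi _).mono (by simp)
  | insert a s ha ih =>
    have h : (fun x : Fin M → ℤˣ => ∏ i ∈ insert a s, F i x) =
        fun x => F a x * ∏ i ∈ s, F i x := by
      funext x
      rw [prod_insert ha]
    rw [h, card_insert_of_notMem ha]
    have h2 := LD_mul (hF a (mem_insert_self _ _))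
      (ih fun i hi => hF i (mem_insert_of_mem hi))
    refine h2.mono ?_
    rw [add_mul, one_mul, add_comm]

theorem LD_AA (B B' K j m d : ℕ) (hB' : B' ≤ 3 * B)
    (hd : ∀ n ∈ Icc 1 (3 * B + K), n.primeFactors.card ≤ d) :
    LD (j * d) (fun x : Fin (3 * B + K + 1) → ℤˣ => AA (cf (3 * B + K + 1) x) j m B B' K) := by
  unfold AA
  refine LD.sum _ fun a ha => ?_
  refine LD.const_mul _ ?_
  unfold S
  refine LD.sum _ fun u _ => ?_
  have ha' := mem_Ico.1 ha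
  have h := LD_prodF (M := 3 * B + K + 1) (d := d) (univ : Finset (Fin j))
    (fun i x => rf (ext (3 * B + K + 1) x) (u i)) (fun i _ => by
      have h1 := mem_Ioc.1 (u i).2
      exact LD_rf (by omega) (hd _ (mem_Icc.2 (by omega))))
  rw [card_univ, Fintype.card_fin] at h
  exact h

/-- the real inequality -/
theorem realI (c C C2 b k v n2 : ℝ) (j m : ℕ) (hC : 0 < C) (hC2 : 0 < C2) (hc : 0 < c)
    (hb : 1 ≤ b) (hk : 1 ≤ k) (hv0 : 0 ≤ v) (hv : v ≤ C2 * (4 * b) ^ (c / 4)) (hn0 : 0 ≤ n2)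
    (hn : n2 ≤ C * b ^ (2 - c) * k ^ (2 * m + j)) :
    v * n2 / (b ^ (1 - c / 4) * k ^ ((m : ℝ) + (j : ℝ) / 2)) ^ 2 ≤
      (C * C2 * 4 ^ (c / 4)) * b ^ (-(c / 4)) := by
  have hb0 : 0 < b := by linarith
  have hk0 : 0 < k := by linarith
  have e1 : (k ^ ((m : ℝ) + (j : ℝ) / 2)) ^ 2 = k ^ (2 * m + j) := by
    rw [← Real.rpow_natCast (k ^ ((m : ℝ) + (j : ℝ) / 2)) 2, ← Real.rpow_mul hk0.le,
      ← Real.rpow_natCast k (2 * m + j)]
    congr 1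
    push_cast
    ring
  have e2 : (b ^ (1 - c / 4)) ^ 2 = b ^ (2 - c / 2) := by
    rw [← Real.rpow_natCast (b ^ (1 - c / 4)) 2, ← Real.rpow_mul hb0.le]
    congr 1
    push_cast
    ring
  have e3 : (4 * b) ^ (c / 4) = 4 ^ (c / 4) * b ^ (c / 4) :=
    Real.mul_rpow (by norm_num) hb0.le
  have e4 : b ^ (c / 4) * b ^ (2 - c) = b ^ (-(c / 4)) * b ^ (2 - c / 2) := by
    rw [← Real.rpow_add hb0, ← Real.rpow_add hb0]
    congr 1
    ring
  have p1 : 0 < b ^ (2 - c / 2) := Real.rpow_pos_of_pos hb0 _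
  have p2 : 0 < k ^ (2 * m + j) := pow_pos hk0 _
  have p3 : 0 < (4 : ℝ) ^ (c / 4) := Real.rpow_pos_of_pos (by norm_num) _
  rw [mul_pow, e1, e2, div_le_iff₀ (mul_pos p1 p2)]
  calc v * n2 ≤ (C2 * (4 * b) ^ (c / 4)) * (C * b ^ (2 - c) * k ^ (2 * m + j)) :=
        mul_le_mul hv hn hn0 (by positivity)
    _ = C * C2 * 4 ^ (c / 4) * (b ^ (c / 4) * b ^ (2 - c)) * k ^ (2 * m + j) := by
        rw [e3]; ring
    _ = C * C2 * 4 ^ (c / 4) * b ^ (-(c / 4)) * (b ^ (2 - c / 2) * k ^ (2 * m + j)) := by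
        rw [e4]; ring

theorem tailG (hQb : SQb) (hTail : STail) (hDeg : SDeg) (ε : ℝ) (j m : ℕ) (hε : 0 < ε)
    (hε1 : ε < 1) (hj : 1 ≤ j) : ∃ c C : ℝ, 0 < c ∧ 0 < C ∧ ∀ B B' K : ℕ, 1 ≤ B → B' ≤ 3 * B →
      1 ≤ K → (K : ℝ) ≤ (B : ℝ) ^ (1 - ε) →
      Pr (fun x : Fin (3 * B + K + 1) → ℤˣ =>
        (B : ℝ) ^ (1 - c) * (K : ℝ) ^ ((m : ℝ) + (j : ℝ) / 2) <
          |AA (cf (3 * B + K + 1) x) j m B B' K|) ≤ C / (B : ℝ) ^ 6 := by
  obtain ⟨c, C, hc, hC, hQ⟩ := hQb ε j m hε hε1 hj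
  obtain ⟨i, hi⟩ : ∃ i : ℕ, 24 / c ≤ (2 : ℝ) ^ i := by
    obtain ⟨i, hi⟩ := pow_unbounded_of_one_lt (24 / c) (one_lt_two : (1 : ℝ) < 2)
    exact ⟨i, hi.le⟩
  obtain ⟨C2, hC2, hdeg⟩ := hDeg (3 ^ (i * j)) (c / 4) (Nat.one_le_pow _ _ (by norm_num))
    (by positivity)
  set C3 : ℝ := C * C2 * 4 ^ (c / 4) with hC3
  have hC3pos : 0 < C3 := by
    have : (0 : ℝ) < 4 ^ (c / 4) := Real.rpow_pos_of_pos (by norm_num) _
    positivity
  refine ⟨c / 4, C3 ^ (2 ^ i), by positivity, by positivity, ?_⟩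
  intro B B' K hB hB' hK hKB
  have hb : (1 : ℝ) ≤ (B : ℝ) := by exact_mod_cast hB
  have hk : (1 : ℝ) ≤ (K : ℝ) := by exact_mod_cast hK
  have hb0 : (0 : ℝ) < B := by linarith
  have hk0 : (0 : ℝ) < K := by linarith
  have hKB' : (K : ℝ) ≤ B := by
    refine hKB.trans ?_
    calc (B : ℝ) ^ (1 - ε) ≤ (B : ℝ) ^ (1 : ℝ) :=
          Real.rpow_le_rpow_of_exponent_le hb (by linarith)
      _ = B := Real.rpow_one _
  have hM : ((3 * B + K : ℕ) : ℝ) ≤ 4 * B := by push_cast; linarith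
  have hM0 : (0 : ℝ) ≤ ((3 * B + K : ℕ) : ℝ) := Nat.cast_nonneg _
  obtain ⟨d, hd1, hd2⟩ := hdeg (3 * B + K) (by omega)
  set F : (Fin (3 * B + K + 1) → ℤˣ) → ℝ :=
    fun x => AA (cf (3 * B + K + 1) x) j m B B' K with hF
  have hLD : LD (j * d) F := LD_AA B B' K j m d hB' hd1
  have ht : 0 < (B : ℝ) ^ (1 - c / 4) * (K : ℝ) ^ ((m : ℝ) + (j : ℝ) / 2) :=
    mul_pos (Real.rpow_pos_of_pos hb0 _) (Real.rpow_pos_of_pos hk0 _)
  have h1 := hTail (3 * B + K + 1) (j * d) F hLD i _ ht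
  refine h1.trans ?_
  have hn0 : 0 ≤ nsq F := nsq_nonneg F
  have hn1 : nsq F ≤ C * (B : ℝ) ^ (2 - c) * (K : ℝ) ^ (2 * m + j) := hQ B B' K hB hB' hK hKB
  have h3 : (3 : ℝ) ^ (i * (j * d)) ≤ C2 * (4 * B) ^ (c / 4) := by
    have h4 : (3 : ℝ) ^ (i * (j * d)) = (((3 ^ (i * j) : ℕ) : ℝ)) ^ d := by
      push_cast
      rw [← pow_mul]
      congr 1
      ring
    rw [h4]
    refine hd2.trans ?_
    apply mul_le_mul_of_nonneg_left _ hC2.le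
    exact Real.rpow_le_rpow hM0 hM (by positivity)
  have hbase := realI c C C2 B K ((3 : ℝ) ^ (i * (j * d))) (nsq F) j m hC hC2 hc hb hk
    (by positivity) h3 hn0 hn1
  have h5 : ((3 : ℝ) ^ (i * (j * d)) * nsq F /
      ((B : ℝ) ^ (1 - c / 4) * (K : ℝ) ^ ((m : ℝ) + (j : ℝ) / 2)) ^ 2) ^ (2 ^ i) ≤
      (C3 * (B : ℝ) ^ (-(c / 4))) ^ (2 ^ i) := by
    apply pow_le_pow_left₀ _ hbase
    positivity
  refine h5.trans ?_
  rw [mul_pow, div_eq_mul_inv (C3 ^ (2 ^ i))]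
  apply mul_le_mul_of_nonneg_left _ (by positivity)
  rw [← Real.rpow_natCast ((B : ℝ) ^ (-(c / 4))) (2 ^ i), ← Real.rpow_mul hb0.le,
    ← Real.rpow_natCast (B : ℝ) 6, ← Real.rpow_neg hb0.le]
  apply Real.rpow_le_rpow_of_exponent_le hb
  push_cast
  rw [div_le_iff₀ hc] at hi
  nlinarith [hi]

theorem aa_ext (s : ℕ → ℤˣ) (j m B B' K : ℕ) (hB' : B' ≤ 3 * B) :
    AA (cf (3 * B + K + 1) (fun i : Fin (3 * B + K + 1) => s i)) j m B B' K =
      AA (rf s) j m B B' K := by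
  unfold AA
  refine Finset.sum_congr rfl fun a ha => ?_
  congr 1
  unfold S
  refine Finset.sum_congr rfl fun u _ => ?_
  refine Finset.prod_congr rfl fun i _ => ?_
  have h1 := Finset.mem_Ico.1 ha
  have h2 := Finset.mem_Ioc.1 (u i).2
  exact Bc.rf_ext s _ _ (by omega)

end Bcg2

open Bcg2 in
theorem bcg : SBcg := by
  intro hQb hTail hDeg hLaw Ω _ μ _ e he
  have hε : ∀ k : ℕ, (0 : ℝ) < 1 / ((k : ℝ) + 2) ∧ 1 / ((k : ℝ) + 2) < 1 := by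
    intro k
    have hk : (0 : ℝ) ≤ k := Nat.cast_nonneg k
    refine ⟨by positivity, ?_⟩
    rw [div_lt_one (by positivity)]
    linarith
  have hF := fun (x : ℕ × ℕ × ℕ) => tailG hQb hTail hDeg (1 / ((x.1 : ℝ) + 2)) (x.2.1 + 1) x.2.2
    (hε x.1).1 (hε x.1).2 (by omega)
  choose c C hc0 hC hP using hF
  -- one triple
  have key : ∀ x : ℕ × ℕ × ℕ, ∀ᵐ ω ∂μ, ∀ᶠ B : ℕ in atTop, ω ∉ {ω | ∃ B' K : ℕ,
      B' ≤ 3 * (B + 1) ∧ 1 ≤ K ∧
      (K : ℝ) ≤ ((B + 1 : ℕ) : ℝ) ^ (1 - 1 / ((x.1 : ℝ) + 2)) ∧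
      ((B + 1 : ℕ) : ℝ) ^ (1 - c x) * (K : ℝ) ^ ((x.2.2 : ℝ) + ((x.2.1 + 1 : ℕ) : ℝ) / 2) <
        |AA (rf (fun p => e p ω)) (x.2.1 + 1) x.2.2 (B + 1) B' K|} := by
    intro x
    refine ae_eventually_notMem ?_
    have hle : ∀ B : ℕ, μ {ω | ∃ B' K : ℕ, B' ≤ 3 * (B + 1) ∧ 1 ≤ K ∧
        (K : ℝ) ≤ ((B + 1 : ℕ) : ℝ) ^ (1 - 1 / ((x.1 : ℝ) + 2)) ∧
        ((B + 1 : ℕ) : ℝ) ^ (1 - c x) * (K : ℝ) ^ ((x.2.2 : ℝ) + ((x.2.1 + 1 : ℕ) : ℝ) / 2) <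
          |AA (rf (fun p => e p ω)) (x.2.1 + 1) x.2.2 (B + 1) B' K|} ≤
        ENNReal.ofReal (4 * C x * (1 / ((B + 1 : ℕ) : ℝ) ^ 4)) := by
      intro B
      have hB1 : (1 : ℝ) ≤ ((B + 1 : ℕ) : ℝ) := by
        exact_mod_cast Nat.succ_le_succ (Nat.zero_le B)
      set E : ℕ → ℕ → Set Ω := fun B' K =>
        {ω | (K : ℝ) ≤ ((B + 1 : ℕ) : ℝ) ^ (1 - 1 / ((x.1 : ℝ) + 2)) ∧
          ((B + 1 : ℕ) : ℝ) ^ (1 - c x) * (K : ℝ) ^ ((x.2.2 : ℝ) + ((x.2.1 + 1 : ℕ) : ℝ) / 2) <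
          |AA (rf (fun p => e p ω)) (x.2.1 + 1) x.2.2 (B + 1) B' K|} with hE
      have hsub : {ω | ∃ B' K : ℕ, B' ≤ 3 * (B + 1) ∧ 1 ≤ K ∧
          (K : ℝ) ≤ ((B + 1 : ℕ) : ℝ) ^ (1 - 1 / ((x.1 : ℝ) + 2)) ∧
          ((B + 1 : ℕ) : ℝ) ^ (1 - c x) * (K : ℝ) ^ ((x.2.2 : ℝ) + ((x.2.1 + 1 : ℕ) : ℝ) / 2) <
            |AA (rf (fun p => e p ω)) (x.2.1 + 1) x.2.2 (B + 1) B' K|} ⊆
          ⋃ y ∈ Finset.range (3 * (B + 1) + 1) ×ˢ Finset.Icc 1 (B + 1), E y.1 y.2 := by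
        rintro ω ⟨B', K, hB', hK1, hK2, hK3⟩
        rw [Set.mem_iUnion₂]
        refine ⟨(B', K), ?_, hK2, hK3⟩
        rw [Finset.mem_product, Finset.mem_range, Finset.mem_Icc]
        refine ⟨by simp only; omega, hK1, ?_⟩
        have h1 : ((B + 1 : ℕ) : ℝ) ^ (1 - 1 / ((x.1 : ℝ) + 2)) ≤ ((B + 1 : ℕ) : ℝ) := by
          calc ((B + 1 : ℕ) : ℝ) ^ (1 - 1 / ((x.1 : ℝ) + 2)) ≤ ((B + 1 : ℕ) : ℝ) ^ (1 : ℝ) :=
                Real.rpow_le_rpow_of_exponent_le hB1 (by linarith [(hε x.1).1])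
            _ = _ := Real.rpow_one _
        exact_mod_cast hK2.trans h1
      have hone : ∀ y ∈ Finset.range (3 * (B + 1) + 1) ×ˢ Finset.Icc 1 (B + 1),
          μ (E y.1 y.2) ≤ ENNReal.ofReal (C x / ((B + 1 : ℕ) : ℝ) ^ 6) := by
        rintro ⟨B', K⟩ hy
        rw [Finset.mem_product, Finset.mem_range, Finset.mem_Icc] at hy
        simp only at hy ⊢
        obtain ⟨hB', hK1, -⟩ := hy
        have hB'' : B' ≤ 3 * (B + 1) := by omega
        by_cases hK2 : (K : ℝ) ≤ ((B + 1 : ℕ) : ℝ) ^ (1 - 1 / ((x.1 : ℝ) + 2))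
        · have h1 := hLaw Ω _ μ inferInstance e he (3 * (B + 1) + K + 1)
            (fun z => ((B + 1 : ℕ) : ℝ) ^ (1 - c x) *
              (K : ℝ) ^ ((x.2.2 : ℝ) + ((x.2.1 + 1 : ℕ) : ℝ) / 2) <
              |AA (cf (3 * (B + 1) + K + 1) z) (x.2.1 + 1) x.2.2 (B + 1) B' K|)
          have h2 : {ω | ((B + 1 : ℕ) : ℝ) ^ (1 - c x) *
              (K : ℝ) ^ ((x.2.2 : ℝ) + ((x.2.1 + 1 : ℕ) : ℝ) / 2) <
              |AA (cf (3 * (B + 1) + K + 1) (fun i : Fin (3 * (B + 1) + K + 1) => e i ω))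
                (x.2.1 + 1) x.2.2 (B + 1) B' K|} = E B' K := by
            ext ω
            simp only [hE, Set.mem_ofPred_eq]
            rw [aa_ext (fun p => e p ω) (x.2.1 + 1) x.2.2 (B + 1) B' K hB'']
            exact ⟨fun h => ⟨hK2, h⟩, fun h => h.2⟩
          rw [← h2, h1]
          exact ENNReal.ofReal_le_ofReal (hP x (B + 1) B' K (by omega) hB'' hK1 hK2)
        · have h2 : E B' K = ∅ := by
            ext ω
            simp only [hE, Set.mem_ofPred_eq, Set.mem_empty_iff_false, iff_false]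
            exact fun h => hK2 h.1
          rw [h2, measure_empty]
          exact zero_le
      calc _ ≤ μ (⋃ y ∈ Finset.range (3 * (B + 1) + 1) ×ˢ Finset.Icc 1 (B + 1), E y.1 y.2) :=
            measure_mono hsub
        _ ≤ ∑ y ∈ Finset.range (3 * (B + 1) + 1) ×ˢ Finset.Icc 1 (B + 1), μ (E y.1 y.2) :=
            measure_biUnion_finset_le _ _
        _ ≤ ∑ _y ∈ Finset.range (3 * (B + 1) + 1) ×ˢ Finset.Icc 1 (B + 1),
              ENNReal.ofReal (C x / ((B + 1 : ℕ) : ℝ) ^ 6) := Finset.sum_le_sum hone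
        _ = ENNReal.ofReal (((3 * (B + 1) + 1) * (B + 1) : ℕ) *
              (C x / ((B + 1 : ℕ) : ℝ) ^ 6)) := by
            rw [Finset.sum_const, Finset.card_product, Finset.card_range, Nat.card_Icc,
              Nat.add_sub_cancel, nsmul_eq_mul, ← ENNReal.ofReal_natCast,
              ← ENNReal.ofReal_mul (Nat.cast_nonneg _)]
        _ ≤ ENNReal.ofReal (4 * C x * (1 / ((B + 1 : ℕ) : ℝ) ^ 4)) := by
            refine ENNReal.ofReal_le_ofReal ?_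
            have hCx := hC x
            have h1 : (((3 * (B + 1) + 1) * (B + 1) : ℕ) : ℝ) ≤ 4 * ((B + 1 : ℕ) : ℝ) ^ 2 := by
              have : (3 * (B + 1) + 1) * (B + 1) ≤ 4 * (B + 1) ^ 2 := by nlinarith
              exact_mod_cast this
            calc (((3 * (B + 1) + 1) * (B + 1) : ℕ) : ℝ) * (C x / ((B + 1 : ℕ) : ℝ) ^ 6)
                ≤ (4 * ((B + 1 : ℕ) : ℝ) ^ 2) * (C x / ((B + 1 : ℕ) : ℝ) ^ 6) :=
                  mul_le_mul_of_nonneg_right h1 (by positivity)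
              _ = 4 * C x * (1 / ((B + 1 : ℕ) : ℝ) ^ 4) := by
                  have hB0 : ((B + 1 : ℕ) : ℝ) ≠ 0 := by positivity
                  field_simp
    have hsum : Summable (fun B : ℕ => 4 * C x * (1 / ((B + 1 : ℕ) : ℝ) ^ 4)) := by
      refine Summable.mul_left _ ?_
      exact (summable_nat_add_iff (f := fun n : ℕ => 1 / (n : ℝ) ^ 4) 1).2
        (Real.summable_one_div_nat_pow.2 (by norm_num))
    exact ne_top_of_le_ne_top hsum.tsum_ofReal_ne_top (ENNReal.tsum_le_tsum hle)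
  filter_upwards [ae_all_iff.2 key] with ω hω
  intro ε hε0 hε1 j m hj
  obtain ⟨k, hk⟩ := exists_nat_one_div_lt hε0
  have hkε : 1 / ((k : ℝ) + 2) ≤ ε := by
    refine le_trans ?_ hk.le
    have hk0 : (0 : ℝ) ≤ k := Nat.cast_nonneg k
    exact one_div_le_one_div_of_le (by positivity) (by linarith)
  obtain ⟨j', rfl⟩ : ∃ j', j = j' + 1 := ⟨j - 1, by omega⟩
  obtain ⟨N, hN⟩ := eventually_atTop.1 (hω (k, j', m))
  refine ⟨c (k, j', m), hc0 _, N + 1, ?_⟩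
  intro B hB B' hB' K hK1 hK2
  obtain ⟨B₁, rfl⟩ : ∃ B₁, B = B₁ + 1 := ⟨B - 1, by omega⟩
  have h1 := hN B₁ (by omega)
  by_contra hcon
  refine h1 ⟨B', K, hB', hK1, hK2.trans ?_, not_le.1 hcon⟩
  refine Real.rpow_le_rpow_of_exponent_le ?_ (by simp only; linarith)
  exact_mod_cast Nat.succ_le_succ (Nat.zero_le B₁)

end Pool.Agent.W815.RGE
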