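import Pool.Agent.W815.RGC.StmG

set_option autoImplicit false

/-!
# Project RGE: uniform convergence of the distribution functions (part CDF)
-/

namespace Pool.Agent.W815.RGE

open Finset MeasureTheory Filter Topology Pool.Agent.Helper497.HS Pool.Agent.H595R2.PTF
open Pool.Agent.W815.RGC

theorem cdf_unif : SCdf := by
  intro hml hexp hnav hmm s hs ε t η hε hε1 hη
  by_contra hcon
  push Not at hcon
  choose B B' K hB h1 h2 h3 h4 h5 using fun n : ℕ => hcon (n + 1)
  have hB1 : ∀ n, 1 ≤ B n := fun n => le_trans (Nat.le_add_left 1 n) (hB n)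
  have hK1 : ∀ n, 1 ≤ K n := by
    intro n
    have hb : (1 : ℝ) ≤ (B n : ℝ) := by exact_mod_cast hB1 n
    have h : (1 : ℝ) ≤ (K n : ℝ) := le_trans (Real.one_le_rpow hb hε.le) (h3 n)
    exact_mod_cast h
  have hlt : ∀ n, B n < B' n := by
    intro n
    have := h1 n
    have := hB1 n
    omega
  have hBt : Tendsto B atTop atTop :=
    tendsto_atTop_mono (fun n => le_trans (Nat.le_succ n) (hB n)) tendsto_id
  have hcard : ∀ n, (((Ico (B n) (B' n)).card : ℕ) : ℝ) = (B' n : ℝ) - B n := by
    intro n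
    rw [Nat.card_Ico, Nat.cast_sub (hlt n).le]
  have key := hmm (fun n => Ico (B n) (B' n))
    (fun n a => W (rf s) a (K n) / Real.sqrt (6 / Real.pi ^ 2 * K n))
    (fun n => Finset.nonempty_Ico.2 (hlt n))
    (by
      intro k
      have hk := hml hexp hnav s hs ε hε hε1 B B' K hBt
        (fun n => ⟨h1 n, h2 n, hK1 n, h3 n, h4 n⟩) k
      refine hk.congr ?_
      intro n
      rw [hcard n]) t
  have hev := (Metric.tendsto_atTop.1 key) η hη
  obtain ⟨N, hN⟩ := hev
  have h := hN N le_rfl
  rw [Real.dist_eq] at h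
  have h5' := h5 N
  rw [hcard N] at h
  exact absurd h (not_lt.2 h5'.le)

end Pool.Agent.W815.RGE
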