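import Pool.Agent.W815.RGC.StmG

set_option autoImplicit false

/-!
# RGE-CDF: uniform convergence of the distribution functions
-/

namespace Pool.Agent.W815.RGE

open Finset MeasureTheory Filter Topology Pool.Agent.Helper497.HS Pool.Agent.H595R2.PTF
open Pool.Agent.W815.RGC

theorem cdf_unif : SCdf := by
  intro hMl hExpn hNav hMm s hG ε t η hε hε1 hη
  by_contra hcon
  push Not at hcon
  choose B B' K h1 h2 h3 h4 h5 h6 using fun n : ℕ => hcon (n + 1)
  have hB1 : ∀ n, 1 ≤ B n := fun n => le_trans (Nat.succ_le_succ (Nat.zero_le n)) (h1 n)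
  have hBt : Tendsto B atTop atTop :=
    tendsto_atTop_mono (fun n => le_trans (Nat.le_succ n) (h1 n)) tendsto_id
  have hK1 : ∀ n, 1 ≤ K n := by
    intro n
    have h7 : (1 : ℝ) ≤ (B n : ℝ) ^ ε := Real.one_le_rpow (by exact_mod_cast hB1 n) hε.le
    have h8 : (1 : ℝ) ≤ (K n : ℝ) := h7.trans (h4 n)
    exact_mod_cast h8
  have hlt : ∀ n, B n < B' n := by
    intro n
    have := hB1 n
    have := h2 n
    omega
  have hmom := hMl hExpn hNav s hG ε hε hε1 B B' K hBt
    (fun n => ⟨h2 n, h3 n, hK1 n, h4 n, h5 n⟩)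
  have hcard : ∀ n, (((Ico (B n) (B' n)).card : ℕ) : ℝ) = (B' n : ℝ) - B n := by
    intro n
    rw [Nat.card_Ico, Nat.cast_sub (hlt n).le]
  have hlim := hMm (fun n => Ico (B n) (B' n))
    (fun n a => W (rf s) a (K n) / Real.sqrt (6 / Real.pi ^ 2 * K n))
    (fun n => Finset.nonempty_Ico.mpr (hlt n))
    (fun k => by
      have h := hmom k
      refine h.congr (fun n => ?_)
      rw [hcard]) t
  have hlim2 := (Metric.tendsto_nhds.mp hlim) η hη
  obtain ⟨n, hn⟩ := hlim2.exists
  rw [Real.dist_eq, hcard] at hn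
  exact absurd hn (not_lt.mpr (h6 n).le)

end Pool.Agent.W815.RGE
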