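import Pool.Agent.W815.RGC.StmG

set_option autoImplicit false

/-!
# RGE-EXPN: powers of the window sum through the injective sums
-/

namespace Pool.Agent.W815.RGE

open Finset MeasureTheory Filter Topology Pool.Agent.Helper497.HS Pool.Agent.H595R2.PTF
open Pool.Agent.W815.RGC

namespace Expn

section abs

set_option linter.unusedSectionVars false

variable {α : Type} [Fintype α] [DecidableEq α]

/-- sum of products over injective tuples -/
noncomputable def T (g : α → ℝ) (j : ℕ) : ℝ := ∑ u : Fin j ↪ α, ∏ i, g (u i)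

theorem sum_compl (φ : α → ℝ) {j : ℕ} (v : Fin j ↪ α) [Fintype {x // x ∉ Set.range v}] :
    ∑ x : {x // x ∉ Set.range v}, φ x = ∑ x, φ x - ∑ i, φ (v i) := by
  classical
  have h1 := Fintype.sum_subtype_add_sum_subtype (fun x => x ∈ Set.range v) φ
  have h2 : ∑ i, φ (v i) = ∑ x : {x // x ∈ Set.range v}, φ x :=
    Fintype.sum_equiv (Equiv.ofInjective v v.injective) _ _ fun i => rfl
  rw [eq_sub_iff_add_eq, add_comm, h2]
  convert h1

theorem sum_emb (φ ψ : α → ℝ) (j : ℕ) :
    ∑ u : Fin (j + 1) ↪ α, φ (u 0) * ∏ i : Fin j, ψ (u i.succ) =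
      ∑ v : Fin j ↪ α, (∏ i, ψ (v i)) * (∑ x, φ x - ∑ i, φ (v i)) := by
  classical
  rw [Fintype.sum_equiv (Equiv.embeddingFinSucc j α)
    (fun u : Fin (j + 1) ↪ α => φ (u 0) * ∏ i : Fin j, ψ (u i.succ))
    (fun f => φ f.2.1 * ∏ i, ψ (f.1 i)) (fun u => rfl), Fintype.sum_sigma]
  refine Finset.sum_congr rfl fun v _ => ?_
  rw [← sum_compl, Finset.mul_sum]
  exact Finset.sum_congr rfl fun x _ => mul_comm _ _

theorem sum_sym (g : α → ℝ) (j : ℕ) (i : Fin (j + 1)) :
    ∑ u : Fin (j + 1) ↪ α, g (u i) * ∏ l, g (u l) =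
      ∑ u : Fin (j + 1) ↪ α, g (u 0) * ∏ l, g (u l) := by
  refine Fintype.sum_equiv (Equiv.embeddingCongr (Equiv.swap 0 i) (Equiv.refl α)) _ _ fun u => ?_
  have h1 : ∀ l, (Equiv.embeddingCongr (Equiv.swap 0 i) (Equiv.refl α) u) l =
      u (Equiv.swap 0 i l) := fun l => rfl
  simp only [h1]
  rw [Equiv.swap_apply_left, Equiv.prod_comp (Equiv.swap 0 i) (fun l => g (u l))]

theorem T_zero (g : α → ℝ) : T g 0 = 1 := by
  simp [T]

theorem rec1 (g : α → ℝ) (j : ℕ) : (∑ x, g x) * T g j = T g (j + 1) +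
    ∑ v : Fin j ↪ α, ∑ i, g (v i) * ∏ l, g (v l) := by
  have h1 : T g (j + 1) = ∑ u : Fin (j + 1) ↪ α, g (u 0) * ∏ i : Fin j, g (u i.succ) :=
    Finset.sum_congr rfl fun u _ => Fin.prod_univ_succ _
  rw [h1, sum_emb g g, ← Finset.sum_add_distrib, T, Finset.mul_sum]
  refine Finset.sum_congr rfl fun v _ => ?_
  rw [← Finset.sum_mul]
  ring

theorem rec2 (g : α → ℝ) (hg : ∀ x, g x ^ 3 = g x) (j : ℕ) : (∑ x, g x) * T g (j + 1) =
    T g (j + 2) + ((j : ℝ) + 1) * (((∑ x, g x ^ 2) - j) * T g j) := by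
  rw [rec1, Finset.sum_comm, Finset.sum_congr rfl fun i _ => sum_sym g j i, Finset.sum_const,
    Finset.card_univ, Fintype.card_fin, nsmul_eq_mul]
  push_cast
  congr 2
  have h1 : ∑ u : Fin (j + 1) ↪ α, g (u 0) * ∏ l, g (u l) =
      ∑ u : Fin (j + 1) ↪ α, g (u 0) ^ 2 * ∏ i : Fin j, g (u i.succ) := by
    refine Finset.sum_congr rfl fun u _ => ?_
    rw [Fin.prod_univ_succ]
    ring
  rw [h1, sum_emb (fun x => g x ^ 2) g, T, Finset.mul_sum]
  refine Finset.sum_congr rfl fun v _ => ?_
  have h2 : (∏ i, g (v i)) * ∑ i, g (v i) ^ 2 = (j : ℝ) * ∏ i, g (v i) := by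
    rw [Finset.mul_sum]
    have h3 : ∀ i ∈ (Finset.univ : Finset (Fin j)), (∏ l, g (v l)) * g (v i) ^ 2 =
        ∏ l, g (v l) := by
      intro i hi
      rw [← Finset.mul_prod_erase _ _ hi]
      have h4 := hg (v i)
      calc g (v i) * (∏ x ∈ univ.erase i, g (v x)) * g (v i) ^ 2 =
          g (v i) ^ 3 * ∏ x ∈ univ.erase i, g (v x) := by ring
        _ = _ := by rw [h4]
    rw [Finset.sum_congr rfl h3, Finset.sum_const, Finset.card_univ, Fintype.card_fin,
      nsmul_eq_mul]
  rw [mul_sub, h2]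
  ring

end abs

open Polynomial in
/-- the coefficients as polynomials in the number of squarefree integers -/
noncomputable def Cp : ℕ → ℕ → ℝ[X]
  | 0, 0 => 1
  | 0, (_ + 1) => 0
  | (k + 1), 0 => X * Cp k 1
  | (k + 1), (j + 1) => Cp k j + C ((j : ℝ) + 2) * (X * Cp k (j + 2) -
      C ((j : ℝ) + 1) * Cp k (j + 2))

theorem coeff_succ_zero_zero (k : ℕ) : (Cp (k + 1) 0).coeff 0 = 0 := by
  rw [Cp, Polynomial.coeff_X_mul_zero]

theorem coeff_succ_zero_succ (k m : ℕ) : (Cp (k + 1) 0).coeff (m + 1) = (Cp k 1).coeff m := by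
  rw [Cp, Polynomial.coeff_X_mul]

theorem coeff_succ_succ_zero (k j : ℕ) : (Cp (k + 1) (j + 1)).coeff 0 =
    (Cp k j).coeff 0 - ((j : ℝ) + 2) * (((j : ℝ) + 1) * (Cp k (j + 2)).coeff 0) := by
  rw [Cp, Polynomial.coeff_add, Polynomial.coeff_C_mul, Polynomial.coeff_sub,
    Polynomial.coeff_X_mul_zero, Polynomial.coeff_C_mul]
  ring

theorem coeff_succ_succ_succ (k j m : ℕ) : (Cp (k + 1) (j + 1)).coeff (m + 1) =
    (Cp k j).coeff (m + 1) + ((j : ℝ) + 2) * ((Cp k (j + 2)).coeff m -
      ((j : ℝ) + 1) * (Cp k (j + 2)).coeff (m + 1)) := by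
  rw [Cp, Polynomial.coeff_add, Polynomial.coeff_C_mul, Polynomial.coeff_sub,
    Polynomial.coeff_X_mul, Polynomial.coeff_C_mul]

theorem supp (k : ℕ) : ∀ j m, k < 2 * m + j → (Cp k j).coeff m = 0 := by
  induction k with
  | zero =>
    intro j m h
    rcases j with _ | j
    · rw [Cp, Polynomial.coeff_one, if_neg (by omega)]
    · rw [Cp, Polynomial.coeff_zero]
  | succ k ih =>
    intro j m h
    rcases j with _ | j
    · rcases m with _ | m
      · exact coeff_succ_zero_zero k
      · rw [coeff_succ_zero_succ]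
        exact ih 1 m (by omega)
    · rcases m with _ | m
      · rw [coeff_succ_succ_zero, ih j 0 (by omega), ih (j + 2) 0 (by omega)]
        ring
      · rw [coeff_succ_succ_succ, ih j (m + 1) (by omega), ih (j + 2) m (by omega),
          ih (j + 2) (m + 1) (by omega)]
        ring

theorem lead (k : ℕ) : ∀ j m, k = 2 * m + j →
    (2 : ℝ) ^ m * (m.factorial : ℝ) * (j.factorial : ℝ) * (Cp k j).coeff m = k.factorial := by
  induction k with
  | zero =>
    intro j m h
    obtain rfl : j = 0 := by omega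
    obtain rfl : m = 0 := by omega
    rw [Cp]
    simp
  | succ k ih =>
    intro j m h
    have hk : ((k + 1).factorial : ℝ) = ((k : ℝ) + 1) * k.factorial := by
      rw [Nat.factorial_succ]
      push_cast
      ring
    rcases j with _ | j
    · rcases m with _ | m
      · omega
      · have h1 := ih 1 m (by omega)
        rw [coeff_succ_zero_succ, hk, ← h1, Nat.factorial_succ]
        have h2 : (k : ℝ) + 1 = 2 * (m + 1) := by
          have h3 : k + 1 = 2 * (m + 1) := by omega
          exact_mod_cast h3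
        rw [h2]
        push_cast
        rw [Nat.factorial_one, Nat.factorial_zero]
        push_cast
        ring
    · rcases m with _ | m
      · have h1 := ih j 0 (by omega)
        rw [coeff_succ_succ_zero, supp k (j + 2) 0 (by omega), hk, ← h1]
        have h2 : (k : ℝ) + 1 = (j : ℝ) + 1 := by
          have h3 : k + 1 = j + 1 := by omega
          exact_mod_cast h3
        rw [h2, Nat.factorial_succ]
        push_cast
        ring
      · have h1 := ih j (m + 1) (by omega)
        have h1' := ih (j + 2) m (by omega)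
        rw [coeff_succ_succ_succ, supp k (j + 2) (m + 1) (by omega), hk]
        have h2 : (k : ℝ) + 1 = 2 * (m + 1) + (j + 1) := by
          have h3 : k + 1 = 2 * (m + 1) + (j + 1) := by omega
          exact_mod_cast h3
        have h4 : ((m + 1).factorial : ℝ) = ((m : ℝ) + 1) * m.factorial := by
          rw [Nat.factorial_succ]
          push_cast
          ring
        have h5 : ((j + 2).factorial : ℝ) = ((j : ℝ) + 2) * (((j : ℝ) + 1) * j.factorial) := by
          rw [Nat.factorial_succ, Nat.factorial_succ]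
          push_cast
          ring
        have h6 : ((j + 1).factorial : ℝ) = ((j : ℝ) + 1) * j.factorial := by
          rw [Nat.factorial_succ]
          push_cast
          ring
        rw [h4] at h1
        rw [h5] at h1'
        rw [h2, h4, h6]
        linear_combination ((j : ℝ) + 1) * h1 + 2 * ((m : ℝ) + 1) * h1'

theorem lead0 (i : ℕ) : (Cp (2 * i) 0).coeff i = ((2 * i - 1).doubleFactorial : ℝ) := by
  have h1 := lead (2 * i) 0 i (by omega)
  have h2 : ((2 * i).factorial : ℝ) = 2 ^ i * i.factorial * ((2 * i - 1).doubleFactorial : ℝ) := by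
    rcases i with _ | i
    · simp
    · have h3 : 2 * (i + 1) = (2 * i + 1) + 1 := by ring
      have h4 : 2 * (i + 1) - 1 = 2 * i + 1 := by omega
      have h5 := Nat.factorial_eq_mul_doubleFactorial (2 * i + 1)
      have h6 := Nat.doubleFactorial_two_mul (i + 1)
      rw [h4]
      rw [← h3, h6] at h5
      rw [h5]
      push_cast
      ring
  rw [h2, Nat.factorial_zero, Nat.cast_one, mul_one] at h1
  exact mul_left_cancel₀ (by positivity) h1

theorem Cp_zero (k j : ℕ) (h : k < j) : Cp k j = 0 := by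
  ext m
  rw [supp k j m (by omega), Polynomial.coeff_zero]

theorem expand {α : Type} [Fintype α] [DecidableEq α] (g : α → ℝ) (hg : ∀ x, g x ^ 3 = g x)
    (k : ℕ) : (∑ x, g x) ^ k =
      ∑ j ∈ range (k + 1), (Cp k j).eval (∑ x, g x ^ 2) * T g j := by
  induction k with
  | zero => simp [Cp, T_zero]
  | succ k ih =>
    set p := ∑ x, g x with hp
    set N := ∑ x, g x ^ 2 with hN
    have h1 : ∑ j ∈ range (k + 1), (Cp k j).eval N * (p * T g j) =
        ∑ j ∈ range (k + 1), (Cp k j).eval N * T g (j + 1) +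
        ∑ j ∈ range k, (Cp k (j + 1)).eval N * (((j : ℝ) + 1) * ((N - j) * T g j)) := by
      rw [Finset.sum_range_succ' (fun j => (Cp k j).eval N * (p * T g j)),
        Finset.sum_range_succ' (fun j => (Cp k j).eval N * T g (j + 1))]
      have h2 : p * T g 0 = T g 1 := by
        rw [hp, rec1]
        simp
      rw [h2]
      have h3 : ∀ j ∈ range k, (Cp k (j + 1)).eval N * (p * T g (j + 1)) =
          (Cp k (j + 1)).eval N * T g (j + 1 + 1) +
          (Cp k (j + 1)).eval N * (((j : ℝ) + 1) * ((N - j) * T g j)) := by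
        intro j _
        rw [hp, rec2 g hg j]
        ring
      rw [Finset.sum_congr rfl h3, Finset.sum_add_distrib]
      ring
    have h4 : ∑ j ∈ range (k + 1 + 1), (Cp (k + 1) j).eval N * T g j =
        ∑ j ∈ range (k + 1), (Cp k j).eval N * T g (j + 1) +
        ∑ j ∈ range (k + 2), (Cp k (j + 1)).eval N * (((j : ℝ) + 1) * ((N - j) * T g j)) := by
      rw [Finset.sum_range_succ' (fun j => (Cp (k + 1) j).eval N * T g j),
        Finset.sum_range_succ' (fun j => (Cp k (j + 1)).eval N * (((j : ℝ) + 1) *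
          ((N - j) * T g j)))]
      have h5 : (Cp (k + 1) 0).eval N = N * (Cp k 1).eval N := by
        rw [Cp, Polynomial.eval_mul, Polynomial.eval_X]
      have h6 : ∀ j, (Cp (k + 1) (j + 1)).eval N = (Cp k j).eval N +
          ((j : ℝ) + 2) * ((N - (j + 1)) * (Cp k (j + 2)).eval N) := by
        intro j
        rw [Cp, Polynomial.eval_add, Polynomial.eval_mul, Polynomial.eval_C, Polynomial.eval_sub,
          Polynomial.eval_mul, Polynomial.eval_mul, Polynomial.eval_X, Polynomial.eval_C]
        ring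
      have h7 : ∀ j ∈ range (k + 1), (Cp (k + 1) (j + 1)).eval N * T g (j + 1) =
          (Cp k j).eval N * T g (j + 1) +
          (Cp k (j + 1 + 1)).eval N * ((((j + 1 : ℕ) : ℝ) + 1) *
            ((N - ((j + 1 : ℕ) : ℝ)) * T g (j + 1))) := by
        intro j _
        rw [h6]
        push_cast
        ring
      rw [Finset.sum_congr rfl h7, Finset.sum_add_distrib, h5]
      push_cast
      ring
    rw [pow_succ', ih, Finset.mul_sum, h4]
    rw [Finset.sum_congr rfl fun j _ => show p * ((Cp k j).eval N * T g j) =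
      (Cp k j).eval N * (p * T g j) by ring, h1]
    congr 1
    rw [Finset.sum_range_succ, Finset.sum_range_succ, Cp_zero k (k + 1) (by omega),
      Cp_zero k (k + 1 + 1) (by omega)]
    simp

theorem rf_sq (s : ℕ → ℤˣ) (n : ℕ) :
    rf s n ^ 2 = open Classical in if Squarefree n then 1 else 0 := by
  unfold rf
  split_ifs
  · rw [← Finset.prod_pow]
    refine Finset.prod_eq_one fun p _ => ?_
    rcases Int.units_eq_one_or (s p) with h | h <;> rw [h] <;> simp
  · simp

theorem rf_cube (s : ℕ → ℤˣ) (n : ℕ) : rf s n ^ 3 = rf s n := by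
  have h1 : rf s n ^ 3 = rf s n ^ 2 * rf s n := by ring
  rw [h1, rf_sq]
  split_ifs with h
  · rw [one_mul]
  · unfold rf
    rw [if_neg h, mul_zero]

end Expn

open Expn

theorem expn : SExpn := by
  refine ⟨fun k j m => (Cp k j).coeff m, fun k j m h => supp k j m h, lead0, ?_⟩
  intro s k a K
  have h1 : W (rf s) a K = ∑ x : {n // n ∈ Ioc a (a + K)}, rf s x :=
    (Finset.sum_coe_sort (Ioc a (a + K)) (fun n => rf s n)).symm
  have h2 : Nn a K = ∑ x : {n // n ∈ Ioc a (a + K)}, rf s x ^ 2 := by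
    rw [Finset.sum_coe_sort (Ioc a (a + K)) (fun n => rf s n ^ 2)]
    simp only [rf_sq]
    rw [Finset.sum_boole]
    rfl
  have h3 := expand (fun x : {n // n ∈ Ioc a (a + K)} => rf s x) (fun x => rf_cube s x) k
  rw [h1, h3, ← h2]
  refine Finset.sum_congr rfl fun j _ => ?_
  have h4 : T (fun x : {n // n ∈ Ioc a (a + K)} => rf s x) j = S (rf s) j a K := rfl
  rw [h4, ← Finset.sum_mul]
  congr 1
  exact Polynomial.eval_eq_sum_range' (Nat.lt_succ_of_le
    (Polynomial.natDegree_le_iff_coeff_eq_zero.2 fun m hm => supp k j m (by omega))) _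

end Pool.Agent.W815.RGE
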