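import Pool.Agent.W815.RGC.StmG

set_option autoImplicit false

/-!
# RGE-GCD: in a product of `r + 2` squarefree integers that is a square, every factor has a large
common factor with another one
-/

namespace Pool.Agent.W815.RGE

namespace GGcd2

open Finset

theorem sq_dvd_prod {r : ℕ} (n : Fin (r + 2) → ℕ) (hs : ∀ i, Squarefree (n i))
    (hsq : IsSquare (∏ i, n i)) (i : Fin (r + 2)) (p : ℕ) (hp : p.Prime) (hpi : p ∣ n i) :
    ∃ l, l ≠ i ∧ p ∣ n l := by
  by_contra hcon
  push Not at hcon
  have hne : ∀ i, n i ≠ 0 := fun i => (hs i).ne_zero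
  have hfac : (∏ i, n i).factorization p = 1 := by
    rw [Nat.factorization_prod (fun i _ => hne i)]
    rw [Finsupp.finsetSum_apply, Finset.sum_eq_single i]
    · have h1 : (n i).factorization p ≤ 1 := (hs i).natFactorization_le_one p
      have h2 : 0 < (n i).factorization p := hp.factorization_pos_of_dvd (hne i) hpi
      omega
    · intro l _ hl
      exact Nat.factorization_eq_zero_of_not_dvd (hcon l hl)
    · intro h; exact absurd (Finset.mem_univ i) h
  obtain ⟨m, hm⟩ := hsq
  rw [hm] at hfac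
  have hm0 : m ≠ 0 := by
    rintro rfl
    have : ∏ i, n i ≠ 0 := Finset.prod_ne_zero_iff.mpr (fun i _ => hne i)
    exact this (by simpa using hm)
  rw [Nat.factorization_mul hm0 hm0] at hfac
  simp only [Finsupp.add_apply] at hfac
  omega

theorem dvd_prod_gcd {r : ℕ} (n : Fin (r + 2) → ℕ) (hs : ∀ i, Squarefree (n i))
    (hsq : IsSquare (∏ i, n i)) (i : Fin (r + 2)) :
    n i ∣ ∏ l ∈ univ.erase i, (n i).gcd (n l) := by
  have hpr : ∏ p ∈ (n i).primeFactors, p = n i := Nat.prod_primeFactors_of_squarefree (hs i)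
  rw [← hpr]
  conv_rhs => rw [hpr]
  apply Finset.prod_primes_dvd
  · intro p hp
    exact (Nat.prime_of_mem_primeFactors hp).prime
  · intro p hp
    have hp' := Nat.prime_of_mem_primeFactors hp
    have hd := Nat.dvd_of_mem_primeFactors hp
    obtain ⟨l, hl, hpl⟩ := sq_dvd_prod n hs hsq i p hp' hd
    exact (Nat.dvd_gcd hd hpl).trans
      (Finset.dvd_prod_of_mem (fun l => (n i).gcd (n l)) (by simp [hl]))

end GGcd2

open Finset in
theorem gcd_large : SGcd := by
  intro r B n hB hBn hs hsq i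
  by_contra hcon
  push Not at hcon
  have hd := GGcd2.dvd_prod_gcd n hs hsq i
  have hpos : 0 < ∏ l ∈ univ.erase i, (n i).gcd (n l) :=
    Finset.prod_pos fun l _ => Nat.gcd_pos_of_pos_left _ (hs i).ne_zero.bot_lt
  have hle : B ≤ ∏ l ∈ univ.erase i, (n i).gcd (n l) := (hBn i).trans (Nat.le_of_dvd hpos hd)
  have hB0 : (0 : ℝ) < B := by exact_mod_cast hB
  have hlt : ((∏ l ∈ univ.erase i, (n i).gcd (n l) : ℕ) : ℝ) < B := by
    push_cast
    have h1 : ∏ l ∈ univ.erase i, (((n i).gcd (n l) : ℕ) : ℝ) <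
        ∏ l ∈ univ.erase i, (B : ℝ) ^ (1 / ((r : ℝ) + 1)) := by
      apply Finset.prod_lt_prod_of_nonempty
      · intro l _
        exact_mod_cast Nat.gcd_pos_of_pos_left _ (hs i).ne_zero.bot_lt
      · intro l hl
        exact hcon l (Finset.ne_of_mem_erase hl)
      · refine Finset.card_pos.mp ?_
        rw [Finset.card_erase_of_mem (Finset.mem_univ i)]
        simp
    refine h1.trans_le (le_of_eq ?_)
    rw [Finset.prod_const, Finset.card_erase_of_mem (Finset.mem_univ i), Finset.card_univ,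
      Fintype.card_fin]
    rw [← Real.rpow_natCast, ← Real.rpow_mul hB0.le]
    have : (1 / ((r : ℝ) + 1)) * ((r + 2 - 1 : ℕ) : ℝ) = 1 := by
      have : (r + 2 - 1 : ℕ) = r + 1 := by omega
      rw [this]; push_cast; field_simp
    rw [this, Real.rpow_one]
  have : (B : ℝ) ≤ ((∏ l ∈ univ.erase i, (n i).gcd (n l) : ℕ) : ℝ) := by exact_mod_cast hle
  linarith

end Pool.Agent.W815.RGE
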