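import Pool.Agent.W815.RGC.StmG
import Pool.Agent.W815.RGC.Ldg
import Pool.Agent.W815.RGC.Sec
import Pool.Agent.W815.RGC.Mom

set_option autoImplicit false

namespace Pool.Agent.W815.RGE

open Finset MeasureTheory Filter Topology Pool.Agent.Helper497.HS Pool.Agent.H595R2.PTF
open Pool.Agent.W815.RGC

theorem ghyp2_LD (M a K d : ℕ) (h : a + K < M)
    (hd : ∀ n ∈ Icc 1 (a + K), n.primeFactors.card ≤ d) :
    LD d (fun x : Fin M → ℤˣ => W (cf M x) a K) := by
  unfold W
  refine LD.sum _ fun n hn => ?_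
  have hn' := mem_Ioc.mp hn
  have hnM : n < M := by omega
  obtain ⟨c, hc⟩ := rf_ext hnM
  have h1 : (fun x : Fin M → ℤˣ => cf M x n) = fun x => c * chi (PSet M n) x := by
    funext x
    exact hc x
  rw [h1]
  refine LD.const_mul _ ((LD_chi _).mono ?_)
  rw [PSet_card hnM]
  exact hd n (mem_Icc.mpr (by omega))

theorem ghyp2_secS_inj (M n m : ℕ) (hn : n < M) (hm : m < M) (sn : Squarefree n)
    (sm : Squarefree m) (h : secS M m = secS M n) : m = n := by
  have h1 : (PSet M n).map Fin.valEmbedding = n.primeFactors := PSet_map hn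
  have h2 : (PSet M m).map Fin.valEmbedding = m.primeFactors := PSet_map hm
  have h3 : PSet M m = PSet M n := h
  rw [h3, h1] at h2
  rw [← Nat.prod_primeFactors_of_squarefree sn, ← Nat.prod_primeFactors_of_squarefree sm, h2]

theorem ghyp2_nsq (M a K : ℕ) (h : a + K < M) :
    nsq (fun x : Fin M → ℤˣ => W (cf M x) a K) ≤ K := by
  classical
  let c : ℕ → ℝ := fun n => if Squarefree n then 1 else 0
  have hW : ∀ x : Fin M → ℤˣ, W (cf M x) a K ^ 2 =
      ∑ n ∈ Ioc a (a + K), ∑ m ∈ Ioc a (a + K), (c n * c m) *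
        (chi (secS M n) x * chi (secS M m) x) := by
    intro x
    unfold W
    rw [sq, Finset.sum_mul_sum]
    refine Finset.sum_congr rfl fun n hn => Finset.sum_congr rfl fun m hm => ?_
    rw [mem_Ioc] at hn hm
    have e1 : cf M x n = c n * chi (secS M n) x := by
      show rf (ext M x) n = _
      rw [sec_rf_eq M n (by omega)]
      simp only [c]
      split_ifs <;> simp
    have e2 : cf M x m = c m * chi (secS M m) x := by
      show rf (ext M x) m = _
      rw [sec_rf_eq M m (by omega)]
      simp only [c]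
      split_ifs <;> simp
    rw [e1, e2]
    ring
  have hns : nsq (fun x : Fin M → ℤˣ => W (cf M x) a K) =
      ∑ n ∈ Ioc a (a + K), ∑ m ∈ Ioc a (a + K),
        (c n * c m) * (if secS M m = secS M n then 1 else 0) := by
    unfold nsq
    rw [Ex_congr hW, Ex_sum]
    refine Finset.sum_congr rfl fun n _ => ?_
    rw [Ex_sum]
    refine Finset.sum_congr rfl fun m _ => ?_
    rw [Ex_const_mul]
    congr 1
    exact fc_chi (secS M n) (secS M m)
  rw [hns]
  have hle : ∀ n ∈ Ioc a (a + K), ∑ m ∈ Ioc a (a + K),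
      (c n * c m) * (if secS M m = secS M n then (1 : ℝ) else 0) ≤ 1 := by
    intro n hn
    have h1 : ∀ m ∈ Ioc a (a + K), (c n * c m) * (if secS M m = secS M n then (1 : ℝ) else 0) ≤
        if m = n then 1 else 0 := by
      intro m hm
      rw [mem_Ioc] at hn hm
      by_cases hmn : m = n
      · rw [if_pos hmn]
        simp only [c]
        split_ifs <;> norm_num
      · rw [if_neg hmn]
        by_cases hS : secS M m = secS M n
        · by_cases sn : Squarefree n
          · by_cases sm : Squarefree m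
            · exact absurd (ghyp2_secS_inj M n m (by omega) (by omega) sn sm hS) hmn
            · have : c m = 0 := if_neg sm
              rw [this]
              simp
          · have : c n = 0 := if_neg sn
            rw [this]
            simp
        · rw [if_neg hS]
          simp
    refine (Finset.sum_le_sum h1).trans ?_
    rw [Finset.sum_ite_eq' (Ioc a (a + K)) n (fun _ => (1 : ℝ)), if_pos hn]
  refine (Finset.sum_le_sum hle).trans ?_
  rw [Finset.sum_const, Nat.card_Ioc, nsmul_eq_mul, mul_one]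
  have : a + K - a = K := by omega
  rw [this]

/-- HYP -/
theorem hyp : SHyp := by
  intro M a K d i h hd
  have h1 := mom M d (fun x : Fin M → ℤˣ => W (cf M x) a K) (ghyp2_LD M a K d h hd) i
  refine h1.trans ?_
  refine pow_le_pow_left₀ (mul_nonneg (by positivity) (nsq_nonneg _)) ?_ _
  exact mul_le_mul_of_nonneg_left (ghyp2_nsq M a K h) (by positivity)

theorem ghyp2_pt (t : ℝ) (ht : 0 ≤ t) (s N : ℕ) (h : s ≤ N) : t ^ s ≤ 1 + t ^ N := by
  rcases le_or_gt t 1 with h1 | h1
  · have := pow_le_one₀ (n := s) ht h1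
    have := pow_nonneg ht N
    linarith
  · have := pow_le_pow_right₀ h1.le h
    linarith

theorem ghyp2_pq (u v : ℝ) (p q : ℕ) :
    (u ^ p * v ^ q) ^ 2 ≤ u ^ (2 * (p + q)) + v ^ (2 * (p + q)) := by
  have h1 : (u ^ p * v ^ q) ^ 2 = (|u| ^ p * |v| ^ q) ^ 2 := by
    rw [← abs_pow, ← abs_pow, ← abs_mul, sq_abs]
  have h2 : u ^ (2 * (p + q)) = (|u| ^ (p + q)) ^ 2 := by
    rw [← abs_pow, sq_abs, ← pow_mul, mul_comm]
  have h3 : v ^ (2 * (p + q)) = (|v| ^ (p + q)) ^ 2 := by
    rw [← abs_pow, sq_abs, ← pow_mul, mul_comm]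
  rw [h1, h2, h3]
  have hu := abs_nonneg u
  have hv := abs_nonneg v
  rcases le_total |u| |v| with h | h
  · have h4 : |u| ^ p * |v| ^ q ≤ |v| ^ (p + q) := by
      rw [pow_add]
      exact mul_le_mul_of_nonneg_right (pow_le_pow_left₀ hu h p) (by positivity)
    have h5 := pow_le_pow_left₀ (by positivity) h4 2
    have h6 : 0 ≤ (|u| ^ (p + q)) ^ 2 := by positivity
    linarith
  · have h4 : |u| ^ p * |v| ^ q ≤ |u| ^ (p + q) := by
      rw [pow_add]
      exact mul_le_mul_of_nonneg_left (pow_le_pow_left₀ hv h q) (by positivity)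
    have h5 := pow_le_pow_left₀ (by positivity) h4 2
    have h6 : 0 ≤ (|v| ^ (p + q)) ^ 2 := by positivity
    linarith

theorem ghyp2_one (H : SHyp) (M a K d i s : ℕ) (h : a + K < M)
    (hd : ∀ n ∈ Icc 1 (a + K), n.primeFactors.card ≤ d) (hs : s ≤ 2 ^ i) :
    Ex (fun x : Fin M → ℤˣ => W (cf M x) a K ^ (2 * s)) ≤
      2 * ((3 : ℝ) ^ (i * d) * K) ^ s := by
  rcases Nat.eq_zero_or_pos s with h0 | h0
  · subst h0
    have : Ex (fun x : Fin M → ℤˣ => W (cf M x) a K ^ (2 * 0)) = 1 := by
      rw [Ex_congr (h := fun _ => (1 : ℝ)) (fun x => by simp)]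
      exact Ex_const 1
    rw [this]
    norm_num
  · rcases Nat.eq_zero_or_pos K with hK | hK
    · subst hK
      have : Ex (fun x : Fin M → ℤˣ => W (cf M x) a 0 ^ (2 * s)) = 0 := by
        rw [Ex_congr (h := fun _ => (0 : ℝ)) (fun x => by
          unfold W
          simp only [add_zero, Finset.Ioc_self, Finset.sum_empty]
          exact zero_pow (by omega))]
        exact Ex_const 0
      rw [this]
      positivity
    · have hKr : (0 : ℝ) < K := by exact_mod_cast hK
      set L : ℝ := (3 : ℝ) ^ (i * d) * K with hL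
      have hLp : 0 < L := by positivity
      have h1 : ∀ x : Fin M → ℤˣ, W (cf M x) a K ^ (2 * s) ≤
          L ^ s + (L ^ s / L ^ (2 ^ i)) * W (cf M x) a K ^ (2 ^ (i + 1)) := by
        intro x
        set w := W (cf M x) a K
        have h2 := ghyp2_pt (w ^ 2 / L) (by positivity) s (2 ^ i) hs
        have h3 := mul_le_mul_of_nonneg_left h2 (pow_pos hLp s).le
        have h4 : L ^ s * (w ^ 2 / L) ^ s = w ^ (2 * s) := by
          rw [div_pow, ← pow_mul]
          field_simp
        have h5 : L ^ s * (1 + (w ^ 2 / L) ^ (2 ^ i)) =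
            L ^ s + (L ^ s / L ^ (2 ^ i)) * w ^ (2 ^ (i + 1)) := by
          rw [div_pow, ← pow_mul]
          have h6 : 2 * 2 ^ i = 2 ^ (i + 1) := by ring
          rw [h6]
          ring
        rw [h4, h5] at h3
        exact h3
      have h2 := Ex_mono h1
      rw [Ex_add, Ex_const_mul, Ex_const] at h2
      have h3 := H M a K d i h hd
      have h4 : L ^ s / L ^ (2 ^ i) * Ex (fun x : Fin M → ℤˣ => W (cf M x) a K ^ (2 ^ (i + 1))) ≤
          L ^ s := by
        calc _ ≤ L ^ s / L ^ (2 ^ i) * L ^ (2 ^ i) :=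
              mul_le_mul_of_nonneg_left h3 (by positivity)
          _ = L ^ s := by field_simp
      linarith

/-- HOL -/
theorem hol : SHol := by
  intro H M a b K d i p q ha hb hd hpq
  have h1 := Ex_mono (fun x : Fin M → ℤˣ => ghyp2_pq (W (cf M x) a K) (W (cf M x) b K) p q)
  rw [Ex_add] at h1
  have h2 := ghyp2_one H M a K d i (p + q) ha (fun n hn => hd n (by
    rw [mem_Icc] at hn ⊢
    omega)) hpq
  have h3 := ghyp2_one H M b K d i (p + q) hb (fun n hn => hd n (by
    rw [mem_Icc] at hn ⊢
    omega)) hpq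
  linarith

end Pool.Agent.W815.RGE
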