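import Pool.Agent.W815.RGC.StmG

set_option autoImplicit false

/-!
# RGE-LAST: the Gaussian law, from uniform convergence of the distribution functions
-/

namespace Pool.Agent.W815.RGE.GLast2

open Finset MeasureTheory Filter Topology Pool.Agent.Helper497.HS Pool.Agent.H595R2.PTF
open Pool.Agent.W815.RGC Pool.Agent.W815.RGE

/-- the distribution function of the standard normal law -/
noncomputable abbrev Ph : ℝ → ℝ := fun t =>
  ProbabilityTheory.cdf (ProbabilityTheory.gaussianReal 0 1) t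

theorem Ph_cont (t : ℝ) : ContinuousAt Ph t := by
  have hmono : Monotone Ph := ProbabilityTheory.monotone_cdf _
  rw [hmono.continuousAt_iff_leftLim_eq_rightLim]
  have h1 : Function.rightLim Ph t = Ph t :=
    (ProbabilityTheory.cdf (ProbabilityTheory.gaussianReal 0 1)).rightLim_eq t
  have h2 := (ProbabilityTheory.cdf (ProbabilityTheory.gaussianReal 0 1)).measure_singleton t
  rw [ProbabilityTheory.measure_cdf] at h2
  have := ProbabilityTheory.nullSingletonClass_gaussianReal (μ := (0 : ℝ)) (v := (1 : NNReal))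
    one_ne_zero
  rw [measure_singleton] at h2
  have h3 := ENNReal.ofReal_eq_zero.mp h2.symm
  have h4 : Function.leftLim Ph t ≤ Ph t := hmono.leftLim_le le_rfl
  rw [h1]
  apply le_antisymm h4
  have h5 : Ph t - Function.leftLim Ph t ≤ 0 := h3
  linarith

theorem sqrt_close (h t d : ℝ) (K : ℕ) (hK : 1 ≤ K) (hh : 0 < h) (hKh : |h - K| ≤ 1)
    (htK : |t| ≤ d * K) : |t| * |Real.sqrt h - Real.sqrt K| ≤ d * Real.sqrt K := by
  have hK' : (1:ℝ) ≤ K := by exact_mod_cast hK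
  have hK0 : (0:ℝ) ≤ K := by linarith
  have hsK : 0 < Real.sqrt K := Real.sqrt_pos.mpr (by linarith)
  have hsh : 0 ≤ Real.sqrt h := Real.sqrt_nonneg _
  have e1 : (Real.sqrt h - Real.sqrt K) * (Real.sqrt h + Real.sqrt K) = h - K := by
    have a := Real.mul_self_sqrt hh.le
    have b := Real.mul_self_sqrt hK0
    linear_combination a - b
  have hs : 0 ≤ Real.sqrt h + Real.sqrt K := by positivity
  have e2 : |Real.sqrt h - Real.sqrt K| * (Real.sqrt h + Real.sqrt K) ≤ 1 := by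
    have : |Real.sqrt h - Real.sqrt K| * (Real.sqrt h + Real.sqrt K)
        = |(Real.sqrt h - Real.sqrt K) * (Real.sqrt h + Real.sqrt K)| := by
      rw [abs_mul, abs_of_nonneg hs]
    rw [this, e1]; exact hKh
  have e3 : |Real.sqrt h - Real.sqrt K| * Real.sqrt K ≤ 1 :=
    le_trans (mul_le_mul_of_nonneg_left (by linarith) (abs_nonneg _)) e2
  have e4 : |t| * |Real.sqrt h - Real.sqrt K| * Real.sqrt K ≤ d * K := by
    calc |t| * |Real.sqrt h - Real.sqrt K| * Real.sqrt K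
        = |t| * (|Real.sqrt h - Real.sqrt K| * Real.sqrt K) := by ring
      _ ≤ |t| * 1 := mul_le_mul_of_nonneg_left e3 (abs_nonneg _)
      _ ≤ d * K := by linarith
  have e5 : d * K = d * Real.sqrt K * Real.sqrt K := by rw [mul_assoc, Real.mul_self_sqrt hK0]
  rw [e5] at e4
  exact le_of_mul_le_mul_right e4 hsK

theorem key (g : ℕ → ℝ) (B B' K : ℕ) (h t d p p1 p2 η : ℝ) (hK : 1 ≤ K) (hh : 0 < h)
    (hKh : |h - K| ≤ 1) (htK : |t| ≤ d * K) (hD : 0 < (B' : ℝ) - B)
    (h1 : |(((Ico B B').filter (fun a => W g a K / Real.sqrt (6 / Real.pi ^ 2 * K) ≤ t - d)).card : ℝ) /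
      ((B' : ℝ) - B) - p1| ≤ η)
    (h2 : |(((Ico B B').filter (fun a => W g a K / Real.sqrt (6 / Real.pi ^ 2 * K) ≤ t + d)).card : ℝ) /
      ((B' : ℝ) - B) - p2| ≤ η) (hp1 : |p1 - p| ≤ η) (hp2 : |p2 - p| ≤ η) :
    |(((Ico B B').filter (fun a => W g a K ≤ t * Real.sqrt (h / (Real.pi ^ 2 / 6)))).card : ℝ)
      - p * ((B' : ℝ) - B)| ≤ 2 * η * ((B' : ℝ) - B) := by
  have hK' : (1:ℝ) ≤ K := by exact_mod_cast hK
  have hpi := Real.pi_pos
  have hc : (0:ℝ) < 6 / Real.pi ^ 2 := by positivity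
  set q := Real.sqrt (6 / Real.pi ^ 2) with hq
  have hq0 : 0 < q := Real.sqrt_pos.mpr hc
  have s1 : Real.sqrt (6 / Real.pi ^ 2 * K) = q * Real.sqrt K := Real.sqrt_mul hc.le _
  have s2 : Real.sqrt (h / (Real.pi ^ 2 / 6)) = q * Real.sqrt h := by
    rw [hq, ← Real.sqrt_mul hc.le]
    congr 1
    field_simp
  have hsK : 0 < Real.sqrt K := Real.sqrt_pos.mpr (by linarith)
  have hden : 0 < Real.sqrt (6 / Real.pi ^ 2 * K) := by rw [s1]; positivity
  have hcl := sqrt_close h t d K hK hh hKh htK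
  have hab : |t * (Real.sqrt h - Real.sqrt K)| ≤ d * Real.sqrt K := by rw [abs_mul]; exact hcl
  rw [abs_le] at hab
  have b1 : (t - d) * Real.sqrt (6 / Real.pi ^ 2 * K) ≤ t * Real.sqrt (h / (Real.pi ^ 2 / 6)) := by
    rw [s1, s2]
    have : (t - d) * Real.sqrt K ≤ t * Real.sqrt h := by nlinarith [hab.1]
    calc (t - d) * (q * Real.sqrt K) = q * ((t - d) * Real.sqrt K) := by ring
      _ ≤ q * (t * Real.sqrt h) := mul_le_mul_of_nonneg_left this hq0.le
      _ = t * (q * Real.sqrt h) := by ring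
  have b2 : t * Real.sqrt (h / (Real.pi ^ 2 / 6)) ≤ (t + d) * Real.sqrt (6 / Real.pi ^ 2 * K) := by
    rw [s1, s2]
    have : t * Real.sqrt h ≤ (t + d) * Real.sqrt K := by nlinarith [hab.2]
    calc t * (q * Real.sqrt h) = q * (t * Real.sqrt h) := by ring
      _ ≤ q * ((t + d) * Real.sqrt K) := mul_le_mul_of_nonneg_left this hq0.le
      _ = (t + d) * (q * Real.sqrt K) := by ring
  have c1 : (((Ico B B').filter (fun a => W g a K / Real.sqrt (6 / Real.pi ^ 2 * K) ≤ t - d)).card : ℝ)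
      ≤ (((Ico B B').filter (fun a => W g a K ≤ t * Real.sqrt (h / (Real.pi ^ 2 / 6)))).card : ℝ) := by
    norm_cast
    apply card_le_card
    intro a ha
    rw [mem_filter] at ha ⊢
    refine ⟨ha.1, ?_⟩
    have := ha.2
    rw [div_le_iff₀ hden] at this
    exact this.trans b1
  have c2 : (((Ico B B').filter (fun a => W g a K ≤ t * Real.sqrt (h / (Real.pi ^ 2 / 6)))).card : ℝ)
      ≤ (((Ico B B').filter (fun a => W g a K / Real.sqrt (6 / Real.pi ^ 2 * K) ≤ t + d)).card : ℝ) := by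
    norm_cast
    apply card_le_card
    intro a ha
    rw [mem_filter] at ha ⊢
    refine ⟨ha.1, ?_⟩
    rw [div_le_iff₀ hden]
    exact ha.2.trans b2
  rw [abs_le] at h1 h2 hp1 hp2 ⊢
  have d1 : (p - 2 * η) * ((B' : ℝ) - B) ≤
      (((Ico B B').filter (fun a => W g a K / Real.sqrt (6 / Real.pi ^ 2 * K) ≤ t - d)).card : ℝ) := by
    rw [← le_div_iff₀ hD]; linarith [h1.1, hp1.1]
  have d2 : (((Ico B B').filter (fun a => W g a K / Real.sqrt (6 / Real.pi ^ 2 * K) ≤ t + d)).card : ℝ) ≤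
      (p + 2 * η) * ((B' : ℝ) - B) := by
    rw [← div_le_iff₀ hD]; linarith [h2.2, hp2.2]
  constructor
  · linarith
  · linarith

end Pool.Agent.W815.RGE.GLast2

namespace Pool.Agent.W815.RGE

open Finset MeasureTheory Filter Topology Pool.Agent.Helper497.HS Pool.Agent.H595R2.PTF
open Pool.Agent.W815.RGC Pool.Agent.W815.RGE.GLast2

theorem last : SLast := by
  intro hReal s hU ε hε hε2 H hH t
  rw [Metric.tendsto_atTop]
  intro η hη
  -- continuity
  have hcont := Ph_cont t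
  rw [Metric.continuousAt_iff] at hcont
  obtain ⟨δ, hδ, hcont⟩ := hcont (η / 8) (by positivity)
  set d := δ / 2 with hd
  have hd0 : 0 < d := by positivity
  have hp1 : |Ph (t - d) - Ph t| ≤ η / 8 := by
    have := hcont (x := t - d) (by rw [Real.dist_eq]; rw [show t - d - t = -d by ring, abs_neg, abs_of_pos hd0]; linarith)
    rw [Real.dist_eq] at this
    exact this.le
  have hp2 : |Ph (t + d) - Ph t| ≤ η / 8 := by
    have := hcont (x := t + d) (by rw [Real.dist_eq]; rw [show t + d - t = d by ring, abs_of_pos hd0]; linarith)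
    rw [Real.dist_eq] at this
    exact this.le
  obtain ⟨B1, hB1⟩ := hU (ε / 2) (t - d) (η / 8) (by positivity) (by linarith) (by positivity)
  obtain ⟨B2, hB2⟩ := hU (ε / 2) (t + d) (η / 8) (by positivity) (by linarith) (by positivity)
  have hE : ∀ᶠ X : ℝ in atTop, (X ^ ε < H X ∧ H X < X ^ (1 - ε)) ∧ 4 ≤ X ^ (ε / 2) ∧
      |t| / d + 2 ≤ X ^ ε ∧ 16 ≤ X ∧ 16 / η ≤ X ∧ 2 * ((B1 : ℝ) + B2) + 4 ≤ X := by
    refine hH.and ?_
    refine ((tendsto_rpow_atTop (by positivity : 0 < ε / 2)).eventually_ge_atTop 4).and ?_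
    refine ((tendsto_rpow_atTop hε).eventually_ge_atTop (|t| / d + 2)).and ?_
    exact (eventually_ge_atTop 16).and ((eventually_ge_atTop (16 / η)).and (eventually_ge_atTop _))
  obtain ⟨X₀, hX₀⟩ := eventually_atTop.mp hE
  refine ⟨X₀, fun X hX => ?_⟩
  obtain ⟨⟨hl, hu⟩, hy, htd, hX16, hXη, hXB⟩ := hX₀ X hX
  set h := H X with hh
  have hX0 : 0 < X := by linarith
  set y := X ^ (ε / 2) with hydef
  have hy0 : 0 < y := by linarith
  have ey2 : X ^ ε = y ^ 2 := by
    rw [hydef, ← Real.rpow_natCast, ← Real.rpow_mul hX0.le]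
    congr 1
    push_cast
    ring
  have e1e : X ^ (1 - ε) * y ^ 2 = X := by
    rw [← ey2, ← Real.rpow_add hX0]
    simp
  have e1e2 : X ^ (1 - ε / 2) * y = X := by
    rw [hydef, ← Real.rpow_add hX0]
    simp
  have hy2 : 16 ≤ y ^ 2 := by nlinarith
  have hux : X ^ (1 - ε) * 16 ≤ X := by
    have h0 : 0 ≤ X ^ (1 - ε) := by positivity
    nlinarith
  have h16 : h * 16 ≤ X := by linarith
  have hh1 : 1 < h := by linarith [ey2 ▸ hl]
  have hhX : h ≤ X := by linarith
  set B := ⌊X - h / 2⌋₊ with hB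
  set B' := ⌊2 * X - h / 2⌋₊ with hB'
  have hBle : (B : ℝ) ≤ X - h / 2 := Nat.floor_le (by linarith)
  have hBgt : X - h / 2 < (B : ℝ) + 1 := Nat.lt_floor_add_one _
  have hB'le : (B' : ℝ) ≤ 2 * X - h / 2 := Nat.floor_le (by linarith)
  have hB'gt : 2 * X - h / 2 < (B' : ℝ) + 1 := Nat.lt_floor_add_one _
  have hD1 : X - 1 < (B' : ℝ) - B := by linarith
  have hD2 : (B' : ℝ) - B < X + 1 := by linarith
  have hD : 0 < (B' : ℝ) - B := by linarith
  have c3 : 3 * B ≤ 2 * B' := by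
    have : (3 * B : ℝ) ≤ 2 * B' := by linarith
    exact_mod_cast this
  have c4 : B' ≤ 3 * B := by
    have : (B' : ℝ) ≤ 3 * B := by linarith
    exact_mod_cast this
  have c1 : B1 ≤ B := by
    have h0 : (0 : ℝ) ≤ B2 := Nat.cast_nonneg _
    have : (B1 : ℝ) ≤ B := by linarith
    exact_mod_cast this
  have c2 : B2 ≤ B := by
    have h0 : (0 : ℝ) ≤ B1 := Nat.cast_nonneg _
    have : (B2 : ℝ) ≤ B := by linarith
    exact_mod_cast this
  have hBX : (B : ℝ) ≤ X := by linarith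
  have hXB2 : X / 2 ≤ (B : ℝ) := by linarith
  have hB0 : (0 : ℝ) ≤ B := Nat.cast_nonneg _
  have hlow : (B : ℝ) ^ (ε / 2) ≤ h - 1 := by
    have a1 : (B : ℝ) ^ (ε / 2) ≤ y := Real.rpow_le_rpow hB0 hBX (by positivity)
    have a2 : y ≤ y ^ 2 - 1 := by nlinarith
    have a3 : y ^ 2 < h := by rw [← ey2]; exact hl
    linarith
  have hupp : h + 1 ≤ (B : ℝ) ^ (1 - ε / 2) := by
    have a1 : (X / 2) ^ (1 - ε / 2) ≤ (B : ℝ) ^ (1 - ε / 2) :=
      Real.rpow_le_rpow (by positivity) hXB2 (by linarith)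
    have a2 : X ^ (1 - ε / 2) / 2 ≤ (X / 2) ^ (1 - ε / 2) := by
      rw [Real.div_rpow hX0.le (by norm_num)]
      apply div_le_div_of_nonneg_left (by positivity) (by positivity)
      calc (2 : ℝ) ^ (1 - ε / 2) ≤ 2 ^ (1 : ℝ) :=
            Real.rpow_le_rpow_of_exponent_le (by norm_num) (by linarith)
        _ = 2 := Real.rpow_one 2
    have a3 : X ^ (1 - ε / 2) = X ^ (1 - ε) * y := by
      have : X ^ (1 - ε / 2) * y = X ^ (1 - ε) * y * y := by
        rw [e1e2, mul_assoc, ← pow_two, e1e]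
      exact mul_right_cancel₀ hy0.ne' this
    have a4 : 1 ≤ X ^ (1 - ε) := Real.one_le_rpow (by linarith) (by linarith)
    have a5 : 4 * X ^ (1 - ε) ≤ X ^ (1 - ε / 2) := by rw [a3]; nlinarith
    linarith
  have hfl1 : (⌊h⌋₊ : ℝ) ≤ h := Nat.floor_le (by linarith)
  have hfl2 : h < (⌊h⌋₊ : ℝ) + 1 := Nat.lt_floor_add_one _
  have htd2 : |t| ≤ d * (h - 1) := by
    have : |t| / d ≤ h - 1 := by linarith
    rw [div_le_iff₀ hd0] at this
    linarith
  have main : ∀ K : ℕ, (h - 1 ≤ K) → (K : ℝ) ≤ h + 1 →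
      |(((Ico B B').filter (fun a => W (rf s) a K ≤ t * Real.sqrt (h / (Real.pi ^ 2 / 6)))).card : ℝ)
      - Ph t * ((B' : ℝ) - B)| ≤ 2 * (η / 8) * ((B' : ℝ) - B) := by
    intro K hK1 hK2
    have hKpos : 1 ≤ K := by
      have : (0 : ℝ) < K := by linarith
      exact_mod_cast this
    refine key (rf s) B B' K h t d (Ph t) (Ph (t - d)) (Ph (t + d)) (η / 8) hKpos (by linarith)
      (by rw [abs_le]; constructor <;> linarith) ?_ hD ?_ ?_ hp1 hp2
    · exact htd2.trans (mul_le_mul_of_nonneg_left hK1 hd0.le)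
    · exact hB1 B B' K c1 c3 c4 (hlow.trans hK1) (hK2.trans hupp)
    · exact hB2 B B' K c2 c3 c4 (hlow.trans hK1) (hK2.trans hupp)
  have m0 := main ⌊h⌋₊ (by linarith) (by linarith)
  have m1 := main (⌊h⌋₊ + 1) (by push_cast; linarith) (by push_cast; linarith)
  have hr := hReal (rf s) X h (t * Real.sqrt (h / (Real.pi ^ 2 / 6))) (by linarith) hh1.le hhX
  rw [← hB, ← hB'] at hr
  have hset : {x : ℝ | x ∈ Set.Icc X (2 * X) ∧
      Mx (rf s) x h / Real.sqrt (h / (Real.pi ^ 2 / 6)) ≤ t} =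
      {x : ℝ | x ∈ Set.Icc X (2 * X) ∧ Mx (rf s) x h ≤ t * Real.sqrt (h / (Real.pi ^ 2 / 6))} := by
    have hpos : 0 < Real.sqrt (h / (Real.pi ^ 2 / 6)) := by
      apply Real.sqrt_pos.mpr
      have := Real.pi_pos
      positivity
    ext x
    simp only [Set.mem_setOf_eq]
    rw [div_le_iff₀ hpos]
  rw [hset, Real.dist_eq]
  set v := (volume {x : ℝ | x ∈ Set.Icc X (2 * X) ∧
    Mx (rf s) x h ≤ t * Real.sqrt (h / (Real.pi ^ 2 / 6))}).toReal with hv
  set n0 := (((Ico B B').filter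
    (fun a => W (rf s) a ⌊h⌋₊ ≤ t * Real.sqrt (h / (Real.pi ^ 2 / 6)))).card : ℝ) with hn0
  set n1 := (((Ico B B').filter
    (fun a => W (rf s) a (⌊h⌋₊ + 1) ≤ t * Real.sqrt (h / (Real.pi ^ 2 / 6)))).card : ℝ) with hn1
  set D := (B' : ℝ) - B with hDdef
  have hf0 := Int.fract_nonneg h
  have hf1 := (Int.fract_lt_one h).le
  set fr := Int.fract h with hfr
  have hP0 : 0 ≤ Ph t := ProbabilityTheory.cdf_nonneg _ t
  have hP1 : Ph t ≤ 1 := ProbabilityTheory.cdf_le_one _ t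
  have hcomb : |((1 - fr) * n0 + fr * n1) - Ph t * D| ≤ 2 * (η / 8) * D := by
    have e : ((1 - fr) * n0 + fr * n1) - Ph t * D
        = (1 - fr) * (n0 - Ph t * D) + fr * (n1 - Ph t * D) := by ring
    rw [e]
    refine (abs_add_le _ _).trans ?_
    rw [abs_mul, abs_mul, abs_of_nonneg hf0, abs_of_nonneg (by linarith : 0 ≤ 1 - fr)]
    have q1 := mul_le_mul_of_nonneg_left m0 (by linarith : 0 ≤ 1 - fr)
    have q2 := mul_le_mul_of_nonneg_left m1 hf0
    calc _ ≤ (1 - fr) * (2 * (η / 8) * D) + fr * (2 * (η / 8) * D) := add_le_add q1 q2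
      _ = 2 * (η / 8) * D := by ring
  have hDX : |Ph t * (D - X)| ≤ 1 := by
    rw [abs_mul, abs_of_nonneg hP0]
    have : |D - X| ≤ 1 := by rw [abs_le]; constructor <;> linarith
    calc Ph t * |D - X| ≤ 1 * 1 := mul_le_mul hP1 this (abs_nonneg _) (by norm_num)
      _ = 1 := by norm_num
  have htot : |v - Ph t * X| ≤ 2 + 2 * (η / 8) * D + 1 := by
    have e : v - Ph t * X = (v - ((1 - fr) * n0 + fr * n1)) +
        (((1 - fr) * n0 + fr * n1) - Ph t * D) + Ph t * (D - X) := by ring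
    rw [e]
    refine (abs_add_le _ _).trans (add_le_add ?_ hDX)
    exact (abs_add_le _ _).trans (add_le_add hr hcomb)
  have hfin : |v / X - Ph t| = |v - Ph t * X| / X := by
    rw [← abs_of_pos hX0, ← abs_div, abs_of_pos hX0]
    congr 1
    field_simp
  show |v / X - Ph t| < η
  rw [hfin, div_lt_iff₀ hX0]
  have hη16 : 16 ≤ X * η := by
    rw [div_le_iff₀ hη] at hXη
    exact hXη
  have hDη : 2 * (η / 8) * D ≤ 2 * (η / 8) * (X + 1) :=
    mul_le_mul_of_nonneg_left hD2.le (by positivity)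
  nlinarith

end Pool.Agent.W815.RGE
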