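import Pool.Agent.W815.RGC.StmG

set_option autoImplicit false

/-!
# Project RGE, part ML: convergence of the moments along sequences
-/

namespace Pool.Agent.W815.RGE

open Finset MeasureTheory Filter Topology Pool.Agent.Helper497.HS Pool.Agent.H595R2.PTF
open Pool.Agent.W815.RGC

namespace GMlAux

theorem Nn_nonneg (a K : ℕ) : 0 ≤ Nn a K := by unfold Nn; positivity

theorem Nn_le (a K : ℕ) : Nn a K ≤ K := by
  unfold Nn
  have h : ((Ioc a (a + K)).filter Squarefree).card ≤ K := by
    refine (Finset.card_filter_le _ _).trans ?_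
    simp
  exact_mod_cast h

theorem S_zero (g : ℕ → ℝ) (a K : ℕ) : S g 0 a K = 1 := by
  unfold S
  simp

theorem expand (c : ℕ → ℕ → ℕ → ℝ) (s : ℕ → ℤˣ) (k b b' K : ℕ) (D : ℝ)
    (hexp : ∀ (s : ℕ → ℤˣ) (k a K : ℕ), W (rf s) a K ^ k =
      ∑ j ∈ range (k + 1), ∑ m ∈ range (k + 1), c k j m * Nn a K ^ m * S (rf s) j a K) (q : ℝ) :
    (∑ a ∈ Ico b b', (W (rf s) a K / q) ^ k) / D =
      ∑ j ∈ range (k + 1), ∑ m ∈ range (k + 1),
        c k j m * (AA (rf s) j m b b' K / (q ^ k * D)) := by
  have h1 : ∑ a ∈ Ico b b', W (rf s) a K ^ k = ∑ j ∈ range (k + 1), ∑ m ∈ range (k + 1),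
      c k j m * AA (rf s) j m b b' K := by
    simp only [hexp, AA]
    rw [Finset.sum_comm]
    refine Finset.sum_congr rfl fun j _ => ?_
    rw [Finset.sum_comm]
    refine Finset.sum_congr rfl fun m _ => ?_
    rw [Finset.mul_sum]
    refine Finset.sum_congr rfl fun a _ => ?_
    ring
  simp only [div_pow]
  rw [← Finset.sum_div, div_div, h1, Finset.sum_div]
  refine Finset.sum_congr rfl fun j _ => ?_
  rw [Finset.sum_div]
  refine Finset.sum_congr rfl fun m _ => ?_
  rw [mul_div_assoc]

theorem sqrt_pow_eq (κ : ℝ) (hκ : 0 ≤ κ) (k : ℕ) : Real.sqrt κ ^ k = κ ^ ((k : ℝ) / 2) := by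
  rw [Real.sqrt_eq_rpow, ← Real.rpow_natCast, ← Real.rpow_mul hκ]
  congr 1
  ring

end GMlAux

open GMlAux

theorem ml : SMl := by
  rintro ⟨c, hc0, hc1, hexp⟩ ⟨C, hC, hnav⟩ s hG ε hε hε1 B B' K hB h k
  set c0 : ℝ := 6 / Real.pi ^ 2 with hc0def
  have hc0pos : 0 < c0 := by rw [hc0def]; positivity
  have hc0le : c0 ≤ 1 := by
    rw [hc0def, div_le_one (by positivity)]
    have := Real.pi_gt_three
    nlinarith
  have hBr : Tendsto (fun n => (B n : ℝ)) atTop atTop := tendsto_natCast_atTop_atTop.comp hB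
  have hKr : Tendsto (fun n => (K n : ℝ)) atTop atTop :=
    tendsto_atTop_mono (fun n => (h n).2.2.2.1) ((tendsto_rpow_atTop hε).comp hBr)
  have hsq : Tendsto (fun n => (Real.sqrt (K n))⁻¹) atTop (nhds 0) :=
    (Real.tendsto_sqrt_atTop.comp hKr).inv_tendsto_atTop
  have hB1 : ∀ᶠ n in atTop, 1 ≤ B n := hB.eventually_ge_atTop 1
  have hfun : (fun n => (∑ a ∈ Ico (B n) (B' n),
      (W (rf s) a (K n) / Real.sqrt (c0 * K n)) ^ k) / ((B' n : ℝ) - B n)) =
      fun n => ∑ j ∈ range (k + 1), ∑ m ∈ range (k + 1),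
        c k j m * (AA (rf s) j m (B n) (B' n) (K n) /
          (Real.sqrt (c0 * K n) ^ k * ((B' n : ℝ) - B n))) := by
    funext n
    exact expand c s k (B n) (B' n) (K n) _ hexp _
  rw [hfun]
  have hlim : gm k = ∑ j ∈ range (k + 1), ∑ m ∈ range (k + 1),
      (if j = 0 ∧ 2 * m = k then ((k - 1).doubleFactorial : ℝ) else 0) := by
    rw [Finset.sum_eq_single 0]
    · unfold gm
      split_ifs with hk
      · obtain ⟨i, hi⟩ := hk
        rw [Finset.sum_eq_single i]
        · rw [if_pos ⟨rfl, by omega⟩]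
        · intro m _ hm
          rw [if_neg]
          rintro ⟨_, h2⟩
          exact hm (by omega)
        · intro hi'
          exact absurd (Finset.mem_range.2 (by omega)) hi'
      · symm
        apply Finset.sum_eq_zero
        intro m _
        rw [if_neg]
        rintro ⟨_, h2⟩
        exact hk ⟨m, by omega⟩
    · intro j _ hj
      apply Finset.sum_eq_zero
      intro m _
      rw [if_neg]
      rintro ⟨h2, _⟩
      exact hj h2
    · intro h0
      exact absurd (Finset.mem_range.2 (by omega)) h0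
  rw [hlim]
  refine tendsto_finset_sum _ fun j _ => tendsto_finset_sum _ fun m _ => ?_
  -- common facts
  have hD : ∀ n, 1 ≤ B n → (B n : ℝ) ≤ 2 * ((B' n : ℝ) - B n) := by
    intro n _
    have h1 : (3 * B n : ℝ) ≤ 2 * B' n := by exact_mod_cast (h n).1
    linarith
  have hκ1 : ∀ n, (1 : ℝ) ≤ K n := fun n => by exact_mod_cast (h n).2.2.1
  have hq : ∀ n, Real.sqrt (c0 * K n) ^ k = Real.sqrt c0 ^ k * Real.sqrt (K n) ^ k := by
    intro n
    rw [Real.sqrt_mul hc0pos.le, mul_pow]
  by_cases hlt : k < 2 * m + j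
  · have h0 : c k j m = 0 := hc0 k j m hlt
    rw [if_neg (by rintro ⟨h1, h2⟩; omega)]
    simp only [h0, zero_mul]
    exact tendsto_const_nhds
  push_neg at hlt
  rcases Nat.eq_zero_or_pos j with hj | hj
  · subst hj
    have hAA : ∀ n, AA (rf s) 0 m (B n) (B' n) (K n) = ∑ a ∈ Ico (B n) (B' n), Nn a (K n) ^ m := by
      intro n
      unfold AA
      refine Finset.sum_congr rfl fun a _ => ?_
      rw [S_zero, mul_one]
    have hcast : ∀ n, 1 ≤ B n → ((B' n - B n : ℕ) : ℝ) = (B' n : ℝ) - B n := by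
      intro n _
      have := (h n).1
      rw [Nat.cast_sub (by omega)]
    rcases Nat.lt_or_ge (2 * m) k with hmk | hmk
    · rw [if_neg (by rintro ⟨_, h2⟩; omega)]
      have hz : Tendsto (fun n => |c k 0 m| * (1 / Real.sqrt c0 ^ k * (Real.sqrt (K n))⁻¹)) atTop
          (nhds 0) := by
        have := (hsq.const_mul (1 / Real.sqrt c0 ^ k)).const_mul |c k 0 m|
        simpa using this
      refine squeeze_zero_norm' ?_ hz
      filter_upwards [hB1] with n hn
      have hb : (0 : ℝ) < B n := by exact_mod_cast hn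
      have hDn := hD n hn
      have hDpos : 0 < (B' n : ℝ) - B n := by linarith
      have hκ := hκ1 n
      have hsκ : 1 ≤ Real.sqrt (K n) := by rw [Real.one_le_sqrt]; exact hκ
      have hsc : 0 < Real.sqrt c0 := Real.sqrt_pos.2 hc0pos
      rw [Real.norm_eq_abs, abs_mul]
      refine mul_le_mul_of_nonneg_left ?_ (abs_nonneg _)
      rw [hq, abs_div, abs_of_pos (a := Real.sqrt c0 ^ k * Real.sqrt (K n) ^ k * ((B' n : ℝ) - B n))
        (by positivity), div_le_iff₀ (by positivity)]
      have h1 : |AA (rf s) 0 m (B n) (B' n) (K n)| ≤ ((B' n : ℝ) - B n) * (K n : ℝ) ^ m := by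
        rw [hAA, ← hcast n hn]
        calc |∑ a ∈ Ico (B n) (B' n), Nn a (K n) ^ m|
            ≤ ∑ a ∈ Ico (B n) (B' n), |Nn a (K n) ^ m| := Finset.abs_sum_le_sum_abs _ _
          _ ≤ ∑ a ∈ Ico (B n) (B' n), (K n : ℝ) ^ m := by
              refine Finset.sum_le_sum fun a _ => ?_
              rw [abs_of_nonneg (pow_nonneg (Nn_nonneg _ _) _)]
              exact pow_le_pow_left₀ (Nn_nonneg _ _) (Nn_le _ _) _
          _ = _ := by simp
      refine h1.trans ?_
      have h2 : (K n : ℝ) ^ m * Real.sqrt (K n) ≤ Real.sqrt (K n) ^ k := by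
        have h3 : (K n : ℝ) ^ m = Real.sqrt (K n) ^ (2 * m) := by
          rw [pow_mul, Real.sq_sqrt (by positivity)]
        rw [h3, ← pow_succ]
        exact pow_le_pow_right₀ hsκ (by omega)
      have h4 : (K n : ℝ) ^ m ≤ Real.sqrt (K n) ^ k * (Real.sqrt (K n))⁻¹ := by
        rw [← div_eq_mul_inv, le_div_iff₀ (by positivity)]
        exact h2
      calc ((B' n : ℝ) - B n) * (K n : ℝ) ^ m
          ≤ ((B' n : ℝ) - B n) * (Real.sqrt (K n) ^ k * (Real.sqrt (K n))⁻¹) :=
            mul_le_mul_of_nonneg_left h4 hDpos.le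
        _ = _ := by field_simp
    · have hk : k = 2 * m := by omega
      rw [if_pos ⟨rfl, hk.symm⟩]
      have hck : c k 0 m = ((k - 1).doubleFactorial : ℝ) := by
        rw [hk]; exact hc1 m
      rw [hck]
      have hgoal : Tendsto (fun n => AA (rf s) 0 m (B n) (B' n) (K n) /
          (Real.sqrt (c0 * K n) ^ k * ((B' n : ℝ) - B n))) atTop (nhds 1) := by
        rw [tendsto_iff_norm_sub_tendsto_zero]
        have hz : Tendsto (fun n => (2 * m * C / c0 ^ m) * (Real.sqrt (K n))⁻¹) atTop
            (nhds 0) := by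
          have := hsq.const_mul (2 * m * C / c0 ^ m)
          simpa using this
        refine squeeze_zero' (Eventually.of_forall fun n => norm_nonneg _) ?_ hz
        filter_upwards [hB1] with n hn
        have hb1 : (1 : ℝ) ≤ B n := by exact_mod_cast hn
        have hb : (0 : ℝ) < B n := by linarith
        have hDn := hD n hn
        have hDpos : 0 < (B' n : ℝ) - B n := by linarith
        have hκ := hκ1 n
        have hκp : (0 : ℝ) < K n := by linarith
        have hsκ : 0 < Real.sqrt (K n) := Real.sqrt_pos.2 hκp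
        have hKB : K n ≤ B n := by
          have h1 : (K n : ℝ) ≤ (B n : ℝ) ^ (1 - ε) := (h n).2.2.2.2
          have h2 : (B n : ℝ) ^ (1 - ε) ≤ (B n : ℝ) ^ (1 : ℝ) :=
            Real.rpow_le_rpow_of_exponent_le hb1 (by linarith)
          rw [Real.rpow_one] at h2
          exact_mod_cast h1.trans h2
        have hqm : Real.sqrt (c0 * K n) ^ k = (c0 * K n) ^ m := by
          rw [hk, pow_mul, Real.sq_sqrt (by positivity)]
        rw [hqm, Real.norm_eq_abs]
        have hqpos : 0 < (c0 * (K n : ℝ)) ^ m := by positivity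
        have heq : AA (rf s) 0 m (B n) (B' n) (K n) / ((c0 * K n) ^ m * ((B' n : ℝ) - B n)) - 1 =
            (∑ a ∈ Ico (B n) (B' n), (Nn a (K n) ^ m - (c0 * K n) ^ m)) /
              ((c0 * K n) ^ m * ((B' n : ℝ) - B n)) := by
          rw [hAA, Finset.sum_sub_distrib, Finset.sum_const, Nat.card_Ico, nsmul_eq_mul,
            hcast n hn]
          field_simp
        rw [heq, abs_div, abs_of_pos (a := (c0 * (K n : ℝ)) ^ m * ((B' n : ℝ) - B n))
          (by positivity), div_le_iff₀ (by positivity)]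
        have h1 : |∑ a ∈ Ico (B n) (B' n), (Nn a (K n) ^ m - (c0 * K n) ^ m)| ≤
            m * (K n : ℝ) ^ (m - 1) * (C * B n * Real.sqrt (K n)) := by
          calc |∑ a ∈ Ico (B n) (B' n), (Nn a (K n) ^ m - (c0 * K n) ^ m)|
              ≤ ∑ a ∈ Ico (B n) (B' n), |Nn a (K n) ^ m - (c0 * K n) ^ m| :=
                Finset.abs_sum_le_sum_abs _ _
            _ ≤ ∑ a ∈ Ico (B n) (B' n), m * (K n : ℝ) ^ (m - 1) * |Nn a (K n) - c0 * K n| := by
                refine Finset.sum_le_sum fun a _ => ?_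
                refine (abs_pow_sub_pow_le _ _ _).trans ?_
                have hmax : max |Nn a (K n)| |c0 * (K n : ℝ)| ≤ K n := by
                  apply max_le
                  · rw [abs_of_nonneg (Nn_nonneg _ _)]; exact Nn_le _ _
                  · rw [abs_of_nonneg (by positivity)]
                    nlinarith
                have hp : max |Nn a (K n)| |c0 * (K n : ℝ)| ^ (m - 1) ≤ (K n : ℝ) ^ (m - 1) :=
                  pow_le_pow_left₀ (le_max_of_le_left (abs_nonneg _)) hmax _
                calc |Nn a (K n) - c0 * K n| * m * max |Nn a (K n)| |c0 * (K n : ℝ)| ^ (m - 1)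
                    ≤ |Nn a (K n) - c0 * K n| * m * (K n : ℝ) ^ (m - 1) :=
                      mul_le_mul_of_nonneg_left hp (by positivity)
                  _ = _ := by ring
            _ = m * (K n : ℝ) ^ (m - 1) * ∑ a ∈ Ico (B n) (B' n), |Nn a (K n) - c0 * K n| := by
                rw [Finset.mul_sum]
            _ ≤ m * (K n : ℝ) ^ (m - 1) * (C * B n * Real.sqrt (K n)) := by
                refine mul_le_mul_of_nonneg_left ?_ (by positivity)
                refine le_trans ?_ (hnav (B n) (K n) (h n).2.2.1 hKB)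
                refine Finset.sum_le_sum_of_subset_of_nonneg ?_ fun _ _ _ => abs_nonneg _
                intro a ha
                rw [Finset.mem_Ico] at ha
                rw [Finset.mem_range]
                have := (h n).2.1
                omega
        refine h1.trans ?_
        rcases Nat.eq_zero_or_pos m with hm | hm
        · subst hm; simp
        · have hkm : (K n : ℝ) ^ m = (K n : ℝ) ^ (m - 1) * (Real.sqrt (K n) * Real.sqrt (K n)) := by
            rw [Real.mul_self_sqrt hκp.le, ← pow_succ]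
            congr 1
            omega
          have hrhs : 2 * m * C / c0 ^ m * (Real.sqrt (K n))⁻¹ *
              ((c0 * (K n : ℝ)) ^ m * ((B' n : ℝ) - B n)) =
              m * (K n : ℝ) ^ (m - 1) * (C * (2 * ((B' n : ℝ) - B n)) * Real.sqrt (K n)) := by
            rw [mul_pow, hkm]
            field_simp
          rw [hrhs]
          gcongr
      simpa using hgoal.const_mul ((k - 1).doubleFactorial : ℝ)
  · rw [if_neg (by rintro ⟨h1, _⟩; omega)]
    obtain ⟨cc, hcc, B₀, hgood⟩ := hG ε hε hε1 j m hj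
    have hz : Tendsto (fun n => |c k j m| * (2 / Real.sqrt c0 ^ k * (B n : ℝ) ^ (-cc))) atTop
        (nhds 0) := by
      have := (((tendsto_rpow_neg_atTop hcc).comp hBr).const_mul
        (2 / Real.sqrt c0 ^ k)).const_mul |c k j m|
      simpa using this
    refine squeeze_zero_norm' ?_ hz
    filter_upwards [hB1, hB.eventually_ge_atTop B₀] with n hn hn0
    have hb1 : (1 : ℝ) ≤ B n := by exact_mod_cast hn
    have hb : (0 : ℝ) < B n := by linarith
    have hDn := hD n hn
    have hDpos : 0 < (B' n : ℝ) - B n := by linarith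
    have hκ := hκ1 n
    have hκp : (0 : ℝ) < K n := by linarith
    have hsκ : 0 < Real.sqrt (K n) := Real.sqrt_pos.2 hκp
    have hsc : 0 < Real.sqrt c0 := Real.sqrt_pos.2 hc0pos
    rw [Real.norm_eq_abs, abs_mul]
    refine mul_le_mul_of_nonneg_left ?_ (abs_nonneg _)
    rw [hq, abs_div, abs_of_pos (a := Real.sqrt c0 ^ k * Real.sqrt (K n) ^ k * ((B' n : ℝ) - B n))
      (by positivity), div_le_iff₀ (by positivity)]
    have h1 := hgood (B n) hn0 (B' n) (h n).2.1 (K n) (h n).2.2.1 (h n).2.2.2.2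
    refine h1.trans ?_
    have h2 : (K n : ℝ) ^ ((m : ℝ) + (j : ℝ) / 2) ≤ Real.sqrt (K n) ^ k := by
      rw [sqrt_pow_eq _ hκp.le]
      refine Real.rpow_le_rpow_of_exponent_le hκ ?_
      have : (2 * m + j : ℝ) ≤ k := by exact_mod_cast hlt
      linarith
    have h3 : (B n : ℝ) ^ (1 - cc) = (B n : ℝ) ^ (-cc) * B n := by
      rw [show (1 - cc) = -cc + 1 by ring, Real.rpow_add hb, Real.rpow_one]
    calc (B n : ℝ) ^ (1 - cc) * (K n : ℝ) ^ ((m : ℝ) + (j : ℝ) / 2)
        ≤ (B n : ℝ) ^ (1 - cc) * Real.sqrt (K n) ^ k := mul_le_mul_of_nonneg_left h2 (by positivity)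
      _ = (B n : ℝ) ^ (-cc) * Real.sqrt (K n) ^ k * B n := by rw [h3]; ring
      _ ≤ (B n : ℝ) ^ (-cc) * Real.sqrt (K n) ^ k * (2 * ((B' n : ℝ) - B n)) :=
          mul_le_mul_of_nonneg_left hDn (by positivity)
      _ = _ := by field_simp

end Pool.Agent.W815.RGE
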