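import Pool.Agent.W815.RGC.StmG
import Pool.Agent.W221.RGE.MMcore

set_option autoImplicit false

open Finset MeasureTheory Filter Topology ProbabilityTheory

namespace Pool.Agent.W221.RGE

/-- average -/
noncomputable def av (A : Finset ℕ) (f : ℕ → ℂ) : ℂ := (∑ a ∈ A, f a) / (A.card : ℂ)

lemma av_taylor (A : Finset ℕ) (Z : ℕ → ℝ) (s : ℝ) (r : ℕ) :
    ‖av A (fun a => Complex.exp (Complex.I * (s * Z a : ℝ))) -
      ∑ k ∈ range (2 * r), (Complex.I * s) ^ k / (k.factorial : ℂ) *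
        (((∑ a ∈ A, Z a ^ k) / (A.card : ℝ) : ℝ) : ℂ)‖ ≤
      |s| ^ (2 * r) / ((2 * r).factorial : ℝ) * ((∑ a ∈ A, Z a ^ (2 * r)) / (A.card : ℝ)) := by
  have h1 : ∑ k ∈ range (2 * r), (Complex.I * s) ^ k / (k.factorial : ℂ) *
        (((∑ a ∈ A, Z a ^ k) / (A.card : ℝ) : ℝ) : ℂ) =
      av A (fun a => ∑ k ∈ range (2 * r), (Complex.I * (s * Z a : ℝ)) ^ k / (k.factorial : ℂ)) := by
    unfold av
    rw [sum_comm, sum_div]
    apply sum_congr rfl
    intro k _
    push_cast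
    rw [sum_div, mul_sum, sum_div]
    apply sum_congr rfl
    intro a _
    rw [← mul_assoc Complex.I, mul_pow (Complex.I * (s : ℂ))]
    ring
  rw [h1]
  unfold av
  rw [← sub_div, ← sum_sub_distrib, norm_div, Complex.norm_natCast, ← mul_div_assoc]
  apply div_le_div_of_nonneg_right _ (Nat.cast_nonneg _)
  refine (norm_sum_le _ _).trans ?_
  rw [mul_sum]
  apply sum_le_sum
  intro a _
  refine (taylor_exp' (s * Z a) (2 * r)).trans (le_of_eq ?_)
  rw [abs_mul, mul_pow, (even_two_mul r).pow_abs (Z a)]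
  ring

lemma phi_tendsto (A : ℕ → Finset ℕ) (Z : ℕ → ℕ → ℝ)
    (hm : ∀ k : ℕ, Tendsto (fun n => (∑ a ∈ A n, Z n a ^ k) / ((A n).card : ℝ)) atTop (nhds (gm k)))
    (s : ℝ) : Tendsto (fun n => av (A n) (fun a => Complex.exp (Complex.I * (s * Z n a : ℝ)))) atTop
      (nhds (Complex.exp (-(s : ℂ) ^ 2 / 2))) := by
  rw [Metric.tendsto_atTop]
  intro ε hε
  -- choose r
  have e1 : Tendsto (fun r : ℕ => ∑ j ∈ range r, (-(s : ℂ) ^ 2 / 2) ^ j / (j.factorial : ℂ)) atTop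
      (nhds (Complex.exp (-(s : ℂ) ^ 2 / 2))) := by
    rw [Complex.exp_eq_exp_ℂ]
    exact (NormedSpace.expSeries_div_hasSum_exp (-(s : ℂ) ^ 2 / 2)).tendsto_sum_nat
  have e2 : Tendsto (fun r : ℕ => (s ^ 2 / 2) ^ r / (r.factorial : ℝ)) atTop (nhds 0) :=
    FloorSemiring.tendsto_pow_div_factorial_atTop _
  have e3 := (Metric.tendsto_atTop.1 e1 (ε / 4) (by linarith))
  obtain ⟨r1, hr1⟩ := e3
  obtain ⟨r2, hr2⟩ := Metric.tendsto_atTop.1 e2 (ε / 4) (by linarith)
  set r := max r1 r2 with hr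
  have h1 := hr1 r (le_max_left _ _)
  have h2 := hr2 r (le_max_right _ _)
  -- limits in n
  have f1 : Tendsto (fun n => ∑ k ∈ range (2 * r), (Complex.I * s) ^ k / (k.factorial : ℂ) *
        (((∑ a ∈ A n, Z n a ^ k) / ((A n).card : ℝ) : ℝ) : ℂ)) atTop
      (nhds (∑ k ∈ range (2 * r), (Complex.I * s) ^ k / (k.factorial : ℂ) * (gm k : ℂ))) := by
    apply tendsto_finsetSum
    intro k _
    apply Tendsto.const_mul
    exact (Complex.continuous_ofReal.tendsto _).comp (hm k)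
  rw [psum] at f1
  have f2 : Tendsto (fun n => |s| ^ (2 * r) / ((2 * r).factorial : ℝ) *
      ((∑ a ∈ A n, Z n a ^ (2 * r)) / ((A n).card : ℝ))) atTop
      (nhds (|s| ^ (2 * r) / ((2 * r).factorial : ℝ) * gm (2 * r))) := (hm (2 * r)).const_mul _
  have f3 : |s| ^ (2 * r) / ((2 * r).factorial : ℝ) * gm (2 * r) = (s ^ 2 / 2) ^ r / (r.factorial : ℝ) := by
    rw [div_mul_eq_mul_div, mul_div_assoc, gm_even, (even_two_mul r).pow_abs, div_pow, pow_mul]
    have : (r.factorial : ℝ) ≠ 0 := by exact_mod_cast r.factorial_ne_zero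
    field_simp
  rw [f3] at f2
  obtain ⟨n1, hn1⟩ := Metric.tendsto_atTop.1 f1 (ε / 4) (by linarith)
  obtain ⟨n2, hn2⟩ := Metric.tendsto_atTop.1 f2 (ε / 4) (by linarith)
  refine ⟨max n1 n2, fun n hn => ?_⟩
  have g1 := hn1 n (le_trans (le_max_left _ _) hn)
  have g2 := hn2 n (le_trans (le_max_right _ _) hn)
  have g3 := av_taylor (A n) (Z n) s r
  rw [dist_eq_norm] at g1 h1 ⊢
  rw [Real.dist_eq] at g2 h2
  have g4 := abs_lt.1 g2
  have h4 := abs_lt.1 h2
  calc ‖av (A n) (fun a => Complex.exp (Complex.I * (s * Z n a : ℝ))) - Complex.exp (-(s : ℂ) ^ 2 / 2)‖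
      ≤ ‖av (A n) (fun a => Complex.exp (Complex.I * (s * Z n a : ℝ))) - 
        ∑ k ∈ range (2 * r), (Complex.I * s) ^ k / (k.factorial : ℂ) *
        (((∑ a ∈ A n, Z n a ^ k) / ((A n).card : ℝ) : ℝ) : ℂ)‖ +
        ‖∑ k ∈ range (2 * r), (Complex.I * s) ^ k / (k.factorial : ℂ) *
        (((∑ a ∈ A n, Z n a ^ k) / ((A n).card : ℝ) : ℝ) : ℂ) - Complex.exp (-(s : ℂ) ^ 2 / 2)‖ :=
        norm_sub_le_norm_sub_add_norm_sub _ _ _
    _ ≤ ‖av (A n) (fun a => Complex.exp (Complex.I * (s * Z n a : ℝ))) - 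
        ∑ k ∈ range (2 * r), (Complex.I * s) ^ k / (k.factorial : ℂ) *
        (((∑ a ∈ A n, Z n a ^ k) / ((A n).card : ℝ) : ℝ) : ℂ)‖ +
        (‖∑ k ∈ range (2 * r), (Complex.I * s) ^ k / (k.factorial : ℂ) *
        (((∑ a ∈ A n, Z n a ^ k) / ((A n).card : ℝ) : ℝ) : ℂ) -
          ∑ j ∈ range r, (-(s : ℂ) ^ 2 / 2) ^ j / (j.factorial : ℂ)‖ +
        ‖∑ j ∈ range r, (-(s : ℂ) ^ 2 / 2) ^ j / (j.factorial : ℂ) - Complex.exp (-(s : ℂ) ^ 2 / 2)‖) := by
        gcongr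
        exact norm_sub_le_norm_sub_add_norm_sub _ _ _
    _ < ε := by linarith [g4.2, h4.2]

/-- uniform law on the values -/
noncomputable def ul (A : Finset ℕ) (Z : ℕ → ℝ) : Measure ℝ :=
  (A.card : ENNReal)⁻¹ • ∑ a ∈ A, Measure.dirac (Z a)

lemma ul_apply (A : Finset ℕ) (Z : ℕ → ℝ) (t : ℝ) :
    ul A Z (Set.Iic t) = (A.card : ENNReal)⁻¹ * ((A.filter (fun a => Z a ≤ t)).card : ENNReal) := by
  unfold ul
  rw [Measure.smul_apply, Measure.finsetSum_apply, smul_eq_mul]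
  congr 1
  rw [card_filter, Nat.cast_sum]
  apply sum_congr rfl
  intro a _
  rw [Measure.dirac_apply' _ measurableSet_Iic, Set.indicator_apply]
  simp only [Set.mem_Iic, Pi.one_apply]
  split_ifs <;> simp

instance ul_prob (A : Finset ℕ) (Z : ℕ → ℝ) [hA : Fact A.Nonempty] : IsProbabilityMeasure (ul A Z) := by
  constructor
  unfold ul
  rw [Measure.smul_apply, Measure.finsetSum_apply, smul_eq_mul]
  simp only [measure_univ, sum_const, nsmul_eq_mul, mul_one]
  apply ENNReal.inv_mul_cancel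
  · exact_mod_cast hA.out.card_pos.ne'
  · exact ENNReal.natCast_ne_top _

lemma ul_char (A : Finset ℕ) (Z : ℕ → ℝ) (s : ℝ) :
    charFun (ul A Z) s = av A (fun a => Complex.exp (Complex.I * (s * Z a : ℝ))) := by
  unfold ul
  rw [charFun_apply_real, integral_smul_measure, integral_finsetSum_measure]
  · simp only [integral_dirac, ENNReal.toReal_inv, ENNReal.toReal_natCast]
    unfold av
    rw [Complex.real_smul, div_eq_inv_mul]
    push_cast
    congr 1
    apply sum_congr rfl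
    intro a _
    congr 1
    ring
  · intro a _
    exact integrable_dirac (by simp)

theorem mm0 (A : ℕ → Finset ℕ) (Z : ℕ → ℕ → ℝ) (hA : ∀ n, (A n).Nonempty)
    (hm : ∀ k : ℕ, Tendsto (fun n => (∑ a ∈ A n, Z n a ^ k) / ((A n).card : ℝ)) atTop (nhds (gm k)))
    (t : ℝ) : Tendsto (fun n => (((A n).filter (fun a => Z n a ≤ t)).card : ℝ) / ((A n).card : ℝ))
    atTop (nhds (cdf (gaussianReal 0 1) t)) := by
  haveI : ∀ n, Fact (A n).Nonempty := fun n => ⟨hA n⟩
  let μ : ℕ → ProbabilityMeasure ℝ := fun n => ⟨ul (A n) (Z n), inferInstance⟩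
  let μ₀ : ProbabilityMeasure ℝ := ⟨gaussianReal 0 1, inferInstance⟩
  have h1 : Tendsto μ atTop (nhds μ₀) := by
    rw [ProbabilityMeasure.tendsto_iff_tendsto_charFun]
    intro s
    have h2 := phi_tendsto A Z hm s
    have h3 : charFun ((μ₀ : ProbabilityMeasure ℝ) : Measure ℝ) s = Complex.exp (-(s : ℂ) ^ 2 / 2) := by
      show charFun (gaussianReal 0 1) s = _
      rw [charFun_gaussianReal]
      congr 1
      simp
      ring
    rw [h3]
    refine h2.congr fun n => ?_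
    exact (ul_char (A n) (Z n) s).symm
  have h4 := ProbabilityMeasure.tendsto_measure_of_null_frontier_of_tendsto' h1 (E := Set.Iic t) (by
    show gaussianReal 0 1 (frontier (Set.Iic t)) = 0
    rw [frontier_Iic]
    haveI := noAtoms_gaussianReal (μ := 0) (v := 1) one_ne_zero
    exact measure_singleton t)
  have h5 : cdf (gaussianReal 0 1) t = ((gaussianReal 0 1) (Set.Iic t)).toReal := by
    rw [cdf_eq_real]
    rfl
  rw [h5]
  have h6 := (ENNReal.tendsto_toReal (measure_ne_top (gaussianReal 0 1) (Set.Iic t))).comp h4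
  refine h6.congr fun n => ?_
  show ((ul (A n) (Z n)) (Set.Iic t)).toReal = _
  rw [ul_apply, ENNReal.toReal_mul, ENNReal.toReal_inv, ENNReal.toReal_natCast, ENNReal.toReal_natCast]
  rw [div_eq_inv_mul]

end Pool.Agent.W221.RGE

namespace Pool.Agent.W815.RGE

theorem mm : SMm := by
  intro A Z hA hm t
  exact Pool.Agent.W221.RGE.mm0 A Z hA (fun k => hm k) t

end Pool.Agent.W815.RGE
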