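import Pool.Agent.W815.RGC.StmG
import Pool.Agent.W815.RGC.Sqf

set_option autoImplicit false

/-!
# The number of squarefree integers in short windows, on average
-/

namespace Pool.Agent.W815.RGE

open Finset Filter Topology Pool.Agent.W815.RGC Pool.Agent.W815.RGC.SqfAux

namespace NavAux2

/-- the number of multiples of `d ^ 2` in `(a, a+K]` -/
noncomputable def c (d a K : ℕ) : ℝ := ∑ n ∈ Ioc a (a + K), if d ^ 2 ∣ n then (1 : ℝ) else 0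

theorem c_nonneg (d a K : ℕ) : 0 ≤ c d a K :=
  Finset.sum_nonneg fun n _ => by split_ifs <;> norm_num

theorem sum0 (d N : ℕ) : (∑ n ∈ Ioc 0 N, if d ^ 2 ∣ n then (1 : ℝ) else 0) =
    ((N / d ^ 2 : ℕ) : ℝ) := by
  rw [← Finset.sum_filter, Finset.sum_const, Nat.Ioc_filter_dvd_card_eq_div, nsmul_eq_mul, mul_one]

theorem c_eq (d a K : ℕ) : c d a K = (((a + K) / d ^ 2 : ℕ) : ℝ) - ((a / d ^ 2 : ℕ) : ℝ) := by
  rw [← sum0, ← sum0, ← Finset.sum_Ioc_consecutive _ (Nat.zero_le a) (Nat.le_add_right a K)]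
  unfold c
  ring

theorem c_bound (d a K : ℕ) : |c d a K - K * (1 / (d : ℝ) ^ 2)| ≤ 1 := by
  obtain ⟨h1, h2⟩ := floor_bounds (a + K) d
  obtain ⟨h3, h4⟩ := floor_bounds a d
  rw [c_eq]
  push_cast at h1 h2
  rw [abs_le]
  constructor <;> linarith

theorem Nn_eq (a K M : ℕ) (h : a + K ≤ M) : Nn a K = ∑ d ∈ Ioc 0 M, mu d * c d a K := by
  classical
  unfold Nn
  rw [Finset.card_filter]
  push_cast
  have h1 : ∀ n ∈ Ioc a (a + K), (if Squarefree n then (1 : ℝ) else 0) =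
      ∑ d ∈ Ioc 0 M, if d ^ 2 ∣ n then mu d else 0 := by
    intro n hn
    rw [Finset.mem_Ioc] at hn
    exact ind_eq n M (by omega) (by omega) _
  rw [Finset.sum_congr rfl h1, Finset.sum_comm]
  refine Finset.sum_congr rfl fun d _ => ?_
  unfold c
  rw [Finset.mul_sum]
  refine Finset.sum_congr rfl fun n _ => ?_
  split_ifs <;> simp

theorem tail (D : ℕ) (hD : D ≠ 0) :
    |(∑ d ∈ Ioc 0 D, mu d * (1 / (d : ℝ) ^ 2)) - 6 / Real.pi ^ 2| ≤ (D : ℝ)⁻¹ := by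
  have ht : Tendsto (fun M : ℕ => ∑ d ∈ Ioc 0 M, mu d * (1 / (d : ℝ) ^ 2)) atTop
      (𝓝 (6 / Real.pi ^ 2)) := by
    have h := mu_hasSum.tendsto_sum_nat.comp (tendsto_add_atTop_nat 1)
    refine h.congr fun M => ?_
    simp only [Function.comp_apply]
    rw [Finset.range_eq_Ico, Finset.sum_eq_sum_Ico_succ_bot (by omega)]
    have e : Finset.Ico (0 + 1) (M + 1) = Ioc 0 M := by
      ext x; simp only [Finset.mem_Ico, Finset.mem_Ioc]; omega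
    rw [e]
    simp
  have ht2 := (ht.const_sub (∑ d ∈ Ioc 0 D, mu d * (1 / (d : ℝ) ^ 2))).abs
  refine le_of_tendsto ht2 ?_
  filter_upwards [eventually_ge_atTop D] with M hM
  rw [← Finset.sum_Ioc_consecutive _ (Nat.zero_le D) hM]
  rw [sub_add_cancel_left, abs_neg]
  calc |∑ d ∈ Ioc D M, mu d * (1 / (d : ℝ) ^ 2)|
      ≤ ∑ d ∈ Ioc D M, |mu d * (1 / (d : ℝ) ^ 2)| := Finset.abs_sum_le_sum_abs _ _
    _ ≤ ∑ d ∈ Ioc D M, ((d : ℝ) ^ 2)⁻¹ := by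
        refine Finset.sum_le_sum fun d _ => ?_
        rw [abs_mul, one_div, abs_of_nonneg (inv_nonneg.2 (sq_nonneg (d : ℝ)))]
        calc |mu d| * ((d : ℝ) ^ 2)⁻¹ ≤ 1 * ((d : ℝ) ^ 2)⁻¹ :=
              mul_le_mul_of_nonneg_right (abs_mu_le d) (inv_nonneg.2 (sq_nonneg _))
          _ = ((d : ℝ) ^ 2)⁻¹ := one_mul _
    _ ≤ (D : ℝ)⁻¹ - (M : ℝ)⁻¹ := sum_Ioc_inv_sq_le_sub hD hM
    _ ≤ (D : ℝ)⁻¹ := by
        have : (0 : ℝ) ≤ (M : ℝ)⁻¹ := inv_nonneg.2 (Nat.cast_nonneg _)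
        linarith

theorem point (a K M D : ℕ) (h : a + K ≤ M) (hD : D ≠ 0) (hDM : D ≤ M) :
    |Nn a K - 6 / Real.pi ^ 2 * K| ≤ (D : ℝ) + K * (D : ℝ)⁻¹ + ∑ d ∈ Ioc D M, c d a K := by
  rw [Nn_eq a K M h, ← Finset.sum_Ioc_consecutive _ (Nat.zero_le D) hDM]
  have e : (∑ d ∈ Ioc 0 D, mu d * c d a K) + (∑ d ∈ Ioc D M, mu d * c d a K) -
      6 / Real.pi ^ 2 * K = (∑ d ∈ Ioc 0 D, mu d * (c d a K - K * (1 / (d : ℝ) ^ 2))) +
      K * ((∑ d ∈ Ioc 0 D, mu d * (1 / (d : ℝ) ^ 2)) - 6 / Real.pi ^ 2) +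
      ∑ d ∈ Ioc D M, mu d * c d a K := by
    have e1 : (∑ d ∈ Ioc 0 D, mu d * (c d a K - K * (1 / (d : ℝ) ^ 2))) =
        (∑ d ∈ Ioc 0 D, mu d * c d a K) - K * ∑ d ∈ Ioc 0 D, mu d * (1 / (d : ℝ) ^ 2) := by
      rw [Finset.mul_sum, ← Finset.sum_sub_distrib]
      exact Finset.sum_congr rfl fun d _ => by ring
    rw [e1]
    ring
  rw [e]
  refine (abs_add_three _ _ _).trans ?_
  refine add_le_add (add_le_add ?_ ?_) ?_
  · calc |∑ d ∈ Ioc 0 D, mu d * (c d a K - K * (1 / (d : ℝ) ^ 2))|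
        ≤ ∑ d ∈ Ioc 0 D, |mu d * (c d a K - K * (1 / (d : ℝ) ^ 2))| :=
          Finset.abs_sum_le_sum_abs _ _
      _ ≤ ∑ _d ∈ Ioc 0 D, (1 : ℝ) := by
          refine Finset.sum_le_sum fun d _ => ?_
          rw [abs_mul]
          calc |mu d| * |c d a K - K * (1 / (d : ℝ) ^ 2)| ≤ 1 * 1 :=
                mul_le_mul (abs_mu_le d) (c_bound d a K) (abs_nonneg _) zero_le_one
            _ = 1 := one_mul 1
      _ = D := by simp
  · rw [abs_mul, Nat.abs_cast]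
    exact mul_le_mul_of_nonneg_left (tail D hD) (Nat.cast_nonneg _)
  · calc |∑ d ∈ Ioc D M, mu d * c d a K| ≤ ∑ d ∈ Ioc D M, |mu d * c d a K| :=
          Finset.abs_sum_le_sum_abs _ _
      _ ≤ ∑ d ∈ Ioc D M, c d a K := by
          refine Finset.sum_le_sum fun d _ => ?_
          rw [abs_mul, abs_of_nonneg (c_nonneg d a K)]
          calc |mu d| * c d a K ≤ 1 * c d a K :=
                mul_le_mul_of_nonneg_right (abs_mu_le d) (c_nonneg d a K)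
            _ = c d a K := one_mul _

/-- a nonnegative function summed over all windows -/
theorem windows (g : ℕ → ℝ) (hg : ∀ n, 0 ≤ g n) (A K M : ℕ) (h : A + K ≤ M) :
    ∑ a ∈ range A, ∑ n ∈ Ioc a (a + K), g n ≤ K * ∑ n ∈ Ioc 0 M, g n := by
  have h1 : ∀ a ∈ range A, ∑ n ∈ Ioc a (a + K), g n = ∑ i ∈ Ioc 0 K, g (a + i) := by
    intro a _
    have := Finset.sum_map (Ioc 0 K) (addLeftEmbedding a) g
    rw [Finset.map_add_left_Ioc] at this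
    simpa using this
  rw [Finset.sum_congr rfl h1, Finset.sum_comm]
  have h2 : ∀ i ∈ Ioc 0 K, ∑ a ∈ range A, g (a + i) ≤ ∑ n ∈ Ioc 0 M, g n := by
    intro i hi
    rw [Finset.mem_Ioc] at hi
    have := Finset.sum_map (range A) (addRightEmbedding i) g
    simp only [addRightEmbedding_apply] at this
    rw [← this]
    refine Finset.sum_le_sum_of_subset_of_nonneg ?_ fun n _ _ => hg n
    intro n hn
    rw [Finset.mem_map] at hn
    obtain ⟨a, ha, rfl⟩ := hn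
    rw [Finset.mem_range] at ha
    simp only [addRightEmbedding_apply, Finset.mem_Ioc]
    omega
  calc ∑ i ∈ Ioc 0 K, ∑ a ∈ range A, g (a + i) ≤ ∑ _i ∈ Ioc 0 K, ∑ n ∈ Ioc 0 M, g n :=
        Finset.sum_le_sum h2
    _ = K * ∑ n ∈ Ioc 0 M, g n := by simp

theorem total (B K D : ℕ) (hKB : K ≤ B) (hD : D ≠ 0) (hDM : D ≤ 4 * B) :
    ∑ a ∈ range (3 * B), |Nn a K - 6 / Real.pi ^ 2 * K| ≤
      3 * B * ((D : ℝ) + K * (D : ℝ)⁻¹) + 4 * B * (K * (D : ℝ)⁻¹) := by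
  have h1 : ∀ a ∈ range (3 * B), |Nn a K - 6 / Real.pi ^ 2 * K| ≤
      ((D : ℝ) + K * (D : ℝ)⁻¹) + ∑ d ∈ Ioc D (4 * B), c d a K := by
    intro a ha
    rw [Finset.mem_range] at ha
    exact point a K (4 * B) D (by omega) hD hDM
  refine (Finset.sum_le_sum h1).trans ?_
  rw [Finset.sum_add_distrib, Finset.sum_const, Finset.card_range, nsmul_eq_mul]
  push_cast
  refine add_le_add le_rfl ?_
  rw [Finset.sum_comm]
  have h2 : ∀ d ∈ Ioc D (4 * B), ∑ a ∈ range (3 * B), c d a K ≤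
      K * (4 * B) * ((d : ℝ) ^ 2)⁻¹ := by
    intro d _
    have h3 := windows (fun n => if d ^ 2 ∣ n then (1 : ℝ) else 0)
      (fun n => by split_ifs <;> norm_num) (3 * B) K (4 * B) (by omega)
    refine h3.trans ?_
    rw [sum0]
    obtain ⟨h4, -⟩ := floor_bounds (4 * B) d
    have h5 : ((4 * B / d ^ 2 : ℕ) : ℝ) ≤ 4 * B * ((d : ℝ) ^ 2)⁻¹ := by
      rw [one_div] at h4
      push_cast at h4 ⊢
      linarith
    calc (K : ℝ) * ((4 * B / d ^ 2 : ℕ) : ℝ) ≤ K * (4 * B * ((d : ℝ) ^ 2)⁻¹) :=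
          mul_le_mul_of_nonneg_left h5 (Nat.cast_nonneg _)
      _ = K * (4 * B) * ((d : ℝ) ^ 2)⁻¹ := by ring
  refine (Finset.sum_le_sum h2).trans ?_
  rw [← Finset.mul_sum]
  have h6 : ∑ d ∈ Ioc D (4 * B), ((d : ℝ) ^ 2)⁻¹ ≤ (D : ℝ)⁻¹ := by
    refine (sum_Ioc_inv_sq_le_sub hD hDM).trans ?_
    have : (0 : ℝ) ≤ ((4 * B : ℕ) : ℝ)⁻¹ := inv_nonneg.2 (Nat.cast_nonneg _)
    linarith
  calc (K : ℝ) * (4 * B) * ∑ d ∈ Ioc D (4 * B), ((d : ℝ) ^ 2)⁻¹ ≤ K * (4 * B) * (D : ℝ)⁻¹ :=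
        mul_le_mul_of_nonneg_left h6 (by positivity)
    _ = 4 * B * (K * (D : ℝ)⁻¹) := by ring

end NavAux2

theorem nav : SNav := by
  refine ⟨17, by norm_num, fun B K hK hKB => ?_⟩
  have hs : 1 ≤ Nat.sqrt K := by
    rw [Nat.le_sqrt]; omega
  have hsK : Nat.sqrt K ≤ K := Nat.sqrt_le_self K
  refine (NavAux2.total B K (Nat.sqrt K) hKB (by omega) (by omega)).trans ?_
  have h1 : ((Nat.sqrt K : ℕ) : ℝ) ≤ Real.sqrt K := Real.nat_sqrt_le_real_sqrt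
  have h2 : Real.sqrt K ≤ (Nat.sqrt K : ℝ) + 1 := Real.real_sqrt_le_nat_sqrt_succ
  have h3 : (1 : ℝ) ≤ (Nat.sqrt K : ℝ) := by exact_mod_cast hs
  have h4 : (K : ℝ) * ((Nat.sqrt K : ℕ) : ℝ)⁻¹ ≤ 2 * Real.sqrt K := by
    rw [← div_eq_mul_inv, div_le_iff₀ (by linarith)]
    have h5 : Real.sqrt K * Real.sqrt K = K := Real.mul_self_sqrt (Nat.cast_nonneg _)
    have h6 : Real.sqrt K ≤ 2 * (Nat.sqrt K : ℝ) := by linarith
    have h7 : 0 ≤ Real.sqrt K := Real.sqrt_nonneg _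
    nlinarith
  have hB : (0 : ℝ) ≤ B := Nat.cast_nonneg _
  have h8 : 3 * (B : ℝ) * (((Nat.sqrt K : ℕ) : ℝ) + K * ((Nat.sqrt K : ℕ) : ℝ)⁻¹) ≤
      3 * B * (Real.sqrt K + 2 * Real.sqrt K) :=
    mul_le_mul_of_nonneg_left (add_le_add h1 h4) (by positivity)
  have h9 : 4 * (B : ℝ) * (K * ((Nat.sqrt K : ℕ) : ℝ)⁻¹) ≤ 4 * B * (2 * Real.sqrt K) :=
    mul_le_mul_of_nonneg_left h4 (by positivity)
  calc _ ≤ 3 * B * (Real.sqrt K + 2 * Real.sqrt K) + 4 * B * (2 * Real.sqrt K) := add_le_add h8 h9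
    _ = 17 * B * Real.sqrt K := by ring

end Pool.Agent.W815.RGE
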