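import Pool.Agent.W815.RGC.StmG

set_option autoImplicit false

/-! QBP of project RGE: assembly of the second moment bound (by helper176) -/

namespace Pool.Agent.W815.RGE

open Finset MeasureTheory Filter Topology Pool.Agent.Helper497.HS Pool.Agent.H595R2.PTF
open Pool.Agent.W815.RGC

namespace GQbp2

/-- Cauchy–Schwarz with square roots -/
lemma cs {Ω : Type} [Fintype Ω] (g h : Ω → ℝ) (A D : ℝ)
    (hg : Ex (fun ω => g ω ^ 2) ≤ A) (hh : Ex (fun ω => h ω ^ 2) ≤ D) :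
    Ex (fun ω => g ω * h ω) ≤ Real.sqrt A * Real.sqrt D := by
  have h1 : (0 : ℝ) ≤ Ex (fun ω => g ω ^ 2) := Ex_nonneg fun _ => sq_nonneg _
  have h2 : (0 : ℝ) ≤ Ex (fun ω => h ω ^ 2) := Ex_nonneg fun _ => sq_nonneg _
  have hA : 0 ≤ A := h1.trans hg
  rw [← Real.sqrt_mul hA]
  refine (le_abs_self _).trans (Real.abs_le_sqrt ?_)
  refine (Ex_mul_sq_le g h).trans ?_
  gcongr

lemma sqrt4 (L : ℝ) (hL : 0 ≤ L) (J : ℕ) : Real.sqrt (4 * L ^ (2 * J)) = 2 * L ^ J := by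
  rw [show 4 * L ^ (2 * J) = (2 * L ^ J) ^ 2 by ring, Real.sqrt_sq (by positivity)]

lemma sqrtC (C c B K : ℝ) (hC : 0 ≤ C) (hB : 0 ≤ B) (hK : 0 ≤ K) :
    Real.sqrt (C * K ^ 2 * B ^ (-c)) = Real.sqrt C * K * B ^ (-c / 2) := by
  have h1 : (B ^ (-c / 2)) ^ 2 = B ^ (-c) := by
    rw [← Real.rpow_natCast, ← Real.rpow_mul hB]
    congr 1
    push_cast
    ring
  have h2 : C * K ^ 2 * B ^ (-c) = (Real.sqrt C * K * B ^ (-c / 2)) ^ 2 := by
    rw [mul_pow, mul_pow, Real.sq_sqrt hC, h1]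
  rw [h2, Real.sqrt_sq (by positivity)]

/-- the bound for one pair -/
lemma pair (hHyp : SHyp) (hHol : SHol) (hGcd : SGcd) (hSp : SSplit)
    (J B B' K a b d i M : ℕ) (X : ℝ) (hB : 1 ≤ B) (hM : M = 3 * B + K + 1) (hB' : B' ≤ 3 * B)
    (ha : a ∈ Ico B B') (hb : b ∈ Ico B B') (hd : ∀ n ∈ Icc 1 M, n.primeFactors.card ≤ d)
    (hi : 2 * J ≤ 2 ^ i)
    (hX : nsq (fun x : Fin M → ℤˣ => Gs (cf M x) ((B : ℝ) ^ (1 / (2 * (J : ℝ) + 1))) a K) ≤ X) :
    Ex (fun x : Fin M → ℤˣ => S (cf M x) (J + 1) a K * S (cf M x) (J + 1) b K) ≤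
      (J : ℝ) * (Real.sqrt X * (2 * ((3 : ℝ) ^ (i * d) * K) ^ J)) +
      ((J : ℝ) + 1) * (Real.sqrt (nsq (fun x : Fin M → ℤˣ =>
        Gc (cf M x) ((B : ℝ) ^ (1 / (2 * (J : ℝ) + 1))) a b K)) *
          (2 * ((3 : ℝ) ^ (i * d) * K) ^ J)) := by
  rw [mem_Ico] at ha hb
  have haM : a + K < M := by omega
  have hbM : b + K < M := by omega
  have hL : (0 : ℝ) ≤ (3 : ℝ) ^ (i * d) * K := by positivity
  refine (hSp hGcd M J B a b K hB ha.1 hb.1 haM hbM).trans ?_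
  have t2 : Ex (fun x : Fin M → ℤˣ =>
      Gc (cf M x) ((B : ℝ) ^ (1 / (2 * (J : ℝ) + 1))) a b K *
      (W (cf M x) a K ^ J * W (cf M x) b K ^ J)) ≤
      Real.sqrt (nsq (fun x : Fin M → ℤˣ =>
        Gc (cf M x) ((B : ℝ) ^ (1 / (2 * (J : ℝ) + 1))) a b K)) *
          (2 * ((3 : ℝ) ^ (i * d) * K) ^ J) := by
    rw [← sqrt4 _ hL]
    refine cs _ _ _ _ le_rfl ?_
    have := hHol hHyp M a b K d i J J haM hbM hd (by omega)
    rwa [← two_mul] at this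
  have t1 : (J : ℝ) * Ex (fun x : Fin M → ℤˣ => Gs (cf M x) ((B : ℝ) ^ (1 / (2 * (J : ℝ) + 1))) a K *
      (W (cf M x) a K ^ (J - 1) * W (cf M x) b K ^ (J + 1))) ≤
      (J : ℝ) * (Real.sqrt X * (2 * ((3 : ℝ) ^ (i * d) * K) ^ J)) := by
    rcases Nat.eq_zero_or_pos J with h0 | h0
    · subst h0; simp
    · refine mul_le_mul_of_nonneg_left ?_ (Nat.cast_nonneg J)
      rw [← sqrt4 _ hL]
      refine cs _ _ _ _ hX ?_
      have := hHol hHyp M a b K d i (J - 1) (J + 1) haM hbM hd (by omega)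
      rwa [show J - 1 + (J + 1) = 2 * J by omega] at this
  exact add_le_add t1 (mul_le_mul_of_nonneg_left t2 (by positivity))

lemma Nn_le (a K : ℕ) : Nn a K ≤ K := by
  classical
  unfold Nn
  have : ((Ioc a (a + K)).filter Squarefree).card ≤ K := by
    refine (card_filter_le _ _).trans ?_
    simp
  exact_mod_cast this

lemma Nn_nonneg (a K : ℕ) : 0 ≤ Nn a K := by
  unfold Nn
  positivity

/-- the second moment as a double sum -/
lemma nsqAA (M j m B B' K : ℕ) :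
    nsq (fun x : Fin M → ℤˣ => AA (cf M x) j m B B' K) =
      ∑ a ∈ Ico B B', ∑ b ∈ Ico B B', Nn a K ^ m * Nn b K ^ m *
        Ex (fun x : Fin M → ℤˣ => S (cf M x) j a K * S (cf M x) j b K) := by
  unfold nsq AA
  have h : ∀ x : Fin M → ℤˣ, (∑ a ∈ Ico B B', Nn a K ^ m * S (cf M x) j a K) ^ 2 =
      ∑ a ∈ Ico B B', ∑ b ∈ Ico B B', Nn a K ^ m * Nn b K ^ m *
        (S (cf M x) j a K * S (cf M x) j b K) := by
    intro x
    rw [sq, Finset.sum_mul_sum]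
    refine sum_congr rfl fun a _ => sum_congr rfl fun b _ => ?_
    ring
  rw [Ex_congr h, Ex_sum]
  refine sum_congr rfl fun a _ => ?_
  rw [Ex_sum]
  refine sum_congr rfl fun b _ => ?_
  rw [Ex_const_mul]

end GQbp2

open GQbp2

theorem qbp : SQbp := by
  intro hDeg hHyp hHol hGcd hSp hSame hCnt hCr ε j m hε hε1 hj
  obtain ⟨J, rfl⟩ : ∃ J, j = J + 1 := ⟨j - 1, by omega⟩
  set θ : ℝ := 1 / (2 * (J : ℝ) + 1) with hθ
  have hθ0 : 0 < θ := by positivity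
  obtain ⟨c1, C1, hc1, hC1, h1⟩ := hSame ε θ hε hε1 hθ0
  obtain ⟨c2, C2, hc2, hC2, h2⟩ := hCr hCnt ε θ hε hε1 hθ0
  set c0 : ℝ := min c1 c2 / 2 with hc0
  have hc0p : 0 < c0 := by positivity
  have hc01 : c0 ≤ c1 / 2 := by rw [hc0]; gcongr; exact min_le_left _ _
  have hc02 : c0 ≤ c2 / 2 := by rw [hc0]; gcongr; exact min_le_right _ _
  set i : ℕ := 2 * J with hi
  have hi2 : 2 * J ≤ 2 ^ i := by rw [hi]; exact Nat.lt_two_pow_self.le
  set η : ℝ := c0 / (2 * ((J : ℝ) + 1)) with hη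
  have hη0 : 0 < η := by positivity
  obtain ⟨CD, hCD, hdeg⟩ := hDeg (3 ^ i) η (Nat.one_le_pow _ _ (by norm_num)) hη0
  set R : ℝ := 8 * J * Real.sqrt C1 + 4 * ((J : ℝ) + 1) * Real.sqrt C2 with hR
  have hR0 : 0 < R := by
    have := Real.sqrt_pos.mpr hC2
    positivity
  refine ⟨c0 / 2, CD ^ J * ((5 : ℝ) ^ η) ^ J * R, by positivity, by positivity, ?_⟩
  intro B B' K hB hB' hK hKB
  have hBr : (1 : ℝ) ≤ B := by exact_mod_cast hB
  have hB0 : (0 : ℝ) ≤ B := by linarith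
  have hBp : (0 : ℝ) < B := by linarith
  have hKr : (1 : ℝ) ≤ K := by exact_mod_cast hK
  have hK0 : (0 : ℝ) ≤ K := by linarith
  have hKleB : (K : ℝ) ≤ B := by
    refine hKB.trans ?_
    calc (B : ℝ) ^ (1 - ε) ≤ (B : ℝ) ^ (1 : ℝ) :=
          Real.rpow_le_rpow_of_exponent_le hBr (by linarith)
      _ = B := Real.rpow_one _
  have hKleB' : K ≤ B := by exact_mod_cast hKleB
  set M : ℕ := 3 * B + K + 1 with hM
  obtain ⟨d, hd1, hd2⟩ := hdeg M (by omega)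
  set L : ℝ := (3 : ℝ) ^ (i * d) * K with hL
  have hL0 : 0 ≤ L := by positivity
  set X : ℝ := C1 * (K : ℝ) ^ 2 * (B : ℝ) ^ (-c1) with hX
  set T : ℕ → ℕ → ℝ := fun a b => (J : ℝ) * (Real.sqrt X * (2 * L ^ J)) +
      ((J : ℝ) + 1) * (Real.sqrt (nsq (fun x : Fin M → ℤˣ =>
        Gc (cf M x) ((B : ℝ) ^ θ) a b K)) * (2 * L ^ J)) with hT
  have hTn : ∀ a b, 0 ≤ T a b := fun a b => by
    simp only [hT]; positivity
  -- step 1
  have s1 : nsq (fun x : Fin M → ℤˣ => AA (cf M x) (J + 1) m B B' K) ≤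
      (K : ℝ) ^ (2 * m) * ∑ a ∈ Ico B B', ∑ b ∈ Ico B B', T a b := by
    rw [nsqAA, mul_sum]
    refine sum_le_sum fun a ha => ?_
    rw [mul_sum]
    refine sum_le_sum fun b hb => ?_
    have hab := pair hHyp hHol hGcd hSp J B B' K a b d i M X hB hM hB' ha hb hd1 hi2 (by
      rw [mem_Ico] at ha
      exact h1 M B a K hB ha.1 (by omega) hK hKB (by omega))
    have n1 := Nn_nonneg a K
    have n2 := Nn_nonneg b K
    have n3 := Nn_le a K
    have n4 := Nn_le b K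
    calc Nn a K ^ m * Nn b K ^ m * Ex (fun x : Fin M → ℤˣ =>
            S (cf M x) (J + 1) a K * S (cf M x) (J + 1) b K)
        ≤ Nn a K ^ m * Nn b K ^ m * T a b := mul_le_mul_of_nonneg_left hab (by positivity)
      _ ≤ (K : ℝ) ^ m * (K : ℝ) ^ m * T a b := by
          refine mul_le_mul_of_nonneg_right ?_ (hTn a b)
          gcongr
      _ = (K : ℝ) ^ (2 * m) * T a b := by rw [← pow_add, two_mul]
  -- step 2: the double sum
  have hcard : ((Ico B B').card : ℝ) ≤ 2 * B := by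
    rw [Nat.card_Ico]
    have : B' - B ≤ 2 * B := by omega
    exact_mod_cast this
  set G : ℕ → ℕ → ℝ := fun a b => nsq (fun x : Fin M → ℤˣ =>
        Gc (cf M x) ((B : ℝ) ^ θ) a b K) with hG
  have hGn : ∀ a b, 0 ≤ G a b := fun a b => nsq_nonneg _
  have s2 : ∑ a ∈ Ico B B', ∑ b ∈ Ico B B', Real.sqrt (G a b) ≤
      2 * B * (Real.sqrt C2 * K * (B : ℝ) ^ (1 - c2 / 2)) := by
    have e1 : ∑ a ∈ Ico B B', ∑ b ∈ Ico B B', Real.sqrt (G a b) =
        ∑ p ∈ Ico B B' ×ˢ Ico B B', Real.sqrt (G p.1 p.2) := by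
      rw [sum_product]
    have e2 : ∑ p ∈ Ico B B' ×ˢ Ico B B', Real.sqrt (G p.1 p.2) ^ 2 =
        ∑ a ∈ Ico B B', ∑ b ∈ Ico B B', G a b := by
      rw [sum_product]
      refine sum_congr rfl fun a _ => sum_congr rfl fun b _ => ?_
      exact Real.sq_sqrt (hGn a b)
    have e3 := sq_sum_le_card_mul_sum_sq (s := Ico B B' ×ˢ Ico B B')
      (f := fun p => Real.sqrt (G p.1 p.2))
    rw [e1]
    refine le_trans (le_abs_self _) (abs_le_of_sq_le_sq ?_ (by positivity))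
    refine e3.trans ?_
    rw [e2, card_product, Nat.cast_mul]
    have e4 := h2 M B B' K hB hB' hK hKB (by omega)
    have e5 : (2 * B * (Real.sqrt C2 * K * (B : ℝ) ^ (1 - c2 / 2))) ^ 2 =
        (2 * B) * (2 * B) * (C2 * (B : ℝ) ^ (2 - c2) * (K : ℝ) ^ 2) := by
      have : ((B : ℝ) ^ (1 - c2 / 2)) ^ 2 = (B : ℝ) ^ (2 - c2) := by
        rw [← Real.rpow_natCast, ← Real.rpow_mul hB0]
        congr 1
        push_cast
        ring
      rw [mul_pow, mul_pow, mul_pow, mul_pow, Real.sq_sqrt hC2.le, this]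
      ring
    rw [e5]
    have e6 : (0 : ℝ) ≤ ∑ a ∈ Ico B B', ∑ b ∈ Ico B B', G a b :=
      sum_nonneg fun a _ => sum_nonneg fun b _ => hGn a b
    exact mul_le_mul (mul_le_mul hcard hcard (by positivity) (by positivity)) e4 e6
      (by positivity)
  have s3 : ∑ a ∈ Ico B B', ∑ b ∈ Ico B B', T a b ≤
      (2 * B) * (2 * B) * ((J : ℝ) * (Real.sqrt X * (2 * L ^ J))) +
      ((J : ℝ) + 1) * (2 * L ^ J) * (2 * B * (Real.sqrt C2 * K * (B : ℝ) ^ (1 - c2 / 2))) := by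
    have e1 : ∑ a ∈ Ico B B', ∑ b ∈ Ico B B', T a b =
        ((Ico B B').card : ℝ) * ((Ico B B').card : ℝ) * ((J : ℝ) * (Real.sqrt X * (2 * L ^ J))) +
        ((J : ℝ) + 1) * (2 * L ^ J) * ∑ a ∈ Ico B B', ∑ b ∈ Ico B B', Real.sqrt (G a b) := by
      simp only [hT, sum_add_distrib, sum_const, nsmul_eq_mul]
      rw [mul_sum]
      congr 1
      · ring
      · refine sum_congr rfl fun a _ => ?_
        rw [mul_sum]
        refine sum_congr rfl fun b _ => ?_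
        simp only [hG]
        ring
    rw [e1]
    refine add_le_add ?_ ?_
    · refine mul_le_mul_of_nonneg_right ?_ (by positivity)
      exact mul_le_mul hcard hcard (by positivity) (by positivity)
    · exact mul_le_mul_of_nonneg_left s2 (by positivity)
  -- step 3: exponents
  have x1 : (B : ℝ) ^ (2 : ℕ) * (B : ℝ) ^ (-c1 / 2) ≤ (B : ℝ) ^ (2 - c0) := by
    rw [← Real.rpow_natCast, ← Real.rpow_add hBp]
    refine Real.rpow_le_rpow_of_exponent_le hBr ?_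
    push_cast
    linarith
  have x2 : (B : ℝ) * (B : ℝ) ^ (1 - c2 / 2) ≤ (B : ℝ) ^ (2 - c0) := by
    nth_rewrite 1 [← Real.rpow_one (B : ℝ)]
    rw [← Real.rpow_add hBp]
    refine Real.rpow_le_rpow_of_exponent_le hBr ?_
    linarith
  have s4 : (2 * B) * (2 * B) * ((J : ℝ) * (Real.sqrt X * (2 * L ^ J))) +
      ((J : ℝ) + 1) * (2 * L ^ J) * (2 * B * (Real.sqrt C2 * K * (B : ℝ) ^ (1 - c2 / 2))) ≤
      L ^ J * K * (B : ℝ) ^ (2 - c0) * R := by
    rw [hX, sqrtC C1 c1 B K hC1.le hB0 hK0, hR]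
    have e1 : (2 * B) * (2 * B) * ((J : ℝ) * ((Real.sqrt C1 * K * (B : ℝ) ^ (-c1 / 2)) *
        (2 * L ^ J))) = (8 * J * Real.sqrt C1) * (L ^ J * K) *
          ((B : ℝ) ^ (2 : ℕ) * (B : ℝ) ^ (-c1 / 2)) := by ring
    have e2 : ((J : ℝ) + 1) * (2 * L ^ J) * (2 * B * (Real.sqrt C2 * K * (B : ℝ) ^ (1 - c2 / 2))) =
        (4 * ((J : ℝ) + 1) * Real.sqrt C2) * (L ^ J * K) *
          ((B : ℝ) * (B : ℝ) ^ (1 - c2 / 2)) := by ring
    rw [e1, e2]
    have e3 : L ^ J * K * (B : ℝ) ^ (2 - c0) *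
        (8 * J * Real.sqrt C1 + 4 * ((J : ℝ) + 1) * Real.sqrt C2) =
        (8 * J * Real.sqrt C1) * (L ^ J * K) * (B : ℝ) ^ (2 - c0) +
        (4 * ((J : ℝ) + 1) * Real.sqrt C2) * (L ^ J * K) * (B : ℝ) ^ (2 - c0) := by ring
    rw [e3]
    exact add_le_add (mul_le_mul_of_nonneg_left x1 (by positivity))
      (mul_le_mul_of_nonneg_left x2 (by positivity))
  -- step 4: the factor `L ^ J`
  have hMB : (M : ℝ) ≤ 5 * B := by
    have : M ≤ 5 * B := by omega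
    exact_mod_cast this
  have y1 : (3 : ℝ) ^ (i * d) ≤ CD * (5 : ℝ) ^ η * (B : ℝ) ^ η := by
    have e1 : (3 : ℝ) ^ (i * d) = ((3 ^ i : ℕ) : ℝ) ^ d := by
      push_cast
      rw [pow_mul]
    rw [e1, mul_assoc, ← Real.mul_rpow (by norm_num) hB0]
    refine hd2.trans ?_
    refine mul_le_mul_of_nonneg_left ?_ hCD.le
    exact Real.rpow_le_rpow (Nat.cast_nonneg _) hMB hη0.le
  have y2 : L ^ J ≤ CD ^ J * ((5 : ℝ) ^ η) ^ J * ((B : ℝ) ^ η) ^ J * (K : ℝ) ^ J := by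
    rw [hL, ← mul_pow, ← mul_pow, ← mul_pow]
    refine pow_le_pow_left₀ (by positivity) ?_ J
    exact mul_le_mul_of_nonneg_right y1 hK0
  have y3 : ((B : ℝ) ^ η) ^ J * (B : ℝ) ^ (2 - c0) ≤ (B : ℝ) ^ (2 - c0 / 2) := by
    rw [← Real.rpow_natCast, ← Real.rpow_mul hB0, ← Real.rpow_add hBp]
    refine Real.rpow_le_rpow_of_exponent_le hBr ?_
    have : η * (J : ℝ) ≤ c0 / 2 := by
      rw [hη, div_mul_eq_mul_div, div_le_div_iff₀ (by positivity) (by norm_num)]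
      nlinarith
    linarith
  calc nsq (fun x : Fin M → ℤˣ => AA (cf M x) (J + 1) m B B' K)
      ≤ (K : ℝ) ^ (2 * m) * ∑ a ∈ Ico B B', ∑ b ∈ Ico B B', T a b := s1
    _ ≤ (K : ℝ) ^ (2 * m) * (L ^ J * K * (B : ℝ) ^ (2 - c0) * R) :=
        mul_le_mul_of_nonneg_left (s3.trans s4) (by positivity)
    _ ≤ (K : ℝ) ^ (2 * m) * ((CD ^ J * ((5 : ℝ) ^ η) ^ J * ((B : ℝ) ^ η) ^ J * (K : ℝ) ^ J) * K *
          (B : ℝ) ^ (2 - c0) * R) := by
        refine mul_le_mul_of_nonneg_left ?_ (by positivity)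
        refine mul_le_mul_of_nonneg_right ?_ hR0.le
        refine mul_le_mul_of_nonneg_right ?_ (by positivity)
        exact mul_le_mul_of_nonneg_right y2 hK0
    _ = (CD ^ J * ((5 : ℝ) ^ η) ^ J * R) * (((B : ℝ) ^ η) ^ J * (B : ℝ) ^ (2 - c0)) *
          (K : ℝ) ^ (2 * m + (J + 1)) := by ring
    _ ≤ (CD ^ J * ((5 : ℝ) ^ η) ^ J * R) * (B : ℝ) ^ (2 - c0 / 2) *
          (K : ℝ) ^ (2 * m + (J + 1)) := by
        refine mul_le_mul_of_nonneg_right ?_ (by positivity)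
        exact mul_le_mul_of_nonneg_left y3 (by positivity)

end Pool.Agent.W815.RGE
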