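import Pool.Agent.W815.RGC.StmG
import Pool.Agent.W815.RGC.Sec
import Pool.Agent.W815.RGC.Cnt

set_option autoImplicit false

/-!
# Project RGE, part SAME: pairs in the same window
-/

namespace Pool.Agent.W815.RGE

open Finset MeasureTheory Filter Topology Pool.Agent.Helper497.HS Pool.Agent.H595R2.PTF
open Pool.Agent.W815.RGC

namespace GSame2

theorem card_g (a K d : ℕ) (hd : 1 ≤ d) :
    ((Icc 1 (a + K)).filter (fun g => a < g * d ∧ g * d ≤ a + K)).card ≤ K / d + 1 := by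
  have hsub : (Icc 1 (a + K)).filter (fun g => a < g * d ∧ g * d ≤ a + K) ⊆
      Ioc (a / d) ((a + K) / d) := by
    intro g hg
    simp only [mem_filter, mem_Icc] at hg
    rw [mem_Ioc]
    exact ⟨(Nat.div_lt_iff_lt_mul hd).mpr hg.2.1, (Nat.le_div_iff_mul_le hd).mpr hg.2.2⟩
  refine (card_le_card hsub).trans ?_
  rw [Nat.card_Ioc, Nat.add_div hd]
  generalize K / d = x
  generalize a / d = y
  split_ifs <;> omega

theorem card_mult (a K g : ℕ) (hg : 1 ≤ g) :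
    ((Ioc a (a + K)).filter (fun n => g ∣ n)).card ≤ K / g + 1 := by
  refine le_trans ?_ (card_g a K g hg)
  apply Finset.card_le_card_of_injOn (fun n => n / g)
  · intro n hn
    simp only [coe_filter, Set.mem_ofPred_eq, mem_Ioc] at hn
    simp only [coe_filter, Set.mem_ofPred_eq, mem_Icc]
    have e := Nat.div_mul_cancel hn.2
    rw [e]
    refine ⟨⟨Nat.div_pos (Nat.le_of_dvd (by omega) hn.2) hg, ?_⟩, hn.1.1, hn.1.2⟩
    exact (Nat.div_le_self _ _).trans hn.1.2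
  · intro n hn m hm h
    simp only [coe_filter, Set.mem_ofPred_eq, mem_Ioc] at hn hm
    simp only at h
    rw [← Nat.div_mul_cancel hn.2, ← Nat.div_mul_cancel hm.2, h]

/-- the pairs -/
def PP (a K : ℕ) : Finset (ℕ × ℕ) :=
  (Ioc a (a + K) ×ˢ Ioc a (a + K)).filter (fun q => q.1 ≠ q.2)

theorem mem_PP {a K : ℕ} {q : ℕ × ℕ} :
    q ∈ PP a K ↔ a < q.1 ∧ q.1 ≤ a + K ∧ a < q.2 ∧ q.2 ≤ a + K ∧ q.1 ≠ q.2 := by
  unfold PP
  simp only [mem_filter, mem_product, mem_Ioc]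
  tauto

theorem gcd_lt {a K : ℕ} {q : ℕ × ℕ} (hq : q ∈ PP a K) : q.1.gcd q.2 < K := by
  rw [mem_PP] at hq
  obtain ⟨h1, h2, h3, h4, h5⟩ := hq
  rcases lt_or_gt_of_ne h5 with h | h
  · have hd : q.1.gcd q.2 ∣ q.2 - q.1 := Nat.dvd_sub (Nat.gcd_dvd_right _ _) (Nat.gcd_dvd_left _ _)
    have := Nat.le_of_dvd (by omega) hd
    omega
  · have hd : q.1.gcd q.2 ∣ q.1 - q.2 := Nat.dvd_sub (Nat.gcd_dvd_left _ _) (Nat.gcd_dvd_right _ _)
    have := Nat.le_of_dvd (by omega) hd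
    omega

/-- the size of the divisor -/
theorem size (B a K : ℕ) (hB : 1 ≤ B) (hBa : B ≤ a) (hK : K ≤ a) (q r : ℕ × ℕ)
    (hq : q ∈ PP a K) (hr : r ∈ PP a K) (hk : kap r = kap q) :
    B < 2 * (r.1 / r.1.gcd r.2) * q.1.gcd q.2 := by
  rw [mem_PP] at hq hr
  obtain ⟨h1, h2, h3, h4, h5⟩ := hq
  obtain ⟨r1, r2, r3, r4, r5⟩ := hr
  have hg : 0 < q.1.gcd q.2 := Nat.gcd_pos_of_pos_left _ (by omega)
  have hg' : 0 < r.1.gcd r.2 := Nat.gcd_pos_of_pos_left _ (by omega)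
  have e1 : q.1.gcd q.2 * (q.1 / q.1.gcd q.2) = q.1 := Nat.mul_div_cancel' (Nat.gcd_dvd_left _ _)
  have e2 : q.1.gcd q.2 * (q.2 / q.1.gcd q.2) = q.2 := Nat.mul_div_cancel' (Nat.gcd_dvd_right _ _)
  have f1 : r.1.gcd r.2 * (r.1 / r.1.gcd r.2) = r.1 := Nat.mul_div_cancel' (Nat.gcd_dvd_left _ _)
  have f2 : r.1.gcd r.2 * (r.2 / r.1.gcd r.2) = r.2 := Nat.mul_div_cancel' (Nat.gcd_dvd_right _ _)
  unfold kap at hk
  generalize r.1 / r.1.gcd r.2 = d at *
  generalize r.2 / r.1.gcd r.2 = e at *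
  generalize q.1 / q.1.gcd q.2 = A at *
  generalize q.2 / q.1.gcd q.2 = C at *
  generalize q.1.gcd q.2 = g at *
  generalize r.1.gcd r.2 = g' at *
  have hde : e < 2 * d := by
    by_contra hcon
    push Not at hcon
    have : g' * (2 * d) ≤ g' * e := Nat.mul_le_mul_left _ hcon
    have h6 : g' * (2 * d) = 2 * (g' * d) := by ring
    rw [h6, f1, f2] at this
    omega
  by_contra hcon
  push Not at hcon
  have h7 : (2 * d * g) * (2 * d * g) ≤ B * B := Nat.mul_le_mul hcon hcon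
  have h8 : B * B < q.1 * q.2 := Nat.mul_lt_mul_of_lt_of_le (by omega) (by omega) (by omega)
  have h9 : q.1 * q.2 = (A * C) * (g * g) := by rw [← e1, ← e2]; ring
  have h10 : d * e ≤ d * (2 * d) := Nat.mul_le_mul_left _ hde.le
  have h11 : (A * C) * (g * g) ≤ (d * (2 * d)) * (g * g) := by
    rw [← hk]; exact Nat.mul_le_mul_right _ h10
  have h12 : (2 * d * g) * (2 * d * g) = 2 * ((d * (2 * d)) * (g * g)) := by ring
  rw [h12] at h7
  rw [h9] at h8
  omega

theorem card_fib (B a K : ℕ) (hB : 1 ≤ B) (hBa : B ≤ a) (hK : K ≤ a) (q : ℕ × ℕ)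
    (hq : q ∈ PP a K) :
    (((PP a K).filter (fun r => kap r = kap q)).card : ℝ) ≤
      ((kap q).divisors.card : ℝ) * (2 * K * (q.1.gcd q.2 : ℕ) / B + 1) := by
  have hB0 : (0 : ℝ) < B := by exact_mod_cast hB
  have hq' := mem_PP.mp hq
  have hgq : 0 < q.1.gcd q.2 := Nat.gcd_pos_of_pos_left _ (by omega)
  have hkap : ∀ r ∈ PP a K, 0 < kap r := by
    intro r hr
    rw [mem_PP] at hr
    have hg' : 0 < r.1.gcd r.2 := Nat.gcd_pos_of_pos_left _ (by omega)
    unfold kap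
    exact Nat.mul_pos (Nat.div_pos (Nat.gcd_le_left _ (by omega)) hg')
      (Nat.div_pos (Nat.gcd_le_right _ (by omega)) hg')
  have hmap : ∀ r ∈ (PP a K).filter (fun r => kap r = kap q),
      r.1 / r.1.gcd r.2 ∈ (kap q).divisors := by
    intro r hr
    rw [mem_filter] at hr
    rw [Nat.mem_divisors]
    refine ⟨?_, (hkap q hq).ne'⟩
    rw [← hr.2]
    exact Dvd.intro _ rfl
  rw [Finset.card_eq_sum_card_fiberwise hmap]
  push_cast
  rw [← nsmul_eq_mul, ← Finset.sum_const]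
  apply Finset.sum_le_sum
  intro d _
  rcases Finset.eq_empty_or_nonempty
    (((PP a K).filter (fun r => kap r = kap q)).filter (fun r => r.1 / r.1.gcd r.2 = d)) with h | h
  · rw [h, card_empty, Nat.cast_zero]
    positivity
  · obtain ⟨r, hr⟩ := h
    simp only [mem_filter] at hr
    obtain ⟨⟨hr1, hr2⟩, hr3⟩ := hr
    have hs := size B a K hB hBa hK q r hq hr1 hr2
    rw [hr3] at hs
    have hd : 1 ≤ d := by
      rcases Nat.eq_zero_or_pos d with h0 | h0
      · rw [h0] at hs; simp at hs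
      · exact h0
    have hc : (((PP a K).filter (fun r => kap r = kap q)).filter
        (fun r => r.1 / r.1.gcd r.2 = d)).card ≤ K / d + 1 := by
      refine le_trans ?_ (card_g a K d hd)
      apply Finset.card_le_card_of_injOn (fun r => r.1.gcd r.2)
      · intro t ht
        simp only [coe_filter, Set.mem_ofPred_eq, mem_filter, mem_PP] at ht
        obtain ⟨⟨⟨t1, t2, t3, t4, t5⟩, t6⟩, t7⟩ := ht
        simp only [coe_filter, Set.mem_ofPred_eq, mem_Icc]
        have f1 : t.1.gcd t.2 * (t.1 / t.1.gcd t.2) = t.1 :=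
          Nat.mul_div_cancel' (Nat.gcd_dvd_left _ _)
        rw [t7] at f1
        rw [f1]
        exact ⟨⟨Nat.gcd_pos_of_pos_left _ (by omega), (Nat.gcd_le_left _ (by omega)).trans t2⟩,
          t1, t2⟩
      · intro t ht u hu htu
        simp only [coe_filter, Set.mem_ofPred_eq, mem_filter] at ht hu
        simp only at htu
        obtain ⟨⟨t1, t6⟩, t7⟩ := ht
        obtain ⟨⟨u1, u6⟩, u7⟩ := hu
        have f1 : t.1.gcd t.2 * (t.1 / t.1.gcd t.2) = t.1 :=
          Nat.mul_div_cancel' (Nat.gcd_dvd_left _ _)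
        have f2 : t.1.gcd t.2 * (t.2 / t.1.gcd t.2) = t.2 :=
          Nat.mul_div_cancel' (Nat.gcd_dvd_right _ _)
        have k1 : u.1.gcd u.2 * (u.1 / u.1.gcd u.2) = u.1 :=
          Nat.mul_div_cancel' (Nat.gcd_dvd_left _ _)
        have k2 : u.1.gcd u.2 * (u.2 / u.1.gcd u.2) = u.2 :=
          Nat.mul_div_cancel' (Nat.gcd_dvd_right _ _)
        have hkk : kap t = kap u := by rw [t6, u6]
        unfold kap at hkk
        rw [t7, u7] at hkk
        have hm := Nat.eq_of_mul_eq_mul_left hd hkk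
        refine Prod.ext ?_ ?_
        · rw [← f1, ← k1, t7, u7, htu]
        · rw [← f2, ← k2, hm, htu]
    have hc' : ((((PP a K).filter (fun r => kap r = kap q)).filter
        (fun r => r.1 / r.1.gcd r.2 = d)).card : ℝ) ≤ ((K / d : ℕ) : ℝ) + 1 := by
      exact_mod_cast hc
    refine hc'.trans ?_
    have hd0 : (0 : ℝ) < d := by exact_mod_cast hd
    have h1 : ((K / d : ℕ) : ℝ) ≤ (K : ℝ) / d := Nat.cast_div_le
    have h2 : (K : ℝ) / d ≤ 2 * K * (q.1.gcd q.2 : ℕ) / B := by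
      rw [div_le_div_iff₀ hd0 hB0]
      have h3 : (B : ℝ) ≤ 2 * d * (q.1.gcd q.2 : ℕ) := by exact_mod_cast hs.le
      have hK0 : (0 : ℝ) ≤ K := Nat.cast_nonneg _
      nlinarith [mul_le_mul_of_nonneg_left h3 hK0]
    linarith

/-- the number of pairs with given gcd -/
theorem card_gcd (a K g : ℕ) (hg : 1 ≤ g) (hgK : g ≤ K) :
    (((PP a K).filter (fun q => q.1.gcd q.2 = g)).card : ℝ) ≤ 4 * (K : ℝ) ^ 2 / (g : ℝ) ^ 2 := by
  have hg0 : (0 : ℝ) < g := by exact_mod_cast hg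
  have hsub : (PP a K).filter (fun q => q.1.gcd q.2 = g) ⊆
      ((Ioc a (a + K)).filter (fun n => g ∣ n)) ×ˢ ((Ioc a (a + K)).filter (fun n => g ∣ n)) := by
    intro q hq
    simp only [mem_filter, mem_PP] at hq
    simp only [mem_product, mem_filter, mem_Ioc]
    refine ⟨⟨⟨hq.1.1, hq.1.2.1⟩, ?_⟩, ⟨hq.1.2.2.1, hq.1.2.2.2.1⟩, ?_⟩
    · rw [← hq.2]; exact Nat.gcd_dvd_left _ _
    · rw [← hq.2]; exact Nat.gcd_dvd_right _ _
  have h1 := card_le_card hsub
  rw [card_product] at h1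
  have h2 := card_mult a K g hg
  have h3 : (((PP a K).filter (fun q => q.1.gcd q.2 = g)).card : ℝ) ≤
      (((K / g : ℕ) : ℝ) + 1) * (((K / g : ℕ) : ℝ) + 1) := by
    have : ((PP a K).filter (fun q => q.1.gcd q.2 = g)).card ≤ (K / g + 1) * (K / g + 1) :=
      h1.trans (Nat.mul_le_mul h2 h2)
    exact_mod_cast this
  have h4 : ((K / g : ℕ) : ℝ) + 1 ≤ 2 * K / g := by
    have h5 : ((K / g : ℕ) : ℝ) ≤ (K : ℝ) / g := Nat.cast_div_le
    have h6 : (1 : ℝ) ≤ (K : ℝ) / g := by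
      rw [le_div_iff₀ hg0, one_mul]; exact_mod_cast hgK
    have h7 : 2 * (K : ℝ) / g = (K : ℝ) / g + (K : ℝ) / g := by ring
    rw [h7]; linarith
  refine h3.trans ((mul_le_mul h4 h4 (by positivity) (by positivity)).trans (le_of_eq ?_))
  field_simp
  ring

/-- the norm through the counting function -/
theorem nsq_le (M a K : ℕ) (G : ℝ) (haM : a + K < M) :
    nsq (fun x : Fin M → ℤˣ => Gs (cf M x) G a K) ≤
      ∑ q ∈ (PP a K).filter (fun q => G ≤ (q.1.gcd q.2 : ℝ)),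
        (((PP a K).filter (fun r => kap r = kap q)).card : ℝ) := by
  classical
  set P := (PP a K).filter (fun q => G ≤ (q.1.gcd q.2 : ℝ)) with hP
  let c : ℕ × ℕ → ℝ := fun q => if (Squarefree q.1 ∧ Squarefree q.2) then 1 else 0
  let T : ℕ × ℕ → Finset (Fin M) := fun q => symmDiff (secS M q.1) (secS M q.2)
  have hGs : ∀ x : Fin M → ℤˣ, Gs (cf M x) G a K = ∑ q ∈ P, c q * chi (T q) x := by
    intro x
    unfold Gs
    rw [← Finset.sum_product', hP]
    unfold PP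
    rw [Finset.filter_filter, Finset.sum_filter]
    refine Finset.sum_congr rfl fun q hq => ?_
    rw [mem_product, mem_Ioc, mem_Ioc] at hq
    by_cases hh : q.1 ≠ q.2 ∧ G ≤ (q.1.gcd q.2 : ℝ)
    · rw [if_pos hh, if_pos hh]
      show rf (ext M x) q.1 * rf (ext M x) q.2 = _
      rw [sec_rf_eq _ _ (by omega), sec_rf_eq _ _ (by omega)]
      simp only [c, T]
      by_cases ha : Squarefree q.1
      · by_cases hb : Squarefree q.2
        · rw [if_pos ha, if_pos hb, if_pos ⟨ha, hb⟩, chi_mul_chi, one_mul]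
        · have hn : ¬ (Squarefree q.1 ∧ Squarefree q.2) := fun h => hb h.2
          rw [if_neg hb, if_neg hn]
          simp
      · have hn : ¬ (Squarefree q.1 ∧ Squarefree q.2) := fun h => ha h.1
        rw [if_neg ha, if_neg hn]
        simp
    · rw [if_neg hh, if_neg hh]
  have hns : nsq (fun x : Fin M → ℤˣ => Gs (cf M x) G a K) =
      ∑ q ∈ P, ∑ q' ∈ P, c q * c q' * (if T q' = T q then 1 else 0) := by
    unfold nsq
    have h1 : ∀ x : Fin M → ℤˣ, (Gs (cf M x) G a K) ^ 2 =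
        ∑ q ∈ P, ∑ q' ∈ P, (c q * c q') * (chi (T q) x * chi (T q') x) := by
      intro x
      rw [hGs x, sq, Finset.sum_mul_sum]
      refine Finset.sum_congr rfl fun q _ => Finset.sum_congr rfl fun q' _ => ?_
      ring
    rw [Ex_congr h1, Ex_sum]
    refine Finset.sum_congr rfl fun q _ => ?_
    rw [Ex_sum]
    refine Finset.sum_congr rfl fun q' _ => ?_
    rw [Ex_const_mul]
    congr 1
    exact fc_chi (T q) (T q')
  rw [hns]
  apply Finset.sum_le_sum
  intro q hq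
  have hle : ∀ q' ∈ P, c q * c q' * (if T q' = T q then 1 else 0) ≤
      (if kap q' = kap q then (1 : ℝ) else 0) := by
    intro q' hq'
    rw [hP, mem_filter, mem_PP] at hq hq'
    by_cases hs : Squarefree q.1 ∧ Squarefree q.2
    · by_cases hs' : Squarefree q'.1 ∧ Squarefree q'.2
      · have e1 : c q = 1 := if_pos hs
        have e2 : c q' = 1 := if_pos hs'
        rw [e1, e2, one_mul, one_mul]
        by_cases hT : T q' = T q
        · have e := sec_T_eq M q'.1 q'.2 q.1 q.2 (by omega) (by omega) (by omega) (by omega) hT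
          have k1 := sec_kap_eq q'.1 q'.2 hs'.1 hs'.2
          have k2 := sec_kap_eq q.1 q.2 hs.1 hs.2
          rw [Prod.mk.eta] at k1 k2
          have hk : kap q' = kap q := by rw [k1, k2, e]
          rw [if_pos hT, if_pos hk]
        · rw [if_neg hT]
          split_ifs <;> norm_num
      · have : c q' = 0 := if_neg hs'
        rw [this, mul_zero, zero_mul]
        split_ifs <;> norm_num
    · have : c q = 0 := if_neg hs
      rw [this, zero_mul, zero_mul]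
      split_ifs <;> norm_num
  refine (Finset.sum_le_sum hle).trans ?_
  rw [← Finset.sum_filter, Finset.sum_const, nsmul_eq_mul, mul_one]
  have : (P.filter (fun q' => kap q' = kap q)).card ≤
      ((PP a K).filter (fun r => kap r = kap q)).card := by
    apply card_le_card
    intro r hr
    rw [hP] at hr
    simp only [mem_filter] at hr ⊢
    exact ⟨hr.1.1, hr.2⟩
  exact_mod_cast this

/-- the sum over the pairs -/
theorem sum_le (B a K : ℕ) (G : ℝ) (hG : 0 < G) (hB : 1 ≤ B) (hKB : K ≤ B) :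
    ∑ q ∈ (PP a K).filter (fun q => G ≤ (q.1.gcd q.2 : ℝ)),
        (2 * K * (q.1.gcd q.2 : ℕ) / B + 1 : ℝ) ≤
      (8 * (K : ℝ) ^ 3 / B + 4 * (K : ℝ) ^ 2 / G) * (1 + Real.log B) := by
  have hB0 : (0 : ℝ) < B := by exact_mod_cast hB
  have hK0 : (0 : ℝ) ≤ K := Nat.cast_nonneg _
  have hmap : ∀ q ∈ (PP a K).filter (fun q => G ≤ (q.1.gcd q.2 : ℝ)),
      q.1.gcd q.2 ∈ (Icc 1 B).filter (fun g : ℕ => G ≤ (g : ℝ) ∧ g ≤ K) := by
    intro q hq
    rw [mem_filter] at hq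
    have h1 := gcd_lt hq.1
    have h2 := mem_PP.mp hq.1
    have h3 : 0 < q.1.gcd q.2 := Nat.gcd_pos_of_pos_left _ (by omega)
    rw [mem_filter, mem_Icc]
    exact ⟨⟨h3, by omega⟩, hq.2, h1.le⟩
  rw [← Finset.sum_fiberwise_of_maps_to hmap]
  have hterm : ∀ g ∈ (Icc 1 B).filter (fun g : ℕ => G ≤ (g : ℝ) ∧ g ≤ K),
      ∑ q ∈ ((PP a K).filter (fun q => G ≤ (q.1.gcd q.2 : ℝ))).filter
        (fun q => q.1.gcd q.2 = g), (2 * K * (q.1.gcd q.2 : ℕ) / B + 1 : ℝ) ≤
      (8 * (K : ℝ) ^ 3 / B + 4 * (K : ℝ) ^ 2 / G) * (1 / g) := by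
    intro g hg
    rw [mem_filter, mem_Icc] at hg
    obtain ⟨⟨hg1, hg2⟩, hg3, hg4⟩ := hg
    have hg0 : (0 : ℝ) < g := by exact_mod_cast hg1
    have h1 : ∑ q ∈ ((PP a K).filter (fun q => G ≤ (q.1.gcd q.2 : ℝ))).filter
        (fun q => q.1.gcd q.2 = g), (2 * K * (q.1.gcd q.2 : ℕ) / B + 1 : ℝ) =
        ((((PP a K).filter (fun q => G ≤ (q.1.gcd q.2 : ℝ))).filter
        (fun q => q.1.gcd q.2 = g)).card : ℝ) * (2 * K * g / B + 1) := by
      rw [← nsmul_eq_mul, ← Finset.sum_const]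
      refine Finset.sum_congr rfl fun q hq => ?_
      rw [mem_filter] at hq
      rw [hq.2]
    have h2 : ((((PP a K).filter (fun q => G ≤ (q.1.gcd q.2 : ℝ))).filter
        (fun q => q.1.gcd q.2 = g)).card : ℝ) ≤ 4 * (K : ℝ) ^ 2 / (g : ℝ) ^ 2 := by
      refine le_trans ?_ (card_gcd a K g hg1 hg4)
      have : (((PP a K).filter (fun q => G ≤ (q.1.gcd q.2 : ℝ))).filter
        (fun q => q.1.gcd q.2 = g)).card ≤ ((PP a K).filter (fun q => q.1.gcd q.2 = g)).card := by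
        apply card_le_card
        intro r hr
        simp only [mem_filter] at hr ⊢
        exact ⟨hr.1.1, hr.2⟩
      exact_mod_cast this
    rw [h1]
    calc _ ≤ 4 * (K : ℝ) ^ 2 / (g : ℝ) ^ 2 * (2 * K * g / B + 1) := by
          apply mul_le_mul_of_nonneg_right h2 (by positivity)
      _ = (8 * (K : ℝ) ^ 3 / B + 4 * (K : ℝ) ^ 2 * (1 / g)) * (1 / g) := by
          field_simp
          ring
      _ ≤ (8 * (K : ℝ) ^ 3 / B + 4 * (K : ℝ) ^ 2 / G) * (1 / g) := by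
          apply mul_le_mul_of_nonneg_right _ (by positivity)
          have h3 : (1 : ℝ) / g ≤ 1 / G := one_div_le_one_div_of_le hG hg3
          have h4 : 4 * (K : ℝ) ^ 2 / G = 4 * (K : ℝ) ^ 2 * (1 / G) := by ring
          rw [h4]
          have := mul_le_mul_of_nonneg_left h3 (by positivity : (0 : ℝ) ≤ 4 * (K : ℝ) ^ 2)
          linarith
  refine (Finset.sum_le_sum hterm).trans ?_
  rw [← Finset.mul_sum]
  apply mul_le_mul_of_nonneg_left _ (by positivity)
  refine le_trans ?_ (Cnt.harm B)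
  apply Finset.sum_le_sum_of_subset_of_nonneg (Finset.filter_subset _ _)
  intro i _ _
  positivity

end GSame2

open GSame2 in
theorem same : SSame := by
  intro ε θ hε hε1 hθ
  set μ := min ε θ with hμ
  have hμ0 : 0 < μ := lt_min hε hθ
  obtain ⟨D, hD0, hD⟩ := Pool.Agent.H510R2.divisor_bound (μ / 8) (by positivity)
  refine ⟨μ / 2, D * (16 : ℝ) ^ (μ / 8) * (12 * (1 + 4 / μ)), by positivity, by positivity, ?_⟩
  intro M B a K hB hBa haB hK hKB haM
  have hB1 : (1 : ℝ) ≤ B := by exact_mod_cast hB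
  have hB0 : (0 : ℝ) < B := by linarith
  have hK0 : (0 : ℝ) ≤ K := Nat.cast_nonneg _
  have hKB' : K ≤ B := by
    have : (K : ℝ) ≤ B := by
      refine hKB.trans ?_
      calc (B : ℝ) ^ (1 - ε) ≤ (B : ℝ) ^ (1 : ℝ) := Real.rpow_le_rpow_of_exponent_le hB1 (by linarith)
        _ = B := Real.rpow_one _
    exact_mod_cast this
  have hG0 : (0 : ℝ) < (B : ℝ) ^ θ := Real.rpow_pos_of_pos hB0 _
  -- divisor bound
  have htau : ∀ q ∈ (PP a K).filter (fun q => (B : ℝ) ^ θ ≤ (q.1.gcd q.2 : ℝ)),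
      (((PP a K).filter (fun r => kap r = kap q)).card : ℝ) ≤
        (D * (16 : ℝ) ^ (μ / 8) * (B : ℝ) ^ (μ / 4)) * (2 * K * (q.1.gcd q.2 : ℕ) / B + 1) := by
    intro q hq
    rw [mem_filter] at hq
    have h1 := card_fib B a K hB hBa (hKB'.trans hBa) q hq.1
    refine h1.trans ?_
    apply mul_le_mul_of_nonneg_right _ (by positivity)
    have hq' := mem_PP.mp hq.1
    have hkpos : 1 ≤ kap q := by
      have hg' : 0 < q.1.gcd q.2 := Nat.gcd_pos_of_pos_left _ (by omega)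
      unfold kap
      exact Nat.mul_pos (Nat.div_pos (Nat.gcd_le_left _ (by omega)) hg')
        (Nat.div_pos (Nat.gcd_le_right _ (by omega)) hg')
    have hkle : kap q ≤ (4 * B) * (4 * B) := by
      unfold kap
      exact Nat.mul_le_mul ((Nat.div_le_self _ _).trans (by omega))
        ((Nat.div_le_self _ _).trans (by omega))
    refine (hD (kap q) hkpos).trans ?_
    rw [mul_assoc]
    apply mul_le_mul_of_nonneg_left _ hD0.le
    have h2 : ((kap q : ℕ) : ℝ) ≤ 16 * (B : ℝ) ^ (2 : ℝ) := by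
      have : ((kap q : ℕ) : ℝ) ≤ (4 * B) * (4 * B) := by exact_mod_cast hkle
      have e : (B : ℝ) ^ (2 : ℝ) = (B : ℝ) ^ 2 := by
        rw [show (2 : ℝ) = ((2 : ℕ) : ℝ) by norm_num, Real.rpow_natCast]
      rw [e]
      nlinarith
    have h3 : ((kap q : ℕ) : ℝ) ^ (μ / 8) ≤ (16 * (B : ℝ) ^ (2 : ℝ)) ^ (μ / 8) :=
      Real.rpow_le_rpow (by positivity) h2 (by positivity)
    rw [Real.mul_rpow (by norm_num) (by positivity), ← Real.rpow_mul hB0.le] at h3
    have e2 : (2 : ℝ) * (μ / 8) = μ / 4 := by ring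
    rw [e2] at h3
    exact h3
  have hmain := (nsq_le M a K ((B : ℝ) ^ θ) haM).trans (Finset.sum_le_sum htau)
  rw [← Finset.mul_sum] at hmain
  have hsum := sum_le B a K ((B : ℝ) ^ θ) hG0 hB hKB'
  have hA0 : 0 ≤ D * (16 : ℝ) ^ (μ / 8) * (B : ℝ) ^ (μ / 4) := by positivity
  have h5 := hmain.trans (mul_le_mul_of_nonneg_left hsum hA0)
  refine h5.trans ?_
  have hlog : 1 + Real.log B ≤ (1 + 4 / μ) * (B : ℝ) ^ (μ / 4) := by
    have e1 := Real.log_le_rpow_div hB0.le (by positivity : 0 < μ / 4)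
    have e2 : (1 : ℝ) ≤ (B : ℝ) ^ (μ / 4) := Real.one_le_rpow hB1 (by positivity)
    have e3 : (1 + 4 / μ) * (B : ℝ) ^ (μ / 4) = (B : ℝ) ^ (μ / 4) + (B : ℝ) ^ (μ / 4) / (μ / 4) := by
      field_simp
    rw [e3]
    linarith
  have hKK : 8 * (K : ℝ) ^ 3 / B + 4 * (K : ℝ) ^ 2 / (B : ℝ) ^ θ ≤
      12 * (K : ℝ) ^ 2 * (B : ℝ) ^ (-μ) := by
    have e1 : (K : ℝ) ^ 3 / B ≤ (K : ℝ) ^ 2 * (B : ℝ) ^ (-μ) := by
      have e2 : (K : ℝ) / B ≤ (B : ℝ) ^ (-μ) := by
        rw [div_le_iff₀ hB0]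
        refine hKB.trans ?_
        have e4 : (B : ℝ) ^ (-μ) * B = (B : ℝ) ^ (-μ + 1) := by
          rw [Real.rpow_add hB0, Real.rpow_one]
        rw [e4]
        exact Real.rpow_le_rpow_of_exponent_le hB1 (by have := min_le_left ε θ; linarith)
      calc (K : ℝ) ^ 3 / B = (K : ℝ) ^ 2 * ((K : ℝ) / B) := by ring
        _ ≤ _ := mul_le_mul_of_nonneg_left e2 (by positivity)
    have e5 : (K : ℝ) ^ 2 / (B : ℝ) ^ θ ≤ (K : ℝ) ^ 2 * (B : ℝ) ^ (-μ) := by
      rw [div_eq_mul_inv, ← Real.rpow_neg hB0.le]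
      apply mul_le_mul_of_nonneg_left _ (by positivity)
      exact Real.rpow_le_rpow_of_exponent_le hB1 (by have := min_le_right ε θ; linarith)
    calc 8 * (K : ℝ) ^ 3 / B + 4 * (K : ℝ) ^ 2 / (B : ℝ) ^ θ
        = 8 * ((K : ℝ) ^ 3 / B) + 4 * ((K : ℝ) ^ 2 / (B : ℝ) ^ θ) := by ring
      _ ≤ _ := by linarith
  have hlog0 : 0 ≤ 1 + Real.log B := by
    have := Real.log_nonneg hB1
    linarith
  have h6 : (8 * (K : ℝ) ^ 3 / B + 4 * (K : ℝ) ^ 2 / (B : ℝ) ^ θ) * (1 + Real.log B) ≤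
      (12 * (K : ℝ) ^ 2 * (B : ℝ) ^ (-μ)) * ((1 + 4 / μ) * (B : ℝ) ^ (μ / 4)) :=
    mul_le_mul hKK hlog hlog0 (by positivity)
  refine (mul_le_mul_of_nonneg_left h6 hA0).trans (le_of_eq ?_)
  have e7 : (B : ℝ) ^ (μ / 4) * ((B : ℝ) ^ (-μ) * (B : ℝ) ^ (μ / 4)) = (B : ℝ) ^ (-(μ / 2)) := by
    rw [← Real.rpow_add hB0, ← Real.rpow_add hB0]
    congr 1
    ring
  rw [← e7]
  ring

end Pool.Agent.W815.RGE
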