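import Pool.Agent.W815.RGC.StmG
import Pool.Agent.W815.RGC.Sec

set_option autoImplicit false

/-!
# Project RGE, part SPLIT
-/

namespace Pool.Agent.W815.RGE

open Finset MeasureTheory Filter Topology Pool.Agent.Helper497.HS Pool.Agent.H595R2.PTF
open Pool.Agent.W815.RGC

namespace SP

lemma prod_secS (M n : ℕ) (hn : n < M) (hs : Squarefree n) : ∏ p ∈ secS M n, (p : ℕ) = n := by
  classical
  conv_rhs => rw [← Nat.prod_primeFactors_of_squarefree hs]
  refine Finset.prod_bij (fun (i : Fin M) _ => (i : ℕ)) ?_ ?_ ?_ ?_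
  · intro i hi
    exact (Finset.mem_filter.1 hi).2
  · intro i _ j _ hij
    exact Fin.ext hij
  · intro p hp
    have hpM : p < M := lt_of_le_of_lt (Nat.le_of_mem_primeFactors hp) hn
    exact ⟨⟨p, hpM⟩, Finset.mem_filter.2 ⟨Finset.mem_univ _, hp⟩, rfl⟩
  · intro i _
    rfl

lemma key (M : ℕ) {κ : Type} [DecidableEq κ] (n : κ → ℕ) (s : Finset κ) (hM : ∀ k ∈ s, n k < M)
    (hs : ∀ k ∈ s, Squarefree (n k)) : ∃ T : Finset (Fin M),
      (∀ x, ∏ k ∈ s, chi (secS M (n k)) x = chi T x) ∧
      IsSquare ((∏ k ∈ s, n k) * ∏ p ∈ T, (p : ℕ)) := by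
  induction s using Finset.induction_on with
  | empty => exact ⟨∅, fun x => by simp [chi], by simp⟩
  | insert k s hk ih =>
    obtain ⟨T, h1, r, hr⟩ := ih (fun k' h' => hM k' (Finset.mem_insert_of_mem h'))
      (fun k' h' => hs k' (Finset.mem_insert_of_mem h'))
    have hkM := hM k (Finset.mem_insert_self _ _)
    have hks := hs k (Finset.mem_insert_self _ _)
    refine ⟨symmDiff (secS M (n k)) T, fun x => ?_, r * ∏ p ∈ secS M (n k) \ T, (p : ℕ), ?_⟩
    · rw [Finset.prod_insert hk, h1, chi_mul_chi]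
    · rw [Finset.prod_insert hk]
      have hS : ∏ p ∈ secS M (n k), (p : ℕ) =
          (∏ p ∈ secS M (n k) \ T, (p : ℕ)) * ∏ p ∈ secS M (n k) ∩ T, (p : ℕ) := by
        rw [← Finset.prod_union (Finset.disjoint_sdiff_inter _ _), Finset.sdiff_union_inter]
      have hT : ∏ p ∈ T, (p : ℕ) =
          (∏ p ∈ T \ secS M (n k), (p : ℕ)) * ∏ p ∈ secS M (n k) ∩ T, (p : ℕ) := by
        rw [Finset.inter_comm, ← Finset.prod_union (Finset.disjoint_sdiff_inter _ _),
          Finset.sdiff_union_inter]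
      have hd : ∏ p ∈ symmDiff (secS M (n k)) T, (p : ℕ) =
          (∏ p ∈ secS M (n k) \ T, (p : ℕ)) * ∏ p ∈ T \ secS M (n k), (p : ℕ) := by
        rw [← Finset.prod_union disjoint_sdiff_sdiff]
        rfl
      rw [prod_secS M (n k) hkM hks] at hS
      rw [hT] at hr
      rw [hd]
      calc n k * (∏ k ∈ s, n k) * ((∏ p ∈ secS M (n k) \ T, (p : ℕ)) *
            ∏ p ∈ T \ secS M (n k), (p : ℕ))
          = ((∏ p ∈ secS M (n k) \ T, (p : ℕ)) * ∏ p ∈ secS M (n k) ∩ T, (p : ℕ)) *
            (∏ k ∈ s, n k) * ((∏ p ∈ secS M (n k) \ T, (p : ℕ)) *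
            ∏ p ∈ T \ secS M (n k), (p : ℕ)) := by
            rw [← hS]
        _ = ((∏ k ∈ s, n k) * ((∏ p ∈ T \ secS M (n k), (p : ℕ)) *
              ∏ p ∈ secS M (n k) ∩ T, (p : ℕ))) * ((∏ p ∈ secS M (n k) \ T, (p : ℕ)) *
              ∏ p ∈ secS M (n k) \ T, (p : ℕ)) := by
            ring
        _ = _ := by
            rw [hr]; ring

lemma EE (M : ℕ) {κ : Type} [Fintype κ] [DecidableEq κ] (n : κ → ℕ) (hM : ∀ k, n k < M) :
    0 ≤ Ex (fun x : Fin M → ℤˣ => ∏ k, cf M x (n k)) ∧
    (Ex (fun x : Fin M → ℤˣ => ∏ k, cf M x (n k)) ≠ 0 →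
      (∀ k, Squarefree (n k)) ∧ IsSquare (∏ k, n k)) := by
  classical
  by_cases hs : ∀ k, Squarefree (n k)
  · obtain ⟨T, h1, h2⟩ := key M n univ (fun k _ => hM k) (fun k _ => hs k)
    have h3 : (fun x : Fin M → ℤˣ => ∏ k, cf M x (n k)) = fun x => chi T x := by
      funext x
      rw [← h1 x]
      refine Finset.prod_congr rfl fun k _ => ?_
      show rf (ext M x) (n k) = _
      rw [sec_rf_eq M (n k) (hM k) x, if_pos (hs k)]
    rw [h3, Ex_chi_eq]
    constructor
    · split_ifs <;> norm_num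
    · intro h
      have hT : T = ∅ := by
        by_contra hne
        rw [if_neg hne] at h
        exact h rfl
      refine ⟨hs, ?_⟩
      rw [hT] at h2
      simpa using h2
  · push Not at hs
    obtain ⟨k, hk⟩ := hs
    have h3 : (fun x : Fin M → ℤˣ => ∏ k, cf M x (n k)) = fun _ => 0 := by
      funext x
      refine Finset.prod_eq_zero (Finset.mem_univ k) ?_
      show rf (ext M x) (n k) = 0
      unfold rf
      rw [if_neg hk]
    rw [h3]
    have h0 : Ex (fun _ : Fin M → ℤˣ => (0 : ℝ)) = 0 := by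
      rw [Ex_const]
    rw [h0]
    exact ⟨le_refl _, fun h => absurd rfl h⟩

lemma expand {κ : Type} [Fintype κ] [DecidableEq κ] (t : κ → Finset ℕ) (g : ℕ → ℝ) (p q : κ)
    (hpq : p ≠ q) (P : ℕ → ℕ → Prop) [∀ n m, Decidable (P n m)] :
    ∑ w ∈ Fintype.piFinset t, (if P (w p) (w q) then ∏ i, g (w i) else 0) =
      (∑ n ∈ t p, ∑ m ∈ t q, if P n m then g n * g m else 0) *
        ∏ i ∈ univ.filter (fun i => i ≠ p ∧ i ≠ q), ∑ n ∈ t i, g n := by
  classical
  have h1 : ∀ n ∈ t p, ∀ m ∈ t q, g n * g m *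
      ∏ i ∈ univ.filter (fun i => i ≠ p ∧ i ≠ q), ∑ n ∈ t i, g n =
      ∑ w ∈ Fintype.piFinset t, if w p = n ∧ w q = m then ∏ i, g (w i) else 0 := by
    intro n hn m hm
    set h : κ → ℕ → ℝ := fun i k =>
      if i = p then (if k = n then g k else 0) else if i = q then (if k = m then g k else 0)
        else g k with hh
    have e1 : ∏ i, ∑ k ∈ t i, h i k = g n * g m *
        ∏ i ∈ univ.filter (fun i => i ≠ p ∧ i ≠ q), ∑ n ∈ t i, g n := by
      have e2 : ∀ i, ∑ k ∈ t i, h i k = (if i = p then g n else 1) * (if i = q then g m else 1) *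
          (if i ≠ p ∧ i ≠ q then ∑ k ∈ t i, g k else 1) := by
        intro i
        simp only [hh]
        by_cases h1 : i = p
        · subst h1
          have : i ≠ q := hpq
          simp [this, hn]
        · by_cases h2 : i = q
          · subst h2
            simp [h1, hm]
          · simp [h1, h2]
      rw [Finset.prod_congr rfl (fun i _ => e2 i), Finset.prod_mul_distrib,
        Finset.prod_mul_distrib, Finset.prod_ite_eq' univ p, Finset.prod_ite_eq' univ q,
        ← Finset.prod_filter]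
      simp
    rw [← e1, Finset.prod_univ_sum]
    refine Finset.sum_congr rfl fun w _ => ?_
    by_cases hc : w p = n ∧ w q = m
    · rw [if_pos hc]
      refine Finset.prod_congr rfl fun i _ => ?_
      simp only [hh]
      by_cases h1 : i = p
      · subst h1; simp [hc.1]
      · by_cases h2 : i = q
        · subst h2; simp [h1, hc.2]
        · simp [h1, h2]
    · rw [if_neg hc]
      rw [not_and_or] at hc
      rcases hc with hc | hc
      · refine Finset.prod_eq_zero (Finset.mem_univ p) ?_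
        simp [hh, hc]
      · refine Finset.prod_eq_zero (Finset.mem_univ q) ?_
        simp [hh, hc, Ne.symm hpq]
  rw [Finset.sum_mul]
  have h2 : ∀ n ∈ t p, (∑ m ∈ t q, if P n m then g n * g m else 0) *
      ∏ i ∈ univ.filter (fun i => i ≠ p ∧ i ≠ q), ∑ n ∈ t i, g n =
      ∑ m ∈ t q, ∑ w ∈ Fintype.piFinset t,
        if P n m then (if w p = n ∧ w q = m then ∏ i, g (w i) else 0) else 0 := by
    intro n hn
    rw [Finset.sum_mul]
    refine Finset.sum_congr rfl fun m hm => ?_
    by_cases hP : P n m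
    · simp only [hP, if_true]
      exact h1 n hn m hm
    · simp [hP]
  rw [Finset.sum_congr rfl h2]
  have h3 : ∀ n ∈ t p, (∑ m ∈ t q, ∑ w ∈ Fintype.piFinset t,
        if P n m then (if w p = n ∧ w q = m then ∏ i, g (w i) else 0) else 0) =
      ∑ w ∈ Fintype.piFinset t, if w p = n then
        (if P n (w q) then ∏ i, g (w i) else 0) else 0 := by
    intro n hn
    rw [Finset.sum_comm]
    refine Finset.sum_congr rfl fun w hw => ?_
    have hwq : w q ∈ t q := (Fintype.mem_piFinset.1 hw) q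
    rw [Finset.sum_eq_single (w q)]
    · by_cases h4 : w p = n
      · simp [h4]
      · simp [h4]
    · intro m _ hm
      have : ¬ (w p = n ∧ w q = m) := fun h => hm h.2.symm
      simp [this]
    · intro h; exact absurd hwq h
  rw [Finset.sum_congr rfl h3, Finset.sum_comm]
  refine Finset.sum_congr rfl fun w hw => ?_
  have hwp : w p ∈ t p := (Fintype.mem_piFinset.1 hw) p
  rw [Finset.sum_eq_single (w p)]
  · simp
  · intro n _ hn
    have : ¬ (w p = n) := fun h => hn h.symm
    simp [this]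
  · intro h; exact absurd hwp h

lemma Ex_expand (M : ℕ) {κ : Type} [Fintype κ] [DecidableEq κ] (t : κ → Finset ℕ) (p q : κ)
    (hpq : p ≠ q) (P : ℕ → ℕ → Prop) [∀ n m, Decidable (P n m)] :
    ∑ w ∈ Fintype.piFinset t,
      (if P (w p) (w q) then Ex (fun x : Fin M → ℤˣ => ∏ i, cf M x (w i)) else 0) =
      Ex (fun x : Fin M → ℤˣ =>
        (∑ n ∈ t p, ∑ m ∈ t q, if P n m then cf M x n * cf M x m else 0) *
        ∏ i ∈ univ.filter (fun i => i ≠ p ∧ i ≠ q), ∑ n ∈ t i, cf M x n) := by
  have h1 : ∀ x : Fin M → ℤˣ, (∑ n ∈ t p, ∑ m ∈ t q, if P n m then cf M x n * cf M x m else 0) *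
        ∏ i ∈ univ.filter (fun i => i ≠ p ∧ i ≠ q), ∑ n ∈ t i, cf M x n =
      ∑ w ∈ Fintype.piFinset t, (if P (w p) (w q) then ∏ i, cf M x (w i) else 0) := fun x =>
    (expand t (cf M x) p q hpq P).symm
  rw [Ex_congr h1, Ex_sum]
  refine Finset.sum_congr rfl fun w _ => ?_
  by_cases h : P (w p) (w q)
  · simp only [h, if_true]
  · simp only [h, if_false]
    rw [Ex_const]

lemma prodA (J : ℕ) (l : Fin (J + 1)) (hl : l ≠ 0) (A B : ℝ) :
    ∏ i ∈ univ.filter (fun i : Fin (J + 1) ⊕ Fin (J + 1) => i ≠ Sum.inl 0 ∧ i ≠ Sum.inl l),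
      (Sum.elim (fun _ => A) (fun _ => B) i : ℝ) = A ^ (J - 1) * B ^ (J + 1) := by
  rw [Finset.prod_filter, Fintype.prod_sum_type]
  congr 1
  · simp only [ne_eq, Sum.inl.injEq, Sum.elim_inl]
    rw [← Finset.prod_filter, Finset.prod_const]
    congr 1
    have : (univ.filter (fun i : Fin (J + 1) => ¬ i = 0 ∧ ¬ i = l)) = (univ.erase 0).erase l := by
      ext i
      simp only [Finset.mem_filter, Finset.mem_univ, true_and, Finset.mem_erase, and_true]
      tauto
    rw [this, Finset.card_erase_of_mem (by simp [hl]), Finset.card_erase_of_mem (by simp)]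
    simp
  · simp

lemma prodB (J : ℕ) (l : Fin (J + 1)) (A B : ℝ) :
    ∏ i ∈ univ.filter (fun i : Fin (J + 1) ⊕ Fin (J + 1) => i ≠ Sum.inl 0 ∧ i ≠ Sum.inr l),
      (Sum.elim (fun _ => A) (fun _ => B) i : ℝ) = A ^ J * B ^ J := by
  rw [Finset.prod_filter, Fintype.prod_sum_type]
  congr 1
  · simp only [ne_eq, Sum.inl.injEq, Sum.elim_inl, reduceCtorEq, not_false_eq_true, and_true]
    rw [← Finset.prod_filter, Finset.prod_const]
    congr 1
    have : (univ.filter (fun i : Fin (J + 1) => ¬ i = 0)) = univ.erase 0 := by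
      ext i
      simp
    rw [this, Finset.card_erase_of_mem (by simp)]
    simp
  · simp only [ne_eq, Sum.inr.injEq, Sum.elim_inr, reduceCtorEq, not_false_eq_true, true_and]
    rw [← Finset.prod_filter, Finset.prod_const]
    congr 1
    have : (univ.filter (fun i : Fin (J + 1) => ¬ i = l)) = univ.erase l := by
      ext i
      simp
    rw [this, Finset.card_erase_of_mem (by simp)]
    simp

end SP

open SP in
theorem split : SSplit := by
  classical
  intro hG M J B a b K hB hBa hBb haM hbM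
  set G : ℝ := (B : ℝ) ^ (1 / (2 * (J : ℝ) + 1)) with hGdef
  set t : Fin (J + 1) ⊕ Fin (J + 1) → Finset ℕ :=
    Sum.elim (fun _ => Ioc a (a + K)) (fun _ => Ioc b (b + K)) with ht
  set X : ℝ := Ex (fun x : Fin M → ℤˣ => Gs (cf M x) G a K *
      (W (cf M x) a K ^ (J - 1) * W (cf M x) b K ^ (J + 1))) with hX
  set Y : ℝ := Ex (fun x : Fin M → ℤˣ => Gc (cf M x) G a b K *
      (W (cf M x) a K ^ J * W (cf M x) b K ^ J)) with hY
  set E : (Fin (J + 1) ⊕ Fin (J + 1) → ℕ) → ℝ := fun w =>
    Ex (fun x : Fin M → ℤˣ => ∏ k, cf M x (w k)) with hE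
  set Q : Fin (J + 1) ⊕ Fin (J + 1) → ℕ → ℕ → Prop := fun k n m =>
    (k.isLeft = true → n ≠ m) ∧ G ≤ (n.gcd m : ℝ) with hQ
  -- membership
  have htM : ∀ w ∈ Fintype.piFinset t, ∀ k, w k < M := by
    intro w hw k
    have := Fintype.mem_piFinset.1 hw k
    rcases k with k | k
    · simp only [ht, Sum.elim_inl, Finset.mem_Ioc] at this
      omega
    · simp only [ht, Sum.elim_inr, Finset.mem_Ioc] at this
      omega
  have htB : ∀ w ∈ Fintype.piFinset t, ∀ k, B ≤ w k := by
    intro w hw k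
    have := Fintype.mem_piFinset.1 hw k
    rcases k with k | k
    · simp only [ht, Sum.elim_inl, Finset.mem_Ioc] at this
      omega
    · simp only [ht, Sum.elim_inr, Finset.mem_Ioc] at this
      omega
  have hE0 : ∀ w ∈ Fintype.piFinset t, 0 ≤ E w := fun w hw => (EE M w (htM w hw)).1
  -- the pairs of embeddings
  let wz : (Fin (J + 1) ↪ {n // n ∈ Ioc a (a + K)}) × (Fin (J + 1) ↪ {n // n ∈ Ioc b (b + K)}) →
      (Fin (J + 1) ⊕ Fin (J + 1) → ℕ) := fun z =>
    Sum.elim (fun i => ((z.1 i : {n // n ∈ Ioc a (a + K)}) : ℕ))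
      (fun i => ((z.2 i : {n // n ∈ Ioc b (b + K)}) : ℕ))
  have hwz : ∀ z, wz z ∈ Fintype.piFinset t := by
    intro z
    rw [Fintype.mem_piFinset]
    intro k
    rcases k with k | k
    · exact (z.1 k).2
    · exact (z.2 k).2
  have hinj : Function.Injective wz := by
    intro z z' h
    apply Prod.ext
    · ext i
      exact congrFun h (Sum.inl i)
    · ext i
      exact congrFun h (Sum.inr i)
  have hL : Ex (fun x : Fin M → ℤˣ => S (cf M x) (J + 1) a K * S (cf M x) (J + 1) b K) =
      ∑ z, E (wz z) := by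
    have h1 : ∀ x : Fin M → ℤˣ, S (cf M x) (J + 1) a K * S (cf M x) (J + 1) b K =
        ∑ z, ∏ k, cf M x (wz z k) := by
      intro x
      unfold S
      rw [Finset.sum_mul_sum, ← Finset.univ_product_univ, Finset.sum_product]
      refine Finset.sum_congr rfl fun u _ => Finset.sum_congr rfl fun v _ => ?_
      rw [Fintype.prod_sum_type]
      rfl
    rw [Ex_congr h1, Ex_sum]
  rw [hL]
  -- the gcd step
  have hstep : ∀ z, E (wz z) ≤ ∑ k ∈ univ.erase (Sum.inl 0),
      if Q k (wz z (Sum.inl 0)) (wz z k) then E (wz z) else 0 := by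
    intro z
    have hz := hwz z
    have h0 := hE0 _ hz
    have hnn : ∀ k ∈ univ.erase (Sum.inl 0), (0 : ℝ) ≤
        if Q k (wz z (Sum.inl 0)) (wz z k) then E (wz z) else 0 := by
      intro k _
      split_ifs
      · exact h0
      · exact le_refl _
    by_cases hne : E (wz z) = 0
    · rw [hne]
      have := Finset.sum_nonneg hnn
      rw [hne] at this
      exact this
    · obtain ⟨hsq, hs2⟩ := (EE M (wz z) (htM _ hz)).2 hne
      let e : Fin (2 * J + 2) ≃ Fin (J + 1) ⊕ Fin (J + 1) :=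
        (finCongr (by omega)).trans finSumFinEquiv.symm
      have hprod : ∏ i, wz z (e i) = ∏ k, wz z k := e.prod_comp (fun k => wz z k)
      obtain ⟨l, hl, hg⟩ := hG (2 * J) B (fun i => wz z (e i)) hB (fun i => htB _ hz _)
        (fun i => hsq _) (by rw [hprod]; exact hs2) (e.symm (Sum.inl 0))
      have hk : e l ≠ Sum.inl 0 := by
        intro h
        apply hl
        rw [← h, Equiv.symm_apply_apply]
      have hg' : G ≤ ((wz z (Sum.inl 0)).gcd (wz z (e l)) : ℝ) := by
        have h5 : e (e.symm (Sum.inl 0)) = Sum.inl 0 := e.apply_symm_apply _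
        simp only [h5] at hg
        rw [hGdef]
        push_cast at hg
        exact hg
      have hQk : Q (e l) (wz z (Sum.inl 0)) (wz z (e l)) := by
        refine ⟨?_, hg'⟩
        intro hleft heq
        revert hk hleft heq
        generalize e l = k
        intro hk hleft heq
        rcases k with k | k
        · apply hk
          have h6 : z.1 0 = z.1 k := Subtype.ext heq
          rw [z.1.injective h6]
        · simp at hleft
      have := Finset.single_le_sum hnn (Finset.mem_erase.2 ⟨hk, Finset.mem_univ _⟩)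
      rw [if_pos hQk] at this
      exact this
  have hsum : ∑ z, E (wz z) ≤ ∑ k ∈ univ.erase (Sum.inl 0),
      ∑ z, if Q k (wz z (Sum.inl 0)) (wz z k) then E (wz z) else 0 := by
    rw [Finset.sum_comm]
    exact Finset.sum_le_sum fun z _ => hstep z
  have hk : ∀ k ∈ univ.erase (Sum.inl 0),
      (∑ z, if Q k (wz z (Sum.inl 0)) (wz z k) then E (wz z) else 0) ≤
      (Sum.elim (fun _ => X) (fun _ => Y) k : ℝ) := by
    intro k hk
    have hk' : Sum.inl 0 ≠ k := (Finset.mem_erase.1 hk).1.symm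
    have h1 : (∑ z, if Q k (wz z (Sum.inl 0)) (wz z k) then E (wz z) else 0) ≤
        ∑ w ∈ Fintype.piFinset t, if Q k (w (Sum.inl 0)) (w k) then E w else 0 := by
      have h2 : (∑ z, if Q k (wz z (Sum.inl 0)) (wz z k) then E (wz z) else 0) =
          ∑ w ∈ univ.image wz, if Q k (w (Sum.inl 0)) (w k) then E w else 0 := by
        rw [Finset.sum_image (fun z _ z' _ h => hinj h)]
      rw [h2]
      refine Finset.sum_le_sum_of_subset_of_nonneg ?_ ?_
      · intro w hw
        obtain ⟨z, _, rfl⟩ := Finset.mem_image.1 hw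
        exact hwz z
      · intro w hw _
        split_ifs
        · exact hE0 w hw
        · exact le_refl _
    refine h1.trans (le_of_eq ?_)
    rw [hE]
    rw [Ex_expand M t (Sum.inl 0) k hk' (Q k)]
    have hW : ∀ (x : Fin M → ℤˣ) (i : Fin (J + 1) ⊕ Fin (J + 1)), ∑ n ∈ t i, cf M x n =
        Sum.elim (fun _ => W (cf M x) a K) (fun _ => W (cf M x) b K) i := by
      intro x i
      rcases i with i | i <;> rfl
    rcases k with k | k
    · have hk0 : k ≠ 0 := by
        intro h
        apply hk'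
        rw [h]
      rw [Sum.elim_inl, hX]
      refine Ex_congr fun x => ?_
      rw [Finset.prod_congr rfl (fun i _ => hW x i), prodA J k hk0]
      congr 1
      unfold Gs
      refine Finset.sum_congr rfl fun n _ => Finset.sum_congr rfl fun m _ => ?_
      simp [hQ]
    · rw [Sum.elim_inr, hY]
      refine Ex_congr fun x => ?_
      rw [Finset.prod_congr rfl (fun i _ => hW x i), prodB J k]
      congr 1
      unfold Gc
      refine Finset.sum_congr rfl fun n _ => Finset.sum_congr rfl fun m _ => ?_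
      simp [hQ]
  refine hsum.trans ((Finset.sum_le_sum hk).trans (le_of_eq ?_))
  rw [Finset.sum_erase_eq_sub (Finset.mem_univ _), Fintype.sum_sum_type]
  simp only [Sum.elim_inl, Sum.elim_inr, Finset.sum_const, Finset.card_univ, Fintype.card_fin,
    nsmul_eq_mul]
  push_cast
  ring

end Pool.Agent.W815.RGE
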