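import Pool.Agent.W815.RGC.Stm

set_option autoImplicit false

/-!
# The law of finitely many independent signs is uniform on the cube
-/

namespace Pool.Agent.W815.RGC.Law2

open Finset MeasureTheory Filter Topology Pool.Agent.Helper497.HS Pool.Agent.H595R2.PTF

theorem meas_units (s : Set ℤˣ) : MeasurableSet s := by
  refine ⟨Units.val '' s, trivial, ?_⟩
  exact Set.preimage_image_eq s Units.val_injective

theorem half_all {Ω : Type} [MeasurableSpace Ω] {μ : Measure Ω} [IsProbabilityMeasure μ]
    {e : ℕ → Ω → ℤˣ} (h : IsSigns μ e) (p : ℕ) (u : ℤˣ) : μ (e p ⁻¹' {u}) = 1 / 2 := by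
  rcases Int.units_eq_one_or u with rfl | rfl
  · exact h.half p
  · have h1 : e p ⁻¹' {-1} = (e p ⁻¹' {1})ᶜ := by
      ext ω
      simp only [Set.mem_preimage, Set.mem_singleton_iff, Set.mem_compl_iff]
      rcases Int.units_eq_one_or (e p ω) with h2 | h2 <;> rw [h2] <;> decide
    rw [h1, prob_compl_eq_one_sub (h.meas p (meas_units _)), h.half p]
    rw [one_div, ENNReal.one_sub_inv_two]

theorem law : SLaw := by
  classical
  intro Ω _ μ _ e h M A
  let g : Ω → (Fin M → ℤˣ) := fun ω (i : Fin M) => e (i : ℕ) ω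
  have hgo : ∀ ω x, g ω = x ↔ ∀ i : Fin M, e (i : ℕ) ω = x i := fun ω x => funext_iff
  have hpre : ∀ x : Fin M → ℤˣ, g ⁻¹' {x} = ⋂ i ∈ (univ : Finset (Fin M)), e i ⁻¹' {x i} := by
    intro x
    ext ω
    simp only [Set.mem_preimage, Set.mem_singleton_iff, Set.mem_iInter, mem_univ,
      forall_true_left]
    exact hgo ω x
  have hmeas : ∀ x : Fin M → ℤˣ, MeasurableSet (g ⁻¹' {x}) := by
    intro x
    rw [hpre]
    exact Finset.measurableSet_biInter _ fun i _ => h.meas i (meas_units _)
  have hind : ProbabilityTheory.iIndepFun (fun i : Fin M => e i) μ :=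
    h.ind.precomp Fin.val_injective
  have hone : ∀ x : Fin M → ℤˣ, μ (g ⁻¹' {x}) = (1 / 2) ^ M := by
    intro x
    rw [hpre, hind.measure_inter_preimage_eq_mul univ (fun i _ => meas_units _)]
    simp only [half_all h, prod_const, card_univ, Fintype.card_fin]
  have hset : {ω | A (fun i => e i ω)} = ⋃ x ∈ univ.filter A, g ⁻¹' {x} := by
    ext ω
    simp only [mem_filter, mem_univ, true_and, Set.mem_iUnion,
      Set.mem_preimage, Set.mem_singleton_iff, exists_prop, exists_eq_right']
    exact Iff.rfl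
  rw [hset, measure_biUnion_finset _ fun x _ => hmeas x]
  · simp only [hone, sum_const, nsmul_eq_mul]
    rw [Pr_eq, Ex]
    have h1 : (∑ ω : Fin M → ℤˣ, if A ω then (1 : ℝ) else 0) = ((univ.filter A).card : ℝ) := by
      rw [← sum_filter]
      simp
    have h2 : (Fintype.card (Fin M → ℤˣ) : ℝ) = 2 ^ M := by
      rw [Fintype.card_pi]
      simp
    rw [h1, h2, ENNReal.ofReal_div_of_pos (by positivity), ENNReal.ofReal_natCast,
      ENNReal.ofReal_pow (by norm_num), ENNReal.ofReal_ofNat, one_div, ← ENNReal.inv_pow,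
      div_eq_mul_inv]
  · intro x _ y _ hxy
    refine Set.disjoint_left.2 fun ω h1 h2 => hxy ?_
    rw [Set.mem_preimage, Set.mem_singleton_iff] at h1 h2
    exact h1.symm.trans h2

end Pool.Agent.W815.RGC.Law2
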