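import Pool.Agent.W815.RGC.Stm

set_option autoImplicit false

/-! Project RGC (helper815): second moment of the off-diagonal part (by helper131). -/

namespace Pool.Agent.W815.RGC

open Finset Pool.Agent.Helper497.HS Pool.Agent.H595R2.PTF

namespace Sec2

/-- the prime factors of `n` as a subset of the cube coordinates -/
def SF (M n : ℕ) : Finset (Fin M) := univ.filter (fun i => (i : ℕ) ∈ n.primeFactors)

open scoped Classical in
/-- indicator of the squarefree numbers -/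
noncomputable def sf (n : ℕ) : ℝ := if Squarefree n then 1 else 0

theorem sf_nonneg (n : ℕ) : 0 ≤ sf n := by
  unfold sf
  split_ifs <;> norm_num

theorem sf_le (n : ℕ) : sf n ≤ 1 := by
  unfold sf
  split_ifs <;> norm_num

theorem sf_sq (n : ℕ) : sf n * sf n = sf n := by
  unfold sf
  split_ifs <;> norm_num

theorem sf_ne {n : ℕ} (h : sf n ≠ 0) : Squarefree n := by
  unfold sf at h
  split_ifs at h with h1
  · exact h1
  · exact absurd rfl h

theorem mem_SF {M n : ℕ} {i : Fin M} : i ∈ SF M n ↔ (i : ℕ) ∈ n.primeFactors := by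
  unfold SF
  rw [mem_filter]
  exact ⟨fun h => h.2, fun h => ⟨mem_univ _, h⟩⟩

theorem pf_lt {n M p : ℕ} (hn : n < M) (hp : p ∈ n.primeFactors) : p < M :=
  (Nat.le_of_mem_primeFactors hp).trans_lt hn

theorem rf_eq {M : ℕ} (x : Fin M → ℤˣ) {n : ℕ} (hn : n < M) :
    rf (ext M x) n = sf n * chi (SF M n) x := by
  unfold rf sf
  by_cases h : Squarefree n
  · rw [if_pos h, if_pos h, one_mul]
    unfold chi
    symm
    apply Finset.prod_bij (fun (i : Fin M) _ => (i : ℕ))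
    · intro i hi
      exact mem_SF.1 hi
    · intro i _ j _ hij
      exact Fin.ext hij
    · intro p hp
      exact ⟨⟨p, pf_lt hn hp⟩, mem_SF.2 hp, rfl⟩
    · intro i _
      unfold sv ext
      rw [dif_pos i.2]
  · rw [if_neg h, if_neg h, zero_mul]

theorem sum_sq (I : Finset ℕ) (g : ℕ → ℝ) : (∑ n ∈ I, g n) ^ 2 =
    ∑ n ∈ I, g n * g n + 2 * ∑ q ∈ (I ×ˢ I).filter (fun q => q.1 < q.2), g q.1 * g q.2 := by
  rw [pow_two, Finset.sum_mul_sum, ← Finset.sum_product']
  have h1 := Finset.sum_filter_add_sum_filter_not (I ×ˢ I) (fun q => q.1 < q.2)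
    (fun q : ℕ × ℕ => g q.1 * g q.2)
  rw [← h1]
  have h2 := Finset.sum_filter_add_sum_filter_not ((I ×ˢ I).filter (fun q => ¬ q.1 < q.2))
    (fun q => q.2 < q.1) (fun q : ℕ × ℕ => g q.1 * g q.2)
  rw [← h2]
  have h3 : ∑ q ∈ ((I ×ˢ I).filter (fun q => ¬ q.1 < q.2)).filter (fun q => q.2 < q.1),
      g q.1 * g q.2 = ∑ q ∈ (I ×ˢ I).filter (fun q => q.1 < q.2), g q.1 * g q.2 := by
    apply Finset.sum_bij (fun q _ => (q.2, q.1))
    · rintro ⟨a, b⟩ h
      rw [mem_filter, mem_filter, mem_product] at h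
      rw [mem_filter, mem_product]
      exact ⟨⟨h.1.1.2, h.1.1.1⟩, h.2⟩
    · rintro ⟨a, b⟩ _ ⟨c, d⟩ _ h
      have h4 : b = d := congrArg Prod.fst h
      have h5 : a = c := congrArg Prod.snd h
      rw [h4, h5]
    · rintro ⟨a, b⟩ h
      rw [mem_filter, mem_product] at h
      have h4 : a < b := h.2
      refine ⟨(b, a), ?_, rfl⟩
      rw [mem_filter, mem_filter, mem_product]
      exact ⟨⟨⟨h.1.2, h.1.1⟩, by show ¬ b < a; omega⟩, h4⟩
    · rintro ⟨a, b⟩ _
      exact mul_comm _ _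
  have h4 : ∑ q ∈ ((I ×ˢ I).filter (fun q => ¬ q.1 < q.2)).filter (fun q => ¬ q.2 < q.1),
      g q.1 * g q.2 = ∑ n ∈ I, g n * g n := by
    symm
    apply Finset.sum_bij (fun n _ => (n, n))
    · intro n h
      rw [mem_filter, mem_filter, mem_product]
      exact ⟨⟨⟨h, h⟩, lt_irrefl n⟩, lt_irrefl n⟩
    · intro a _ b _ h
      exact congrArg Prod.fst h
    · rintro ⟨a, b⟩ h
      rw [mem_filter, mem_filter, mem_product] at h
      have h5 : ¬ a < b := h.1.2
      have h6 : ¬ b < a := h.2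
      have h7 : a = b := by omega
      subst h7
      exact ⟨a, h.1.1.1, rfl⟩
    · intro n _
      rfl
  rw [h3, h4]
  ring

/-- weight of a pair -/
def wt (B K : ℕ) (q : ℕ × ℕ) : ℕ := ((range B).filter (fun a => a < q.1 ∧ q.2 ≤ a + K)).card

theorem wt_le {B K : ℕ} {q : ℕ × ℕ} (h : q.1 < q.2) : wt B K q ≤ K := by
  unfold wt
  have h1 : (range B).filter (fun a => a < q.1 ∧ q.2 ≤ a + K) ⊆ Ico (q.2 - K) q.1 := by
    intro a ha
    rw [mem_filter] at ha
    rw [mem_Ico]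
    omega
  have h2 := Finset.card_le_card h1
  rw [Nat.card_Ico] at h2
  omega

/-- the coefficient of a pair -/
noncomputable def cf (B K : ℕ) (q : ℕ × ℕ) : ℝ := 2 * (wt B K q : ℝ) * (sf q.1 * sf q.2)

theorem cf_nonneg (B K : ℕ) (q : ℕ × ℕ) : 0 ≤ cf B K q := by
  unfold cf
  have h1 := sf_nonneg q.1
  have h2 := sf_nonneg q.2
  positivity

theorem cf_le {B K : ℕ} {q : ℕ × ℕ} (h : q.1 < q.2) : cf B K q ≤ 2 * K := by
  unfold cf
  have h1 := sf_nonneg q.1
  have h2 := sf_nonneg q.2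
  have h3 : sf q.1 * sf q.2 ≤ 1 := mul_le_one₀ (sf_le _) h2 (sf_le _)
  have h4 : (wt B K q : ℝ) ≤ K := by exact_mod_cast wt_le h
  calc 2 * (wt B K q : ℝ) * (sf q.1 * sf q.2) ≤ 2 * (wt B K q : ℝ) * 1 :=
        mul_le_mul_of_nonneg_left h3 (by positivity)
    _ ≤ 2 * K := by linarith

/-- the frequency of a pair -/
def TT (M : ℕ) (q : ℕ × ℕ) : Finset (Fin M) := symmDiff (SF M q.1) (SF M q.2)

theorem off_eq' (B K M : ℕ) (hM : M = B + K + 1) (x : Fin M → ℤˣ) :
    Off (rf (ext M x)) B K =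
      ∑ q ∈ PR (B + K) K, cf B K q * chi (TT M q) x := by
  set g : ℕ → ℝ := rf (ext M x) with hg
  have hlt : ∀ a ∈ range B, ∀ n ∈ Ioc a (a + K), n < M := by
    intro a ha n hn
    rw [mem_range] at ha
    rw [mem_Ioc] at hn
    omega
  have h1 : ∀ a ∈ range B, (W g a K) ^ 2 =
      ((Ioc a (a + K)).filter Squarefree).card +
        2 * ∑ q ∈ (PR (B + K) K).filter (fun q => a < q.1 ∧ q.2 ≤ a + K), g q.1 * g q.2 := by
    intro a ha
    unfold W
    rw [sum_sq]
    have h2 : ∑ n ∈ Ioc a (a + K), g n * g n = ((Ioc a (a + K)).filter Squarefree).card := by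
      have h3 : ∀ n ∈ Ioc a (a + K), g n * g n = if Squarefree n then 1 else 0 := by
        intro n hn
        rw [hg, rf_eq x (hlt a ha n hn)]
        have h4 : sf n * chi (SF M n) x * (sf n * chi (SF M n) x) =
          (sf n * sf n) * (chi (SF M n) x * chi (SF M n) x) := by ring
        rw [h4, sf_sq, chi_sq, mul_one]
        unfold sf
        by_cases h5 : Squarefree n
        · simp only [if_pos h5]
        · simp only [if_neg h5]
      rw [Finset.sum_congr rfl h3, ← Finset.sum_filter, Finset.sum_const, nsmul_eq_mul, mul_one]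
    have h3 : (Ioc a (a + K) ×ˢ Ioc a (a + K)).filter (fun q => q.1 < q.2) =
        (PR (B + K) K).filter (fun q => a < q.1 ∧ q.2 ≤ a + K) := by
      rw [mem_range] at ha
      ext ⟨n, m⟩
      unfold PR
      rw [mem_filter, mem_filter, mem_filter, mem_product, mem_product, mem_Ioc, mem_Ioc, mem_Icc,
        mem_Icc]
      show ((a < n ∧ n ≤ a + K) ∧ a < m ∧ m ≤ a + K) ∧ n < m ↔
        (((1 ≤ n ∧ n ≤ B + K) ∧ 1 ≤ m ∧ m ≤ B + K) ∧ n < m ∧ m < n + K) ∧ a < n ∧ m ≤ a + K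
      omega
    rw [h2, h3]
  unfold Off E
  rw [Finset.sum_congr rfl h1, Finset.sum_add_distrib]
  have h2 : ∑ a ∈ range B, (((Ioc a (a + K)).filter Squarefree).card : ℝ) = Dg B K := by
    unfold Dg
    refine Finset.sum_congr rfl fun a _ => ?_
    congr 2
  rw [h2, add_sub_cancel_left, ← Finset.mul_sum]
  have h3 : ∑ a ∈ range B, ∑ q ∈ (PR (B + K) K).filter (fun q => a < q.1 ∧ q.2 ≤ a + K),
      g q.1 * g q.2 = ∑ q ∈ PR (B + K) K, (wt B K q : ℝ) * (g q.1 * g q.2) := by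
    have h4 : ∀ a ∈ range B, ∑ q ∈ (PR (B + K) K).filter (fun q => a < q.1 ∧ q.2 ≤ a + K),
      g q.1 * g q.2 = ∑ q ∈ PR (B + K) K, if a < q.1 ∧ q.2 ≤ a + K then g q.1 * g q.2 else 0 :=
      fun a _ => Finset.sum_filter _ _
    rw [Finset.sum_congr rfl h4, Finset.sum_comm]
    refine Finset.sum_congr rfl fun q _ => ?_
    rw [← Finset.sum_filter, Finset.sum_const, nsmul_eq_mul]
    rfl
  rw [h3, Finset.mul_sum]
  refine Finset.sum_congr rfl fun q hq => ?_
  unfold PR at hq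
  rw [mem_filter, mem_product, mem_Icc, mem_Icc] at hq
  have hq1 : q.1 < M := by omega
  have hq2 : q.2 < M := by omega
  rw [hg, rf_eq x hq1, rf_eq x hq2]
  unfold cf TT
  rw [← chi_mul_chi]
  ring

theorem off_eq (B K : ℕ) (x : Fin (B + K + 1) → ℤˣ) :
    Off (rf (ext (B + K + 1) x)) B K =
      ∑ q ∈ PR (B + K) K, cf B K q * chi (TT (B + K + 1) q) x :=
  off_eq' B K (B + K + 1) rfl x

theorem fc_off (B K : ℕ) (T : Finset (Fin (B + K + 1))) :
    fc (fun x : Fin (B + K + 1) → ℤˣ => Off (rf (ext (B + K + 1) x)) B K) T =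
      ∑ q ∈ PR (B + K) K, cf B K q * (if T = TT (B + K + 1) q then 1 else 0) := by
  have h1 : (fun x : Fin (B + K + 1) → ℤˣ => Off (rf (ext (B + K + 1) x)) B K) =
      fun x => ∑ q ∈ PR (B + K) K, cf B K q * chi (TT (B + K + 1) q) x := by
    funext x
    exact off_eq B K x
  rw [h1, fc_sum]
  refine Finset.sum_congr rfl fun q _ => ?_
  rw [fc_const_mul, fc_chi]

theorem gcd_div {n m : ℕ} (hn : Squarefree n) (hm : m ≠ 0) :
    n / n.gcd m = ∏ p ∈ n.primeFactors \ m.primeFactors, p := by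
  have hn0 : n ≠ 0 := hn.ne_zero
  have hg : Squarefree (n.gcd m) := hn.squarefree_of_dvd (Nat.gcd_dvd_left n m)
  have h1 : (∏ p ∈ n.primeFactors ∩ m.primeFactors, p) = n.gcd m := by
    rw [← Nat.primeFactors_gcd hn0 hm]
    exact Nat.prod_primeFactors_of_squarefree hg
  have h2 : (∏ p ∈ n.primeFactors ∩ m.primeFactors, p) *
      ∏ p ∈ n.primeFactors \ m.primeFactors, p = ∏ p ∈ n.primeFactors, p :=
    Finset.prod_inter_mul_prod_sdiff _ _ _
  rw [h1, Nat.prod_primeFactors_of_squarefree hn] at h2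
  have h3 : 0 < n.gcd m := Nat.gcd_pos_of_pos_left m (Nat.pos_of_ne_zero hn0)
  exact Nat.div_eq_of_eq_mul_right h3 h2.symm

theorem kap_eq {M : ℕ} {q : ℕ × ℕ} (h1 : Squarefree q.1) (h2 : Squarefree q.2) (hq1 : q.1 < M)
    (hq2 : q.2 < M) : kap q = ∏ p ∈ (TT M q).image (fun i : Fin M => (i : ℕ)), p := by
  unfold kap
  have h3 : q.1.gcd q.2 = q.2.gcd q.1 := Nat.gcd_comm _ _
  rw [gcd_div h1 h2.ne_zero, h3, gcd_div h2 h1.ne_zero]
  have hd : Disjoint (q.1.primeFactors \ q.2.primeFactors)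
      (q.2.primeFactors \ q.1.primeFactors) := by
    rw [Finset.disjoint_left]
    intro x hx hy
    exact (Finset.mem_sdiff.1 hy).2 (Finset.mem_sdiff.1 hx).1
  rw [← Finset.prod_union hd]
  apply Finset.prod_congr _ (fun _ _ => rfl)
  ext p
  rw [mem_union, mem_sdiff, mem_sdiff, mem_image]
  unfold TT
  constructor
  · rintro (⟨h4, h5⟩ | ⟨h4, h5⟩)
    · refine ⟨⟨p, pf_lt hq1 h4⟩, ?_, rfl⟩
      rw [Finset.mem_symmDiff]
      exact Or.inl ⟨mem_SF.2 h4, fun h => h5 (mem_SF.1 h)⟩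
    · refine ⟨⟨p, pf_lt hq2 h4⟩, ?_, rfl⟩
      rw [Finset.mem_symmDiff]
      exact Or.inr ⟨mem_SF.2 h4, fun h => h5 (mem_SF.1 h)⟩
  · rintro ⟨i, h4, rfl⟩
    rw [Finset.mem_symmDiff] at h4
    rcases h4 with ⟨h4, h5⟩ | ⟨h4, h5⟩
    · exact Or.inl ⟨mem_SF.1 h4, fun h => h5 (mem_SF.2 h)⟩
    · exact Or.inr ⟨mem_SF.1 h4, fun h => h5 (mem_SF.2 h)⟩

theorem pair_le {B K : ℕ} {q r : ℕ × ℕ} (hq : q ∈ PR (B + K) K) (hr : r ∈ PR (B + K) K) :
    cf B K q * cf B K r * (if TT (B + K + 1) q = TT (B + K + 1) r then 1 else 0) ≤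
      4 * (K : ℝ) ^ 2 * (if kap r = kap q then 1 else 0) := by
  unfold PR at hq hr
  rw [mem_filter, mem_product, mem_Icc, mem_Icc] at hq hr
  have hq1 : q.1 < B + K + 1 := by omega
  have hq2 : q.2 < B + K + 1 := by omega
  have hr1 : r.1 < B + K + 1 := by omega
  have hr2 : r.2 < B + K + 1 := by omega
  have hrhs : (0 : ℝ) ≤ 4 * (K : ℝ) ^ 2 * (if kap r = kap q then 1 else 0) := by
    split_ifs <;> positivity
  by_cases hT : TT (B + K + 1) q = TT (B + K + 1) r
  · rw [if_pos hT, mul_one]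
    by_cases h0 : cf B K q * cf B K r = 0
    · rw [h0]
      exact hrhs
    · have hcq : cf B K q ≠ 0 := left_ne_zero_of_mul h0
      have hcr : cf B K r ≠ 0 := right_ne_zero_of_mul h0
      have hsq : sf q.1 * sf q.2 ≠ 0 := by
        intro h
        apply hcq
        unfold cf
        rw [h, mul_zero]
      have hsr : sf r.1 * sf r.2 ≠ 0 := by
        intro h
        apply hcr
        unfold cf
        rw [h, mul_zero]
      have hk : kap r = kap q := by
        rw [kap_eq (sf_ne (left_ne_zero_of_mul hsq)) (sf_ne (right_ne_zero_of_mul hsq)) hq1 hq2,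
          kap_eq (sf_ne (left_ne_zero_of_mul hsr)) (sf_ne (right_ne_zero_of_mul hsr)) hr1 hr2, hT]
      rw [if_pos hk, mul_one]
      have h1 := cf_le (B := B) (K := K) hq.2.1
      have h2 := cf_le (B := B) (K := K) hr.2.1
      have h3 := cf_nonneg B K q
      have h4 := cf_nonneg B K r
      have h5 : cf B K q * cf B K r ≤ (2 * K) * (2 * K) :=
        mul_le_mul h1 h2 h4 (by positivity)
      have h6 : (2 * (K : ℝ)) * (2 * K) = 4 * (K : ℝ) ^ 2 := by ring
      linarith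
  · rw [if_neg hT, mul_zero]
    exact hrhs

end Sec2

open Sec2 in
theorem sec : SSec := by
  intro B K
  rw [nsq_eq]
  have h1 : ∑ T, fc (fun x : Fin (B + K + 1) → ℤˣ => Off (rf (ext (B + K + 1) x)) B K) T ^ 2 =
      ∑ q ∈ PR (B + K) K, ∑ r ∈ PR (B + K) K,
        cf B K q * cf B K r * (if TT (B + K + 1) q = TT (B + K + 1) r then 1 else 0) := by
    have h2 : ∀ T : Finset (Fin (B + K + 1)),
        fc (fun x : Fin (B + K + 1) → ℤˣ => Off (rf (ext (B + K + 1) x)) B K) T ^ 2 =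
        ∑ q ∈ PR (B + K) K, ∑ r ∈ PR (B + K) K, (cf B K q * cf B K r) *
          ((if T = TT (B + K + 1) q then 1 else 0) * (if T = TT (B + K + 1) r then 1 else 0)) := by
      intro T
      rw [fc_off, pow_two, Finset.sum_mul_sum]
      refine Finset.sum_congr rfl fun q _ => Finset.sum_congr rfl fun r _ => ?_
      ring
    rw [Finset.sum_congr rfl fun T _ => h2 T, Finset.sum_comm]
    refine Finset.sum_congr rfl fun q _ => ?_
    rw [Finset.sum_comm]
    refine Finset.sum_congr rfl fun r _ => ?_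
    rw [← Finset.mul_sum]
    congr 1
    rw [Finset.sum_eq_single (TT (B + K + 1) q)]
    · rw [if_pos rfl, one_mul]
    · intro T _ hT
      rw [if_neg hT, zero_mul]
    · intro h
      exact absurd (mem_univ _) h
  rw [h1]
  have h3 : (4 * (K : ℝ) ^ 2 * (Npp (B + K) K : ℝ)) = ∑ q ∈ PR (B + K) K, ∑ r ∈ PR (B + K) K,
      4 * (K : ℝ) ^ 2 * (if kap r = kap q then 1 else 0) := by
    unfold Npp
    rw [Nat.cast_sum, Finset.mul_sum]
    refine Finset.sum_congr rfl fun q _ => ?_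
    rw [← Finset.mul_sum]
    congr 1
    rw [← Finset.sum_filter, Finset.sum_const, nsmul_eq_mul, mul_one]
  rw [h3]
  exact Finset.sum_le_sum fun q hq => Finset.sum_le_sum fun r hr => pair_le hq hr

end Pool.Agent.W815.RGC
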