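import Pool.Agent.W815.RGC.Stm
import Pool.Agent.H66R2.RZ_FI1

set_option autoImplicit false

namespace Pool.Agent.W815.RGC

open Finset Filter Topology

theorem sqf2_tail (D : ℕ) :
    |6 / Real.pi ^ 2 - ∑ d ∈ range (D + 1), Pool.Agent.H66R2.RZFI1.mu d / (d : ℝ) ^ 2| ≤
      2 / ((D : ℝ) + 1) := by
  have h1 : Tendsto (fun n : ℕ => ∑ d ∈ range n, Pool.Agent.H66R2.RZFI1.mu d / (d : ℝ) ^ 2)
      atTop (𝓝 (6 / Real.pi ^ 2)) := by
    rw [← Pool.Agent.H66R2.RZFI1.mu_tsum]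
    exact Pool.Agent.H66R2.RZFI1.mu_summable.hasSum.tendsto_sum_nat
  have h2 : Tendsto (fun n : ℕ => |∑ d ∈ range n, Pool.Agent.H66R2.RZFI1.mu d / (d : ℝ) ^ 2 -
      ∑ d ∈ range (D + 1), Pool.Agent.H66R2.RZFI1.mu d / (d : ℝ) ^ 2|)
      atTop (𝓝 |6 / Real.pi ^ 2 - ∑ d ∈ range (D + 1),
        Pool.Agent.H66R2.RZFI1.mu d / (d : ℝ) ^ 2|) := (h1.sub_const _).abs
  refine le_of_tendsto h2 ?_
  filter_upwards [eventually_ge_atTop (D + 1)] with n hn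
  rw [← Finset.sum_Ico_eq_sub _ hn]
  refine (Finset.abs_sum_le_sum_abs _ _).trans ?_
  have h3 : Finset.Ico (D + 1) n = Finset.Ioo D n := by
    ext i; simp only [Finset.mem_Ico, Finset.mem_Ioo]; omega
  rw [h3]
  refine le_trans ?_ (sum_Ioo_inv_sq_le D n)
  refine Finset.sum_le_sum fun i _ => ?_
  rw [abs_div, abs_of_nonneg (by positivity : (0 : ℝ) ≤ (i : ℝ) ^ 2), div_eq_mul_inv]
  have := Pool.Agent.H66R2.RZFI1.mu_abs i
  have h4 : (0 : ℝ) ≤ ((i : ℝ) ^ 2)⁻¹ := by positivity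
  nlinarith

theorem sqf2_count (N : ℕ) :
    ((open Classical in (Ioc 0 N).filter Squarefree).card : ℝ) =
      ∑ d ∈ range (Nat.sqrt N + 1), Pool.Agent.H66R2.RZFI1.mu d * ((N / d ^ 2 : ℕ) : ℝ) := by
  classical
  have h1 : ∀ n ∈ Ioc 0 N, (if Squarefree n then (1 : ℝ) else 0) =
      ∑ d ∈ range (Nat.sqrt N + 1), if d ^ 2 ∣ n then Pool.Agent.H66R2.RZFI1.mu d else 0 := by
    intro n hn
    rw [Finset.mem_Ioc] at hn
    have h := Pool.Agent.H66R2.RZFI1.mu_sq_eq n hn.1.ne'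
    have h2 : (∑' d : ℕ, if d ^ 2 ∣ n then Pool.Agent.H66R2.RZFI1.mu d else 0) =
        ∑ d ∈ range (Nat.sqrt N + 1), if d ^ 2 ∣ n then Pool.Agent.H66R2.RZFI1.mu d else 0 := by
      apply tsum_eq_sum
      intro d hd
      rw [if_neg]
      intro hdn
      apply hd
      rw [Finset.mem_range, Nat.lt_succ_iff, Nat.le_sqrt']
      exact (Nat.le_of_dvd hn.1 hdn).trans hn.2
    rw [← h2, ← h]
  have h0 : ((open Classical in (Ioc 0 N).filter Squarefree).card : ℝ) =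
      ∑ n ∈ Ioc 0 N, (if Squarefree n then (1 : ℝ) else 0) := by
    rw [Finset.card_filter]
    push_cast
    refine Finset.sum_congr rfl fun n _ => ?_
    by_cases hs : Squarefree n
    · simp [hs]
    · simp [hs]
  rw [h0, Finset.sum_congr rfl h1, Finset.sum_comm]
  refine Finset.sum_congr rfl fun d _ => ?_
  rw [← Finset.sum_filter, Finset.sum_const, nsmul_eq_mul, mul_comm,
    Nat.Ioc_filter_dvd_card_eq_div]

theorem sqf2 : SSqf := by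
  refine ⟨4, by norm_num, fun N => ?_⟩
  rw [sqf2_count]
  rcases Nat.eq_zero_or_pos N with hN | hN
  · subst hN
    simp [Pool.Agent.H66R2.RZFI1.mu]
  set D := Nat.sqrt N with hD
  have hNpos : (0 : ℝ) < N := by exact_mod_cast hN
  have hs1 : (D : ℝ) ≤ Real.sqrt N := by
    apply Real.le_sqrt_of_sq_le
    exact_mod_cast Nat.sqrt_le' N
  have hs2 : Real.sqrt N ≤ (D : ℝ) + 1 := by
    rw [Real.sqrt_le_left (by positivity)]
    have := Nat.lt_succ_sqrt' N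
    have h : N < (D + 1) ^ 2 := this
    exact_mod_cast h.le
  have hs3 : (1 : ℝ) ≤ Real.sqrt N := by
    rw [Real.one_le_sqrt]
    exact_mod_cast hN
  have hss : Real.sqrt N * Real.sqrt N = N := Real.mul_self_sqrt hNpos.le
  have hA : |∑ d ∈ range (D + 1), Pool.Agent.H66R2.RZFI1.mu d * ((N / d ^ 2 : ℕ) : ℝ) -
      (N : ℝ) * ∑ d ∈ range (D + 1), Pool.Agent.H66R2.RZFI1.mu d / (d : ℝ) ^ 2| ≤
      (D : ℝ) + 1 := by
    rw [Finset.mul_sum, ← Finset.sum_sub_distrib]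
    refine (Finset.abs_sum_le_sum_abs _ _).trans ?_
    have : ((D : ℝ) + 1) = ∑ d ∈ range (D + 1), (1 : ℝ) := by simp
    rw [this]
    refine Finset.sum_le_sum fun d _ => ?_
    have he : Pool.Agent.H66R2.RZFI1.mu d * ((N / d ^ 2 : ℕ) : ℝ) -
        (N : ℝ) * (Pool.Agent.H66R2.RZFI1.mu d / (d : ℝ) ^ 2) =
        Pool.Agent.H66R2.RZFI1.mu d * (((N / d ^ 2 : ℕ) : ℝ) - (N : ℝ) / ((d ^ 2 : ℕ) : ℝ)) := by
      push_cast
      ring
    rw [he, abs_mul]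
    have h1 := Pool.Agent.H66R2.RZFI1.mu_abs d
    have h2 : |((N / d ^ 2 : ℕ) : ℝ) - (N : ℝ) / ((d ^ 2 : ℕ) : ℝ)| ≤ 1 := by
      rw [abs_le]
      constructor
      · have := Nat.lt_floor_add_one ((N : ℝ) / ((d ^ 2 : ℕ) : ℝ))
        rw [Nat.floor_div_natCast, Nat.floor_natCast] at this
        linarith
      · have := @Nat.cast_div_le ℝ _ _ _ N (d ^ 2)
        linarith
    calc |Pool.Agent.H66R2.RZFI1.mu d| * |((N / d ^ 2 : ℕ) : ℝ) - (N : ℝ) / ((d ^ 2 : ℕ) : ℝ)|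
        ≤ 1 * 1 := mul_le_mul h1 h2 (abs_nonneg _) zero_le_one
      _ = 1 := one_mul 1
  have hB := sqf2_tail D
  have hC : |(N : ℝ) * ∑ d ∈ range (D + 1), Pool.Agent.H66R2.RZFI1.mu d / (d : ℝ) ^ 2 -
      6 / Real.pi ^ 2 * N| ≤ 2 * Real.sqrt N := by
    have he : (N : ℝ) * ∑ d ∈ range (D + 1), Pool.Agent.H66R2.RZFI1.mu d / (d : ℝ) ^ 2 -
      6 / Real.pi ^ 2 * N = -(N * (6 / Real.pi ^ 2 -
        ∑ d ∈ range (D + 1), Pool.Agent.H66R2.RZFI1.mu d / (d : ℝ) ^ 2)) := by ring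
    rw [he, abs_neg, abs_mul, abs_of_pos hNpos]
    calc (N : ℝ) * _ ≤ N * (2 / ((D : ℝ) + 1)) := mul_le_mul_of_nonneg_left hB hNpos.le
      _ ≤ 2 * Real.sqrt N := by
        rw [mul_div_assoc', div_le_iff₀ (by positivity)]
        nlinarith
  have hE := abs_add_le (∑ d ∈ range (D + 1), Pool.Agent.H66R2.RZFI1.mu d * ((N / d ^ 2 : ℕ) : ℝ) -
      (N : ℝ) * ∑ d ∈ range (D + 1), Pool.Agent.H66R2.RZFI1.mu d / (d : ℝ) ^ 2)
      ((N : ℝ) * ∑ d ∈ range (D + 1), Pool.Agent.H66R2.RZFI1.mu d / (d : ℝ) ^ 2 -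
      6 / Real.pi ^ 2 * N)
  rw [sub_add_sub_cancel] at hE
  linarith

end Pool.Agent.W815.RGC
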