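import Pool.Agent.W815.RGC.Stm

set_option autoImplicit false

/-!
# Project RGE: Gaussian law in short intervals for almost every random multiplicative function
-/

namespace Pool.Agent.W815.RGE

open Finset MeasureTheory Filter Topology Pool.Agent.Helper497.HS Pool.Agent.H595R2.PTF
open Pool.Agent.W815.RGC

/-- sum of products over injective `j`-tuples of integers in `(a, a+K]` -/
noncomputable def S (g : ℕ → ℝ) (j a K : ℕ) : ℝ :=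
  ∑ u : Fin j ↪ {n // n ∈ Ioc a (a + K)}, ∏ i, g (u i)

/-- number of squarefree integers in `(a, a+K]` -/
noncomputable def Nn (a K : ℕ) : ℝ :=
  open Classical in (((Ioc a (a + K)).filter Squarefree).card : ℝ)

/-- weighted sums over `a` -/
noncomputable def AA (g : ℕ → ℝ) (j m B B' K : ℕ) : ℝ := ∑ a ∈ Ico B B', Nn a K ^ m * S g j a K

/-- the random signs function on the cube -/
noncomputable abbrev cf (M : ℕ) (x : Fin M → ℤˣ) : ℕ → ℝ := rf (ext M x)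

/-- pairs with a large common factor in the same window -/
noncomputable def Gs (g : ℕ → ℝ) (G : ℝ) (a K : ℕ) : ℝ :=
  ∑ n ∈ Ioc a (a + K), ∑ m ∈ Ioc a (a + K), if n ≠ m ∧ G ≤ (n.gcd m : ℝ) then g n * g m else 0

/-- pairs with a large common factor in two windows -/
noncomputable def Gc (g : ℕ → ℝ) (G : ℝ) (a b K : ℕ) : ℝ :=
  ∑ n ∈ Ioc a (a + K), ∑ m ∈ Ioc b (b + K), if G ≤ (n.gcd m : ℝ) then g n * g m else 0

/-- EXP: powers of the window sum through the injective sums -/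
def SExpn : Prop := ∃ c : ℕ → ℕ → ℕ → ℝ, (∀ k j m, k < 2 * m + j → c k j m = 0) ∧
  (∀ i, c (2 * i) 0 i = ((2 * i - 1).doubleFactorial : ℝ)) ∧
  ∀ (s : ℕ → ℤˣ) (k a K : ℕ), W (rf s) a K ^ k =
    ∑ j ∈ range (k + 1), ∑ m ∈ range (k + 1), c k j m * Nn a K ^ m * S (rf s) j a K

/-- HYP: norms of the window sum -/
def SHyp : Prop := ∀ (M a K d i : ℕ), a + K < M → (∀ n ∈ Icc 1 (a + K), n.primeFactors.card ≤ d) →
  Ex (fun x : Fin M → ℤˣ => W (cf M x) a K ^ (2 ^ (i + 1))) ≤ ((3 : ℝ) ^ (i * d) * K) ^ (2 ^ i)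

/-- HOL: products of powers of two window sums -/
def SHol : Prop := SHyp → ∀ (M a b K d i p q : ℕ), a + K < M → b + K < M →
  (∀ n ∈ Icc 1 M, n.primeFactors.card ≤ d) → p + q ≤ 2 ^ i →
  Ex (fun x : Fin M → ℤˣ => (W (cf M x) a K ^ p * W (cf M x) b K ^ q) ^ 2) ≤
    4 * ((3 : ℝ) ^ (i * d) * K) ^ (p + q)

/-- GCD: a large common factor exists -/
def SGcd : Prop := ∀ (r B : ℕ) (n : Fin (r + 2) → ℕ), 1 ≤ B → (∀ i, B ≤ n i) →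
  (∀ i, Squarefree (n i)) → IsSquare (∏ i, n i) → ∀ i, ∃ l, l ≠ i ∧
    (B : ℝ) ^ (1 / ((r : ℝ) + 1)) ≤ ((n i).gcd (n l) : ℝ)

/-- SPLIT -/
def SSplit : Prop := SGcd → ∀ (M J B a b K : ℕ), 1 ≤ B → B ≤ a → B ≤ b → a + K < M → b + K < M →
  Ex (fun x : Fin M → ℤˣ => S (cf M x) (J + 1) a K * S (cf M x) (J + 1) b K) ≤
    (J : ℝ) * Ex (fun x : Fin M → ℤˣ => Gs (cf M x) ((B : ℝ) ^ (1 / (2 * (J : ℝ) + 1))) a K *
      (W (cf M x) a K ^ (J - 1) * W (cf M x) b K ^ (J + 1))) +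
    ((J : ℝ) + 1) * Ex (fun x : Fin M → ℤˣ =>
      Gc (cf M x) ((B : ℝ) ^ (1 / (2 * (J : ℝ) + 1))) a b K *
      (W (cf M x) a K ^ J * W (cf M x) b K ^ J))

/-- SAME: pairs in the same window -/
def SSame : Prop := ∀ ε θ : ℝ, 0 < ε → ε < 1 → 0 < θ → ∃ c C : ℝ, 0 < c ∧ 0 < C ∧
  ∀ M B a K : ℕ, 1 ≤ B → B ≤ a → a ≤ 3 * B → 1 ≤ K → (K : ℝ) ≤ (B : ℝ) ^ (1 - ε) → a + K < M →
    nsq (fun x : Fin M → ℤˣ => Gs (cf M x) ((B : ℝ) ^ θ) a K) ≤ C * (K : ℝ) ^ 2 * (B : ℝ) ^ (-c)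

/-- CROSS: pairs in two windows -/
def SCross : Prop := SCnt → ∀ ε θ : ℝ, 0 < ε → ε < 1 → 0 < θ → ∃ c C : ℝ, 0 < c ∧ 0 < C ∧
  ∀ M B B' K : ℕ, 1 ≤ B → B' ≤ 3 * B → 1 ≤ K → (K : ℝ) ≤ (B : ℝ) ^ (1 - ε) → 3 * B + K < M →
    ∑ a ∈ Ico B B', ∑ b ∈ Ico B B',
      nsq (fun x : Fin M → ℤˣ => Gc (cf M x) ((B : ℝ) ^ θ) a b K) ≤
      C * (B : ℝ) ^ (2 - c) * (K : ℝ) ^ 2

/-- QB: the second moment of the weighted sums -/
def SQb : Prop := ∀ (ε : ℝ) (j m : ℕ), 0 < ε → ε < 1 → 1 ≤ j → ∃ c C : ℝ, 0 < c ∧ 0 < C ∧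
  ∀ B B' K : ℕ, 1 ≤ B → B' ≤ 3 * B → 1 ≤ K → (K : ℝ) ≤ (B : ℝ) ^ (1 - ε) →
    nsq (fun x : Fin (3 * B + K + 1) → ℤˣ => AA (cf (3 * B + K + 1) x) j m B B' K) ≤
      C * (B : ℝ) ^ (2 - c) * (K : ℝ) ^ (2 * m + j)

/-- QBP: assembly of the second moment bound -/
def SQbp : Prop := SDeg → SHyp → SHol → SGcd → SSplit → SSame → SCnt → SCross → SQb

/-- the almost sure property -/
def GoodG (s : ℕ → ℤˣ) : Prop := ∀ ε : ℝ, 0 < ε → ε < 1 → ∀ j m : ℕ, 1 ≤ j →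
  ∃ c : ℝ, 0 < c ∧ ∃ B₀ : ℕ, ∀ B : ℕ, B₀ ≤ B → ∀ B' : ℕ, B' ≤ 3 * B → ∀ K : ℕ, 1 ≤ K →
    (K : ℝ) ≤ (B : ℝ) ^ (1 - ε) →
    |AA (rf s) j m B B' K| ≤ (B : ℝ) ^ (1 - c) * (K : ℝ) ^ ((m : ℝ) + (j : ℝ) / 2)

/-- BCG -/
def SBcg : Prop := SQb → STail → SDeg → SLaw → ∀ (Ω : Type) (_ : MeasurableSpace Ω) (μ : Measure Ω)
  (_ : IsProbabilityMeasure μ) (e : ℕ → Ω → ℤˣ), IsSigns μ e →
  ∀ᵐ ω ∂μ, GoodG (fun p => e p ω)

/-- NAV: the number of squarefree integers in windows -/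
def SNav : Prop := ∃ C : ℝ, 0 < C ∧ ∀ B K : ℕ, 1 ≤ K → K ≤ B →
  ∑ a ∈ range (3 * B), |Nn a K - 6 / Real.pi ^ 2 * K| ≤ C * B * Real.sqrt K

/-- moments of the standard normal law -/
noncomputable def gm (k : ℕ) : ℝ := if Even k then ((k - 1).doubleFactorial : ℝ) else 0

/-- ML: convergence of the moments along sequences -/
def SMl : Prop := SExpn → SNav → ∀ s : ℕ → ℤˣ, GoodG s → ∀ ε : ℝ, 0 < ε → ε < 1 →
  ∀ B B' K : ℕ → ℕ, Tendsto B atTop atTop →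
    (∀ n, 3 * B n ≤ 2 * B' n ∧ B' n ≤ 3 * B n ∧ 1 ≤ K n ∧ (B n : ℝ) ^ ε ≤ K n ∧
      (K n : ℝ) ≤ (B n : ℝ) ^ (1 - ε)) →
    ∀ k : ℕ, Tendsto (fun n => (∑ a ∈ Ico (B n) (B' n),
      (W (rf s) a (K n) / Real.sqrt (6 / Real.pi ^ 2 * K n)) ^ k) / ((B' n : ℝ) - B n)) atTop
      (nhds (gm k))

/-- MM: the method of moments for finite averages -/
def SMm : Prop := ∀ (A : ℕ → Finset ℕ) (Z : ℕ → ℕ → ℝ), (∀ n, (A n).Nonempty) →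
  (∀ k : ℕ, Tendsto (fun n => (∑ a ∈ A n, Z n a ^ k) / ((A n).card : ℝ)) atTop (nhds (gm k))) →
  ∀ t : ℝ, Tendsto (fun n => (((A n).filter (fun a => Z n a ≤ t)).card : ℝ) / ((A n).card : ℝ))
    atTop (nhds (ProbabilityTheory.cdf (ProbabilityTheory.gaussianReal 0 1) t))

/-- uniform convergence of the distribution functions of the window sums -/
def Unif (s : ℕ → ℤˣ) : Prop := ∀ ε t η : ℝ, 0 < ε → ε < 1 → 0 < η → ∃ B₀ : ℕ, ∀ B B' K : ℕ,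
  B₀ ≤ B → 3 * B ≤ 2 * B' → B' ≤ 3 * B → (B : ℝ) ^ ε ≤ K → (K : ℝ) ≤ (B : ℝ) ^ (1 - ε) →
    |(((Ico B B').filter (fun a => W (rf s) a K / Real.sqrt (6 / Real.pi ^ 2 * K) ≤ t)).card : ℝ) /
      ((B' : ℝ) - B) - ProbabilityTheory.cdf (ProbabilityTheory.gaussianReal 0 1) t| ≤ η

/-- CDF -/
def SCdf : Prop := SMl → SExpn → SNav → SMm → ∀ s : ℕ → ℤˣ, GoodG s → Unif s

/-- the window sum of the problem -/
noncomputable def Mx (g : ℕ → ℝ) (x H : ℝ) : ℝ :=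
  ∑ n ∈ (Finset.range (⌊x + H⌋₊ + 1)).filter (fun n : ℕ => |(n : ℝ) - x| < H / 2), g n

/-- REAL: from real windows to integer windows -/
def SReal : Prop := ∀ (g : ℕ → ℝ) (X H τ : ℝ), 2 ≤ X → 1 ≤ H → H ≤ X →
  |(volume {x : ℝ | x ∈ Set.Icc X (2 * X) ∧ Mx g x H ≤ τ}).toReal -
    ((1 - Int.fract H) *
      (((Ico ⌊X - H / 2⌋₊ ⌊2 * X - H / 2⌋₊).filter (fun a => W g a ⌊H⌋₊ ≤ τ)).card : ℝ) +
     Int.fract H *
      (((Ico ⌊X - H / 2⌋₊ ⌊2 * X - H / 2⌋₊).filter (fun a => W g a (⌊H⌋₊ + 1) ≤ τ)).card : ℝ))| ≤ 2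

/-- LAST: the Gaussian law -/
def SLast : Prop := SReal → ∀ s : ℕ → ℤˣ, Unif s → ∀ ε : ℝ, 0 < ε → ε < 1 / 2 → ∀ H : ℝ → ℝ,
  (∀ᶠ X in atTop, X ^ ε < H X ∧ H X < X ^ (1 - ε)) → ∀ t : ℝ,
    Tendsto (fun X : ℝ => (volume {x : ℝ | x ∈ Set.Icc X (2 * X) ∧
      Mx (rf s) x (H X) / Real.sqrt (H X / (Real.pi ^ 2 / 6)) ≤ t}).toReal / X)
      atTop (nhds (ProbabilityTheory.cdf (ProbabilityTheory.gaussianReal 0 1) t))

end Pool.Agent.W815.RGE
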