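import Pool.Agent.W815.RGC.Stm

set_option autoImplicit false

namespace Pool.Agent.W815.RGC

open Finset MeasureTheory Filter Topology

/-- from the uniform power saving to the limit along every `H(X)` -/
theorem tend (g : ℕ → ℝ)
    (h : ∀ ε : ℝ, 0 < ε → ε < 1 → ∃ δ X₀ : ℝ, 0 < δ ∧ ∀ X H : ℝ, X₀ ≤ X → 1 ≤ H →
      H ≤ X ^ (1 - ε) → |V g X H / (H / (Real.pi ^ 2 / 6)) - 1| ≤ X ^ (-δ)) :
    ∀ ε : ℝ, 0 < ε → ∀ H : ℝ → ℝ, (∀ᶠ X in atTop, X ^ ε < H X ∧ H X < X ^ (1 - ε)) →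
      Tendsto (fun X : ℝ => V g X (H X) / (H X / (Real.pi ^ 2 / 6))) atTop (nhds 1) := by
  intro ε hε H hH
  by_cases h1 : ε < 1
  · obtain ⟨δ, X₀, hδ, hX⟩ := h ε hε h1
    rw [tendsto_iff_dist_tendsto_zero]
    have h2 : Tendsto (fun X : ℝ => X ^ (-δ)) atTop (nhds 0) := tendsto_rpow_neg_atTop hδ
    refine squeeze_zero' (Eventually.of_forall fun _ => dist_nonneg) ?_ h2
    filter_upwards [hH, eventually_ge_atTop X₀, eventually_ge_atTop (1 : ℝ)] with X hX1 hX2 hX3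
    rw [Real.dist_eq]
    refine hX X (H X) hX2 ?_ hX1.2.le
    have : (1 : ℝ) ≤ X ^ ε := Real.one_le_rpow hX3 hε.le
    linarith [hX1.1]
  · exfalso
    have h3 : ∀ᶠ X : ℝ in atTop, False := by
      filter_upwards [hH, eventually_ge_atTop (1 : ℝ)] with X hX1 hX3
      have h4 : X ^ (1 - ε) ≤ X ^ ε := Real.rpow_le_rpow_of_exponent_le hX3 (by linarith)
      linarith [hX1.1, hX1.2]
    exact h3.exists.elim fun _ h => h

end Pool.Agent.W815.RGC
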